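import Pool.Agent.Helper454.Kauf.Defs

/-! Regular isotopy of parts of sliced diagrams, as a congruence. -/

set_option autoImplicit false
set_option linter.unusedSimpArgs false

namespace Pool.Agent.Helper82_Alt

open Pool.Agent.Helper454.Kauf
open Pool.Agent.Helper454.Kauf.Piece (birth death pos neg)

theorem width_append (u v : Word) (n : ℕ) :
    width (u ++ v) n = (width u n).bind (width v) := by
  induction u generalizing n with
  | nil => rfl
  | cons p u ih =>
    simp only [List.cons_append, width]
    rcases p.width n with _ | m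
    · rfl
    · simp only [Option.bind_some]; exact ih m

theorem regStep_symm {w w' : Word} (h : RegIsotopic w w') : RegIsotopic w' w := h.symm

/-- `l` and `r` fit to `n` strands, have the same number of strands below, and can be exchanged in
link diagrams. -/
def E (n : ℕ) (l r : Word) : Prop :=
  (∃ m, width l n = some m ∧ width r n = some m) ∧
    ∀ x y, width x 0 = some n → Closed (x ++ l ++ y) → RegIsotopic (x ++ l ++ y) (x ++ r ++ y)

theorem closed_of_E {n : ℕ} {l r x y : Word}
    (h : ∃ m, width l n = some m ∧ width r n = some m)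
    (hx : width x 0 = some n) (hc : Closed (x ++ l ++ y)) : Closed (x ++ r ++ y) := by
  obtain ⟨m, h1, h2⟩ := h
  unfold Closed at *
  rw [width_append, width_append, hx, Option.bind_some, h1] at hc
  rw [width_append, width_append, hx, Option.bind_some, h2]
  exact hc

theorem E.refl {n m : ℕ} {l : Word} (h : width l n = some m) : E n l l :=
  ⟨⟨m, h, h⟩, fun _ _ _ _ => Relation.EqvGen.refl _⟩

theorem E.symm {n : ℕ} {l r : Word} (h : E n l r) : E n r l := by
  obtain ⟨⟨m, h1, h2⟩, h3⟩ := h
  refine ⟨⟨m, h2, h1⟩, fun x y hx hc => ?_⟩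
  exact (h3 x y hx (closed_of_E ⟨m, h2, h1⟩ hx hc)).symm

theorem E.trans {n : ℕ} {l r s : Word} (h : E n l r) (h' : E n r s) : E n l s := by
  obtain ⟨⟨m, h1, h2⟩, h3⟩ := h
  obtain ⟨⟨m', h1', h2'⟩, h3'⟩ := h'
  have : m' = m := by rw [h2] at h1'; exact (Option.some.inj h1').symm
  subst this
  refine ⟨⟨m', h1, h2'⟩, fun x y hx hc => ?_⟩
  exact (h3 x y hx hc).trans _ _ _ (h3' x y hx (closed_of_E ⟨m', h1, h2⟩ hx hc))

theorem E.cong {n m : ℕ} {l r : Word} (u v : Word) (h : E n l r) (hu : width u m = some n)
    (hv : ∃ k, width (u ++ l ++ v) m = some k) : E m (u ++ l ++ v) (u ++ r ++ v) := by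
  obtain ⟨⟨m', h1, h2⟩, h3⟩ := h
  obtain ⟨k, hk⟩ := hv
  refine ⟨⟨k, hk, ?_⟩, fun x y hx hc => ?_⟩
  · rw [width_append, width_append, hu, Option.bind_some, h1] at hk
    rw [width_append, width_append, hu, Option.bind_some, h2]
    exact hk
  · have hxu : width (x ++ u) 0 = some n := by rw [width_append, hx, Option.bind_some, hu]
    have := h3 (x ++ u) (v ++ y) hxu (by simpa only [List.append_assoc] using hc)
    simpa only [List.append_assoc] using this

theorem E.left {n m : ℕ} {l r : Word} (u : Word) (h : E n l r) (hu : width u m = some n) :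
    E m (u ++ l) (u ++ r) := by
  obtain ⟨⟨m', h1, h2⟩, h3⟩ := h
  have := E.cong u [] ⟨⟨m', h1, h2⟩, h3⟩ hu ⟨m', by
    rw [List.append_nil, width_append, hu, Option.bind_some, h1]⟩
  simpa only [List.append_nil] using this

theorem E.right {n : ℕ} {l r : Word} (v : Word) (h : E n l r)
    (hv : ∃ k, width (l ++ v) n = some k) : E n (l ++ v) (r ++ v) := by
  have := E.cong [] v h (m := n) rfl (by simpa using hv)
  simpa using this

theorem E_of_local {n m : ℕ} {l r : Word} (h : LocalMove l r) (h1 : width l n = some m)
    (h2 : width r n = some m) : E n l r :=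
  ⟨⟨m, h1, h2⟩, fun x y hx hc => Relation.EqvGen.rel _ _
    (RegStep.mk x l r y h hc (closed_of_E ⟨m, h1, h2⟩ hx hc))⟩

/-! ### widths -/

/-- the crossing `pos` (for `false`) or `neg` (for `true`) -/
def cx (b : Bool) (i : ℕ) : Piece := if b then neg i else pos i

theorem w_nil (n : ℕ) : width [] n = some n := rfl

theorem w_birth {i n : ℕ} (w : Word) (h : i ≤ n) : width (birth i :: w) n = width w (n + 2) := by
  simp only [width, Piece.width, if_pos h, Option.bind_some]

theorem w_death {i n : ℕ} (w : Word) (h : i + 2 ≤ n) :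
    width (death i :: w) n = width w (n - 2) := by
  simp only [width, Piece.width, if_pos h, Option.bind_some]

theorem w_cx (b : Bool) {i n : ℕ} (w : Word) (h : i + 2 ≤ n) :
    width (cx b i :: w) n = width w n := by
  cases b
  · show width (pos i :: w) n = width w n
    simp only [width, Piece.width, if_pos h, Option.bind_some]
  · show width (neg i :: w) n = width w n
    simp only [width, Piece.width, if_pos h, Option.bind_some]

theorem cx_false (i : ℕ) : cx false i = pos i := rfl
theorem cx_true (i : ℕ) : cx true i = neg i := rfl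

/-! ### the elementary moves -/

theorem e_zig1 {n i : ℕ} (h : i < n) : E n [birth i, death (i + 1)] [] := by
  refine E_of_local (LocalMove.zigzag₁ i) (m := n) ?_ rfl
  rw [w_birth _ (by omega), w_death _ (by omega), w_nil]
  congr 1

theorem e_zig2 {n i : ℕ} (h : i < n) : E n [birth (i + 1), death i] [] := by
  refine E_of_local (LocalMove.zigzag₂ i) (m := n) ?_ rfl
  rw [w_birth _ (by omega), w_death _ (by omega), w_nil]
  congr 1

theorem e_sb {n i : ℕ} (b : Bool) (h : i < n) :
    E n [birth i, cx b (i + 1)] [birth (i + 1), cx (!b) i] := by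
  have hl : ∀ c : Bool, width [birth i, cx c (i + 1)] n = some (n + 2) := by
    intro c
    rw [w_birth _ (by omega), w_cx _ _ (by omega), w_nil]
  have hr : ∀ c : Bool, width [birth (i + 1), cx c i] n = some (n + 2) := by
    intro c
    rw [w_birth _ (by omega), w_cx _ _ (by omega), w_nil]
  cases b
  · exact E_of_local (LocalMove.slideBirth₁ i) (hl false) (hr true)
  · exact E_of_local (LocalMove.slideBirth₂ i) (hl true) (hr false)

theorem e_sd {n i : ℕ} (b : Bool) (h : i + 3 ≤ n) :
    E n [cx b (i + 1), death i] [cx (!b) i, death (i + 1)] := by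
  have hl : ∀ c : Bool, width [cx c (i + 1), death i] n = some (n - 2) := by
    intro c
    rw [w_cx _ _ (by omega), w_death _ (by omega), w_nil]
  have hr : ∀ c : Bool, width [cx c i, death (i + 1)] n = some (n - 2) := by
    intro c
    rw [w_cx _ _ (by omega), w_death _ (by omega), w_nil]
  cases b
  · exact E_of_local (LocalMove.slideDeath₁ i) (hl false) (hr true)
  · exact E_of_local (LocalMove.slideDeath₂ i) (hl true) (hr false)

theorem width_cx2 {n i j : ℕ} (b c : Bool) (h : i + 2 ≤ n) (h' : j + 2 ≤ n) :
    width [cx b i, cx c j] n = some n := by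
  rw [w_cx _ _ h, w_cx _ _ h', w_nil]

theorem width_cx3 {n i j k : ℕ} (b c d : Bool) (h : i + 2 ≤ n) (h' : j + 2 ≤ n) (h'' : k + 2 ≤ n) :
    width [cx b i, cx c j, cx d k] n = some n := by
  rw [w_cx _ _ h, w_cx _ _ h', w_cx _ _ h'', w_nil]

theorem e_r2 {n i : ℕ} (b : Bool) (h : i + 2 ≤ n) : E n [cx b i, cx (!b) i] [] := by
  cases b
  · exact E_of_local (LocalMove.second₁ i) (width_cx2 false true h h) rfl
  · exact E_of_local (LocalMove.second₂ i) (width_cx2 true false h h) rfl

theorem e_third {n i : ℕ} (h : i + 3 ≤ n) :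
    E n [pos i, pos (i + 1), pos i] [pos (i + 1), pos i, pos (i + 1)] :=
  E_of_local (LocalMove.third i)
    (width_cx3 false false false (by omega) (by omega) (by omega))
    (width_cx3 false false false (by omega) (by omega) (by omega))

/-- exchange of two far pieces -/
theorem e_far {n : ℕ} (p q : Piece) (h : p.index + p.ins ≤ q.index) (h' : q.index + q.ins ≤ n) :
    E n [p, q.moved (q.index + p.outs - p.ins)] [q, p] := by
  refine E_of_local (LocalMove.exchange p q h) (m := n + p.outs + q.outs - p.ins - q.ins) ?_ ?_
  · cases p <;> cases q <;>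
      simp only [width, Piece.width, Piece.index, Piece.ins, Piece.outs, Piece.moved] at * <;>
      (repeat (first | rw [if_pos (by omega)] | rw [Option.bind_some])) <;>
      congr 1 <;> omega
  · cases p <;> cases q <;>
      simp only [width, Piece.width, Piece.index, Piece.ins, Piece.outs, Piece.moved] at * <;>
      (repeat (first | rw [if_pos (by omega)] | rw [Option.bind_some])) <;>
      congr 1 <;> omega

end Pool.Agent.Helper82_Alt
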