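import Pool.Agent.Helper82_Alt.A9

/-! Every skein predicate holds. -/

set_option autoImplicit false
set_option linter.unusedSimpArgs false

namespace Pool.Agent.Helper82_Alt

open Pool.Agent.Helper454.Kauf
open Pool.Agent.Helper454.Kauf.Piece (birth death pos neg)

/-- the predicate holds for all layered diagrams followed by `y` -/
def Good (G : ℤ → Word → Prop) (y : Word) : Prop :=
  ∀ s w c, Rep s w → (C2 s : ℤ) ≤ 2 * c → Closed (w ++ y) → w ++ y ≠ [] → G (c + crs y) (w ++ y)

theorem Rep.ne_nil {s : List ℕ} {w : Word} (h : Rep s w) (hs : s ≠ []) : w ≠ [] := by
  rintro rfl
  have := h.w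
  simp only [w_nil, Option.some.injEq] at this
  exact hs (List.eq_nil_of_length_eq_zero this.symm)

theorem good_nil {G : ℤ → Word → Prop} : Good G [] := by
  intro s w c h _ hcl hne
  exfalso
  rw [List.append_nil] at hcl hne
  have := h.w
  rw [show width w 0 = some 0 from hcl] at this
  have hs : s = [] := List.eq_nil_of_length_eq_zero (Option.some.inj this).symm
  subst hs
  exact hne (h.unique Rep.nil)

theorem good_birth {G : ℤ → Word → Prop} (hG : Sk G) {y : Word} (hy : Good G y) (i : ℕ) :
    Good G (birth i :: y) := by
  intro s w c h hc hcl _
  have hw := h.w
  have hi : i ≤ s.length := by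
    by_contra hcon
    unfold Closed at hcl
    rw [width_append, hw, Option.bind_some] at hcl
    simp [width, Piece.width, hcon] at hcl
  obtain ⟨j, hj⟩ : ∃ j, j ∉ s := by
    refine ⟨s.sum + 1, fun hm => ?_⟩
    have := List.le_sum_of_mem hm
    omega
  have hsp : s = s.take i ++ s.drop i := (List.take_append_drop i s).symm
  obtain ⟨w', r, e⟩ := bslide h (s.take i) (s.drop i) j hsp hj
  have hl : (s.take i).length = i := by simp [hi]
  rw [hl] at e
  have hC : C2 (s.take i ++ j :: j :: s.drop i) ≤ C2 s := by
    have := C2_ins (A := s.take i) (B := s.drop i) (j := j) (by rwa [← hsp])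
    rwa [← hsp] at this
  have hcl' : Closed (w' ++ y) := by
    refine (closed_congr ?_ y).1 (by simpa using hcl : Closed ((w ++ [birth i]) ++ y))
    obtain ⟨⟨m, h1, h2⟩, _⟩ := e
    exact h1.trans h2.symm
  have h1 := hy _ w' c r (by omega) hcl' (by
    intro hnil
    exact r.ne_nil (by simp) (List.append_eq_nil_iff.1 hnil).1)
  have := red_E hG (y := y) e (by simpa using hcl) h1
  simpa [crs] using this

/-- number of names strictly between `j` and `k` -/
def btw (s : List ℕ) (j k : ℕ) : Finset ℕ := s.toFinset.filter (fun x => min j k < x ∧ x < max j k)

theorem good_death_aux {G : ℤ → Word → Prop} (hG : Sk G) {y : Word} (hy : Good G y) :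
    ∀ (m b : ℕ) (P Q : List ℕ) (j k : ℕ) (w : Word) (c : ℤ), Rep (P ++ j :: k :: Q) w →
      C2 (P ++ j :: k :: Q) ≤ m → (btw (P ++ j :: k :: Q) j k).card ≤ b →
      (C2 (P ++ j :: k :: Q) : ℤ) ≤ 2 * c → Closed (w ++ death P.length :: y) →
      G (c + crs y) (w ++ death P.length :: y) := by
  intro m
  induction m using Nat.strong_induction_on with
  | _ m ihm =>
    intro b
    induction b with
    | zero =>
      intro P Q j k w c h hm hb hc hcl
      have hcl2 : Closed ((w ++ [death P.length]) ++ y) := by simpa using hcl
      by_cases hjk : j = k
      · subst hjk
        have hcount := h.two j (by simp)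
        have hj : j ∉ P ++ Q := by
          rw [← List.count_eq_zero]
          simp only [List.count_append, List.count_cons_self] at hcount ⊢
          omega
        obtain ⟨w₀, h0⟩ := h.erase j
        have hf : (P ++ j :: j :: Q).filter (fun x => x ≠ j) = P ++ Q := by
          simp only [List.mem_append, not_or] at hj
          simp only [List.filter_append, List.filter_cons]
          rw [filt1 hj.1, filt1 hj.2]
          simp
        rw [hf] at h0
        obtain ⟨w₁, h1, e1⟩ := bslide h0 P Q j rfl hj
        have hww := h.unique h1
        subst hww
        have hw0 := h0.w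
        have hPn : P.length ≤ (P ++ Q).length := by simp
        have e2 : E 0 (w ++ [death P.length]) (w₀ ++ [birth P.length, death P.length]) := by
          have := E0_append (v := [death P.length]) e1.symm ⟨(P ++ Q).length, by
            rw [width_append, width_append, hw0, Option.bind_some, w_birth _ hPn, w_nil,
              Option.bind_some, w_death _ (by omega), w_nil]; rfl⟩
          simpa using this
        have hcl3 : Closed (w₀ ++ y) := by
          refine (closed_congr ?_ y).1 hcl2
          obtain ⟨⟨a, k1, k2⟩, _⟩ := e2
          rw [k1, ← k2, width_append, hw0, Option.bind_some, w_birth _ hPn, w_death _ (by omega),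
            w_nil]
          rfl
        have hN : C2 (P ++ Q) ≤ C2 (P ++ j :: j :: Q) := by
          -- the pair jj does not interleave
          obtain ⟨v, hv⟩ : ∃ v, v ∉ P ++ j :: j :: Q := by
            refine ⟨(P ++ j :: j :: Q).sum + 1, fun hmm => ?_⟩
            have := List.le_sum_of_mem hmm
            omega
          have hvj : v ≠ j := by rintro rfl; exact hv (by simp)
          simp only [List.mem_append, List.mem_cons, not_or] at hv hj
          have := C2_le (s := P ++ j :: j :: Q) (s' := P ++ Q) hvj.symm 0 0 (by
            intro z z' h1 h2 h3 h4 _
            simp only [N_append, N_cons, List.count_cons, if_neg (Ne.symm h1), if_neg (Ne.symm h2),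
              beq_iff_eq, Ne.symm h1, Ne.symm h3, if_false, add_zero, zero_add, le_refl]) (by
            intro z h1 h2
            simp only [N_append, N_left z hj.1, N_left z hj.2, N_right z hj.1, N_right z hj.2,
              N_left z hv.1, N_right z hv.1, N_left z hv.2.2.2, N_right z hv.2.2.2, cnt hj.1,
              cnt hj.2, cnt hv.1, cnt hv.2.2.2]
            omega) (by
            simp only [N_append, N_left _ hj.1, N_left _ hj.2, N_right _ hj.1, N_right _ hj.2,
              N_left _ hv.1, N_right _ hv.1, N_left _ hv.2.2.2, N_right _ hv.2.2.2, cnt hj.1,
              cnt hj.2, cnt hv.1, cnt hv.2.2.2]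
            omega)
          omega
        have key : G (c + crs y) (w₀ ++ [birth P.length, death P.length] ++ y) := by
          by_cases hne : w₀ ++ y = []
          · obtain ⟨rfl, rfl⟩ := List.append_eq_nil_iff.1 hne
            rw [w_nil] at hw0
            have hP : P.length = 0 := by
              have := Option.some.inj hw0
              rw [List.length_append] at this
              omega
            rw [hP]
            refine hG.mono 0 _ _ ?_ hG.base
            simp [crs]
            have : (0 : ℤ) ≤ C2 (P ++ j :: j :: Q) := by positivity
            omega
          · refine hG.circ _ w₀ P.length y hcl3 hne ⟨_, hw0, hPn⟩ ?_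
            exact hy _ w₀ c h0 (by omega) hcl3 hne
        have := red_E hG (y := y) (c := c + crs y) e2 hcl2 key
        simpa using this
      · have ho : ∀ x ∈ P ++ Q, x ≠ j → x ≠ k → (x < j ↔ x < k) := by
          intro x hx hxj hxk
          have hx' : x ∉ btw (P ++ j :: k :: Q) j k := by
            rw [Finset.card_eq_zero.1 (Nat.le_zero.1 hb)]; simp
          have hxm : x ∈ P ++ j :: k :: Q := by
            simp only [List.mem_append, List.mem_cons] at hx ⊢; tauto
          simp only [btw, Finset.mem_filter, List.mem_toFinset, hxm, true_and, not_and] at hx'
          omega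
        obtain ⟨ε, s', w', r, e, hC, hlen⟩ := merge hjk ho h
        have hcl3 : Closed (w' ++ y) := (closed_congr e.1 y).1 hcl2
        have hs' : s' ≠ [] := by
          rintro rfl
          have h1 := h.two j (by simp)
          have h2 := h.two k (by simp)
          have h3 : (P ++ j :: k :: Q).length = 2 := by simpa using hlen.symm
          have h4 : P.length = 0 ∧ Q.length = 0 := by
            simp only [List.length_append, List.length_cons] at h3; omega
          have h5 := List.eq_nil_of_length_eq_zero h4.1
          have h6 := List.eq_nil_of_length_eq_zero h4.2
          subst h5 h6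
          simp [List.count_cons, hjk, Ne.symm hjk] at h1
        have h1 := hy s' w' (c - ε) r (by omega) hcl3 (by
          intro hnil; exact r.ne_nil hs' (List.append_eq_nil_iff.1 hnil).1)
        have h2 := e.2 G hG (c + crs y) y hcl2 (by
          have : c + (crs y : ℤ) - ε = c - ε + crs y := by ring
          rw [this]; exact h1)
        simpa using h2
    | succ b ihb =>
      intro P Q j k w c h hm hb hc hcl
      have hcl2 : Closed ((w ++ [death P.length]) ++ y) := by simpa using hcl
      by_cases hb' : (btw (P ++ j :: k :: Q) j k).card ≤ b
      · exact ihb P Q j k w c h hm hb' hc hcl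
      · have hne : (btw (P ++ j :: k :: Q) j k).Nonempty := by
          rw [← Finset.card_pos]; omega
        obtain ⟨v, hv, hvmin⟩ := Finset.exists_min_image _ id hne
        simp only [id] at hvmin
        set s := P ++ j :: k :: Q with hs
        set u := min j k with hu
        have hvs : v ∈ s ∧ u < v ∧ v < max j k := by
          have hv' := hv
          simp only [btw, Finset.mem_filter, List.mem_toFinset] at hv'
          exact hv'
        have hjk : j ≠ k := by
          rintro rfl
          have := hvs.2
          simp only [hu, min_self, max_self] at this
          omega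
        have hus : u ∈ s := by
          rcases min_choice j k with h | h
          · rw [hu, h, hs]; simp
          · rw [hu, h, hs]; simp
        have huv : u ≠ v := by omega
        have ho : ∀ x ∈ s, x ≠ u → x ≠ v → (x < u ↔ x < v) := by
          intro x hx hxu hxv
          constructor
          · intro hxu'; omega
          · intro hxv'
            by_contra hcon
            have : x ∈ btw s j k := by
              simp only [btw, Finset.mem_filter, List.mem_toFinset]
              refine ⟨hx, by omega, by omega⟩
            have := hvmin x this
            omega
        obtain ⟨w', r, hC, hex⟩ := exch h huv hus hvs.1 ho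
        have hsm : s.map (sw u v) = P.map (sw u v) ++ sw u v j :: sw u v k :: Q.map (sw u v) := by
          rw [hs]; simp
        -- the new pair
        have hpair : (sw u v j = v ∧ sw u v k = k ∧ j = u) ∨ (sw u v k = v ∧ sw u v j = j ∧ k = u) := by
          rcases lt_or_gt_of_ne hjk with hlt | hlt
          · left
            have h1 : u = j := by rw [hu]; exact min_eq_left hlt.le
            have h2 : max j k = k := max_eq_right hlt.le
            rw [h2] at hvs
            refine ⟨by simp [sw, h1], ?_, h1.symm⟩
            have h3 : k ≠ u := by omega
            have h4 : k ≠ v := by omega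
            simp [sw, h3, h4]
          · right
            have h1 : u = k := by rw [hu]; exact min_eq_right hlt.le
            have h2 : max j k = j := max_eq_left hlt.le
            rw [h2] at hvs
            refine ⟨by simp [sw, h1], ?_, h1.symm⟩
            have h3 : j ≠ u := by omega
            have h4 : j ≠ v := by omega
            simp [sw, h3, h4]
        have hset : (s.map (sw u v)).toFinset = s.toFinset := by
          ext x
          simp only [List.mem_toFinset, List.mem_map]
          constructor
          · rintro ⟨z, hz, rfl⟩
            unfold sw
            split_ifs with h1 h2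
            · exact hvs.1
            · exact hus
            · exact hz
          · intro hx
            by_cases h1 : x = u
            · exact ⟨v, hvs.1, by simp [sw, huv.symm, h1]⟩
            · by_cases h2 : x = v
              · exact ⟨u, hus, by simp [sw, h2]⟩
              · exact ⟨x, hx, by simp [sw, h1, h2]⟩
        have hcard : (btw (s.map (sw u v)) (sw u v j) (sw u v k)).card ≤ b := by
          have hsub : btw (s.map (sw u v)) (sw u v j) (sw u v k) ⊆ (btw s j k).erase v := by
            intro x hx
            simp only [btw, hset, Finset.mem_filter, List.mem_toFinset, Finset.mem_erase] at hx ⊢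
            rcases hpair with ⟨h1, h2, h3⟩ | ⟨h1, h2, h3⟩
            · rw [h1, h2] at hx
              rw [← h3] at hvs
              have : j < k := by
                have := hvs.2
                omega
              refine ⟨by omega, hx.1, by omega, by omega⟩
            · rw [h1, h2] at hx
              rw [← h3] at hvs
              have : k < j := by
                have := hvs.2
                omega
              refine ⟨by omega, hx.1, by omega, by omega⟩
          have h1 := Finset.card_le_card hsub
          have h2 := Finset.card_erase_lt_of_mem hv
          omega
        have hPl : (P.map (sw u v)).length = P.length := by simp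
        have hcl3 : Closed (w' ++ death P.length :: y) := by
          refine (closed_congr (w := w) ?_ _).1 hcl
          rw [h.w, r.w]; simp
        have g0 : G (c + crs y) (w' ++ death P.length :: y) := by
          rw [hsm] at r hcard hC
          have := ihb (P.map (sw u v)) (Q.map (sw u v)) (sw u v j) (sw u v k) w' c r (by omega)
            hcard (by omega) (by rw [hPl]; exact hcl3)
          rwa [hPl] at this
        refine hex G hG _ _ hcl g0 ?_
        intro s₁ w₁ r₁ hl₁ hC₁ hcl₁
        -- s₁ = P₁ ++ j₁ :: k₁ :: Q₁
        have hlen : P.length + 2 ≤ s₁.length := by
          rw [hl₁, hs, List.length_append, List.length_cons, List.length_cons]; omega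
        have hd : s₁ = s₁.take P.length ++ s₁[P.length] :: s₁[P.length + 1] ::
            s₁.drop (P.length + 2) := by
          rw [← List.drop_eq_getElem_cons, ← List.drop_eq_getElem_cons, List.take_append_drop]
        have htl : (s₁.take P.length).length = P.length := by
          rw [List.length_take]; omega
        rw [hd] at r₁ hC₁
        have := ihm (m - 1) (by omega) (btw (s₁.take P.length ++ s₁[P.length] ::
            s₁[P.length + 1] :: s₁.drop (P.length + 2)) s₁[P.length] s₁[P.length + 1]).card
          (s₁.take P.length) (s₁.drop (P.length + 2)) s₁[P.length] s₁[P.length + 1] w₁ (c - 1) r₁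
          (by omega) (le_refl _) (by omega) (by rw [htl]; exact hcl₁)
        rw [htl] at this
        have e : c + (crs y : ℤ) - 1 = c - 1 + crs y := by ring
        rw [e]; exact this

theorem good_death {G : ℤ → Word → Prop} (hG : Sk G) {y : Word} (hy : Good G y) (i : ℕ) :
    Good G (death i :: y) := by
  intro s w c h hc hcl _
  have hw := h.w
  have hi : i + 2 ≤ s.length := by
    by_contra hcon
    unfold Closed at hcl
    rw [width_append, hw, Option.bind_some] at hcl
    simp [width, Piece.width, hcon] at hcl
  have hd : s = s.take i ++ s[i] :: s[i + 1] :: s.drop (i + 2) := by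
    rw [← List.drop_eq_getElem_cons, ← List.drop_eq_getElem_cons, List.take_append_drop]
  have htl : (s.take i).length = i := by rw [List.length_take]; omega
  have h' := h
  have hc' := hc
  rw [hd] at h' hc'
  have := good_death_aux hG hy _ _ _ _ _ _ w c h' (le_refl _) (le_refl _) hc' (by
    rw [htl]; exact hcl)
  rw [htl] at this
  simpa [crs] using this

theorem good_cx {G : ℤ → Word → Prop} (hG : Sk G) {y : Word} (hy : Good G y) (b : Bool) (i : ℕ) :
    Good G (cx b i :: y) := by
  intro s w c h hc hcl _
  have hw := h.w
  have hi : i + 2 ≤ s.length := by
    by_contra hcon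
    unfold Closed at hcl
    rw [width_append, hw, Option.bind_some] at hcl
    cases b <;> simp [width, Piece.width, cx, hcon] at hcl
  have hd : s = s.take i ++ s[i] :: s[i + 1] :: s.drop (i + 2) := by
    rw [← List.drop_eq_getElem_cons, ← List.drop_eq_getElem_cons, List.take_append_drop]
  have htl : (s.take i).length = i := by rw [List.length_take]; omega
  have hcrs : (crs (cx b i :: y) : ℤ) = crs y + 1 := by cases b <;> simp [cx, crs]
  rw [hcrs]
  have hsne : s ≠ [] := by rintro rfl; simp at hi
  have hwne : ∀ v : Word, w ++ v ≠ [] := by
    intro v hnil; exact h.ne_nil hsne (List.append_eq_nil_iff.1 hnil).1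
  have hcl2 : Closed ((w ++ [cx b i]) ++ y) := by simpa using hcl
  have hcly : Closed (w ++ y) := by
    refine (closed_congr ?_ y).1 hcl2
    rw [width_append, hw, Option.bind_some, w_cx _ _ hi, w_nil]
  by_cases hxy : s[i] = s[i + 1]
  · have h' := h
    rw [hd, ← hxy] at h'
    have e := curl_at b h'
    rw [htl] at e
    have h1 := hy s w (c + 1 - sg b) h (by
      have : sg b ≤ 1 := by cases b <;> simp [sg]
      omega) hcly (hwne y)
    have h2 := e.2 G hG (c + (crs y + 1)) y hcl2 (by
      have : c + ((crs y : ℤ) + 1) - sg b = c + 1 - sg b + crs y := by ring
      rw [this]; exact h1)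
    simpa using h2
  · obtain ⟨w', r, e⟩ := slide h (s.take i) (s.drop (i + 2)) s[i] s[i + 1] hd hxy
    rw [htl] at e
    have hC := C2_swap (s.take i) (s.drop (i + 2)) s[i] s[i + 1]
    rw [← hd] at hC
    have hrne : w' ≠ [] := r.ne_nil (by intro hnil; have := congrArg List.length hnil; simp only [List.length_append, List.length_cons, List.length_nil] at this; omega)
    have hcl3 : ∀ b' : Bool, Closed ((w ++ [cx b' i]) ++ y) := by
      intro b'
      refine (closed_congr ?_ y).1 hcly
      rw [width_append, hw, Option.bind_some, w_cx _ _ hi, w_nil]
    have hclw' : Closed (w' ++ y) := by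
      refine (closed_congr ?_ y).1 (hcl3 (decide (s[i + 1] < s[i])))
      obtain ⟨⟨m, h1, h2⟩, _⟩ := e
      exact h1.trans h2.symm
    have hgood : G (c + (crs y + 1)) ((w ++ [cx (decide (s[i + 1] < s[i])) i]) ++ y) := by
      refine red_E hG e (hcl3 _) ?_
      have := hy _ w' (c + 1) r (by omega) hclw' (by
        intro hnil; exact hrne (List.append_eq_nil_iff.1 hnil).1)
      have e2 : c + ((crs y : ℤ) + 1) = c + 1 + crs y := by ring
      rw [e2]; exact this
    by_cases hb : b = decide (s[i + 1] < s[i])
    · rw [hb]
      simpa using hgood
    · have hb' : (!b) = decide (s[i + 1] < s[i]) := by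
        revert hb
        generalize decide (s[i + 1] < s[i]) = b'
        cases b <;> cases b' <;> simp
      have hdb : Good G (death i :: birth i :: y) := good_death hG (good_birth hG hy i) i
      have hcldb : Closed (w ++ death i :: birth i :: y) := by
        have : Closed ((w ++ [death i, birth i]) ++ y) := by
          refine (closed_congr ?_ y).1 hcly
          rw [width_append, hw, Option.bind_some, w_death _ hi, w_birth _ (by omega), w_nil]
          congr 1
          omega
        simpa using this
      have k2 := hdb s w c h hc hcldb (hwne _)
      have k1 := hy s w c h hc hcly (hwne y)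
      have := hG.cross (c + (crs y + 1)) b w i y hcl2 (by rw [hb']; exact hgood) (by
        have e2 : c + ((crs y : ℤ) + 1) - 1 = c + crs y := by ring
        rw [e2]; exact k1) (by
        have e2 : c + ((crs y : ℤ) + 1) - 1 = c + crs y := by ring
        rw [e2]; simpa [crs] using k2)
      simpa using this

theorem good {G : ℤ → Word → Prop} (hG : Sk G) (y : Word) : Good G y := by
  induction y with
  | nil => exact good_nil
  | cons p y ih =>
    cases p with
    | birth i => exact good_birth hG ih i
    | death i => exact good_death hG ih i
    | pos i => exact good_cx hG ih false i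
    | neg i => exact good_cx hG ih true i

/-- Every skein predicate holds for every link diagram, with the number of crossings as bound. -/
theorem span {G : ℤ → Word → Prop} (hG : Sk G) (w : Word) (hw : Closed w) (hne : w ≠ []) :
    G (crs w) w := by
  have := good hG w [] [] 0 Rep.nil (by simp [C2]) (by simpa using hw) (by simpa using hne)
  simpa using this

end Pool.Agent.Helper82_Alt
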