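import Pool.Agent.Helper82_Alt.A1

/-! A strand passing over other parts of a sliced diagram. -/

set_option autoImplicit false
set_option linter.unusedSimpArgs false

namespace Pool.Agent.Helper82_Alt

open Pool.Agent.Helper454.Kauf
open Pool.Agent.Helper454.Kauf.Piece (birth death pos neg)

theorem e_cc {n i j : ℕ} (b c : Bool) (h : i + 2 ≤ j) (h' : j + 2 ≤ n) :
    E n [cx b i, cx c j] [cx c j, cx b i] := by
  cases b <;> cases c
  · simpa [Piece.moved, Piece.index, Piece.outs, Piece.ins, cx] using e_far (n := n) (pos i) (pos j) h h'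
  · simpa [Piece.moved, Piece.index, Piece.outs, Piece.ins, cx] using e_far (n := n) (pos i) (neg j) h h'
  · simpa [Piece.moved, Piece.index, Piece.outs, Piece.ins, cx] using e_far (n := n) (neg i) (pos j) h h'
  · simpa [Piece.moved, Piece.index, Piece.outs, Piece.ins, cx] using e_far (n := n) (neg i) (neg j) h h'

theorem e_bc {n i j : ℕ} (c : Bool) (h : i ≤ j) (h' : j + 2 ≤ n) :
    E n [birth i, cx c (j + 2)] [cx c j, birth i] := by
  cases c
  · simpa [Piece.moved, Piece.index, Piece.outs, Piece.ins, cx] using e_far (n := n) (birth i) (pos j) h h'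
  · simpa [Piece.moved, Piece.index, Piece.outs, Piece.ins, cx] using e_far (n := n) (birth i) (neg j) h h'

theorem e_cb {n i j : ℕ} (c : Bool) (h : i + 2 ≤ j) (h' : j ≤ n) :
    E n [cx c i, birth j] [birth j, cx c i] := by
  cases c
  · simpa [Piece.moved, Piece.index, Piece.outs, Piece.ins, cx] using e_far (n := n) (pos i) (birth j) h h'
  · simpa [Piece.moved, Piece.index, Piece.outs, Piece.ins, cx] using e_far (n := n) (neg i) (birth j) h h'

theorem e_bb {n i j : ℕ} (h : i ≤ j) (h' : j ≤ n) :
    E n [birth i, birth (j + 2)] [birth j, birth i] := by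
  simpa [Piece.moved, Piece.index, Piece.outs, Piece.ins] using e_far (n := n) (birth i) (birth j) h h'

theorem e_cd {n i j : ℕ} (c : Bool) (h : i + 2 ≤ j) (h' : j + 2 ≤ n) :
    E n [cx c i, death j] [death j, cx c i] := by
  cases c
  · simpa [Piece.moved, Piece.index, Piece.outs, Piece.ins, cx] using e_far (n := n) (pos i) (death j) h h'
  · simpa [Piece.moved, Piece.index, Piece.outs, Piece.ins, cx] using e_far (n := n) (neg i) (death j) h h'

theorem e_dc {n i j : ℕ} (c : Bool) (h : i + 2 ≤ j) (h' : j + 2 ≤ n) :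
    E n [death i, cx c (j - 2)] [cx c j, death i] := by
  cases c
  · simpa [Piece.moved, Piece.index, Piece.outs, Piece.ins, cx] using e_far (n := n) (death i) (pos j) h h'
  · simpa [Piece.moved, Piece.index, Piece.outs, Piece.ins, cx] using e_far (n := n) (death i) (neg j) h h'

/-! ### words of crossings -/

/-- crossings only, all of which fit to `n` strands -/
def CW (n : ℕ) (w : Word) : Prop := ∀ p ∈ w, ∃ b i, p = cx b i ∧ i + 2 ≤ n

theorem CW.width {n : ℕ} {w : Word} (h : CW n w) : width w n = some n := by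
  induction w with
  | nil => rfl
  | cons p w ih =>
    obtain ⟨b, i, rfl, hi⟩ := h p (by simp)
    rw [w_cx _ _ hi]
    exact ih (fun q hq => h q (by simp [hq]))

theorem CW.append {n : ℕ} {u v : Word} (h : CW n u) (h' : CW n v) : CW n (u ++ v) := by
  intro p hp
  rcases List.mem_append.1 hp with hp | hp
  · exact h p hp
  · exact h' p hp

theorem CW.one {n i : ℕ} (b : Bool) (h : i + 2 ≤ n) : CW n [cx b i] := by
  intro p hp
  rw [List.mem_singleton] at hp
  exact ⟨b, i, hp, h⟩

theorem CW.neg {n i : ℕ} (h : i + 2 ≤ n) : CW n [Piece.neg i] := CW.one true h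
theorem CW.pos {n i : ℕ} (h : i + 2 ≤ n) : CW n [Piece.pos i] := CW.one false h

theorem CW.nil (n : ℕ) : CW n [] := by intro p hp; simp at hp

theorem CW.cons {n i : ℕ} (b : Bool) {w : Word} (h : i + 2 ≤ n) (hw : CW n w) :
    CW n (cx b i :: w) := CW.append (CW.one b h) hw

theorem E.congC {n : ℕ} {l r u v : Word} (h : E n l r) (hu : CW n u) (hl : CW n l) (hv : CW n v) :
    E n (u ++ l ++ v) (u ++ r ++ v) :=
  E.cong u v h hu.width ⟨n, ((hu.append hl).append hv).width⟩

theorem E.congC' {n : ℕ} {l r : Word} (u v : Word) (h : E n l r) (hu : CW n u) (hl : CW n l)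
    (hv : CW n v) : E n (u ++ (l ++ v)) (u ++ (r ++ v)) := by
  have := h.congC hu hl hv
  simpa only [List.append_assoc] using this

/-- inverse of a word of crossings -/
def ic : List (Bool × ℕ) → List (Bool × ℕ) := fun u => (u.map (fun p => (!p.1, p.2))).reverse

def cw (u : List (Bool × ℕ)) : Word := u.map (fun p => cx p.1 p.2)

theorem cw_append (u v : List (Bool × ℕ)) : cw (u ++ v) = cw u ++ cw v := List.map_append

theorem CW_cw {n : ℕ} {u : List (Bool × ℕ)} (h : ∀ p ∈ u, p.2 + 2 ≤ n) : CW n (cw u) := by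
  intro p hp
  obtain ⟨q, hq, rfl⟩ := List.mem_map.1 hp
  exact ⟨q.1, q.2, rfl, h q hq⟩

theorem mem_ic {u : List (Bool × ℕ)} {n : ℕ} (h : ∀ p ∈ u, p.2 + 2 ≤ n) : ∀ p ∈ ic u, p.2 + 2 ≤ n := by
  intro p hp
  simp only [ic, List.mem_reverse, List.mem_map] at hp
  obtain ⟨q, hq, rfl⟩ := hp
  exact h q hq

theorem e_inv {n : ℕ} (u : List (Bool × ℕ)) (h : ∀ p ∈ u, p.2 + 2 ≤ n) :
    E n (cw u ++ cw (ic u)) [] := by
  induction u with
  | nil => exact E.refl (m := n) rfl
  | cons p u ih =>
    have hp : p.2 + 2 ≤ n := h p (by simp)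
    have hu : ∀ q ∈ u, q.2 + 2 ≤ n := fun q hq => h q (by simp [hq])
    have h1 : cw (p :: u) ++ cw (ic (p :: u)) = [cx p.1 p.2] ++ (cw u ++ cw (ic u)) ++ [cx (!p.1) p.2] := by
      simp [cw, ic]
    rw [h1]
    refine ((ih hu).congC (CW.one _ hp) ((CW_cw hu).append (CW_cw (mem_ic hu))) (CW.one _ hp)).trans ?_
    simpa using e_r2 (n := n) p.1 hp

theorem ic_ic (u : List (Bool × ℕ)) : ic (ic u) = u := by
  simp [ic, Function.comp_def]

theorem e_inv' {n : ℕ} (u : List (Bool × ℕ)) (h : ∀ p ∈ u, p.2 + 2 ≤ n) :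
    E n (cw (ic u) ++ cw u) [] := by
  have := e_inv (ic u) (mem_ic h)
  rwa [ic_ic] at this

theorem e_invcong {n : ℕ} {u v : List (Bool × ℕ)} (hu : ∀ p ∈ u, p.2 + 2 ≤ n)
    (hv : ∀ p ∈ v, p.2 + 2 ≤ n) (h : E n (cw u) (cw v)) : E n (cw (ic u)) (cw (ic v)) := by
  -- ic u ~ ic u v ic v ~ ic u u ic v ~ ic v
  have a1 : E n (cw (ic u) ++ (cw v ++ cw (ic v))) (cw (ic u) ++ []) :=
    (e_inv v hv).left _ (CW_cw (mem_ic hu)).width
  have a2 : E n (cw (ic u) ++ cw u ++ cw (ic v)) (cw (ic u) ++ cw v ++ cw (ic v)) :=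
    h.congC (CW_cw (mem_ic hu)) (CW_cw hu) (CW_cw (mem_ic hv))
  have a3 : E n (cw (ic u) ++ cw u ++ cw (ic v)) ([] ++ cw (ic v)) :=
    (e_inv' u hu).right _ ⟨n, ((CW_cw (mem_ic hu)).append (CW_cw hu)).append (CW_cw (mem_ic hv)) |>.width⟩
  rw [List.append_nil] at a1
  rw [List.nil_append] at a3
  have a1' := a1.symm
  rw [← List.append_assoc] at a1'
  exact (a1'.trans a2.symm).trans a3

theorem e_third' {n i : ℕ} (h : i + 3 ≤ n) :
    E n [neg i, neg (i + 1), neg i] [neg (i + 1), neg i, neg (i + 1)] := by
  have := e_invcong (n := n) (u := [(false, i), (false, i + 1), (false, i)])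
    (v := [(false, i + 1), (false, i), (false, i + 1)])
    (by simp; omega) (by simp; omega) (e_third h)
  simpa [ic, cw, cx] using this

/-- a strand passing over a crossing -/
theorem e_over {n i : ℕ} (b : Bool) (h : i + 3 ≤ n) :
    E n [neg i, neg (i + 1), cx b i] [cx b (i + 1), neg i, neg (i + 1)] := by
  cases b
  · -- pos
    have c1 : i + 2 ≤ n := by omega
    have c2 : i + 1 + 2 ≤ n := by omega
    have b1 : E n ([pos (i + 1), neg (i + 1)] ++ [neg i, neg (i + 1), pos i])
        ([] ++ [neg i, neg (i + 1), pos i]) :=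
      (e_r2 (n := n) false c2).right _ ⟨n, (CW.cons false c2 (CW.cons true c2 (CW.cons true c1
        (CW.cons true c2 (CW.cons false c1 (CW.nil n)))))).width⟩
    have b2 : E n ([pos (i + 1)] ++ ([neg i, neg (i + 1), neg i] ++ [pos i]))
        ([pos (i + 1)] ++ ([neg (i + 1), neg i, neg (i + 1)] ++ [pos i])) :=
      E.congC' [pos (i + 1)] [pos i] (e_third' h) (CW.pos c2) (CW.cons true c1 (CW.cons true c2 (CW.cons true c1
        (CW.nil n)))) (CW.pos c1)
    have b3 : E n ([pos (i + 1), neg i, neg (i + 1)] ++ [neg i, pos i])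
        ([pos (i + 1), neg i, neg (i + 1)] ++ []) :=
      (e_r2 (n := n) true c1).left _ (CW.cons false c2 (CW.cons true c1
        (CW.cons true c2 (CW.nil n)))).width
    exact (b1.symm.trans (b2.symm.trans b3))
  · exact e_third' h

/-! ### a strand passing over several strands -/

/-- the strand `i` passes over `e` strands to its right -/
def ov : ℕ → ℕ → Word
  | _, 0 => []
  | i, e + 1 => neg i :: ov (i + 1) e

theorem ov_add (i a b : ℕ) : ov i (a + b) = ov i a ++ ov (i + a) b := by
  induction a generalizing i with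
  | zero => simp [ov]
  | succ a ih =>
    rw [show a + 1 + b = (a + b) + 1 by omega, ov, ov, ih, List.cons_append]
    congr 2
    rw [show i + 1 + a = i + (a + 1) by omega]

theorem CW_ov {n : ℕ} (i e : ℕ) (h : e = 0 ∨ i + e + 1 ≤ n) : CW n (ov i e) := by
  induction e generalizing i with
  | zero => exact CW.nil n
  | succ e ih =>
    refine CW.cons true (by omega) (ih (i + 1) ?_)
    omega

theorem w_ov {n : ℕ} (i e : ℕ) (h : e = 0 ∨ i + e + 1 ≤ n) : width (ov i e) n = some n :=
  (CW_ov i e h).width

/-- far crossings commute with `ov` -/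
theorem ov_left {n i e j : ℕ} (b : Bool) (h : j + 2 ≤ i) (h' : i + e + 1 ≤ n) :
    E n (ov i e ++ [cx b j]) ([cx b j] ++ ov i e) := by
  induction e generalizing i with
  | zero => exact E.refl (m := n) (CW.one b (by omega)).width
  | succ e ih =>
    have h1 := (ih (i := i + 1) (by omega) (by omega)).left [neg i] (CW.neg (by omega)).width
    have h2 := (e_cc (n := n) (i := j) (j := i) b true h (by omega)).symm.right (ov (i + 1) e)
      ⟨n, (CW.cons true (by omega) (CW.cons b (by omega) (CW_ov (i + 1) e (by omega)))).width⟩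
    exact h1.trans h2

theorem ov_right {n i e j : ℕ} (b : Bool) (h : i + e + 1 ≤ j) (h' : j + 2 ≤ n) :
    E n (ov i e ++ [cx b j]) ([cx b j] ++ ov i e) := by
  induction e generalizing i with
  | zero => exact E.refl (m := n) (CW.one b (by omega)).width
  | succ e ih =>
    have h1 := (ih (i := i + 1) (by omega)).left [neg i] (CW.neg (by omega)).width
    have h2 := (e_cc (n := n) (i := i) (j := j) true b (by omega) h').right (ov (i + 1) e)
      ⟨n, (CW.cons true (by omega) (CW.cons b (by omega) (CW_ov (i + 1) e (by omega)))).width⟩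
    exact h1.trans h2

theorem ov_mid {n i e j : ℕ} (b : Bool) (h : i ≤ j) (h1 : j + 2 ≤ i + e) (h' : i + e + 1 ≤ n) :
    E n (ov i e ++ [cx b j]) ([cx b (j + 1)] ++ ov i e) := by
  obtain ⟨a, rfl⟩ := Nat.exists_eq_add_of_le h
  obtain ⟨c, hc⟩ := Nat.exists_eq_add_of_le h1
  have he : e = a + (2 + c) := by omega
  subst he
  have e0 : ov (i + a) (2 + c) = [neg (i + a), neg (i + a + 1)] ++ ov (i + a + 2) c := by
    rw [show 2 + c = c + 1 + 1 by omega, ov, ov]; rfl
  rw [ov_add i a (2 + c), e0]
  have W1 : CW n (ov i a) := CW_ov i a (by omega)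
  have W2 : CW n (ov (i + a + 2) c) := CW_ov _ _ (by omega)
  have W3 : CW n [neg (i + a), neg (i + a + 1)] :=
    CW.cons true (by omega) (CW.cons true (by omega) (CW.nil n))
  have s1 := (ov_left (n := n) (i := i + a + 2) (e := c) (j := i + a) b (by omega) (by omega)).left
    (ov i a ++ [neg (i + a), neg (i + a + 1)]) (W1.append W3).width
  have s2 := (e_over (n := n) (i := i + a) b (by omega)).congC (u := ov i a) (v := ov (i + a + 2) c)
    W1 (CW.cons true (by omega) (CW.cons true (by omega) (CW.one b (by omega)))) W2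
  have s3 := (ov_right (n := n) (i := i) (e := a) (j := i + a + 1) b (by omega) (by omega)).right
    ([neg (i + a), neg (i + a + 1)] ++ ov (i + a + 2) c)
    ⟨n, ((W1.append (CW.one b (by omega))).append (W3.append W2)).width⟩
  simp only [List.append_assoc, List.cons_append, List.nil_append] at s1 s2 s3 ⊢
  exact s1.trans (s2.trans s3)

/-! ### births -/

theorem ov_b_left {n i e p : ℕ} (h : p ≤ i) (h' : i + e + 1 ≤ n) :
    E n (ov i e ++ [birth p]) ([birth p] ++ ov (i + 2) e) := by
  induction e generalizing i with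
  | zero =>
    refine E.refl (m := n + 2) ?_
    simp only [ov, List.nil_append]
    rw [w_birth _ (by omega), w_nil]
  | succ e ih =>
    have h1 := (ih (i := i + 1) (by omega) (by omega)).left [neg i] (CW.neg (by omega)).width
    have h2 := (e_bc (n := n) (i := p) (j := i) true h (by omega)).symm.right (ov (i + 3) e)
      ⟨n + 2, by
        rw [List.cons_append, w_cx _ _ (by omega), List.cons_append, List.nil_append,
          w_birth _ (by omega), w_ov _ _ (by omega)]⟩
    exact h1.trans h2

theorem ov_b_right {n i e p : ℕ} (h : i + e + 1 ≤ p) (h' : p ≤ n) :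
    E n (ov i e ++ [birth p]) ([birth p] ++ ov i e) := by
  induction e generalizing i with
  | zero =>
    refine E.refl (m := n + 2) ?_
    simp only [ov, List.nil_append]
    rw [w_birth _ (by omega), w_nil]
  | succ e ih =>
    have h1 := (ih (i := i + 1) (by omega)).left [neg i] (CW.neg (by omega)).width
    have h2 := (e_cb (n := n) (i := i) (j := p) true (by omega) h').right (ov (i + 1) e)
      ⟨n + 2, by
        rw [List.cons_append, w_cx _ _ (by omega), List.cons_append, List.nil_append,
          w_birth _ (by omega), w_ov _ _ (by omega)]⟩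
    exact h1.trans h2

theorem e_over_birth {n j : ℕ} (h : j < n) : E n [birth (j + 1), neg j, neg (j + 1)] [birth j] := by
  have h1 := (e_sb (n := n) (i := j) false h).symm.right [neg (j + 1)] ⟨n + 2, by
    simp only [List.cons_append, List.nil_append]
    rw [w_birth _ (by omega), w_cx _ _ (by omega), ← cx_true, w_cx _ _ (by omega), w_nil]⟩
  have h2 := (e_r2 (n := n + 2) (i := j + 1) false (by omega)).left (m := n) [birth j] (by
    rw [w_birth _ (by omega), w_nil])
  exact h1.trans h2

theorem ov_b_mid {n i e p : ℕ} (h : i ≤ p) (h1 : p ≤ i + e) (h' : i + e + 1 ≤ n) :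
    E n (ov i e ++ [birth p]) ([birth (p + 1)] ++ ov i (e + 2)) := by
  obtain ⟨a, rfl⟩ := Nat.exists_eq_add_of_le h
  obtain ⟨c, hc⟩ := Nat.exists_eq_add_of_le h1
  have he : e = a + c := by omega
  subst he
  have e0 : ov i (a + c + 2) = ov i a ++ ([neg (i + a), neg (i + a + 1)] ++ ov (i + a + 2) c) := by
    rw [show a + c + 2 = a + (c + 1 + 1) by omega, ov_add, ov, ov]; rfl
  rw [ov_add i a c, e0]
  have W1 : width (ov i a) n = some n := w_ov i a (by omega)
  have s1 := (ov_b_left (n := n) (i := i + a) (e := c) (p := i + a) (by omega) (by omega)).left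
    (ov i a) W1
  have s2 := ((e_over_birth (n := n) (j := i + a) (by omega)).symm.cong (ov i a) (ov (i + a + 2) c) W1
    ⟨n + 2, by
      rw [width_append, width_append, W1, Option.bind_some, w_birth _ (by omega), w_nil,
        Option.bind_some, w_ov _ _ (by omega)]⟩)
  have s3 := (ov_b_right (n := n) (i := i) (e := a) (p := i + a + 1) (by omega) (by omega)).right
    ([neg (i + a), neg (i + a + 1)] ++ ov (i + a + 2) c)
    ⟨n + 2, by
      rw [width_append, width_append, W1, Option.bind_some, w_birth _ (by omega), w_nil,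
        Option.bind_some, List.cons_append, ← cx_true, w_cx _ _ (by omega), List.cons_append,
        ← cx_true, w_cx _ _ (by omega), List.nil_append, w_ov _ _ (by omega)]⟩
  simp only [List.append_assoc, List.cons_append, List.nil_append] at s1 s2 s3 ⊢
  exact s1.trans (s2.trans s3)

/-! ### an arc over everything -/

/-- a new arc with the left end at the position `k`, which passes over `e` strands -/
def U (k e : ℕ) : Word := birth k :: ov (k + 1) e

theorem w_U {n k e : ℕ} (h : k + e ≤ n) : width (U k e) n = some (n + 2) := by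
  rw [U, w_birth _ (by omega), w_ov _ _ (by omega)]

theorem w_U_app {n k e : ℕ} (v : Word) (h : k + e ≤ n) : width (U k e ++ v) n = width v (n + 2) := by
  rw [width_append, w_U h, Option.bind_some]

theorem U_c_left {n k e j : ℕ} (b : Bool) (h : j + 2 ≤ k) (h' : k + e ≤ n) :
    E n (U k e ++ [cx b j]) ([cx b j] ++ U k e) := by
  have h1 := (ov_left (n := n + 2) (i := k + 1) (e := e) (j := j) b (by omega) (by omega)).left (m := n)
    [birth k] (by rw [w_birth _ (by omega), w_nil])
  have h2 := (e_cb (n := n) (i := j) (j := k) b h (by omega)).symm.right (ov (k + 1) e) ⟨n + 2, by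
    simp only [List.cons_append, List.nil_append]
    rw [w_birth _ (by omega), w_cx _ _ (by omega), w_ov _ _ (by omega)]⟩
  exact h1.trans h2

theorem U_c_mid {n k e j : ℕ} (b : Bool) (h : k ≤ j) (h1 : j + 2 ≤ k + e) (h' : k + e ≤ n) :
    E n (U k e ++ [cx b (j + 1)]) ([cx b j] ++ U k e) := by
  have h1 := (ov_mid (n := n + 2) (i := k + 1) (e := e) (j := j + 1) b (by omega) (by omega)
    (by omega)).left (m := n) [birth k] (by rw [w_birth _ (by omega), w_nil])
  have h2 := (e_bc (n := n) (i := k) (j := j) b h (by omega)).right (ov (k + 1) e) ⟨n + 2, by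
    simp only [List.cons_append, List.nil_append]
    rw [w_birth _ (by omega), w_cx _ _ (by omega), w_ov _ _ (by omega)]⟩
  exact h1.trans h2

theorem U_c_right {n k e j : ℕ} (b : Bool) (h : k + e ≤ j) (h' : j + 2 ≤ n) :
    E n (U k e ++ [cx b (j + 2)]) ([cx b j] ++ U k e) := by
  have h1 := (ov_right (n := n + 2) (i := k + 1) (e := e) (j := j + 2) b (by omega) (by omega)).left
    (m := n) [birth k] (by rw [w_birth _ (by omega), w_nil])
  have h2 := (e_bc (n := n) (i := k) (j := j) b (by omega) (by omega)).right (ov (k + 1) e)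
    ⟨n + 2, by
      simp only [List.cons_append, List.nil_append]
      rw [w_birth _ (by omega), w_cx _ _ (by omega), w_ov _ _ (by omega)]⟩
  exact h1.trans h2

theorem U_b_left {n k e p : ℕ} (h : p ≤ k) (h' : k + e ≤ n) :
    E n (U k e ++ [birth p]) ([birth p] ++ U (k + 2) e) := by
  have h1 := (ov_b_left (n := n + 2) (i := k + 1) (e := e) (p := p) (by omega) (by omega)).left
    (m := n) [birth k] (by rw [w_birth _ (by omega), w_nil])
  have h2 := (e_bb (n := n) (i := p) (j := k) h (by omega)).symm.right (ov (k + 3) e) ⟨n + 4, by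
      simp only [List.cons_append, List.nil_append]
      rw [w_birth _ (by omega), w_birth _ (by omega), w_ov _ _ (by omega)]⟩
  exact h1.trans h2

theorem U_b_mid {n k e p : ℕ} (h : k ≤ p) (h1 : p ≤ k + e) (h' : k + e ≤ n) :
    E n (U k e ++ [birth (p + 1)]) ([birth p] ++ U k (e + 2)) := by
  have h1 := (ov_b_mid (n := n + 2) (i := k + 1) (e := e) (p := p + 1) (by omega) (by omega)
    (by omega)).left (m := n) [birth k] (by rw [w_birth _ (by omega), w_nil])
  have h2 := (e_bb (n := n) (i := k) (j := p) h (by omega)).right (ov (k + 1) (e + 2)) ⟨n + 4, by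
      simp only [List.cons_append, List.nil_append]
      rw [w_birth _ (by omega), w_birth _ (by omega), w_ov _ _ (by omega)]⟩
  exact h1.trans h2

theorem U_b_right {n k e p : ℕ} (h : k + e ≤ p) (h' : p ≤ n) :
    E n (U k e ++ [birth (p + 2)]) ([birth p] ++ U k e) := by
  have h1 := (ov_b_right (n := n + 2) (i := k + 1) (e := e) (p := p + 2) (by omega)
    (by omega)).left (m := n) [birth k] (by rw [w_birth _ (by omega), w_nil])
  have h2 := (e_bb (n := n) (i := k) (j := p) (by omega) (by omega)).right (ov (k + 1) e)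
    ⟨n + 4, by
      simp only [List.cons_append, List.nil_append]
      rw [w_birth _ (by omega), w_birth _ (by omega), w_ov _ _ (by omega)]⟩
  exact h1.trans h2

/-- the left end moves to the left -/
theorem U_ll {n k e : ℕ} (h' : k + 1 + e ≤ n) :
    E n (U (k + 1) e ++ [pos k]) (U k (e + 1)) := by
  have h1 := (ov_left (n := n + 2) (i := k + 1 + 1) (e := e) (j := k) false (by omega)
    (by omega)).left (m := n) [birth (k + 1)] (by rw [w_birth _ (by omega), w_nil])
  have h2 := (e_sb (n := n) (i := k) true (by omega)).symm.right (ov (k + 1 + 1) e) ⟨n + 2, by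
      simp only [List.cons_append, List.nil_append]
      rw [w_birth _ (by omega), w_cx _ _ (by omega), w_ov _ _ (by omega)]⟩
  exact h1.trans h2

/-- the left end moves to the right -/
theorem U_lr {n k e : ℕ} (h' : k + 1 + e ≤ n) :
    E n (U k (e + 1) ++ [neg k]) (U (k + 1) e) := by
  have h1 := (U_ll (n := n) (k := k) (e := e) h').symm.right [neg k] ⟨n + 2, by
    rw [w_U_app _ (by omega), ← cx_true, w_cx _ _ (by omega), w_nil]⟩
  have h2 := (e_r2 (n := n + 2) (i := k) false (by omega)).left (m := n) (U (k + 1) e)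
    (w_U (by omega))
  rw [List.append_assoc] at h1
  have h3 := h1.trans h2
  rwa [List.append_nil] at h3

theorem ov_succ (i e : ℕ) : ov i (e + 1) = ov i e ++ [neg (i + e)] := by
  rw [ov_add]; rfl

/-- the right end moves to the right -/
theorem U_rr (k e : ℕ) : U k e ++ [neg (k + 1 + e)] = U k (e + 1) := by
  rw [U, U, ov_succ]; rfl

/-- the right end moves to the left -/
theorem U_rl {n k e : ℕ} (h' : k + e + 1 ≤ n) :
    E n (U k (e + 1) ++ [pos (k + 1 + e)]) (U k e) := by
  rw [← U_rr, List.append_assoc]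
  have h2 := (e_r2 (n := n + 2) (i := k + 1 + e) true (by omega)).left (m := n) (U k e)
    (w_U (by omega))
  rwa [List.append_nil] at h2

end Pool.Agent.Helper82_Alt
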