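import Pool.Agent.Helper82_Alt.A2

/-! Layered diagrams. -/

set_option autoImplicit false
set_option linter.unusedSimpArgs false

namespace Pool.Agent.Helper82_Alt

open Pool.Agent.Helper454.Kauf
open Pool.Agent.Helper454.Kauf.Piece (birth death pos neg)

/-- `Rep s w`: the word `w` is the layered diagram without strands at the top, whose strands at the
bottom belong to the arcs with the names `s`; arcs with larger names are above the others. -/
inductive Rep : List ℕ → Word → Prop
  | nil : Rep [] []
  | snoc (a b c : List ℕ) (t : ℕ) (w : Word) : Rep (a ++ (b ++ c)) w →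
      (∀ x ∈ a ++ (b ++ c), x < t) → Rep (a ++ t :: (b ++ t :: c)) (w ++ U a.length b.length)

theorem Rep.w {s : List ℕ} {w : Word} (h : Rep s w) : width w 0 = some s.length := by
  induction h with
  | nil => rfl
  | snoc a b c t w hw _ ih =>
    rw [width_append, ih, Option.bind_some, w_U]
    · simp only [List.length_append, List.length_cons, Option.some.injEq]; omega
    · simp only [List.length_append]; omega

theorem split4 {l₁ l₂ a c : List ℕ} {z x y : ℕ} (h : l₁ ++ z :: l₂ = a ++ x :: y :: c) :
    (∃ r, l₁ = a ++ x :: y :: r ∧ c = r ++ z :: l₂) ∨ (l₁ = a ++ [x] ∧ z = y ∧ l₂ = c) ∨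
      (l₁ = a ∧ z = x ∧ l₂ = y :: c) ∨ (∃ r, a = l₁ ++ z :: r ∧ l₂ = r ++ x :: y :: c) := by
  rcases List.append_eq_append_iff.1 h with ⟨r, h1, h2⟩ | ⟨r, h1, h2⟩
  · -- a = l₁ ++ r, z :: l₂ = r ++ x :: y :: c
    rcases r with _ | ⟨r0, r⟩
    · simp only [List.nil_append, List.cons.injEq] at h2
      refine Or.inr (Or.inr (Or.inl ⟨by simpa using h1.symm, h2.1, h2.2⟩))
    · simp only [List.cons_append, List.cons.injEq] at h2
      obtain ⟨rfl, rfl⟩ := h2
      exact Or.inr (Or.inr (Or.inr ⟨r, h1, rfl⟩))
  · -- l₁ = a ++ r, x :: y :: c = r ++ z :: l₂
    rcases r with _ | ⟨r0, r⟩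
    · simp only [List.nil_append, List.cons.injEq] at h2
      refine Or.inr (Or.inr (Or.inl ⟨by simpa using h1, h2.1.symm, h2.2.symm⟩))
    · simp only [List.cons_append, List.cons.injEq] at h2
      obtain ⟨rfl, h2⟩ := h2
      rcases r with _ | ⟨r1, r⟩
      · simp only [List.nil_append, List.cons.injEq] at h2
        obtain ⟨rfl, rfl⟩ := h2
        exact Or.inr (Or.inl ⟨h1, rfl, rfl⟩)
      · simp only [List.cons_append, List.cons.injEq] at h2
        obtain ⟨rfl, rfl⟩ := h2
        exact Or.inl ⟨r, h1, rfl⟩

theorem slide_aux {w w₁ : Word} {n k e k' e' : ℕ} {p q : Word} (hw : width w 0 = some n)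
    (hU : E n (U k e ++ p) (q ++ U k' e')) (hwq : E 0 (w ++ q) w₁) :
    E 0 ((w ++ U k e) ++ p) (w₁ ++ U k' e') := by
  have h1 := hU.left w hw
  rw [← List.append_assoc] at h1
  refine h1.trans ?_
  have hex : ∃ m, width ((w ++ q) ++ U k' e') 0 = some m := by
    obtain ⟨⟨m, _, h3⟩, _⟩ := h1
    exact ⟨m, by simpa only [List.append_assoc] using h3⟩
  have h2 := hwq.right (U k' e') hex
  simpa only [List.append_assoc] using h2

/-- crossings of different arcs, in agreement with the order of the layers -/
theorem slide {s : List ℕ} {w : Word} (h : Rep s w) : ∀ (a c : List ℕ) (x y : ℕ),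
    s = a ++ x :: y :: c → x ≠ y →
    ∃ w', Rep (a ++ y :: x :: c) w' ∧ E 0 (w ++ [cx (decide (y < x)) a.length]) w' := by
  induction h with
  | nil => intro a c x y h; simp at h
  | snoc a' b' c' t w hw ht ih =>
    intro a c x y hs hxy
    have hwid := hw.w
    simp only [List.length_append] at hwid
    rcases split4 hs with ⟨r, h1, h2⟩ | ⟨h1, h2, h3⟩ | ⟨h1, h2, h3⟩ | ⟨r, h1, h2⟩
    · subst h1 h2
      obtain ⟨w₁, hw₁, hE⟩ := ih a (r ++ (b' ++ c')) x y (by simp) hxy
      refine ⟨w₁ ++ U (a ++ y :: x :: r).length b'.length, ?_, ?_⟩
      · have := Rep.snoc (a ++ y :: x :: r) b' c' t w₁ (by simpa using hw₁) (by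
          intro z hz; apply ht; simp only [List.mem_append, List.mem_cons] at hz ⊢; tauto)
        simpa using this
      · refine slide_aux hwid ?_ hE
        have := U_c_left (n := (a ++ x :: y :: r).length + (b'.length + c'.length))
          (k := (a ++ x :: y :: r).length) (e := b'.length) (j := a.length) (decide (y < x))
          (by simp) (by omega)
        simpa using this
    · subst h1 h2 h3
      have hx : x < t := ht x (by simp)
      have hd : decide (t < x) = false := by simp only [decide_eq_false_iff_not]; omega
      refine ⟨w ++ U a.length (x :: b').length, ?_, ?_⟩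
      · have := Rep.snoc a (x :: b') c' t w (by simpa using hw) (by
          intro z hz; apply ht; simp only [List.mem_append, List.mem_cons] at hz ⊢; tauto)
        simpa using this
      · rw [hd, cx_false, List.append_assoc]
        refine E.left w ?_ hwid
        have := U_ll (n := (a ++ [x]).length + (b'.length + c'.length)) (k := a.length)
          (e := b'.length) (by simp only [List.length_append, List.length_singleton]; omega)
        simpa using this
    · subst h1 h2
      rcases b' with _ | ⟨b0, b'⟩
      · simp only [List.nil_append, List.cons.injEq] at h3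
        exact absurd h3.1 hxy
      · simp only [List.cons_append, List.cons.injEq] at h3
        obtain ⟨rfl, rfl⟩ := h3
        have hx : b0 < t := ht b0 (by simp)
        have hd : decide (b0 < t) = true := by simpa using hx
        refine ⟨w ++ U (a' ++ [b0]).length b'.length, ?_, ?_⟩
        · have := Rep.snoc (a' ++ [b0]) b' c' t w (by simpa using hw) (by
            intro z hz; apply ht; simp only [List.mem_append, List.mem_cons] at hz ⊢; tauto)
          simpa using this
        · rw [hd, cx_true, List.append_assoc]
          refine E.left w ?_ hwid
          have := U_lr (n := a'.length + ((b0 :: b').length + c'.length)) (k := a'.length)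
            (e := b'.length) (by simp; omega)
          simpa using this
    · subst h1
      rcases split4 h2 with ⟨r', g1, g2⟩ | ⟨g1, g2, g3⟩ | ⟨g1, g2, g3⟩ | ⟨r', g1, g2⟩
      · subst g1 g2
        obtain ⟨w₁, hw₁, hE⟩ := ih (a' ++ r) (r' ++ c') x y (by simp) hxy
        refine ⟨w₁ ++ U a'.length (r ++ y :: x :: r').length, ?_, ?_⟩
        · have := Rep.snoc a' (r ++ y :: x :: r') c' t w₁ (by simpa using hw₁) (by
            intro z hz; apply ht; simp only [List.mem_append, List.mem_cons] at hz ⊢; tauto)
          simpa using this
        · refine slide_aux hwid ?_ hE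
          have := U_c_mid (n := a'.length + ((r ++ x :: y :: r').length + c'.length))
            (k := a'.length) (e := (r ++ x :: y :: r').length) (j := a'.length + r.length)
            (decide (y < x)) (by omega) (by simp; omega) (by omega)
          simpa [Nat.add_assoc] using this
      · subst g1 g2 g3
        have hx : x < t := ht x (by simp)
        have hd : decide (t < x) = false := by simp; omega
        refine ⟨w ++ U a'.length r.length, ?_, ?_⟩
        · have := Rep.snoc a' r (x :: c') t w (by simpa using hw) (by
            intro z hz; apply ht; simp only [List.mem_append, List.mem_cons] at hz ⊢; tauto)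
          simpa using this
        · rw [hd, cx_false, List.append_assoc]
          refine E.left w ?_ hwid
          have := U_rl (n := a'.length + ((r ++ [x]).length + c'.length)) (k := a'.length)
            (e := r.length) (by simp only [List.length_append, List.length_singleton]; omega)
          have h9 : (a' ++ t :: r).length = a'.length + 1 + r.length := by
            simp only [List.length_append, List.length_cons]; omega
          rw [h9]
          simpa using this
      · subst g1 g2 g3
        have hx : y < t := ht y (by simp)
        have hd : decide (y < t) = true := by simpa using hx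
        refine ⟨w ++ U a'.length (b' ++ [y]).length, ?_, ?_⟩
        · have := Rep.snoc a' (b' ++ [y]) c t w (by simpa using hw) (by
            intro z hz; apply ht; simp only [List.mem_append, List.mem_cons] at hz ⊢; tauto)
          simpa using this
        · rw [hd, cx_true, List.append_assoc]
          refine E.left w ?_ hwid
          have h1 : U a'.length b'.length ++ [neg (a' ++ t :: b').length] =
              U a'.length (b' ++ [y]).length := by
            have h9 : (a' ++ t :: b').length = a'.length + 1 + b'.length := by
              simp only [List.length_append, List.length_cons]; omega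
            rw [List.length_append (as := b'), List.length_singleton, ← U_rr, h9]
          rw [h1]
          refine E.refl (w_U ?_)
          simp only [List.length_append, List.length_cons, List.length_nil]
          omega
      · subst g1 g2
        obtain ⟨w₁, hw₁, hE⟩ := ih (a' ++ b' ++ r') c x y (by simp) hxy
        refine ⟨w₁ ++ U a'.length b'.length, ?_, ?_⟩
        · have := Rep.snoc a' b' (r' ++ y :: x :: c) t w₁ (by simpa using hw₁) (by
            intro z hz; apply ht; simp only [List.mem_append, List.mem_cons] at hz ⊢; tauto)
          simpa using this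
        · refine slide_aux hwid ?_ hE
          have := U_c_right (n := a'.length + (b'.length + (r' ++ x :: y :: c).length))
            (k := a'.length) (e := b'.length) (j := a'.length + b'.length + r'.length)
            (decide (y < x)) (by omega) (by simp; omega)
          have h9 : (a' ++ t :: (b' ++ t :: r')).length = a'.length + b'.length + r'.length + 2 := by
            simp; omega
          rw [h9]
          simpa [Nat.add_assoc] using this

theorem split2 {l₁ l₂ a c : List ℕ} {z : ℕ} (h : l₁ ++ z :: l₂ = a ++ c) :
    (∃ r, l₁ = a ++ r ∧ c = r ++ z :: l₂) ∨ (∃ r, a = l₁ ++ z :: r ∧ l₂ = r ++ c) := by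
  rcases List.append_eq_append_iff.1 h with ⟨r, h1, h2⟩ | ⟨r, h1, h2⟩
  · rcases r with _ | ⟨r0, r⟩
    · simp only [List.nil_append] at h2
      exact Or.inl ⟨[], by simpa using h1.symm, by simpa using h2.symm⟩
    · simp only [List.cons_append, List.cons.injEq] at h2
      obtain ⟨rfl, rfl⟩ := h2
      exact Or.inr ⟨r, h1, rfl⟩
  · exact Or.inl ⟨r, h1, h2⟩

/-- a new arc, in an arbitrary layer -/
theorem bslide {s : List ℕ} {w : Word} (h : Rep s w) : ∀ (a c : List ℕ) (j : ℕ),
    s = a ++ c → j ∉ s →
    ∃ w', Rep (a ++ j :: j :: c) w' ∧ E 0 (w ++ [birth a.length]) w' := by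
  induction h with
  | nil =>
    intro a c j h _
    have h' := List.append_eq_nil_iff.1 h.symm
    obtain ⟨rfl, rfl⟩ := h'
    refine ⟨[] ++ U 0 0, Rep.snoc [] [] [] j [] Rep.nil (by simp), ?_⟩
    exact E.refl (m := 2) rfl
  | snoc a' b' c' t w hw ht ih =>
    intro a c j hs hj
    have hwid := hw.w
    simp only [List.length_append] at hwid
    have hwhole := (Rep.snoc a' b' c' t w hw ht).w
    have hjt : j ≠ t := by rintro rfl; simp at hj
    by_cases hlt : t < j
    · refine ⟨(w ++ U a'.length b'.length) ++ U a.length 0, ?_, ?_⟩
      · have hr : Rep (a ++ ([] ++ c)) (w ++ U a'.length b'.length) := by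
          rw [List.nil_append, ← hs]; exact Rep.snoc a' b' c' t w hw ht
        have := Rep.snoc a [] c j _ hr (by
          intro z hz
          rw [List.nil_append, ← hs] at hz
          have : z = t ∨ z ∈ a' ++ (b' ++ c') := by
            simp only [List.mem_append, List.mem_cons] at hz ⊢; tauto
          rcases this with rfl | hz
          · exact hlt
          · exact (ht z hz).trans hlt)
        simpa using this
      · refine E.refl (m := (a' ++ t :: (b' ++ t :: c')).length + 2) ?_
        have ha : a.length ≤ (a' ++ t :: (b' ++ t :: c')).length := by rw [hs]; simp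
        rw [width_append, hwhole, Option.bind_some, w_birth _ ha, w_nil]
    · have hjt' : j < t := by omega
      have ht' : ∀ (u v : List ℕ), u ++ v = a' ++ (b' ++ c') → ∀ x ∈ u ++ j :: j :: v, x < t := by
        intro u v huv x hx
        have : x = j ∨ x ∈ u ++ v := by
          simp only [List.mem_append, List.mem_cons] at hx ⊢; tauto
        rcases this with rfl | h
        · exact hjt'
        · rw [huv] at h; exact ht x h
      have hj' : j ∉ a' ++ (b' ++ c') := by
        intro hm; apply hj
        simp only [List.mem_append, List.mem_cons] at hm ⊢; tauto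
      rcases split2 hs with ⟨r, h1, h2⟩ | ⟨r, h1, h2⟩
      · subst h1 h2
        obtain ⟨w₁, hw₁, hE⟩ := ih a (r ++ (b' ++ c')) j (by simp) hj'
        refine ⟨w₁ ++ U (a ++ j :: j :: r).length b'.length, ?_, ?_⟩
        · have := Rep.snoc (a ++ j :: j :: r) b' c' t w₁ (by simpa using hw₁) (by
            have := ht' a (r ++ (b' ++ c')) (by simp); simpa using this)
          simpa using this
        · refine slide_aux hwid ?_ hE
          have := U_b_left (n := (a ++ r).length + (b'.length + c'.length))
            (k := (a ++ r).length) (e := b'.length) (p := a.length) (by simp) (by omega)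
          simpa [Nat.add_assoc] using this
      · subst h1
        rcases split2 h2 with ⟨r', g1, g2⟩ | ⟨r', g1, g2⟩
        · subst g1 g2
          obtain ⟨w₁, hw₁, hE⟩ := ih (a' ++ r) (r' ++ c') j (by simp) hj'
          refine ⟨w₁ ++ U a'.length (r ++ j :: j :: r').length, ?_, ?_⟩
          · have := Rep.snoc a' (r ++ j :: j :: r') c' t w₁ (by simpa using hw₁) (by
              have := ht' (a' ++ r) (r' ++ c') (by simp); simpa using this)
            simpa using this
          · refine slide_aux hwid ?_ hE
            have := U_b_mid (n := a'.length + ((r ++ r').length + c'.length))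
              (k := a'.length) (e := (r ++ r').length) (p := a'.length + r.length)
              (by omega) (by simp only [List.length_append]; omega) (by omega)
            simpa [Nat.add_assoc] using this
        · subst g1 g2
          obtain ⟨w₁, hw₁, hE⟩ := ih (a' ++ b' ++ r') c j (by simp) hj'
          refine ⟨w₁ ++ U a'.length b'.length, ?_, ?_⟩
          · have := Rep.snoc a' b' (r' ++ j :: j :: c) t w₁ (by simpa using hw₁) (by
              have := ht' (a' ++ b' ++ r') c (by simp); simpa using this)
            simpa using this
          · refine slide_aux hwid ?_ hE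
            have := U_b_right (n := a'.length + (b'.length + (r' ++ c).length))
              (k := a'.length) (e := b'.length) (p := a'.length + b'.length + r'.length)
              (by omega) (by simp; omega)
            have h9 : (a' ++ t :: (b' ++ t :: r')).length =
                a'.length + b'.length + r'.length + 2 := by simp; omega
            rw [h9]
            simpa [Nat.add_assoc] using this

end Pool.Agent.Helper82_Alt
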