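import Pool.Agent.Helper82_Alt.A3

/-! Exchanging two neighbouring layers. -/

set_option autoImplicit false
set_option linter.unusedSimpArgs false

namespace Pool.Agent.Helper82_Alt

open Pool.Agent.Helper454.Kauf
open Pool.Agent.Helper454.Kauf.Piece (birth death pos neg)

theorem Rep.two {s : List ℕ} {w : Word} (h : Rep s w) : ∀ x ∈ s, s.count x = 2 := by
  induction h with
  | nil => intro x hx; simp at hx
  | snoc a b c t w hw ht ih =>
    intro x hx
    by_cases hxt : x = t
    · subst hxt
      have h0 : (a ++ (b ++ c)).count x = 0 := by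
        rw [List.count_eq_zero]
        intro hm; exact absurd (ht x hm) (lt_irrefl _)
      simp only [List.count_append, List.count_cons_self] at h0 ⊢
      omega
    · have hx' : x ∈ a ++ (b ++ c) := by
        simp only [List.mem_append, List.mem_cons] at hx ⊢; tauto
      have := ih x hx'
      simp only [List.count_append, List.count_cons_of_ne (Ne.symm hxt)] at this ⊢
      omega

theorem Rep.count_le {s : List ℕ} {w : Word} (h : Rep s w) (x : ℕ) : s.count x ≤ 2 := by
  by_cases hx : x ∈ s
  · exact (h.two x hx).le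
  · rw [List.count_eq_zero.2 hx]; omega

theorem Rep.erase {s : List ℕ} {w : Word} (h : Rep s w) (u : ℕ) :
    ∃ w', Rep (s.filter (fun x => x ≠ u)) w' := by
  induction h with
  | nil => exact ⟨[], Rep.nil⟩
  | snoc a b c t w hw ht ih =>
    obtain ⟨w', hw'⟩ := ih
    by_cases htu : t = u
    · refine ⟨w, ?_⟩
      have : (a ++ t :: (b ++ t :: c)).filter (fun x => x ≠ u) = a ++ (b ++ c) := by
        subst htu
        have hf : ∀ l : List ℕ, (∀ x ∈ l, x < t) → l.filter (fun x => x ≠ t) = l := by
          intro l hl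
          rw [List.filter_eq_self]
          intro x hx
          have := hl x hx
          simp; omega
        simp only [List.filter_append, List.filter_cons, ne_eq, not_true_eq_false, decide_false,
          Bool.false_eq_true, if_false]
        have e1 := hf a (fun x hx => ht x (by simp [hx]))
        have e2 := hf b (fun x hx => ht x (by simp [hx]))
        have e3 := hf c (fun x hx => ht x (by simp [hx]))
        simp only [ne_eq] at e1 e2 e3
        rw [e1, e2, e3]
      rw [this]; exact hw
    · refine ⟨w' ++ U (a.filter (fun x => x ≠ u)).length (b.filter (fun x => x ≠ u)).length, ?_⟩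
      have : (a ++ t :: (b ++ t :: c)).filter (fun x => x ≠ u) =
          a.filter (fun x => x ≠ u) ++ t :: (b.filter (fun x => x ≠ u) ++
            t :: c.filter (fun x => x ≠ u)) := by
        simp [List.filter_append, List.filter_cons, htu]
      rw [this]
      refine Rep.snoc _ _ _ _ _ ?_ ?_
      · simpa [List.filter_append] using hw'
      · intro x hx
        apply ht
        simp only [List.mem_append, List.mem_filter] at hx ⊢
        tauto

theorem cut_unique {a a' r r' : List ℕ} {t : ℕ} (ha : t ∉ a) (ha' : t ∉ a')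
    (h : a ++ t :: r = a' ++ t :: r') : a = a' ∧ r = r' := by
  induction a generalizing a' with
  | nil =>
    cases a' with
    | nil => simpa using h
    | cons x a' =>
      simp only [List.nil_append, List.cons_append, List.cons.injEq] at h
      exact absurd (by simp [h.1]) ha'
  | cons y a ih =>
    cases a' with
    | nil =>
      simp only [List.nil_append, List.cons_append, List.cons.injEq] at h
      exact absurd (by simp [h.1]) ha
    | cons x a' =>
      simp only [List.cons_append, List.cons.injEq] at h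
      obtain ⟨h1, h2⟩ := ih (fun hm => ha (by simp [hm])) (fun hm => ha' (by simp [hm])) h.2
      exact ⟨by rw [h.1, h1], h2⟩

theorem Rep.unique {s : List ℕ} {w w' : Word} (h : Rep s w) (h' : Rep s w') : w = w' := by
  induction h generalizing w' with
  | nil =>
    generalize hs : ([] : List ℕ) = s' at h'
    cases h' with
    | nil => rfl
    | snoc a b c t w _ _ => simp at hs
  | snoc a b c t w hw ht ih =>
    generalize hs : a ++ t :: (b ++ t :: c) = s' at h'
    cases h' with
    | nil => simp at hs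
    | snoc a' b' c' t' w' hw' ht' =>
      have htt : t = t' := by
        have h1 : t ∈ a' ++ t' :: (b' ++ t' :: c') := by rw [← hs]; simp
        have h2 : t' ∈ a ++ t :: (b ++ t :: c) := by rw [hs]; simp
        have h3 : t = t' ∨ t ∈ a' ++ (b' ++ c') := by
          simp only [List.mem_append, List.mem_cons] at h1 ⊢; tauto
        have h4 : t' = t ∨ t' ∈ a ++ (b ++ c) := by
          simp only [List.mem_append, List.mem_cons] at h2 ⊢; tauto
        rcases h3 with h3 | h3
        · exact h3
        · rcases h4 with h4 | h4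
          · exact h4.symm
          · have := ht' t h3; have := ht t' h4; omega
      subst htt
      have na : ∀ l : List ℕ, (∀ x ∈ l, x < t) → t ∉ l := fun l hl hm => lt_irrefl _ (hl t hm)
      obtain ⟨h1, h2⟩ := cut_unique (na a (fun x hx => ht x (by simp [hx])))
        (na a' (fun x hx => ht' x (by simp [hx]))) hs
      obtain ⟨h3, h4⟩ := cut_unique (na b (fun x hx => ht x (by simp [hx])))
        (na b' (fun x hx => ht' x (by simp [hx]))) h2
      subst h1 h3 h4
      rw [ih hw']

/-! ### moving an end over several strands -/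

def rr (x : ℕ) : ℕ → List ℕ → Word
  | _, [] => []
  | k, b :: B => cx (decide (b < x)) k :: rr x (k + 1) B

def ll (x : ℕ) : ℕ → List ℕ → Word
  | _, [] => []
  | k, b :: B => ll x (k + 1) B ++ [cx (decide (x < b)) k]

theorem rr_append (x k : ℕ) (B C : List ℕ) : rr x k (B ++ C) = rr x k B ++ rr x (k + B.length) C := by
  induction B generalizing k with
  | nil => simp [rr]
  | cons b B ih =>
    simp only [List.cons_append, rr, ih, List.length_cons]
    rw [show k + 1 + B.length = k + (B.length + 1) by omega]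

theorem ll_append (x k : ℕ) (B C : List ℕ) : ll x k (B ++ C) = ll x (k + B.length) C ++ ll x k B := by
  induction B generalizing k with
  | nil => simp [ll]
  | cons b B ih =>
    simp only [List.cons_append, ll, ih, List.length_cons, List.append_assoc]
    rw [show k + 1 + B.length = k + (B.length + 1) by omega]

theorem rr_congr {x y : ℕ} (k : ℕ) {B : List ℕ} (h : ∀ b ∈ B, (b < x ↔ b < y)) :
    rr x k B = rr y k B := by
  induction B generalizing k with
  | nil => rfl
  | cons b B ih =>
    simp only [rr]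
    rw [ih _ (fun c hc => h c (by simp [hc]))]
    have := h b (by simp)
    simp [this]

theorem ll_congr {x y : ℕ} (k : ℕ) {B : List ℕ} (h : ∀ b ∈ B, (x < b ↔ y < b)) :
    ll x k B = ll y k B := by
  induction B generalizing k with
  | nil => rfl
  | cons b B ih =>
    simp only [ll]
    rw [ih _ (fun c hc => h c (by simp [hc]))]
    have := h b (by simp)
    simp [this]

theorem CW_rr (x : ℕ) {n : ℕ} : ∀ (B : List ℕ) (k : ℕ), (B = [] ∨ k + B.length + 1 ≤ n) →
    CW n (rr x k B)
  | [], _, _ => CW.nil n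
  | b :: B, k, h => by
    simp only [List.length_cons, reduceCtorEq, false_or] at h
    refine CW.cons _ (by omega) (CW_rr x B (k + 1) (Or.inr (by omega)))

theorem CW_ll (x : ℕ) {n : ℕ} : ∀ (B : List ℕ) (k : ℕ), (B = [] ∨ k + B.length + 1 ≤ n) →
    CW n (ll x k B)
  | [], _, _ => CW.nil n
  | b :: B, k, h => by
    simp only [List.length_cons, reduceCtorEq, false_or] at h
    exact CW.append (CW_ll x B (k + 1) (Or.inr (by omega))) (CW.one _ (by omega))

theorem E0_append {w w' v : Word} (h : E 0 w w') (hv : ∃ k, width (w' ++ v) 0 = some k) :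
    E 0 (w ++ v) (w' ++ v) := by
  refine h.right v ?_
  obtain ⟨⟨m, h1, h2⟩, _⟩ := h
  obtain ⟨k, hk⟩ := hv
  refine ⟨k, ?_⟩
  rw [width_append, h1] ; rw [width_append, h2] at hk; exact hk

theorem move_right (x : ℕ) : ∀ (B A C : List ℕ) (w : Word), x ∉ B → Rep (A ++ x :: (B ++ C)) w →
    ∃ w', Rep (A ++ (B ++ x :: C)) w' ∧ E 0 (w ++ rr x A.length B) w'
  | [], A, C, w, _, h => ⟨w, h, by simpa [rr] using E.refl h.w⟩
  | b :: B, A, C, w, hx, h => by
    have hbx : x ≠ b := fun h => hx (by simp [h])
    obtain ⟨w₁, h1, h2⟩ := slide h A (B ++ C) x b rfl hbx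
    obtain ⟨w₂, h3, h4⟩ := move_right x B (A ++ [b]) C w₁ (fun h => hx (by simp [h]))
      (by simpa using h1)
    refine ⟨w₂, by simpa using h3, ?_⟩
    have hl : (A ++ [b]).length = A.length + 1 := by simp
    rw [hl] at h4
    have h5 := E0_append (v := rr x (A.length + 1) B) h2 (by
      obtain ⟨⟨m, h6, _⟩, _⟩ := h4; exact ⟨m, h6⟩)
    simp only [rr]
    have h6 := h5.trans h4
    simpa only [List.append_assoc, List.cons_append, List.nil_append] using h6

theorem move_left (x : ℕ) : ∀ (B A C : List ℕ) (w : Word), x ∉ B → Rep (A ++ (B ++ x :: C)) w →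
    ∃ w', Rep (A ++ x :: (B ++ C)) w' ∧ E 0 (w ++ ll x A.length B) w'
  | [], A, C, w, _, h => ⟨w, h, by simpa [ll] using E.refl h.w⟩
  | b :: B, A, C, w, hx, h => by
    have hbx : b ≠ x := fun h => hx (by simp [h])
    obtain ⟨w₁, h1, h2⟩ := move_left x B (A ++ [b]) C w (fun h => hx (by simp [h]))
      (by simpa using h)
    have hl : (A ++ [b]).length = A.length + 1 := by simp
    rw [hl] at h2
    obtain ⟨w₂, h3, h4⟩ := slide h1 A (B ++ C) b x (by simp) hbx
    refine ⟨w₂, by simpa using h3, ?_⟩
    have h5 := E0_append (v := [cx (decide (x < b)) A.length]) h2 (by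
      obtain ⟨⟨m, h6, _⟩, _⟩ := h4; exact ⟨m, h6⟩)
    simp only [ll]
    have h6 := h5.trans h4
    simpa only [List.append_assoc, List.cons_append, List.nil_append] using h6

/-- the moves which spread four neighbouring ends -/
def spread (x k : ℕ) (B C D : List ℕ) : Word :=
  rr x (k + 3) (B ++ (C ++ D)) ++ (rr x (k + 2) (B ++ C) ++ rr x (k + 1) B)

theorem gather {w : Word} (A B C D R : List ℕ) (x n1 n2 n3 n4 : ℕ) (h2 : n2 ∉ B)
    (h3 : n3 ∉ B ++ C) (h4 : n4 ∉ B ++ (C ++ D))
    (o2 : ∀ b ∈ B, (b < x ↔ b < n2)) (o3 : ∀ b ∈ B ++ C, (b < x ↔ b < n3))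
    (o4 : ∀ b ∈ B ++ (C ++ D), (b < x ↔ b < n4))
    (h : Rep (A ++ n1 :: n2 :: n3 :: n4 :: (B ++ (C ++ (D ++ R)))) w) :
    ∃ w', Rep (A ++ n1 :: (B ++ n2 :: (C ++ n3 :: (D ++ n4 :: R)))) w' ∧
      E 0 (w ++ spread x A.length B C D) w' := by
  obtain ⟨w₁, r1, e1⟩ := move_right n4 (B ++ (C ++ D)) (A ++ [n1, n2, n3]) R w h4 (by simpa using h)
  obtain ⟨w₂, r2, e2⟩ := move_right n3 (B ++ C) (A ++ [n1, n2]) (D ++ n4 :: R) w₁ h3
    (by simpa using r1)
  obtain ⟨w₃, r3, e3⟩ := move_right n2 B (A ++ [n1]) (C ++ n3 :: (D ++ n4 :: R)) w₂ h2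
    (by simpa using r2)
  refine ⟨w₃, by simpa using r3, ?_⟩
  have l1 : (A ++ [n1, n2, n3]).length = A.length + 3 := by simp
  have l2 : (A ++ [n1, n2]).length = A.length + 2 := by simp
  have l3 : (A ++ [n1]).length = A.length + 1 := by simp
  rw [l1] at e1
  rw [l2] at e2
  rw [l3] at e3
  unfold spread
  rw [rr_congr _ o4, rr_congr _ o3, rr_congr _ o2]
  have f2 := E0_append (v := rr n2 (A.length + 1) B) e2 (by
      obtain ⟨⟨m, h6, _⟩, _⟩ := e3; exact ⟨m, h6⟩)
  have f2' := f2.trans e3
  have f1 := E0_append (v := rr n3 (A.length + 2) (B ++ C) ++ rr n2 (A.length + 1) B) e1 (by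
      obtain ⟨⟨m, h6, _⟩, _⟩ := f2'; exact ⟨m, by simpa only [List.append_assoc] using h6⟩)
  have f3 : E 0 (w₁ ++ (rr n3 (A.length + 2) (B ++ C) ++ rr n2 (A.length + 1) B)) w₃ := by
    simpa only [List.append_assoc] using f2'
  have f4 := f1.trans f3
  simpa only [List.append_assoc] using f4

theorem core1 {w₀ : Word} (A R : List ℕ) (u v : ℕ) (h : Rep (A ++ R) w₀) (hu : u ∉ A ++ R)
    (hv : v ∉ A ++ R) (huv : u ≠ v) : ∃ w, Rep (A ++ u :: u :: v :: v :: R) w ∧
      E 0 (w₀ ++ [birth A.length, birth (A.length + 2)]) w := by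
  obtain ⟨w₁, r1, e1⟩ := bslide h A R u rfl hu
  obtain ⟨w₂, r2, e2⟩ := bslide r1 (A ++ [u, u]) R v (by simp) (by
    simp only [List.mem_append, List.mem_cons] at hv ⊢
    rintro (h | h | h | h)
    · exact hv (Or.inl h)
    · exact huv h.symm
    · exact huv h.symm
    · exact hv (Or.inr h))
  refine ⟨w₂, by simpa using r2, ?_⟩
  have l1 : (A ++ [u, u]).length = A.length + 2 := by simp
  rw [l1] at e2
  have f := E0_append (v := [birth (A.length + 2)]) e1 (by
      obtain ⟨⟨m, h6, _⟩, _⟩ := e2; exact ⟨m, h6⟩)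
  have f' := f.trans e2
  simpa only [List.append_assoc, List.cons_append, List.nil_append] using f'

theorem core2 {w₀ : Word} (A R : List ℕ) (u v : ℕ) (h : Rep (A ++ R) w₀) (hu : u ∉ A ++ R)
    (hv : v ∉ A ++ R) (huv : u ≠ v) : ∃ w, Rep (A ++ u :: v :: v :: u :: R) w ∧
      E 0 (w₀ ++ [birth A.length, birth (A.length + 1)]) w := by
  obtain ⟨w₁, r1, e1⟩ := bslide h A R u rfl hu
  obtain ⟨w₂, r2, e2⟩ := bslide r1 (A ++ [u]) (u :: R) v (by simp) (by
    simp only [List.mem_append, List.mem_cons] at hv ⊢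
    rintro (h | h | h | h)
    · exact hv (Or.inl h)
    · exact huv h.symm
    · exact huv h.symm
    · exact hv (Or.inr h))
  refine ⟨w₂, by simpa using r2, ?_⟩
  have l1 : (A ++ [u]).length = A.length + 1 := by simp
  rw [l1] at e2
  have f := E0_append (v := [birth (A.length + 1)]) e1 (by
      obtain ⟨⟨m, h6, _⟩, _⟩ := e2; exact ⟨m, h6⟩)
  have f' := f.trans e2
  simpa only [List.append_assoc, List.cons_append, List.nil_append] using f'

theorem core3 {w₀ : Word} (A R : List ℕ) (u v : ℕ) (h : Rep (A ++ R) w₀) (hu : u ∉ A ++ R)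
    (hv : v ∉ A ++ R) (huv : u ≠ v) : ∃ w, Rep (A ++ u :: v :: u :: v :: R) w ∧
      E 0 (w₀ ++ [birth A.length, birth (A.length + 2), cx (decide (v < u)) (A.length + 1)]) w := by
  obtain ⟨w₁, r1, e1⟩ := core1 A R u v h hu hv huv
  obtain ⟨w₂, r2, e2⟩ := slide r1 (A ++ [u]) (v :: R) u v (by simp) huv
  refine ⟨w₂, by simpa using r2, ?_⟩
  have l1 : (A ++ [u]).length = A.length + 1 := by simp
  rw [l1] at e2
  have f := E0_append (v := [cx (decide (v < u)) (A.length + 1)]) e1 (by
      obtain ⟨⟨m, h6, _⟩, _⟩ := e2; exact ⟨m, h6⟩)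
  have f' := f.trans e2
  simpa only [List.append_assoc, List.cons_append, List.nil_append] using f'

end Pool.Agent.Helper82_Alt
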