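import Pool.Agent.Helper82_Alt.A4

/-! Exchanging two neighbouring layers, the three patterns. -/

set_option autoImplicit false
set_option linter.unusedSimpArgs false

namespace Pool.Agent.Helper82_Alt

open Pool.Agent.Helper454.Kauf
open Pool.Agent.Helper454.Kauf.Piece (birth death pos neg)

theorem Rep.erase2 {s s₀ : List ℕ} {w : Word} {u v : ℕ} (h : Rep s w)
    (hs : s.filter (fun x => x ≠ u ∧ x ≠ v) = s₀) : ∃ w', Rep s₀ w' := by
  obtain ⟨w₁, h1⟩ := h.erase v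
  obtain ⟨w₂, h2⟩ := h1.erase u
  refine ⟨w₂, ?_⟩
  rw [← hs]
  rw [List.filter_filter] at h2
  convert h2 using 2
  funext x
  simp

theorem filt_self {l : List ℕ} {u v : ℕ} (hu : u ∉ l) (hv : v ∉ l) :
    l.filter (fun x => decide (x ≠ u ∧ x ≠ v)) = l := by
  rw [List.filter_eq_self]
  intro x hx
  have h1 : x ≠ u := fun h => hu (h ▸ hx)
  have h2 : x ≠ v := fun h => hv (h ▸ hx)
  simp [h1, h2]

theorem core_of {A B C D R : List ℕ} {u v n1 n2 n3 n4 : ℕ} {w : Word}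
    (h : Rep (A ++ n1 :: (B ++ n2 :: (C ++ n3 :: (D ++ n4 :: R)))) w)
    (hu : u ∉ A ++ (B ++ (C ++ (D ++ R)))) (hv : v ∉ A ++ (B ++ (C ++ (D ++ R))))
    (h1 : n1 = u ∨ n1 = v) (h2 : n2 = u ∨ n2 = v) (h3 : n3 = u ∨ n3 = v) (h4 : n4 = u ∨ n4 = v) :
    ∃ w₀, Rep (A ++ (B ++ (C ++ (D ++ R)))) w₀ := by
  refine h.erase2 (u := u) (v := v) ?_
  simp only [List.mem_append, not_or] at hu hv
  simp only [List.filter_append, List.filter_cons]
  rw [filt_self hu.1 hv.1, filt_self hu.2.1 hv.2.1, filt_self hu.2.2.1 hv.2.2.1,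
    filt_self hu.2.2.2.1 hv.2.2.2.1, filt_self hu.2.2.2.2 hv.2.2.2.2]
  have k : ∀ n : ℕ, n = u ∨ n = v → decide (n ≠ u ∧ n ≠ v) = false := by
    intro n hn
    simp only [decide_eq_false_iff_not]
    rintro ⟨a, b⟩
    rcases hn with hn | hn
    · exact a hn
    · exact b hn
  simp only [k n1 h1, k n2 h2, k n3 h3, k n4 h4, Bool.false_eq_true, if_false]

theorem pat1 {A B C D R : List ℕ} {u v : ℕ} {w : Word} (huv : u ≠ v)
    (hu : u ∉ A ++ (B ++ (C ++ (D ++ R)))) (hv : v ∉ A ++ (B ++ (C ++ (D ++ R))))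
    (ho : ∀ b ∈ B ++ (C ++ D), (b < u ↔ b < v))
    (h : Rep (A ++ u :: (B ++ u :: (C ++ v :: (D ++ v :: R)))) w) :
    ∃ w', Rep (A ++ v :: (B ++ v :: (C ++ u :: (D ++ u :: R)))) w' ∧ E 0 w w' := by
  obtain ⟨w₀, h0⟩ := core_of h hu hv (Or.inl rfl) (Or.inl rfl) (Or.inr rfl) (Or.inr rfl)
  obtain ⟨w₁, r1, e1⟩ := core1 A (B ++ (C ++ (D ++ R))) u v h0 hu hv huv
  obtain ⟨w₂, r2, e2⟩ := core1 A (B ++ (C ++ (D ++ R))) v u h0 hv hu huv.symm
  simp only [List.mem_append, not_or] at hu hv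
  have ho' : ∀ b, (b ∈ B ∨ b ∈ C ∨ b ∈ D) → (b < u ↔ b < v) := by
    intro b hb; exact ho b (by simpa using hb)
  obtain ⟨w₃, r3, e3⟩ := gather A B C D R u u u v v (by tauto) (by simp; tauto) (by simp; tauto)
    (fun _ _ => Iff.rfl) (fun b hb => ho' b (by simp at hb; tauto))
    (fun b hb => ho' b (by simpa using hb)) r1
  obtain ⟨w₄, r4, e4⟩ := gather A B C D R u v v u u (by tauto) (by simp; tauto) (by simp; tauto)
    (fun b hb => ho' b (by tauto)) (fun _ _ => Iff.rfl) (fun _ _ => Iff.rfl) r2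
  rw [h.unique r3]
  refine ⟨w₄, r4, ?_⟩
  have f1 := E0_append (v := spread u A.length B C D) e1 (by
    obtain ⟨⟨m, h6, _⟩, _⟩ := e3; exact ⟨m, h6⟩)
  have f2 := E0_append (v := spread u A.length B C D) e2 (by
    obtain ⟨⟨m, h6, _⟩, _⟩ := e4; exact ⟨m, h6⟩)
  exact (f1.trans e3).symm.trans (f2.trans e4)

theorem pat2 {A B C D R : List ℕ} {u v : ℕ} {w : Word} (huv : u ≠ v)
    (hu : u ∉ A ++ (B ++ (C ++ (D ++ R)))) (hv : v ∉ A ++ (B ++ (C ++ (D ++ R))))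
    (ho : ∀ b ∈ B ++ (C ++ D), (b < u ↔ b < v))
    (h : Rep (A ++ u :: (B ++ v :: (C ++ v :: (D ++ u :: R)))) w) :
    ∃ w', Rep (A ++ v :: (B ++ u :: (C ++ u :: (D ++ v :: R)))) w' ∧ E 0 w w' := by
  obtain ⟨w₀, h0⟩ := core_of h hu hv (Or.inl rfl) (Or.inr rfl) (Or.inr rfl) (Or.inl rfl)
  obtain ⟨w₁, r1, e1⟩ := core2 A (B ++ (C ++ (D ++ R))) u v h0 hu hv huv
  obtain ⟨w₂, r2, e2⟩ := core2 A (B ++ (C ++ (D ++ R))) v u h0 hv hu huv.symm
  simp only [List.mem_append, not_or] at hu hv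
  have ho' : ∀ b, (b ∈ B ∨ b ∈ C ∨ b ∈ D) → (b < u ↔ b < v) := by
    intro b hb; exact ho b (by simpa using hb)
  obtain ⟨w₃, r3, e3⟩ := gather A B C D R u u v v u (by tauto) (by simp; tauto) (by simp; tauto)
    (fun b hb => ho' b (by tauto)) (fun b hb => ho' b (by simp at hb; tauto))
    (fun _ _ => Iff.rfl) r1
  obtain ⟨w₄, r4, e4⟩ := gather A B C D R u v u u v (by tauto) (by simp; tauto) (by simp; tauto)
    (fun _ _ => Iff.rfl) (fun _ _ => Iff.rfl) (fun b hb => ho' b (by simpa using hb)) r2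
  rw [h.unique r3]
  refine ⟨w₄, r4, ?_⟩
  have f1 := E0_append (v := spread u A.length B C D) e1 (by
    obtain ⟨⟨m, h6, _⟩, _⟩ := e3; exact ⟨m, h6⟩)
  have f2 := E0_append (v := spread u A.length B C D) e2 (by
    obtain ⟨⟨m, h6, _⟩, _⟩ := e4; exact ⟨m, h6⟩)
  exact (f1.trans e3).symm.trans (f2.trans e4)

theorem pat3 {A B C D R : List ℕ} {u v : ℕ} {w : Word} (huv : u ≠ v)
    (hu : u ∉ A ++ (B ++ (C ++ (D ++ R)))) (hv : v ∉ A ++ (B ++ (C ++ (D ++ R))))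
    (ho : ∀ b ∈ B ++ (C ++ D), (b < u ↔ b < v))
    (h : Rep (A ++ u :: (B ++ v :: (C ++ u :: (D ++ v :: R)))) w) :
    ∃ w₀ w' w₁ w₂, Rep (A ++ v :: (B ++ u :: (C ++ v :: (D ++ u :: R)))) w' ∧
      Rep (A ++ u :: (B ++ u :: (C ++ v :: (D ++ v :: R)))) w₁ ∧
      Rep (A ++ u :: (B ++ v :: (C ++ v :: (D ++ u :: R)))) w₂ ∧
      width w₀ 0 = some (A ++ (B ++ (C ++ (D ++ R)))).length ∧
      E 0 ((w₀ ++ [birth A.length, birth (A.length + 2), cx (decide (v < u)) (A.length + 1)]) ++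
        spread u A.length B C D) w ∧
      E 0 ((w₀ ++ [birth A.length, birth (A.length + 2), cx (decide (u < v)) (A.length + 1)]) ++
        spread u A.length B C D) w' ∧
      E 0 ((w₀ ++ [birth A.length, birth (A.length + 2)]) ++ spread u A.length B C D) w₁ ∧
      E 0 ((w₀ ++ [birth A.length, birth (A.length + 1)]) ++ spread u A.length B C D) w₂ := by
  obtain ⟨w₀, h0⟩ := core_of h hu hv (Or.inl rfl) (Or.inr rfl) (Or.inl rfl) (Or.inr rfl)
  obtain ⟨a1, r1, e1⟩ := core3 A (B ++ (C ++ (D ++ R))) u v h0 hu hv huv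
  obtain ⟨a2, r2, e2⟩ := core3 A (B ++ (C ++ (D ++ R))) v u h0 hv hu huv.symm
  obtain ⟨a3, r3, e3⟩ := core1 A (B ++ (C ++ (D ++ R))) u v h0 hu hv huv
  obtain ⟨a4, r4, e4⟩ := core2 A (B ++ (C ++ (D ++ R))) u v h0 hu hv huv
  simp only [List.mem_append, not_or] at hu hv
  have ho' : ∀ b, (b ∈ B ∨ b ∈ C ∨ b ∈ D) → (b < u ↔ b < v) := by
    intro b hb; exact ho b (by simpa using hb)
  obtain ⟨b1, s1, f1⟩ := gather A B C D R u u v u v (by tauto) (by simp; tauto) (by simp; tauto)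
    (fun b hb => ho' b (by tauto)) (fun _ _ => Iff.rfl) (fun b hb => ho' b (by simpa using hb)) r1
  obtain ⟨b2, s2, f2⟩ := gather A B C D R u v u v u (by tauto) (by simp; tauto) (by simp; tauto)
    (fun _ _ => Iff.rfl) (fun b hb => ho' b (by simp at hb; tauto)) (fun _ _ => Iff.rfl) r2
  obtain ⟨b3, s3, f3⟩ := gather A B C D R u u u v v (by tauto) (by simp; tauto) (by simp; tauto)
    (fun _ _ => Iff.rfl) (fun b hb => ho' b (by simp at hb; tauto))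
    (fun b hb => ho' b (by simpa using hb)) r3
  obtain ⟨b4, s4, f4⟩ := gather A B C D R u u v v u (by tauto) (by simp; tauto) (by simp; tauto)
    (fun b hb => ho' b (by tauto)) (fun b hb => ho' b (by simp at hb; tauto))
    (fun _ _ => Iff.rfl) r4
  have g1 := E0_append (v := spread u A.length B C D) e1 (by
    obtain ⟨⟨m, h6, _⟩, _⟩ := f1; exact ⟨m, h6⟩)
  have g2 := E0_append (v := spread u A.length B C D) e2 (by
    obtain ⟨⟨m, h6, _⟩, _⟩ := f2; exact ⟨m, h6⟩)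
  have g3 := E0_append (v := spread u A.length B C D) e3 (by
    obtain ⟨⟨m, h6, _⟩, _⟩ := f3; exact ⟨m, h6⟩)
  have g4 := E0_append (v := spread u A.length B C D) e4 (by
    obtain ⟨⟨m, h6, _⟩, _⟩ := f4; exact ⟨m, h6⟩)
  rw [h.unique s1]
  exact ⟨w₀, b2, b3, b4, s2, s3, s4, h0.w, g1.trans f1, g2.trans f2, g3.trans f3, g4.trans f4⟩

end Pool.Agent.Helper82_Alt
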