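import Pool.Agent.Helper82_Alt.A5

/-! Skein predicates; joining two arcs in neighbouring layers. -/

set_option autoImplicit false
set_option linter.unusedSimpArgs false

namespace Pool.Agent.Helper82_Alt

open Pool.Agent.Helper454.Kauf
open Pool.Agent.Helper454.Kauf.Piece (birth death pos neg)

/-- `1` for `neg` (positive curl), `-1` for `pos` -/
def sg (b : Bool) : ℤ := if b then 1 else -1

/-- A family of predicates on link diagrams which is compatible with the skein relations. -/
structure Sk (G : ℤ → Word → Prop) : Prop where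
  mono : ∀ c c' w, c ≤ c' → G c w → G c' w
  reg : ∀ c w w', Closed w → RegIsotopic w w' → G c w' → G c w
  birthX : ∀ c b x i y, Closed (x ++ [birth i] ++ y) → G (c - sg b) (x ++ [birth i] ++ y) →
    G c (x ++ [birth i, cx b i] ++ y)
  deathX : ∀ c b x i y, Closed (x ++ [death i] ++ y) → G (c - sg b) (x ++ [death i] ++ y) →
    G c (x ++ [cx b i, death i] ++ y)
  cross : ∀ c b x i y, Closed (x ++ [cx b i] ++ y) → G c (x ++ [cx (!b) i] ++ y) →
    G (c - 1) (x ++ y) → G (c - 1) (x ++ [death i, birth i] ++ y) → G c (x ++ [cx b i] ++ y)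
  circ : ∀ c x i y, Closed (x ++ y) → x ++ y ≠ [] → (∃ n, width x 0 = some n ∧ i ≤ n) →
    G c (x ++ y) → G c (x ++ [birth i, death i] ++ y)
  base : G 0 circle

/-- the diagram part `w` can be replaced by `w'`, with a shift -/
def Red (ε : ℤ) (w w' : Word) : Prop :=
  width w 0 = width w' 0 ∧ ∀ G, Sk G → ∀ c y, Closed (w ++ y) → G (c - ε) (w' ++ y) → G c (w ++ y)

theorem closed_congr {w w' : Word} (h : width w 0 = width w' 0) (y : Word) :
    Closed (w ++ y) ↔ Closed (w' ++ y) := by
  unfold Closed
  rw [width_append, width_append, h]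

theorem Red.of_E {w w' : Word} (h : E 0 w w') : Red 0 w w' := by
  obtain ⟨⟨m, h1, h2⟩, h3⟩ := h
  refine ⟨h1.trans h2.symm, fun G hG c y hc hg => ?_⟩
  rw [sub_zero] at hg
  exact hG.reg c _ _ hc (by simpa using h3 [] y rfl (by simpa using hc)) hg

theorem Red.trans {ε ε' : ℤ} {w w' w'' : Word} (h : Red ε w w') (h' : Red ε' w' w'') :
    Red (ε + ε') w w'' := by
  refine ⟨h.1.trans h'.1, fun G hG c y hc hg => ?_⟩
  refine h.2 G hG c y hc (h'.2 G hG _ y ((closed_congr h.1 y).1 hc) ?_)
  rwa [sub_sub]

theorem Red.append {ε : ℤ} {w w' : Word} (v : Word) (h : Red ε w w') : Red ε (w ++ v) (w' ++ v) := by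
  refine ⟨by rw [width_append, width_append, h.1], fun G hG c y hc hg => ?_⟩
  rw [List.append_assoc] at hc hg ⊢
  exact h.2 G hG c (v ++ y) hc hg

theorem Red.trans0 {ε : ℤ} {w w' w'' : Word} (h : E 0 w w') (h' : Red ε w' w'') :
    Red ε w w'' := by
  have := (Red.of_E h).trans h'
  rwa [zero_add] at this

theorem Red.trans1 {ε : ℤ} {w w' w'' : Word} (h : Red ε w w') (h' : E 0 w' w'') :
    Red ε w w'' := by
  have := h.trans (Red.of_E h')
  rwa [add_zero] at this

theorem Red.curlB {x : Word} {i n : ℕ} (b : Bool) (hx : width x 0 = some n) (hi : i ≤ n) :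
    Red (sg b) (x ++ [birth i, cx b i]) (x ++ [birth i]) := by
  refine ⟨?_, fun G hG c y hc hg => ?_⟩
  · rw [width_append, width_append, hx, Option.bind_some, Option.bind_some, w_birth _ hi,
      w_birth _ hi, w_cx _ _ (by omega)]
  · refine hG.birthX c b x i y ?_ hg
    refine (closed_congr ?_ y).1 hc
    rw [width_append, width_append, hx, Option.bind_some, Option.bind_some, w_birth _ hi,
      w_birth _ hi, w_cx _ _ (by omega)]

theorem Red.curlD {x : Word} {i n : ℕ} (b : Bool) (hx : width x 0 = some n) (hi : i + 2 ≤ n) :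
    Red (sg b) (x ++ [cx b i, death i]) (x ++ [death i]) := by
  have hw : width (x ++ [cx b i, death i]) 0 = width (x ++ [death i]) 0 := by
    rw [width_append, width_append, hx, Option.bind_some, Option.bind_some, w_cx _ _ hi]
  refine ⟨hw, fun G hG c y hc hg => ?_⟩
  exact hG.deathX c b x i y ((closed_congr hw y).1 hc) hg

/-- a curl on an arc with neighbouring ends -/
theorem curl_at {A B : List ℕ} {k : ℕ} {w : Word} (b : Bool) (h : Rep (A ++ k :: k :: B) w) :
    Red (sg b) (w ++ [cx b A.length]) w := by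
  have hcount := h.two k (by simp)
  have hk : k ∉ A ++ B := by
    rw [← List.count_eq_zero]
    simp only [List.count_append, List.count_cons_self] at hcount ⊢
    omega
  obtain ⟨w₀, h0⟩ := h.erase k
  have hf : (A ++ k :: k :: B).filter (fun x => x ≠ k) = A ++ B := by
    have : ∀ l : List ℕ, k ∉ l → l.filter (fun x => decide (x ≠ k)) = l := by
      intro l hl
      rw [List.filter_eq_self]
      intro x hx
      have h1 : x ≠ k := fun h => hl (h ▸ hx)
      simp [h1]
    simp only [List.mem_append, not_or] at hk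
    simp only [List.filter_append, List.filter_cons]
    rw [this A hk.1, this B hk.2]
    simp
  rw [hf] at h0
  obtain ⟨w₁, h1, e1⟩ := bslide h0 A B k rfl hk
  rw [h.unique h1]
  have hl : A.length ≤ (A ++ B).length := by simp
  have f1 := (Red.of_E e1.symm).append [cx b A.length]
  have f2 := Red.curlB (x := w₀) (i := A.length) b h0.w hl
  rw [List.append_assoc] at f1
  have f3 := f1.trans f2
  rw [zero_add] at f3
  exact f3.trans1 e1

theorem CW_death {n p : ℕ} {m : Word} (h : CW p m) (hp : p + 2 ≤ n) :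
    E n (m ++ [death p]) ([death p] ++ m) := by
  induction m with
  | nil => exact E.refl (m := n - 2) (by simp [w_death _ hp, w_nil])
  | cons q m ih =>
    obtain ⟨b, i, rfl, hi⟩ := h q (by simp)
    have hm : CW p m := fun q hq => h q (by simp [hq])
    have h1 := (ih hm).left (m := n) [cx b i] (by rw [w_cx _ _ (by omega), w_nil])
    have hm' : CW (n - 2) m := by
      intro q hq
      obtain ⟨b', i', h1, h2⟩ := hm q hq
      exact ⟨b', i', h1, by omega⟩
    have h2 := (e_cd (n := n) (i := i) (j := p) b hi hp).right m ⟨n - 2, by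
      rw [List.cons_append, w_cx _ _ (by omega), List.cons_append, List.nil_append,
        w_death _ hp, hm'.width]⟩
    exact h1.trans h2

theorem rr_death {n p : ℕ} (x : ℕ) : ∀ (B : List ℕ) (k : ℕ), p ≤ k → k + 2 + B.length + 1 ≤ n →
    E n (rr x (k + 2) B ++ [death p]) ([death p] ++ rr x k B)
  | [], k, _, h => E.refl (m := n - 2) (by
      simp only [rr, List.nil_append]
      rw [w_death _ (by simp at h; omega), w_nil])
  | b :: B, k, hp, h => by
    simp only [List.length_cons] at h
    have h1 := (rr_death (n := n) (p := p) x B (k + 1) (by omega) (by omega)).left (m := n)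
      [cx (decide (b < x)) (k + 2)]
      ((w_cx (n := n) (i := k + 2) (decide (b < x)) [] (by omega)).trans rfl)
    have h2 := (e_dc (n := n) (i := p) (j := k + 2) (decide (b < x)) (by omega)
      (by omega)).symm.right (rr x (k + 1) B) ⟨n - 2, by
      rw [List.cons_append, w_cx _ _ (by omega), List.cons_append, List.nil_append,
        w_death _ (by omega), (CW_rr x B (k + 1) (Or.inr (by omega))).width]⟩
    exact h1.trans h2

theorem filt1 {l : List ℕ} {j : ℕ} (h : j ∉ l) : l.filter (fun x => decide (x ≠ j)) = l := by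
  rw [List.filter_eq_self]
  intro x hx
  have h1 : x ≠ j := fun e => h (e ▸ hx)
  simp [h1]

/-- The other end of the left one of the two arcs is on the left. -/
theorem merge1 {A₁ A₂ B : List ℕ} {j k : ℕ} {w : Word} (hjk : j ≠ k)
    (h : Rep (A₁ ++ j :: (A₂ ++ j :: k :: B)) w) :
    ∃ w₁, Rep (A₁ ++ (A₂ ++ k :: B)) w₁ ∧
      E 0 (w ++ [death (A₁.length + 1 + A₂.length)]) (w₁ ++ ll j A₁.length A₂) := by
  have hcount := h.two j (by simp)
  have hj : j ∉ A₁ ∧ j ∉ A₂ ∧ j ∉ B := by
    simp only [List.count_append, List.count_cons_self, List.count_cons_of_ne hjk.symm] at hcount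
    simp only [← List.count_eq_zero]
    omega
  obtain ⟨w₁, h1⟩ := h.erase j
  have hf : (A₁ ++ j :: (A₂ ++ j :: k :: B)).filter (fun x => x ≠ j) = A₁ ++ (A₂ ++ k :: B) := by
    simp only [List.filter_append, List.filter_cons]
    rw [filt1 hj.1, filt1 hj.2.1, filt1 hj.2.2]
    simp [hjk.symm]
  rw [hf] at h1
  have hn : j ∉ (A₁ ++ A₂) ++ k :: B := by
    simp only [List.mem_append, List.mem_cons]
    rintro ((h | h) | h | h)
    · exact hj.1 h
    · exact hj.2.1 h
    · exact hjk h
    · exact hj.2.2 h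
  obtain ⟨w₂, h2, e2⟩ := bslide h1 (A₁ ++ A₂) (k :: B) j (by simp) (by simpa using hn)
  obtain ⟨w₃, h3, e3⟩ := move_left j A₂ A₁ (j :: k :: B) w₂ hj.2.1 (by simpa using h2)
  refine ⟨w₁, h1, ?_⟩
  rw [h.unique h3]
  have hn1 : (A₁ ++ (A₂ ++ k :: B)).length = A₁.length + A₂.length + B.length + 1 := by
    simp; omega
  have hw1 := h1.w
  rw [hn1] at hw1
  have hlen : (A₁ ++ A₂).length = A₁.length + A₂.length := by simp
  rw [hlen] at e2
  set n := A₁.length + A₂.length + B.length + 1 with hn
  set p := A₁.length + 1 + A₂.length with hp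
  have hll : CW p (ll j A₁.length A₂) := CW_ll j A₂ A₁.length (Or.inr (by omega))
  have f1 := E0_append (v := ll j A₁.length A₂) e2 (by
    obtain ⟨⟨m, h6, _⟩, _⟩ := e3; exact ⟨m, h6⟩)
  have f2 := f1.trans e3
  have hw3 := h3.w
  have hln : (A₁ ++ j :: (A₂ ++ j :: k :: B)).length = n + 2 := by simp; omega
  rw [hln] at hw3
  have f3 := E0_append (v := [death p]) f2.symm (by
    obtain ⟨⟨m, h6, h7⟩, _⟩ := f2
    rw [h7] at hw3
    refine ⟨n, ?_⟩
    rw [width_append, h6, hw3, Option.bind_some, w_death _ (by omega), w_nil]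
    congr 1)
  refine f3.trans ?_
  have f4 := (CW_death (n := n + 2) hll (by omega)).left (m := 0) (w₁ ++ [birth (A₁.length + A₂.length)])
    (by rw [width_append, hw1, Option.bind_some, w_birth _ (by omega), w_nil])
  have f5 := (e_zig1 (n := n) (i := A₁.length + A₂.length) (by omega)).cong (m := 0) w₁
    (ll j A₁.length A₂) hw1 ⟨n, by
      rw [width_append, width_append, hw1, Option.bind_some, w_birth _ (by omega),
        w_death _ (by omega), w_nil, Option.bind_some]
      refine (CW.width ?_)
      intro q hq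
      obtain ⟨b', i', h1, h2⟩ := hll q hq
      exact ⟨b', i', h1, by omega⟩⟩
  have hpp : A₁.length + A₂.length + 1 = p := by omega
  rw [hpp] at f5
  simp only [List.append_assoc, List.cons_append, List.nil_append] at f4 f5 ⊢
  exact f4.trans f5

/-- The other end of the right one of the two arcs is on the right. -/
theorem merge3 {A B₁ B₂ : List ℕ} {j k : ℕ} {w : Word} (hjk : j ≠ k)
    (h : Rep (A ++ j :: k :: (B₁ ++ k :: B₂)) w) :
    ∃ w₁, Rep (A ++ j :: (B₁ ++ B₂)) w₁ ∧
      E 0 (w ++ [death A.length]) (w₁ ++ rr k A.length B₁) := by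
  have hcount := h.two k (by simp)
  have hk : k ∉ A ∧ k ∉ B₁ ∧ k ∉ B₂ := by
    simp only [List.count_append, List.count_cons_self, List.count_cons_of_ne hjk] at hcount
    simp only [← List.count_eq_zero]
    omega
  obtain ⟨w₁, h1⟩ := h.erase k
  have hf : (A ++ j :: k :: (B₁ ++ k :: B₂)).filter (fun x => x ≠ k) = A ++ j :: (B₁ ++ B₂) := by
    simp only [List.filter_append, List.filter_cons]
    rw [filt1 hk.1, filt1 hk.2.1, filt1 hk.2.2]
    simp [hjk]
  rw [hf] at h1
  have hn : k ∉ (A ++ [j]) ++ (B₁ ++ B₂) := by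
    simp only [List.mem_append, List.mem_cons, List.not_mem_nil, or_false]
    rintro ((h | h) | h | h)
    · exact hk.1 h
    · exact hjk h.symm
    · exact hk.2.1 h
    · exact hk.2.2 h
  obtain ⟨w₂, h2, e2⟩ := bslide h1 (A ++ [j]) (B₁ ++ B₂) k (by simp) (by simpa using hn)
  obtain ⟨w₃, h3, e3⟩ := move_right k B₁ (A ++ [j, k]) B₂ w₂ hk.2.1 (by simpa using h2)
  have h3' : Rep (A ++ j :: k :: (B₁ ++ k :: B₂)) w₃ := by simpa using h3
  refine ⟨w₁, h1, ?_⟩
  rw [h.unique h3']
  have hn1 : (A ++ j :: (B₁ ++ B₂)).length = A.length + B₁.length + B₂.length + 1 := by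
    simp; omega
  have hw1 := h1.w
  rw [hn1] at hw1
  have hlen : (A ++ [j]).length = A.length + 1 := by simp
  have hlen2 : (A ++ [j, k]).length = A.length + 2 := by simp
  rw [hlen] at e2
  rw [hlen2] at e3
  set n := A.length + B₁.length + B₂.length + 1 with hn
  set p := A.length with hp
  have f1 := E0_append (v := rr k (p + 2) B₁) e2 (by
    obtain ⟨⟨m, h6, _⟩, _⟩ := e3; exact ⟨m, h6⟩)
  have f2 := f1.trans e3
  have hw3 := h3'.w
  have hln : (A ++ j :: k :: (B₁ ++ k :: B₂)).length = n + 2 := by simp; omega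
  rw [hln] at hw3
  have f3 := E0_append (v := [death p]) f2.symm (by
    obtain ⟨⟨m, h6, h7⟩, _⟩ := f2
    rw [h7] at hw3
    refine ⟨n, ?_⟩
    rw [width_append, h6, hw3, Option.bind_some, w_death _ (by omega), w_nil]
    congr 1)
  refine f3.trans ?_
  have f4 := (rr_death (n := n + 2) (p := p) k B₁ p (by omega) (by omega)).left (m := 0)
    (w₁ ++ [birth (p + 1)])
    (by rw [width_append, hw1, Option.bind_some, w_birth _ (by omega), w_nil])
  have f5 := (e_zig2 (n := n) (i := p) (by omega)).cong (m := 0) w₁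
    (rr k p B₁) hw1 ⟨n, by
      rw [width_append, width_append, hw1, Option.bind_some, w_birth _ (by omega),
        w_death _ (by omega), w_nil, Option.bind_some]
      exact (CW_rr k B₁ p (Or.inr (by omega))).width⟩
  simp only [List.append_assoc, List.cons_append, List.nil_append] at f4 f5 ⊢
  exact f4.trans f5

end Pool.Agent.Helper82_Alt
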