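import Pool.Agent.Helper82_Alt.A6

/-! Number of crossings of a layered diagram. -/

set_option autoImplicit false
set_option linter.unusedSimpArgs false

namespace Pool.Agent.Helper82_Alt

open Pool.Agent.Helper454.Kauf
open Pool.Agent.Helper454.Kauf.Piece (birth death pos neg)

/-- the number of pairs of an `x` and a later `y` -/
def N (x y : ℕ) : List ℕ → ℕ
  | [] => 0
  | a :: l => (if a = x then l.count y else 0) + N x y l

theorem N_append (x y : ℕ) (l r : List ℕ) :
    N x y (l ++ r) = N x y l + N x y r + l.count x * r.count y := by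
  induction l with
  | nil => simp [N]
  | cons a l ih =>
    simp only [List.cons_append, N, ih, List.count_append, List.count_cons]
    by_cases h : a = x
    · subst h; simp; ring
    · simp [h]

theorem N_left {x : ℕ} (y : ℕ) {l : List ℕ} (h : x ∉ l) : N x y l = 0 := by
  induction l with
  | nil => rfl
  | cons a l ih =>
    simp only [List.mem_cons, not_or] at h
    simp only [N, ih h.2, if_neg (Ne.symm h.1)]

theorem N_right (x : ℕ) {y : ℕ} {l : List ℕ} (h : y ∉ l) : N x y l = 0 := by
  induction l with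
  | nil => rfl
  | cons a l ih =>
    simp only [List.mem_cons, not_or] at h
    simp only [N, ih h.2, List.count_eq_zero.2 h.2, ite_self]

def F (s : List ℕ) (x y : ℕ) : ℕ := if x = y then 0 else N x y s % 2

/-- twice the number of crossing pairs of arcs -/
def C2 (s : List ℕ) : ℕ := ∑ x ∈ s.toFinset, ∑ y ∈ s.toFinset, F s x y

theorem C2_eq {s : List ℕ} {T : Finset ℕ} (h : s.toFinset ⊆ T) :
    C2 s = ∑ x ∈ T, ∑ y ∈ T, F s x y := by
  unfold C2
  rw [← Finset.sum_subset h (f := fun x => ∑ y ∈ T, F s x y)]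
  · refine Finset.sum_congr rfl fun x _ => ?_
    rw [← Finset.sum_subset h (f := fun y => F s x y)]
    intro y _ hy
    simp only [List.mem_toFinset] at hy
    simp [F, N_right x hy]
  · intro x _ hx
    simp only [List.mem_toFinset] at hx
    refine Finset.sum_eq_zero fun y _ => ?_
    simp [F, N_left y hx]

theorem sum_decomp (f : ℕ → ℕ → ℕ) {T : Finset ℕ} {u v : ℕ} (hf : ∀ x, f x x = 0) (hu : u ∉ T)
    (hv : v ∉ T) (huv : u ≠ v) :
    ∑ x ∈ insert u (insert v T), ∑ y ∈ insert u (insert v T), f x y =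
      (∑ x ∈ T, ∑ y ∈ T, f x y) + (∑ z ∈ T, (f z u + f u z + f z v + f v z)) +
        (f u v + f v u) := by
  have hu' : u ∉ insert v T := by simp [huv, hu]
  simp only [Finset.sum_insert hu', Finset.sum_insert hv, Finset.sum_add_distrib, hf]
  ring

theorem C2_le {s s' : List ℕ} {u v : ℕ} (huv : u ≠ v) (κ κ' : ℕ)
    (h0 : ∀ z z', z ≠ u → z ≠ v → z' ≠ u → z' ≠ v → z ≠ z' → N z z' s' % 2 ≤ N z z' s % 2)
    (h1 : ∀ z, z ≠ u → z ≠ v →
      N z u s' % 2 + N u z s' % 2 + N z v s' % 2 + N v z s' % 2 ≤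
        N z u s % 2 + N u z s % 2 + N z v s % 2 + N v z s % 2)
    (h2 : N u v s' % 2 + N v u s' % 2 + κ ≤ N u v s % 2 + N v u s % 2 + κ') :
    C2 s' + κ ≤ C2 s + κ' := by
  set T : Finset ℕ := (s.toFinset ∪ s'.toFinset) \ {u, v} with hT
  have hu : u ∉ T := by simp [hT]
  have hv : v ∉ T := by simp [hT]
  have hsub : ∀ l : List ℕ, l = s ∨ l = s' → l.toFinset ⊆ insert u (insert v T) := by
    intro l hl x hx
    simp only [Finset.mem_insert, hT, Finset.mem_sdiff, Finset.mem_union, Finset.mem_singleton]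
    rcases hl with rfl | rfl <;> tauto
  have hF : ∀ (l : List ℕ) x, F l x x = 0 := by intro l x; simp [F]
  rw [C2_eq (hsub s (Or.inl rfl)), C2_eq (hsub s' (Or.inr rfl)),
    sum_decomp _ (hF s) hu hv huv, sum_decomp _ (hF s') hu hv huv]
  have k0 : ∑ x ∈ T, ∑ y ∈ T, F s' x y ≤ ∑ x ∈ T, ∑ y ∈ T, F s x y := by
    refine Finset.sum_le_sum fun x hx => Finset.sum_le_sum fun y hy => ?_
    unfold F
    split_ifs with hxy
    · exact le_refl _
    · simp only [hT, Finset.mem_sdiff, Finset.mem_insert, Finset.mem_singleton, not_or] at hx hy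
      exact h0 x y hx.2.1 hx.2.2 hy.2.1 hy.2.2 hxy
  have k1 : ∑ z ∈ T, (F s' z u + F s' u z + F s' z v + F s' v z) ≤
      ∑ z ∈ T, (F s z u + F s u z + F s z v + F s v z) := by
    refine Finset.sum_le_sum fun z hz => ?_
    simp only [hT, Finset.mem_sdiff, Finset.mem_insert, Finset.mem_singleton, not_or] at hz
    have := h1 z hz.2.1 hz.2.2
    simpa only [F, if_neg hz.2.1, if_neg hz.2.2, if_neg (Ne.symm hz.2.1),
      if_neg (Ne.symm hz.2.2)] using this
  have k2 : F s' u v + F s' v u + κ ≤ F s u v + F s v u + κ' := by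
    simpa only [F, if_neg huv, if_neg huv.symm] using h2
  omega

/-! ### estimates -/

theorem N_cons (x y a : ℕ) (l : List ℕ) :
    N x y (a :: l) = (if a = x then l.count y else 0) + N x y l := rfl

/-- exchange of two neighbouring ends -/
theorem C2_swap (A B : List ℕ) (x y : ℕ) :
    C2 (A ++ y :: x :: B) ≤ C2 (A ++ x :: y :: B) + 2 := by
  by_cases hxy : x = y
  · subst hxy; omega
  · have h := C2_le (s := A ++ x :: y :: B) (s' := A ++ y :: x :: B) hxy 0 2 ?_ ?_ ?_
    · simpa using h
    · intro z z' h1 h2 h3 h4 _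
      simp only [N_append, N_cons, List.count_cons, if_neg (Ne.symm h1), if_neg (Ne.symm h2),
        beq_iff_eq, Ne.symm h1, Ne.symm h2, Ne.symm h3, Ne.symm h4, if_false, add_zero]
      omega
    · intro z h1 h2
      simp only [N_append, N_cons, List.count_cons, if_neg (Ne.symm h1), if_neg (Ne.symm h2),
        beq_iff_eq, Ne.symm h1, Ne.symm h2, if_false, add_zero, if_true, hxy, Ne.symm hxy,
        zero_add, mul_add, mul_one, if_neg, not_false_eq_true]
      omega
    · omega

/-- a new arc with neighbouring ends -/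
theorem C2_ins {A B : List ℕ} {j : ℕ} (hj : j ∉ A ++ B) : C2 (A ++ j :: j :: B) ≤ C2 (A ++ B) := by
  have hv : ∃ v, v ∉ A ++ B ∧ v ≠ j := by
    refine ⟨(A ++ B).sum + j + 1, ?_, by omega⟩
    intro h
    have := List.le_sum_of_mem h
    omega
  obtain ⟨v, hv, hvj⟩ := hv
  simp only [List.mem_append, not_or] at hj hv
  have h := C2_le (s := A ++ B) (s' := A ++ j :: j :: B) hvj.symm 0 0 ?_ ?_ ?_
  · simpa using h
  · intro z z' h1 h2 h3 h4 _
    simp only [N_append, N_cons, List.count_cons, if_neg (Ne.symm h1), if_neg (Ne.symm h2),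
      beq_iff_eq, Ne.symm h1, Ne.symm h3, if_false, add_zero, zero_add, le_refl]
  · intro z h1 h2
    simp only [N_append, N_cons, List.count_cons, if_neg (Ne.symm h1), if_neg (Ne.symm h2),
      beq_iff_eq, Ne.symm h1, Ne.symm h2, if_false, add_zero, if_true, hvj, Ne.symm hvj,
      zero_add, N_right z hj.1, N_right z hj.2, N_left z hj.1, N_left z hj.2,
      N_right z hv.1, N_right z hv.2, N_left z hv.1, N_left z hv.2,
      List.count_eq_zero.2 hj.1, List.count_eq_zero.2 hj.2, List.count_eq_zero.2 hv.1,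
      List.count_eq_zero.2 hv.2]
    omega
  · simp only [N_append, N_cons, List.count_cons, 
      beq_iff_eq, if_false, add_zero, if_true, hvj, Ne.symm hvj,
      zero_add, N_right _ hj.1, N_right _ hj.2, N_left _ hj.1, N_left _ hj.2,
      N_right _ hv.1, N_right _ hv.2, N_left _ hv.1, N_left _ hv.2,
      List.count_eq_zero.2 hj.1, List.count_eq_zero.2 hj.2, List.count_eq_zero.2 hv.1,
      List.count_eq_zero.2 hv.2]
    omega

/-- the names of the arcs when the neighbouring ends of `j` and `k` have been joined -/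
def mrg (j k : ℕ) (x : ℕ) : ℕ := if x = j then k else x

theorem count_mrg {j k : ℕ} (hjk : j ≠ k) (l : List ℕ) :
    (l.map (mrg j k)).count k = l.count j + l.count k ∧ (l.map (mrg j k)).count j = 0 ∧
      ∀ z, z ≠ j → z ≠ k → (l.map (mrg j k)).count z = l.count z := by
  induction l with
  | nil => simp
  | cons a l ih =>
    obtain ⟨h1, h2, h3⟩ := ih
    simp only [List.map_cons, List.count_cons, h1, h2, mrg]
    refine ⟨?_, ?_, fun z hz hz' => ?_⟩
    · by_cases ha : a = j
      · subst ha; simp [hjk]; omega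
      · simp [ha]; omega
    · by_cases ha : a = j
      · subst ha; simp [Ne.symm hjk]
      · simp [ha]
    · rw [h3 z hz hz']
      by_cases ha : a = j
      · subst ha; simp [Ne.symm hz, Ne.symm hz']
      · simp [ha]

theorem N_mrg {j k : ℕ} (hjk : j ≠ k) (l : List ℕ) :
    (∀ z, z ≠ j → z ≠ k → N z k (l.map (mrg j k)) = N z j l + N z k l ∧
      N k z (l.map (mrg j k)) = N j z l + N k z l) ∧
    (∀ z, N z j (l.map (mrg j k)) = 0 ∧ N j z (l.map (mrg j k)) = 0) ∧
    ∀ z z', z ≠ j → z ≠ k → z' ≠ j → z' ≠ k → N z z' (l.map (mrg j k)) = N z z' l := by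
  have hj : j ∉ l.map (mrg j k) := by
    rw [← List.count_eq_zero]; exact (count_mrg hjk l).2.1
  refine ⟨?_, fun z => ⟨N_right z hj, N_left z hj⟩, ?_⟩
  · intro z hz hz'
    clear hj
    induction l with
    | nil => simp [N]
    | cons a l ih =>
      obtain ⟨h1, h2, h3⟩ := count_mrg hjk l
      obtain ⟨i1, i2⟩ := ih
      simp only [List.map_cons, N, i1, i2, h1, h3 z hz hz', mrg]
      by_cases ha : a = j
      · subst ha
        simp only [if_true, if_neg (Ne.symm hz), if_neg (Ne.symm hz'), if_neg hjk]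
        omega
      · simp only [ha, if_false]
        by_cases haz : a = z
        · subst haz; simp [hz']; omega
        · simp [haz]; omega
  · intro z z' h1 h2 h3 h4
    clear hj
    induction l with
    | nil => simp [N]
    | cons a l ih =>
      obtain ⟨g1, g2, g3⟩ := count_mrg hjk l
      simp only [List.map_cons, N, ih, g3 z' h3 h4, mrg]
      by_cases ha : a = j
      · subst ha
        simp [Ne.symm h1, Ne.symm h2]
      · simp [ha]

/-- joining two neighbouring ends -/
theorem C2_mrg (P Q : List ℕ) {j k : ℕ} (hjk : j ≠ k) :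
    C2 ((P ++ Q).map (mrg j k)) + 2 * (N j k (P ++ j :: k :: Q) % 2) ≤ C2 (P ++ j :: k :: Q) +
      (N j k (P ++ j :: k :: Q) % 2 - N k j (P ++ j :: k :: Q) % 2) := by
  obtain ⟨h1, h2, h3⟩ := N_mrg hjk (P ++ Q)
  refine C2_le hjk _ _ ?_ ?_ ?_
  · intro z z' g1 g2 g3 g4 _
    rw [h3 z z' g1 g2 g3 g4]
    simp only [N_append, N_cons, List.count_cons, if_neg (Ne.symm g1), if_neg (Ne.symm g2),
      beq_iff_eq, Ne.symm g1, Ne.symm g2, Ne.symm g3, Ne.symm g4, if_false, add_zero, zero_add,
      le_refl]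
  · intro z g1 g2
    rw [(h2 z).1, (h2 z).2, (h1 z g1 g2).1, (h1 z g1 g2).2]
    simp only [N_append, N_cons, List.count_cons, if_neg (Ne.symm g1), if_neg (Ne.symm g2),
      beq_iff_eq, Ne.symm g1, Ne.symm g2, if_false, add_zero, if_true, hjk, Ne.symm hjk,
      zero_add, mul_add, mul_one, add_mul, one_mul]
    omega
  · rw [(h2 k).1, (h2 k).2]
    omega

theorem N_sum {j k : ℕ} (hjk : j ≠ k) (l : List ℕ) : N j k l + N k j l = l.count j * l.count k := by
  induction l with
  | nil => simp [N]
  | cons a l ih =>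
    simp only [N_cons, List.count_cons, beq_iff_eq]
    by_cases h1 : a = j
    · subst h1
      simp only [if_true, hjk, if_false, add_zero]
      rw [add_mul, ← ih]; ring
    · by_cases h2 : a = k
      · subst h2
        simp only [if_true, h1, if_false, add_zero]
        rw [mul_add, ← ih]; ring
      · simp only [h1, h2, if_false, add_zero, zero_add, ih]

theorem C2_mrg' (P Q : List ℕ) {j k : ℕ} (hjk : j ≠ k) (h1 : (P ++ j :: k :: Q).count j = 2)
    (h2 : (P ++ j :: k :: Q).count k = 2) :
    C2 ((P ++ Q).map (mrg j k)) + 2 * (N j k (P ++ j :: k :: Q) % 2) ≤ C2 (P ++ j :: k :: Q) := by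
  have h := C2_mrg P Q hjk
  have h3 := N_sum hjk (P ++ j :: k :: Q)
  rw [h1, h2] at h3
  omega

theorem C2_mrg_inv (P Q : List ℕ) {j k : ℕ} (hjk : j ≠ k) (h1 : (P ++ j :: k :: Q).count j = 2)
    (h2 : (P ++ j :: k :: Q).count k = 2) :
    C2 ((P ++ Q).map (mrg k j)) + 2 * (N j k (P ++ j :: k :: Q) % 2) ≤ C2 (P ++ j :: k :: Q) := by
  obtain ⟨g1, g2, g3⟩ := N_mrg hjk.symm (P ++ Q)
  have h3 := N_sum hjk (P ++ j :: k :: Q)
  rw [h1, h2] at h3
  have h := C2_le (s := P ++ j :: k :: Q) (s' := (P ++ Q).map (mrg k j)) hjk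
    (2 * (N j k (P ++ j :: k :: Q) % 2)) 0 ?_ ?_ ?_
  · simpa using h
  · intro z z' k1 k2 k3 k4 _
    rw [g3 z z' k2 k1 k4 k3]
    simp only [N_append, N_cons, List.count_cons, if_neg (Ne.symm k1), if_neg (Ne.symm k2),
      beq_iff_eq, Ne.symm k1, Ne.symm k2, Ne.symm k3, Ne.symm k4, if_false, add_zero, zero_add,
      le_refl]
  · intro z k1 k2
    rw [(g2 z).1, (g2 z).2, (g1 z k2 k1).1, (g1 z k2 k1).2]
    simp only [N_append, N_cons, List.count_cons, if_neg (Ne.symm k1), if_neg (Ne.symm k2),
      beq_iff_eq, Ne.symm k1, Ne.symm k2, if_false, add_zero, if_true, hjk, Ne.symm hjk,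
      zero_add, mul_add, mul_one, add_mul, one_mul]
    omega
  · rw [(g2 j).1, (g2 j).2]
    omega

/-- two arcs are exchanged, pattern `uuvv` -/
theorem C2_pat1 {A B C D R : List ℕ} {u v : ℕ} (huv : u ≠ v)
    (hu : u ∉ A ++ (B ++ (C ++ (D ++ R)))) (hv : v ∉ A ++ (B ++ (C ++ (D ++ R)))) :
    C2 (A ++ v :: (B ++ v :: (C ++ u :: (D ++ u :: R)))) + 0 ≤
      C2 (A ++ u :: (B ++ u :: (C ++ v :: (D ++ v :: R)))) := by
  simp only [List.mem_append, not_or] at hu hv
  obtain ⟨a1, a2, a3, a4, a5⟩ := hu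
  obtain ⟨b1, b2, b3, b4, b5⟩ := hv
  have h := C2_le (s := A ++ u :: (B ++ u :: (C ++ v :: (D ++ v :: R))))
    (s' := A ++ v :: (B ++ v :: (C ++ u :: (D ++ u :: R)))) huv 0 0 ?_ ?_ ?_
  · simpa using h
  · intro z z' h1 h2 h3 h4 _
    simp only [N_append, N_cons, List.count_cons, List.count_append, if_neg (Ne.symm h1),
      if_neg (Ne.symm h2), beq_iff_eq, Ne.symm h1, Ne.symm h2, Ne.symm h3, Ne.symm h4, if_false,
      add_zero, zero_add, le_refl]
  · intro z h1 h2
    simp only [if_neg (Ne.symm h1), if_neg (Ne.symm h2), Ne.symm h1, Ne.symm h2,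
      N_append, N_cons, List.count_cons, List.count_append,
      beq_iff_eq, if_false, add_zero, if_true, huv,
      Ne.symm huv, zero_add, mul_add, mul_one, add_mul, one_mul, N_left _ a1, N_left _ a2,
      N_left _ a3, N_left _ a4, N_left _ a5, N_right _ a1, N_right _ a2, N_right _ a3,
      N_right _ a4, N_right _ a5, N_left _ b1, N_left _ b2, N_left _ b3, N_left _ b4, N_left _ b5,
      N_right _ b1, N_right _ b2, N_right _ b3, N_right _ b4, N_right _ b5,
      List.count_eq_zero.2 a1, List.count_eq_zero.2 a2, List.count_eq_zero.2 a3,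
      List.count_eq_zero.2 a4, List.count_eq_zero.2 a5, List.count_eq_zero.2 b1,
      List.count_eq_zero.2 b2, List.count_eq_zero.2 b3, List.count_eq_zero.2 b4,
      List.count_eq_zero.2 b5, mul_zero, zero_mul]
    omega
  · simp only [N_append, N_cons, List.count_cons, List.count_append,
      beq_iff_eq, if_false, add_zero, if_true, huv,
      Ne.symm huv, zero_add, mul_add, mul_one, add_mul, one_mul, N_left _ a1, N_left _ a2,
      N_left _ a3, N_left _ a4, N_left _ a5, N_right _ a1, N_right _ a2, N_right _ a3,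
      N_right _ a4, N_right _ a5, N_left _ b1, N_left _ b2, N_left _ b3, N_left _ b4, N_left _ b5,
      N_right _ b1, N_right _ b2, N_right _ b3, N_right _ b4, N_right _ b5,
      List.count_eq_zero.2 a1, List.count_eq_zero.2 a2, List.count_eq_zero.2 a3,
      List.count_eq_zero.2 a4, List.count_eq_zero.2 a5, List.count_eq_zero.2 b1,
      List.count_eq_zero.2 b2, List.count_eq_zero.2 b3, List.count_eq_zero.2 b4,
      List.count_eq_zero.2 b5, mul_zero, zero_mul]
    omega

/-- two arcs are exchanged, pattern `uvvu` -/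
theorem C2_pat2 {A B C D R : List ℕ} {u v : ℕ} (huv : u ≠ v)
    (hu : u ∉ A ++ (B ++ (C ++ (D ++ R)))) (hv : v ∉ A ++ (B ++ (C ++ (D ++ R)))) :
    C2 (A ++ v :: (B ++ u :: (C ++ u :: (D ++ v :: R)))) + 0 ≤
      C2 (A ++ u :: (B ++ v :: (C ++ v :: (D ++ u :: R)))) := by
  simp only [List.mem_append, not_or] at hu hv
  obtain ⟨a1, a2, a3, a4, a5⟩ := hu
  obtain ⟨b1, b2, b3, b4, b5⟩ := hv
  have h := C2_le (s := A ++ u :: (B ++ v :: (C ++ v :: (D ++ u :: R))))
    (s' := A ++ v :: (B ++ u :: (C ++ u :: (D ++ v :: R)))) huv 0 0 ?_ ?_ ?_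
  · simpa using h
  · intro z z' h1 h2 h3 h4 _
    simp only [N_append, N_cons, List.count_cons, List.count_append, if_neg (Ne.symm h1),
      if_neg (Ne.symm h2), beq_iff_eq, Ne.symm h1, Ne.symm h2, Ne.symm h3, Ne.symm h4, if_false,
      add_zero, zero_add, le_refl]
  · intro z h1 h2
    simp only [if_neg (Ne.symm h1), if_neg (Ne.symm h2), Ne.symm h1, Ne.symm h2,
      N_append, N_cons, List.count_cons, List.count_append,
      beq_iff_eq, if_false, add_zero, if_true, huv,
      Ne.symm huv, zero_add, mul_add, mul_one, add_mul, one_mul, N_left _ a1, N_left _ a2,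
      N_left _ a3, N_left _ a4, N_left _ a5, N_right _ a1, N_right _ a2, N_right _ a3,
      N_right _ a4, N_right _ a5, N_left _ b1, N_left _ b2, N_left _ b3, N_left _ b4, N_left _ b5,
      N_right _ b1, N_right _ b2, N_right _ b3, N_right _ b4, N_right _ b5,
      List.count_eq_zero.2 a1, List.count_eq_zero.2 a2, List.count_eq_zero.2 a3,
      List.count_eq_zero.2 a4, List.count_eq_zero.2 a5, List.count_eq_zero.2 b1,
      List.count_eq_zero.2 b2, List.count_eq_zero.2 b3, List.count_eq_zero.2 b4,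
      List.count_eq_zero.2 b5, mul_zero, zero_mul]
    omega
  · simp only [N_append, N_cons, List.count_cons, List.count_append,
      beq_iff_eq, if_false, add_zero, if_true, huv,
      Ne.symm huv, zero_add, mul_add, mul_one, add_mul, one_mul, N_left _ a1, N_left _ a2,
      N_left _ a3, N_left _ a4, N_left _ a5, N_right _ a1, N_right _ a2, N_right _ a3,
      N_right _ a4, N_right _ a5, N_left _ b1, N_left _ b2, N_left _ b3, N_left _ b4, N_left _ b5,
      N_right _ b1, N_right _ b2, N_right _ b3, N_right _ b4, N_right _ b5,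
      List.count_eq_zero.2 a1, List.count_eq_zero.2 a2, List.count_eq_zero.2 a3,
      List.count_eq_zero.2 a4, List.count_eq_zero.2 a5, List.count_eq_zero.2 b1,
      List.count_eq_zero.2 b2, List.count_eq_zero.2 b3, List.count_eq_zero.2 b4,
      List.count_eq_zero.2 b5, mul_zero, zero_mul]
    omega

/-- two arcs are exchanged, pattern `uvuv` -/
theorem C2_pat3 {A B C D R : List ℕ} {u v : ℕ} (huv : u ≠ v)
    (hu : u ∉ A ++ (B ++ (C ++ (D ++ R)))) (hv : v ∉ A ++ (B ++ (C ++ (D ++ R)))) :
    C2 (A ++ v :: (B ++ u :: (C ++ v :: (D ++ u :: R)))) + 0 ≤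
      C2 (A ++ u :: (B ++ v :: (C ++ u :: (D ++ v :: R)))) := by
  simp only [List.mem_append, not_or] at hu hv
  obtain ⟨a1, a2, a3, a4, a5⟩ := hu
  obtain ⟨b1, b2, b3, b4, b5⟩ := hv
  have h := C2_le (s := A ++ u :: (B ++ v :: (C ++ u :: (D ++ v :: R))))
    (s' := A ++ v :: (B ++ u :: (C ++ v :: (D ++ u :: R)))) huv 0 0 ?_ ?_ ?_
  · simpa using h
  · intro z z' h1 h2 h3 h4 _
    simp only [N_append, N_cons, List.count_cons, List.count_append, if_neg (Ne.symm h1),
      if_neg (Ne.symm h2), beq_iff_eq, Ne.symm h1, Ne.symm h2, Ne.symm h3, Ne.symm h4, if_false,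
      add_zero, zero_add, le_refl]
  · intro z h1 h2
    simp only [if_neg (Ne.symm h1), if_neg (Ne.symm h2), Ne.symm h1, Ne.symm h2,
      N_append, N_cons, List.count_cons, List.count_append,
      beq_iff_eq, if_false, add_zero, if_true, huv,
      Ne.symm huv, zero_add, mul_add, mul_one, add_mul, one_mul, N_left _ a1, N_left _ a2,
      N_left _ a3, N_left _ a4, N_left _ a5, N_right _ a1, N_right _ a2, N_right _ a3,
      N_right _ a4, N_right _ a5, N_left _ b1, N_left _ b2, N_left _ b3, N_left _ b4, N_left _ b5,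
      N_right _ b1, N_right _ b2, N_right _ b3, N_right _ b4, N_right _ b5,
      List.count_eq_zero.2 a1, List.count_eq_zero.2 a2, List.count_eq_zero.2 a3,
      List.count_eq_zero.2 a4, List.count_eq_zero.2 a5, List.count_eq_zero.2 b1,
      List.count_eq_zero.2 b2, List.count_eq_zero.2 b3, List.count_eq_zero.2 b4,
      List.count_eq_zero.2 b5, mul_zero, zero_mul]
    omega
  · simp only [N_append, N_cons, List.count_cons, List.count_append,
      beq_iff_eq, if_false, add_zero, if_true, huv,
      Ne.symm huv, zero_add, mul_add, mul_one, add_mul, one_mul, N_left _ a1, N_left _ a2,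
      N_left _ a3, N_left _ a4, N_left _ a5, N_right _ a1, N_right _ a2, N_right _ a3,
      N_right _ a4, N_right _ a5, N_left _ b1, N_left _ b2, N_left _ b3, N_left _ b4, N_left _ b5,
      N_right _ b1, N_right _ b2, N_right _ b3, N_right _ b4, N_right _ b5,
      List.count_eq_zero.2 a1, List.count_eq_zero.2 a2, List.count_eq_zero.2 a3,
      List.count_eq_zero.2 a4, List.count_eq_zero.2 a5, List.count_eq_zero.2 b1,
      List.count_eq_zero.2 b2, List.count_eq_zero.2 b3, List.count_eq_zero.2 b4,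
      List.count_eq_zero.2 b5, mul_zero, zero_mul]
    omega

/-- first smoothing -/
theorem C2_sm1 {A B C D R : List ℕ} {u v : ℕ} (huv : u ≠ v)
    (hu : u ∉ A ++ (B ++ (C ++ (D ++ R)))) (hv : v ∉ A ++ (B ++ (C ++ (D ++ R))))
    (hc : ∀ z, (A ++ (B ++ (C ++ (D ++ R)))).count z ≤ 2) :
    C2 (A ++ u :: (B ++ u :: (C ++ v :: (D ++ v :: R)))) + 2 ≤
      C2 (A ++ u :: (B ++ v :: (C ++ u :: (D ++ v :: R)))) := by
  simp only [List.mem_append, not_or] at hu hv
  obtain ⟨a1, a2, a3, a4, a5⟩ := hu
  obtain ⟨b1, b2, b3, b4, b5⟩ := hv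
  have h := C2_le (s := A ++ u :: (B ++ v :: (C ++ u :: (D ++ v :: R))))
    (s' := A ++ u :: (B ++ u :: (C ++ v :: (D ++ v :: R)))) huv 2 0 ?_ ?_ ?_
  · simpa using h
  · intro z z' h1 h2 h3 h4 _
    simp only [N_append, N_cons, List.count_cons, List.count_append, if_neg (Ne.symm h1),
      if_neg (Ne.symm h2), beq_iff_eq, Ne.symm h1, Ne.symm h2, Ne.symm h3, Ne.symm h4, if_false,
      add_zero, zero_add, le_refl]
  · intro z h1 h2
    have := hc z
    simp only [List.count_append] at this
    simp only [if_neg (Ne.symm h1), if_neg (Ne.symm h2), Ne.symm h1, Ne.symm h2,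
      N_append, N_cons, List.count_cons, List.count_append,
      beq_iff_eq, if_false, add_zero, if_true, huv,
      Ne.symm huv, zero_add, mul_add, mul_one, add_mul, one_mul, N_left _ a1, N_left _ a2,
      N_left _ a3, N_left _ a4, N_left _ a5, N_right _ a1, N_right _ a2, N_right _ a3,
      N_right _ a4, N_right _ a5, N_left _ b1, N_left _ b2, N_left _ b3, N_left _ b4, N_left _ b5,
      N_right _ b1, N_right _ b2, N_right _ b3, N_right _ b4, N_right _ b5,
      List.count_eq_zero.2 a1, List.count_eq_zero.2 a2, List.count_eq_zero.2 a3,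
      List.count_eq_zero.2 a4, List.count_eq_zero.2 a5, List.count_eq_zero.2 b1,
      List.count_eq_zero.2 b2, List.count_eq_zero.2 b3, List.count_eq_zero.2 b4,
      List.count_eq_zero.2 b5, mul_zero, zero_mul]
    obtain hb | hb | hb : B.count z = 0 ∨ B.count z = 1 ∨ B.count z = 2 := by omega
    all_goals
      obtain hd | hd | hd : D.count z = 0 ∨ D.count z = 1 ∨ D.count z = 2 := by omega
    all_goals
      obtain hc | hc | hc : C.count z = 0 ∨ C.count z = 1 ∨ C.count z = 2 := by omega
    all_goals simp only [hb, hd, hc] at this ⊢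
    all_goals omega
  · simp only [N_append, N_cons, List.count_cons, List.count_append,
      beq_iff_eq, if_false, add_zero, if_true, huv,
      Ne.symm huv, zero_add, mul_add, mul_one, add_mul, one_mul, N_left _ a1, N_left _ a2,
      N_left _ a3, N_left _ a4, N_left _ a5, N_right _ a1, N_right _ a2, N_right _ a3,
      N_right _ a4, N_right _ a5, N_left _ b1, N_left _ b2, N_left _ b3, N_left _ b4, N_left _ b5,
      N_right _ b1, N_right _ b2, N_right _ b3, N_right _ b4, N_right _ b5,
      List.count_eq_zero.2 a1, List.count_eq_zero.2 a2, List.count_eq_zero.2 a3,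
      List.count_eq_zero.2 a4, List.count_eq_zero.2 a5, List.count_eq_zero.2 b1,
      List.count_eq_zero.2 b2, List.count_eq_zero.2 b3, List.count_eq_zero.2 b4,
      List.count_eq_zero.2 b5, mul_zero, zero_mul]
    omega

/-- second smoothing -/
theorem C2_sm2 {A B C D R : List ℕ} {u v : ℕ} (huv : u ≠ v)
    (hu : u ∉ A ++ (B ++ (C ++ (D ++ R)))) (hv : v ∉ A ++ (B ++ (C ++ (D ++ R))))
    (hc : ∀ z, (A ++ (B ++ (C ++ (D ++ R)))).count z ≤ 2) :
    C2 (A ++ u :: (B ++ v :: (C ++ v :: (D ++ u :: R)))) + 2 ≤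
      C2 (A ++ u :: (B ++ v :: (C ++ u :: (D ++ v :: R)))) := by
  simp only [List.mem_append, not_or] at hu hv
  obtain ⟨a1, a2, a3, a4, a5⟩ := hu
  obtain ⟨b1, b2, b3, b4, b5⟩ := hv
  have h := C2_le (s := A ++ u :: (B ++ v :: (C ++ u :: (D ++ v :: R))))
    (s' := A ++ u :: (B ++ v :: (C ++ v :: (D ++ u :: R)))) huv 2 0 ?_ ?_ ?_
  · simpa using h
  · intro z z' h1 h2 h3 h4 _
    simp only [N_append, N_cons, List.count_cons, List.count_append, if_neg (Ne.symm h1),
      if_neg (Ne.symm h2), beq_iff_eq, Ne.symm h1, Ne.symm h2, Ne.symm h3, Ne.symm h4, if_false,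
      add_zero, zero_add, le_refl]
  · intro z h1 h2
    have := hc z
    simp only [List.count_append] at this
    simp only [if_neg (Ne.symm h1), if_neg (Ne.symm h2), Ne.symm h1, Ne.symm h2,
      N_append, N_cons, List.count_cons, List.count_append,
      beq_iff_eq, if_false, add_zero, if_true, huv,
      Ne.symm huv, zero_add, mul_add, mul_one, add_mul, one_mul, N_left _ a1, N_left _ a2,
      N_left _ a3, N_left _ a4, N_left _ a5, N_right _ a1, N_right _ a2, N_right _ a3,
      N_right _ a4, N_right _ a5, N_left _ b1, N_left _ b2, N_left _ b3, N_left _ b4, N_left _ b5,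
      N_right _ b1, N_right _ b2, N_right _ b3, N_right _ b4, N_right _ b5,
      List.count_eq_zero.2 a1, List.count_eq_zero.2 a2, List.count_eq_zero.2 a3,
      List.count_eq_zero.2 a4, List.count_eq_zero.2 a5, List.count_eq_zero.2 b1,
      List.count_eq_zero.2 b2, List.count_eq_zero.2 b3, List.count_eq_zero.2 b4,
      List.count_eq_zero.2 b5, mul_zero, zero_mul]
    omega
  · simp only [N_append, N_cons, List.count_cons, List.count_append,
      beq_iff_eq, if_false, add_zero, if_true, huv,
      Ne.symm huv, zero_add, mul_add, mul_one, add_mul, one_mul, N_left _ a1, N_left _ a2,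
      N_left _ a3, N_left _ a4, N_left _ a5, N_right _ a1, N_right _ a2, N_right _ a3,
      N_right _ a4, N_right _ a5, N_left _ b1, N_left _ b2, N_left _ b3, N_left _ b4, N_left _ b5,
      N_right _ b1, N_right _ b2, N_right _ b3, N_right _ b4, N_right _ b5,
      List.count_eq_zero.2 a1, List.count_eq_zero.2 a2, List.count_eq_zero.2 a3,
      List.count_eq_zero.2 a4, List.count_eq_zero.2 a5, List.count_eq_zero.2 b1,
      List.count_eq_zero.2 b2, List.count_eq_zero.2 b3, List.count_eq_zero.2 b4,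
      List.count_eq_zero.2 b5, mul_zero, zero_mul]
    omega

end Pool.Agent.Helper82_Alt
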