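import Pool.Agent.Helper82_Alt.A7

/-! Joining two arcs in neighbouring layers, all cases. -/

set_option autoImplicit false
set_option linter.unusedSimpArgs false

namespace Pool.Agent.Helper82_Alt

open Pool.Agent.Helper454.Kauf
open Pool.Agent.Helper454.Kauf.Piece (birth death pos neg)

theorem E.red {w w' : Word} (h : E 0 w w') {v : Word} {k : ℕ} (hk : width (w' ++ v) 0 = some k) :
    Red 0 (w ++ v) (w' ++ v) := Red.of_E (E0_append h ⟨k, hk⟩)

theorem mergeL {A₁ A₂ B : List ℕ} {j k : ℕ} {w : Word} (hjk : j ≠ k)
    (ho : ∀ b ∈ A₂, b ≠ k → (j < b ↔ k < b))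
    (h : Rep (A₁ ++ j :: (A₂ ++ j :: k :: B)) w) :
    ∃ (ε : ℤ) (w' : Word), Rep (A₁ ++ k :: (A₂ ++ B)) w' ∧
      Red ε (w ++ [death (A₁.length + 1 + A₂.length)]) w' ∧
      (ε = 0 ∨ (k ∈ A₂ ∧ ε = sg (decide (j < k)))) := by
  obtain ⟨w₁, r1, e1⟩ := merge1 hjk h
  have hk2 := r1.two k (by simp)
  by_cases hk : k ∈ A₂
  · obtain ⟨P, Q, rfl⟩ := List.append_of_mem hk
    simp only [List.count_append, List.count_cons_self] at hk2
    have hkP : k ∉ P := by rw [← List.count_eq_zero]; omega
    have hkQ : k ∉ Q := by rw [← List.count_eq_zero]; omega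
    have hkB : k ∉ B := by rw [← List.count_eq_zero]; omega
    have hkA : k ∉ A₁ := by rw [← List.count_eq_zero]; omega
    obtain ⟨w₂, r2, e2⟩ := move_left k Q (A₁ ++ P ++ [k]) B w₁ hkQ (by simpa using r1)
    have r2' : Rep ((A₁ ++ P) ++ k :: k :: (Q ++ B)) w₂ := by simpa using r2
    have e3 := curl_at (decide (j < k)) r2'
    obtain ⟨w₃, r3, e4⟩ := move_left k P A₁ (k :: (Q ++ B)) w₂ hkP (by simpa using r2')
    refine ⟨sg (decide (j < k)), w₃, by simpa using r3, ?_, Or.inr ⟨hk, rfl⟩⟩
    have hlen : (A₁ ++ P ++ [k]).length = A₁.length + P.length + 1 := by simp; omega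
    have hlen2 : (A₁ ++ P).length = A₁.length + P.length := by simp
    rw [hlen] at e2
    rw [hlen2] at e3
    have hll : ll j A₁.length (P ++ k :: Q) =
        ll k (A₁.length + P.length + 1) Q ++ ([cx (decide (j < k)) (A₁.length + P.length)] ++
          ll k A₁.length P) := by
      rw [ll_append]
      simp only [ll, List.append_assoc]
      rw [ll_congr (x := j) (y := k) (A₁.length + P.length + 1) (B := Q) (fun b hb =>
        ho b (by simp [hb]) (fun e => hkQ (e ▸ hb))),
        ll_congr (x := j) (y := k) A₁.length (B := P) (fun b hb =>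
        ho b (by simp [hb]) (fun e => hkP (e ▸ hb)))]
    have f1 := Red.of_E e1
    rw [hll] at f1
    have f2 := (Red.of_E e2).append
      ([cx (decide (j < k)) (A₁.length + P.length)] ++ ll k A₁.length P)
    have f3 := e3.append (ll k A₁.length P)
    have f4 := Red.of_E e4
    simp only [List.append_assoc] at f1 f2 f3 f4 ⊢
    have := ((f1.trans f2).trans f3).trans f4
    simpa using this
  · obtain ⟨w₂, r2, e2⟩ := move_left k A₂ A₁ B w₁ hk r1
    refine ⟨0, w₂, r2, ?_, Or.inl rfl⟩
    rw [ll_congr (x := j) (y := k) A₁.length (B := A₂) (fun b hb =>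
      ho b hb (fun e => hk (e ▸ hb)))] at e1
    exact Red.of_E (e1.trans e2)

theorem mergeR {A B₁ B₂ : List ℕ} {j k : ℕ} {w : Word} (hjk : j ≠ k)
    (ho : ∀ b ∈ B₁, b ≠ j → (b < k ↔ b < j))
    (h : Rep (A ++ j :: k :: (B₁ ++ k :: B₂)) w) :
    ∃ (ε : ℤ) (w' : Word), Rep (A ++ (B₁ ++ j :: B₂)) w' ∧
      Red ε (w ++ [death A.length]) w' ∧
      (ε = 0 ∨ (j ∈ B₁ ∧ ε = sg (decide (j < k)))) := by
  obtain ⟨w₁, r1, e1⟩ := merge3 hjk h
  have hj2 := r1.two j (by simp)
  by_cases hj : j ∈ B₁
  · obtain ⟨P, Q, rfl⟩ := List.append_of_mem hj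
    simp only [List.count_append, List.count_cons_self] at hj2
    have hjP : j ∉ P := by rw [← List.count_eq_zero]; omega
    have hjQ : j ∉ Q := by rw [← List.count_eq_zero]; omega
    obtain ⟨w₂, r2, e2⟩ := move_right j P A (j :: (Q ++ B₂)) w₁ hjP (by simpa using r1)
    have r2' : Rep ((A ++ P) ++ j :: j :: (Q ++ B₂)) w₂ := by simpa using r2
    have e3 := curl_at (decide (j < k)) r2'
    obtain ⟨w₃, r3, e4⟩ := move_right j Q (A ++ P ++ [j]) B₂ w₂ hjQ (by simpa using r2')
    refine ⟨sg (decide (j < k)), w₃, by simpa using r3, ?_, Or.inr ⟨hj, rfl⟩⟩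
    have hlen : (A ++ P ++ [j]).length = A.length + P.length + 1 := by simp; omega
    have hlen2 : (A ++ P).length = A.length + P.length := by simp
    rw [hlen] at e4
    rw [hlen2] at e3
    have hrr : rr k A.length (P ++ j :: Q) =
        rr j A.length P ++ ([cx (decide (j < k)) (A.length + P.length)] ++
          rr j (A.length + P.length + 1) Q) := by
      rw [rr_append]
      simp only [rr]
      rw [rr_congr (x := k) (y := j) (A.length + P.length + 1) (B := Q) (fun b hb =>
        ho b (by simp [hb]) (fun e => hjQ (e ▸ hb))),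
        rr_congr (x := k) (y := j) A.length (B := P) (fun b hb =>
        ho b (by simp [hb]) (fun e => hjP (e ▸ hb)))]
      rfl
    have f1 := Red.of_E e1
    rw [hrr] at f1
    have f2 := (Red.of_E e2).append
      ([cx (decide (j < k)) (A.length + P.length)] ++ rr j (A.length + P.length + 1) Q)
    have f3 := e3.append (rr j (A.length + P.length + 1) Q)
    have f4 := Red.of_E e4
    simp only [List.append_assoc] at f1 f2 f3 f4 ⊢
    have := ((f1.trans f2).trans f3).trans f4
    simpa using this
  · obtain ⟨w₂, r2, e2⟩ := move_right j B₁ A B₂ w₁ hj r1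
    refine ⟨0, w₂, r2, ?_, Or.inl rfl⟩
    rw [rr_congr (x := k) (y := j) A.length (B := B₁) (fun b hb =>
      ho b hb (fun e => hj (e ▸ hb)))] at e1
    exact Red.of_E (e1.trans e2)

/-- slide through a minimum -/
theorem death_swap {A B : List ℕ} {j k : ℕ} {w : Word} (hjk : j ≠ k)
    (h : Rep (A ++ j :: k :: B) w) :
    ∃ w', Rep (A ++ k :: j :: B) w' ∧
      Red (sg (decide (j < k))) (w ++ [death A.length]) (w' ++ [death A.length]) := by
  obtain ⟨w', r, e⟩ := slide h A B j k rfl hjk
  refine ⟨w', r, ?_⟩
  have hw := h.w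
  have hlen : (A ++ j :: k :: B).length = A.length + B.length + 2 := by simp; omega
  rw [hlen] at hw
  have hw' := r.w
  have hlen' : (A ++ k :: j :: B).length = A.length + B.length + 2 := by simp; omega
  rw [hlen'] at hw'
  have hb : decide (j < k) = !decide (k < j) := by
    rcases lt_or_gt_of_ne hjk with h | h
    · have : ¬ k < j := by omega
      simp [h, this]
    · have : ¬ j < k := by omega
      simp [h, this]
  -- R2
  have f1 := ((e_r2 (n := A.length + B.length + 2) (i := A.length) (decide (k < j))
    (by omega)).symm.right [death A.length] ⟨A.length + B.length, by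
      rw [List.nil_append, w_death _ (by omega), w_nil]; rfl⟩).left (m := 0) w hw
  have f2 := (Red.of_E e).append [cx (!decide (k < j)) A.length, death A.length]
  have f3 := Red.curlD (x := w') (i := A.length) (n := A.length + B.length + 2)
    (!decide (k < j)) hw' (by omega)
  have f1' := Red.of_E f1
  simp only [List.append_assoc, List.cons_append, List.nil_append] at f1' f2 f3
  have := (f1'.trans f2).trans f3
  rw [hb]
  simpa using this

theorem cnt {l : List ℕ} {x : ℕ} (h : x ∉ l) : l.count x = 0 := List.count_eq_zero.2 h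

/-- joining two arcs in neighbouring layers -/
theorem merge {P Q : List ℕ} {j k : ℕ} {w : Word} (hjk : j ≠ k)
    (ho : ∀ b ∈ P ++ Q, b ≠ j → b ≠ k → (b < j ↔ b < k))
    (h : Rep (P ++ j :: k :: Q) w) :
    ∃ (ε : ℤ) (s' : List ℕ) (w' : Word), Rep s' w' ∧ Red ε (w ++ [death P.length]) w' ∧
      (C2 s' : ℤ) + 2 * ε ≤ C2 (P ++ j :: k :: Q) ∧ s'.length + 2 = (P ++ j :: k :: Q).length := by
  have hj2 := h.two j (by simp)
  have hk2 := h.two k (by simp)
  have hsg : ∀ b, sg b ≤ 1 := by intro b; cases b <;> simp [sg]
  have hid : ∀ (x y : ℕ) (l : List ℕ), x ∉ l → l.map (mrg x y) = l := by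
    intro x y l hl
    conv_rhs => rw [← List.map_id l]
    apply List.map_congr_left
    intro z hz
    have : z ≠ x := fun e => hl (e ▸ hz)
    simp [mrg, this]
  by_cases hjP : j ∈ P
  · obtain ⟨A₁, A₂, rfl⟩ := List.append_of_mem hjP
    have hcj := hj2
    simp only [List.count_append, List.count_cons_self, List.count_cons_of_ne hjk.symm] at hcj
    have j1 : j ∉ A₁ := by rw [← List.count_eq_zero]; omega
    have j2 : j ∉ A₂ := by rw [← List.count_eq_zero]; omega
    have j3 : j ∉ Q := by rw [← List.count_eq_zero]; omega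
    obtain ⟨ε, w', r, e, hε⟩ := mergeL (A₁ := A₁) (A₂ := A₂) (B := Q) (w := w) hjk (fun b hb hbk => by
      have hbj : b ≠ j := fun e => j2 (e ▸ hb)
      have := ho b (by simp [hb]) hbj hbk
      omega) (by simpa using h)
    refine ⟨ε, _, w', r, ?_, ?_, by simp; omega⟩
    · have hl : (A₁ ++ j :: A₂).length = A₁.length + 1 + A₂.length := by simp; omega
      rw [hl]; exact e
    · have hm := C2_mrg' (A₁ ++ j :: A₂) Q hjk hj2 hk2
      have e1 : ((A₁ ++ j :: A₂) ++ Q).map (mrg j k) = A₁ ++ k :: (A₂ ++ Q) := by
        simp only [List.map_append, List.map_cons, hid j k _ j1, hid j k _ j2, hid j k _ j3]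
        simp [mrg]
      rw [e1] at hm
      rcases hε with rfl | ⟨hkA, rfl⟩
      · push_cast; omega
      · have hck := hk2
        have := List.count_pos_iff.2 hkA
        simp only [List.count_append, List.count_cons_self, List.count_cons_of_ne hjk] at hck
        have c1 : A₁.count k = 0 := by omega
        have c2 : A₂.count k = 1 := by omega
        have c3 : Q.count k = 0 := by omega
        have hN : N j k ((A₁ ++ j :: A₂) ++ j :: k :: Q) = 3 := by
          simp only [N_append, N_cons, List.count_append, List.count_cons_self,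
            List.count_cons_of_ne hjk, List.count_cons_of_ne hjk.symm, c1, c2, c3, cnt j1, cnt j2,
            cnt j3, N_left _ j1, N_left _ j2, N_left _ j3, if_true, hjk.symm, if_false]
        rw [hN] at hm
        have := hsg (decide (j < k))
        push_cast
        omega
  · by_cases hkQ : k ∈ Q
    · obtain ⟨B₁, B₂, rfl⟩ := List.append_of_mem hkQ
      have hck := hk2
      simp only [List.count_append, List.count_cons_self, List.count_cons_of_ne hjk] at hck
      have k1 : k ∉ P := by rw [← List.count_eq_zero]; omega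
      have k2 : k ∉ B₁ := by rw [← List.count_eq_zero]; omega
      have k3 : k ∉ B₂ := by rw [← List.count_eq_zero]; omega
      obtain ⟨ε, w', r, e, hε⟩ := mergeR (A := P) (B₁ := B₁) (B₂ := B₂) (w := w) hjk (fun b hb hbj => by
        have hbk : b ≠ k := fun e => k2 (e ▸ hb)
        exact (ho b (by simp [hb]) hbj hbk).symm) (by simpa using h)
      refine ⟨ε, _, w', r, e, ?_, by simp; omega⟩
      have hm := C2_mrg_inv P (B₁ ++ k :: B₂) hjk hj2 hk2
      have e1 : (P ++ (B₁ ++ k :: B₂)).map (mrg k j) = P ++ (B₁ ++ j :: B₂) := by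
        simp only [List.map_append, List.map_cons, hid k j _ k1, hid k j _ k2, hid k j _ k3]
        simp [mrg]
      rw [e1] at hm
      rcases hε with rfl | ⟨hjB, rfl⟩
      · push_cast; omega
      · have hcj := hj2
        have := List.count_pos_iff.2 hjB
        simp only [List.count_append, List.count_cons_self, List.count_cons_of_ne hjk.symm] at hcj
        have c1 : P.count j = 0 := by omega
        have c2 : B₁.count j = 1 := by omega
        have c3 : B₂.count j = 0 := by omega
        have i3 : j ∉ B₂ := by rw [← List.count_eq_zero]; omega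
        have i1 : j ∉ P := by rw [← List.count_eq_zero]; omega
        have hN : N j k (P ++ j :: k :: (B₁ ++ k :: B₂)) = 3 := by
          simp only [N_append, N_cons, List.count_append, List.count_cons_self,
            List.count_cons_of_ne hjk, List.count_cons_of_ne hjk.symm, c1, c2, c3, cnt k1, cnt k2,
            cnt k3, N_right _ k1, N_right _ k2, N_right _ k3, if_true, hjk.symm, if_false]
        rw [hN] at hm
        have := hsg (decide (j < k))
        push_cast
        omega
    · -- k left, j right
      have hcj := hj2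
      have hck := hk2
      have c1 := cnt hjP
      have c2 := cnt hkQ
      simp only [List.count_append, List.count_cons_self, List.count_cons_of_ne hjk.symm] at hcj
      simp only [List.count_append, List.count_cons_self, List.count_cons_of_ne hjk] at hck
      have hjQ : j ∈ Q := List.count_pos_iff.1 (by omega)
      have hkP : k ∈ P := List.count_pos_iff.1 (by omega)
      obtain ⟨A₁, A₂, rfl⟩ := List.append_of_mem hkP
      obtain ⟨w₁, r1, e1⟩ := death_swap hjk h
      simp only [List.count_append, List.count_cons_self] at hck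
      have k1 : k ∉ A₁ := by rw [← List.count_eq_zero]; omega
      have k2 : k ∉ A₂ := by rw [← List.count_eq_zero]; omega
      obtain ⟨ε, w', r, e, hε⟩ := mergeL (A₁ := A₁) (A₂ := A₂) (B := Q) (w := w₁) hjk.symm
        (fun b hb hbj => by
          have hbk : b ≠ k := fun e => k2 (e ▸ hb)
          have := ho b (by simp [hb]) hbj hbk
          omega) (by simpa using r1)
      have hjA : j ∉ A₂ := by
        intro hm; exact hjP (by simp [hm])
      have hε0 : ε = 0 := by
        rcases hε with h | ⟨h, _⟩
        · exact h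
        · exact absurd h hjA
      subst hε0
      have hl : (A₁ ++ k :: A₂).length = A₁.length + 1 + A₂.length := by simp; omega
      refine ⟨sg (decide (j < k)), _, w', r, ?_, ?_, by simp; omega⟩
      · rw [hl] at e1 ⊢
        have := e1.trans e
        rwa [add_zero] at this
      · have hm := C2_mrg_inv (A₁ ++ k :: A₂) Q hjk hj2 hk2
        have e2 : ((A₁ ++ k :: A₂) ++ Q).map (mrg k j) = A₁ ++ j :: (A₂ ++ Q) := by
          simp only [List.map_append, List.map_cons, hid k j _ k1, hid k j _ k2, hid k j _ hkQ]
          simp [mrg]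
        rw [e2] at hm
        have j1 : j ∉ A₁ := by intro hm; exact hjP (by simp [hm])
        have d1 : Q.count j = 1 := by
          have := cnt j1; have := cnt hjA
          simp only [List.count_append, List.count_cons_of_ne hjk.symm] at hcj
          omega
        have hN : N j k ((A₁ ++ k :: A₂) ++ j :: k :: Q) = 1 := by
          simp only [N_append, N_cons, List.count_append, List.count_cons_self,
            List.count_cons_of_ne hjk, List.count_cons_of_ne hjk.symm, d1, cnt k1, cnt k2,
            cnt hkQ, cnt j1, cnt hjA, N_left _ j1, N_left _ hjA, N_right _ k1, N_right _ k2,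
            N_right _ hkQ, if_true, hjk.symm, if_false]
        rw [hN] at hm
        have := hsg (decide (j < k))
        push_cast
        omega

end Pool.Agent.Helper82_Alt
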