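import Pool.Agent.Helper454.Wh.Defs
import Pool.Agent.H560R3.TG.Defs

/-!
# Alternating diagrams, their Seifert form, minimal degrees

Sliced diagrams are those of `Pool.Agent.Helper454.Kauf.Defs` (unoriented, `Word`) and
`Pool.Agent.Helper454.Wh.Defs` (oriented, `OWord`), read from top to bottom.
-/

set_option autoImplicit false

namespace Pool.Agent.Helper82_Alt

open Pool.Agent.Helper454.Kauf (Piece Word Raz KauffmanRules circle normalised exponentsInv)
open Pool.Agent.Helper454.Wh (OPiece OWord below noD forget OClosed Rlm)

/-! ### writhe, degrees -/

/-- The sign of the crossing, if `d` are the directions of the strands above it. -/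
def osign : OPiece → (ℕ → Bool) → ℤ
  | .pos i, d => if d i = d (i + 1) then 1 else -1
  | .neg i, d => if d i = d (i + 1) then -1 else 1
  | _, _ => 0

/-- The sum of the signs of the crossings of a diagram with `n` strands with the directions `d` at
its top. -/
def writheFrom : OWord → ℕ → (ℕ → Bool) → ℤ
  | [], _, _ => 0
  | p :: w, n, d => osign p d +
      match p.below n d with
      | some s => writheFrom w s.1 s.2
      | none => 0

/-- The writhe of an oriented link diagram. -/
def writhe (D : OWord) : ℤ := writheFrom D 0 noD

/-- The exponents of `l` which occur in `p`. -/
def lExponents (p : Rlm) : Set ℤ := {k | ∃ j, (p.coeff j).coeff k ≠ 0}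

/-- The exponents of `a` which occur in `F(a⁻¹, z)`, for the Kauffman polynomial `F = a^{-w} [D]` of the
oriented diagram `D`, if `Λ` is the bracket `[ ]`. -/
def fExponents (Λ : Word → Raz) (D : OWord) : Set ℤ :=
  exponentsInv (normalised (writhe D) (Λ (forget D)))

/-! ### labellings -/

/-- Labels of the regions are carried along: `r j` is the label of the gap between the strands
`j - 1` and `j` above the piece, `r'` are the labels below. -/
def RStep {G : Type} : Piece → (ℕ → G) → (ℕ → G) → Prop
  | .birth i, r, r' => (∀ j ≤ i, r' j = r j) ∧ ∀ j ≥ i, r' (j + 2) = r j
  | .death i, r, r' => (∀ j ≤ i, r j = r' j) ∧ ∀ j ≥ i, r (j + 2) = r' j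
  | .pos i, r, r' => ∀ j, j ≠ i + 1 → r' j = r j
  | .neg i, r, r' => ∀ j, j ≠ i + 1 → r' j = r j

/-- `r` is a labelling of the regions of the diagram `D`: `r t j` is the label of the region of the
gap `j` at the level `t` (below the first `t` pieces); the gaps which are connected have equal
labels. Above and below the diagram, and to the right of it, the label is that of the unbounded
region. -/
def RLab {G : Type} (D : Word) (r : ℕ → ℕ → G) : Prop :=
  (∀ j, r 0 j = r 0 0) ∧ (∀ t, D.length ≤ t → r t = r 0) ∧
    ∀ t (h : t < D.length), RStep D[t] (r t) (r (t + 1))

/-- Labels of the strands are carried along, and the four ends at a crossing have the same label. -/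
def SStep : Piece → (ℕ → Bool) → (ℕ → Bool) → Prop
  | .birth i, s, s' => (∀ j < i, s' j = s j) ∧ (∀ j ≥ i, s' (j + 2) = s j) ∧ s' i = s' (i + 1)
  | .death i, s, s' => (∀ j < i, s j = s' j) ∧ (∀ j ≥ i, s (j + 2) = s' j) ∧ s i = s (i + 1)
  | .pos i, s, s' => (∀ j, s' j = s j) ∧ s i = s (i + 1)
  | .neg i, s, s' => (∀ j, s' j = s j) ∧ s i = s (i + 1)

/-- The diagram is connected (as a plane graph): every labelling of the strands with two labels
which is constant along the strands and at the crossings is constant. (`v` is the label of all
strands; `t` is a level, `n` the number of strands there.) -/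
def Connected (D : Word) : Prop :=
  ∀ s : ℕ → ℕ → Bool, (∀ t (h : t < D.length), SStep D[t] (s t) (s (t + 1))) →
    ∃ v : Bool, ∀ t n, Helper454.Kauf.width (D.take t) 0 = some n → ∀ j < n, s t j = v

/-- The strands are directed (these directions are not those of the orientation of the link; `true`
= downwards) so that at every crossing the two ends of the over-strand point away from the crossing
and the two ends of the under-strand point to the crossing. -/
def AStep : Piece → (ℕ → Bool) → (ℕ → Bool) → Prop
  | .birth i, e, e' => (∀ j < i, e' j = e j) ∧ (∀ j ≥ i, e' (j + 2) = e j) ∧ e' (i + 1) = !e' i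
  | .death i, e, e' => (∀ j < i, e j = e' j) ∧ (∀ j ≥ i, e (j + 2) = e' j) ∧ e (i + 1) = !e i
  | .pos i, e, e' => (∀ j, e' j = e j) ∧ e i = true ∧ e (i + 1) = false
  | .neg i, e, e' => (∀ j, e' j = e j) ∧ e i = false ∧ e (i + 1) = true

/-- The diagram is alternating: the arcs between consecutive passages through crossings can be
directed so that each of them begins at an over-passage and ends at an under-passage. -/
def Alternating (D : Word) : Prop :=
  ∃ e : ℕ → ℕ → Bool, ∀ t (h : t < D.length), AStep D[t] (e t) (e (t + 1))

/-- The crossing `t` is not nugatory: opposite corners at the crossing belong to different regions,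
i.e. some labelling of the regions distinguishes the left and the right corner, and some
labelling distinguishes the top and the bottom corner. -/
def NotNugatory (D : Word) (t i : ℕ) : Prop :=
  (∃ r : ℕ → ℕ → Bool, RLab D r ∧ r t i ≠ r t (i + 2)) ∧
    ∃ r : ℕ → ℕ → Bool, RLab D r ∧ r t (i + 1) ≠ r (t + 1) (i + 1)

/-- The diagram is reduced. -/
def Reduced (D : Word) : Prop :=
  ∀ t (h : t < D.length) i, (D[t] = Piece.pos i ∨ D[t] = Piece.neg i) → NotNugatory D t i

/-! ### the Seifert form -/

/-- The directions of the strands of an oriented diagram at the level `t`. -/
def dirAt (D : OWord) (t : ℕ) : ℕ → Bool := ((below (D.take t) 0 noD).getD (0, noD)).2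

/-- The corner between the two incoming ends minus the corner between the two outgoing ends of
a crossing; `x, y, z, y'` are the labels of the left, top, right, bottom corner, `a, b` the
directions of the left and the right strand above the crossing. -/
def frontBack (a b : Bool) (x y z y' : ℝ) : ℝ :=
  if a = b then (if a then y - y' else y' - y) else (if a then x - z else z - x)

/-- The corner on the left of the crossing minus the corner on its right, seen in the direction of
the two strands. -/
def leftRight (a b : Bool) (x y z y' : ℝ) : ℝ :=
  if a = b then (if a then z - x else x - z) else (if a then y - y' else y' - y)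

/-- The contribution of a crossing to the quadratic form of `V + Vᵀ`. -/
def seifertTerm (D : OWord) (r : ℕ → ℕ → ℝ) (t : ℕ) (p : OPiece) : ℝ :=
  match p with
  | .birth _ _ => 0
  | .death _ => 0
  | .pos i =>
      let a := dirAt D t i; let b := dirAt D t (i + 1)
      let u := frontBack a b (r t i) (r t (i + 1)) (r t (i + 2)) (r (t + 1) (i + 1))
      let v := leftRight a b (r t i) (r t (i + 1)) (r t (i + 2)) (r (t + 1) (i + 1))
      (if a = b then 1 else -1) * u ^ 2 + u * v
  | .neg i =>
      let a := dirAt D t i; let b := dirAt D t (i + 1)
      let u := frontBack a b (r t i) (r t (i + 1)) (r t (i + 2)) (r (t + 1) (i + 1))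
      let v := leftRight a b (r t i) (r t (i + 1)) (r t (i + 2)) (r (t + 1) (i + 1))
      (if a = b then -1 else 1) * u ^ 2 + u * v

/-- The quadratic form of `V + Vᵀ`, where `V` is the Seifert matrix of the surface which Seifert's
algorithm makes of the diagram `D` (disks bounded by the Seifert circles, joined by a twisted band
at each crossing), on the real combinations `∑ r(f) γ_f` of the loops `γ_f`: for a region `f`, the
loop `γ_f` in the surface runs along the boundary of `f`; at the corners of `f` between the two
incoming or the two outgoing ends of a crossing it runs through the band, at the other corners it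
stays in one disk. These loops generate the first homology group: a loop in the surface can be moved into
the plane graph of the Seifert circles and the cores of the bands, whose faces are the regions of `D`.

Derivation of the formula. Turn a crossing so that its strands are directed downwards; the surface has
a disk on the left, a disk on the right and a half twisted band between them. In the chain
`∑ r(f) γ_f` the core of the band has the coefficient `u` (`frontBack`), as `γ_f` runs through the band
iff `f` is the top or the bottom corner. The linking number of the chain with its push-off is the sum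
of `ε u² / 2` over the crossings (from the half twists, `ε` is the sign of the crossing) and of the
terms `± u g` for the bands which are attached to a Seifert circle from the inside, and which so pass
over the arcs in the disk of this circle; `g` is the mean coefficient of the chain along the circle at
the band. Along one Seifert circle the products `u g` of all its bands (with the signs of the jumps) are
a telescoping sum of differences of squares, with the value `0`; so bands inside and outside may be
counted with the factors `1/2` and `-1/2`. The mean coefficients along the left and the right circle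
add up to `v` (`leftRight`), so this gives the terms `u v / 2`. (The other sign of these terms belongs
to the surface in which inner disks lie below outer disks instead of above them.) The quadratic form of
`V + Vᵀ` is twice the linking number of the chain with its push-off. -/
noncomputable def seifertForm (D : OWord) (r : ℕ → ℕ → ℝ) : ℝ :=
  ∑ t : Fin D.length, seifertTerm D r t D[t]

/-- The dimensions of the spaces of region labellings on which `c` times the Seifert form is positive
definite. -/
def indexSet (D : OWord) (c : ℝ) : Set ℕ :=
  {n | ∃ V : Submodule ℝ (ℕ → ℕ → ℝ), (∀ r ∈ V, RLab (forget D) r) ∧ Module.finrank ℝ V = n ∧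
    ∀ r ∈ V, r ≠ 0 → 0 < c * seifertForm D r}

/-- `σ` is the signature of `V + Vᵀ`: the maximal dimension of a space on which the form is positive
definite minus the maximal dimension of a space on which it is negative definite. -/
def IsSignature (D : OWord) (σ : ℤ) : Prop :=
  ∃ p m : ℕ, IsGreatest (indexSet D 1) p ∧ IsGreatest (indexSet D (-1)) m ∧ σ = p - m

/-! ### internal notions -/

/-- The diagram as a diagram of `Pool.Agent.H560R3.TG`. -/
def tgP : Piece → H560R3.TG.Piece
  | .birth i => .birth i
  | .death i => .death i
  | .pos i => .cr i false
  | .neg i => .cr i true

def tg (D : Word) : List H560R3.TG.Piece := D.map tgP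

/-- The parity condition satisfied by connected alternating diagrams. The gaps `j` with
`j % 2 = ε` are called white. -/
def ParType (ε : ℕ) (D : Word) : Prop :=
  ∀ p ∈ D, match p with
    | .pos i => i % 2 = ε
    | .neg i => i % 2 ≠ ε
    | _ => True

def wh (ε j : ℕ) : ℤ := if j % 2 = ε then 1 else 0

def K2P (ε : ℕ) : Piece → ℤ
  | .birth i => wh ε (i + 1) - wh ε i
  | .death i => wh ε (i + 1) - wh ε i
  | .pos _ => 0
  | .neg _ => 2

/-- twice the number of white regions -/
def K2 (ε : ℕ) (D : Word) : ℤ := (D.map (K2P ε)).sum + 4 * wh ε 0

def crs : Word → ℕ
  | [] => 0
  | .pos _ :: w => crs w + 1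
  | .neg _ :: w => crs w + 1
  | .birth _ :: w => crs w
  | .death _ :: w => crs w

end Pool.Agent.Helper82_Alt
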