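import Pool.Agent.Helper82_Alt.A8
import Pool.Agent.Helper82_Alt.Defs

/-! Skein induction over layered diagrams. -/

set_option autoImplicit false
set_option linter.unusedSimpArgs false

namespace Pool.Agent.Helper82_Alt

open Pool.Agent.Helper454.Kauf
open Pool.Agent.Helper454.Kauf.Piece (birth death pos neg)

theorem first_split (u v : ℕ) : ∀ l : List ℕ, (u ∈ l ∨ v ∈ l) →
    ∃ A n l', l = A ++ n :: l' ∧ (n = u ∨ n = v) ∧ u ∉ A ∧ v ∉ A
  | [], h => by simp at h
  | a :: l, h => by
    by_cases ha : a = u ∨ a = v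
    · exact ⟨[], a, l, rfl, ha, by simp, by simp⟩
    · rw [not_or] at ha
      have h' : u ∈ l ∨ v ∈ l := by
        simp only [List.mem_cons] at h
        rcases h with (h | h) | (h | h)
        · exact absurd h.symm ha.1
        · exact Or.inl h
        · exact absurd h.symm ha.2
        · exact Or.inr h
      obtain ⟨A, n, l', rfl, h1, h2, h3⟩ := first_split u v l h'
      refine ⟨a :: A, n, l', rfl, h1, ?_, ?_⟩
      · simp only [List.mem_cons, not_or]; exact ⟨fun e => ha.1 e.symm, h2⟩
      · simp only [List.mem_cons, not_or]; exact ⟨fun e => ha.2 e.symm, h3⟩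

/-- the three patterns -/
theorem pos4 {s : List ℕ} {u v : ℕ} (huv : u ≠ v) (hu : s.count u = 2) (hv : s.count v = 2) :
    ∃ a b, ((a = u ∧ b = v) ∨ (a = v ∧ b = u)) ∧ ∃ A B C D R : List ℕ,
      u ∉ A ++ (B ++ (C ++ (D ++ R))) ∧ v ∉ A ++ (B ++ (C ++ (D ++ R))) ∧
      (s = A ++ a :: (B ++ a :: (C ++ b :: (D ++ b :: R))) ∨
        s = A ++ a :: (B ++ b :: (C ++ b :: (D ++ a :: R))) ∨
        s = A ++ a :: (B ++ b :: (C ++ a :: (D ++ b :: R)))) := by
  obtain ⟨A, n1, l1, rfl, h1, a1, a2⟩ := first_split u v s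
    (Or.inl (List.count_pos_iff.1 (by omega)))
  have hc1 : l1.count u + l1.count v = 3 := by
    simp only [List.count_append, List.count_cons, cnt a1, cnt a2, beq_iff_eq] at hu hv
    rcases h1 with rfl | rfl
    · simp only [if_true, huv, if_false] at hu hv; omega
    · simp only [if_true, huv.symm, if_false] at hu hv; omega
  obtain ⟨B, n2, l2, rfl, h2, b1, b2⟩ := first_split u v l1 (by
    by_contra hcon
    rw [not_or] at hcon
    rw [cnt hcon.1, cnt hcon.2] at hc1; omega)
  have hc2 : l2.count u + l2.count v = 2 := by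
    simp only [List.count_append, List.count_cons, cnt b1, cnt b2, beq_iff_eq] at hc1
    rcases h2 with rfl | rfl
    · simp only [if_true, huv, if_false] at hc1; omega
    · simp only [if_true, huv.symm, if_false] at hc1; omega
  obtain ⟨C, n3, l3, rfl, h3, c1, c2⟩ := first_split u v l2 (by
    by_contra hcon
    rw [not_or] at hcon
    rw [cnt hcon.1, cnt hcon.2] at hc2; omega)
  have hc3 : l3.count u + l3.count v = 1 := by
    simp only [List.count_append, List.count_cons, cnt c1, cnt c2, beq_iff_eq] at hc2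
    rcases h3 with rfl | rfl
    · simp only [if_true, huv, if_false] at hc2; omega
    · simp only [if_true, huv.symm, if_false] at hc2; omega
  obtain ⟨D, n4, R, rfl, h4, d1, d2⟩ := first_split u v l3 (by
    by_contra hcon
    rw [not_or] at hcon
    rw [cnt hcon.1, cnt hcon.2] at hc3; omega)
  have hc4 : R.count u = 0 ∧ R.count v = 0 := by
    simp only [List.count_append, List.count_cons, cnt d1, cnt d2, beq_iff_eq] at hc3
    rcases h4 with rfl | rfl
    · simp only [if_true, huv, if_false] at hc3; omega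
    · simp only [if_true, huv.symm, if_false] at hc3; omega
  have r1 := List.count_eq_zero.1 hc4.1
  have r2 := List.count_eq_zero.1 hc4.2
  have hA1 : u ∉ A ++ (B ++ (C ++ (D ++ R))) := by simp [a1, b1, c1, d1, r1]
  have hA2 : v ∉ A ++ (B ++ (C ++ (D ++ R))) := by simp [a2, b2, c2, d2, r2]
  simp only [List.count_append, List.count_cons, cnt a1, cnt a2, cnt b1, cnt b2, cnt c1, cnt c2,
    cnt d1, cnt d2, hc4.1, hc4.2, beq_iff_eq] at hu hv
  rcases h1 with rfl | rfl <;> rcases h2 with rfl | rfl <;> rcases h3 with rfl | rfl <;>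
    rcases h4 with rfl | rfl <;> simp only [if_true, huv, huv.symm, if_false] at hu hv <;>
    first
    | omega
    | exact ⟨_, _, Or.inl ⟨rfl, rfl⟩, A, B, C, D, R, hA1, hA2, Or.inl rfl⟩
    | exact ⟨_, _, Or.inr ⟨rfl, rfl⟩, A, B, C, D, R, hA1, hA2, Or.inl rfl⟩
    | exact ⟨_, _, Or.inl ⟨rfl, rfl⟩, A, B, C, D, R, hA1, hA2, Or.inr (Or.inl rfl)⟩
    | exact ⟨_, _, Or.inr ⟨rfl, rfl⟩, A, B, C, D, R, hA1, hA2, Or.inr (Or.inl rfl)⟩
    | exact ⟨_, _, Or.inl ⟨rfl, rfl⟩, A, B, C, D, R, hA1, hA2, Or.inr (Or.inr rfl)⟩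
    | exact ⟨_, _, Or.inr ⟨rfl, rfl⟩, A, B, C, D, R, hA1, hA2, Or.inr (Or.inr rfl)⟩

/-- exchanging two names -/
def sw (u v x : ℕ) : ℕ := if x = u then v else if x = v then u else x

theorem sw_id {u v : ℕ} {l : List ℕ} (hu : u ∉ l) (hv : v ∉ l) : l.map (sw u v) = l := by
  conv_rhs => rw [← List.map_id l]
  apply List.map_congr_left
  intro z hz
  have h1 : z ≠ u := fun e => hu (e ▸ hz)
  have h2 : z ≠ v := fun e => hv (e ▸ hz)
  simp [sw, h1, h2]

theorem red_E {G : ℤ → Word → Prop} (hG : Sk G) {w w' : Word} (h : E 0 w w') {c : ℤ} {y : Word}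
    (hc : Closed (w ++ y)) (hg : G c (w' ++ y)) : G c (w ++ y) :=
  (Red.of_E h).2 G hG c y hc (by simpa using hg)

/-- Exchange of two neighbouring layers. -/
theorem exch {s : List ℕ} {w : Word} {u v : ℕ} (h : Rep s w) (huv : u ≠ v) (hu : u ∈ s)
    (hv : v ∈ s) (ho : ∀ b ∈ s, b ≠ u → b ≠ v → (b < u ↔ b < v)) :
    ∃ w', Rep (s.map (sw u v)) w' ∧ C2 (s.map (sw u v)) ≤ C2 s ∧
      ∀ G, Sk G → ∀ c y, Closed (w ++ y) → G c (w' ++ y) →
        (∀ s₁ w₁, Rep s₁ w₁ → s₁.length = s.length → C2 s₁ + 2 ≤ C2 s → Closed (w₁ ++ y) →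
          G (c - 1) (w₁ ++ y)) → G c (w ++ y) := by
  have hc := fun z => h.count_le z
  obtain ⟨a, b, hab, A, B, C, D, R, h1, h2, hs⟩ := pos4 huv (h.two u hu) (h.two v hv)
  have hab' : a ≠ b := by rcases hab with ⟨rfl, rfl⟩ | ⟨rfl, rfl⟩; exact huv; exact huv.symm
  have ha : a ∉ A ++ (B ++ (C ++ (D ++ R))) := by
    rcases hab with ⟨rfl, rfl⟩ | ⟨rfl, rfl⟩; exact h1; exact h2
  have hb : b ∉ A ++ (B ++ (C ++ (D ++ R))) := by
    rcases hab with ⟨rfl, rfl⟩ | ⟨rfl, rfl⟩; exact h2; exact h1
  have hsw : ∀ x, sw u v x = sw a b x := by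
    intro x
    rcases hab with ⟨rfl, rfl⟩ | ⟨rfl, rfl⟩
    · rfl
    · unfold sw
      by_cases h1 : x = a
      · subst h1; simp [hab', huv.symm]
      · by_cases h2 : x = b
        · simp only [h2, if_true, if_neg hab'.symm]
        · simp [h1, h2]
  have hsw' : s.map (sw u v) = s.map (sw a b) := List.map_congr_left (fun x _ => hsw x)
  rw [hsw']
  have ho' : ∀ x ∈ s, x ≠ a → x ≠ b → (x < a ↔ x < b) := by
    intro x hx hxa hxb
    rcases hab with ⟨rfl, rfl⟩ | ⟨rfl, rfl⟩
    · exact ho x hx hxa hxb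
    · exact (ho x hx hxb hxa).symm
  have ho2 : ∀ x ∈ B ++ (C ++ D), (x < a ↔ x < b) := by
    intro x hx
    have hx1 : x ∈ A ++ (B ++ (C ++ (D ++ R))) := by
      simp only [List.mem_append] at hx ⊢; tauto
    refine ho' x ?_ (fun e => ha (e ▸ hx1)) (fun e => hb (e ▸ hx1))
    rcases hs with rfl | rfl | rfl <;> simp only [List.mem_append, List.mem_cons] at hx ⊢ <;> tauto
  have hmap : ∀ n1 n2 n3 n4 : ℕ,
      (A ++ n1 :: (B ++ n2 :: (C ++ n3 :: (D ++ n4 :: R)))).map (sw a b) =
        A ++ sw a b n1 :: (B ++ sw a b n2 :: (C ++ sw a b n3 :: (D ++ sw a b n4 :: R))) := by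
    intro n1 n2 n3 n4
    have ha' := ha
    have hb' := hb
    simp only [List.mem_append, not_or] at ha' hb'
    simp only [List.map_append, List.map_cons, sw_id ha'.1 hb'.1, sw_id ha'.2.1 hb'.2.1,
      sw_id ha'.2.2.1 hb'.2.2.1, sw_id ha'.2.2.2.1 hb'.2.2.2.1, sw_id ha'.2.2.2.2 hb'.2.2.2.2]
  have s1 : sw a b a = b := by simp [sw]
  have s2 : sw a b b = a := by simp [sw, hab'.symm]
  have hcount : ∀ z, (A ++ (B ++ (C ++ (D ++ R)))).count z ≤ 2 := by
    intro z
    have h0 := hc z
    rcases hs with rfl | rfl | rfl <;>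
      simp only [List.count_append, List.count_cons] at h0 ⊢ <;> omega
  rcases hs with rfl | rfl | rfl
  · obtain ⟨w', r, e⟩ := pat1 hab' ha hb ho2 h
    rw [hmap, s1, s2]
    refine ⟨w', r, by simpa using C2_pat1 hab' ha hb, fun G hG c y hcl hg _ => red_E hG e hcl hg⟩
  · obtain ⟨w', r, e⟩ := pat2 hab' ha hb ho2 h
    rw [hmap, s1, s2]
    refine ⟨w', r, by simpa using C2_pat2 hab' ha hb, fun G hG c y hcl hg _ => red_E hG e hcl hg⟩
  · obtain ⟨w₀, w', w₁, w₂, r', r1, r2, hw0, e, e', e1, e2⟩ := pat3 hab' ha hb ho2 h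
    rw [hmap, s1, s2]
    refine ⟨w', r', by simpa using C2_pat3 hab' ha hb, fun G hG c y hcl hg hsm => ?_⟩
    have g1 := hsm _ w₁ r1 (by simp) (C2_sm1 hab' ha hb hcount) (by
      refine (closed_congr ?_ y).1 hcl
      rw [h.w, r1.w]; simp)
    have g2 := hsm _ w₂ r2 (by simp) (C2_sm2 hab' ha hb hcount) (by
      refine (closed_congr ?_ y).1 hcl
      rw [h.w, r2.w]; simp)
    obtain ⟨n, hn⟩ : ∃ n, n = (A ++ (B ++ (C ++ (D ++ R)))).length := ⟨_, rfl⟩
    rw [← hn] at hw0
    have hAn : A.length ≤ n := by rw [hn]; simp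
    obtain ⟨X, hX⟩ : ∃ X : Word, X = w₀ ++ [birth A.length, birth (A.length + 2)] := ⟨_, rfl⟩
    have hXw : width X 0 = some (n + 4) := by
      rw [hX, width_append, hw0, Option.bind_some, w_birth _ hAn, w_birth _ (by omega), w_nil]
    obtain ⟨Y, hY⟩ : ∃ Y : Word, Y = spread a A.length B C D ++ y := ⟨_, rfl⟩
    -- the crossing
    have hcl0 : Closed (X ++ [cx (decide (b < a)) (A.length + 1)] ++ Y) := by
      have := (closed_congr (w := w) (w' := (w₀ ++ [birth A.length, birth (A.length + 2),
        cx (decide (b < a)) (A.length + 1)]) ++ spread a A.length B C D) (by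
          obtain ⟨⟨m, k1, k2⟩, _⟩ := e; exact k2.trans k1.symm) y).1 hcl
      simpa [hX, hY] using this
    have hcl0' : Closed (X ++ [cx (decide (a < b)) (A.length + 1)] ++ Y) := by
      refine (closed_congr (w := X ++ [cx (decide (b < a)) (A.length + 1)])
        (w' := X ++ [cx (decide (a < b)) (A.length + 1)]) ?_ Y).1 hcl0
      rw [width_append, width_append, hXw, Option.bind_some, Option.bind_some,
        w_cx _ _ (by omega), w_cx _ _ (by omega)]
    have hcl1 : Closed (X ++ Y) := by
      refine (closed_congr (w := X ++ [cx (decide (b < a)) (A.length + 1)])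
        (w' := X) ?_ Y).1 hcl0
      rw [width_append, hXw, Option.bind_some, w_cx _ _ (by omega), w_nil]
    have hcl2 : Closed (X ++ [death (A.length + 1), birth (A.length + 1)] ++ Y) := by
      refine (closed_congr (w := X ++ [cx (decide (b < a)) (A.length + 1)])
        (w' := X ++ [death (A.length + 1), birth (A.length + 1)]) ?_ Y).1 hcl0
      rw [width_append, width_append, hXw, Option.bind_some, Option.bind_some,
        w_cx _ _ (by omega), w_death _ (by omega), w_birth _ (by omega), w_nil]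
      rfl
    have hnb : (!decide (b < a)) = decide (a < b) := by
      rcases lt_or_gt_of_ne hab' with h | h
      · have : ¬ b < a := by omega
        simp [h, this]
      · have : ¬ a < b := by omega
        simp [h, this]
    have k0 : G c (X ++ [cx (!decide (b < a)) (A.length + 1)] ++ Y) := by
      rw [hnb]
      have := red_E hG (y := y) (c := c) e' (by simpa [hX, hY] using hcl0') hg
      simpa [hX, hY] using this
    have k1 : G (c - 1) (X ++ Y) := by
      have := red_E hG (y := y) (c := c - 1) e1 (by simpa [hX, hY] using hcl1) g1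
      simpa [hX, hY] using this
    have k2 : G (c - 1) (X ++ [death (A.length + 1), birth (A.length + 1)] ++ Y) := by
      have z1 := (e_zig2 (n := n + 2) (i := A.length + 1) (by omega)).cong (m := 0)
        (w₀ ++ [birth A.length]) ([birth (A.length + 1)] ++ spread a A.length B C D) (by
          rw [width_append, hw0, Option.bind_some, w_birth _ hAn, w_nil]) (by
          obtain ⟨⟨m, k3, k4⟩, _⟩ := e2
          refine ⟨m, ?_⟩
          rw [width_append, width_append, hw0, Option.bind_some, w_birth _ hAn,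
            w_birth _ (by omega), w_nil, Option.bind_some] at k3
          rw [width_append, width_append, width_append, hw0, Option.bind_some, w_birth _ hAn,
            w_nil, Option.bind_some, w_birth _ (by omega), w_death _ (by omega), w_nil,
            Option.bind_some, width_append, w_birth _ (by omega), w_nil, Option.bind_some]
          exact k3)
      have z2 : E 0 (w₀ ++ [birth A.length] ++ [birth (A.length + 1 + 1), death (A.length + 1)] ++
          ([birth (A.length + 1)] ++ spread a A.length B C D)) w₂ := by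
        refine z1.trans ?_
        simpa using e2
      have := red_E hG (y := y) (c := c - 1) z2 (by simpa [hX, hY] using hcl2) g2
      simpa [hX, hY] using this
    have key := hG.cross c (decide (b < a)) X (A.length + 1) Y hcl0 k0 k1 k2
    have := red_E hG (y := y) (c := c) e.symm (by simpa [hX, hY] using hcl) (by
      simpa [hX, hY] using key)
    exact this

end Pool.Agent.Helper82_Alt
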