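import Pool.Agent.Helper82_Alt.Defs
import Pool.Agent.H560R3.TG.Ops

/-!
# Statements of the pieces

Each piece is a proposition `S_…`; the file of the piece proves `theorem t_… : S_…` (other pieces may
be used as hypotheses).
-/

set_option autoImplicit false

namespace Pool.Agent.Helper82_Alt

open Pool.Agent.Helper454.Kauf (Piece Word Raz KauffmanRules circle Closed RegIsotopic aPow zVar
  LocalMove FirstMove)
open Pool.Agent.Helper454.Wh (OPiece OWord below noD forget OClosed Rlm dirs ocircle HomflyRules lPow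
  mPow)

/-! ### rows -/

/-- number of strands at the level `t` -/
def wid (D : Word) (t : ℕ) : ℕ := (Helper454.Kauf.width (D.take t) 0).getD 0

/-- the gaps `j ≤ wid D t` at the level `t` exist; the other ones are fake (they have the label of
the unbounded region in every labelling). Colour of the gap `j` at the level `t`: white iff
`j % 2 = ε` (fake gaps get the colour of the unbounded region). -/
def isW (ε : ℕ) (D : Word) (t j : ℕ) : Prop := (if j ≤ wid D t then j % 2 else 0) = ε

instance (ε : ℕ) (D : Word) (t j : ℕ) : Decidable (isW ε D t j) := by unfold isW; infer_instance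

/-- The index of a crossing piece. -/
def crI : Piece → Option ℕ
  | .pos i => some i
  | .neg i => some i
  | _ => none

def isCr (p : Piece) : Prop := ∃ i, p = .pos i ∨ p = .neg i

/-! ### module L: labellings, linear algebra -/

/-- antisymmetric form at a crossing; at the crossing `i` the corners are `W = r i`, `N = r (i+1)`,
`E = r (i+2)`, `S = r' (i+1)` -/
def shoe : Piece → (r r' s s' : ℕ → ℝ) → ℝ
  | .pos i, r, r', s, s' => (r (i + 1) - r' (i + 1)) * (s (i + 2) - s i) -
      (r (i + 2) - r i) * (s (i + 1) - s' (i + 1))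
  | .neg i, r, r', s, s' => (r (i + 1) - r' (i + 1)) * (s (i + 2) - s i) -
      (r (i + 2) - r i) * (s (i + 1) - s' (i + 1))
  | _, _, _, _, _ => 0

/-- L1, orthogonality of cuts and cycles. (Telescoping: the potential of a row is
`∑_j (r j * s (j+1) - r (j+1) * s j)` over the strands `j`.) -/
def S_L1 : Prop := ∀ (D : Word) (r s : ℕ → ℕ → ℝ), Closed D → RLab D r → RLab D s →
  ∑ t : Fin D.length, shoe D[t] (r t) (r (t + 1)) (s t) (s (t + 1)) = 0

/-- the real labellings which vanish outside `C` -/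
def LL (D : Word) (C : ℕ → ℕ → Bool) : Submodule ℝ (ℕ → ℕ → ℝ) where
  carrier := {r | RLab D r ∧ ∀ t j, C t j = false → r t j = 0}
  add_mem' := by
    rintro r s ⟨⟨h1, h2, h3⟩, h4⟩ ⟨⟨k1, k2, k3⟩, k4⟩
    refine ⟨⟨fun j => ?_, fun t ht => ?_, fun t ht => ?_⟩, fun t j h => ?_⟩
    · simp only [Pi.add_apply, h1 j, k1 j]
    · simp only [Pi.add_apply, h2 t ht, k2 t ht]
    · have a := h3 t ht
      have b := k3 t ht
      revert a b
      cases D[t] <;> simp only [RStep, Pi.add_apply] <;> rintro a b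
      · exact ⟨fun j hj => by rw [a.1 j hj, b.1 j hj], fun j hj => by rw [a.2 j hj, b.2 j hj]⟩
      · exact ⟨fun j hj => by rw [a.1 j hj, b.1 j hj], fun j hj => by rw [a.2 j hj, b.2 j hj]⟩
      · exact fun j hj => by rw [a j hj, b j hj]
      · exact fun j hj => by rw [a j hj, b j hj]
    · simp only [Pi.add_apply, h4 t j h, k4 t j h, add_zero]
  zero_mem' := by
    refine ⟨⟨fun j => rfl, fun t ht => rfl, fun t ht => ?_⟩, fun t j h => rfl⟩
    cases D[t] <;> simp [RStep]
  smul_mem' := by
    rintro c r ⟨⟨h1, h2, h3⟩, h4⟩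
    refine ⟨⟨fun j => ?_, fun t ht => ?_, fun t ht => ?_⟩, fun t j h => ?_⟩
    · simp only [Pi.smul_apply, h1 j]
    · simp only [Pi.smul_apply, h2 t ht]
    · have a := h3 t ht
      revert a
      cases D[t] <;> simp only [RStep, Pi.smul_apply] <;> rintro a
      · exact ⟨fun j hj => by rw [a.1 j hj], fun j hj => by rw [a.2 j hj]⟩
      · exact ⟨fun j hj => by rw [a.1 j hj], fun j hj => by rw [a.2 j hj]⟩
      · exact fun j hj => by rw [a j hj]
      · exact fun j hj => by rw [a j hj]
    · simp only [Pi.smul_apply, h4 t j h, smul_zero]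

/-- indicator -/
def bi (b : Bool) : ℤ := if b then 1 else 0

/-- unknowns minus equations: every birth and every crossing creates one new gap `i+1`, every death
identifies the gaps `i` and `i+2` -/
def PPp : Piece → (C C' : ℕ → Bool) → ℤ
  | .birth i, _, C' => bi (C' (i + 1))
  | .death i, C, _ => - bi (C i)
  | .pos i, _, C' => bi (C' (i + 1))
  | .neg i, _, C' => bi (C' (i + 1))

def PP (D : Word) (C : ℕ → ℕ → Bool) : ℤ :=
  (∑ t : Fin D.length, PPp D[t] (C t) (C (t + 1))) + 2 * bi (C 0 0)

/-- L2, dimension count. -/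
def S_L2 : Prop := ∀ (D : Word) (C : ℕ → ℕ → Bool), Closed D → D ≠ [] → RLab D C →
  Module.Finite ℝ (LL D C) ∧ PP D C ≤ Module.finrank ℝ (LL D C)

/-- the labels of the two corners of the colour `≠ ε` (black), resp. `= ε` (white) are equal at the
crossing -/
def EqB (ε : ℕ) : Piece → (r r' : ℕ → ℝ) → Prop
  | .pos i, r, r' => if i % 2 = ε then r (i + 1) = r' (i + 1) else r i = r (i + 2)
  | .neg i, r, r' => if i % 2 = ε then r (i + 1) = r' (i + 1) else r i = r (i + 2)
  | _, _, _ => True

/-- L3: in a connected diagram, a labelling whose black corners agree at all crossings is constant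
on the black gaps. (`ε` is the colour which we call white; use it for both values of `ε`.) -/
def S_L3 : Prop := ∀ (ε : ℕ) (D : Word) (r : ℕ → ℕ → ℝ), ε < 2 → Closed D → D ≠ [] → Connected D →
  RLab D r → (∀ t (h : t < D.length), EqB ε D[t] (r t) (r (t + 1))) →
  ∃ v, ∀ t j, j ≤ wid D t → j % 2 ≠ ε → r t j = v

/-- twice the exponent of `q` (see `S_D1`) -/
def RsP : Piece → (r r' : ℕ → ℤ) → ℤ
  | .birth i, r, r' => r' (i + 1) - r i
  | .death i, r, _ => r (i + 1) - r i
  | .pos _, _, _ => 0
  | .neg i, r, r' => r (i + 1) + r' (i + 1) - r i - r (i + 2)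

def Rs (D : Word) (r : ℕ → ℕ → ℤ) : ℤ := ∑ t : Fin D.length, RsP D[t] (r t) (r (t + 1))

/-- the sum of the two black corners -/
def BCp : Piece → (C C' : ℕ → Bool) → ℤ
  | .pos i, C, C' => bi (C (i + 1)) + bi (C' (i + 1))
  | .neg i, C, _ => bi (C i) + bi (C (i + 2))
  | _, _, _ => 0

/-- L4 (telescoping, the potential of a row is the sum over the strands of the two neighbouring
labels): `2 P(C) = Rs(C) + 4 C(∞) + ∑ black corners`. -/
def S_L4 : Prop := ∀ (D : Word) (C : ℕ → ℕ → Bool), Closed D → RLab D C →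
  2 * PP D C = Rs D (fun t j => bi (C t j)) + 4 * bi (C 0 0) +
    ∑ t : Fin D.length, BCp D[t] (C t) (C (t + 1))

/-! ### modules Q and D: the bound for the exponent -/

/-- the marked set is allowed: the black neighbours of marked white gaps are marked -/
def Allowed (ε : ℕ) (D : Word) (C : ℕ → ℕ → Bool) : Prop :=
  ∀ t j, j < wid D t → (j % 2 = ε → C t j = true → C t (j + 1) = true) ∧
    (j % 2 ≠ ε → C t (j + 1) = true → C t j = true)

/-- Q: for marked sets. -/
def S_Q : Prop := ∀ (ε : ℕ) (D : Word) (C : ℕ → ℕ → Bool), ε < 2 → Closed D → D ≠ [] →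
  Connected D → Reduced D → ParType ε D → RLab D C → Allowed ε D C →
  ((∃ t j, j ≤ wid D t ∧ j % 2 ≠ ε ∧ C t j = false) →
    Rs D (fun t j => bi (C t j)) + 4 * bi (C 0 0) ≤ 0) ∧
  ((∃ t j, j ≤ wid D t ∧ C t j = false) →
    Rs D (fun t j => bi (C t j)) + 4 * bi (C 0 0) ≤ 2)

/-- D2: for heights. -/
def S_D2 : Prop := ∀ (ε : ℕ) (D : Word) (M : ℕ) (r : ℕ → ℕ → ℤ), ε < 2 → Closed D → D ≠ [] →
  Connected D → Reduced D → ParType ε D → RLab D r → r 0 0 = 0 →
  (∀ t j, |r t (j + 1) - r t j| ≤ M) → Rs D r ≤ M * K2 ε D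

/-! ### module V: the vertex model -/

/-- states: directions (`true` = downwards) and colours of the strands -/
abbrev VS (N : ℕ) : Type := List (Bool × Fin N)

abbrev VF (N : ℕ) : Type := VS N → ℝ

def lamZ {N : ℕ} (c : Fin N) : ℤ := 2 * (c : ℕ) + 1 - N

noncomputable def wB (q : ℝ) {N : ℕ} (b : Bool) (c : Fin N) : ℝ := if b then q ^ lamZ c else 1

noncomputable def wD (q : ℝ) {N : ℕ} (b : Bool) (c : Fin N) : ℝ := if b then 1 else q ^ (-lamZ c)

/-- the operator `g` acts after the first `i` strands -/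
def atPos {N : ℕ} (g : VF N → VF N) : ℕ → VF N → VF N
  | 0, f, s => g f s
  | _ + 1, _, [] => 0
  | i + 1, f, x :: s => atPos g i (fun r => f (x :: r)) s

noncomputable def birthL (q : ℝ) {N : ℕ} (b : Bool) (f : VF N) : VF N := fun s =>
  ∑ c : Fin N, wB q b c * f ((b, c) :: (!b, c) :: s)

noncomputable def deathL (q : ℝ) {N : ℕ} (f : VF N) : VF N
  | (b, c) :: (b', d) :: s => if b' = !b ∧ d = c then wD q b c * f s else 0
  | _ => 0

/-- order condition; `s = false` for `pos`, `s = true` for `neg` -/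
def ordP {N : ℕ} (s b : Bool) (c d : Fin N) : Prop := if s = b then d < c else c < d

instance {N : ℕ} (s b : Bool) (c d : Fin N) : Decidable (ordP s b c d) := by
  unfold ordP; infer_instance

noncomputable def crossL (q : ℝ) {N : ℕ} (s : Bool) (f : VF N) : VF N
  | (b, c) :: (b', d) :: st =>
      if b = b' then
        if c = d then (if s then q⁻¹ else q) * f ((b, c) :: (b, c) :: st)
        else f ((b, d) :: (b, c) :: st) +
          (if ordP s b c d then (if s then -(q - q⁻¹) else q - q⁻¹) * f ((b, c) :: (b, d) :: st)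
            else 0)
      else
        if c = d then (if s then q else q⁻¹) * f ((b', c) :: (b, c) :: st) +
          (if s then q - q⁻¹ else -(q - q⁻¹)) * ∑ e : Fin N,
            (if ordP s b c e then wB q (!b) e * wD q b c * f ((!b, e) :: (b, e) :: st) else 0)
        else f ((b', d) :: (b, c) :: st)
  | _ => 0

noncomputable def opV (q : ℝ) (N : ℕ) : OPiece → VF N → VF N
  | .birth i b => atPos (birthL q b) i
  | .death i => atPos (deathL q) i
  | .pos i => atPos (crossL q false) i
  | .neg i => atPos (crossL q true) i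

/-- `opWV q N w f s`: the value of the diagram `w` with the state `s` at the top, followed by `f`. -/
noncomputable def opWV (q : ℝ) (N : ℕ) : OWord → VF N → VF N
  | [], f => f
  | p :: w, f => opV q N p (opWV q N w f)

def fz {N : ℕ} : VF N := fun s => if s = [] then 1 else 0

/-- the vertex model -/
noncomputable def ZV (q : ℝ) (N : ℕ) (D : OWord) : ℝ := opWV q N D fz []

/-- the directions of `n` strands -/
def dlist (n : ℕ) (d : ℕ → Bool) : List Bool := (List.range n).map d

/-- the parts `l` and `c r` have the same value, if there are `n` strands with the directions `d` at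
the top -/
def RelV (q : ℝ) (N n : ℕ) (d : ℕ → Bool) (c : ℝ) (l r : OWord) : Prop :=
  ∀ (f : VF N) (s : VS N), s.map Prod.fst = dlist n d → opWV q N l f s = c * opWV q N r f s

/-- V1: all local moves except the third Reidemeister move. -/
def S_V1 : Prop := ∀ (q : ℝ) (N n : ℕ) (d : ℕ → Bool) (l r : OWord), 1 < q →
  LocalMove (forget l) (forget r) →
  (∀ i, forget l ≠ [Piece.pos i, Piece.pos (i + 1), Piece.pos i]) →
  below l n d = below r n d → (below l n d).isSome → RelV q N n d 1 l r

/-- V2: the third Reidemeister move, for all directions. -/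
def S_V2 : Prop := ∀ (q : ℝ) (N n i : ℕ) (d : ℕ → Bool), 1 < q → i + 3 ≤ n →
  RelV q N n d 1 [.pos i, .pos (i + 1), .pos i] [.pos (i + 1), .pos i, .pos (i + 1)]

/-- number of `neg` minus number of `pos` -/
def curlSign (w : Word) : ℤ :=
  (w.map (fun p => match p with | .neg _ => (1 : ℤ) | .pos _ => -1 | _ => 0)).sum

/-- V3: the first Reidemeister move. -/
def S_V3 : Prop := ∀ (q : ℝ) (N n : ℕ) (d : ℕ → Bool) (l r : OWord), 1 < q →
  FirstMove (forget l) (forget r) → below l n d = below r n d → (below l n d).isSome →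
  RelV q N n d (q ^ ((N : ℤ) * curlSign (forget l))) l r

/-- V4: the skein relations. -/
def S_V4 : Prop := ∀ (q : ℝ) (N n i : ℕ) (d : ℕ → Bool) (f : VF N) (s : VS N), 1 < q →
  i + 2 ≤ n → s.map Prod.fst = dlist n d →
  (d i = d (i + 1) → opWV q N [.pos i] f s - opWV q N [.neg i] f s = (q - q⁻¹) * f s) ∧
  (d i ≠ d (i + 1) → opWV q N [.neg i] f s - opWV q N [.pos i] f s =
    (q - q⁻¹) * opWV q N [.death i, .birth i (d (i + 1))] f s)

/-! ### orientations of local moves, writhe -/

/-- W1: the writhe under the moves. -/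
def S_W1 : Prop := (∀ (l r : OWord) (n : ℕ) (d : ℕ → Bool), LocalMove (forget l) (forget r) →
    below l n d = below r n d → (below l n d).isSome → writheFrom l n d = writheFrom r n d) ∧
  ∀ (l r : OWord) (n : ℕ) (d : ℕ → Bool), FirstMove (forget l) (forget r) →
    below l n d = below r n d → (below l n d).isSome →
    writheFrom l n d = writheFrom r n d + curlSign (forget l)

/-- W2: the writhe of a composition. -/
def S_W2 : Prop := ∀ (x y : OWord) (n : ℕ) (d : ℕ → Bool) (m : ℕ) (e : ℕ → Bool),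
  below x n d = some (m, e) → writheFrom (x ++ y) n d = writheFrom x n d + writheFrom y m e

/-- W3: orientations carry over under local moves. -/
def S_W3 : Prop := ∀ (l r : Word) (L : OWord) (n : ℕ) (d : ℕ → Bool) (m : ℕ) (e : ℕ → Bool),
  LocalMove l r ∨ LocalMove r l → forget L = l → below L n d = some (m, e) →
  Helper454.Kauf.width r n = some m → ∃ R : OWord, forget R = r ∧ below R n d = some (m, e)

/-- V: the vertex model obeys the rules. -/
def S_V : Prop := ∀ (q : ℝ) (N : ℕ), 1 < q →
  HomflyRules (R := ℝ) (q ^ (-(N : ℤ))) (q ^ (N : ℤ)) (q - q⁻¹)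
    (fun D => q ^ (-((N : ℤ) * writhe D)) * ZV q N D)

/-- D1: bound for the vertex model. -/
def S_D1 : Prop := ∀ (q : ℝ) (N : ℕ) (D : OWord) (B : ℤ), 1 < q → 1 ≤ N → OClosed D →
  (∀ r : ℕ → ℕ → ℤ, RLab (forget D) r → r 0 0 = 0 →
    (∀ t j, |r t (j + 1) - r t j| ≤ N - 1) → Rs (forget D) r ≤ B) →
  (ZV q N D) ^ 2 ≤ (q * (N + 1)) ^ (2 * D.length) * q ^ B

/-! ### module K: the bracket -/

/-- the exponent of the sign by which `TG.V` differs from the Kauffman bracket -/
def births (D : Word) : ℕ :=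
  (D.map (fun p => match p with | .birth i => i + 1 | .death i => i | _ => 0)).sum

/-- the Kauffman bracket for `A = t` -/
noncomputable def brk (t : ℝ) (D : Word) : ℝ := (-1) ^ births D * H560R3.TG.V t⁻¹ (tg D)

/-- Kauffman's rules for a real valued function, `a' = a⁻¹` -/
structure KR (a a' z : ℝ) (Λ : Word → ℝ) : Prop where
  regular : ∀ D E, RegIsotopic D E → Λ D = Λ E
  birthPos : ∀ x i y, Closed (x ++ [.birth i] ++ y) →
    Λ (x ++ [.birth i, .pos i] ++ y) = a' * Λ (x ++ [.birth i] ++ y)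
  birthNeg : ∀ x i y, Closed (x ++ [.birth i] ++ y) →
    Λ (x ++ [.birth i, .neg i] ++ y) = a * Λ (x ++ [.birth i] ++ y)
  deathPos : ∀ x i y, Closed (x ++ [.death i] ++ y) →
    Λ (x ++ [.pos i, .death i] ++ y) = a' * Λ (x ++ [.death i] ++ y)
  deathNeg : ∀ x i y, Closed (x ++ [.death i] ++ y) →
    Λ (x ++ [.neg i, .death i] ++ y) = a * Λ (x ++ [.death i] ++ y)
  skein : ∀ x i y, Closed (x ++ [.pos i] ++ y) →
    Λ (x ++ [.pos i] ++ y) + Λ (x ++ [.neg i] ++ y) =
      z * (Λ (x ++ y) + Λ (x ++ [.death i, .birth i] ++ y))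

/-- K1: the bracket obeys Kauffman's rules. -/
def S_K1 : Prop := ∀ t : ℝ, 0 < t → KR (-t ^ 3) (-(t⁻¹) ^ 3) (t + t⁻¹) (brk t) ∧
  brk t circle = -(t ^ 2 + (t⁻¹) ^ 2)

/-- K2: the Jones polynomial obeys the skein relation. -/
def S_K2 : Prop := ∀ t : ℝ, 0 < t →
  HomflyRules (R := ℝ) (t ^ (-4 : ℤ)) (t ^ (4 : ℤ)) (t ^ (-2 : ℤ) - t ^ (2 : ℤ))
    (fun D => (-t ^ 3) ^ (-writhe D) * brk t (forget D))

/-- K3 (Kauffman, Murasugi, Thistlethwaite): growth of the bracket. -/
def S_K3 : Prop := ∀ (ε : ℕ) (D : Word), ε < 2 → Closed D → D ≠ [] → Connected D → Reduced D →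
  ParType ε D → ∃ c T : ℝ, 0 < c ∧ 1 ≤ T ∧ ∀ t : ℝ, T ≤ t →
    c * t ^ ((crs D : ℤ) + K2 ε D) ≤ |brk t D|

/-! ### the other modules -/

/-- the parity condition -/
def S_par : Prop := ∀ D : Word, Closed D → Connected D → Alternating D → ∃ ε, ε < 2 ∧ ParType ε D

/-- B1: filtration for the Kauffman polynomial -/
def S_B1 : Prop := ∀ (M : Type) [AddCommGroup M] [Module Raz M] (Λ : Word → M), KauffmanRules Λ →
  ∀ D, Closed D → D ≠ [] →
    ∃ p : Raz, (∀ j k, (p.coeff j).coeff k ≠ 0 → j + k ≤ crs D) ∧ Λ D = p • Λ circle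

/-- B2: filtration for the HOMFLY polynomial -/
def S_B2 : Prop := ∀ (M : Type) [AddCommGroup M] [Module Rlm M] (Λ : OWord → M),
  HomflyRules (lPow 1) (lPow (-1)) (mPow 1) Λ → ∀ D, OClosed D → D ≠ [] →
    ∃ p : Rlm, (∀ j k, (p.coeff j).coeff k ≠ 0 → writhe D - k + j ≤ crs (forget D)) ∧
      Λ D = p • Λ ocircle

/-- the signature -/
def S_sig : Prop := ∀ (ε : ℕ) (D : OWord), ε < 2 → OClosed D → D ≠ [] → Connected (forget D) →
  ParType ε (forget D) → ∃ σ : ℤ, IsSignature D σ ∧
    crs (forget D) + writhe D - K2 ε (forget D) + 2 ≤ 2 * σ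

end Pool.Agent.Helper82_Alt
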