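import Pool.Agent.Helper82_Alt.A10
import Pool.Agent.Helper82_Alt.Spec

/-! Filtration for the Kauffman polynomial. -/

set_option autoImplicit false
set_option linter.unusedSimpArgs false

namespace Pool.Agent.Helper82_Alt

open LaurentPolynomial
open Pool.Agent.Helper454.Kauf
open Pool.Agent.Helper454.Kauf.Piece (birth death pos neg)

theorem LT_mul_coeff {R : Type} [CommSemiring R] (i k : ℤ) (f : LaurentPolynomial R) :
    (T i * f).coeff k = f.coeff (k - i) := by
  rw [T, AddMonoidAlgebra.coeff_single_mul_apply, one_mul, neg_add_eq_sub]

theorem LC_mul_coeff {R : Type} [CommSemiring R] (c : R) (k : ℤ) (f : LaurentPolynomial R) :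
    (C c * f).coeff k = c * f.coeff k := by
  rw [← single_eq_C, AddMonoidAlgebra.coeff_single_mul_apply, neg_zero, zero_add]

/-- all monomials `a^j z^k` of `p` have `j + k ≤ c` -/
def Fil (c : ℤ) (p : Raz) : Prop := ∀ j k, (p.coeff j).coeff k ≠ 0 → j + k ≤ c

theorem Fil.mono {c c' : ℤ} {p : Raz} (h : Fil c p) (hc : c ≤ c') : Fil c' p :=
  fun j k hp => (h j k hp).trans hc

theorem Fil.add {c : ℤ} {p q : Raz} (h : Fil c p) (h' : Fil c q) : Fil c (p + q) := by
  intro j k hp
  rw [AddMonoidAlgebra.coeff_add, Finsupp.add_apply, AddMonoidAlgebra.coeff_add,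
    Finsupp.add_apply] at hp
  by_cases h1 : (p.coeff j).coeff k = 0
  · rw [h1, zero_add] at hp; exact h' j k hp
  · exact h j k h1

theorem Fil.neg {c : ℤ} {p : Raz} (h : Fil c p) : Fil c (-p) := by
  intro j k hp
  rw [AddMonoidAlgebra.coeff_neg, Finsupp.neg_apply, AddMonoidAlgebra.coeff_neg,
    Finsupp.neg_apply] at hp
  exact h j k (fun h0 => hp (by rw [h0, neg_zero]))

theorem Fil.sub {c : ℤ} {p q : Raz} (h : Fil c p) (h' : Fil c q) : Fil c (p - q) := by
  rw [sub_eq_add_neg]; exact h.add h'.neg

theorem Fil.aP {c n : ℤ} {p : Raz} (h : Fil (c - n) p) : Fil c (aPow n * p) := by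
  intro j k hp
  rw [aPow, LT_mul_coeff] at hp
  have := h _ _ hp
  omega

theorem Fil.zP {c n : ℤ} {p : Raz} (h : Fil (c - n) p) : Fil c (C (T n) * p) := by
  intro j k hp
  rw [LC_mul_coeff, LT_mul_coeff] at hp
  have := h _ _ hp
  omega

theorem Fil.one : Fil 0 1 := by
  intro j k hp
  have h1 : (1 : Raz).coeff j = if j = 0 then 1 else 0 := by
    rw [← T_zero, T_apply]; simp [eq_comm]
  rw [h1] at hp
  by_cases hj : j = 0
  · rw [if_pos hj] at hp
    have h2 : (1 : LaurentPolynomial ℤ).coeff k = if k = 0 then 1 else 0 := by
      rw [← T_zero, T_apply]; simp [eq_comm]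
    rw [h2] at hp
    by_cases hk : k = 0
    · omega
    · simp [hk] at hp
  · rw [if_neg hj] at hp
    simp at hp

section Circle

variable {M : Type} [AddCommGroup M] [Module Raz M] {Λ : Word → M}

theorem reg_E (hΛ : KauffmanRules Λ) {n : ℕ} {l r x y : Word} (h : E n l r)
    (hx : width x 0 = some n) (hc : Closed (x ++ l ++ y)) :
    Λ (x ++ l ++ y) = Λ (x ++ r ++ y) := hΛ.regular _ _ (h.2 x y hx hc)

theorem cxDeath (hΛ : KauffmanRules Λ) (b : Bool) (x : Word) (i : ℕ) (y : Word)
    (hc : Closed (x ++ [death i] ++ y)) :
    Λ (x ++ [cx b i, death i] ++ y) = aPow (sg b) • Λ (x ++ [death i] ++ y) := by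
  cases b
  · exact hΛ.deathPos x i y hc
  · exact hΛ.deathNeg x i y hc

theorem cxBirth (hΛ : KauffmanRules Λ) (b : Bool) (x : Word) (i : ℕ) (y : Word)
    (hc : Closed (x ++ [birth i] ++ y)) :
    Λ (x ++ [birth i, cx b i] ++ y) = aPow (sg b) • Λ (x ++ [birth i] ++ y) := by
  cases b
  · exact hΛ.birthPos x i y hc
  · exact hΛ.birthNeg x i y hc

theorem closed_insert {x y l : Word} {n : ℕ} (hx : width x 0 = some n)
    (hl : width l n = some n) (hc : Closed (x ++ y)) : Closed (x ++ l ++ y) := by
  refine (closed_congr ?_ y).1 hc
  rw [width_append, hx, Option.bind_some, hl]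

/-- a circle on the right of the strand `j` -/
theorem circR (hΛ : KauffmanRules Λ) {x y : Word} {n j : ℕ} (hx : width x 0 = some n)
    (hj : j < n) (hc : Closed (x ++ y)) :
    zVar • Λ (x ++ [birth (j + 1), death (j + 1)] ++ y) =
      (aPow 1 + aPow (-1) - zVar) • Λ (x ++ y) := by
  have hcurl : ∀ b : Bool, Λ (x ++ [birth (j + 1), cx b j, death (j + 1)] ++ y) =
      aPow (sg (!b)) • Λ (x ++ y) := by
    intro b
    have hw1 : width [birth (j + 1), cx b j, death (j + 1)] n = some n := by
      rw [w_birth _ (by omega), w_cx _ _ (by omega), w_death _ (by omega), w_nil]; congr 1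
    have e1 : E n [birth (j + 1), cx b j, death (j + 1)] [birth j, cx (!b) (j + 1), death (j + 1)] := by
      have := (e_sb (n := n) (i := j) (!b) hj).symm.right [death (j + 1)] ⟨n, by
        simp only [Bool.not_not, List.cons_append, List.nil_append]; exact hw1⟩
      simpa using this
    rw [reg_E hΛ e1 hx (closed_insert hx hw1 hc)]
    have hw2 : width [birth j, death (j + 1)] n = some n := by
      rw [w_birth _ (by omega), w_death _ (by omega), w_nil]; congr 1
    have h2 := cxDeath hΛ (!b) (x ++ [birth j]) (j + 1) y (by
      have := closed_insert hx hw2 hc; simpa using this)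
    have h3 := reg_E hΛ (e_zig1 (n := n) (i := j) hj) hx (closed_insert hx hw2 hc)
    simp only [List.append_assoc, List.cons_append, List.nil_append] at h2 h3 ⊢
    rw [h2, h3]
  have hw0 : width [birth (j + 1), pos j, death (j + 1)] n = some n := by
    rw [← cx_false, w_birth _ (by omega), w_cx _ _ (by omega), w_death _ (by omega), w_nil]; congr 1
  have hsk := hΛ.skein (x ++ [birth (j + 1)]) j (death (j + 1) :: y) (by
    have := closed_insert hx hw0 hc; simpa using this)
  have h1 := hcurl false
  have h2 := hcurl true
  have hw3 : width [birth (j + 1), death j, birth j, death (j + 1)] n = some n := by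
    rw [w_birth _ (by omega), w_death _ (by omega), w_birth _ (by omega), w_death _ (by omega),
      w_nil]; congr 1
  have e3 : E n [birth (j + 1), death j, birth j, death (j + 1)] [] := by
    have f1 := (e_zig2 (n := n) (i := j) hj).right [birth j, death (j + 1)] ⟨n, by
      simpa using hw3⟩
    have f2 := e_zig1 (n := n) (i := j) hj
    have := f1.trans (by simpa using f2)
    simpa using this
  have h3 := reg_E hΛ e3 hx (closed_insert hx hw3 hc)
  simp only [cx_false, cx_true, Bool.not_true, Bool.not_false, sg, if_true, if_false,
    Bool.false_eq_true, List.append_assoc, List.cons_append, List.nil_append] at h1 h2 h3 hsk ⊢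
  rw [h1, h2, h3] at hsk
  rw [sub_smul, add_smul, hsk, smul_add, add_sub_cancel_right]

/-- a circle on the left of the strand `j` -/
theorem circL (hΛ : KauffmanRules Λ) {x y : Word} {n j : ℕ} (hx : width x 0 = some n)
    (hj : j < n) (hc : Closed (x ++ y)) :
    zVar • Λ (x ++ [birth j, death j] ++ y) =
      (aPow 1 + aPow (-1) - zVar) • Λ (x ++ y) := by
  have hcurl : ∀ b : Bool, Λ (x ++ [birth j, cx b (j + 1), death j] ++ y) =
      aPow (sg (!b)) • Λ (x ++ y) := by
    intro b
    have hw1 : width [birth j, cx b (j + 1), death j] n = some n := by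
      rw [w_birth _ (by omega), w_cx _ _ (by omega), w_death _ (by omega), w_nil]; congr 1
    have e1 : E n [birth j, cx b (j + 1), death j] [birth (j + 1), cx (!b) j, death j] := by
      have := (e_sb (n := n) (i := j) b hj).right [death j] ⟨n, by
        simp only [List.cons_append, List.nil_append]; exact hw1⟩
      simpa using this
    rw [reg_E hΛ e1 hx (closed_insert hx hw1 hc)]
    have hw2 : width [birth (j + 1), death j] n = some n := by
      rw [w_birth _ (by omega), w_death _ (by omega), w_nil]; congr 1
    have h2 := cxDeath hΛ (!b) (x ++ [birth (j + 1)]) j y (by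
      have := closed_insert hx hw2 hc; simpa using this)
    have h3 := reg_E hΛ (e_zig2 (n := n) (i := j) hj) hx (closed_insert hx hw2 hc)
    simp only [List.append_assoc, List.cons_append, List.nil_append] at h2 h3 ⊢
    rw [h2, h3]
  have hw0 : width [birth j, pos (j + 1), death j] n = some n := by
    rw [← cx_false, w_birth _ (by omega), w_cx _ _ (by omega), w_death _ (by omega), w_nil]; congr 1
  have hsk := hΛ.skein (x ++ [birth j]) (j + 1) (death j :: y) (by
    have := closed_insert hx hw0 hc; simpa using this)
  have h1 := hcurl false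
  have h2 := hcurl true
  have hw3 : width [birth j, death (j + 1), birth (j + 1), death j] n = some n := by
    rw [w_birth _ (by omega), w_death _ (by omega), w_birth _ (by omega), w_death _ (by omega),
      w_nil]; congr 1
  have e3 : E n [birth j, death (j + 1), birth (j + 1), death j] [] := by
    have f1 := (e_zig1 (n := n) (i := j) hj).right [birth (j + 1), death j] ⟨n, by
      simpa using hw3⟩
    have f2 := e_zig2 (n := n) (i := j) hj
    have := f1.trans (by simpa using f2)
    simpa using this
  have h3 := reg_E hΛ e3 hx (closed_insert hx hw3 hc)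
  simp only [cx_false, cx_true, Bool.not_true, Bool.not_false, sg, if_true, if_false,
    Bool.false_eq_true, List.append_assoc, List.cons_append, List.nil_append] at h1 h2 h3 hsk ⊢
  rw [h1, h2, h3] at hsk
  rw [sub_smul, add_smul, hsk, smul_add, add_sub_cancel_right]

/-- a circle anywhere -/
theorem circ_any (hΛ : KauffmanRules Λ) {x y : Word} {n i : ℕ} (hx : width x 0 = some n)
    (hi : i ≤ n) (hc : Closed (x ++ y)) (hne : x ++ y ≠ []) :
    zVar • Λ (x ++ [birth i, death i] ++ y) =
      (aPow 1 + aPow (-1) - zVar) • Λ (x ++ y) := by
  rcases Nat.eq_zero_or_pos n with rfl | hn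
  · obtain rfl : i = 0 := by omega
    rcases y with _ | ⟨p, y⟩
    · -- `x` ends with a death
      rw [List.append_nil] at hc hne
      obtain ⟨x', p, rfl⟩ : ∃ x' p, x = x' ++ [p] :=
        ⟨x.dropLast, x.getLast hne, (List.dropLast_append_getLast hne).symm⟩
      unfold Closed at hc
      rw [width_append] at hc
      obtain ⟨m, hm, hp⟩ := Option.bind_eq_some_iff.1 hc
      have hp' : m = 2 ∧ p = death 0 := by
        cases p with
        | birth i => simp only [width, Piece.width] at hp; split_ifs at hp <;> simp at hp
        | death i =>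
          simp only [width, Piece.width] at hp
          split_ifs at hp with h1
          · simp only [Option.bind_some, Option.some.injEq] at hp
            have : i = 0 := by omega
            subst this
            exact ⟨by omega, rfl⟩
          · simp at hp
        | pos i =>
          simp only [width, Piece.width] at hp
          split_ifs at hp with h1
          · simp only [Option.bind_some, Option.some.injEq] at hp; omega
          · simp at hp
        | neg i =>
          simp only [width, Piece.width] at hp
          split_ifs at hp with h1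
          · simp only [Option.bind_some, Option.some.injEq] at hp; omega
          · simp at hp
      obtain ⟨rfl, rfl⟩ := hp'
      have hcl : Closed (x' ++ [death 0]) := by
        unfold Closed; rw [width_append]; exact hc
      have h1 := circR hΛ (x := x') (y := [death 0]) (n := 2) (j := 1) hm (by omega) hcl
      have hwd : width [death 0, birth 0, death 0] 2 = some 0 := by
        rw [w_death _ (by omega), w_birth _ (by omega), w_death _ (by omega), w_nil]
      have f1 := (e_far (n := 4) (death 0) (death 2) (by simp [Piece.index, Piece.ins])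
        (by simp [Piece.index, Piece.ins])).symm.left (m := 2) [birth 2] (by
          rw [w_birth _ (by omega), w_nil])
      have f2 := (e_far (n := 2) (death 0) (birth 2) (by simp [Piece.index, Piece.ins])
        (by simp [Piece.index, Piece.ins])).symm.right [death 0] ⟨0, by
          simp only [List.cons_append, List.nil_append]
          rw [w_birth _ (by omega), w_death _ (by omega), w_death _ (by omega), w_nil]⟩
      simp only [Piece.moved, Piece.index, Piece.ins, Piece.outs, List.cons_append,
        List.nil_append] at f1 f2
      have f3 := f1.trans f2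
      have hcl3 : Closed (x' ++ [birth 2, death 2, death 0] ++ []) := by
        unfold Closed
        rw [List.append_nil, width_append, hm, Option.bind_some, w_birth _ (by omega),
          w_death _ (by omega), w_death _ (by omega), w_nil]
      have h2 := reg_E hΛ (y := []) f3 hm hcl3
      simp only [List.append_assoc, List.cons_append, List.nil_append, List.append_nil] at h1 h2 ⊢
      rw [← h2]
      exact h1
    · have hp : p = birth 0 ∧ width y 2 = some 0 := by
        unfold Closed at hc
        rw [width_append, hx, Option.bind_some] at hc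
        cases p with
        | birth i =>
          simp only [width, Piece.width] at hc
          split_ifs at hc with h1
          · have : i = 0 := by omega
            subst this
            exact ⟨rfl, by simpa using hc⟩
          · simp at hc
        | death i => simp [width, Piece.width] at hc
        | pos i => simp [width, Piece.width] at hc
        | neg i => simp [width, Piece.width] at hc
      obtain ⟨rfl, hy⟩ := hp
      have hx2 : width (x ++ [birth 0]) 0 = some 2 := by
        rw [width_append, hx, Option.bind_some, w_birth _ (by omega), w_nil]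
      have h1 := circR hΛ (x := x ++ [birth 0]) (y := y) (n := 2) (j := 1) hx2 (by omega) (by
        simpa using hc)
      -- [birth 0, death 0, birth 0] ~ [birth 0, birth 0, death 2] ~ [birth 0, birth 2, death 2]
      have f1 := (e_far (n := 2) (birth 0) (death 0) (by simp [Piece.index, Piece.ins])
        (by simp [Piece.index, Piece.ins])).symm.left (m := 0) [birth 0] (by
          rw [w_birth _ (by omega), w_nil])
      have f2 := (e_bb (n := 0) (i := 0) (j := 0) (by omega) (by omega)).symm.right [death 2] ⟨2, by
          simp only [List.cons_append, List.nil_append]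
          rw [w_birth _ (by omega), w_birth _ (by omega), w_death _ (by omega), w_nil]⟩
      simp only [Piece.moved, Piece.index, Piece.ins, Piece.outs, List.cons_append,
        List.nil_append] at f1 f2
      have f3 := f1.trans (by simpa using f2)
      have hcl3 : Closed (x ++ [birth 0, death 0, birth 0] ++ y) := by
        unfold Closed
        rw [width_append, width_append, hx, Option.bind_some, w_birth _ (by omega),
          w_death _ (by omega), w_birth _ (by omega), w_nil, Option.bind_some]
        exact hy
      have h2 := reg_E hΛ f3 hx hcl3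
      simp only [List.append_assoc, List.cons_append, List.nil_append, List.append_nil] at h1 h2 ⊢
      rw [h2]
      exact h1
  · rcases Nat.eq_zero_or_pos i with rfl | hi0
    · exact circL hΛ hx hn hc
    · obtain ⟨j, rfl⟩ : ∃ j, i = j + 1 := ⟨i - 1, by omega⟩
      exact circR hΛ hx (by omega) hc

end Circle

theorem zz : (C (T (-1)) : Raz) * zVar = 1 := by
  rw [zVar, ← map_mul, ← T_add]
  simp

theorem t_B1 : S_B1 := by
  intro M _ _ Λ hΛ D hD hne
  have hSk : Sk (fun c w => ∃ p : Raz, Fil c p ∧ Λ w = p • Λ circle) := by
    refine ⟨?_, ?_, ?_, ?_, ?_, ?_, ?_⟩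
    · rintro c c' w hc ⟨p, hp, h⟩
      exact ⟨p, hp.mono hc, h⟩
    · rintro c w w' _ hr ⟨p, hp, h⟩
      exact ⟨p, hp, by rw [hΛ.regular _ _ hr, h]⟩
    · rintro c b x i y hc ⟨p, hp, h⟩
      exact ⟨aPow (sg b) * p, hp.aP, by rw [cxBirth hΛ b x i y hc, h, mul_smul]⟩
    · rintro c b x i y hc ⟨p, hp, h⟩
      exact ⟨aPow (sg b) * p, hp.aP, by rw [cxDeath hΛ b x i y hc, h, mul_smul]⟩
    · rintro c b x i y hc ⟨p, hp, h⟩ ⟨p1, hp1, h1⟩ ⟨p2, hp2, h2⟩
      refine ⟨zVar * (p1 + p2) - p, (Fil.zP (hp1.add hp2)).sub hp, ?_⟩
      have hcl : Closed (x ++ [pos i] ++ y) := by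
        cases b
        · exact hc
        · refine (closed_congr ?_ y).1 hc
          rw [width_append, width_append]
          congr 1
      have hs := hΛ.skein x i y hcl
      rw [sub_smul, mul_smul, add_smul, ← h1, ← h2, ← h, ← hs]
      cases b
      · show _ = _ + _ - Λ (x ++ [neg i] ++ y)
        rw [add_sub_cancel_right]; rfl
      · show _ = _ + _ - Λ (x ++ [pos i] ++ y)
        rw [add_sub_cancel_left]; rfl
    · rintro c x i y hc hne' ⟨n, hx, hi⟩ ⟨p, hp, h⟩
      refine ⟨C (T (-1)) * (aPow 1 * p + aPow (-1) * p) - p, Fil.sub (Fil.zP (Fil.add ?_ ?_)) hp,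
        ?_⟩
      · refine Fil.aP (hp.mono (by omega))
      · refine Fil.aP (hp.mono (by omega))
      · have h1 := circ_any hΛ hx hi hc hne'
        have h2 := congrArg (fun m => (C (T (-1)) : Raz) • m) h1
        simp only [smul_smul] at h2
        rw [zz, one_smul] at h2
        rw [h2, h, smul_smul]
        congr 1
        have := zz
        linear_combination (-p) * this
    · exact ⟨1, Fil.one, by rw [one_smul]⟩
  exact span hSk D hD hne

end Pool.Agent.Helper82_Alt
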