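import Pool.Agent.Helper82_Alt.Spec
import Pool.Agent.Helper82_Alt.A6

/-!
# B2: the degree filtration for the HOMFLY polynomial
-/

set_option autoImplicit false

namespace Pool.Agent.Helper82_Alt.PB2

open Pool.Agent.Helper82_Alt
open Pool.Agent.Helper454.Kauf (Piece Word Closed RegIsotopic RegStep LocalMove FirstMove circle)
open Pool.Agent.Helper454.Wh

/-- what the file A8 proves -/
def S_span : Prop := ∀ G : ℤ → Word → Prop, Sk G → ∀ w, Closed w → w ≠ [] → G (crs w) w

/-! ### the filtration -/

/-- all exponents `l^k m^j` of `p` have `j - k ≤ n` -/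
def FF (n : ℤ) (p : Rlm) : Prop := ∀ j k, (p.coeff j).coeff k ≠ 0 → j - k ≤ n

theorem FF.mono {n n' : ℤ} {p : Rlm} (h : FF n p) (hn : n ≤ n') : FF n' p :=
  fun j k hjk => (h j k hjk).trans hn

theorem FF.add {n : ℤ} {p p' : Rlm} (h : FF n p) (h' : FF n p') : FF n (p + p') := by
  intro j k hjk
  by_cases h1 : (p.coeff j).coeff k = 0
  · refine h' j k fun h2 => hjk ?_
    rw [AddMonoidAlgebra.coeff_add, Finsupp.add_apply, AddMonoidAlgebra.coeff_add,
      Finsupp.add_apply, h1, h2, add_zero]
  · exact h j k h1

theorem FF.neg {n : ℤ} {p : Rlm} (h : FF n p) : FF n (-p) := by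
  intro j k hjk
  refine h j k fun h2 => hjk ?_
  rw [AddMonoidAlgebra.coeff_neg, Finsupp.neg_apply, AddMonoidAlgebra.coeff_neg,
    Finsupp.neg_apply, h2, neg_zero]

theorem FF.l {n : ℤ} {p : Rlm} (a : ℤ) (h : FF n p) : FF (n - a) (lPow a * p) := by
  intro j k hjk
  have h1 : (lPow a * p).coeff j = LaurentPolynomial.T a * p.coeff j := by
    change (AddMonoidAlgebra.single 0 (LaurentPolynomial.T a) * p).coeff j = _
    rw [AddMonoidAlgebra.coeff_single_mul_apply, neg_zero, zero_add]
  have h2 : (LaurentPolynomial.T a * p.coeff j).coeff k = (p.coeff j).coeff (k - a) := by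
    unfold LaurentPolynomial.T
    rw [AddMonoidAlgebra.coeff_single_mul_apply, one_mul]
    congr 1
    ring
  rw [h1, h2] at hjk
  have := h j (k - a) hjk
  linarith

theorem FF.m {n : ℤ} {p : Rlm} (a : ℤ) (h : FF n p) : FF (n + a) (mPow a * p) := by
  intro j k hjk
  have h1 : (mPow a * p).coeff j = p.coeff (j - a) := by
    unfold mPow LaurentPolynomial.T
    rw [AddMonoidAlgebra.coeff_single_mul_apply, one_mul]
    congr 1
    ring
  rw [h1] at hjk
  have := h (j - a) k hjk
  linarith

theorem FF.one : FF 0 (1 : Rlm) := by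
  intro j k hjk
  rw [← LaurentPolynomial.T_zero, LaurentPolynomial.T_apply] at hjk
  by_cases hj : 0 = j
  · rw [if_pos hj, ← LaurentPolynomial.T_zero, LaurentPolynomial.T_apply] at hjk
    by_cases hk : 0 = k
    · subst hj hk; simp
    · rw [if_neg hk] at hjk; exact absurd rfl hjk
  · rw [if_neg hj] at hjk; exact absurd rfl hjk

theorem lPow_add (a b : ℤ) : lPow (a + b) = lPow a * lPow b := by
  unfold lPow
  rw [LaurentPolynomial.T_add, map_mul]

theorem lPow_zero : lPow 0 = 1 := by
  unfold lPow
  rw [LaurentPolynomial.T_zero, map_one]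

theorem mPow_add (a b : ℤ) : mPow (a + b) = mPow a * mPow b := LaurentPolynomial.T_add a b

theorem mPow_zero : mPow 0 = 1 := LaurentPolynomial.T_zero

/-! ### directions -/

theorem e1 (i : ℕ) (o : Bool) (d : ℕ → Bool) : swpD i (insD i o d) = insD i (!o) d := by
  funext k
  simp only [insD, swpD]
  grind

theorem e2 (i : ℕ) (d : ℕ → Bool) : delD i (swpD i d) = delD i d := by
  funext k
  simp only [delD, swpD]
  grind

theorem e3 (i : ℕ) (d : ℕ → Bool) (h : d (i + 1) = !d i) :
    insD i (d (i + 1)) (delD i d) = swpD i d := by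
  have h' : d i = !d (i + 1) := by rw [h, Bool.not_not]
  funext k
  simp only [insD, delD, swpD]
  rcases lt_trichotomy k i with hk | hk | hk
  · grind
  · grind
  · by_cases hk2 : k = i + 1
    · subst hk2
      rw [if_neg (by omega), if_neg (by omega), if_pos rfl, if_neg (by omega), if_pos rfl]
      exact h'.symm
    · grind

theorem e4 (i : ℕ) (d : ℕ → Bool) (h : d i = d (i + 1)) : swpD i d = d := by
  funext k
  simp only [swpD]
  grind

theorem e5 (i : ℕ) (o : Bool) (d : ℕ → Bool) : delD i (insD i o d) = d := by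
  funext k
  simp only [insD, delD]
  grind

theorem e6 (i : ℕ) (d : ℕ → Bool) : delD (i + 1) (swpD i (insD (i + 1) (d i) d)) = d := by
  funext k
  simp only [insD, delD, swpD]
  grind

theorem e7 (i : ℕ) (d : ℕ → Bool) : delD i (swpD (i + 1) (insD (i + 1) (d i) d)) = d := by
  funext k
  simp only [insD, delD, swpD]
  grind

theorem e8 (i : ℕ) (d : ℕ → Bool) : delD i (insD (i + 1) (!d i) d) = d := by
  funext k
  simp only [insD, delD]
  grind

theorem e9 (i : ℕ) (d : ℕ → Bool) : delD i (swpD (i + 1) (insD i (!d i) d)) = d := by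
  funext k
  simp only [insD, delD, swpD]
  grind

theorem e10 (i : ℕ) (d : ℕ → Bool) : delD (i + 1) (swpD i (insD i (!d i) d)) = d := by
  funext k
  simp only [insD, delD, swpD]
  grind

theorem e11 (i : ℕ) (d : ℕ → Bool) : delD (i + 1) (insD i (d i) d) = d := by
  funext k
  simp only [insD, delD]
  grind

/-- oriented crossing, `neg` if `b` -/
def ocx (b : Bool) (i : ℕ) : OPiece := if b then .neg i else .pos i

theorem forget_ocx (b : Bool) (i : ℕ) : (ocx b i).forget = cx b i := by
  cases b <;> rfl

theorem bl_nil (n : ℕ) (d : ℕ → Bool) : below [] n d = some (n, d) := rfl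

theorem bl_birth {i n : ℕ} (o : Bool) (w : OWord) (d : ℕ → Bool) (h : i ≤ n) :
    below (.birth i o :: w) n d = below w (n + 2) (insD i o d) := by
  simp [below, OPiece.below, h]

theorem bl_death {i n : ℕ} (w : OWord) (d : ℕ → Bool) (h : i + 2 ≤ n) (h' : d (i + 1) = !d i) :
    below (.death i :: w) n d = below w (n - 2) (delD i d) := by
  simp [below, OPiece.below, h, h']

theorem bl_ocx {i n : ℕ} (b : Bool) (w : OWord) (d : ℕ → Bool) (h : i + 2 ≤ n) :
    below (ocx b i :: w) n d = below w n (swpD i d) := by
  cases b <;> simp [below, OPiece.below, h, ocx]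

theorem below_append (u v : OWord) (n : ℕ) (d : ℕ → Bool) :
    below (u ++ v) n d = (below u n d).bind fun s => below v s.1 s.2 := by
  induction u generalizing n d with
  | nil => rfl
  | cons p u ih =>
    simp only [List.cons_append, below]
    rcases p.below n d with _ | s
    · rfl
    · simp only [Option.bind_some]; exact ih _ _

theorem below_append' {u : OWord} {n : ℕ} {d : ℕ → Bool} {m : ℕ} {e : ℕ → Bool} (v : OWord)
    (h : below u n d = some (m, e)) : below (u ++ v) n d = below v m e := by
  rw [below_append, h]; rfl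

theorem oclosed_iff (D : OWord) : OClosed D ↔ ∃ e, below D 0 noD = some (0, e) := by
  unfold OClosed
  rcases below D 0 noD with _ | ⟨m, e⟩
  · simp
  · simp

/-- the width is that of the unoriented diagram -/
theorem width_forget (D : OWord) : ∀ (n : ℕ) (d : ℕ → Bool) (m : ℕ) (e : ℕ → Bool),
    below D n d = some (m, e) → Helper454.Kauf.width (forget D) n = some m := by
  induction D with
  | nil => intro n d m e h; simp [below] at h; simp [forget, Helper454.Kauf.width, h.1]
  | cons p D ih =>
    intro n d m e h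
    simp only [below] at h
    rcases hp : p.below n d with _ | ⟨m', e'⟩
    · rw [hp] at h; simp at h
    · rw [hp] at h
      simp only [Option.bind_some] at h
      have h1 := ih m' e' m e h
      have h2 : p.forget.width n = some m' := by
        cases p <;> simp only [OPiece.below] at hp <;> split_ifs at hp with hc <;>
          simp only [Option.some.injEq, Prod.mk.injEq] at hp <;>
          simp only [OPiece.forget, Piece.width]
        · rw [if_pos hc, hp.1]
        · rw [if_pos hc.1, hp.1]
        · rw [if_pos hc, hp.1]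
        · rw [if_pos hc, hp.1]
      change Helper454.Kauf.width (p.forget :: forget D) n = some m
      simp only [Helper454.Kauf.width, h2, Option.bind_some]
      exact h1

theorem closed_forget {D : OWord} (h : OClosed D) : Closed (forget D) := by
  obtain ⟨e, he⟩ := (oclosed_iff D).1 h
  exact width_forget D 0 noD 0 e he

/-- splitting a closed diagram -/
theorem oclosed_split {X L Y : OWord} (h : OClosed (X ++ L ++ Y)) :
    ∃ n d m e e', below X 0 noD = some (n, d) ∧ below L n d = some (m, e) ∧
      below Y m e = some (0, e') := by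
  obtain ⟨e', he'⟩ := (oclosed_iff _).1 h
  rw [below_append, below_append] at he'
  rcases hX : below X 0 noD with _ | ⟨n, d⟩
  · rw [hX] at he'; simp at he'
  rw [hX] at he'
  simp only [Option.bind_some] at he'
  rcases hL : below L n d with _ | ⟨m, e⟩
  · rw [hL] at he'; simp at he'
  rw [hL] at he'
  simp only [Option.bind_some] at he'
  exact ⟨n, d, m, e, e', rfl, hL, he'⟩

theorem oclosed_mk {X L Y : OWord} {n : ℕ} {d : ℕ → Bool} {m : ℕ} {e e' : ℕ → Bool}
    (hX : below X 0 noD = some (n, d)) (hL : below L n d = some (m, e))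
    (hY : below Y m e = some (0, e')) : OClosed (X ++ L ++ Y) := by
  refine (oclosed_iff _).2 ⟨e', ?_⟩
  rw [below_append, below_append, hX, Option.bind_some, hL, Option.bind_some, hY]

theorem writhe_append (x y : OWord) : ∀ (n : ℕ) (d : ℕ → Bool) (m : ℕ) (e : ℕ → Bool),
    below x n d = some (m, e) → writheFrom (x ++ y) n d = writheFrom x n d + writheFrom y m e := by
  induction x with
  | nil =>
    intro n d m e h
    simp only [below, Option.some.injEq, Prod.mk.injEq] at h
    simp [writheFrom, h.1, h.2]
  | cons p x ih =>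
    intro n d m e h
    simp only [below] at h
    rcases hp : p.below n d with _ | ⟨m', e'⟩
    · rw [hp] at h; simp at h
    · rw [hp] at h
      simp only [Option.bind_some] at h
      simp only [List.cons_append, writheFrom, hp]
      rw [ih m' e' m e h, add_assoc]

theorem writhe_split {X L Y : OWord} {n : ℕ} {d : ℕ → Bool} {m : ℕ} {e : ℕ → Bool}
    (hX : below X 0 noD = some (n, d)) (hL : below L n d = some (m, e)) :
    writhe (X ++ L ++ Y) = writheFrom X 0 noD + writheFrom L n d + writheFrom Y m e := by
  unfold writhe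
  rw [writhe_append (X ++ L) Y 0 noD m e (by rw [below_append' L hX, hL]),
    writhe_append X L 0 noD n d hX]

theorem split3 {D : OWord} {x l y : Word} (h : forget D = x ++ l ++ y) :
    ∃ X L Y, D = X ++ L ++ Y ∧ forget X = x ∧ forget L = l ∧ forget Y = y := by
  unfold forget at h
  obtain ⟨XL, Y, rfl, h1, h2⟩ := List.map_eq_append_iff.1 h
  obtain ⟨X, L, rfl, h3, h4⟩ := List.map_eq_append_iff.1 h1
  exact ⟨X, L, Y, rfl, h3, h4, h2⟩

theorem forget_append (X Y : OWord) : forget (X ++ Y) = forget X ++ forget Y := List.map_append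

/-! ### pieces with a given shadow -/

theorem inv_birth {p : OPiece} {i : ℕ} (h : p.forget = Piece.birth i) : ∃ o, p = .birth i o := by
  cases p <;> simp [OPiece.forget] at h
  subst h; exact ⟨_, rfl⟩

theorem inv_death {p : OPiece} {i : ℕ} (h : p.forget = Piece.death i) : p = .death i := by
  cases p <;> simp [OPiece.forget] at h
  subst h; rfl

theorem inv_cx {p : OPiece} {b : Bool} {i : ℕ} (h : p.forget = cx b i) : p = ocx b i := by
  cases b <;> cases p <;> simp [OPiece.forget, cx] at h <;> subst h <;> rfl

theorem inv1 {L : OWord} {q : Piece} (h : forget L = [q]) : ∃ p, L = [p] ∧ p.forget = q := by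
  unfold forget at h
  rcases L with _ | ⟨p, _ | ⟨p', L⟩⟩
  · simp at h
  · exact ⟨p, rfl, by simpa using h⟩
  · simp at h

theorem inv2 {L : OWord} {q q' : Piece} (h : forget L = [q, q']) :
    ∃ p p', L = [p, p'] ∧ p.forget = q ∧ p'.forget = q' := by
  unfold forget at h
  rcases L with _ | ⟨p, _ | ⟨p', _ | ⟨p'', L⟩⟩⟩
  · simp at h
  · simp at h
  · exact ⟨p, p', rfl, by simpa using h⟩
  · simp at h

/-! ### invariance -/

section
variable {M : Type} [AddCommGroup M] [Module Rlm M] {Λ : OWord → M}

/-- exchange of parts -/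
theorem exch (hΛ : HomflyRules (lPow 1) (lPow (-1)) (mPow 1) Λ) {X L R Y : OWord} {n : ℕ}
    {d : ℕ → Bool} {m : ℕ} {e : ℕ → Bool} (hX : below X 0 noD = some (n, d))
    (hL : below L n d = some (m, e)) (hR : below R n d = some (m, e))
    (hc : OClosed (X ++ L ++ Y))
    (hm : LocalMove (forget L) (forget R) ∨ FirstMove (forget L) (forget R)) :
    OClosed (X ++ R ++ Y) ∧ Λ (X ++ L ++ Y) = Λ (X ++ R ++ Y) := by
  have hc' : OClosed (X ++ R ++ Y) := by
    obtain ⟨n', d', m', e', e'', h1, h2, h3⟩ := oclosed_split hc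
    rw [hX] at h1
    obtain ⟨rfl, rfl⟩ : n = n' ∧ d = d' := by simpa using h1
    rw [hL] at h2
    obtain ⟨rfl, rfl⟩ : m = m' ∧ e = e' := by simpa using h2
    exact oclosed_mk hX hR h3
  exact ⟨hc', hΛ.isotopy _ _ (Relation.EqvGen.rel _ _
    (OStep.mk X L R Y n d hm hX (hL.trans hR.symm) hc hc'))⟩

/-- `D` can be replaced by `D'` -/
def TT (Λ : OWord → M) (w w' : Word) : Prop :=
  ∀ D, forget D = w → OClosed D → ∃ D', forget D' = w' ∧ OClosed D' ∧ Λ D = Λ D' ∧
    writhe D = writhe D'

/-- net change of the number of strands -/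
def net : Word → ℤ
  | [] => 0
  | .birth _ :: w => 2 + net w
  | .death _ :: w => -2 + net w
  | .pos _ :: w => net w
  | .neg _ :: w => net w

theorem width_net (w : Word) : ∀ n m, Helper454.Kauf.width w n = some m → (m : ℤ) = n + net w := by
  induction w with
  | nil => intro n m h; simp [Helper454.Kauf.width] at h; simp [net, h]
  | cons p w ih =>
    intro n m h
    simp only [Helper454.Kauf.width] at h
    cases p <;> simp only [Piece.width] at h <;> split_ifs at h with hc <;>
      simp at h <;> have := ih _ _ h <;> simp only [net] <;> push_cast at this <;>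
      first | linarith | skip
    rw [Nat.cast_sub (by omega)] at this
    push_cast at this
    linarith

theorem TT_step (hW1 : S_W1) (hW3 : S_W3) (hΛ : HomflyRules (lPow 1) (lPow (-1)) (mPow 1) Λ)
    {x l r y : Word} (h : LocalMove l r ∨ LocalMove r l) (_hl : Closed (x ++ l ++ y))
    (hr : Closed (x ++ r ++ y)) : TT Λ (x ++ l ++ y) (x ++ r ++ y) := by
  intro D hD hc
  obtain ⟨X, L, Y, rfl, rfl, rfl, rfl⟩ := split3 hD
  obtain ⟨n, d, m, e, e', hX, hL, hY⟩ := oclosed_split hc
  have hw : Helper454.Kauf.width r n = some m := by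
    have h1 := width_forget X _ _ _ _ hX
    have h2 := width_forget Y _ _ _ _ hY
    unfold Helper454.Kauf.Closed at hr
    rw [width_append, width_append, h1, Option.bind_some] at hr
    rcases h3 : Helper454.Kauf.width r n with _ | m'
    · rw [h3] at hr; simp at hr
    · rw [h3] at hr
      simp only [Option.bind_some] at hr
      have h4 := width_net _ _ _ hr
      have h5 := width_net _ _ _ h2
      congr 1
      have : (m' : ℤ) = m := by linarith
      exact_mod_cast this
  obtain ⟨R, hR1, hR2⟩ := hW3 (forget L) r L n d m e h rfl hL hw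
  subst hR1
  have hwr : writheFrom L n d = writheFrom R n d := by
    rcases h with h | h
    · exact hW1.1 L R n d h (hL.trans hR2.symm) (by rw [hL]; rfl)
    · exact (hW1.1 R L n d h (hR2.trans hL.symm) (by rw [hR2]; rfl)).symm
  refine ⟨X ++ R ++ Y, by rw [forget_append, forget_append], oclosed_mk hX hR2 hY, ?_, ?_⟩
  · rcases h with h | h
    · exact (exch hΛ hX hL hR2 hc (Or.inl h)).2
    · exact (exch hΛ hX hR2 hL (oclosed_mk hX hR2 hY) (Or.inl h)).2.symm
  · rw [writhe_split hX hL, writhe_split hX hR2, hwr]

theorem TT_reg (hW1 : S_W1) (hW3 : S_W3) (hΛ : HomflyRules (lPow 1) (lPow (-1)) (mPow 1) Λ)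
    {w w' : Word} (h : RegIsotopic w w') : TT Λ w w' ∧ TT Λ w' w := by
  induction h with
  | rel w w' h =>
    obtain ⟨x, l, r, y, hm, hl, hr⟩ := h
    exact ⟨TT_step hW1 hW3 hΛ (Or.inl hm) hl hr, TT_step hW1 hW3 hΛ (Or.inr hm) hr hl⟩
  | refl w => exact ⟨fun D h1 h2 => ⟨D, h1, h2, rfl, rfl⟩, fun D h1 h2 => ⟨D, h1, h2, rfl, rfl⟩⟩
  | symm w w' _ ih => exact ih.symm
  | trans a b c _ _ ih1 ih2 =>
    refine ⟨fun D h1 h2 => ?_, fun D h1 h2 => ?_⟩
    · obtain ⟨D', a1, a2, a3, a4⟩ := ih1.1 D h1 h2
      obtain ⟨D'', b1, b2, b3, b4⟩ := ih2.1 D' a1 a2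
      exact ⟨D'', b1, b2, a3.trans b3, a4.trans b4⟩
    · obtain ⟨D', a1, a2, a3, a4⟩ := ih2.2 D h1 h2
      obtain ⟨D'', b1, b2, b3, b4⟩ := ih1.2 D' a1 a2
      exact ⟨D'', b1, b2, a3.trans b3, a4.trans b4⟩

/-! ### curls -/

theorem curlB_below {n i : ℕ} {d : ℕ → Bool} (b o : Bool) (h : i ≤ n) :
    below [.birth i o, ocx b i] n d = some (n + 2, insD i (!o) d) := by
  rw [bl_birth _ _ _ h, bl_ocx _ _ _ (by omega), e1, bl_nil]

theorem curlB (hΛ : HomflyRules (lPow 1) (lPow (-1)) (mPow 1) Λ) {X Y : OWord} {n i : ℕ}
    {d : ℕ → Bool} (b o : Bool) (hX : below X 0 noD = some (n, d)) (h : i ≤ n)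
    (hc : OClosed (X ++ [.birth i o, ocx b i] ++ Y)) :
    OClosed (X ++ [.birth i (!o)] ++ Y) ∧
      Λ (X ++ [.birth i o, ocx b i] ++ Y) = Λ (X ++ [.birth i (!o)] ++ Y) := by
  refine exch hΛ hX (curlB_below b o h) (by rw [bl_birth _ _ _ h, bl_nil]) hc (Or.inr ?_)
  cases b
  · exact FirstMove.birthPos i
  · exact FirstMove.birthNeg i

theorem curlD_below {n i : ℕ} {d : ℕ → Bool} (b : Bool) (h : i + 2 ≤ n) (h' : d (i + 1) = !d i) :
    below [ocx b i, .death i] n d = some (n - 2, delD i d) := by
  rw [bl_ocx _ _ _ h, bl_death _ _ h (by simp [swpD, h']), e2, bl_nil]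

theorem curlD (hΛ : HomflyRules (lPow 1) (lPow (-1)) (mPow 1) Λ) {X Y : OWord} {n i : ℕ}
    {d : ℕ → Bool} (b : Bool) (hX : below X 0 noD = some (n, d)) (h : i + 2 ≤ n)
    (h' : d (i + 1) = !d i) (hc : OClosed (X ++ [ocx b i, .death i] ++ Y)) :
    OClosed (X ++ [.death i] ++ Y) ∧
      Λ (X ++ [ocx b i, .death i] ++ Y) = Λ (X ++ [.death i] ++ Y) := by
  refine exch hΛ hX (curlD_below b h h') (by rw [bl_death _ _ h h', bl_nil]) hc (Or.inr ?_)
  cases b
  · exact FirstMove.deathPos i
  · exact FirstMove.deathNeg i

/-- the circle turned around -/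
theorem flip (hΛ : HomflyRules (lPow 1) (lPow (-1)) (mPow 1) Λ) {X Y : OWord} {n i : ℕ}
    {d : ℕ → Bool} (o : Bool) (hX : below X 0 noD = some (n, d)) (h : i ≤ n)
    {e' : ℕ → Bool} (hY : below Y n d = some (0, e')) :
    Λ (X ++ [.birth i o, .death i] ++ Y) = Λ (X ++ [.birth i (!o), .death i] ++ Y) := by
  have hi : ∀ o : Bool, insD i o d (i + 1) = !insD i o d i := by
    intro o; simp [insD]
  have h1 : ∀ o : Bool, below ([.death i] ++ Y) (n + 2) (insD i o d) = some (0, e') := by
    intro o
    rw [List.singleton_append, bl_death _ _ (by omega) (hi o), e5]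
    simpa using hY
  have h2 := (curlB (Y := [.death i] ++ Y) hΛ false o hX h
    (oclosed_mk hX (curlB_below false o h) (h1 (!o)))).2
  have hX' : below (X ++ [.birth i o]) 0 noD = some (n + 2, insD i o d) := by
    rw [below_append' _ hX, bl_birth _ _ _ h, bl_nil]
  have h3 := (curlD (Y := Y) hΛ (i := i) false hX' (by omega) (hi o)
    (oclosed_mk hX' (curlD_below false (by omega) (hi o)) (by rw [e5]; simpa using hY))).2
  simp only [List.append_assoc, List.cons_append, List.nil_append] at h2 h3 ⊢
  rw [← h2, ← h3]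

/-! ### the circle -/

/-- the rule for a circle -/
def CircAt (Λ : OWord → M) (X Y : OWord) (i : ℕ) (o : Bool) : Prop :=
  mPow 1 • Λ (X ++ [.birth i o, .death i] ++ Y) =
    lPow (-1) • Λ (X ++ Y) - lPow 1 • Λ (X ++ Y)

/-- the strand on the right of the circle -/
theorem circ_right (hΛ : HomflyRules (lPow 1) (lPow (-1)) (mPow 1) Λ) {X Y : OWord} {n i : ℕ}
    {d e' : ℕ → Bool} (hX : below X 0 noD = some (n, d)) (h : i < n)
    (hY : below Y n d = some (0, e')) : CircAt Λ X Y i (!d i) := by
  have hX1 : below (X ++ [.birth i (!d i)]) 0 noD = some (n + 2, insD i (!d i) d) := by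
    rw [below_append' _ hX, bl_birth _ _ _ h.le, bl_nil]
  have hd1 : insD i (!d i) d i = !d i := by simp [insD]
  have hd2 : insD i (!d i) d (i + 1) = d i := by simp [insD]
  have hd3 : insD i (!d i) d (i + 2) = d i := by simp [insD]
  -- the curl is an arc
  have hcurl : ∀ b : Bool, OClosed ((X ++ [.birth i (!d i)]) ++ [ocx b (i + 1)] ++
      ([.death i] ++ Y)) ∧
      Λ ((X ++ [.birth i (!d i)]) ++ [ocx b (i + 1)] ++ ([.death i] ++ Y)) = Λ (X ++ Y) := by
    intro b
    have b1 : below [ocx b (i + 1), .death i] (n + 2) (insD i (!d i) d) = some (n, d) := by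
      rw [bl_ocx _ _ _ (by omega), bl_death _ _ (by omega) (by simp only [swpD]; grind), e9, bl_nil]
      simp
    have b2 : below [ocx (!b) i, .death (i + 1)] (n + 2) (insD i (!d i) d) = some (n, d) := by
      rw [bl_ocx _ _ _ (by omega), bl_death _ _ (by omega) (by simp only [swpD]; grind), e10, bl_nil]
      simp
    have c1 : OClosed ((X ++ [.birth i (!d i)]) ++ [ocx b (i + 1), .death i] ++ Y) :=
      oclosed_mk hX1 b1 hY
    have f1 := exch hΛ hX1 b1 b2 c1 (Or.inl (by
      cases b
      · exact LocalMove.slideDeath₁ i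
      · exact LocalMove.slideDeath₂ i))
    have c2 : OClosed (X ++ [.birth i (!d i), ocx (!b) i] ++ ([.death (i + 1)] ++ Y)) := by
      simpa using f1.1
    have f2 := curlB hΛ (!b) (!d i) hX h.le c2
    have b3 : below [.birth i (!!d i), .death (i + 1)] n d = some (n, d) := by
      rw [Bool.not_not, bl_birth _ _ _ h.le, bl_death _ _ (by omega) (by simp only [insD]; grind),
        e11, bl_nil]
      simp
    have c3 : OClosed (X ++ [.birth i (!!d i), .death (i + 1)] ++ Y) := by simpa using f2.1
    have f3 := exch (R := []) hΛ hX b3 (bl_nil n d) c3 (Or.inl (LocalMove.zigzag₁ i))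
    refine ⟨by simpa using c1, ?_⟩
    have g1 := f1.2
    have g2 := f2.2
    have g3 := f3.2
    simp only [List.append_assoc, List.cons_append, List.nil_append] at g1 g2 g3 ⊢
    rw [g1, g2, g3]
  have hp := hΛ.parallel (X ++ [.birth i (!d i)]) (i + 1) ([.death i] ++ Y) (hcurl false).1 (by
    unfold dirs
    rw [hX1]
    simp [hd2, hd3])
  have h1 := (hcurl false).2
  have h2 := (hcurl true).2
  simp only [ocx, if_true, Bool.false_eq_true, if_false] at h1 h2
  rw [h1, h2] at hp
  unfold CircAt
  rw [hp]
  simp

/-- the strand on the left of the circle -/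
theorem circ_left (hΛ : HomflyRules (lPow 1) (lPow (-1)) (mPow 1) Λ) {X Y : OWord} {n i : ℕ}
    {d e' : ℕ → Bool} (hX : below X 0 noD = some (n, d)) (h : i < n)
    (hY : below Y n d = some (0, e')) : CircAt Λ X Y (i + 1) (d i) := by
  have hX1 : below (X ++ [.birth (i + 1) (d i)]) 0 noD = some (n + 2, insD (i + 1) (d i) d) := by
    rw [below_append' _ hX, bl_birth _ _ _ h, bl_nil]
  have hd1 : insD (i + 1) (d i) d i = d i := by simp [insD]
  have hd2 : insD (i + 1) (d i) d (i + 1) = d i := by simp [insD]
  have hd3 : insD (i + 1) (d i) d (i + 2) = !d i := by simp [insD]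
  have hcurl : ∀ b : Bool, OClosed ((X ++ [.birth (i + 1) (d i)]) ++ [ocx b i] ++
      ([.death (i + 1)] ++ Y)) ∧
      Λ ((X ++ [.birth (i + 1) (d i)]) ++ [ocx b i] ++ ([.death (i + 1)] ++ Y)) = Λ (X ++ Y) := by
    intro b
    have b1 : below [ocx b i, .death (i + 1)] (n + 2) (insD (i + 1) (d i) d) = some (n, d) := by
      rw [bl_ocx _ _ _ (by omega), bl_death _ _ (by omega) (by simp only [swpD]; grind), e6, bl_nil]
      simp
    have b2 : below [ocx (!b) (i + 1), .death i] (n + 2) (insD (i + 1) (d i) d) = some (n, d) := by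
      rw [bl_ocx _ _ _ (by omega), bl_death _ _ (by omega) (by simp only [swpD]; grind), e7, bl_nil]
      simp
    have c1 : OClosed ((X ++ [.birth (i + 1) (d i)]) ++ [ocx b i, .death (i + 1)] ++ Y) :=
      oclosed_mk hX1 b1 hY
    have c1' : OClosed ((X ++ [.birth (i + 1) (d i)]) ++ [ocx (!b) (i + 1), .death i] ++ Y) :=
      oclosed_mk hX1 b2 hY
    have f1 := exch hΛ hX1 b2 b1 c1' (Or.inl (by
      cases b
      · exact LocalMove.slideDeath₂ i
      · exact LocalMove.slideDeath₁ i))
    have c2 : OClosed (X ++ [.birth (i + 1) (d i), ocx (!b) (i + 1)] ++ ([.death i] ++ Y)) := by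
      simpa using c1'
    have f2 := curlB hΛ (!b) (d i) hX h c2
    have b3 : below [.birth (i + 1) (!d i), .death i] n d = some (n, d) := by
      rw [bl_birth _ _ _ h, bl_death _ _ (by omega) (by simp [insD]), e8, bl_nil]
      simp
    have c3 : OClosed (X ++ [.birth (i + 1) (!d i), .death i] ++ Y) := by simpa using f2.1
    have f3 := exch (R := []) hΛ hX b3 (bl_nil n d) c3 (Or.inl (LocalMove.zigzag₂ i))
    refine ⟨by simpa using c1, ?_⟩
    have g1 := f1.2
    have g2 := f2.2
    have g3 := f3.2
    simp only [List.append_assoc, List.cons_append, List.nil_append] at g1 g2 g3 ⊢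
    rw [← g1, g2, g3]
  have hp := hΛ.parallel (X ++ [.birth (i + 1) (d i)]) i ([.death (i + 1)] ++ Y) (hcurl false).1 (by
    unfold dirs
    rw [hX1]
    simp [hd1, hd2])
  have h1 := (hcurl false).2
  have h2 := (hcurl true).2
  simp only [ocx, if_true, Bool.false_eq_true, if_false] at h1 h2
  rw [h1, h2] at hp
  unfold CircAt
  rw [hp]
  simp

/-- the circle above a maximum -/
theorem circ_birth (hΛ : HomflyRules (lPow 1) (lPow (-1)) (mPow 1) Λ) {X Y : OWord} {n i : ℕ}
    {d e' : ℕ → Bool} (o : Bool) (hX : below X 0 noD = some (n, d)) (h : i ≤ n)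
    (hY : below (.birth i o :: Y) n d = some (0, e')) : CircAt Λ X (.birth i o :: Y) i (!o) := by
  have hY' := hY
  rw [bl_birth _ _ _ h] at hY'
  have hcurl : ∀ b : Bool, OClosed ((X ++ [.birth i (!o)]) ++ [ocx b i] ++ Y) ∧
      Λ ((X ++ [.birth i (!o)]) ++ [ocx b i] ++ Y) = Λ (X ++ .birth i o :: Y) := by
    intro b
    have c1 : OClosed (X ++ [.birth i (!o), ocx b i] ++ Y) :=
      oclosed_mk hX (curlB_below b (!o) h) (by rw [Bool.not_not]; exact hY')
    have f1 := curlB hΛ b (!o) hX h c1
    refine ⟨by simpa using c1, ?_⟩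
    have g1 := f1.2
    rw [Bool.not_not] at g1
    simpa using g1
  have hX1 : below (X ++ [.birth i (!o)]) 0 noD = some (n + 2, insD i (!o) d) := by
    rw [below_append' _ hX, bl_birth _ _ _ h, bl_nil]
  have hd : dirs (X ++ [.birth i (!o)]) = insD i (!o) d := by
    unfold dirs; rw [hX1]; rfl
  have hp := hΛ.antiparallel (X ++ [.birth i (!o)]) i Y (by simpa [ocx] using (hcurl true).1) (by
    rw [hd]; simp [insD])
  have h1 := (hcurl false).2
  have h2 := (hcurl true).2
  simp only [ocx, if_true, Bool.false_eq_true, if_false] at h1 h2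
  rw [h1, h2, hd] at hp
  have h3 : insD i (!o) d (i + 1) = o := by simp [insD]
  rw [h3] at hp
  unfold CircAt
  rw [hp]
  simp

/-- the circle below a minimum -/
theorem circ_death (hΛ : HomflyRules (lPow 1) (lPow (-1)) (mPow 1) Λ) {X Y : OWord} {n i : ℕ}
    {d e' : ℕ → Bool} (hX : below X 0 noD = some (n, d)) (h : i + 2 ≤ n)
    (h' : d (i + 1) = !d i) (hY : below Y (n - 2) (delD i d) = some (0, e')) :
    CircAt Λ (X ++ [.death i]) Y i (d (i + 1)) := by
  have hcurl : ∀ b : Bool, OClosed (X ++ [ocx b i] ++ ([.death i] ++ Y)) ∧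
      Λ (X ++ [ocx b i] ++ ([.death i] ++ Y)) = Λ (X ++ [.death i] ++ Y) := by
    intro b
    have c1 : OClosed (X ++ [ocx b i, .death i] ++ Y) := oclosed_mk hX (curlD_below b h h') hY
    have f1 := curlD hΛ b hX h h' c1
    refine ⟨by simpa using c1, ?_⟩
    simpa using f1.2
  have hd : dirs X = d := by
    unfold dirs; rw [hX]; rfl
  have hp := hΛ.antiparallel X i ([.death i] ++ Y) (by simpa [ocx] using (hcurl true).1) (by
    rw [hd, h']; simp)
  have h1 := (hcurl false).2
  have h2 := (hcurl true).2
  simp only [ocx, if_true, Bool.false_eq_true, if_false] at h1 h2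
  rw [h1, h2, hd] at hp
  unfold CircAt
  rw [hp]
  simp

theorem circ_flip (hΛ : HomflyRules (lPow 1) (lPow (-1)) (mPow 1) Λ) {X Y : OWord} {n i : ℕ}
    {d e' : ℕ → Bool} {o : Bool} (hX : below X 0 noD = some (n, d)) (h : i ≤ n)
    (hY : below Y n d = some (0, e')) (hc : CircAt Λ X Y i o) (o' : Bool) : CircAt Λ X Y i o' := by
  by_cases ho : o' = o
  · rw [ho]; exact hc
  · have : o' = !o := by cases o <;> cases o' <;> simp_all
    subst this
    unfold CircAt
    rw [← flip hΛ o hX h hY]
    exact hc

theorem circ (hΛ : HomflyRules (lPow 1) (lPow (-1)) (mPow 1) Λ) {X Y : OWord} {n i : ℕ}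
    {d e' : ℕ → Bool} (o : Bool) (hX : below X 0 noD = some (n, d)) (h : i ≤ n)
    (hY : below Y n d = some (0, e')) (hne : X ++ Y ≠ []) : CircAt Λ X Y i o := by
  rcases h.lt_or_eq with h1 | h1
  · exact circ_flip hΛ hX h hY (circ_right hΛ hX h1 hY) o
  · subst h1
    rcases i with _ | i
    · -- no strands
      rcases Y with _ | ⟨p, Y⟩
      · -- the diagram ends
        rw [List.append_nil] at hne
        obtain ⟨X', p, rfl⟩ : ∃ X' p, X = X' ++ [p] := by
          rcases List.eq_nil_or_concat X with h | ⟨X', p, h⟩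
          · exact absurd h hne
          · exact ⟨X', p, by simpa using h⟩
        rcases hX' : below X' 0 noD with _ | ⟨n, d'⟩
        · rw [below_append, hX'] at hX; simp at hX
        · have hX2 := hX
          rw [below_append' _ hX'] at hX2
          have hp : p = .death 0 ∧ n = 2 ∧ d' 1 = !d' 0 := by
            simp only [below] at hX2
            rcases p with ⟨j, b⟩ | j | j | j
            · simp only [OPiece.below] at hX2; split_ifs at hX2 <;> simp at hX2
            · simp only [OPiece.below] at hX2
              split_ifs at hX2 with hc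
              swap
              · simp at hX2
              simp at hX2
              have h3 : n = 2 := by omega
              have h4 : j = 0 := by omega
              subst h4
              exact ⟨rfl, h3, by simpa using hc.2⟩
            · simp only [OPiece.below] at hX2
              split_ifs at hX2 with hc
              swap
              · simp at hX2
              simp at hX2; omega
            · simp only [OPiece.below] at hX2
              split_ifs at hX2 with hc
              swap
              · simp at hX2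
              simp at hX2; omega
          obtain ⟨rfl, rfl, h4⟩ := hp
          have h5 := circ_death (Y := []) (i := 0) (e' := delD 0 d') hΛ hX' (by omega)
            (by simpa using h4) rfl
          exact circ_flip hΛ hX le_rfl hY h5 o
      · -- the next piece is a maximum
        have hp : ∃ o', p = .birth 0 o' := by
          simp only [below] at hY
          rcases p with ⟨j, b⟩ | j | j | j
          · simp only [OPiece.below] at hY
            split_ifs at hY with hc
            swap
            · simp at hY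
            · have : j = 0 := by omega
              subst this; exact ⟨b, rfl⟩
          · simp only [OPiece.below] at hY
            split_ifs at hY with hc
            swap
            · simp at hY
            omega
          · simp only [OPiece.below] at hY
            split_ifs at hY with hc
            swap
            · simp at hY
            omega
          · simp only [OPiece.below] at hY
            split_ifs at hY with hc
            swap
            · simp at hY
            omega
        obtain ⟨o', rfl⟩ := hp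
        exact circ_flip hΛ hX le_rfl hY (circ_birth hΛ o' hX le_rfl hY) o
    · exact circ_flip hΛ hX h hY (circ_left hΛ hX (Nat.lt_succ_self i) hY) o

/-! ### the skein relations -/

/-- the family of predicates -/
def GG (Λ : OWord → M) (c : ℤ) (w : Word) : Prop :=
  ∀ D : OWord, forget D = w → OClosed D → ∃ p : Rlm, FF (c - writhe D) p ∧ Λ D = p • Λ ocircle

theorem ll (a : M) : lPow 1 • (lPow (-1) • a) = a := by
  rw [smul_smul, ← lPow_add]; simp [lPow_zero]

theorem ll' (a : M) : lPow (-1) • (lPow 1 • a) = a := by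
  rw [smul_smul, ← lPow_add]; simp [lPow_zero]

theorem mm' (a : M) : mPow (-1) • (mPow 1 • a) = a := by
  rw [smul_smul, ← mPow_add]; simp [mPow_zero]

/-- the crossing at a place where the smoothing is `S` -/
theorem skein_core {a b s o : M} {wa : ℤ} {c : ℤ} {p q : Rlm}
    (h : lPow (-1) • a - lPow 1 • b = mPow 1 • s) (hs : s = q • o) (hq : FF (c - 1 - wa) q) :
    (b = p • o → FF (c - (wa - 1)) p → ∃ r, FF (c - (wa + 1)) r ∧ a = r • o) ∧
    (a = p • o → FF (c - (wa + 1)) p → ∃ r, FF (c - (wa - 1)) r ∧ b = r • o) := by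
  constructor
  · intro hb hp
    refine ⟨lPow 1 * (lPow 1 * p) + lPow 1 * (mPow 1 * q), ?_, ?_⟩
    · refine FF.add ?_ ?_
      · exact ((hp.l 1).l 1).mono (by linarith)
      · exact ((hq.m 1).l 1).mono (by linarith)
    · have h1 : lPow (-1) • a = lPow 1 • b + mPow 1 • s := by
        rw [← h]; abel
      have h2 : a = lPow 1 • (lPow 1 • b) + lPow 1 • (mPow 1 • s) := by
        rw [← smul_add, ← h1, ll]
      rw [h2, hb, hs, add_smul, mul_smul, mul_smul, mul_smul, mul_smul]
  · intro ha hp
    refine ⟨lPow (-1) * (lPow (-1) * p) + -(lPow (-1) * (mPow 1 * q)), ?_, ?_⟩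
    · refine FF.add ?_ (FF.neg ?_)
      · exact ((hp.l (-1)).l (-1)).mono (by linarith)
      · exact ((hq.m 1).l (-1)).mono (by linarith)
    · have h1 : lPow 1 • b = lPow (-1) • a - mPow 1 • s := by
        rw [← h]; abel
      have h2 : b = lPow (-1) • (lPow (-1) • a) - lPow (-1) • (mPow 1 • s) := by
        rw [← smul_sub, ← h1, ll']
      rw [h2, ha, hs, add_smul, neg_smul, mul_smul, mul_smul, mul_smul, mul_smul, sub_eq_add_neg]

theorem wr_nil (n : ℕ) (d : ℕ → Bool) : writheFrom [] n d = 0 := rfl

theorem wr_one (p : OPiece) (n : ℕ) (d : ℕ → Bool) : writheFrom [p] n d = osign p d := by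
  simp only [writheFrom]
  rcases p.below n d with _ | s <;> simp

theorem wr_ocx {i n : ℕ} (b : Bool) (d : ℕ → Bool) :
    writheFrom [ocx b i] n d = (if d i = d (i + 1) then 1 else -1) * (if b then -1 else 1) := by
  rw [wr_one]
  cases b
  · simp only [ocx, osign, Bool.false_eq_true, if_false]
    split <;> simp
  · simp only [ocx, osign, if_true]
    split <;> simp

theorem sk (hW1 : S_W1) (hW3 : S_W3) (hΛ : HomflyRules (lPow 1) (lPow (-1)) (mPow 1) Λ) :
    Sk (GG Λ) where
  mono := by
    intro c c' w hc h D hD hcl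
    obtain ⟨p, hp, h1⟩ := h D hD hcl
    exact ⟨p, hp.mono (by linarith), h1⟩
  reg := by
    intro c w w' _ hr h D hD hcl
    obtain ⟨D', a1, a2, a3, a4⟩ := (TT_reg hW1 hW3 hΛ hr).1 D hD hcl
    obtain ⟨p, hp, h1⟩ := h D' a1 a2
    exact ⟨p, by rw [a4]; exact hp, by rw [a3]; exact h1⟩
  birthX := by
    intro c b x i y _ h D hD hcl
    obtain ⟨X, L, Y, rfl, rfl, hL, rfl⟩ := split3 hD
    obtain ⟨p, p', rfl, h1, h2⟩ := inv2 hL
    obtain ⟨o, rfl⟩ := inv_birth h1
    obtain rfl := inv_cx h2
    obtain ⟨n, d, m, e, e', hX, hbL, hY⟩ := oclosed_split hcl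
    have hi : i ≤ n := by
      by_contra hi
      simp [below, OPiece.below, hi] at hbL
    have f := curlB hΛ b o hX hi hcl
    obtain ⟨q, hq, hq'⟩ := h _ (by simp [forget, OPiece.forget]) f.1
    refine ⟨q, ?_, by rw [f.2]; exact hq'⟩
    have hb := curlB_below (d := d) b o hi
    have hb' : below [.birth i (!o)] n d = some (n + 2, insD i (!o) d) := by
      rw [bl_birth _ _ _ hi, bl_nil]
    have w1 := writhe_split (Y := Y) hX hb
    have w2 := writhe_split (Y := Y) hX hb'
    have w3 : writheFrom [.birth i o, ocx b i] n d = sg b := by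
      have hbb : below [.birth i o] n d = some (n + 2, insD i o d) := by
        rw [bl_birth _ _ _ hi, bl_nil]
      have := writhe_append [.birth i o] [ocx b i] n d _ _ hbb
      rw [List.singleton_append] at this
      rw [this, wr_ocx]
      have h0 : writheFrom [OPiece.birth i o] n d = 0 := wr_one _ _ _
      rw [h0]
      have h3 : insD i o d i = o := by simp [insD]
      have h4 : insD i o d (i + 1) = !o := by simp [insD]
      rw [h3, h4]
      cases b <;> cases o <;> simp [sg]
    have w4 : writheFrom [OPiece.birth i (!o)] n d = 0 := wr_one _ _ _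
    rw [w3] at w1
    rw [w4] at w2
    rw [w1]
    rw [w2] at hq
    exact hq.mono (by linarith)
  deathX := by
    intro c b x i y _ h D hD hcl
    obtain ⟨X, L, Y, rfl, rfl, hL, rfl⟩ := split3 hD
    obtain ⟨p, p', rfl, h1, h2⟩ := inv2 hL
    obtain rfl := inv_cx h1
    obtain rfl := inv_death h2
    obtain ⟨n, d, m, e, e', hX, hbL, hY⟩ := oclosed_split hcl
    have hi : i + 2 ≤ n := by
      by_contra hi
      cases b <;> simp [below, OPiece.below, hi, ocx] at hbL
    have hd : d (i + 1) = !d i := by
      rw [bl_ocx _ _ _ hi] at hbL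
      simp only [below, OPiece.below] at hbL
      split_ifs at hbL with hc
      · simp [swpD] at hc
        rw [hc.2]; simp
      · simp at hbL
    have f := curlD hΛ b hX hi hd hcl
    obtain ⟨q, hq, hq'⟩ := h _ (by simp [forget, OPiece.forget]) f.1
    refine ⟨q, ?_, by rw [f.2]; exact hq'⟩
    have hb := curlD_below (d := d) b hi hd
    have hb' : below [.death i] n d = some (n - 2, delD i d) := by
      rw [bl_death _ _ hi hd, bl_nil]
    have w1 := writhe_split (Y := Y) hX hb
    have w2 := writhe_split (Y := Y) hX hb'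
    have w3 : writheFrom [ocx b i, .death i] n d = sg b := by
      have hbb : below [ocx b i] n d = some (n, swpD i d) := by
        rw [bl_ocx _ _ _ hi, bl_nil]
      have := writhe_append [ocx b i] [.death i] n d _ _ hbb
      rw [List.singleton_append] at this
      rw [this, wr_ocx]
      have h0 : writheFrom [OPiece.death i] n (swpD i d) = 0 := wr_one _ _ _
      rw [h0, hd]
      cases b <;> simp [sg]
    have w4 : writheFrom [OPiece.death i] n d = 0 := wr_one _ _ _
    rw [w3] at w1
    rw [w4] at w2
    rw [w1]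
    rw [w2] at hq
    exact hq.mono (by linarith)
  cross := by
    intro c b x i y _ h1 h2 h3 D hD hcl
    obtain ⟨X, L, Y, rfl, rfl, hL, rfl⟩ := split3 hD
    obtain ⟨p, rfl, hp⟩ := inv1 hL
    obtain rfl := inv_cx hp
    obtain ⟨n, d, m, e, e', hX, hbL, hY⟩ := oclosed_split hcl
    have hi : i + 2 ≤ n := by
      by_contra hi
      cases b <;> simp [below, OPiece.below, hi, ocx] at hbL
    have hdir : dirs X = d := by
      unfold dirs; rw [hX]; rfl
    have hb : ∀ b, below [ocx b i] n d = some (n, swpD i d) := by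
      intro b; rw [bl_ocx _ _ _ hi, bl_nil]
    rw [hb b] at hbL
    obtain ⟨rfl, rfl⟩ : n = m ∧ swpD i d = e := by simpa using hbL
    have hcl' : ∀ b, OClosed (X ++ [ocx b i] ++ Y) := fun b => oclosed_mk hX (hb b) hY
    have hwr : ∀ b, writhe (X ++ [ocx b i] ++ Y) = (writheFrom X 0 noD +
        writheFrom Y n (swpD i d)) +
        (if d i = d (i + 1) then 1 else -1) * (if b then -1 else 1) := by
      intro b
      rw [writhe_split hX (hb b), wr_ocx]; ring
    obtain ⟨q, hq, hq'⟩ := h1 (X ++ [ocx (!b) i] ++ Y) (by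
      rw [forget_append, forget_append]
      congr 2
      simp [forget, forget_ocx]) (hcl' _)
    rw [hwr] at hq
    rw [hwr]
    set W := writheFrom X 0 noD + writheFrom Y n (swpD i d) with hW
    by_cases hd : d i = d (i + 1)
    · -- parallel
      have hs : OClosed (X ++ Y) := by
        have := oclosed_mk (L := []) hX (bl_nil n d) (by rw [e4 i d hd] at hY; exact hY)
        simpa using this
      obtain ⟨r, hr, hr'⟩ := h2 (X ++ Y) (by rw [forget_append]) hs
      have hws : writhe (X ++ Y) = W := by
        have := writhe_split (Y := Y) hX (bl_nil n d)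
        rw [List.append_nil, wr_nil, add_zero] at this
        rw [this, hW, e4 i d hd]
      rw [hws] at hr
      have hsk := hΛ.parallel X i Y (hcl' false) (by rw [hdir]; exact hd)
      have core := skein_core (wa := W) (c := c) (p := q) hsk hr' hr
      rw [if_pos hd] at hq ⊢
      cases b
      · simp only [ocx, Bool.not_false, Bool.false_eq_true, if_true, if_false, mul_one,
          mul_neg] at hq hq' ⊢
        refine core.1 hq' ?_
        exact hq.mono (by linarith)
      · simp only [ocx, Bool.not_true, Bool.false_eq_true, if_true, if_false, mul_one,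
          mul_neg] at hq hq' ⊢
        exact core.2 hq' hq
    · -- antiparallel
      have hd' : d (i + 1) = !d i := by
        cases h4 : d i <;> cases h5 : d (i + 1) <;> simp_all
      have hbs : below [.death i, .birth i (d (i + 1))] n d = some (n, swpD i d) := by
        rw [bl_death _ _ hi hd', bl_birth _ _ _ (by omega), e3 i d hd', bl_nil]
        congr 2
        omega
      obtain ⟨r, hr, hr'⟩ := h3 (X ++ [.death i, .birth i (d (i + 1))] ++ Y) (by
        rw [forget_append, forget_append]
        rfl) (oclosed_mk hX hbs hY)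
      have hws : writhe (X ++ [.death i, .birth i (d (i + 1))] ++ Y) = W := by
        rw [writhe_split hX hbs, hW]
        have h0 : writheFrom [.death i, .birth i (d (i + 1))] n d = 0 := by
          have hbb : below [OPiece.death i] n d = some (n - 2, delD i d) := by
            rw [bl_death _ _ hi hd', bl_nil]
          have := writhe_append [.death i] [.birth i (d (i + 1))] n d _ _ hbb
          rw [List.singleton_append] at this
          rw [this, wr_one, wr_one]
          rfl
        rw [h0]; ring
      rw [hws] at hr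
      have hsk := hΛ.antiparallel X i Y (hcl' true) (by rw [hdir]; exact hd)
      rw [hdir] at hsk
      have core := skein_core (wa := W) (c := c) (p := q) hsk hr' hr
      rw [if_neg hd] at hq ⊢
      cases b
      · simp only [ocx, Bool.not_false, Bool.false_eq_true, if_true, if_false, mul_one,
          mul_neg, neg_neg] at hq hq' ⊢
        exact core.2 hq' hq
      · simp only [ocx, Bool.not_true, Bool.false_eq_true, if_true, if_false, mul_one,
          mul_neg, neg_neg] at hq hq' ⊢
        refine core.1 hq' ?_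
        exact hq.mono (by linarith)
  circ := by
    intro c x i y _ hne hw h D hD hcl
    obtain ⟨X, L, Y, rfl, rfl, hL, rfl⟩ := split3 hD
    obtain ⟨p, p', rfl, h1, h2⟩ := inv2 hL
    obtain ⟨o, rfl⟩ := inv_birth h1
    obtain rfl := inv_death h2
    obtain ⟨n, d, m, e, e', hX, hbL, hY⟩ := oclosed_split hcl
    have hi : i ≤ n := by
      by_contra hi
      simp [below, OPiece.below, hi] at hbL
    have hb : below [.birth i o, .death i] n d = some (n, d) := by
      rw [bl_birth _ _ _ hi, bl_death _ _ (by omega) (by simp [insD]), e5, bl_nil]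
      simp
    rw [hb] at hbL
    obtain ⟨rfl, rfl⟩ : n = m ∧ d = e := by simpa using hbL
    have hs : OClosed (X ++ Y) := by
      have := oclosed_mk (L := []) hX (bl_nil n d) hY
      simpa using this
    obtain ⟨q, hq, hq'⟩ := h (X ++ Y) (by rw [forget_append]) hs
    have hne' : X ++ Y ≠ [] := by
      intro h0
      apply hne
      rw [← forget_append, h0]; rfl
    have hc := circ hΛ o hX hi hY hne'
    have hw1 : writhe (X ++ [.birth i o, .death i] ++ Y) = writhe (X ++ Y) := by
      have := writhe_split (Y := Y) hX (bl_nil n d)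
      rw [List.append_nil, wr_nil, add_zero] at this
      rw [this, writhe_split hX hb]
      have h0 : writheFrom [.birth i o, .death i] n d = 0 := by
        have hbb : below [OPiece.birth i o] n d = some (n + 2, insD i o d) := by
          rw [bl_birth _ _ _ hi, bl_nil]
        have := writhe_append [.birth i o] [.death i] n d _ _ hbb
        rw [List.singleton_append] at this
        rw [this, wr_one, wr_one]
        rfl
      rw [h0]; ring
    refine ⟨mPow (-1) * (lPow (-1) * q) + -(mPow (-1) * (lPow 1 * q)), ?_, ?_⟩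
    · rw [hw1]
      refine FF.add ?_ (FF.neg ?_)
      · exact ((hq.l (-1)).m (-1)).mono (by linarith)
      · exact ((hq.l 1).m (-1)).mono (by linarith)
    · unfold CircAt at hc
      refine (mm' _).symm.trans ?_
      rw [hc, hq', add_smul, neg_smul, mul_smul, mul_smul, mul_smul, mul_smul, smul_sub,
        sub_eq_add_neg]
  base := by
    intro D hD hcl
    obtain ⟨p, p', rfl, h1, h2⟩ := inv2 hD
    obtain ⟨o, rfl⟩ := inv_birth h1
    obtain rfl := inv_death h2
    refine ⟨1, ?_, ?_⟩
    · have : writhe [.birth 0 o, .death 0] = 0 := by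
        have hbb : below [OPiece.birth 0 o] 0 noD = some (0 + 2, insD 0 o noD) := by
          rw [bl_birth _ _ _ le_rfl, bl_nil]
        have := writhe_append [.birth 0 o] [.death 0] 0 noD _ _ hbb
        rw [List.singleton_append] at this
        unfold writhe
        rw [this, wr_one, wr_one]
        rfl
      rw [this, sub_zero]
      exact FF.one
    · rw [one_smul]
      cases o
      · have := flip (X := []) (Y := []) (n := 0) (i := 0) (d := noD) (e' := noD) hΛ false rfl
          le_rfl rfl
        simpa [ocircle] using this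
      · rfl

end

theorem t_B2 (hspan : S_span) (hW1 : S_W1) (hW3 : S_W3) : S_B2 := by
  intro M _ _ Λ hΛ D hD hne
  have h := hspan _ (sk hW1 hW3 hΛ) (forget D) (closed_forget hD) (by
    intro h
    apply hne
    simpa [forget] using h)
  obtain ⟨p, hp, hp'⟩ := h D rfl hD
  refine ⟨p, fun j k hjk => ?_, hp'⟩
  have := hp j k hjk
  linarith

end Pool.Agent.Helper82_Alt.PB2
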