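import Mathlib

/-!
# Ranks of the restrictions of orthogonal complements to complementary sets of coordinates
-/

set_option autoImplicit false

namespace Pool.Agent.Helper82_Alt.PLin

open Module

variable {ι : Type} [Fintype ι] [DecidableEq ι]

/-- coordinate projection -/
def P (S : Finset ι) : (ι → ℝ) →ₗ[ℝ] (ι → ℝ) where
  toFun x := fun i => if i ∈ S then x i else 0
  map_add' := by
    intro x y
    funext i
    simp only [Pi.add_apply]
    split_ifs <;> simp
  map_smul' := by
    intro a x
    funext i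
    simp only [Pi.smul_apply, RingHom.id_apply]
    split_ifs <;> simp

omit [Fintype ι] in
theorem P_apply (S : Finset ι) (x : ι → ℝ) (i : ι) : P S x i = if i ∈ S then x i else 0 := rfl

/-- orthogonal complement -/
def orth (A : Submodule ℝ (ι → ℝ)) : Submodule ℝ (ι → ℝ) where
  carrier := {x | ∀ a ∈ A, ∑ i, x i * a i = 0}
  add_mem' := by
    intro x y hx hy a ha
    simp only [Pi.add_apply, add_mul, Finset.sum_add_distrib, hx a ha, hy a ha, add_zero]
  zero_mem' := by
    intro a _
    simp
  smul_mem' := by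
    intro c x hx a ha
    simp only [Pi.smul_apply, smul_eq_mul, mul_assoc, ← Finset.mul_sum, hx a ha, mul_zero]

omit [DecidableEq ι] in
theorem mem_orth {A : Submodule ℝ (ι → ℝ)} {x : ι → ℝ} :
    x ∈ orth A ↔ ∀ a ∈ A, ∑ i, x i * a i = 0 := Iff.rfl

omit [DecidableEq ι] in
theorem orth_le (A : Submodule ℝ (ι → ℝ)) : finrank ℝ A + finrank ℝ (orth A) ≤ Fintype.card ι := by
  have h1 : A ⊓ orth A = ⊥ := by
    rw [eq_bot_iff]
    rintro x ⟨hx, hx'⟩
    have h2 := hx' x hx
    have h3 : ∀ i ∈ Finset.univ, x i * x i = 0 :=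
      (Finset.sum_eq_zero_iff_of_nonneg (fun i _ => mul_self_nonneg (x i))).1 h2
    rw [Submodule.mem_bot]
    funext i
    exact mul_self_eq_zero.1 (h3 i (Finset.mem_univ i))
  have h2 := Submodule.finrank_sup_add_finrank_inf_eq A (orth A)
  rw [h1, finrank_bot, add_zero] at h2
  rw [← h2, ← Module.finrank_fintype_fun_eq_card ℝ]
  exact Submodule.finrank_le _

omit [DecidableEq ι] in
theorem orth_eq {U₁ U₂ : Submodule ℝ (ι → ℝ)}
    (horth : ∀ x ∈ U₁, ∀ y ∈ U₂, ∑ i, x i * y i = 0)
    (hdim : Fintype.card ι ≤ finrank ℝ U₁ + finrank ℝ U₂) : orth U₁ = U₂ := by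
  have h1 := orth_le U₁
  refine (Submodule.eq_of_le_of_finrank_le ?_ ?_).symm
  · intro y hy x hx
    rw [← horth x hx y hy]
    exact Finset.sum_congr rfl fun i _ => mul_comm _ _
  · omega

/-- vectors supported in `S` -/
def R (S : Finset ι) : Submodule ℝ (ι → ℝ) where
  carrier := {x | ∀ i, i ∉ S → x i = 0}
  add_mem' := by
    intro x y hx hy i hi
    rw [Pi.add_apply, hx i hi, hy i hi, add_zero]
  zero_mem' := fun _ _ => rfl
  smul_mem' := by
    intro c x hx i hi
    rw [Pi.smul_apply, hx i hi, smul_zero]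

theorem card_le_R (S : Finset ι) : S.card ≤ finrank ℝ (R S) := by
  let f : ({i // i ∈ S} → ℝ) →ₗ[ℝ] R S :=
    { toFun := fun x => ⟨fun i => if h : i ∈ S then x ⟨i, h⟩ else 0, fun i hi => dif_neg hi⟩
      map_add' := by
        intro x y
        ext i
        simp only [Pi.add_apply, Submodule.coe_add]
        split_ifs <;> simp
      map_smul' := by
        intro c x
        ext i
        simp only [Pi.smul_apply, Submodule.coe_smul, RingHom.id_apply]
        split_ifs <;> simp }
  have h1 : finrank ℝ ({i // i ∈ S} → ℝ) = S.card := by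
    rw [Module.finrank_fintype_fun_eq_card, Fintype.card_coe]
  rw [← h1]
  refine LinearMap.finrank_le_finrank_of_injective (f := f) ?_
  intro x y h
  funext ⟨i, hi⟩
  have h2 := congrFun (congrArg Subtype.val h) i
  simpa [f, hi] using h2

theorem main (S : Finset ι) (U₁ U₂ : Submodule ℝ (ι → ℝ))
    (horth : ∀ x ∈ U₁, ∀ y ∈ U₂, ∑ i, x i * y i = 0)
    (hdim : Fintype.card ι ≤ finrank ℝ U₁ + finrank ℝ U₂) :
    S.card + finrank ℝ (U₂.map (P Sᶜ)) ≤ finrank ℝ (U₁.map (P S)) + finrank ℝ U₂ := by
  have horth' := orth_eq horth hdim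
  set A := U₁.map (P S) with hA
  -- the second part
  set g : U₂ →ₗ[ℝ] (ι → ℝ) := (P Sᶜ).comp U₂.subtype with hg
  have h1 := LinearMap.finrank_range_add_finrank_ker g
  have h2 : LinearMap.range g = U₂.map (P Sᶜ) := by
    rw [hg, LinearMap.range_comp, Submodule.range_subtype]
  rw [h2] at h1
  -- the first part
  let L : R S →ₗ[ℝ] Module.Dual ℝ A :=
    { toFun := fun x =>
        { toFun := fun a => ∑ i, (x : ι → ℝ) i * (a : ι → ℝ) i
          map_add' := by
            intro a b
            simp only [Submodule.coe_add, Pi.add_apply, mul_add, Finset.sum_add_distrib]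
          map_smul' := by
            intro c a
            simp only [Submodule.coe_smul, Pi.smul_apply, smul_eq_mul, RingHom.id_apply,
              Finset.mul_sum]
            exact Finset.sum_congr rfl fun i _ => by ring }
      map_add' := by
        intro x y
        ext a
        simp only [LinearMap.coe_mk, AddHom.coe_mk, LinearMap.add_apply, Submodule.coe_add,
          Pi.add_apply, add_mul, Finset.sum_add_distrib]
      map_smul' := by
        intro c x
        ext a
        simp only [LinearMap.coe_mk, AddHom.coe_mk, LinearMap.smul_apply, Submodule.coe_smul,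
          Pi.smul_apply, smul_eq_mul, RingHom.id_apply, Finset.mul_sum]
        exact Finset.sum_congr rfl fun i _ => by ring }
  have h3 := LinearMap.finrank_range_add_finrank_ker L
  have h4 : finrank ℝ (LinearMap.range L) ≤ finrank ℝ A := by
    rw [← Subspace.dual_finrank_eq (K := ℝ) (V := A)]
    exact Submodule.finrank_le _
  have h5 := card_le_R S
  have h6 : finrank ℝ (LinearMap.ker L) ≤ finrank ℝ (LinearMap.ker g) := by
    have key : ∀ x : LinearMap.ker L, ((x : R S) : ι → ℝ) ∈ U₂ := by
      rintro ⟨⟨x, hx⟩, hx'⟩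
      show x ∈ U₂
      rw [← horth']
      intro u hu
      have h7 : (L ⟨x, hx⟩) ⟨P S u, Submodule.mem_map_of_mem hu⟩ = 0 := by
        rw [LinearMap.mem_ker.1 hx']; rfl
      have h8 : ∑ i, x i * (P S u) i = 0 := h7
      rw [← h8]
      refine Finset.sum_congr rfl fun i _ => ?_
      rw [P_apply]
      split_ifs with h9
      · rfl
      · rw [hx i h9, zero_mul, zero_mul]
    let f : LinearMap.ker L →ₗ[ℝ] LinearMap.ker g :=
      { toFun := fun x => ⟨⟨((x : R S) : ι → ℝ), key x⟩, by
          rw [LinearMap.mem_ker]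
          show P Sᶜ ((x : R S) : ι → ℝ) = 0
          funext i
          rw [P_apply]
          split_ifs with h9
          · exact (x : R S).2 i (by simpa using h9)
          · rfl⟩
        map_add' := fun x y => rfl
        map_smul' := fun c x => rfl }
    refine LinearMap.finrank_le_finrank_of_injective (f := f) ?_
    intro x y h
    have h10 : ((x : R S) : ι → ℝ) = ((y : R S) : ι → ℝ) :=
      congrArg (fun z : LinearMap.ker g => ((z : U₂) : ι → ℝ)) h
    exact Subtype.ext (Subtype.ext h10)
  omega

/-- a complement of the kernel -/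
theorem exists_compl {V W : Type} [AddCommGroup V] [Module ℝ V] [AddCommGroup W] [Module ℝ W]
    (T : V →ₗ[ℝ] W) : ∃ K : Submodule ℝ V, finrank ℝ K = finrank ℝ (LinearMap.range T) ∧
      ∀ x ∈ K, T x = 0 → x = 0 := by
  obtain ⟨K, hK⟩ := (LinearMap.ker T).exists_isCompl
  refine ⟨K, ?_, ?_⟩
  · refine LinearEquiv.finrank_eq ?_
    refine (LinearEquiv.ofInjective (T.comp K.subtype) ?_).trans (LinearEquiv.ofEq _ _ ?_)
    · rw [← LinearMap.ker_eq_bot, LinearMap.ker_eq_bot']
      rintro ⟨x, hx⟩ h
      have : x ∈ LinearMap.ker T ⊓ K := ⟨h, hx⟩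
      rw [hK.inf_eq_bot] at this
      exact Subtype.ext ((Submodule.mem_bot ℝ).1 this)
    · rw [LinearMap.range_comp, Submodule.range_subtype]
      apply le_antisymm
      · exact LinearMap.map_le_range
      · rintro _ ⟨x, rfl⟩
        have hx : x ∈ LinearMap.ker T ⊔ K := by rw [hK.sup_eq_top]; trivial
        obtain ⟨y, hy, z, hz, rfl⟩ := Submodule.mem_sup.1 hx
        refine ⟨z, hz, ?_⟩
        rw [map_add, LinearMap.mem_ker.1 hy, zero_add]
  · intro x hx h
    have : x ∈ LinearMap.ker T ⊓ K := ⟨h, hx⟩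
    rw [hK.inf_eq_bot] at this
    exact (Submodule.mem_bot ℝ).1 this

end Pool.Agent.Helper82_Alt.PLin
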