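import Pool.Agent.Helper82_Alt.L
import Pool.Agent.Helper82_Alt.Lin

/-!
# Colours, differences at the crossings, the images of the difference maps
-/

set_option autoImplicit false

namespace Pool.Agent.Helper82_Alt.PCol

open Pool.Agent.Helper454.Kauf (Piece Word Closed width)
open PWid Module

theorem rlab_map₂ {G H K : Type} {D : Word} {r : ℕ → ℕ → G} {s : ℕ → ℕ → H} (F : G → H → K)
    (hr : RLab D r) (hs : RLab D s) : RLab D (fun t j => F (r t j) (s t j)) := by
  refine ⟨fun j => ?_, fun t ht => ?_, fun t ht => ?_⟩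
  · simp only [hr.1 j, hs.1 j]
  · funext j; simp only [hr.2.1 t ht, hs.2.1 t ht]
  · have a := hr.2.2 t ht
    have b := hs.2.2 t ht
    revert a b
    cases D[t] with
    | birth i =>
      intro a b
      exact ⟨fun j hj => by simp only [a.1 j hj, b.1 j hj],
        fun j hj => by simp only [a.2 j hj, b.2 j hj]⟩
    | death i =>
      intro a b
      exact ⟨fun j hj => by simp only [a.1 j hj, b.1 j hj],
        fun j hj => by simp only [a.2 j hj, b.2 j hj]⟩
    | pos i => intro a b; exact fun j hj => by simp only [a j hj, b j hj]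
    | neg i => intro a b; exact fun j hj => by simp only [a j hj, b j hj]

/-- the colour of a gap -/
def col (D : Word) (t j : ℕ) : ℕ := if j ≤ wid D t then j % 2 else 0

theorem col_rlab {D : Word} (hD : Closed D) : RLab D (col D) := by
  refine ⟨fun j => ?_, fun t ht => ?_, fun t ht => ?_⟩
  · unfold col
    rw [wid_zero]
    by_cases h : j ≤ 0
    · rw [show j = 0 by omega]
    · rw [if_neg h, if_pos le_rfl]
  · funext j
    unfold col
    rw [wid_ge hD ht, wid_zero]
  · cases hp : D[t] with
    | birth i =>
      obtain ⟨a, b⟩ := step_birth hD ht hp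
      refine ⟨fun j hj => ?_, fun j hj => ?_⟩
      · unfold col; rw [b, if_pos (by omega), if_pos (by omega)]
      · unfold col; rw [b]
        by_cases h : j ≤ wid D t
        · rw [if_pos h, if_pos (by omega)]; omega
        · rw [if_neg h, if_neg (by omega)]
    | death i =>
      obtain ⟨a, b⟩ := step_death hD ht hp
      refine ⟨fun j hj => ?_, fun j hj => ?_⟩
      · unfold col; rw [if_pos (by omega), if_pos (by omega)]
      · unfold col; rw [← b]
        by_cases h : j ≤ wid D (t + 1)
        · rw [if_pos h, if_pos (by omega)]; omega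
        · rw [if_neg h, if_neg (by omega)]
    | pos i =>
      obtain ⟨a, b⟩ := step_pos hD ht hp
      intro j hj
      unfold col; rw [b]
    | neg i =>
      obtain ⟨a, b⟩ := step_neg hD ht hp
      intro j hj
      unfold col; rw [b]

/-- the mask of a colour -/
def M (c : ℕ) (D : Word) (t j : ℕ) : Bool := decide (col D t j = c)

theorem M_rlab (c : ℕ) {D : Word} (hD : Closed D) : RLab D (M c D) :=
  rlab_map₂ (fun a _ => decide (a = c)) (col_rlab hD) (col_rlab hD)

theorem col_lt (D : Word) (t j : ℕ) : col D t j < 2 := by unfold col; split_ifs <;> omega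

/-- the difference of the two corners of the colour `c` -/
def dC (c : ℕ) : Piece → (r r' : ℕ → ℝ) → ℝ
  | .pos i, r, r' => if i % 2 = c then r (i + 2) - r i else r (i + 1) - r' (i + 1)
  | .neg i, r, r' => if i % 2 = c then r (i + 2) - r i else r (i + 1) - r' (i + 1)
  | _, _, _ => 0

/-- sign -/
def sg : Piece → ℝ
  | .pos _ => 1
  | _ => -1

/-- crossings -/
abbrev Cr (D : Word) : Type := {t : Fin D.length // crI D[t] ≠ none}

theorem dC_add (c : ℕ) (p : Piece) (x x' y y' : ℕ → ℝ) :
    dC c p (x + y) (x' + y') = dC c p x x' + dC c p y y' := by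
  cases p with
  | birth i => simp [dC]
  | death i => simp [dC]
  | pos i => simp only [dC, Pi.add_apply]; split_ifs <;> ring
  | neg i => simp only [dC, Pi.add_apply]; split_ifs <;> ring

theorem dC_smul (c : ℕ) (p : Piece) (a : ℝ) (x x' : ℕ → ℝ) :
    dC c p (a • x) (a • x') = a * dC c p x x' := by
  cases p with
  | birth i => simp [dC]
  | death i => simp [dC]
  | pos i => simp only [dC, Pi.smul_apply, smul_eq_mul]; split_ifs <;> ring
  | neg i => simp only [dC, Pi.smul_apply, smul_eq_mul]; split_ifs <;> ring

/-- the differences at the crossings -/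
def dL (c : ℕ) (D : Word) : (ℕ → ℕ → ℝ) →ₗ[ℝ] (Cr D → ℝ) where
  toFun r := fun t => dC c D[t.1] (r t.1) (r (t.1 + 1))
  map_add' := fun x y => funext fun t => dC_add c D[t.1] _ _ _ _
  map_smul' := fun a x => funext fun t => dC_smul c D[t.1] a _ _

/-- the signed differences at the crossings -/
def dS (c : ℕ) (D : Word) : (ℕ → ℕ → ℝ) →ₗ[ℝ] (Cr D → ℝ) where
  toFun r := fun t => sg D[t.1] * dC c D[t.1] (r t.1) (r (t.1 + 1))
  map_add' := fun x y => funext fun t => by
    show _ = sg D[t.1] * dC c D[t.1] (x t.1) (x (t.1 + 1)) +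
      sg D[t.1] * dC c D[t.1] (y t.1) (y (t.1 + 1))
    rw [Pi.add_apply, Pi.add_apply, dC_add, mul_add]
  map_smul' := fun a x => funext fun t => by
    show _ = a * (sg D[t.1] * dC c D[t.1] (x t.1) (x (t.1 + 1)))
    rw [Pi.smul_apply, Pi.smul_apply, dC_smul]
    ring

theorem dL_apply (c : ℕ) (D : Word) (r : ℕ → ℕ → ℝ) (t : Cr D) :
    dL c D r t = dC c D[t.1] (r t.1) (r (t.1 + 1)) := rfl

theorem dS_apply (c : ℕ) (D : Word) (r : ℕ → ℕ → ℝ) (t : Cr D) :
    dS c D r t = sg D[t.1] * dC c D[t.1] (r t.1) (r (t.1 + 1)) := rfl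

theorem sg_ne (p : Piece) : sg p ≠ 0 := by cases p <;> simp [sg]

/-- `dC` only depends on the corners with the right colour -/
theorem dC_congr {c : ℕ} (hc : c < 2) {D : Word} (hD : Closed D) {r s : ℕ → ℕ → ℝ}
    (h : ∀ t j, col D t j = c → r t j = s t j) (t : ℕ) (ht : t < D.length) :
    dC c D[t] (r t) (r (t + 1)) = dC c D[t] (s t) (s (t + 1)) := by
  cases hp : D[t] with
  | birth i => rfl
  | death i => rfl
  | pos i =>
    obtain ⟨a, b⟩ := step_pos hD ht hp
    simp only [dC]
    split_ifs with h1
    · rw [h t (i + 2) (by unfold col; rw [if_pos a]; omega),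
        h t i (by unfold col; rw [if_pos (by omega)]; omega)]
    · rw [h t (i + 1) (by unfold col; rw [if_pos (by omega)]; omega),
        h (t + 1) (i + 1) (by unfold col; rw [if_pos (by omega)]; omega)]
  | neg i =>
    obtain ⟨a, b⟩ := step_neg hD ht hp
    simp only [dC]
    split_ifs with h1
    · rw [h t (i + 2) (by unfold col; rw [if_pos a]; omega),
        h t i (by unfold col; rw [if_pos (by omega)]; omega)]
    · rw [h t (i + 1) (by unfold col; rw [if_pos (by omega)]; omega),
        h (t + 1) (i + 1) (by unfold col; rw [if_pos (by omega)]; omega)]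

/-- `dC` vanishes on labellings of the other colour -/
theorem dC_zero {c : ℕ} (hc : c < 2) {D : Word} (hD : Closed D) {r : ℕ → ℕ → ℝ}
    (hr : r ∈ LL D (M (1 - c) D)) (t : ℕ) (ht : t < D.length) :
    dC c D[t] (r t) (r (t + 1)) = 0 := by
  rw [dC_congr hc hD (s := fun _ _ => 0) ?_ t ht]
  · cases D[t] <;> simp [dC]
  · intro t j htj
    exact hr.2 t j (by unfold M; rw [htj]; simp; omega)

/-- restriction of a labelling to one colour -/
theorem restrict_mem (c : ℕ) {D : Word} (hD : Closed D) {r : ℕ → ℕ → ℝ} (hr : RLab D r) :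
    (fun t j => if M c D t j then r t j else 0) ∈ LL D (M c D) := by
  refine ⟨rlab_map₂ (fun b x => if b then x else (0 : ℝ)) (M_rlab c hD) hr, fun t j h => ?_⟩
  show (if M c D t j then r t j else 0) = 0
  rw [h]
  rfl

theorem finrank_le_one_of {A : Type} [AddCommGroup A] [Module ℝ A] (f : A →ₗ[ℝ] ℝ)
    (h : ∀ x, f x = 0 → x = 0) : finrank ℝ A ≤ 1 := by
  rw [← finrank_self ℝ]
  exact LinearMap.finrank_le_finrank_of_injective (f := f) ((injective_iff_map_eq_zero f).2 h)

/-- the kernel of the difference map on labellings of the colour `c` -/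
theorem ker_le {c : ℕ} (hc : c < 2) {D : Word} (hD : Closed D) (hne : D ≠ [])
    (hcon : Connected D) :
    finrank ℝ (LinearMap.ker ((dL c D).comp (LL D (M c D)).subtype)) ≤ 1 := by
  let f : LinearMap.ker ((dL c D).comp (LL D (M c D)).subtype) →ₗ[ℝ] ℝ :=
    { toFun := fun r => ((r : LL D (M c D)) : ℕ → ℕ → ℝ) 1 c
      map_add' := fun x y => rfl
      map_smul' := fun a x => rfl }
  refine finrank_le_one_of (A := LinearMap.ker ((dL c D).comp (LL D (M c D)).subtype)) f ?_
  rintro ⟨⟨r, hr⟩, hr'⟩ h
  have h1 : r 1 c = 0 := h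
  have hlen : 0 < D.length := List.length_pos_iff.2 hne
  have hw1 : wid D 1 = 2 := by
    cases hp : D[0] with
    | birth i => exact (step_birth hD hlen hp).2
    | death i => have := (step_death hD hlen hp).1; rw [wid_zero] at this; omega
    | pos i => have := (step_pos hD hlen hp).1; rw [wid_zero] at this; omega
    | neg i => have := (step_neg hD hlen hp).1; rw [wid_zero] at this; omega
  obtain ⟨v, hv⟩ := PL.t_L3 (1 - c) D r (by omega) hD hne hcon hr.1 (by
    intro t ht
    cases hp : D[t] with
    | birth i => trivial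
    | death i => trivial
    | pos i =>
      have h2 := congrFun (LinearMap.mem_ker.1 hr') ⟨⟨t, ht⟩, by
        show crI D[t] ≠ none
        rw [hp]; simp [crI]⟩
      have h3 : dC c D[t] (r t) (r (t + 1)) = 0 := h2
      rw [hp] at h3
      simp only [dC] at h3
      simp only [EqB]
      split_ifs at h3 ⊢ with h4 h5 h6
      · omega
      · exact sub_eq_zero.1 h3
      · exact (sub_eq_zero.1 h3).symm
      · omega
    | neg i =>
      have h2 := congrFun (LinearMap.mem_ker.1 hr') ⟨⟨t, ht⟩, by
        show crI D[t] ≠ none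
        rw [hp]; simp [crI]⟩
      have h3 : dC c D[t] (r t) (r (t + 1)) = 0 := h2
      rw [hp] at h3
      simp only [dC] at h3
      simp only [EqB]
      split_ifs at h3 ⊢ with h4 h5 h6
      · omega
      · exact sub_eq_zero.1 h3
      · exact (sub_eq_zero.1 h3).symm
      · omega)
  have hv0 : v = 0 := by
    rw [← h1, hv 1 c (by omega) (by omega)]
  ext1
  ext1
  show r = 0
  funext t j
  show r t j = 0
  by_cases h2 : M c D t j = true
  · by_cases h3 : j ≤ wid D t
    · rw [hv t j h3 ?_, hv0]
      unfold M col at h2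
      rw [if_pos h3] at h2
      have := of_decide_eq_true h2
      omega
    · rw [rlab_right hD hr.1 t j (by omega), ← rlab_left hr.1 t, hv t 0 (by omega) ?_, hv0]
      unfold M col at h2
      rw [if_neg h3] at h2
      have := of_decide_eq_true h2
      omega
  · exact hr.2 t j (by simpa using h2)

theorem rank_ge {c : ℕ} (hc : c < 2) {D : Word} (hD : Closed D) (hne : D ≠ [])
    (hcon : Connected D) :
    PP D (M c D) ≤ finrank ℝ (LinearMap.range ((dL c D).comp (LL D (M c D)).subtype)) + 1 := by
  obtain ⟨hf, h1⟩ := PL.t_L2 D (M c D) hD hne (M_rlab c hD)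
  have h2 := LinearMap.finrank_range_add_finrank_ker ((dL c D).comp (LL D (M c D)).subtype)
  have h3 := ker_le hc hD hne hcon
  have h4 : (finrank ℝ (LL D (M c D)) : ℤ) ≤
      finrank ℝ (LinearMap.range ((dL c D).comp (LL D (M c D)).subtype)) + 1 := by
    exact_mod_cast (by omega : finrank ℝ (LL D (M c D)) ≤
      finrank ℝ (LinearMap.range ((dL c D).comp (LL D (M c D)).subtype)) + 1)
  linarith

/-- the same for the signed differences -/
theorem range_dS (c : ℕ) (D : Word) :
    finrank ℝ (LinearMap.range ((dS c D).comp (LL D (M c D)).subtype)) =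
      finrank ℝ (LinearMap.range ((dL c D).comp (LL D (M c D)).subtype)) := by
  let e : (Cr D → ℝ) ≃ₗ[ℝ] (Cr D → ℝ) :=
    { toFun := fun x t => sg D[t.1] * x t
      map_add' := by intro x y; funext t; simp only [Pi.add_apply]; ring
      map_smul' := by
        intro a x; funext t; simp only [Pi.smul_apply, smul_eq_mul, RingHom.id_apply]; ring
      invFun := fun x t => (sg D[t.1])⁻¹ * x t
      left_inv := by
        intro x; funext t
        show (sg D[t.1])⁻¹ * (sg D[t.1] * x t) = x t
        rw [← mul_assoc, inv_mul_cancel₀ (sg_ne _), one_mul]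
      right_inv := by
        intro x; funext t
        show sg D[t.1] * ((sg D[t.1])⁻¹ * x t) = x t
        rw [← mul_assoc, mul_inv_cancel₀ (sg_ne _), one_mul] }
  have h1 : (dS c D).comp (LL D (M c D)).subtype =
      (e : (Cr D → ℝ) →ₗ[ℝ] (Cr D → ℝ)).comp ((dL c D).comp (LL D (M c D)).subtype) := rfl
  rw [h1, LinearMap.range_comp]
  exact LinearEquiv.finrank_map_eq e _

/-- sums over the crossings -/
theorem sum_cr {A : Type} [AddCommMonoid A] (D : Word) (f : Fin D.length → A)
    (h : ∀ t, crI D[t] = none → f t = 0) : ∑ t : Cr D, f t.1 = ∑ t : Fin D.length, f t := by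
  rw [← Finset.sum_subtype (Finset.univ.filter fun t : Fin D.length => crI D[t] ≠ none)
    (fun x => by simp) f]
  refine Finset.sum_filter_of_ne fun t _ h1 h2 => h1 (h t h2)

theorem sum_crs (D : Word) : (∑ t : Fin D.length, if crI D[t] = none then 0 else 1) = crs D := by
  induction D with
  | nil => rfl
  | cons p w ih =>
    have h3 : (∑ t : Fin (p :: w).length, if crI (p :: w)[t] = none then 0 else 1) =
        (if crI p = none then 0 else 1) +
          ∑ t : Fin w.length, if crI w[t] = none then 0 else 1 := by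
      exact Fin.sum_univ_succ (n := w.length)
        (fun t : Fin (w.length + 1) => if crI (p :: w)[t] = none then 0 else 1)
    rw [h3, ih]
    cases p <;> simp [crI, crs, add_comm]

theorem card_cr (D : Word) : Fintype.card (Cr D) = crs D := by
  have h1 : Fintype.card (Cr D) = ∑ t : Cr D, if crI D[t.1] = none then 0 else 1 := by
    rw [Finset.sum_congr rfl (g := fun _ => 1) (fun t _ => if_neg t.2)]
    simp
  rw [h1, ← sum_crs D]
  exact sum_cr D (fun t => if crI D[t] = none then 0 else 1) (fun t h => if_pos h)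

end Pool.Agent.Helper82_Alt.PCol
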