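import Pool.Agent.Helper82_Alt.Spec

/-!
# D1: the path bound for the vertex model
-/

set_option autoImplicit false

namespace Pool.Agent.Helper82_Alt.PD1

open Pool.Agent.Helper82_Alt
open Pool.Agent.Helper454.Kauf (Piece Word Closed)
open Pool.Agent.Helper454.Wh (OPiece OWord below noD forget OClosed)

variable {N : ℕ}

/-! ### heights of a state -/

/-- signed value of a strand -/
def sl (x : Bool × Fin N) : ℤ := if x.1 then lamZ x.2 else -lamZ x.2

/-- heights -/
def ht : VS N → ℕ → ℤ
  | _, 0 => 0
  | [], _ + 1 => 0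
  | x :: s, j + 1 => sl x + ht s j

@[simp] theorem ht_zero (s : VS N) : ht s 0 = 0 := by cases s <;> rfl

@[simp] theorem ht_nil (j : ℕ) : ht ([] : VS N) j = 0 := by cases j <;> rfl

@[simp] theorem ht_cons (x : Bool × Fin N) (s : VS N) (j : ℕ) :
    ht (x :: s) (j + 1) = sl x + ht s j := rfl

/-- the potential of a state -/
def pot : VS N → ℤ
  | [] => 0
  | x :: s => lamZ x.2 + pot s

theorem abs_lamZ (c : Fin N) : |lamZ c| ≤ N - 1 := by
  unfold lamZ
  have h1 : ((c : ℕ) : ℤ) + 1 ≤ N := by exact_mod_cast c.2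
  have h2 : (0 : ℤ) ≤ ((c : ℕ) : ℤ) := Int.natCast_nonneg _
  rw [abs_le]; constructor <;> linarith

theorem ht_jump (hN : 1 ≤ N) (s : VS N) (j : ℕ) : |ht s (j + 1) - ht s j| ≤ N - 1 := by
  have hN' : (1 : ℤ) ≤ N := by exact_mod_cast hN
  induction s generalizing j with
  | nil => simp; linarith
  | cons x s ih =>
    rcases j with _ | j
    · simp only [zero_add, ht_cons, ht_zero, add_zero, sub_zero]
      unfold sl
      split_ifs
      · exact abs_lamZ _
      · rw [abs_neg]; exact abs_lamZ _
    · rw [ht_cons, ht_cons]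
      have := ih j
      rwa [show sl x + ht s (j + 1) - (sl x + ht s j) = ht s (j + 1) - ht s j by ring]

/-! ### steps of states -/

/-- a local relation between states, after the first `i` strands -/
def StI (L : VS N → VS N → Prop) : ℕ → VS N → VS N → Prop
  | 0, s, s' => L s s'
  | i + 1, x :: s, y :: s' => x = y ∧ StI L i s s'
  | _ + 1, _, _ => False

def LB (b : Bool) (s s' : VS N) : Prop := ∃ c, s' = (b, c) :: (!b, c) :: s

def LD (s s' : VS N) : Prop := ∃ b c, s = (b, c) :: (!b, c) :: s'

def LC (sg : Bool) (s s' : VS N) : Prop :=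
  ∃ b c b' d st, s = (b, c) :: (b', d) :: st ∧
    (s' = (b', d) :: (b, c) :: st ∨
      (b = b' ∧ ordP sg b c d ∧ s' = (b, c) :: (b, d) :: st) ∨
      (b' = !b ∧ c = d ∧ ∃ e, ordP sg b c e ∧ s' = (!b, e) :: (b, e) :: st))

/-- steps -/
def St : OPiece → VS N → VS N → Prop
  | .birth i b => StI (LB b) i
  | .death i => StI LD i
  | .pos i => StI (LC false) i
  | .neg i => StI (LC true) i

/-- move the index of a piece -/
def pcB (i : ℕ) : Piece := .birth i
def pcD (i : ℕ) : Piece := .death i
def pcP (i : ℕ) : Piece := .pos i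
def pcN (i : ℕ) : Piece := .neg i

/-- heights follow the labelling rules -/
def Good (pc : ℕ → Piece) (L : VS N → VS N → Prop) : Prop :=
  (∀ s s', L s s' → RStep (pc 0) (ht s) (ht s')) ∧
  (∀ i (x : Bool × Fin N) s s', RStep (pc i) (ht s) (ht s') →
    RStep (pc (i + 1)) (ht (x :: s)) (ht (x :: s'))) ∧
  ∀ i (x : Bool × Fin N) s s',
    RsP (pc (i + 1)) (ht (x :: s)) (ht (x :: s')) = RsP (pc i) (ht s) (ht s')

theorem Good.rstep {pc : ℕ → Piece} {L : VS N → VS N → Prop} (h : Good pc L) (i : ℕ) :
    ∀ s s', StI L i s s' → RStep (pc i) (ht s) (ht s') := by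
  induction i with
  | zero => exact h.1
  | succ i ih =>
    intro s s' hs
    rcases s with _ | ⟨x, s⟩
    · simp [StI] at hs
    rcases s' with _ | ⟨y, s'⟩
    · simp [StI] at hs
    obtain ⟨rfl, hs⟩ := hs
    exact h.2.1 i x s s' (ih s s' hs)

theorem sl_not (b : Bool) (c : Fin N) : sl (!b, c) = - sl (b, c) := by
  cases b <;> simp [sl]

theorem good_B (b : Bool) : Good (N := N) pcB (LB b) := by
  refine ⟨?_, ?_, ?_⟩
  · rintro s s' ⟨c, rfl⟩
    refine ⟨fun j hj => ?_, fun j _ => ?_⟩
    · have : j = 0 := by omega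
      subst this; simp
    · rw [ht_cons, ht_cons, sl_not]; ring
  · rintro i x s s' ⟨h1, h2⟩
    refine ⟨fun j hj => ?_, fun j hj => ?_⟩
    · rcases j with _ | j
      · simp
      · rw [ht_cons, ht_cons, h1 j (by omega)]
    · rcases j with _ | j
      · omega
      · rw [show j + 1 + 2 = (j + 2) + 1 by ring, ht_cons, ht_cons, h2 j (by omega)]
  · intro i x s s'
    simp only [pcB, RsP, ht_cons]; ring

theorem good_D : Good (N := N) pcD LD := by
  refine ⟨?_, ?_, ?_⟩
  · rintro s s' ⟨b, c, rfl⟩
    refine ⟨fun j hj => ?_, fun j _ => ?_⟩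
    · have : j = 0 := by omega
      subst this; simp
    · rw [ht_cons, ht_cons, sl_not]; ring
  · rintro i x s s' ⟨h1, h2⟩
    refine ⟨fun j hj => ?_, fun j hj => ?_⟩
    · rcases j with _ | j
      · simp
      · rw [ht_cons, ht_cons, h1 j (by omega)]
    · rcases j with _ | j
      · omega
      · rw [show j + 1 + 2 = (j + 2) + 1 by ring, ht_cons, ht_cons, h2 j (by omega)]
  · intro i x s s'
    simp only [pcD, RsP, ht_cons]; ring

theorem LC_ht {sg : Bool} {s s' : VS N} (h : LC sg s s') (j : ℕ) (hj : j ≠ 1) :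
    ht s' j = ht s j := by
  obtain ⟨b, c, b', d, st, rfl, h⟩ := h
  rcases j with _ | _ | j
  · simp
  · exact absurd rfl hj
  · rcases h with rfl | ⟨rfl, -, rfl⟩ | ⟨rfl, rfl, e, -, rfl⟩
    · simp only [ht_cons]; ring
    · simp only [ht_cons]
    · simp only [ht_cons, sl_not]; ring

theorem good_P : Good (N := N) pcP (LC false) := by
  refine ⟨?_, ?_, ?_⟩
  · intro s s' h j hj
    exact LC_ht h j hj
  · intro i x s s' h j hj
    rcases j with _ | j
    · simp
    · rw [ht_cons, ht_cons, h j (by omega)]
  · intro i x s s'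
    simp only [pcP, RsP]

theorem good_N : Good (N := N) pcN (LC true) := by
  refine ⟨?_, ?_, ?_⟩
  · intro s s' h j hj
    exact LC_ht h j hj
  · intro i x s s' h j hj
    rcases j with _ | j
    · simp
    · rw [ht_cons, ht_cons, h j (by omega)]
  · intro i x s s'
    simp only [pcN, RsP, ht_cons]; ring

/-! ### the bound for one piece -/

/-- `g` is bounded along the steps `L` -/
def Bdd (v C : ℝ) (pc : ℕ → Piece) (L : VS N → VS N → Prop) (i : ℕ) (g : VF N → VF N) : Prop :=
  ∀ (f : VF N) (s : VS N) (X : ℝ), 0 ≤ X →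
    (∀ s', StI L i s s' →
      |f s'| ≤ X * v ^ (-(2 * RsP (pc i) (ht s) (ht s') + pot s'))) →
    |g f s| ≤ C * (X * v ^ (-pot s))

theorem Bdd_atPos {v C : ℝ} (hv : 1 < v) (hC : 0 ≤ C) {pc : ℕ → Piece} {L : VS N → VS N → Prop}
    (hg : Good pc L) {g : VF N → VF N} (h : Bdd v C pc L 0 g) (i : ℕ) :
    Bdd v C pc L i (atPos g i) := by
  have hv0 : 0 < v := by linarith
  induction i with
  | zero =>
    intro f s X hX hf
    exact h f s X hX hf
  | succ i ih =>
    intro f s X hX hf
    rcases s with _ | ⟨x, s⟩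
    · simp only [atPos, abs_zero]
      positivity
    · simp only [atPos]
      have h1 := ih (fun r => f (x :: r)) s (X * v ^ (-lamZ x.2)) (by positivity) (by
        intro s' hs'
        have h2 := hf (x :: s') ⟨rfl, hs'⟩
        rw [hg.2.2] at h2
        refine h2.trans (le_of_eq ?_)
        rw [mul_assoc, ← zpow_add₀ hv0.ne', pot]
        congr 2
        ring)
      refine h1.trans (le_of_eq ?_)
      rw [mul_assoc X, ← zpow_add₀ hv0.ne', pot]
      congr 3
      ring

theorem wB_eq (v : ℝ) (b : Bool) (c : Fin N) :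
    wB (v ^ 4) b c = v ^ (if b then 4 * lamZ c else 0) := by
  unfold wB
  split_ifs
  · rw [← zpow_natCast v 4, ← zpow_mul]; rfl
  · simp

theorem wD_eq (v : ℝ) (b : Bool) (c : Fin N) :
    wD (v ^ 4) b c = v ^ (if b then 0 else -(4 * lamZ c)) := by
  unfold wD
  split_ifs
  · simp
  · rw [← zpow_natCast v 4, ← zpow_mul]
    congr 1
    push_cast
    ring

theorem bdd_B {v : ℝ} (hv : 1 < v) (b : Bool) :
    Bdd (N := N) v (v ^ 4 * (N + 1)) pcB (LB b) 0 (birthL (v ^ 4) b) := by
  have hv0 : 0 < v := by linarith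
  have hq : 1 ≤ v ^ 4 := one_le_pow₀ hv.le
  intro f s X hX hf
  have h1 : ∀ c : Fin N, |wB (v ^ 4) b c * f ((b, c) :: (!b, c) :: s)| ≤ X * v ^ (-pot s) := by
    intro c
    have h2 := hf _ ⟨c, rfl⟩
    rw [abs_mul, wB_eq, abs_of_pos (zpow_pos hv0 _)]
    refine (mul_le_mul_of_nonneg_left h2 (zpow_pos hv0 _).le).trans (le_of_eq ?_)
    rw [mul_left_comm, ← zpow_add₀ hv0.ne']
    congr 2
    simp only [pcB, RsP, ht_cons, ht_zero, pot]
    cases b <;> simp [sl] <;> ring
  calc |birthL (v ^ 4) b f s| ≤ ∑ c : Fin N, |wB (v ^ 4) b c * f ((b, c) :: (!b, c) :: s)| :=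
        Finset.abs_sum_le_sum_abs _ _
    _ ≤ ∑ _c : Fin N, X * v ^ (-pot s) := Finset.sum_le_sum fun c _ => h1 c
    _ = N * (X * v ^ (-pot s)) := by simp
    _ ≤ (v ^ 4 * (N + 1)) * (X * v ^ (-pot s)) := by
        refine mul_le_mul_of_nonneg_right ?_ (by positivity)
        have hN : (0 : ℝ) ≤ N := Nat.cast_nonneg N
        nlinarith

theorem bdd_D {v : ℝ} (hv : 1 < v) :
    Bdd (N := N) v (v ^ 4 * (N + 1)) pcD LD 0 (deathL (v ^ 4)) := by
  have hv0 : 0 < v := by linarith
  have hq : 1 ≤ v ^ 4 := one_le_pow₀ hv.le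
  have hN : (0 : ℝ) ≤ N := Nat.cast_nonneg N
  have hC : 1 ≤ v ^ 4 * (N + 1 : ℝ) := by nlinarith
  intro f s X hX hf
  have hnn : 0 ≤ X * v ^ (-pot s) := by positivity
  have hCnn : 0 ≤ v ^ 4 * (N + 1 : ℝ) * (X * v ^ (-pot s)) := by positivity
  match s, hf, hnn, hCnn with
  | [], _, _, hCnn => simpa [deathL] using hCnn
  | [x], _, _, hCnn => simpa [deathL] using hCnn
  | (b, c) :: (b', d) :: s, hf, hnn, hCnn =>
    simp only [deathL]
    by_cases h : b' = !b ∧ d = c
    · obtain ⟨rfl, rfl⟩ := h
      rw [if_pos ⟨rfl, rfl⟩]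
      have h2 := hf s ⟨b, d, rfl⟩
      rw [abs_mul, wD_eq, abs_of_pos (zpow_pos hv0 _)]
      refine (mul_le_mul_of_nonneg_left h2 (zpow_pos hv0 _).le).trans ?_
      have h3 : v ^ (if b then 0 else -(4 * lamZ d)) *
          (X * v ^ (-(2 * RsP (pcD 0) (ht ((b, d) :: (!b, d) :: s)) (ht s) + pot s))) =
          X * v ^ (-pot ((b, d) :: (!b, d) :: s)) := by
        rw [mul_left_comm, ← zpow_add₀ hv0.ne']
        congr 2
        simp only [pcD, RsP, zero_add, ht_cons, ht_zero, pot]
        cases b <;> simp [sl] <;> ring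
      rw [h3]
      exact le_mul_of_one_le_left hnn hC
    · rw [if_neg h, abs_zero]
      exact hCnn

theorem lamZ_le {c d : Fin N} (h : c < d) : lamZ c ≤ lamZ d := by
  unfold lamZ
  have : ((c : ℕ) : ℤ) < ((d : ℕ) : ℤ) := by exact_mod_cast h
  linarith

theorem bdd_C {v : ℝ} (hv : 1 < v) (hN1 : 1 ≤ N) (sg : Bool) :
    Bdd (N := N) v (v ^ 4 * (N + 1)) (if sg then pcN else pcP) (LC sg) 0
      (crossL (v ^ 4) sg) := by
  have hv0 : 0 < v := by linarith
  have hq : 1 ≤ v ^ 4 := one_le_pow₀ hv.le
  have hN : (1 : ℝ) ≤ N := by exact_mod_cast hN1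
  have hqi : 0 ≤ (v ^ 4)⁻¹ := by positivity
  have hqi1 : (v ^ 4)⁻¹ ≤ 1 := inv_le_one_of_one_le₀ hq
  have hC : 1 ≤ v ^ 4 * (N + 1 : ℝ) := by nlinarith
  intro f s X hX hf
  have hnn : 0 ≤ X * v ^ (-pot s) := by positivity
  have hCnn : 0 ≤ v ^ 4 * (N + 1 : ℝ) * (X * v ^ (-pot s)) := by positivity
  match s, hf, hnn, hCnn with
  | [], _, _, hCnn => simpa [crossL] using hCnn
  | [x], _, _, hCnn => simpa [crossL] using hCnn
  | (b, c) :: (b', d) :: st, hf, hnn, hCnn =>
    -- the straight state
    have hstr : |f ((b', d) :: (b, c) :: st)| ≤ X * v ^ (-pot ((b, c) :: (b', d) :: st)) := by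
      refine (hf _ ⟨b, c, b', d, st, rfl, Or.inl rfl⟩).trans (le_of_eq ?_)
      congr 3
      have h1 : RsP ((if sg then pcN else pcP) 0) (ht ((b, c) :: (b', d) :: st))
          (ht ((b', d) :: (b, c) :: st)) = 0 := by
        cases sg
        · simp [pcP, RsP]
        · simp only [if_true, pcN, RsP, zero_add, ht_cons, ht_zero]; ring
      rw [h1]
      simp only [pot]; ring
    simp only [crossL]
    by_cases hb : b = b'
    · subst hb
      rw [if_pos rfl]
      by_cases hcd : c = d
      · subst hcd
        rw [if_pos rfl, abs_mul]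
        have h1 : |if sg then (v ^ 4)⁻¹ else v ^ 4| ≤ v ^ 4 := by
          split_ifs
          · rw [abs_of_nonneg hqi]; linarith
          · rw [abs_of_nonneg (by positivity)]
        calc _ ≤ v ^ 4 * (X * v ^ (-pot ((b, c) :: (b, c) :: st))) :=
              mul_le_mul h1 hstr (abs_nonneg _) (by positivity)
          _ ≤ _ := mul_le_mul_of_nonneg_right (by nlinarith) hnn
      · rw [if_neg hcd]
        have h2 : |if ordP sg b c d then
            (if sg then -(v ^ 4 - (v ^ 4)⁻¹) else v ^ 4 - (v ^ 4)⁻¹) * f ((b, c) :: (b, d) :: st)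
            else 0| ≤ v ^ 4 * (X * v ^ (-pot ((b, c) :: (b, d) :: st))) := by
          by_cases ho : ordP sg b c d
          · rw [if_pos ho, abs_mul]
            have h1 : |if sg then -(v ^ 4 - (v ^ 4)⁻¹) else v ^ 4 - (v ^ 4)⁻¹| ≤ v ^ 4 := by
              split_ifs
              · rw [abs_neg, abs_of_nonneg (by linarith)]; linarith
              · rw [abs_of_nonneg (by linarith)]; linarith
            refine mul_le_mul h1 ?_ (abs_nonneg _) (by positivity)
            refine (hf _ ⟨b, c, b, d, st, rfl, Or.inr (Or.inl ⟨rfl, ho, rfl⟩)⟩).trans ?_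
            refine mul_le_mul_of_nonneg_left (zpow_le_zpow_right₀ hv.le ?_) hX
            have h3 : 0 ≤ RsP ((if sg then pcN else pcP) 0) (ht ((b, c) :: (b, d) :: st))
                (ht ((b, c) :: (b, d) :: st)) := by
              cases sg
              · simp [pcP, RsP]
              · simp only [if_true, pcN, RsP, zero_add, ht_cons, ht_zero]
                unfold ordP at ho
                cases b
                · simp at ho
                  have := lamZ_le ho
                  simp [sl]; linarith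
                · simp at ho
                  have := lamZ_le ho
                  simp [sl]; linarith
            linarith
          · rw [if_neg ho, abs_zero]; positivity
        calc _ ≤ _ := abs_add_le _ _
          _ ≤ X * v ^ (-pot ((b, c) :: (b, d) :: st)) +
              v ^ 4 * (X * v ^ (-pot ((b, c) :: (b, d) :: st))) := add_le_add hstr h2
          _ = (1 + v ^ 4) * (X * v ^ (-pot ((b, c) :: (b, d) :: st))) := by ring
          _ ≤ _ := mul_le_mul_of_nonneg_right (by nlinarith) hnn
    · rw [if_neg hb]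
      have hb' : b' = !b := by cases b <;> cases b' <;> simp_all
      subst hb'
      by_cases hcd : c = d
      · subst hcd
        rw [if_pos rfl]
        have h1 : |(if sg then v ^ 4 else (v ^ 4)⁻¹) * f ((!b, c) :: (b, c) :: st)| ≤
            v ^ 4 * (X * v ^ (-pot ((b, c) :: (!b, c) :: st))) := by
          rw [abs_mul]
          refine mul_le_mul ?_ hstr (abs_nonneg _) (by positivity)
          split_ifs
          · rw [abs_of_nonneg (by positivity)]
          · rw [abs_of_nonneg hqi]; linarith
        have h2 : ∀ e : Fin N, |if ordP sg b c e then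
            wB (v ^ 4) (!b) e * wD (v ^ 4) b c * f ((!b, e) :: (b, e) :: st) else 0| ≤
            X * v ^ (-pot ((b, c) :: (!b, c) :: st)) := by
          intro e
          by_cases ho : ordP sg b c e
          · rw [if_pos ho, abs_mul, wB_eq, wD_eq, ← zpow_add₀ hv0.ne',
              abs_of_pos (zpow_pos hv0 _)]
            refine (mul_le_mul_of_nonneg_left
              (hf _ ⟨b, c, !b, c, st, rfl, Or.inr (Or.inr ⟨rfl, rfl, e, ho, rfl⟩)⟩)
              (zpow_pos hv0 _).le).trans ?_
            rw [mul_left_comm, ← zpow_add₀ hv0.ne']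
            refine mul_le_mul_of_nonneg_left (zpow_le_zpow_right₀ hv.le ?_) hX
            unfold ordP at ho
            cases sg
            · cases b
              · simp at ho
                have := lamZ_le ho
                simp [pcP, RsP, pot]; linarith
              · simp at ho
                have := lamZ_le ho
                simp [pcP, RsP, pot]; linarith
            · cases b
              · simp [pcN, RsP, pot, sl]; linarith
              · simp [pcN, RsP, pot, sl]; linarith
          · rw [if_neg ho, abs_zero]; exact hnn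
        have h3 : |(if sg then v ^ 4 - (v ^ 4)⁻¹ else -(v ^ 4 - (v ^ 4)⁻¹)) *
            ∑ e : Fin N, (if ordP sg b c e then
              wB (v ^ 4) (!b) e * wD (v ^ 4) b c * f ((!b, e) :: (b, e) :: st) else 0)| ≤
            v ^ 4 * (N * (X * v ^ (-pot ((b, c) :: (!b, c) :: st)))) := by
          rw [abs_mul]
          refine mul_le_mul ?_ ?_ (abs_nonneg _) (by positivity)
          · split_ifs
            · rw [abs_of_nonneg (by linarith)]; linarith
            · rw [abs_neg, abs_of_nonneg (by linarith)]; linarith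
          · refine (Finset.abs_sum_le_sum_abs _ _).trans
              ((Finset.sum_le_sum fun e _ => h2 e).trans (le_of_eq ?_))
            simp
        calc _ ≤ _ := abs_add_le _ _
          _ ≤ v ^ 4 * (X * v ^ (-pot ((b, c) :: (!b, c) :: st))) +
              v ^ 4 * (N * (X * v ^ (-pot ((b, c) :: (!b, c) :: st)))) := add_le_add h1 h3
          _ = _ := by ring
      · rw [if_neg hcd]
        exact hstr.trans (le_mul_of_one_le_left hnn hC)

/-! ### induction over the word -/

/-- the piece of the unoriented diagram -/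
theorem piece_bdd {v : ℝ} (hv : 1 < v) (hN1 : 1 ≤ N) (p : OPiece) (f : VF N) (s : VS N) (X : ℝ)
    (hX : 0 ≤ X) (hf : ∀ s', St p s s' →
      |f s'| ≤ X * v ^ (-(2 * RsP p.forget (ht s) (ht s') + pot s'))) :
    |opV (v ^ 4) N p f s| ≤ (v ^ 4 * (N + 1)) * (X * v ^ (-pot s)) := by
  have hC : (0 : ℝ) ≤ v ^ 4 * (N + 1) := by positivity
  cases p with
  | birth i b => exact Bdd_atPos hv hC (good_B b) (bdd_B hv b) i f s X hX hf
  | death i => exact Bdd_atPos hv hC good_D (bdd_D hv) i f s X hX hf
  | pos i => exact Bdd_atPos hv hC good_P (bdd_C hv hN1 false) i f s X hX hf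
  | neg i => exact Bdd_atPos hv hC good_N (bdd_C hv hN1 true) i f s X hX hf

theorem piece_rstep (p : OPiece) (s s' : VS N) (h : St p s s') :
    RStep p.forget (ht s) (ht s') := by
  cases p with
  | birth i b => exact (good_B b).rstep i s s' h
  | death i => exact good_D.rstep i s s' h
  | pos i => exact good_P.rstep i s s' h
  | neg i => exact good_N.rstep i s s' h

/-- `st` is a path of states through `w` -/
def IsPath (w : OWord) (st : ℕ → VS N) : Prop :=
  (∀ t (h : t < w.length), St w[t] (st t) (st (t + 1))) ∧ st w.length = []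

/-- twice the exponent of a path -/
def Ex (w : OWord) (st : ℕ → VS N) : ℤ :=
  ∑ t : Fin w.length, RsP (w[t]).forget (ht (st t)) (ht (st (t + 1)))

/-- path with a new first state -/
def consP (s : VS N) (st : ℕ → VS N) : ℕ → VS N
  | 0 => s
  | t + 1 => st t

theorem word_bdd {v : ℝ} (hv : 1 < v) (hN1 : 1 ≤ N) (w : OWord) : ∀ (s : VS N) (B : ℤ),
    (∀ st : ℕ → VS N, st 0 = s → IsPath w st → Ex w st ≤ B) →
    |opWV (v ^ 4) N w fz s| ≤ (v ^ 4 * (N + 1)) ^ w.length * v ^ (2 * B - pot s) := by
  have hv0 : 0 < v := by linarith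
  induction w with
  | nil =>
    intro s B h
    simp only [opWV, fz, List.length_nil, pow_zero, one_mul]
    split_ifs with hs
    · subst hs
      have h1 := h (fun _ => []) rfl ⟨fun t ht => absurd ht (Nat.not_lt_zero _), rfl⟩
      simp only [Ex, List.length_nil, Finset.univ_eq_empty, Finset.sum_empty] at h1
      rw [abs_one]
      refine one_le_zpow₀ hv.le ?_
      simp only [pot]; linarith
    · rw [abs_zero]; positivity
  | cons p w ih =>
    intro s B h
    have h1 := piece_bdd hv hN1 p (opWV (v ^ 4) N w fz) s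
      ((v ^ 4 * (N + 1)) ^ w.length * v ^ (2 * B)) (by positivity) (by
        intro s' hs'
        have h2 := ih s' (B - RsP p.forget (ht s) (ht s')) (by
          intro st hst hp
          have h3 := h (consP s st) rfl (by
            refine ⟨?_, hp.2⟩
            intro t ht
            rcases t with _ | t
            · simp only [List.getElem_cons_zero, consP]
              rw [hst]; exact hs'
            · simp only [List.getElem_cons_succ, consP]
              exact hp.1 t (by simpa using ht))
          have h4 : Ex (p :: w) (consP s st) = RsP p.forget (ht s) (ht s') + Ex w st := by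
            unfold Ex
            refine (Fin.sum_univ_succ _).trans ?_
            congr 1
            change RsP p.forget (ht s) (ht (st 0)) = _
            rw [hst]
          linarith)
        refine h2.trans (le_of_eq ?_)
        rw [mul_assoc, ← zpow_add₀ hv0.ne']
        congr 2
        ring)
    refine h1.trans (le_of_eq ?_)
    rw [sub_eq_add_neg, zpow_add₀ hv0.ne', List.length_cons, pow_succ']
    ring

theorem t_D1 : S_D1 := by
  intro q N D B hq hN hD hB
  -- the fourth root of `q`
  obtain ⟨v, hv, rfl⟩ : ∃ v : ℝ, 1 < v ∧ v ^ 4 = q := by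
    refine ⟨q ^ (1 / 4 : ℝ), Real.one_lt_rpow hq (by norm_num), ?_⟩
    rw [← Real.rpow_natCast, ← Real.rpow_mul (by linarith)]
    norm_num
  have hv0 : 0 < v := by linarith
  have h1 := word_bdd hv hN D [] B (by
    intro st hst hp
    -- the labelling
    have hlen : (forget D).length = D.length := by simp [forget]
    let r : ℕ → ℕ → ℤ := fun t => if t ≤ D.length then ht (st t) else fun _ => 0
    have hr : ∀ t, t ≤ D.length → r t = ht (st t) := by
      intro t ht'
      simp only [r, if_pos ht']
    have h0 : ∀ j, r 0 j = 0 := by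
      intro j; rw [hr 0 (Nat.zero_le _), hst, ht_nil]
    have hget : ∀ t (h : t < (forget D).length), (forget D)[t] =
        (D[t]'(by rw [← hlen]; exact h)).forget := by
      intro t h
      simp [forget]
    have hlab : RLab (forget D) r := by
      refine ⟨fun j => by rw [h0, h0], fun t ht' => ?_, fun t ht' => ?_⟩
      · rw [hlen] at ht'
        funext j
        rw [h0]
        rcases ht'.eq_or_lt with h | h
        · subst h
          rw [hr _ le_rfl, hp.2, ht_nil]
        · simp only [r, if_neg (not_le.2 h)]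
      · have ht2 : t < D.length := by rw [← hlen]; exact ht'
        rw [hget, hr t ht2.le, hr (t + 1) ht2]
        exact piece_rstep _ _ _ (hp.1 t ht2)
    have h3 := hB r hlab (h0 0) (by
      intro t j
      by_cases ht' : t ≤ D.length
      · rw [hr t ht']; exact ht_jump hN _ _
      · simp only [r, if_neg ht', sub_zero, abs_zero]
        have : (1 : ℤ) ≤ N := by exact_mod_cast hN
        linarith)
    refine le_trans (le_of_eq ?_) h3
    unfold Ex Rs
    refine Fintype.sum_equiv (finCongr hlen.symm) _ _ ?_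
    intro t
    have ht2 : (t : ℕ) < D.length := t.2
    have e1 : (forget D)[(finCongr hlen.symm t : Fin _)] = (D[t]).forget := by
      have := hget (t : ℕ) (by rw [hlen]; exact ht2)
      exact this
    rw [e1]
    change RsP _ _ _ = RsP _ (r (t : ℕ)) (r ((t : ℕ) + 1))
    rw [hr _ ht2.le, hr _ ht2])
  have h2 : |ZV (v ^ 4) N D| ≤ (v ^ 4 * (N + 1)) ^ D.length * v ^ (2 * B) := by
    simpa [ZV, pot] using h1
  have h3 : (ZV (v ^ 4) N D) ^ 2 ≤ ((v ^ 4 * (N + 1)) ^ D.length * v ^ (2 * B)) ^ 2 := by
    rw [← sq_abs]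
    exact pow_le_pow_left₀ (abs_nonneg _) h2 2
  refine h3.trans (le_of_eq ?_)
  rw [mul_pow, ← pow_mul, mul_comm D.length 2]
  congr 1
  rw [← zpow_natCast v 4, ← zpow_mul, ← zpow_natCast, ← zpow_mul]
  congr 1
  push_cast
  ring

end Pool.Agent.Helper82_Alt.PD1
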