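import Pool.Agent.Helper82_Alt.Spec

/-!
# D2: the bound for heights, from the bound for marked sets
-/

set_option autoImplicit false

namespace Pool.Agent.Helper82_Alt.PD2

open Pool.Agent.Helper82_Alt
open Pool.Agent.Helper454.Kauf (Piece Word Closed)

/-! ### widths -/

theorem width_append (x y : Word) (n : ℕ) :
    Helper454.Kauf.width (x ++ y) n =
      (Helper454.Kauf.width x n).bind (Helper454.Kauf.width y) := by
  induction x generalizing n with
  | nil => simp [Helper454.Kauf.width]
  | cons p x ih =>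
    simp only [List.cons_append, Helper454.Kauf.width]
    rcases p.width n with _ | m
    · simp
    · simp [ih]

theorem wid_step {D : Word} (hD : Closed D) (t : ℕ) (h : t < D.length) :
    (D[t]).width (wid D t) = some (wid D (t + 1)) := by
  have h1 : D.take (t + 1) = D.take t ++ [D[t]] := by
    rw [List.take_append_getElem]
  have h2 : Helper454.Kauf.width (D.take t ++ ([D[t]] ++ D.drop (t + 1))) 0 = some 0 := by
    rw [← List.append_assoc, ← h1, List.take_append_drop]; exact hD
  rw [width_append] at h2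
  unfold wid
  rw [h1, width_append]
  rcases hw : Helper454.Kauf.width (D.take t) 0 with _ | m
  · rw [hw] at h2; simp at h2
  · rw [hw] at h2
    simp only [Option.bind_some, List.singleton_append, Helper454.Kauf.width] at h2 ⊢
    rcases hp : (D[t]).width m with _ | m'
    · rw [hp] at h2; simp at h2
    · simp [hp]

theorem wid_zero (D : Word) : wid D 0 = 0 := by simp [wid, Helper454.Kauf.width]

theorem wid_end {D : Word} (hD : Closed D) (t : ℕ) (h : D.length ≤ t) : wid D t = 0 := by
  unfold wid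
  rw [List.take_of_length_le h, hD]
  rfl

/-- what the widths say about the index of a piece -/
theorem wid_cases {D : Word} (hD : Closed D) (t : ℕ) (h : t < D.length) :
    (∀ i, D[t] = Piece.birth i → i ≤ wid D t ∧ wid D (t + 1) = wid D t + 2) ∧
    (∀ i, D[t] = Piece.death i → i + 2 ≤ wid D t ∧ wid D t = wid D (t + 1) + 2) ∧
    (∀ i, D[t] = Piece.pos i → i + 2 ≤ wid D t ∧ wid D (t + 1) = wid D t) ∧
    (∀ i, D[t] = Piece.neg i → i + 2 ≤ wid D t ∧ wid D (t + 1) = wid D t) := by
  have h1 := wid_step hD t h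
  refine ⟨?_, ?_, ?_, ?_⟩ <;> intro i hi <;> rw [hi] at h1 <;>
    simp only [Piece.width] at h1 <;> split_ifs at h1 with h2 <;> simp at h1 <;>
    refine ⟨h2, ?_⟩ <;> omega

/-! ### labellings -/

theorem RStep_map2 {A B C : Type} (F : A → B → C) {p : Piece} {r r' : ℕ → A} {s s' : ℕ → B}
    (h : RStep p r r') (k : RStep p s s') :
    RStep p (fun j => F (r j) (s j)) (fun j => F (r' j) (s' j)) := by
  cases p <;> simp only [RStep] at *
  · exact ⟨fun j hj => by rw [h.1 j hj, k.1 j hj], fun j hj => by rw [h.2 j hj, k.2 j hj]⟩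
  · exact ⟨fun j hj => by rw [h.1 j hj, k.1 j hj], fun j hj => by rw [h.2 j hj, k.2 j hj]⟩
  · exact fun j hj => by rw [h j hj, k j hj]
  · exact fun j hj => by rw [h j hj, k j hj]

theorem RLab_map2 {A B C : Type} (F : A → B → C) {D : Word} {r : ℕ → ℕ → A} {s : ℕ → ℕ → B}
    (h : RLab D r) (k : RLab D s) : RLab D (fun t j => F (r t j) (s t j)) := by
  refine ⟨fun j => ?_, fun t ht => ?_, fun t ht => RStep_map2 F (h.2.2 t ht) (k.2.2 t ht)⟩
  · simp only [h.1 j, k.1 j]
  · simp only [h.2.1 t ht, k.2.1 t ht]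

/-- fake gaps have the label of the unbounded region -/
theorem fake {G : Type} {D : Word} (hD : Closed D) {r : ℕ → ℕ → G} (hr : RLab D r) (t : ℕ) :
    ∀ j, wid D t ≤ j → r t j = r 0 0 := by
  induction t with
  | zero => intro j _; exact hr.1 j
  | succ t ih =>
    intro j hj
    by_cases ht : t < D.length
    · have hw := wid_cases hD t ht
      have hs := hr.2.2 t ht
      rcases hp : D[t] with i | i | i | i
      · rw [hp] at hs
        have h1 := hw.1 i hp
        obtain ⟨j', rfl⟩ : ∃ j', j = j' + 2 := ⟨j - 2, by omega⟩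
        rw [hs.2 j' (by omega)]
        exact ih _ (by omega)
      · rw [hp] at hs
        have h1 := hw.2.1 i hp
        rw [← hs.2 j (by omega)]
        exact ih _ (by omega)
      · rw [hp] at hs
        have h1 := hw.2.2.1 i hp
        rw [hs j (by omega)]
        exact ih _ (by omega)
      · rw [hp] at hs
        have h1 := hw.2.2.2 i hp
        rw [hs j (by omega)]
        exact ih _ (by omega)
    · rw [hr.2.1 (t + 1) (by omega)]
      exact hr.1 j

/-- the colouring -/
def col (ε : ℕ) (D : Word) (t j : ℕ) : Bool :=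
  decide ((if j ≤ wid D t then j % 2 else 0) = ε)

theorem RLab_col (ε : ℕ) {D : Word} (hD : Closed D) : RLab D (col ε D) := by
  refine ⟨fun j => ?_, fun t ht => ?_, fun t ht => ?_⟩
  · simp only [col, wid_zero]
    by_cases hj : j ≤ 0
    · have : j = 0 := by omega
      subst this; rfl
    · simp [hj]
  · funext j
    simp only [col, wid_zero, wid_end hD t ht]
  · have hw := wid_cases hD t ht
    rcases hp : D[t] with i | i | i | i
    · have h1 := hw.1 i hp
      simp only [RStep, col, h1.2]
      refine ⟨fun j hj => ?_, fun j hj => ?_⟩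
      · rw [if_pos (by omega), if_pos (by omega)]
      · by_cases h2 : j ≤ wid D t
        · rw [if_pos (by omega), if_pos h2, Nat.add_mod_right]
        · rw [if_neg (by omega), if_neg h2]
    · have h1 := hw.2.1 i hp
      simp only [RStep, col, h1.2]
      refine ⟨fun j hj => ?_, fun j hj => ?_⟩
      · rw [if_pos (by omega), if_pos (by omega)]
      · by_cases h2 : j ≤ wid D (t + 1)
        · rw [if_pos (by omega), if_pos h2, Nat.add_mod_right]
        · rw [if_neg (by omega), if_neg h2]
    · have h1 := hw.2.2.1 i hp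
      simp only [RStep, col, h1.2]
      intro j _; trivial
    · have h1 := hw.2.2.2 i hp
      simp only [RStep, col, h1.2]
      intro j _; trivial

theorem col_real {ε : ℕ} {D : Word} {t j : ℕ} (h : j ≤ wid D t) :
    col ε D t j = decide (j % 2 = ε) := by
  simp [col, h]

/-! ### linearity -/

theorem RsP_add (p : Piece) (r r' s s' : ℕ → ℤ) :
    RsP p (fun j => r j + s j) (fun j => r' j + s' j) = RsP p r r' + RsP p s s' := by
  cases p <;> simp only [RsP] <;> ring

theorem RsP_smul (p : Piece) (c : ℤ) (r r' : ℕ → ℤ) :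
    RsP p (fun j => c * r j) (fun j => c * r' j) = c * RsP p r r' := by
  cases p <;> simp only [RsP] <;> ring

theorem RsP_const (p : Piece) (c : ℤ) : RsP p (fun _ => c) (fun _ => c) = 0 := by
  cases p <;> simp [RsP]

theorem Rs_add (D : Word) (r s : ℕ → ℕ → ℤ) :
    Rs D (fun t j => r t j + s t j) = Rs D r + Rs D s := by
  simp only [Rs, RsP_add, Finset.sum_add_distrib]

theorem Rs_smul (D : Word) (c : ℤ) (r : ℕ → ℕ → ℤ) :
    Rs D (fun t j => c * r t j) = c * Rs D r := by
  simp only [Rs, RsP_smul, Finset.mul_sum]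

theorem Rs_const (D : Word) (c : ℤ) : Rs D (fun _ _ => c) = 0 := by
  simp only [Rs, RsP_const, Finset.sum_const_zero]

theorem Rs_sum {ι : Type} (D : Word) (S : Finset ι) (r : ι → ℕ → ℕ → ℤ) :
    Rs D (fun t j => ∑ h ∈ S, r h t j) = ∑ h ∈ S, Rs D (r h) := by
  classical
  induction S using Finset.induction_on with
  | empty => simpa using Rs_const D 0
  | insert a S ha ih =>
    simp only [Finset.sum_insert ha]
    rw [Rs_add, ih]

/-- the colouring as a marked set -/
theorem Rs_col {ε : ℕ} (hε : ε < 2) {D : Word} (hD : Closed D) (hP : ParType ε D) :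
    Rs D (fun t j => bi (col ε D t j)) + 4 * bi (col ε D 0 0) = K2 ε D := by
  have hbi : ∀ j, bi (decide (j % 2 = ε)) = wh ε j := by
    intro j; simp only [bi, wh, decide_eq_true_eq]
  have h1 : ∀ t : Fin D.length, RsP D[t] (fun j => bi (col ε D t j))
      (fun j => bi (col ε D (t + 1) j)) = K2P ε D[t] := by
    intro t
    have hw := wid_cases hD t t.2
    have hPt := hP D[t] (List.getElem_mem _)
    have hg : D[t] = D[(t : ℕ)] := rfl
    rcases hp : D[t] with i | i | i | i
    · have h1 := hw.1 i (hg ▸ hp)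
      simp only [RsP, K2P]
      rw [col_real (by omega), col_real (by omega), hbi, hbi]
    · have h1 := hw.2.1 i (hg ▸ hp)
      simp only [RsP, K2P]
      rw [col_real (by omega), col_real (by omega), hbi, hbi]
    · simp [RsP, K2P]
    · have h1 := hw.2.2.2 i (hg ▸ hp)
      simp only [RsP, K2P]
      rw [col_real (by omega), col_real (by omega), col_real (by omega), col_real (by omega),
        hbi, hbi, hbi]
      rw [hp] at hPt
      simp only at hPt
      have e1 : (i + 1) % 2 = ε := by omega
      simp [wh, e1, hPt]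
  have h2 : Rs D (fun t j => bi (col ε D t j)) = (D.map (K2P ε)).sum := by
    unfold Rs
    rw [Finset.sum_congr rfl fun t _ => h1 t]
    exact Fin.sum_univ_fun_getElem D (K2P ε)
  rw [h2, col_real (by rw [wid_zero]), hbi, K2]

/-! ### the threshold sets -/

/-- the marked set of the height `h` -/
def Y (ε : ℕ) (D : Word) (M : ℕ) (r : ℕ → ℕ → ℤ) (h : ℤ) (t j : ℕ) : Bool :=
  decide (h + (if col ε D t j then (M : ℤ) else 0) ≤ r t j)

theorem RLab_Y (ε : ℕ) {D : Word} (hD : Closed D) (M : ℕ) {r : ℕ → ℕ → ℤ} (hr : RLab D r) (h : ℤ) :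
    RLab D (Y ε D M r h) :=
  RLab_map2 (fun (c : Bool) (x : ℤ) => decide (h + (if c then (M : ℤ) else 0) ≤ x))
    (RLab_col ε hD) hr

theorem Allowed_Y {ε : ℕ} (hε : ε < 2) {D : Word} (M : ℕ) {r : ℕ → ℕ → ℤ}
    (hM : ∀ t j, |r t (j + 1) - r t j| ≤ M) (h : ℤ) : Allowed ε D (Y ε D M r h) := by
  intro t j hj
  have h1 := abs_le.1 (hM t j)
  have c1 := col_real (ε := ε) (show j ≤ wid D t by omega)
  have c2 := col_real (ε := ε) (show j + 1 ≤ wid D t by omega)
  refine ⟨fun h2 h3 => ?_, fun h2 h3 => ?_⟩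
  · have e : ¬ (j + 1) % 2 = ε := by omega
    simp only [Y, c1, c2, h2, e, decide_true, decide_false, decide_eq_true_eq, if_true,
      Bool.false_eq_true, if_false] at h3 ⊢
    linarith [h1.1]
  · have e : (j + 1) % 2 = ε := by omega
    simp only [Y, c1, c2, h2, e, decide_true, decide_false, decide_eq_true_eq, if_true,
      Bool.false_eq_true, if_false] at h3 ⊢
    linarith [h1.2]

/-- counting thresholds -/
theorem sum_thr (K H x : ℤ) (h1 : -K ≤ x) (h2 : x ≤ H) :
    ∑ h ∈ Finset.Ioc (-K) H, bi (decide (h ≤ x)) = x + K := by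
  have e : ∑ h ∈ Finset.Ioc (-K) H, bi (decide (h ≤ x)) =
      ∑ h ∈ Finset.Ioc (-K) H, (if h ≤ x then (1 : ℤ) else 0) := by
    refine Finset.sum_congr rfl fun h _ => ?_
    simp only [bi, decide_eq_true_eq]
  rw [e, ← Finset.sum_filter, Finset.sum_const, nsmul_eq_mul, mul_one]
  have e2 : (Finset.Ioc (-K) H).filter (fun h => h ≤ x) = Finset.Ioc (-K) x := by
    ext h
    simp only [Finset.mem_filter, Finset.mem_Ioc]
    constructor
    · rintro ⟨⟨a, _⟩, c⟩; exact ⟨a, c⟩
    · rintro ⟨a, b⟩; exact ⟨⟨a, b.trans h2⟩, b⟩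
  rw [e2, Int.card_Ioc, Int.toNat_of_nonneg (by linarith)]
  ring

theorem sum_thr_le (K H x : ℤ) (h1 : -K ≤ x) :
    ∑ h ∈ Finset.Ioc (-K) H, bi (decide (h ≤ x)) ≤ x + K := by
  rcases le_total x H with h2 | h2
  · exact (sum_thr K H x h1 h2).le
  · by_cases h3 : -K ≤ H
    · have h4 := sum_thr K H H h3 le_rfl
      have h5 : ∑ h ∈ Finset.Ioc (-K) H, bi (decide (h ≤ x)) =
          ∑ h ∈ Finset.Ioc (-K) H, bi (decide (h ≤ H)) := by
        refine Finset.sum_congr rfl fun h hh => ?_
        have := (Finset.mem_Ioc.1 hh).2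
        rw [decide_eq_true (this.trans h2), decide_eq_true this]
      rw [h5, h4]; linarith
    · rw [Finset.Ioc_eq_empty (by linarith)]
      simp; linarith

theorem first_birth {D : Word} (hD : Closed D) (hne : D ≠ []) :
    0 < D.length ∧ wid D 1 = 2 ∧
      ∀ {G : Type} (r : ℕ → ℕ → G), RLab D r → r 1 0 = r 0 0 := by
  have hl : 0 < D.length := List.length_pos_iff.2 hne
  have hw := wid_cases hD 0 hl
  rw [wid_zero] at hw
  rcases hp : D[0] with i | i | i | i
  · have h1 := hw.1 i hp
    refine ⟨hl, h1.2, fun r hr => ?_⟩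
    have hs := hr.2.2 0 hl
    rw [hp] at hs
    exact hs.1 0 (Nat.zero_le _)
  · have h1 := hw.2.1 i hp; omega
  · have h1 := hw.2.2.1 i hp; omega
  · have h1 := hw.2.2.2 i hp; omega

theorem t_D2 (hQ : S_Q) : S_D2 := by
  classical
  intro ε D M r hε hD hne hconn hred hpar hr h00 hM
  obtain ⟨hlen, hw1, hout⟩ := first_birth hD hne
  -- a bound for the heights
  obtain ⟨B, hB0, hB⟩ : ∃ B : ℤ, 0 ≤ B ∧ ∀ t j, |r t j| ≤ B := by
    refine ⟨∑ t ∈ Finset.range (D.length + 1), ∑ j ∈ Finset.range (wid D t + 1), |r t j|,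
      Finset.sum_nonneg fun t _ => Finset.sum_nonneg fun j _ => abs_nonneg _, ?_⟩
    have hnn : 0 ≤ ∑ t ∈ Finset.range (D.length + 1), ∑ j ∈ Finset.range (wid D t + 1), |r t j| :=
      Finset.sum_nonneg fun t _ => Finset.sum_nonneg fun j _ => abs_nonneg _
    intro t j
    by_cases hj : wid D t ≤ j
    · rw [fake hD hr t j hj, h00, abs_zero]; exact hnn
    · by_cases ht : t < D.length + 1
      · calc |r t j| ≤ ∑ j ∈ Finset.range (wid D t + 1), |r t j| :=
              Finset.single_le_sum (f := fun j => |r t j|) (fun _ _ => abs_nonneg _)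
                (Finset.mem_range.2 (by omega))
          _ ≤ _ := Finset.single_le_sum
              (f := fun t => ∑ j ∈ Finset.range (wid D t + 1), |r t j|)
              (fun _ _ => Finset.sum_nonneg fun _ _ => abs_nonneg _) (Finset.mem_range.2 ht)
      · rw [wid_end hD t (by omega)] at hj; omega
  set K : ℤ := B + M with hK
  set S := Finset.Ioc (-K) B with hS
  have hM0 : (0 : ℤ) ≤ M := Int.natCast_nonneg M
  -- the layer decomposition
  have hdec : ∀ t j, r t j = (-K + M * bi (col ε D t j)) + ∑ h ∈ S, bi (Y ε D M r h t j) := by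
    intro t j
    have hb := abs_le.1 (hB t j)
    have e : ∀ h, Y ε D M r h t j = decide (h ≤ r t j - M * bi (col ε D t j)) := by
      intro h
      unfold Y bi
      congr 1
      split_ifs <;> simp [le_sub_iff_add_le]
    simp only [e]
    rw [sum_thr]
    · ring
    · unfold bi; split_ifs <;> linarith [hb.1]
    · unfold bi; split_ifs <;> linarith [hb.2]
  have hRs : Rs D r = M * Rs D (fun t j => bi (col ε D t j)) +
      ∑ h ∈ S, Rs D (fun t j => bi (Y ε D M r h t j)) := by
    have e : r = fun t j => (-K + M * bi (col ε D t j)) + ∑ h ∈ S, bi (Y ε D M r h t j) := by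
      funext t j; exact hdec t j
    conv_lhs => rw [e]
    rw [Rs_add, Rs_add, Rs_const, Rs_smul, Rs_sum, zero_add]
  have hcol := Rs_col hε hD hpar
  have h0 := hdec 0 0
  rw [h00] at h0
  -- the bound for one layer
  have hlay : ∀ h ∈ S, Rs D (fun t j => bi (Y ε D M r h t j)) + 4 * bi (Y ε D M r h 0 0) ≤
      2 * (if ∀ t j, j ≤ wid D t → j % 2 ≠ ε → Y ε D M r h t j = true then (1 : ℤ) else 0) +
      2 * (if ∀ t j, j ≤ wid D t → Y ε D M r h t j = true then (1 : ℤ) else 0) := by
    intro h _
    have hq := hQ ε D (Y ε D M r h) hε hD hne hconn hred hpar (RLab_Y ε hD M hr h)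
      (Allowed_Y hε M hM h)
    by_cases ha : ∀ t j, j ≤ wid D t → Y ε D M r h t j = true
    · have hb : ∀ t j, j ≤ wid D t → j % 2 ≠ ε → Y ε D M r h t j = true :=
        fun t j h1 _ => ha t j h1
      rw [if_pos ha, if_pos hb]
      have hall : ∀ t j, Y ε D M r h t j = true := by
        intro t j
        by_cases hj : j ≤ wid D t
        · exact ha t j hj
        · rw [fake hD (RLab_Y ε hD M hr h) t j (by omega)]
          exact ha 0 0 (Nat.zero_le _)
      simp only [hall]
      rw [Rs_const]
      simp [bi]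
    · rw [if_neg ha]
      have h1 : Rs D (fun t j => bi (Y ε D M r h t j)) + 4 * bi (Y ε D M r h 0 0) ≤ 2 := by
        refine hq.2 ?_
        push Not at ha
        obtain ⟨t, j, h2, h3⟩ := ha
        exact ⟨t, j, h2, by simpa using h3⟩
      by_cases hb : ∀ t j, j ≤ wid D t → j % 2 ≠ ε → Y ε D M r h t j = true
      · rw [if_pos hb]; linarith
      · rw [if_neg hb]
        have h2 : Rs D (fun t j => bi (Y ε D M r h t j)) + 4 * bi (Y ε D M r h 0 0) ≤ 0 := by
          refine hq.1 ?_
          push Not at hb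
          obtain ⟨t, j, h2, h3, h4⟩ := hb
          exact ⟨t, j, h2, h3, by simpa using h4⟩
        linarith
  -- the number of layers
  have hr11 : |r 1 1| ≤ M := by
    have h1 := hM 1 0
    rwa [hout r hr, h00, sub_zero] at h1
  have hcount : ∑ h ∈ S,
      (2 * (if ∀ t j, j ≤ wid D t → j % 2 ≠ ε → Y ε D M r h t j = true then (1 : ℤ) else 0) +
      2 * (if ∀ t j, j ≤ wid D t → Y ε D M r h t j = true then (1 : ℤ) else 0)) ≤ 4 * K := by
    -- a black gap `b` and a white gap `w` with `r b + r w ≤ M`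
    obtain ⟨tb, jb, tw, jw, hb1, hb2, hw2, hw3, hsum, hbK, hwK⟩ : ∃ tb jb tw jw,
        jb ≤ wid D tb ∧ jb % 2 ≠ ε ∧ jw ≤ wid D tw ∧ jw % 2 = ε ∧
        r tb jb + r tw jw ≤ M ∧ -K ≤ r tb jb ∧ -K ≤ r tw jw - M := by
      have hB11 := abs_le.1 (hB 1 1)
      have hM11 := abs_le.1 hr11
      rcases Nat.lt_or_ge 0 ε with h1 | h1
      · refine ⟨0, 0, 1, 1, by omega, by omega, by omega, by omega, ?_, ?_, ?_⟩
        · rw [h00]; linarith
        · rw [h00]; linarith
        · linarith
      · refine ⟨1, 1, 0, 0, by omega, by omega, by omega, by omega, ?_, ?_, ?_⟩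
        · rw [h00]; linarith
        · linarith
        · rw [h00]; linarith
    have c1 : ∀ h ∈ S,
        (if ∀ t j, j ≤ wid D t → j % 2 ≠ ε → Y ε D M r h t j = true then (1 : ℤ) else 0) ≤
          bi (decide (h ≤ r tb jb)) := by
      intro h _
      by_cases hb : ∀ t j, j ≤ wid D t → j % 2 ≠ ε → Y ε D M r h t j = true
      · have h1 := hb tb jb hb1 hb2
        simp only [Y, col_real hb1, hb2, decide_false, Bool.false_eq_true, if_false, add_zero,
          decide_eq_true_eq] at h1
        rw [if_pos hb, decide_eq_true h1]; simp [bi]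
      · rw [if_neg hb]; unfold bi; split_ifs <;> norm_num
    have c2 : ∀ h ∈ S,
        (if ∀ t j, j ≤ wid D t → Y ε D M r h t j = true then (1 : ℤ) else 0) ≤
          bi (decide (h ≤ r tw jw - M)) := by
      intro h _
      by_cases hb : ∀ t j, j ≤ wid D t → Y ε D M r h t j = true
      · have h1 := hb tw jw hw2
        simp only [Y, col_real hw2, hw3, decide_true, if_true, decide_eq_true_eq] at h1
        have h1' : h ≤ r tw jw - M := by linarith
        rw [if_pos hb, decide_eq_true h1']; simp [bi]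
      · rw [if_neg hb]; unfold bi; split_ifs <;> norm_num
    rw [Finset.sum_add_distrib, ← Finset.mul_sum, ← Finset.mul_sum]
    have d1 := (Finset.sum_le_sum c1).trans (sum_thr_le K B _ hbK)
    have d2 := (Finset.sum_le_sum c2).trans (sum_thr_le K B _ hwK)
    linarith
  have hfin : ∑ h ∈ S, Rs D (fun t j => bi (Y ε D M r h t j)) +
      4 * ∑ h ∈ S, bi (Y ε D M r h 0 0) ≤ 4 * K := by
    rw [Finset.mul_sum, ← Finset.sum_add_distrib]
    exact (Finset.sum_le_sum hlay).trans hcount
  rw [hRs]
  have hcol' : (M : ℤ) * Rs D (fun t j => bi (col ε D t j)) =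
      M * K2 ε D - 4 * (M * bi (col ε D 0 0)) := by
    rw [← hcol]; ring
  rw [hcol']
  linarith

end Pool.Agent.Helper82_Alt.PD2
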