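import Pool.Agent.Helper82_Alt.Spec2

/-!
# Degrees of products
-/

set_option autoImplicit false

namespace Pool.Agent.Helper82_Alt.PDeg

open Pool.Agent.Helper454.Kauf (Raz)
open Pool.Agent.Helper454.Wh (Rlm)
open LaurentPolynomial

variable {R : Type} [CommRing R]

theorem mul_top (x y : LaurentPolynomial R) (a b : ℤ) (hx : ∀ j, x.coeff j ≠ 0 → j ≤ a)
    (hy : ∀ j, y.coeff j ≠ 0 → j ≤ b) :
    (x * y).coeff (a + b) = x.coeff a * y.coeff b ∧ ∀ k, a + b < k → (x * y).coeff k = 0 := by
  constructor
  · rw [AddMonoidAlgebra.coeff_mul, Finsupp.sum, Finset.sum_eq_single a]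
    · rw [Finsupp.sum, Finset.sum_eq_single b]
      · simp
      · intro j hj hjb
        rw [if_neg]
        intro h
        exact hjb (by linarith)
      · intro hb
        rw [Finsupp.notMem_support_iff.mp hb]
        simp
    · intro j hj hja
      apply Finset.sum_eq_zero
      intro k hk
      refine if_neg ?_
      intro h
      have h1 := hx j (Finsupp.mem_support_iff.mp hj)
      have h2 := hy k (Finsupp.mem_support_iff.mp hk)
      exact hja (by linarith)
    · intro ha
      rw [Finsupp.notMem_support_iff.mp ha]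
      apply Finset.sum_eq_zero
      intro k hk
      simp
  · intro k hk
    rw [AddMonoidAlgebra.coeff_mul]
    apply Finset.sum_eq_zero
    intro j hj
    apply Finset.sum_eq_zero
    intro l hl
    refine if_neg ?_
    intro h
    have h1 := hx j (Finsupp.mem_support_iff.mp hj)
    have h2 := hy l (Finsupp.mem_support_iff.mp hl)
    linarith

theorem mul_bot (x y : LaurentPolynomial R) (a b : ℤ) (hx : ∀ j, x.coeff j ≠ 0 → a ≤ j)
    (hy : ∀ j, y.coeff j ≠ 0 → b ≤ j) :
    (x * y).coeff (a + b) = x.coeff a * y.coeff b ∧ ∀ k, k < a + b → (x * y).coeff k = 0 := by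
  constructor
  · rw [AddMonoidAlgebra.coeff_mul, Finsupp.sum, Finset.sum_eq_single a]
    · rw [Finsupp.sum, Finset.sum_eq_single b]
      · simp
      · intro j hj hjb
        rw [if_neg]
        intro h
        exact hjb (by linarith)
      · intro hb
        rw [Finsupp.notMem_support_iff.mp hb]
        simp
    · intro j hj hja
      apply Finset.sum_eq_zero
      intro k hk
      refine if_neg ?_
      intro h
      have h1 := hx j (Finsupp.mem_support_iff.mp hj)
      have h2 := hy k (Finsupp.mem_support_iff.mp hk)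
      exact hja (by linarith)
    · intro ha
      rw [Finsupp.notMem_support_iff.mp ha]
      apply Finset.sum_eq_zero
      intro k hk
      simp
  · intro k hk
    rw [AddMonoidAlgebra.coeff_mul]
    apply Finset.sum_eq_zero
    intro j hj
    apply Finset.sum_eq_zero
    intro l hl
    refine if_neg ?_
    intro h
    have h1 := hx j (Finsupp.mem_support_iff.mp hj)
    have h2 := hy l (Finsupp.mem_support_iff.mp hl)
    linarith

theorem t_degA : S_degA := by
  rintro p q a b ⟨hpa, hp⟩ ⟨hqb, hq⟩
  obtain ⟨h1, h2⟩ := mul_top p q a b (fun j hj => hp hj) (fun j hj => hq hj)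
  refine ⟨?_, ?_⟩
  · show (p * q).coeff (a + b) ≠ 0
    rw [h1]
    exact mul_ne_zero hpa hqb
  · intro k hk
    by_contra hc
    exact hk (h2 k (by linarith))

/-- the coefficient of `l ^ c` -/
noncomputable def cf (c : ℤ) : LaurentPolynomial ℤ →+ ℤ :=
  AddMonoidHom.mk' (fun x => x.coeff c) (by intro x y; simp)

theorem cf_apply (c : ℤ) (x : LaurentPolynomial ℤ) : cf c x = x.coeff c := rfl

/-- the coefficient of `l ^ c` of a polynomial in `m` and `l` -/
noncomputable def sl (c : ℤ) (p : Rlm) : LaurentPolynomial ℤ :=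
  AddMonoidAlgebra.ofCoeff (p.coeff.mapRange (cf c) (map_zero _))

theorem sl_coeff (c : ℤ) (p : Rlm) (j : ℤ) : (sl c p).coeff j = (p.coeff j).coeff c := by
  show (p.coeff.mapRange (cf c) (map_zero _)) j = _
  rw [Finsupp.mapRange_apply, cf_apply]

theorem mul_l (p q : Rlm) (a b : ℤ) (hp : ∀ j k, (p.coeff j).coeff k ≠ 0 → a ≤ k)
    (hq : ∀ j k, (q.coeff j).coeff k ≠ 0 → b ≤ k) (j : ℤ) :
    ((p * q).coeff j).coeff (a + b) = (sl a p * sl b q).coeff j ∧
      ∀ k, k < a + b → ((p * q).coeff j).coeff k = 0 := by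
  constructor
  · rw [← cf_apply, AddMonoidAlgebra.coeff_mul, AddMonoidAlgebra.coeff_mul, Finsupp.sum, map_sum]
    show _ = (p.coeff.mapRange (cf a) (map_zero _)).sum _
    rw [Finsupp.sum_mapRange_index (by intro; simp)]
    apply Finset.sum_congr rfl
    intro j1 hj1
    rw [Finsupp.sum, map_sum]
    show _ = (q.coeff.mapRange (cf b) (map_zero _)).sum _
    rw [Finsupp.sum_mapRange_index (by intro; simp)]
    apply Finset.sum_congr rfl
    intro j2 hj2
    show cf (a + b) (if j1 + j2 = j then p.coeff j1 * q.coeff j2 else 0) =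
      if j1 + j2 = j then (p.coeff j1).coeff a * (q.coeff j2).coeff b else 0
    by_cases h : j1 + j2 = j
    · rw [if_pos h, if_pos h, cf_apply]
      exact (mul_bot _ _ a b (fun k hk => hp j1 k hk) (fun k hk => hq j2 k hk)).1
    · rw [if_neg h, if_neg h, map_zero]
  · intro k hk
    rw [← cf_apply, AddMonoidAlgebra.coeff_mul, Finsupp.sum, map_sum]
    apply Finset.sum_eq_zero
    intro j1 hj1
    rw [Finsupp.sum, map_sum]
    apply Finset.sum_eq_zero
    intro j2 hj2
    split_ifs with h
    · rw [cf_apply]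
      exact (mul_bot _ _ a b (fun k hk => hp j1 k hk) (fun k hk => hq j2 k hk)).2 k hk
    · simp

theorem t_degL : S_degL := by
  rintro p q a b ⟨⟨ja, hpa⟩, hp⟩ ⟨⟨jb, hqb⟩, hq⟩
  have hp' : ∀ j k, (p.coeff j).coeff k ≠ 0 → a ≤ k := fun j k h => hp ⟨j, h⟩
  have hq' : ∀ j k, (q.coeff j).coeff k ≠ 0 → b ≤ k := fun j k h => hq ⟨j, h⟩
  refine ⟨?_, ?_⟩
  · have h1 : sl a p ≠ 0 := by
      intro h
      apply hpa
      rw [← sl_coeff, h]
      rfl
    have h2 : sl b q ≠ 0 := by
      intro h
      apply hqb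
      rw [← sl_coeff, h]
      rfl
    have h3 : sl a p * sl b q ≠ 0 := mul_ne_zero h1 h2
    by_contra hc
    apply h3
    ext j
    by_contra h4
    apply hc
    refine ⟨j, ?_⟩
    rw [(mul_l p q a b hp' hq' j).1]
    exact h4
  · rintro k ⟨j, hj⟩
    by_contra hc
    exact hj ((mul_l p q a b hp' hq' j).2 k (by linarith))

end Pool.Agent.Helper82_Alt.PDeg
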