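import Pool.Agent.Helper82_Alt.Spec

/-! Evaluation of Laurent polynomials in two variables; growth. -/

set_option autoImplicit false
set_option linter.unusedSimpArgs false

namespace Pool.Agent.Helper82_Alt.PF

open LaurentPolynomial
open Pool.Agent.Helper454.Kauf (Raz)

/-- evaluation of the inner variable -/
noncomputable def ev1 (z : ℝˣ) : LaurentPolynomial ℤ →+* ℝ := eval₂ (Int.castRingHom ℝ) z

/-- evaluation: the outer variable is `a`, the inner variable is `z` -/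
noncomputable def ev2 (a z : ℝˣ) : LaurentPolynomial (LaurentPolynomial ℤ) →+* ℝ :=
  eval₂ (ev1 z) a

theorem eval_sum {R : Type} [CommRing R] (φ : R →+* ℝ) (x : ℝˣ) (f : LaurentPolynomial R) :
    eval₂ φ x f = ∑ n ∈ f.coeff.support, φ (f.coeff n) * (x : ℝ) ^ n := by
  conv_lhs => rw [← AddMonoidAlgebra.sum_coeff_single f]
  rw [Finsupp.sum, map_sum]
  refine Finset.sum_congr rfl fun n _ => ?_
  rw [single_eq_C_mul_T, eval₂_C_mul_T]
  simp

theorem ev2_C_T (a z : ℝˣ) (n : ℤ) : ev2 a z (C (T n)) = (z : ℝ) ^ n := by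
  rw [ev2, eval₂_C, ev1, eval₂_T]; simp

theorem ev2_T (a z : ℝˣ) (n : ℤ) : ev2 a z (T n) = (a : ℝ) ^ n := by
  rw [ev2, eval₂_T]; simp

/-- coefficient of `(outer)^j (inner)^k` -/
noncomputable def cf (p : LaurentPolynomial (LaurentPolynomial ℤ)) (x : ℤ × ℤ) : ℤ :=
  (p.coeff x.1).coeff x.2

/-- a finite set which contains all exponents -/
noncomputable def sup1 (p : LaurentPolynomial (LaurentPolynomial ℤ)) : Finset ℤ := p.coeff.support

noncomputable def sup2 (p : LaurentPolynomial (LaurentPolynomial ℤ)) : Finset ℤ :=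
  p.coeff.support.biUnion (fun j => (p.coeff j).coeff.support)

theorem cf_mem {p : LaurentPolynomial (LaurentPolynomial ℤ)} {j k : ℤ} (h : cf p (j, k) ≠ 0) :
    j ∈ sup1 p ∧ k ∈ sup2 p := by
  have h1 : j ∈ p.coeff.support := by
    rw [Finsupp.mem_support_iff]
    intro h0
    apply h
    unfold cf
    simp only [h0]
    rfl
  refine ⟨h1, ?_⟩
  unfold sup2
  rw [Finset.mem_biUnion]
  exact ⟨j, h1, by rw [Finsupp.mem_support_iff]; exact h⟩

theorem ev2_sum (a z : ℝˣ) (p : LaurentPolynomial (LaurentPolynomial ℤ)) :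
    ev2 a z p = ∑ j ∈ sup1 p, ∑ k ∈ sup2 p, (cf p (j, k) : ℝ) * ((a : ℝ) ^ j * (z : ℝ) ^ k) := by
  rw [ev2, eval_sum]
  refine Finset.sum_congr rfl fun j hj => ?_
  rw [ev1, eval_sum, Finset.sum_mul]
  have hsub : (p.coeff j).coeff.support ⊆ sup2 p := by
    intro k hk
    unfold sup2
    rw [Finset.mem_biUnion]
    exact ⟨j, hj, hk⟩
  rw [Finset.sum_subset hsub (f := fun k => (Int.castRingHom ℝ ((p.coeff j).coeff k) * (z : ℝ) ^ k) *
    (a : ℝ) ^ j)]
  · refine Finset.sum_congr rfl fun k _ => ?_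
    unfold cf
    simp only [Int.coe_castRingHom]
    ring
  · intro k _ hk
    rw [Finsupp.notMem_support_iff] at hk
    rw [hk]
    simp

theorem two_zpow_le (x y : ℝ) (hx : 0 < x) (h1 : x ≤ 2 * y) (h2 : y ≤ 2 * x) (k : ℤ) :
    x ^ k ≤ 2 ^ k.natAbs * y ^ k := by
  have hy : 0 < y := by linarith
  rcases Int.natAbs_eq k with h | h
  · rw [h]
    simp only [zpow_natCast, Int.natAbs_natCast]
    rw [← mul_pow]
    exact pow_le_pow_left₀ hx.le h1 _
  · rw [h]
    simp only [zpow_neg, zpow_natCast, Int.natAbs_neg, Int.natAbs_natCast]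
    rw [← inv_pow, ← inv_pow, ← mul_pow]
    apply pow_le_pow_left₀ (inv_pos.2 hx).le
    rw [inv_eq_one_div, inv_eq_one_div, div_le_iff₀ hx]
    have : y * (2 * (1 / y)) = 2 := by field_simp
    have h4 : 1 / y * y = 1 := by field_simp
    have h5 : 0 < 1 / y := by positivity
    nlinarith

/-- growth of `p (a, z)`, if `|a|`, `|z|` are of the order `t^α`, `t^β` -/
theorem growth (p : LaurentPolynomial (LaurentPolynomial ℤ)) (α β E : ℤ)
    (hE : ∀ j k, cf p (j, k) ≠ 0 → α * j + β * k ≤ E) :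
    ∃ C : ℝ, 0 ≤ C ∧ ∀ (t : ℝ) (a z : ℝˣ), 1 ≤ t →
      |(a : ℝ)| ≤ 2 * t ^ α → t ^ α ≤ 2 * |(a : ℝ)| → |(z : ℝ)| ≤ 2 * t ^ β → t ^ β ≤ 2 * |(z : ℝ)| →
      |ev2 a z p| ≤ C * t ^ E := by
  refine ⟨∑ j ∈ sup1 p, ∑ k ∈ sup2 p, |(cf p (j, k) : ℝ)| * (2 ^ j.natAbs * 2 ^ k.natAbs),
    Finset.sum_nonneg fun j _ => Finset.sum_nonneg fun k _ => by positivity, ?_⟩
  intro t a z ht ha1 ha2 hz1 hz2
  have t0 : 0 < t := by linarith
  rw [ev2_sum, Finset.sum_mul]
  refine (Finset.abs_sum_le_sum_abs _ _).trans (Finset.sum_le_sum fun j _ => ?_)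
  rw [Finset.sum_mul]
  refine (Finset.abs_sum_le_sum_abs _ _).trans (Finset.sum_le_sum fun k _ => ?_)
  by_cases h0 : cf p (j, k) = 0
  · simp [h0]
  · rw [abs_mul, abs_mul, abs_zpow, abs_zpow]
    have e1 := two_zpow_le |(a : ℝ)| (t ^ α) (abs_pos.2 a.ne_zero) ha1 ha2 j
    have e2 := two_zpow_le |(z : ℝ)| (t ^ β) (abs_pos.2 z.ne_zero) hz1 hz2 k
    have e3 : (t ^ α) ^ j * (t ^ β) ^ k ≤ t ^ E := by
      rw [← zpow_mul, ← zpow_mul, ← zpow_add₀ t0.ne']
      exact zpow_le_zpow_right₀ ht (hE j k h0)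
    have e4 : |(a : ℝ)| ^ j * |(z : ℝ)| ^ k ≤
        (2 ^ j.natAbs * (t ^ α) ^ j) * (2 ^ k.natAbs * (t ^ β) ^ k) := by
      apply mul_le_mul e1 e2 (by positivity) (by positivity)
    calc |(cf p (j, k) : ℝ)| * (|(a : ℝ)| ^ j * |(z : ℝ)| ^ k)
        ≤ |(cf p (j, k) : ℝ)| * ((2 ^ j.natAbs * (t ^ α) ^ j) * (2 ^ k.natAbs * (t ^ β) ^ k)) :=
          mul_le_mul_of_nonneg_left e4 (abs_nonneg _)
      _ = |(cf p (j, k) : ℝ)| * (2 ^ j.natAbs * 2 ^ k.natAbs) * ((t ^ α) ^ j * (t ^ β) ^ k) := by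
          ring
      _ ≤ _ := mul_le_mul_of_nonneg_left e3 (by positivity)

/-- a nonzero Laurent polynomial in one variable does not vanish at some positive number -/
theorem exists_pos_ne (J : Finset ℤ) (c : ℤ → ℤ) (j₀ : ℤ) (hj : j₀ ∈ J) (hc : c j₀ ≠ 0) :
    ∃ m : ℝ, 0 < m ∧ ∑ j ∈ J, (c j : ℝ) * m ^ j ≠ 0 := by
  classical
  -- shift the exponents
  obtain ⟨K, hK⟩ : ∃ K : ℕ, ∀ j ∈ J, 0 ≤ j + K := by
    refine ⟨∑ j ∈ J, j.natAbs, fun j hj => ?_⟩
    have := Finset.single_le_sum (f := fun j : ℤ => j.natAbs) (fun _ _ => Nat.zero_le _) hj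
    omega
  set Q : Polynomial ℝ := ∑ j ∈ J, Polynomial.monomial (j + K).toNat (c j : ℝ) with hQ
  have hQ0 : Q ≠ 0 := by
    intro h0
    have h1 := congrArg (fun P : Polynomial ℝ => P.coeff (j₀ + K).toNat) h0
    simp only [hQ, Polynomial.finsetSum_coeff, Polynomial.coeff_zero] at h1
    rw [Finset.sum_eq_single j₀] at h1
    · rw [Polynomial.coeff_monomial, if_pos rfl] at h1
      exact hc (by exact_mod_cast h1)
    · intro j hj' hne
      rw [Polynomial.coeff_monomial, if_neg]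
      have := hK j hj'
      have := hK j₀ hj
      omega
    · intro h; exact absurd hj h
  have hfin : (Q.roots.toFinset : Set ℝ).Finite := Finset.finite_toSet _
  obtain ⟨m, hm, hmQ⟩ := (Set.Ioi_infinite (0 : ℝ)).exists_notMem_finset Q.roots.toFinset
  refine ⟨m, hm, fun h0 => hmQ ?_⟩
  rw [Multiset.mem_toFinset, Polynomial.mem_roots hQ0, Polynomial.IsRoot.def, hQ,
    Polynomial.eval_finsetSum]
  have hm0 : (m : ℝ) ≠ 0 := ne_of_gt hm
  have h2 : ∑ j ∈ J, (Polynomial.monomial (j + K).toNat (c j : ℝ)).eval m =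
      m ^ K * ∑ j ∈ J, (c j : ℝ) * m ^ j := by
    rw [Finset.mul_sum]
    refine Finset.sum_congr rfl fun j hj' => ?_
    rw [Polynomial.eval_monomial]
    have h3 : m ^ (j + K).toNat = m ^ K * m ^ j := by
      rw [← zpow_natCast, Int.toNat_of_nonneg (hK j hj'), zpow_add₀ hm0, zpow_natCast]
      ring
    rw [h3]; ring
  rw [h2, h0, mul_zero]

/-- every positive number is `q - q⁻¹` for some `q > 1` -/
theorem exists_q (m : ℝ) (hm : 0 < m) : ∃ q : ℝ, 1 < q ∧ q - q⁻¹ = m := by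
  set r := Real.sqrt (m ^ 2 + 4) with hr
  have h1 : r ^ 2 = m ^ 2 + 4 := Real.sq_sqrt (by positivity)
  have h2 : 2 < r := by
    by_contra hcon
    push Not at hcon
    have : 0 ≤ r := Real.sqrt_nonneg _
    nlinarith
  refine ⟨(m + r) / 2, by linarith, ?_⟩
  have h3 : (m + r) / 2 ≠ 0 := by positivity
  field_simp
  nlinarith

end Pool.Agent.Helper82_Alt.PF
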