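import Pool.Agent.Helper82_Alt.Spec
import Pool.Agent.H560R3.TG.Inv3

/-!
# K1: the bracket obeys Kauffman's rules
-/

set_option autoImplicit false
set_option linter.unusedSimpArgs false

namespace Pool.Agent.Helper82_Alt.PK1

open Pool.Agent.Helper454.Kauf (Piece Word Closed RegIsotopic RegStep LocalMove FirstMove circle
  width)
open Pool.Agent.H560R3.TG (Rel Agree WF opW opW_append opW_congr opW_smul opW_lin V crOp al kf dd Fn
  Good)

/-! ### widths -/

theorem wf_iff (w : Word) (n m : ℕ) : width w n = some m ↔ WF n (tg w) m := by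
  induction w generalizing n with
  | nil => simp [width, tg, WF]
  | cons p w ih =>
    have ih' : ∀ n, WF n (tg w) m ↔ width w n = some m := fun n => (ih n).symm
    unfold tg at ih' ⊢
    cases p <;> simp only [width, Piece.width, List.map_cons, tgP, WF, ih'] <;> split_ifs with h <;>
      simp [h]

theorem width_append (u v : Word) (n m : ℕ) :
    width (u ++ v) n = some m ↔ ∃ k, width u n = some k ∧ width v k = some m := by
  simp only [wf_iff]
  unfold tg
  rw [List.map_append]
  exact H560R3.TG.WF_append _ _ _ _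

theorem width_split {x l y : Word} (h : Closed (x ++ l ++ y)) :
    ∃ n m, width x 0 = some n ∧ width l n = some m ∧ width y m = some 0 := by
  obtain ⟨m, h1, h2⟩ := (width_append _ _ _ _).1 h
  obtain ⟨n, h3, h4⟩ := (width_append _ _ _ _).1 h1
  exact ⟨n, m, h3, h4, h2⟩

/-! ### signs -/

theorem births_append (u v : Word) : births (u ++ v) = births u + births v := by
  simp [births]

theorem tg_append (u v : Word) : tg (u ++ v) = tg u ++ tg v := by simp [tg]

/-- the sign of a word -/
def sg (w : Word) : ℝ := (-1) ^ births w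

theorem sg_append (u v : Word) : sg (u ++ v) = sg u * sg v := by
  unfold sg; rw [births_append, pow_add]

theorem sg_ne (w : Word) : sg w ≠ 0 := pow_ne_zero _ (by norm_num)

theorem sg_sq (w : Word) : sg w * sg w = 1 := by
  unfold sg; rw [← mul_pow]; norm_num

/-! ### relations -/

/-- `l` and `r` have the same value up to the factor `c`, if there are `n` strands at the top -/
def KRel (t : ℝ) (n : ℕ) (c : ℝ) (l r : Word) : Prop :=
  Rel t⁻¹ n (sg l * sg r * c) (tg l) (tg r)

theorem brk_rel {t c : ℝ} {x l r y : Word} {n : ℕ} (hx : width x 0 = some n)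
    (h : KRel t n c l r) : brk t (x ++ l ++ y) = c * brk t (x ++ r ++ y) := by
  have h3 : V t⁻¹ (tg (x ++ l ++ y)) = sg l * sg r * c * V t⁻¹ (tg (x ++ r ++ y)) := by
    unfold V
    rw [tg_append, tg_append, tg_append, tg_append]
    rw [List.append_assoc, List.append_assoc, opW_append, opW_append, opW_append, opW_append]
    have h2 := h 0 (opW t⁻¹ 0 (tg y) (fun F => if F = [] then 1 else 0))
    have h3 := opW_congr t⁻¹ 0 (tg x) 0 n ((wf_iff _ _ _).1 hx) _ _ h2 [] rfl rfl
    rw [h3, opW_smul]
  show sg (x ++ l ++ y) * V t⁻¹ (tg (x ++ l ++ y)) = c * (sg (x ++ r ++ y) * _)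
  rw [h3, sg_append, sg_append, sg_append, sg_append]
  linear_combination (sg x * sg r * sg y * c * V t⁻¹ (tg (x ++ r ++ y))) * sg_sq l

theorem sg_cast (w : Word) (k : ℕ) (h : births w % 2 = k % 2) : sg w = (-1) ^ k := by
  unfold sg
  rcases Nat.even_or_odd (births w) with h1 | h1
  · have h2 : Even k := by rw [Nat.even_iff] at *; omega
    rw [h1.neg_one_pow, h2.neg_one_pow]
  · have h2 : Odd k := by rw [Nat.odd_iff] at *; omega
    rw [h1.neg_one_pow, h2.neg_one_pow]

theorem sg_mul_even (l r : Word) (h : (births l + births r) % 2 = 0) : sg l * sg r = 1 := by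
  rw [← sg_append, sg_cast (l ++ r) 0 (by rw [births_append]; omega), pow_zero]

theorem sg_mul_odd (l r : Word) (h : (births l + births r) % 2 = 1) : sg l * sg r = -1 := by
  rw [← sg_append, sg_cast (l ++ r) 1 (by rw [births_append]; omega), pow_one]

theorem width_le {p : Piece} {w : Word} {n m : ℕ} (h : width (p :: w) n = some m) :
    p.index + p.ins ≤ n ∧ width w (n - p.ins + p.outs) = some m := by
  cases p <;> simp only [width, Piece.width] at h <;> split_ifs at h with h1
  all_goals first
    | (simp at h; done)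
    | skip
  · exact ⟨h1, by simpa [Piece.ins, Piece.outs] using h⟩
  · exact ⟨h1, by simpa [Piece.ins, Piece.outs] using h⟩
  · refine ⟨h1, ?_⟩
    have : n - 2 + 2 = n := by omega
    simpa [Piece.ins, Piece.outs, this] using h
  · refine ⟨h1, ?_⟩
    have : n - 2 + 2 = n := by omega
    simpa [Piece.ins, Piece.outs, this] using h

theorem tgP_pos (p : Piece) : (tgP p).pos = p.index := by cases p <;> rfl
theorem tgP_src (p : Piece) : (tgP p).src = p.ins := by cases p <;> rfl
theorem tgP_tgt (p : Piece) : (tgP p).tgt = p.outs := by cases p <;> rfl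
theorem tgP_moved (p : Piece) (j : ℕ) : tgP (p.moved j) = (tgP p).put j := by cases p <;> rfl

/-- exponent of the sign of a piece -/
def be : Piece → ℕ
  | .birth i => i + 1
  | .death i => i
  | _ => 0

theorem births_cons (p : Piece) (w : Word) : births (p :: w) = be p + births w := by
  cases p <;> simp [births, be]

theorem births_nil : births [] = 0 := rfl

theorem be_moved (p : Piece) (j : ℕ) (h : j % 2 = p.index % 2) : be (p.moved j) % 2 = be p % 2 := by
  cases p <;> simp only [be, Piece.moved, Piece.index] at * <;> omega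

theorem local_rel {t : ℝ} (ht : 0 < t) {l r : Word} (h : LocalMove l r) {n m m' : ℕ}
    (hl : width l n = some m) (hr : width r n = some m') : KRel t n 1 l r := by
  have ht' : 0 < t⁻¹ := inv_pos.2 ht
  unfold KRel
  rw [mul_one]
  cases h with
  | exchange p q h =>
    have h1 := (width_le hr).1
    have h2 : sg [p, q.moved (q.index + p.outs - p.ins)] * sg [q, p] = 1 := by
      apply sg_mul_even
      have : be (q.moved (q.index + p.outs - p.ins)) % 2 = be q % 2 := by
        apply be_moved
        have hio : p.ins ≤ q.index := le_trans (Nat.le_add_left _ _) h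
        have : p.ins = 0 ∨ p.ins = 2 := by cases p <;> simp [Piece.ins]
        have : p.outs = 0 ∨ p.outs = 2 := by cases p <;> simp [Piece.outs]
        omega
      simp only [births_cons, births_nil]
      omega
    rw [h2]
    have h3 := H560R3.TG.rel_far (t := t⁻¹) n (tgP p) (tgP q)
      (by rw [tgP_pos, tgP_src, tgP_pos]; exact h) (by rw [tgP_pos, tgP_src]; exact h1)
    rw [tgP_pos, tgP_src, tgP_tgt] at h3
    have h4 : q.index + p.outs - p.ins = q.index - p.ins + p.outs := by
      have hio : p.ins ≤ q.index := le_trans (Nat.le_add_left _ _) h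
      omega
    rw [← h4, ← tgP_moved] at h3
    exact h3
  | zigzag₁ i =>
    obtain ⟨a1, a2⟩ := width_le hl
    obtain ⟨a3, a4⟩ := width_le a2
    simp only [Piece.index, Piece.ins, Piece.outs] at a1 a3
    rw [sg_mul_even _ _ (by simp only [births_cons, births_nil, be]; omega)]
    exact H560R3.TG.rel_zig1 ht' n i (by omega)
  | zigzag₂ i =>
    obtain ⟨a1, a2⟩ := width_le hl
    simp only [Piece.index, Piece.ins] at a1
    rw [sg_mul_even _ _ (by simp only [births_cons, births_nil, be]; omega)]
    exact H560R3.TG.rel_zig2 ht' n i (by omega)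
  | slideBirth₁ i =>
    obtain ⟨a1, a2⟩ := width_le hr
    simp only [Piece.index, Piece.ins] at a1
    rw [sg_mul_odd _ _ (by simp only [births_cons, births_nil, be]; omega)]
    exact H560R3.TG.rel_sb ht' n i false (by omega)
  | slideBirth₂ i =>
    obtain ⟨a1, a2⟩ := width_le hr
    simp only [Piece.index, Piece.ins] at a1
    rw [sg_mul_odd _ _ (by simp only [births_cons, births_nil, be]; omega)]
    exact H560R3.TG.rel_sb ht' n i true (by omega)
  | slideDeath₁ i =>
    obtain ⟨a1, a2⟩ := width_le hl
    simp only [Piece.index, Piece.ins] at a1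
    rw [sg_mul_odd _ _ (by simp only [births_cons, births_nil, be]; omega)]
    exact H560R3.TG.rel_sd ht' n i false (by omega)
  | slideDeath₂ i =>
    obtain ⟨a1, a2⟩ := width_le hl
    simp only [Piece.index, Piece.ins] at a1
    rw [sg_mul_odd _ _ (by simp only [births_cons, births_nil, be]; omega)]
    exact H560R3.TG.rel_sd ht' n i true (by omega)
  | second₁ i =>
    obtain ⟨a1, a2⟩ := width_le hl
    simp only [Piece.index, Piece.ins] at a1
    rw [sg_mul_even _ _ (by simp only [births_cons, births_nil, be])]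
    exact H560R3.TG.rel_r2 ht' n i false (by omega)
  | second₂ i =>
    obtain ⟨a1, a2⟩ := width_le hl
    simp only [Piece.index, Piece.ins] at a1
    rw [sg_mul_even _ _ (by simp only [births_cons, births_nil, be])]
    exact H560R3.TG.rel_r2 ht' n i true (by omega)
  | third i =>
    obtain ⟨a1, a2⟩ := width_le hr
    simp only [Piece.index, Piece.ins] at a1
    rw [sg_mul_even _ _ (by simp only [births_cons, births_nil, be])]
    exact H560R3.TG.rel_r3 ht' n i false false false (fun _ => rfl) (by omega)

theorem brk_regStep {t : ℝ} (ht : 0 < t) {D E : Word} (h : RegStep D E) : brk t D = brk t E := by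
  obtain ⟨x, l, r, y, h, hl, hr⟩ := h
  obtain ⟨n, m, h1, h2, h3⟩ := width_split hl
  obtain ⟨n', m', h1', h2', h3'⟩ := width_split hr
  obtain rfl : n = n' := by rw [h1] at h1'; exact Option.some.inj h1'
  have := brk_rel (y := y) h1 (local_rel ht h h2 h2')
  rw [one_mul] at this
  exact this

theorem kf_false {s : ℝ} (hs : 0 < s) : kf s false = - s ^ 3 := by
  have : s * s⁻¹ = 1 := mul_inv_cancel₀ hs.ne'
  simp only [kf, al, dd, Bool.not_false, if_true, Bool.false_eq_true, if_false]
  linear_combination (-s⁻¹) * this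

theorem kf_true {s : ℝ} (hs : 0 < s) : kf s true = - (s⁻¹) ^ 3 := by
  have : s * s⁻¹ = 1 := mul_inv_cancel₀ hs.ne'
  simp only [kf, al, dd, Bool.not_true, if_true, Bool.false_eq_true, if_false]
  linear_combination (-s) * this

theorem birthPos_rel {t : ℝ} (ht : 0 < t) (n i : ℕ) (h : i ≤ n) :
    KRel t n (-(t⁻¹) ^ 3) [.birth i, .pos i] [.birth i] := by
  have ht' : 0 < t⁻¹ := inv_pos.2 ht
  unfold KRel
  rw [sg_mul_even _ _ (by simp only [births_cons, births_nil, be]; omega), one_mul, ← kf_false ht']
  exact H560R3.TG.rel_r1 ht' n i false h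

theorem birthNeg_rel {t : ℝ} (ht : 0 < t) (n i : ℕ) (h : i ≤ n) :
    KRel t n (-t ^ 3) [.birth i, .neg i] [.birth i] := by
  have ht' : 0 < t⁻¹ := inv_pos.2 ht
  unfold KRel
  have e : -t ^ 3 = kf t⁻¹ true := by rw [kf_true ht', inv_inv]
  rw [sg_mul_even _ _ (by simp only [births_cons, births_nil, be]; omega), one_mul, e]
  exact H560R3.TG.rel_r1 ht' n i true h

theorem deathPos_rel {t : ℝ} (ht : 0 < t) (n i : ℕ) (h : i + 2 ≤ n) :
    KRel t n (-(t⁻¹) ^ 3) [.pos i, .death i] [.death i] := by
  have ht' : 0 < t⁻¹ := inv_pos.2 ht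
  unfold KRel
  rw [sg_mul_even _ _ (by simp only [births_cons, births_nil, be]; omega), one_mul, ← kf_false ht']
  exact H560R3.TG.rel_r1' ht' n i false h

theorem deathNeg_rel {t : ℝ} (ht : 0 < t) (n i : ℕ) (h : i + 2 ≤ n) :
    KRel t n (-t ^ 3) [.neg i, .death i] [.death i] := by
  have ht' : 0 < t⁻¹ := inv_pos.2 ht
  unfold KRel
  have e : -t ^ 3 = kf t⁻¹ true := by rw [kf_true ht', inv_inv]
  rw [sg_mul_even _ _ (by simp only [births_cons, births_nil, be]; omega), one_mul, e]
  exact H560R3.TG.rel_r1' ht' n i true h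

/-- the smoothing relation of a crossing -/
theorem brk_cross (t : ℝ) (x y : Word) (i : ℕ) (b : Bool) :
    brk t (x ++ [if b then .neg i else .pos i] ++ y) =
      al t⁻¹ b * brk t (x ++ y) + al t⁻¹ (!b) * brk t (x ++ [.death i, .birth i] ++ y) := by
  have e1 : sg [if b then Piece.neg i else Piece.pos i] = 1 := by
    cases b <;> simp [sg, births]
  have e2 : sg [Piece.death i, Piece.birth i] = -1 := by
    rw [sg_cast _ 1 (by simp only [births_cons, births_nil, be]; omega), pow_one]
  have e3 : tg [if b then Piece.neg i else Piece.pos i] = [.cr i b] := by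
    cases b <;> simp [tg, tgP]
  have e4 : tg [Piece.death i, Piece.birth i] = [.death i, .birth i] := rfl
  show sg (x ++ [if b then .neg i else .pos i] ++ y) * V t⁻¹ _ =
    al t⁻¹ b * (sg (x ++ y) * V t⁻¹ _) +
      al t⁻¹ (!b) * (sg (x ++ [.death i, .birth i] ++ y) * V t⁻¹ _)
  rw [sg_append, sg_append, sg_append, sg_append, sg_append, e1, e2]
  simp only [tg_append, e3, e4]
  unfold V
  rw [opW_append, opW_append, opW_append, opW_append, opW_append]
  set f : Fn := opW t⁻¹ 0 (tg y) (fun F => if F = [] then 1 else 0) with hf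
  have e5 : opW t⁻¹ 0 [H560R3.TG.Piece.cr i b] f =
      fun F => al t⁻¹ b * f F + (-(al t⁻¹ (!b))) * opW t⁻¹ 0 [.death i, .birth i] f F := by
    funext F
    show crOp t⁻¹ 0 i b f F = _
    unfold crOp
    simp only [opW, H560R3.TG.op]
    ring
  rw [e5, opW_lin]
  ring

theorem brk_pos (t : ℝ) (x y : Word) (i : ℕ) :
    brk t (x ++ [.pos i] ++ y) = t * brk t (x ++ y) +
      t⁻¹ * brk t (x ++ [.death i, .birth i] ++ y) := by
  have := brk_cross t x y i false
  simpa [al] using this

theorem brk_neg (t : ℝ) (x y : Word) (i : ℕ) :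
    brk t (x ++ [.neg i] ++ y) = t⁻¹ * brk t (x ++ y) +
      t * brk t (x ++ [.death i, .birth i] ++ y) := by
  have := brk_cross t x y i true
  simpa [al] using this

theorem t_K1 : S_K1 := by
  intro t ht
  refine ⟨⟨?_, ?_, ?_, ?_, ?_, ?_⟩, ?_⟩
  · intro D E h
    induction h with
    | rel _ _ h => exact brk_regStep ht h
    | refl _ => rfl
    | symm _ _ _ ih => exact ih.symm
    | trans _ _ _ _ _ ih1 ih2 => exact ih1.trans ih2
  · intro x i y h
    obtain ⟨n, m, h1, h2, h3⟩ := width_split h
    exact brk_rel h1 (birthPos_rel ht n i (width_le h2).1)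
  · intro x i y h
    obtain ⟨n, m, h1, h2, h3⟩ := width_split h
    exact brk_rel h1 (birthNeg_rel ht n i (width_le h2).1)
  · intro x i y h
    obtain ⟨n, m, h1, h2, h3⟩ := width_split h
    exact brk_rel h1 (deathPos_rel ht n i (width_le h2).1)
  · intro x i y h
    obtain ⟨n, m, h1, h2, h3⟩ := width_split h
    exact brk_rel h1 (deathNeg_rel ht n i (width_le h2).1)
  · intro x i y _
    rw [brk_pos, brk_neg]
    ring
  · have h1 : V t⁻¹ (tg circle) = dd t⁻¹ := by
      have := H560R3.TG.circ (t := t⁻¹) (inv_pos.2 ht) 0 0 le_rfl 0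
        (fun F => if F = [] then 1 else 0) [] rfl rfl
      refine Eq.trans this ?_
      simp
    have h2 : (-1 : ℝ) ^ births circle = -1 := by simp [births, circle]
    show (-1) ^ births circle * V t⁻¹ (tg circle) = _
    rw [h1, h2]
    unfold dd
    rw [inv_inv]
    ring

end Pool.Agent.Helper82_Alt.PK1
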