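import Pool.Agent.Helper82_Alt.K1

/-!
# K2: the Jones polynomial obeys the skein relations
-/

set_option autoImplicit false
set_option linter.unusedSimpArgs false

namespace Pool.Agent.Helper82_Alt.PK2

open Pool.Agent.Helper454.Kauf (Piece Word Closed RegIsotopic RegStep LocalMove FirstMove circle
  width)
open Pool.Agent.Helper454.Wh (OPiece OWord below noD forget OClosed dirs HomflyRules OStep
  OIsotopic insD delD swpD)
open Pool.Agent.Helper82_Alt.PK1

theorem below_append (u v : OWord) (n : ℕ) (d : ℕ → Bool) :
    below (u ++ v) n d = (below u n d).bind fun s => below v s.1 s.2 := by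
  induction u generalizing n d with
  | nil => simp [below]
  | cons p u ih =>
    simp only [List.cons_append, below]
    rcases h : p.below n d with _ | s
    · simp
    · simp [ih]

theorem below_split {u v : OWord} {n k : ℕ} {d f : ℕ → Bool}
    (h : below (u ++ v) n d = some (k, f)) :
    ∃ m e, below u n d = some (m, e) ∧ below v m e = some (k, f) := by
  rw [below_append] at h
  rcases h1 : below u n d with _ | ⟨m, e⟩
  · rw [h1] at h; simp at h
  · rw [h1] at h
    exact ⟨m, e, rfl, h⟩

theorem width_of_below {w : OWord} {n m : ℕ} {d e : ℕ → Bool} (h : below w n d = some (m, e)) :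
    width (forget w) n = some m := by
  induction w generalizing n d with
  | nil =>
    simp only [below, Option.some.injEq, Prod.mk.injEq] at h
    simp [forget, width, h.1]
  | cons p w ih =>
    simp only [below] at h
    rcases h1 : p.below n d with _ | ⟨k, f⟩
    · rw [h1] at h; simp at h
    · rw [h1] at h
      have h2 := ih (n := k) (d := f) h
      have h3 : (OPiece.forget p).width n = some k := by
        cases p <;> simp only [OPiece.below] at h1 <;> split_ifs at h1 with h4
        all_goals
          simp only [Option.some.injEq, Prod.mk.injEq] at h1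
          simp only [OPiece.forget, Piece.width]
        · rw [if_pos h4, h1.1]
        · rw [if_pos h4.1, h1.1]
        · rw [if_pos h4, h1.1]
        · rw [if_pos h4, h1.1]
      show ((OPiece.forget p).width n).bind (width (forget w)) = some m
      rw [h3]
      exact h2

theorem oclosed_some {D : OWord} (h : OClosed D) : ∃ e, below D 0 noD = some (0, e) := by
  unfold OClosed at h
  rcases h1 : below D 0 noD with _ | ⟨k, f⟩
  · rw [h1] at h; simp at h
  · rw [h1] at h
    simp only [Option.map_some, Option.some.injEq] at h
    have h : k = 0 := h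
    exact ⟨f, by rw [h]⟩

theorem oclosed_split {x l y : OWord} (h : OClosed (x ++ l ++ y)) :
    ∃ n d m e f, below x 0 noD = some (n, d) ∧ below l n d = some (m, e) ∧
      below y m e = some (0, f) := by
  obtain ⟨f, h1⟩ := oclosed_some h
  obtain ⟨m, e, h2, h3⟩ := below_split h1
  obtain ⟨n, d, h4, h5⟩ := below_split h2
  exact ⟨n, d, m, e, f, h4, h5, h3⟩

theorem forget_append (u v : OWord) : forget (u ++ v) = forget u ++ forget v := by simp [forget]

theorem writhe_split (hW : S_W2) {x l y : OWord} {n m : ℕ} {d e : ℕ → Bool}
    (hx : below x 0 noD = some (n, d)) (hl : below l n d = some (m, e)) :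
    writhe (x ++ l ++ y) = writheFrom x 0 noD + writheFrom l n d + writheFrom y m e := by
  unfold writhe
  have h1 : below (x ++ l) 0 noD = some (m, e) := by
    rw [below_append, hx]; exact hl
  rw [hW (x ++ l) y 0 noD m e h1, hW x l 0 noD n d hx]

/-- the factor of the bracket under a first move -/
theorem first_rel {t : ℝ} (ht : 0 < t) {l r : Word} (h : FirstMove l r) {n m : ℕ}
    (hr : width r n = some m) : KRel t n ((-t ^ 3) ^ curlSign l) l r := by
  have h0 : (-t ^ 3) ≠ 0 := by
    have := pow_pos ht 3
    intro h; linarith
  have hinv : (-t ^ 3) ^ (-1 : ℤ) = -(t⁻¹) ^ 3 := by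
    rw [zpow_neg_one, inv_neg, inv_pow]
  cases h with
  | birthPos i =>
    have e : curlSign [Piece.birth i, .pos i] = -1 := by simp [curlSign]
    rw [e, hinv]
    exact birthPos_rel ht n i (width_le hr).1
  | birthNeg i =>
    have e : curlSign [Piece.birth i, .neg i] = 1 := by simp [curlSign]
    rw [e, zpow_one]
    exact birthNeg_rel ht n i (width_le hr).1
  | deathPos i =>
    have e : curlSign [Piece.pos i, .death i] = -1 := by simp [curlSign]
    rw [e, hinv]
    exact deathPos_rel ht n i (width_le hr).1
  | deathNeg i =>
    have e : curlSign [Piece.neg i, .death i] = 1 := by simp [curlSign]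
    rw [e, zpow_one]
    exact deathNeg_rel ht n i (width_le hr).1

theorem step {t : ℝ} (ht : 0 < t) (hW1 : S_W1) (hW2 : S_W2) {D E : OWord} (h : OStep D E) :
    (-t ^ 3) ^ (-writhe D) * brk t (forget D) = (-t ^ 3) ^ (-writhe E) * brk t (forget E) := by
  obtain ⟨x, l, r, y, n, d, h, hx, hlr, hl, hr⟩ := h
  have h0 : (-t ^ 3) ≠ 0 := by
    have := pow_pos ht 3
    intro h; linarith
  obtain ⟨n', d', m, e, f, h1, h2, h3⟩ := oclosed_split hl
  rw [hx] at h1
  simp only [Option.some.injEq, Prod.mk.injEq] at h1
  obtain ⟨rfl, rfl⟩ := h1
  have h2' : below r n d = some (m, e) := by rw [← hlr]; exact h2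
  have hs : (below l n d).isSome := by rw [h2]; rfl
  rw [writhe_split hW2 hx h2, writhe_split hW2 hx h2']
  simp only [forget_append]
  rcases h with h | h
  · have e1 := hW1.1 l r n d h hlr hs
    have e2 := brk_rel (y := forget y) (width_of_below hx)
      (local_rel ht h (width_of_below h2) (width_of_below h2'))
    rw [e1, e2, one_mul]
  · have e1 := hW1.2 l r n d h hlr hs
    have e2 := brk_rel (y := forget y) (width_of_below hx)
      (first_rel ht h (width_of_below h2'))
    rw [e1, e2, ← mul_assoc, ← zpow_add₀ h0]
    congr 2
    ring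

theorem t_K2 (hW1 : S_W1) (hW2 : S_W2) : S_K2 := by
  intro t ht
  have h0 : (-t ^ 3) ≠ 0 := by
    have := pow_pos ht 3
    intro h; linarith
  have ht0 : t ≠ 0 := ht.ne'
  have z4 : t ^ (4 : ℤ) = t ^ 4 := by exact_mod_cast zpow_natCast t 4
  have z4' : t ^ (-4 : ℤ) = (t⁻¹) ^ 4 := by
    rw [zpow_neg, z4, inv_pow]
  have z2 : t ^ (2 : ℤ) = t ^ 2 := by exact_mod_cast zpow_natCast t 2
  have z2' : t ^ (-2 : ℤ) = (t⁻¹) ^ 2 := by
    rw [zpow_neg, z2, inv_pow]
  have hts : t * t⁻¹ = 1 := mul_inv_cancel₀ ht0
  refine ⟨?_, ?_, ?_⟩
  · intro D E h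
    induction h with
    | rel _ _ h => exact step ht hW1 hW2 h
    | refl _ => rfl
    | symm _ _ _ ih => exact ih.symm
    | trans _ _ _ _ _ ih1 ih2 => exact ih1.trans ih2
  · intro x i y hc hd
    obtain ⟨n, d, m, e, f, h1, h2, h3⟩ := oclosed_split hc
    have hdir : dirs x = d := by unfold dirs; rw [h1]; rfl
    rw [hdir] at hd
    simp only [below, OPiece.below] at h2
    split_ifs at h2 with hn
    · simp only [Option.bind_some, Option.some.injEq, Prod.mk.injEq] at h2
      obtain ⟨rfl, rfl⟩ := h2
      have hsw : swpD i d = d := by
        funext k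
        unfold swpD
        split_ifs with k1 k2
        · rw [k1, hd]
        · rw [k2, hd]
        · rfl
      have b1 : below [.pos i] n d = some (n, d) := by
        simp [below, OPiece.below, hn, hsw]
      have b2 : below [.neg i] n d = some (n, d) := by
        simp [below, OPiece.below, hn, hsw]
      have b3 : below [] n d = some (n, d) := rfl
      have w1 := writhe_split hW2 (y := y) h1 b1
      have w2 := writhe_split hW2 (y := y) h1 b2
      have w3 := writhe_split hW2 (y := y) h1 b3
      rw [List.append_nil] at w3
      have v1 : writheFrom [.pos i] n d = 1 := by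
        simp [writheFrom, osign, hd, OPiece.below, hn]
      have v2 : writheFrom [.neg i] n d = -1 := by
        simp [writheFrom, osign, hd, OPiece.below, hn]
      have v3 : writheFrom [] n d = 0 := rfl
      rw [v1] at w1
      rw [v2] at w2
      rw [v3] at w3
      simp only [smul_eq_mul]
      rw [w1, w2, w3]
      simp only [forget_append]
      have f1 : forget [OPiece.pos i] = [.pos i] := rfl
      have f2 : forget [OPiece.neg i] = [.neg i] := rfl
      rw [f1, f2, brk_pos, brk_neg, z4, z4', z2, z2']
      set a := writheFrom x 0 noD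
      set b := writheFrom y n d
      set P := brk t (forget x ++ forget y)
      set Q := brk t (forget x ++ [Piece.death i, Piece.birth i] ++ forget y)
      have s1 : (-t ^ 3) ^ (-(a + 1 + b)) = (-t ^ 3) ^ (-(a + 0 + b)) * (-(t⁻¹) ^ 3) := by
        have : -(a + 1 + b) = -(a + 0 + b) + (-1) := by ring
        rw [this, zpow_add₀ h0, zpow_neg_one, inv_neg, inv_pow]
      have s2 : (-t ^ 3) ^ (-(a + -1 + b)) = (-t ^ 3) ^ (-(a + 0 + b)) * (-t ^ 3) := by
        have : -(a + -1 + b) = -(a + 0 + b) + 1 := by ring
        rw [this, zpow_add₀ h0, zpow_one]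
      rw [s1, s2]
      set W := (-t ^ 3) ^ (-(a + 0 + b))
      field_simp
      ring
    · simp at h2
  · intro x i y hc hd
    obtain ⟨n, d, m, e, f, h1, h2, h3⟩ := oclosed_split hc
    have hdir : dirs x = d := by unfold dirs; rw [h1]; rfl
    rw [hdir] at hd ⊢
    simp only [below, OPiece.below] at h2
    split_ifs at h2 with hn
    · simp only [Option.bind_some, Option.some.injEq, Prod.mk.injEq] at h2
      obtain ⟨rfl, rfl⟩ := h2
      have hd' : d (i + 1) = !d i := by
        revert hd
        cases d i <;> cases d (i + 1) <;> simp
      have b1 : below [.pos i] n d = some (n, swpD i d) := by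
        simp [below, OPiece.below, hn]
      have b2 : below [.neg i] n d = some (n, swpD i d) := by
        simp [below, OPiece.below, hn]
      have hsw : insD i (d (i + 1)) (delD i d) = swpD i d := by
        funext k
        unfold insD delD swpD
        by_cases k1 : k < i
        · have k2 : k ≠ i := by omega
          have k3 : k ≠ i + 1 := by omega
          simp [k1, k2, k3]
        · by_cases k2 : k = i
          · subst k2; simp
          · by_cases k3 : k = i + 1
            · subst k3; simp [hd']
            · have k4 : ¬ (k - 2 < i) := by omega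
              have k5 : k - 2 + 2 = k := by omega
              simp [k1, k2, k3, k4, k5]
      have b3 : below [.death i, .birth i (d (i + 1))] n d = some (n, swpD i d) := by
        have hin : i ≤ n - 2 := by omega
        have hnn : n - 2 + 2 = n := by omega
        simp only [below, OPiece.below]
        rw [if_pos ⟨hn, hd'⟩]
        simp only [Option.bind_some]
        rw [if_pos hin]
        simp only [Option.bind_some]
        rw [hsw, hnn]
      have w1 := writhe_split hW2 (y := y) h1 b1
      have w2 := writhe_split hW2 (y := y) h1 b2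
      have w3 := writhe_split hW2 (y := y) h1 b3
      have v1 : writheFrom [.pos i] n d = -1 := by
        simp [writheFrom, osign, hd, OPiece.below, hn]
      have v2 : writheFrom [.neg i] n d = 1 := by
        simp [writheFrom, osign, hd, OPiece.below, hn]
      have v3 : writheFrom [.death i, .birth i (d (i + 1))] n d = 0 := by
        have hin : i ≤ n - 2 := by omega
        simp only [writheFrom, osign, OPiece.below]
        rw [if_pos ⟨hn, hd'⟩]
        simp only [if_pos hin]
        rfl
      rw [v1] at w1
      rw [v2] at w2
      rw [v3] at w3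
      simp only [smul_eq_mul]
      rw [w1, w2, w3]
      simp only [forget_append]
      have f1 : forget [OPiece.pos i] = [.pos i] := rfl
      have f2 : forget [OPiece.neg i] = [.neg i] := rfl
      have f3 : forget [OPiece.death i, OPiece.birth i (d (i + 1))] = [.death i, .birth i] := rfl
      rw [f1, f2, f3, brk_pos, brk_neg, z4, z4', z2, z2']
      set a := writheFrom x 0 noD
      set b := writheFrom y n (swpD i d)
      set P := brk t (forget x ++ forget y)
      set Q := brk t (forget x ++ [Piece.death i, Piece.birth i] ++ forget y)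
      have s1 : (-t ^ 3) ^ (-(a + 1 + b)) = (-t ^ 3) ^ (-(a + 0 + b)) * (-(t⁻¹) ^ 3) := by
        have : -(a + 1 + b) = -(a + 0 + b) + (-1) := by ring
        rw [this, zpow_add₀ h0, zpow_neg_one, inv_neg, inv_pow]
      have s2 : (-t ^ 3) ^ (-(a + -1 + b)) = (-t ^ 3) ^ (-(a + 0 + b)) * (-t ^ 3) := by
        have : -(a + -1 + b) = -(a + 0 + b) + 1 := by ring
        rw [this, zpow_add₀ h0, zpow_one]
      rw [s1, s2]
      set W := (-t ^ 3) ^ (-(a + 0 + b))
      field_simp
      ring
    · simp at h2

end Pool.Agent.Helper82_Alt.PK2
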