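import Pool.Agent.Helper82_Alt.K3c

/-! Growth of the bracket of a reduced alternating diagram. -/

set_option autoImplicit false
set_option linter.unusedSimpArgs false

namespace Pool.Agent.Helper82_Alt.PK3

open Pool.Agent.Helper454.Kauf (Word Closed)
open Pool.Agent.H560R3
open Pool.Agent.H560R3.TG (WF Slice Loc Path Labelling cur crossings holes holeLabels sts trE kp
  Adj AllAdj trF)

/-! ### the weight of the standard labelling -/

theorem phi_sum' {S G : Type} (c : Bool) (ω : G → ℤ) (a : G) (E : List (Slice S G)) :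
    TG.Phi c ω a E = (E.map (fun s => s.p.wt c ω (cur a s.L))).sum := by
  induction E with
  | nil => rfl
  | cons s E ih => simp only [TG.Phi, List.map_cons, List.sum_cons, ih]

def wP (c : Bool) : TG.Piece → ℤ
  | .birth i => ((i + 1) % 2 : ℕ)
  | .death i => - ((i % 2 : ℕ) : ℤ)
  | .cr i b => if b = c then 0 else (((i + 1) % 2 : ℕ) : ℤ) - ((i % 2 : ℕ) : ℤ)
  | .hole _ => 0

theorem cur_par (x : ℕ) (L : List (Unit × ℕ)) (hx : x ≤ 1) (h : Adj TG.R01 x L) :
    cur x L = (x + L.length) % 2 := by
  induction L generalizing x with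
  | nil => show x = _; simp only [List.length_nil]; omega
  | cons p L ih =>
    have h1 := h.1
    have h2 := ih p.2 (by unfold TG.R01 at h1; omega) h.2
    show cur p.2 L = _
    rw [h2, List.length_cons]
    unfold TG.R01 at h1
    omega

theorem phi_par (c : Bool) (P : List (Slice Unit ℕ)) (D : List TG.Piece) (hP : Labelling 0 P D)
    (hA : AllAdj TG.R01 0 [] P) : TG.Phi c TG.ht 0 P = (D.map (wP c)).sum := by
  rw [phi_sum', ← hP.2, List.map_map]
  congr 1
  apply List.map_congr_left
  intro s hs
  obtain ⟨m1, m2⟩ := TG.src_mem_sts _ _ _ _ hP.1 s hs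
  obtain ⟨L, q, R⟩ := s
  cases q with
  | birth u y =>
    have m2' : L ++ ((), y) :: ((), cur 0 L) :: R ∈ sts 0 [] P := by
      simpa [Slice.tgt, Loc.tgt] using m2
    obtain ⟨a1, a2, -⟩ := TG.state_adj hA m2'
    have h1 := cur_par 0 L (by omega) a1
    simp only [Function.comp, Slice.plain, Loc.wt, wP, TG.ht]
    have h2 : y = (L.length + 1) % 2 := by
      rw [h1] at a2
      unfold TG.R01 at a2
      omega
    rw [h2]
  | death u y =>
    have m2' : L ++ R ∈ sts 0 [] P := by
      simpa [Slice.tgt, Loc.tgt] using m2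
    obtain ⟨a1, -⟩ := TG.state_adj hA m2'
    have h1 := cur_par 0 L (by omega) a1
    simp only [Function.comp, Slice.plain, Loc.wt, wP, TG.ht]
    rw [h1, zero_add]
  | hole => rfl
  | cr b s₁ y s₂ t₁ y' t₂ z =>
    have m2' : L ++ ((), y') :: ((), z) :: R ∈ sts 0 [] P := by
      simpa [Slice.tgt, Loc.tgt] using m2
    obtain ⟨a1, a2, -⟩ := TG.state_adj hA m2'
    have h1 := cur_par 0 L (by omega) a1
    simp only [Function.comp, Slice.plain, Loc.wt, wP, TG.ht]
    have h2 : y' = (L.length + 1) % 2 := by
      rw [h1] at a2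
      unfold TG.R01 at a2
      omega
    rw [h2, h1, zero_add]

/-! ### the number `K2` -/

def net : KP → ℤ
  | .birth _ => 1
  | .death _ => -1
  | _ => 0

theorem net_sum (D : Word) (n m : ℕ) (h : kw D n = some m) :
    2 * (D.map net).sum = (m : ℤ) - n := by
  induction D generalizing n with
  | nil =>
    obtain rfl : n = m := Option.some.inj h
    simp
  | cons p D ih =>
    obtain ⟨n', h1, h2⟩ := width_cons h
    have h3 := ih n' h2
    rw [List.map_cons, List.sum_cons]
    cases p with
    | birth i =>
      obtain ⟨h4, rfl⟩ := pw_birth h1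
      simp only [net]; push_cast at h3; linarith
    | death i =>
      obtain ⟨h4, rfl⟩ := pw_death h1
      simp only [net]
      have : ((n - 2 : ℕ) : ℤ) = (n : ℤ) - 2 := by omega
      rw [this] at h3
      linarith
    | pos i => obtain ⟨h4, rfl⟩ := pw_pos h1; simp only [net]; linarith
    | neg i => obtain ⟨h4, rfl⟩ := pw_neg h1; simp only [net]; linarith

theorem k2_one (D : Word) (hp : ParType 1 D) :
    (D.map (K2P 1)).sum = 2 * ((tg D).map (wP false)).sum - (D.map net).sum := by
  induction D with
  | nil => rfl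
  | cons p D ih =>
    have h1 := ih (fun q hq => hp q (by simp [hq]))
    have h2 := hp p (by simp)
    simp only [tg, List.map_cons, List.sum_cons] at h1 ⊢
    rw [h1]
    have h3 : K2P 1 p = 2 * wP false (tgP p) - net p := by
      cases p with
      | birth i =>
        simp only [K2P, wh, tgP, wP, net]
        split_ifs <;> omega
      | death i =>
        simp only [K2P, wh, tgP, wP, net]
        split_ifs <;> omega
      | pos i => simp [K2P, wh, tgP, wP, net]
      | neg i =>
        simp only at h2
        simp only [K2P, wh, tgP, wP, net, Bool.true_eq_false, if_false]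
        omega
    rw [h3]
    ring

theorem k2_zero (D : Word) (hp : ParType 0 D) :
    (D.map (K2P 0)).sum + 2 * ((tg D).map (wP true)).sum = 2 * (crs D : ℤ) + (D.map net).sum := by
  induction D with
  | nil => rfl
  | cons p D ih =>
    have h1 := ih (fun q hq => hp q (by simp [hq]))
    have h2 := hp p (by simp)
    simp only [tg, List.map_cons, List.sum_cons] at h1 ⊢
    cases p with
    | birth i =>
      have h3 : K2P 0 (.birth i) + 2 * wP true (tgP (.birth i)) = net (.birth i) := by
        simp only [K2P, wh, tgP, wP, net]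
        split_ifs <;> omega
      simp only [crs]
      linarith
    | death i =>
      have h3 : K2P 0 (.death i) + 2 * wP true (tgP (.death i)) = net (.death i) := by
        simp only [K2P, wh, tgP, wP, net]
        split_ifs <;> omega
      simp only [crs]
      linarith
    | pos i =>
      have h3 : K2P 0 (.pos i) + 2 * wP true (tgP (.pos i)) = 2 + net (.pos i) := by
        simp only at h2
        simp only [K2P, wh, tgP, wP, net, Bool.false_eq_true, if_false]
        omega
      simp only [crs]
      push_cast
      linarith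
    | neg i =>
      have h3 : K2P 0 (.neg i) + 2 * wP true (tgP (.neg i)) = 2 + net (.neg i) := by
        simp [K2P, wh, tgP, wP, net]
      simp only [crs]
      push_cast
      linarith

/-! ### the height labelling -/

theorem lower (ε : ℕ) (D : Word) (hε : ε < 2) (hD : Closed D) (hne : D ≠ [])
    (hp : ParType ε D) : ∃ E : List (Slice Unit ℕ), Labelling 0 E (tg D) ∧ TG.HOK E ∧
      TG.CEs false 0 E ∧ K2 ε D ≤ 2 * TG.Phi false TG.ht 0 E := by
  have hnet := net_sum D 0 0 hD
  simp only [Nat.cast_zero, sub_zero] at hnet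
  have hnet0 : (D.map net).sum = 0 := by linarith
  obtain ⟨EA, EB, e, l, f, hA, okA, ceA, hB, okB, ceB, hR, -, -, he, hsum⟩ :=
    lower_states' (D := tg D) (wf_of_width D 0 0 hD) (decide (ε = 1)) (by
      intro i b hib
      obtain ⟨p, hpD, hpe⟩ := List.mem_map.1 hib
      have hpar := hp p hpD
      have h2 : ε = 0 ∨ ε = 1 := by omega
      rcases tgP_cr hpe with ⟨rfl, rfl⟩ | ⟨rfl, rfl⟩
      · simp only at hpar
        rcases h2 with rfl | rfl
        · simp [hpar]
        · simp [hpar]
      · simp only at hpar
        rcases h2 with rfl | rfl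
        · have : i % 2 = 1 := by omega
          simp [this]
        · have : i % 2 = 0 := by omega
          simp [this]) (fun i hi => absurd hi (no_hole D i)) (by
      intro Z hZ
      rcases Z with _ | ⟨s, Z⟩
      · exfalso
        have := hZ.2
        simp only [List.map_nil] at this
        exact hne (List.map_eq_nil_iff.1 this.symm)
      · refine ⟨s.tgt (0, true), by simp [sts], ?_⟩
        have h1 := hZ.1.1
        have hnh : ∀ i, s.plain ≠ .hole i := by
          intro i hi
          apply no_hole D i
          rw [← hZ.2, ← hi]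
          simp
        obtain ⟨L, q, R⟩ := s
        cases q with
        | hole => exact absurd rfl (hnh _)
        | birth u y => simp [Slice.tgt, Loc.tgt]
        | death u y => simp [Slice.src, Loc.src] at h1
        | cr b s₁ y s₂ t₁ y' t₂ z => simp [Slice.src, Loc.src] at h1)
  have h2 : ε = 0 ∨ ε = 1 := by omega
  rcases h2 with rfl | rfl
  · have hb : decide ((0 : ℕ) = 1) = false := rfl
    rw [hb] at ceA hsum
    refine ⟨EA, hA, okA, ceA, ?_⟩
    have h3 := phi_par (!false) EB _ hB hR
    have h4 := k2_zero D hp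
    have h5 : (!false) = true := rfl
    rw [h5] at h3 hsum
    rw [h3, crossings_tg] at hsum
    rw [holes_tg] at he
    have h6 : (e : ℤ) ≤ 1 := by exact_mod_cast he
    have h7 : K2 0 D = (D.map (K2P 0)).sum + 4 := by simp [K2, wh]
    rw [h7]
    linarith
  · have hb : (!decide ((1 : ℕ) = 1)) = false := rfl
    rw [hb] at ceB
    refine ⟨EB, hB, okB, ceB, ?_⟩
    have h3 := phi_par false EB _ hB hR
    have h4 := k2_one D hp
    have h7 : K2 1 D = (D.map (K2P 1)).sum := by simp [K2, wh]
    rw [h7, h3]
    linarith

/-! ### growth -/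

theorem abs_brk (t : ℝ) (D : Word) : |brk t D| = |TG.V t ((tg D).map TG.fl)| := by
  rw [brk, abs_mul, abs_pow, abs_neg, abs_one, one_pow, one_mul, TG.V_inv]

theorem fl_self {w : List TG.Piece} (h : crossings w = 0) : w.map TG.fl = w := by
  induction w with
  | nil => rfl
  | cons p w ih =>
    cases p with
    | cr i b => simp [crossings] at h
    | birth i => simp only [List.map_cons, TG.fl]; rw [ih h]
    | death i => simp only [List.map_cons, TG.fl]; rw [ih h]
    | hole i => simp only [List.map_cons, TG.fl]; rw [ih h]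

theorem phi_nocr (c c' : Bool) (ω : ℕ → ℤ) (a : ℕ) (E : List (Slice Unit ℕ))
    (h : ∀ s ∈ E, s.p.NoCr) : TG.Phi c ω a E = TG.Phi c' ω a E := by
  induction E with
  | nil => rfl
  | cons s E ih =>
    simp only [TG.Phi]
    rw [ih (fun r hr => h r (by simp [hr]))]
    congr 1
    have := h s (by simp)
    obtain ⟨L, q, R⟩ := s
    cases q with
    | cr b s₁ y s₂ t₁ y' t₂ z => exact this.elim
    | _ => rfl

/-- K3: growth of the bracket (Kauffman, Murasugi, Thistlethwaite). -/
theorem t_K3 : S_K3 := by
  intro ε D hε hD hne hconn hred hp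
  obtain ⟨E, hE, hok, hce, hK⟩ := lower ε D hε hD hne hp
  have hwf := wf_of_width D 0 0 hD
  by_cases hn : crossings (tg D) = 0
  · have hphi : TG.Phi true TG.ht 0 E = TG.Phi false TG.ht 0 E :=
      phi_nocr _ _ _ _ _ (TG.noCr_of hE.2 hn)
    obtain ⟨c, hc, hl⟩ := TG.lb_word E (tg D) hn [] ⟨hE.1, hE.2, hok.1, hok.2⟩
    refine ⟨c, 1, hc, le_rfl, fun t ht => ?_⟩
    rw [abs_brk, fl_self hn, ← crossings_tg, hn]
    have h1 : c * t ^ (2 * TG.Phi true TG.ht 0 E) ≤ TG.V t (tg D) := hl t ht
    refine le_trans ?_ (h1.trans (le_abs_self _))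
    apply mul_le_mul_of_nonneg_left _ hc.le
    apply zpow_le_zpow_right₀ ht
    rw [hphi]
    push_cast
    linarith
  · obtain ⟨k, hub, hsw, hex, -⟩ := TG.adequate hwf (conn hD hconn) (alt hD hε hp)
      (simple hD hred) (fun i hi => absurd hi (no_hole D i)) hn
    have hkf := TG.ubc_of_ub (hub false) E hE hok hce
    obtain ⟨E2, e21, e22, e23⟩ := hex false
    obtain ⟨c, T, hc, hT, hl⟩ := TG.big (D := (tg D).map TG.fl) ((TG.WF_fl _ _ _).2 hwf) (k false)
      (by rw [TG.sm_fl]; exact hub false) (by
        intro u i b v h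
        have hD2 : tg D = u.map TG.fl ++ .cr i (!b) :: v.map TG.fl := by
          have := congrArg (List.map TG.fl) h
          rw [TG.fl_fl] at this
          rw [this]; simp [TG.fl]
        have h2 := hsw false (u.map TG.fl) i (!b) (v.map TG.fl) hD2
        have h3 : u.map TG.fl ++ .cr i (!!b) :: v.map TG.fl =
            (u ++ .cr i (!b) :: v).map TG.fl := by
          simp [TG.fl]
        rw [h3, TG.sm_fl] at h2
        exact h2)
      E2 (by rw [TG.sm_fl]; exact e21) e22 e23
    refine ⟨c, T, hc, hT, fun t ht => ?_⟩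
    rw [abs_brk]
    have ht1 : 1 ≤ t := hT.trans ht
    refine le_trans ?_ (hl t ht)
    apply mul_le_mul_of_nonneg_left _ hc.le
    apply zpow_le_zpow_right₀ ht1
    rw [TG.crossings_fl, crossings_tg]
    linarith

end Pool.Agent.Helper82_Alt.PK3
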