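import Pool.Agent.Helper82_Alt.Wid

/-!
# The dimension count for labellings
-/

set_option autoImplicit false

namespace Pool.Agent.Helper82_Alt.PL2

open Pool.Agent.Helper454.Kauf (Piece Word Closed width)
open PWid

/-- partial labellings, up to the level `k` -/
def X (D : Word) (C : ℕ → ℕ → Bool) (k : ℕ) : Submodule ℝ (ℕ → ℕ → ℝ) where
  carrier := {r | (∀ j, r 0 j = r 0 0) ∧ (∀ t (h : t < D.length), t < k →
    RStep D[t] (r t) (r (t + 1))) ∧ (∀ t j, C t j = false → r t j = 0) ∧ ∀ t, k < t → r t = 0}
  add_mem' := by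
    rintro r s ⟨h1, h2, h3, h4⟩ ⟨k1, k2, k3, k4⟩
    refine ⟨fun j => ?_, fun t ht htk => ?_, fun t j h => ?_, fun t ht => ?_⟩
    · simp only [Pi.add_apply, h1 j, k1 j]
    · have a := h2 t ht htk
      have b := k2 t ht htk
      revert a b
      cases D[t] <;> simp only [RStep, Pi.add_apply] <;> rintro a b
      · exact ⟨fun j hj => by rw [a.1 j hj, b.1 j hj], fun j hj => by rw [a.2 j hj, b.2 j hj]⟩
      · exact ⟨fun j hj => by rw [a.1 j hj, b.1 j hj], fun j hj => by rw [a.2 j hj, b.2 j hj]⟩
      · exact fun j hj => by rw [a j hj, b j hj]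
      · exact fun j hj => by rw [a j hj, b j hj]
    · simp only [Pi.add_apply, h3 t j h, k3 t j h, add_zero]
    · rw [Pi.add_apply, h4 t ht, k4 t ht, add_zero]
  zero_mem' := by
    refine ⟨fun j => rfl, fun t ht htk => ?_, fun t j h => rfl, fun t ht => rfl⟩
    cases D[t] <;> simp [RStep]
  smul_mem' := by
    rintro c r ⟨h1, h2, h3, h4⟩
    refine ⟨fun j => ?_, fun t ht htk => ?_, fun t j h => ?_, fun t ht => ?_⟩
    · simp only [Pi.smul_apply, h1 j]
    · have a := h2 t ht htk
      revert a
      cases D[t] <;> simp only [RStep, Pi.smul_apply] <;> rintro a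
      · exact ⟨fun j hj => by rw [a.1 j hj], fun j hj => by rw [a.2 j hj]⟩
      · exact ⟨fun j hj => by rw [a.1 j hj], fun j hj => by rw [a.2 j hj]⟩
      · exact fun j hj => by rw [a j hj]
      · exact fun j hj => by rw [a j hj]
    · simp only [Pi.smul_apply, h3 t j h, smul_zero]
    · rw [Pi.smul_apply, h4 t ht, smul_zero]

theorem mem_X {D : Word} {C : ℕ → ℕ → Bool} {k : ℕ} {r : ℕ → ℕ → ℝ} : r ∈ X D C k ↔
    (∀ j, r 0 j = r 0 0) ∧ (∀ t (h : t < D.length), t < k →
    RStep D[t] (r t) (r (t + 1))) ∧ (∀ t j, C t j = false → r t j = 0) ∧ ∀ t, k < t → r t = 0 :=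
  Iff.rfl

theorem row_zero (p : Piece) : row p (0 : ℕ → ℝ) 0 = 0 := by
  funext j
  cases p <;> simp [row]

theorem row_add (p : Piece) (x y : ℕ → ℝ) (c d : ℝ) :
    row p (x + y) (c + d) = row p x c + row p y d := by
  funext j
  cases p <;> simp only [row, Pi.add_apply] <;> split_ifs <;> rfl

theorem row_smul (p : Piece) (x : ℕ → ℝ) (a c : ℝ) :
    row p (a • x) (a • c) = a • row p x c := by
  funext j
  cases p <;> simp only [row, Pi.smul_apply] <;> split_ifs <;> rfl

/-- extension to the next level -/
noncomputable def E (p : Piece) (k : ℕ) : ((ℕ → ℕ → ℝ) × ℝ) →ₗ[ℝ] (ℕ → ℕ → ℝ) where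
  toFun x := Function.update x.1 (k + 1) (row p (x.1 k) x.2)
  map_add' := by
    intro x y
    funext t
    by_cases h : t = k + 1
    · subst h
      simp only [Prod.fst_add, Prod.snd_add, Function.update_self, Pi.add_apply, row_add]
    · simp only [Prod.fst_add, Prod.snd_add, Function.update_of_ne h, Pi.add_apply]
  map_smul' := by
    intro a x
    funext t
    by_cases h : t = k + 1
    · subst h
      simp only [Prod.smul_fst, Prod.smul_snd, Function.update_self, Pi.smul_apply, row_smul,
        RingHom.id_apply]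
    · simp only [Prod.smul_fst, Prod.smul_snd, Function.update_of_ne h, Pi.smul_apply,
        RingHom.id_apply]

theorem E_self (p : Piece) (k : ℕ) (x : (ℕ → ℕ → ℝ) × ℝ) : E p k x (k + 1) = row p (x.1 k) x.2 := by
  show Function.update x.1 (k + 1) (row p (x.1 k) x.2) (k + 1) = _
  rw [Function.update_self]

theorem E_ne (p : Piece) (k : ℕ) (x : (ℕ → ℕ → ℝ) × ℝ) {t : ℕ} (ht : t ≠ k + 1) :
    E p k x t = x.1 t := by
  show Function.update x.1 (k + 1) (row p (x.1 k) x.2) t = _
  rw [Function.update_of_ne ht]

/-- the condition for an extension -/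
def Good (C : ℕ → ℕ → Bool) (k : ℕ) : Piece → (ℕ → ℕ → ℝ) × ℝ → Prop
  | .birth i, x => C (k + 1) (i + 1) = false → x.2 = 0
  | .death i, x => x.1 k i = x.1 k (i + 2)
  | .pos i, x => C (k + 1) (i + 1) = false → x.2 = 0
  | .neg i, x => C (k + 1) (i + 1) = false → x.2 = 0

theorem E_mem {D : Word} {C : ℕ → ℕ → Bool} (hC : RLab D C) {k : ℕ} (hk : k < D.length)
    (x : (ℕ → ℕ → ℝ) × ℝ) (hx : x.1 ∈ X D C k) (hg : Good C k D[k] x) :
    E D[k] k x ∈ X D C (k + 1) := by
  obtain ⟨h1, h2, h3, h4⟩ := hx
  refine ⟨fun j => ?_, fun t ht htk => ?_, fun t j h => ?_, fun t ht => ?_⟩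
  · rw [E_ne _ _ _ (by omega)]; exact h1 j
  · by_cases htk' : t = k
    · subst htk'
      rw [E_self, E_ne _ _ _ (by omega)]
      revert hg
      cases D[t] with
      | birth i =>
        intro hg
        refine ⟨fun j hj => ?_, fun j hj => ?_⟩
        · simp only [row, if_pos hj]
        · simp only [row]
          rw [if_neg (by omega), if_neg (by omega)]
          rfl
      | death i =>
        intro hg
        refine ⟨fun j hj => ?_, fun j hj => ?_⟩
        · simp only [row, if_pos hj]
        · simp only [row]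
          split_ifs with h5
          · rw [show j = i by omega]; exact hg.symm
          · rfl
      | pos i =>
        intro hg j hj
        simp only [row, if_neg hj]
      | neg i =>
        intro hg j hj
        simp only [row, if_neg hj]
    · rw [E_ne _ _ _ (by omega), E_ne _ _ _ (by omega)]
      exact h2 t ht (by omega)
  · by_cases htk : t = k + 1
    · subst htk
      rw [E_self]
      have hs := hC.2.2 k hk
      revert hg hs
      cases D[k] with
      | birth i =>
        rintro hg ⟨a, b⟩
        simp only [row]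
        split_ifs with h5 h6
        · exact h3 k j (by rw [← a j h5]; exact h)
        · subst h6; exact hg h
        · refine h3 k (j - 2) ?_
          rw [← b (j - 2) (by omega), show j - 2 + 2 = j by omega]
          exact h
      | death i =>
        rintro hg ⟨a, b⟩
        simp only [row]
        split_ifs with h5
        · exact h3 k j (by rw [a j h5]; exact h)
        · exact h3 k (j + 2) (by rw [b j (by omega)]; exact h)
      | pos i =>
        rintro hg a
        simp only [row]
        split_ifs with h5
        · subst h5; exact hg h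
        · exact h3 k j (by rw [← a j h5]; exact h)
      | neg i =>
        rintro hg a
        simp only [row]
        split_ifs with h5
        · subst h5; exact hg h
        · exact h3 k j (by rw [← a j h5]; exact h)
    · rw [E_ne _ _ _ htk]; exact h3 t j h
  · rw [E_ne _ _ _ (by omega)]; exact h4 t (by omega)

/-- the first component is determined -/
theorem E_inj_fst {p : Piece} {k : ℕ} {D : Word} {C : ℕ → ℕ → Bool} {x : (ℕ → ℕ → ℝ) × ℝ}
    (hx : x.1 ∈ X D C k) (h : E p k x = 0) : x.1 = 0 := by
  funext t
  by_cases ht : t ≤ k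
  · rw [← E_ne p k x (by omega), h]
  · exact hx.2.2.2 t (by omega)

/-- truncation -/
noncomputable def trunc (k : ℕ) : (ℕ → ℕ → ℝ) →ₗ[ℝ] (ℕ → ℕ → ℝ) where
  toFun r := fun t => if t ≤ k then r t else 0
  map_add' := by
    intro x y
    funext t
    simp only [Pi.add_apply]
    split_ifs <;> simp
  map_smul' := by
    intro a x
    funext t
    simp only [Pi.smul_apply, RingHom.id_apply]
    split_ifs <;> simp

theorem trunc_apply (k : ℕ) (r : ℕ → ℕ → ℝ) (t : ℕ) :
    trunc k r t = if t ≤ k then r t else 0 := rfl

theorem trunc_mem {D : Word} {C : ℕ → ℕ → Bool} {k : ℕ} {r : ℕ → ℕ → ℝ}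
    (h : r ∈ X D C (k + 1)) : trunc k r ∈ X D C k := by
  obtain ⟨h1, h2, h3, h4⟩ := h
  refine ⟨fun j => ?_, fun t ht htk => ?_, fun t j h => ?_, fun t ht => ?_⟩
  · simp only [trunc_apply]; rw [if_pos (Nat.zero_le k)]; exact h1 j
  · simp only [trunc_apply]; rw [if_pos (by omega), if_pos (by omega)]; exact h2 t ht (by omega)
  · simp only [trunc_apply]; split_ifs
    · exact h3 t j h
    · rfl
  · simp only [trunc_apply]; rw [if_neg (by omega)]

/-- the new value, as a linear function -/
noncomputable def nv (p : Piece) (k : ℕ) : (ℕ → ℕ → ℝ) →ₗ[ℝ] ℝ where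
  toFun r := newv p (r (k + 1))
  map_add' := by intro x y; cases p <;> rfl
  map_smul' := by intro x y; cases p <;> rfl

theorem nv_apply (p : Piece) (k : ℕ) (r : ℕ → ℕ → ℝ) : nv p k r = newv p (r (k + 1)) := rfl

theorem finite_succ {D : Word} {C : ℕ → ℕ → Bool} {k : ℕ} (hk : k < D.length)
    (hf : Module.Finite ℝ (X D C k)) : Module.Finite ℝ (X D C (k + 1)) := by
  let f : X D C (k + 1) →ₗ[ℝ] X D C k × ℝ :=
    (((trunc k).comp (X D C (k + 1)).subtype).codRestrict (X D C k)
      (fun r => trunc_mem r.2)).prod ((nv D[k] k).comp (X D C (k + 1)).subtype)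
  refine Module.Finite.of_injective f ?_
  rw [← LinearMap.ker_eq_bot, LinearMap.ker_eq_bot']
  rintro ⟨r, hr⟩ h
  have e1 : trunc k r = 0 := congrArg (fun x : X D C k × ℝ => (x.1 : ℕ → ℕ → ℝ)) h
  have e2 : newv D[k] (r (k + 1)) = 0 := congrArg (fun x : X D C k × ℝ => x.2) h
  ext1
  show r = 0
  funext t
  by_cases ht : t ≤ k
  · have := congrFun e1 t
    rwa [trunc_apply, if_pos ht] at this
  · by_cases ht' : t = k + 1
    · subst ht'
      have h3 := row_of_step (hr.2.1 k hk (by omega))
      have h4 : r k = 0 := by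
        have := congrFun e1 k
        rwa [trunc_apply, if_pos le_rfl] at this
      rw [h3, e2, h4, row_zero]
      rfl
    · exact hr.2.2.2 t (by omega)

theorem rank_le {D : Word} {C : ℕ → ℕ → Bool} {k : ℕ} (hk : k < D.length)
    (hf : Module.Finite ℝ (X D C k)) {A : Type} [AddCommGroup A] [Module ℝ A]
    (g : A →ₗ[ℝ] (ℕ → ℕ → ℝ) × ℝ) (hm : ∀ a, E D[k] k (g a) ∈ X D C (k + 1))
    (hi : ∀ a, E D[k] k (g a) = 0 → a = 0) :
    Module.finrank ℝ A ≤ Module.finrank ℝ (X D C (k + 1)) := by
  have := finite_succ hk hf
  refine LinearMap.finrank_le_finrank_of_injective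
    (f := ((E D[k] k).comp g).codRestrict (X D C (k + 1)) hm) ?_
  rw [← LinearMap.ker_eq_bot, LinearMap.ker_eq_bot']
  intro a ha
  exact hi a (congrArg Subtype.val ha)

/-- the step without a new dimension -/
theorem rank_same {D : Word} {C : ℕ → ℕ → Bool} (hC : RLab D C) {k : ℕ} (hk : k < D.length)
    (hf : Module.Finite ℝ (X D C k)) (hg : ∀ r ∈ X D C k, Good C k D[k] (r, 0)) :
    Module.finrank ℝ (X D C k) ≤ Module.finrank ℝ (X D C (k + 1)) := by
  refine rank_le hk hf ((LinearMap.inl ℝ _ ℝ).comp (X D C k).subtype) ?_ ?_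
  · intro a
    exact E_mem hC hk _ a.2 (hg a.1 a.2)
  · intro a ha
    have := E_inj_fst (D := D) (C := C) (x := (a.1, 0)) a.2 ha
    exact Subtype.ext this

/-- the step with a new dimension -/
theorem rank_add {D : Word} {C : ℕ → ℕ → Bool} (hC : RLab D C) {k : ℕ} (hk : k < D.length)
    (hf : Module.Finite ℝ (X D C k)) (hg : ∀ r ∈ X D C k, ∀ c, Good C k D[k] (r, c))
    (hi : ∀ c : ℝ, row D[k] (0 : ℕ → ℝ) c = 0 → c = 0) :
    Module.finrank ℝ (X D C k) + 1 ≤ Module.finrank ℝ (X D C (k + 1)) := by
  have e : Module.finrank ℝ (X D C k) + 1 = Module.finrank ℝ (X D C k × ℝ) := by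
    rw [Module.finrank_prod, Module.finrank_self]
  rw [e]
  refine rank_le hk hf (LinearMap.prodMap (X D C k).subtype LinearMap.id) ?_ ?_
  · rintro ⟨r, c⟩
    exact E_mem hC hk _ r.2 (hg r.1 r.2 c)
  · rintro ⟨⟨r, hr⟩, c⟩ ha
    have h1 := E_inj_fst (D := D) (C := C) (x := (r, c)) hr ha
    have h2 : E D[k] k (r, c) (k + 1) = 0 := by
      have := congrFun ha (k + 1)
      exact this
    rw [E_self] at h2
    have h1' : r = 0 := h1
    subst h1'
    have h3 := hi c h2
    subst h3
    rfl

/-- the step which loses a dimension -/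
theorem rank_sub {D : Word} {C : ℕ → ℕ → Bool} (hC : RLab D C) {k : ℕ} (hk : k < D.length)
    (hf : Module.Finite ℝ (X D C k)) {i : ℕ} (hp : D[k] = .death i) :
    Module.finrank ℝ (X D C k) ≤ Module.finrank ℝ (X D C (k + 1)) + 1 := by
  let φ : X D C k →ₗ[ℝ] ℝ :=
    { toFun := fun r => (r : ℕ → ℕ → ℝ) k i - (r : ℕ → ℕ → ℝ) k (i + 2)
      map_add' := fun x y => by
        simp only [Submodule.coe_add, Pi.add_apply]; ring
      map_smul' := fun a x => by
        simp only [Submodule.coe_smul, Pi.smul_apply, smul_eq_mul, RingHom.id_apply]; ring }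
  have h1 : Module.finrank ℝ (LinearMap.ker φ) ≤ Module.finrank ℝ (X D C (k + 1)) := by
    refine rank_le (A := LinearMap.ker φ) hk hf (((LinearMap.inl ℝ _ ℝ).comp
      (X D C k).subtype).comp (LinearMap.ker φ).subtype) ?_ ?_
    · rintro ⟨⟨r, hr⟩, hφ⟩
      refine E_mem hC hk _ hr ?_
      rw [hp]
      have : r k i - r k (i + 2) = 0 := hφ
      exact sub_eq_zero.1 this
    · rintro ⟨⟨r, hr⟩, hφ⟩ ha
      have h1 := E_inj_fst (D := D) (C := C) (x := (r, 0)) hr ha
      exact Subtype.ext (Subtype.ext h1)
  have h2 := LinearMap.finrank_range_add_finrank_ker φ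
  have h3 : Module.finrank ℝ (LinearMap.range φ) ≤ 1 := by
    have := (LinearMap.range φ).finrank_le
    rwa [Module.finrank_self] at this
  omega

theorem rank_step {D : Word} {C : ℕ → ℕ → Bool} (hC : RLab D C) {k : ℕ} (hk : k < D.length)
    (hf : Module.Finite ℝ (X D C k)) :
    (Module.finrank ℝ (X D C k) : ℤ) + PPp D[k] (C k) (C (k + 1)) ≤
      Module.finrank ℝ (X D C (k + 1)) := by
  have hs := hC.2.2 k hk
  cases hp : D[k] with
  | birth i =>
    simp only [PPp]
    cases hc : C (k + 1) (i + 1) with
    | false =>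
      have := rank_same hC hk hf (fun r _ => by rw [hp]; exact fun _ => rfl)
      simp only [bi]
      push_cast
      have h' : (Module.finrank ℝ (X D C k) : ℤ) ≤ Module.finrank ℝ (X D C (k + 1)) := by
        exact_mod_cast this
      simpa using h'
    | true =>
      have := rank_add hC hk hf (fun r _ c => by rw [hp]; intro h; rw [hc] at h; cases h) ?_
      · simp only [bi, if_true]
        exact_mod_cast this
      · intro c hc'
        rw [hp] at hc'
        have := congrFun hc' (i + 1)
        simpa [row] using this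
  | death i =>
    simp only [PPp]
    cases hc : C k i with
    | false =>
      have := rank_same hC hk hf (fun r hr => by
        rw [hp]
        show r k i = r k (i + 2)
        rw [hp] at hs
        rw [hr.2.2.1 k i hc, hr.2.2.1 k (i + 2) ?_]
        rw [hs.2 i le_rfl, ← hs.1 i le_rfl]
        exact hc)
      have h' : (Module.finrank ℝ (X D C k) : ℤ) ≤ Module.finrank ℝ (X D C (k + 1)) := by
        exact_mod_cast this
      simpa [bi] using h'
    | true =>
      have := rank_sub hC hk hf hp
      have h' : (Module.finrank ℝ (X D C k) : ℤ) ≤ Module.finrank ℝ (X D C (k + 1)) + 1 := by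
        exact_mod_cast this
      simp only [bi, if_true]
      linarith
  | pos i =>
    simp only [PPp]
    cases hc : C (k + 1) (i + 1) with
    | false =>
      have := rank_same hC hk hf (fun r _ => by rw [hp]; exact fun _ => rfl)
      have h' : (Module.finrank ℝ (X D C k) : ℤ) ≤ Module.finrank ℝ (X D C (k + 1)) := by
        exact_mod_cast this
      simpa [bi] using h'
    | true =>
      have := rank_add hC hk hf (fun r _ c => by rw [hp]; intro h; rw [hc] at h; cases h) ?_
      · simp only [bi, if_true]
        exact_mod_cast this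
      · intro c hc'
        rw [hp] at hc'
        have := congrFun hc' (i + 1)
        simpa [row] using this
  | neg i =>
    simp only [PPp]
    cases hc : C (k + 1) (i + 1) with
    | false =>
      have := rank_same hC hk hf (fun r _ => by rw [hp]; exact fun _ => rfl)
      have h' : (Module.finrank ℝ (X D C k) : ℤ) ≤ Module.finrank ℝ (X D C (k + 1)) := by
        exact_mod_cast this
      simpa [bi] using h'
    | true =>
      have := rank_add hC hk hf (fun r _ c => by rw [hp]; intro h; rw [hc] at h; cases h) ?_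
      · simp only [bi, if_true]
        exact_mod_cast this
      · intro c hc'
        rw [hp] at hc'
        have := congrFun hc' (i + 1)
        simpa [row] using this

theorem part_left {D : Word} {k : ℕ} {r : ℕ → ℕ → ℝ}
    (h2 : ∀ t (h : t < D.length), t < k → RStep D[t] (r t) (r (t + 1))) (t : ℕ) (htk : t ≤ k)
    (ht : t ≤ D.length) : r t 0 = r 0 0 := by
  induction t with
  | zero => rfl
  | succ t ih =>
    have h1 := h2 t (by omega) (by omega)
    rw [← ih (by omega) (by omega)]
    revert h1
    cases D[t] with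
    | birth i => exact fun h1 => h1.1 0 (by omega)
    | death i => exact fun h1 => (h1.1 0 (by omega)).symm
    | pos i => exact fun h1 => h1 0 (by omega)
    | neg i => exact fun h1 => h1 0 (by omega)

theorem part_right {D : Word} (hD : Closed D) {k : ℕ} {r : ℕ → ℕ → ℝ}
    (h0 : ∀ j, r 0 j = r 0 0)
    (h2 : ∀ t (h : t < D.length), t < k → RStep D[t] (r t) (r (t + 1))) (t : ℕ) (htk : t ≤ k)
    (ht : t ≤ D.length) (j : ℕ) (hj : wid D t ≤ j) : r t j = r 0 0 := by
  induction t generalizing j with
  | zero => exact h0 j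
  | succ t ih =>
    have h1 := h2 t (by omega) (by omega)
    cases hp : D[t] with
    | birth i =>
      rw [hp] at h1
      have h3 := step_birth hD (by omega) hp
      have h2 := h1.2 (j - 2) (by omega)
      rw [show j - 2 + 2 = j by omega] at h2
      rw [h2]
      exact ih (by omega) (by omega) (j - 2) (by omega)
    | death i =>
      rw [hp] at h1
      have h3 := step_death hD (by omega) hp
      rw [← h1.2 j (by omega)]
      exact ih (by omega) (by omega) (j + 2) (by omega)
    | pos i =>
      rw [hp] at h1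
      have h3 := step_pos hD (by omega) hp
      rw [h1 j (by omega)]
      exact ih (by omega) (by omega) j (by omega)
    | neg i =>
      rw [hp] at h1
      have h3 := step_neg hD (by omega) hp
      rw [h1 j (by omega)]
      exact ih (by omega) (by omega) j (by omega)

theorem finite_zero (D : Word) (C : ℕ → ℕ → Bool) : Module.Finite ℝ (X D C 0) := by
  let f : X D C 0 →ₗ[ℝ] ℝ :=
    { toFun := fun r => (r : ℕ → ℕ → ℝ) 0 0
      map_add' := fun x y => rfl
      map_smul' := fun a x => rfl }
  refine Module.Finite.of_injective f ?_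
  rw [← LinearMap.ker_eq_bot, LinearMap.ker_eq_bot']
  rintro ⟨r, hr⟩ h
  have h1 : r 0 0 = 0 := h
  ext1
  show r = 0
  funext t
  by_cases ht : t = 0
  · subst ht
    funext j
    rw [hr.1 j, h1]
    rfl
  · exact hr.2.2.2 t (by omega)

theorem rank_zero {D : Word} {C : ℕ → ℕ → Bool} (hC : RLab D C) :
    bi (C 0 0) ≤ Module.finrank ℝ (X D C 0) := by
  have := finite_zero D C
  cases h : C 0 0 with
  | false => simp [bi]
  | true =>
    simp only [bi, if_true]
    have h1 : 0 < Module.finrank ℝ (X D C 0) := by
      rw [Module.finrank_pos_iff_exists_ne_zero]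
      refine ⟨⟨fun t _ => if t = 0 then 1 else 0, ?_⟩, ?_⟩
      · refine ⟨fun j => rfl, fun t _ ht => by omega, fun t j htj => ?_, fun t ht => ?_⟩
        · by_cases ht : t = 0
          · subst ht
            rw [hC.1 j, h] at htj
            cases htj
          · simp only [if_neg ht]
        · funext j
          simp only [if_neg (show t ≠ 0 by omega)]
          rfl
      · intro h2
        have h3 := congrFun (congrFun (congrArg Subtype.val h2) 0) 0
        simp at h3
    exact_mod_cast h1

theorem finite_all (D : Word) (C : ℕ → ℕ → Bool) (k : ℕ) (hk : k ≤ D.length) :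
    Module.Finite ℝ (X D C k) := by
  induction k with
  | zero => exact finite_zero D C
  | succ k ih => exact finite_succ (by omega) (ih (by omega))

/-- summand, extended by zero -/
def pp (D : Word) (C : ℕ → ℕ → Bool) (t : ℕ) : ℤ :=
  if h : t < D.length then PPp D[t] (C t) (C (t + 1)) else 0

theorem rank_all {D : Word} {C : ℕ → ℕ → Bool} (hC : RLab D C) (k : ℕ) (hk : k ≤ D.length) :
    bi (C 0 0) + ∑ t ∈ Finset.range k, pp D C t ≤ Module.finrank ℝ (X D C k) := by
  induction k with
  | zero => simpa using rank_zero hC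
  | succ k ih =>
    have h1 := ih (by omega)
    have h2 := rank_step hC (k := k) (by omega) (finite_all D C k (by omega))
    rw [Finset.sum_range_succ]
    have h3 : pp D C k = PPp D[k] (C k) (C (k + 1)) := by
      unfold pp
      rw [dif_pos (by omega)]
    rw [h3]
    linarith

theorem rank_last {D : Word} (hD : Closed D) (hne : D ≠ []) {C : ℕ → ℕ → Bool}
    (hC : RLab D C) :
    2 * bi (C 0 0) + ∑ t ∈ Finset.range D.length, pp D C t ≤
      Module.finrank ℝ (X D C D.length) := by
  cases h : C 0 0 with
  | false =>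
    have := rank_all hC D.length le_rfl
    rw [h] at this
    simpa [bi] using this
  | true =>
    obtain ⟨k, hk⟩ : ∃ k, D.length = k + 1 := by
      cases D with
      | nil => exact absurd rfl hne
      | cons p w => exact ⟨w.length, rfl⟩
    have hk' : k < D.length := by omega
    have hw : wid D (k + 1) = 0 := by rw [← hk]; exact wid_length hD
    have hp : D[k] = .death 0 ∧ wid D k = 2 := by
      cases hp : D[k] with
      | birth i => have := step_birth hD hk' hp; omega
      | death i =>
        have := step_death hD hk' hp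
        exact ⟨by rw [show i = 0 by omega], by omega⟩
      | pos i => have := step_pos hD hk' hp; omega
      | neg i => have := step_neg hD hk' hp; omega
    obtain ⟨hp, hw2⟩ := hp
    have h1 := rank_all hC k (by omega)
    have h2 := rank_same hC hk' (finite_all D C k (by omega)) (fun r hr => by
      rw [hp]
      show r k 0 = r k 2
      rw [part_left hr.2.1 k le_rfl (by omega),
        part_right hD hr.1 hr.2.1 k le_rfl (by omega) 2 (by omega)])
    have h3 : pp D C k = -1 := by
      unfold pp
      rw [dif_pos hk', hp]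
      simp only [PPp]
      rw [rlab_left hC k, h]
      rfl
    rw [hk, Finset.sum_range_succ, h3]
    rw [h] at h1
    have h4 : (Module.finrank ℝ (X D C k) : ℤ) ≤ Module.finrank ℝ (X D C (k + 1)) := by
      exact_mod_cast h2
    simp only [bi, if_true] at h1 ⊢
    linarith

theorem X_last {D : Word} (hD : Closed D) {C : ℕ → ℕ → Bool} {r : ℕ → ℕ → ℝ}
    (hr : r ∈ X D C D.length) : r D.length = r 0 := by
  funext j
  rw [part_right hD hr.1 hr.2.1 D.length le_rfl le_rfl j (by rw [wid_length hD]; omega),
    hr.1 j]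

/-- from partial labellings up to the last level to labellings -/
noncomputable def toLL (n : ℕ) : (ℕ → ℕ → ℝ) →ₗ[ℝ] (ℕ → ℕ → ℝ) where
  toFun r := fun t => if t ≤ n then r t else r 0
  map_add' := by
    intro x y
    funext t
    simp only [Pi.add_apply]
    split_ifs <;> rfl
  map_smul' := by
    intro a x
    funext t
    simp only [Pi.smul_apply, RingHom.id_apply]
    split_ifs <;> rfl

theorem toLL_apply (n : ℕ) (r : ℕ → ℕ → ℝ) (t : ℕ) :
    toLL n r t = if t ≤ n then r t else r 0 := rfl

theorem toLL_mem {D : Word} (hD : Closed D) {C : ℕ → ℕ → Bool} (hC : RLab D C)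
    {r : ℕ → ℕ → ℝ} (hr : r ∈ X D C D.length) : toLL D.length r ∈ LL D C := by
  have h5 := X_last hD hr
  obtain ⟨h1, h2, h3, h4⟩ := hr
  refine ⟨⟨fun j => ?_, fun t ht => ?_, fun t ht => ?_⟩, fun t j h => ?_⟩
  · simp only [toLL_apply, if_pos (Nat.zero_le _)]; exact h1 j
  · simp only [toLL_apply, if_pos (Nat.zero_le _)]
    split_ifs with h6
    · rw [show t = D.length by omega, h5]
    · rfl
  · simp only [toLL_apply]
    rw [if_pos (by omega), if_pos (by omega)]
    exact h2 t ht ht
  · simp only [toLL_apply]
    split_ifs with h6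
    · exact h3 t j h
    · refine h3 0 j ?_
      rw [← hC.2.1 t (by omega)]
      exact h

theorem trunc_mem' {D : Word} {C : ℕ → ℕ → Bool} {r : ℕ → ℕ → ℝ} (hr : r ∈ LL D C) :
    trunc D.length r ∈ X D C D.length := by
  obtain ⟨⟨h1, h2, h3⟩, h4⟩ := hr
  refine ⟨fun j => ?_, fun t ht htk => ?_, fun t j h => ?_, fun t ht => ?_⟩
  · simp only [trunc_apply]; rw [if_pos (Nat.zero_le _)]; exact h1 j
  · simp only [trunc_apply]; rw [if_pos (by omega), if_pos (by omega)]; exact h3 t ht
  · simp only [trunc_apply]; split_ifs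
    · exact h4 t j h
    · rfl
  · simp only [trunc_apply]; rw [if_neg (by omega)]

theorem t_L2 : S_L2 := by
  intro D C hD hne hC
  have hfX := finite_all D C D.length le_rfl
  have hf : Module.Finite ℝ (LL D C) := by
    let f : LL D C →ₗ[ℝ] X D C D.length :=
      ((trunc D.length).comp (LL D C).subtype).codRestrict (X D C D.length)
        (fun r => trunc_mem' r.2)
    refine Module.Finite.of_injective f ?_
    rw [← LinearMap.ker_eq_bot, LinearMap.ker_eq_bot']
    rintro ⟨r, hr⟩ h
    have e1 : trunc D.length r = 0 := congrArg Subtype.val h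
    ext1
    show r = 0
    have e2 : ∀ t ≤ D.length, r t = 0 := fun t ht => by
      have := congrFun e1 t
      rwa [trunc_apply, if_pos ht] at this
    funext t
    by_cases ht : t ≤ D.length
    · exact e2 t ht
    · rw [hr.1.2.1 t (by omega)]
      exact e2 0 (by omega)
  refine ⟨hf, ?_⟩
  have h1 : Module.finrank ℝ (X D C D.length) ≤ Module.finrank ℝ (LL D C) := by
    refine LinearMap.finrank_le_finrank_of_injective
      (f := ((toLL D.length).comp (X D C D.length).subtype).codRestrict (LL D C)
        (fun r => toLL_mem hD hC r.2)) ?_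
    rw [← LinearMap.ker_eq_bot, LinearMap.ker_eq_bot']
    rintro ⟨r, hr⟩ h
    have e1 : toLL D.length r = 0 := congrArg Subtype.val h
    ext1
    show r = 0
    funext t
    by_cases ht : t ≤ D.length
    · have := congrFun e1 t
      rwa [toLL_apply, if_pos ht] at this
    · exact hr.2.2.2 t (by omega)
  have h2 := rank_last hD hne hC
  have h3 : (Module.finrank ℝ (X D C D.length) : ℤ) ≤ Module.finrank ℝ (LL D C) := by
    exact_mod_cast h1
  have h4 : ∑ t ∈ Finset.range D.length, pp D C t =
      ∑ t : Fin D.length, PPp D[t] (C t) (C (t + 1)) := by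
    rw [Finset.sum_range]
    refine Finset.sum_congr rfl fun t _ => ?_
    unfold pp
    rw [dif_pos t.2]
    rfl
  unfold PP
  rw [← h4]
  linarith

end Pool.Agent.Helper82_Alt.PL2
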