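import Pool.Agent.Helper82_Alt.Wid

/-!
# Parity of alternating diagrams; labellings and connectedness
-/

set_option autoImplicit false

namespace Pool.Agent.Helper82_Alt.PPar

open Pool.Agent.Helper454.Kauf (Piece Word Closed width)
open PWid

theorem t_par : S_par := by
  intro D hD hc ⟨e, he⟩
  suffices hs : ∀ t (h : t < D.length), SStep D[t]
      ((fun t j => xor (e t j) (decide (j % 2 = 1))) t)
      ((fun t j => xor (e t j) (decide (j % 2 = 1))) (t + 1)) by
    obtain ⟨v, hv⟩ := hc (fun t j => xor (e t j) (decide (j % 2 = 1))) hs
    refine ⟨if v then 0 else 1, by cases v <;> simp, ?_⟩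
    intro p hp
    obtain ⟨t, ht, rfl⟩ := List.mem_iff_getElem.1 hp
    have h1 := he t ht
    have h2 := hv t (wid D t) (width_take hD t)
    cases hp : D[t] with
    | birth i => trivial
    | death i => trivial
    | pos i =>
      rw [hp] at h1
      have h3 := h2 i (by have := step_pos hD ht hp; omega)
      simp only [h1.2.1] at h3
      rcases Nat.mod_two_eq_zero_or_one i with h4 | h4 <;> cases v <;> simp_all
    | neg i =>
      rw [hp] at h1
      have h3 := h2 i (by have := step_neg hD ht hp; omega)
      simp only [h1.2.1] at h3
      rcases Nat.mod_two_eq_zero_or_one i with h4 | h4 <;> cases v <;> simp_all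
  · intro t ht
    have h1 := he t ht
    have par2 : ∀ j : ℕ, (j + 2) % 2 = j % 2 := fun j => by omega
    have par1 : ∀ j : ℕ, decide ((j + 1) % 2 = 1) = !decide (j % 2 = 1) := fun j => by
      rcases Nat.mod_two_eq_zero_or_one j with h | h
      · rw [show (j + 1) % 2 = 1 by omega, h]; rfl
      · rw [show (j + 1) % 2 = 0 by omega, h]; rfl
    revert h1
    cases D[t] with
    | birth i =>
      rintro ⟨a, b, c⟩
      refine ⟨fun j hj => by simp only [a j hj], fun j hj => by simp only [b j hj, par2], ?_⟩
      simp only [c, par1]
      cases e (t + 1) i <;> cases decide (i % 2 = 1) <;> rfl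
    | death i =>
      rintro ⟨a, b, c⟩
      refine ⟨fun j hj => by simp only [a j hj], fun j hj => by simp only [b j hj, par2], ?_⟩
      simp only [c, par1]
      cases e t i <;> cases decide (i % 2 = 1) <;> rfl
    | pos i =>
      rintro ⟨a, b, c⟩
      refine ⟨fun j => by simp only [a j], ?_⟩
      simp only [b, c, par1]
      cases decide (i % 2 = 1) <;> rfl
    | neg i =>
      rintro ⟨a, b, c⟩
      refine ⟨fun j => by simp only [a j], ?_⟩
      simp only [b, c, par1]
      cases decide (i % 2 = 1) <;> rfl

/-- the black side of the strand `j` -/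
def bs (ε j : ℕ) : ℕ := if j % 2 = ε then j + 1 else j

theorem t_L3 : S_L3 := by
  classical
  intro ε D r hε hD hne hc hr heq
  have hbs2 : ∀ j, bs ε (j + 2) = bs ε j + 2 := fun j => by unfold bs; split_ifs <;> omega
  have hlen : 0 < D.length := List.length_pos_iff.2 hne
  -- the first piece
  obtain ⟨b0, h0⟩ : ∃ i, D[0] = .birth i := by
    cases hp : D[0] with
    | birth i => exact ⟨i, rfl⟩
    | death i => have := (step_death hD hlen hp).1; rw [wid_zero] at this; omega
    | pos i => have := (step_pos hD hlen hp).1; rw [wid_zero] at this; omega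
    | neg i => have := (step_neg hD hlen hp).1; rw [wid_zero] at this; omega
  have hw1 : wid D 1 = 2 := (step_birth hD hlen h0).2
  set v := r 1 (bs ε 0) with hv
  suffices hs : ∀ t (h : t < D.length), SStep D[t]
      ((fun t j => decide (r t (bs ε j) = v)) t)
      ((fun t j => decide (r t (bs ε j) = v)) (t + 1)) by
    obtain ⟨u, hu⟩ := hc (fun t j => decide (r t (bs ε j) = v)) hs
    have hu1 : u = true := by
      rw [← hu 1 2 (by rw [width_take hD 1, hw1]) 0 (by omega)]
      simp [hv]
    subst hu1
    have key : ∀ t j, j < wid D t → r t (bs ε j) = v := by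
      intro t j hj
      have := hu t (wid D t) (width_take hD t) j hj
      simpa using this
    refine ⟨v, fun t j hj hjε => ?_⟩
    by_cases h1 : j < wid D t
    · have := key t j h1
      rwa [show bs ε j = j by unfold bs; rw [if_neg hjε]] at this
    · have hj' : j = wid D t := by omega
      by_cases h2 : j = 0
      · subst h2
        rw [rlab_left hr t, hv, show bs ε 0 = 0 by unfold bs; rw [if_neg hjε], rlab_left hr 1]
      · have := key t (j - 1) (by omega)
        rwa [show bs ε (j - 1) = j by unfold bs; rw [if_pos (by omega)]; omega] at this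
  · intro t ht
    have h1 := hr.2.2 t ht
    have h2 := heq t ht
    cases hp : D[t] with
    | birth i =>
      rw [hp] at h1
      obtain ⟨a, b⟩ := h1
      refine ⟨fun j hj => ?_, fun j hj => ?_, ?_⟩
      · show decide (r (t + 1) (bs ε j) = v) = decide (r t (bs ε j) = v)
        rw [a _ (by unfold bs; split_ifs <;> omega)]
      · show decide (r (t + 1) (bs ε (j + 2)) = v) = decide (r t (bs ε j) = v)
        rw [hbs2, b _ (by unfold bs; split_ifs <;> omega)]
      · show decide (r (t + 1) (bs ε i) = v) = decide (r (t + 1) (bs ε (i + 1)) = v)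
        by_cases h3 : i % 2 = ε
        · rw [show bs ε i = i + 1 by unfold bs; rw [if_pos h3],
            show bs ε (i + 1) = i + 1 by unfold bs; rw [if_neg (by omega)]]
        · rw [show bs ε i = i by unfold bs; rw [if_neg h3],
            show bs ε (i + 1) = i + 2 by unfold bs; rw [if_pos (by omega)],
            a i le_rfl, b i le_rfl]
    | death i =>
      rw [hp] at h1
      obtain ⟨a, b⟩ := h1
      refine ⟨fun j hj => ?_, fun j hj => ?_, ?_⟩
      · show decide (r t (bs ε j) = v) = decide (r (t + 1) (bs ε j) = v)
        rw [a _ (by unfold bs; split_ifs <;> omega)]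
      · show decide (r t (bs ε (j + 2)) = v) = decide (r (t + 1) (bs ε j) = v)
        rw [hbs2, b _ (by unfold bs; split_ifs <;> omega)]
      · show decide (r t (bs ε i) = v) = decide (r t (bs ε (i + 1)) = v)
        by_cases h3 : i % 2 = ε
        · rw [show bs ε i = i + 1 by unfold bs; rw [if_pos h3],
            show bs ε (i + 1) = i + 1 by unfold bs; rw [if_neg (by omega)]]
        · rw [show bs ε i = i by unfold bs; rw [if_neg h3],
            show bs ε (i + 1) = i + 2 by unfold bs; rw [if_pos (by omega)],
            a i le_rfl, b i le_rfl]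
    | pos i =>
      rw [hp] at h1 h2
      have key : (∀ j, r (t + 1) (bs ε j) = r t (bs ε j)) ∧ r t (bs ε i) = r t (bs ε (i + 1)) := by
        refine ⟨fun j => ?_, ?_⟩
        · by_cases h4 : bs ε j = i + 1
          · rw [h4]
            have h5 : i % 2 = ε := by unfold bs at h4; split_ifs at h4 <;> omega
            simp only [EqB, if_pos h5] at h2
            exact h2.symm
          · exact h1 _ h4
        · by_cases h3 : i % 2 = ε
          · rw [show bs ε i = i + 1 by unfold bs; rw [if_pos h3],
              show bs ε (i + 1) = i + 1 by unfold bs; rw [if_neg (by omega)]]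
          · rw [show bs ε i = i by unfold bs; rw [if_neg h3],
              show bs ε (i + 1) = i + 2 by unfold bs; rw [if_pos (by omega)]]
            simp only [EqB, if_neg h3] at h2
            exact h2
      refine ⟨fun j => ?_, ?_⟩
      · show decide (r (t + 1) (bs ε j) = v) = decide (r t (bs ε j) = v)
        rw [key.1]
      · show decide (r t (bs ε i) = v) = decide (r t (bs ε (i + 1)) = v)
        rw [key.2]
    | neg i =>
      rw [hp] at h1 h2
      have key : (∀ j, r (t + 1) (bs ε j) = r t (bs ε j)) ∧ r t (bs ε i) = r t (bs ε (i + 1)) := by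
        refine ⟨fun j => ?_, ?_⟩
        · by_cases h4 : bs ε j = i + 1
          · rw [h4]
            have h5 : i % 2 = ε := by unfold bs at h4; split_ifs at h4 <;> omega
            simp only [EqB, if_pos h5] at h2
            exact h2.symm
          · exact h1 _ h4
        · by_cases h3 : i % 2 = ε
          · rw [show bs ε i = i + 1 by unfold bs; rw [if_pos h3],
              show bs ε (i + 1) = i + 1 by unfold bs; rw [if_neg (by omega)]]
          · rw [show bs ε i = i by unfold bs; rw [if_neg h3],
              show bs ε (i + 1) = i + 2 by unfold bs; rw [if_pos (by omega)]]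
            simp only [EqB, if_neg h3] at h2
            exact h2
      refine ⟨fun j => ?_, ?_⟩
      · show decide (r (t + 1) (bs ε j) = v) = decide (r t (bs ε j) = v)
        rw [key.1]
      · show decide (r t (bs ε i) = v) = decide (r t (bs ε (i + 1)) = v)
        rw [key.2]

end Pool.Agent.Helper82_Alt.PPar
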