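import Pool.Agent.Helper82_Alt.Tel
import Pool.Agent.Helper82_Alt.L2
import Pool.Agent.Helper82_Alt.Par

/-!
# Module L: labellings and linear algebra
-/

set_option autoImplicit false

namespace Pool.Agent.Helper82_Alt.PL

theorem t_L1 : S_L1 := PTel.t_L1

theorem t_L2 : S_L2 := PL2.t_L2

theorem t_L3 : S_L3 := PPar.t_L3

theorem t_L4 : S_L4 := PTel.t_L4

end Pool.Agent.Helper82_Alt.PL
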