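import Pool.Agent.Helper82_Alt.Spec

/-!
# Q: the bound for marked sets
-/

set_option autoImplicit false

namespace Pool.Agent.Helper82_Alt.PQ

open Pool.Agent.Helper454.Kauf (Piece Word Closed width)

/-! ### widths -/

theorem width_append (x y : Word) (n : ℕ) :
    width (x ++ y) n = (width x n).bind (width y) := by
  induction x generalizing n with
  | nil => rfl
  | cons p x ih =>
    simp only [List.cons_append, width]
    cases p.width n with
    | none => rfl
    | some m => simpa using ih m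

theorem take_some {D : Word} (hD : Closed D) (t : ℕ) :
    width (D.take t) 0 = some (wid D t) := by
  have h : width (D.take t ++ D.drop t) 0 = some 0 := by rw [List.take_append_drop]; exact hD
  rw [width_append] at h
  unfold wid
  cases hw : width (D.take t) 0 with
  | none => rw [hw] at h; simp at h
  | some m => simp

theorem wid_zero (D : Word) : wid D 0 = 0 := rfl

theorem wid_succ {D : Word} (hD : Closed D) (t : ℕ) (h : t < D.length) :
    (D[t]).width (wid D t) = some (wid D (t + 1)) := by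
  have h1 := take_some hD (t + 1)
  rw [← List.take_concat_get' D t h, width_append, take_some hD t] at h1
  simp only [width, Option.bind_some] at h1
  rw [← h1]
  cases (D[t]).width (wid D t) <;> rfl

theorem wid_ge {D : Word} (hD : Closed D) (t : ℕ) (h : D.length ≤ t) : wid D t = 0 := by
  have h1 := take_some hD t
  rw [List.take_of_length_le h] at h1
  have h2 : width D 0 = some 0 := hD
  rw [h2] at h1
  exact (Option.some.inj h1).symm

theorem wid_even {D : Word} (hD : Closed D) (t : ℕ) : wid D t % 2 = 0 := by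
  induction t with
  | zero => rfl
  | succ t ih =>
    by_cases h : t < D.length
    · have h1 := wid_succ hD t h
      revert h1
      cases D[t] with
      | birth i =>
        simp only [Piece.width]
        split_ifs with hi
        · intro h1; have := Option.some.inj h1; omega
        · intro h1; simp at h1
      | death i =>
        simp only [Piece.width]
        split_ifs with hi
        · intro h1; have := Option.some.inj h1; omega
        · intro h1; simp at h1
      | pos i =>
        simp only [Piece.width]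
        split_ifs with hi
        · intro h1; have := Option.some.inj h1; omega
        · intro h1; simp at h1
      | neg i =>
        simp only [Piece.width]
        split_ifs with hi
        · intro h1; have := Option.some.inj h1; omega
        · intro h1; simp at h1
    · rw [wid_ge hD _ (by omega)]

/-- the width after a piece -/
theorem wid_birth {D : Word} (hD : Closed D) {t i : ℕ} (h : t < D.length)
    (hp : D[t] = Piece.birth i) : i ≤ wid D t ∧ wid D (t + 1) = wid D t + 2 := by
  have h1 := wid_succ hD t h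
  rw [hp] at h1
  simp only [Piece.width] at h1
  split_ifs at h1 with hi
  exact ⟨hi, (Option.some.inj h1).symm⟩

theorem wid_death {D : Word} (hD : Closed D) {t i : ℕ} (h : t < D.length)
    (hp : D[t] = Piece.death i) : i + 2 ≤ wid D t ∧ wid D (t + 1) = wid D t - 2 := by
  have h1 := wid_succ hD t h
  rw [hp] at h1
  simp only [Piece.width] at h1
  split_ifs at h1 with hi
  exact ⟨hi, (Option.some.inj h1).symm⟩

theorem wid_cr {D : Word} (hD : Closed D) {t i : ℕ} (h : t < D.length)
    (hp : D[t] = Piece.pos i ∨ D[t] = Piece.neg i) : i + 2 ≤ wid D t ∧ wid D (t + 1) = wid D t := by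
  have h1 := wid_succ hD t h
  rcases hp with hp | hp
  all_goals
    rw [hp] at h1
    simp only [Piece.width] at h1
    split_ifs at h1 with hi
    exact ⟨hi, (Option.some.inj h1).symm⟩

/-! ### labellings -/

theorem rlab_map₂ {D : Word} {G H K : Type} (F : G → H → K) {r : ℕ → ℕ → G} {s : ℕ → ℕ → H}
    (hr : RLab D r) (hs : RLab D s) : RLab D (fun t j => F (r t j) (s t j)) := by
  obtain ⟨r1, r2, r3⟩ := hr
  obtain ⟨s1, s2, s3⟩ := hs
  refine ⟨fun j => ?_, fun t ht => ?_, fun t ht => ?_⟩
  · simp only [r1 j, s1 j]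
  · simp only [r2 t ht, s2 t ht]
  · have a := r3 t ht
    have b := s3 t ht
    revert a b
    cases D[t] <;> simp only [RStep] <;> rintro a b
    · exact ⟨fun j hj => by rw [a.1 j hj, b.1 j hj], fun j hj => by rw [a.2 j hj, b.2 j hj]⟩
    · exact ⟨fun j hj => by rw [a.1 j hj, b.1 j hj], fun j hj => by rw [a.2 j hj, b.2 j hj]⟩
    · exact fun j hj => by rw [a j hj, b j hj]
    · exact fun j hj => by rw [a j hj, b j hj]

theorem rlab_map {D : Word} {G K : Type} (F : G → K) {r : ℕ → ℕ → G}
    (hr : RLab D r) : RLab D (fun t j => F (r t j)) :=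
  rlab_map₂ (fun a _ => F a) hr hr

theorem rlab_zero {D : Word} {G : Type} {r : ℕ → ℕ → G} (hr : RLab D r) (t : ℕ) :
    r t 0 = r 0 0 := by
  induction t with
  | zero => rfl
  | succ t ih =>
    by_cases h : t < D.length
    · rw [← ih]
      have a := hr.2.2 t h
      revert a
      cases D[t] with
      | birth i => intro a; exact a.1 0 (Nat.zero_le _)
      | death i => intro a; exact (a.1 0 (Nat.zero_le _)).symm
      | pos i => intro a; exact a 0 (by omega)
      | neg i => intro a; exact a 0 (by omega)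
    · rw [hr.2.1 (t + 1) (by omega)]

theorem rlab_outer {D : Word} (hD : Closed D) {G : Type} {r : ℕ → ℕ → G} (hr : RLab D r)
    (t j : ℕ) (hj : wid D t ≤ j) : r t j = r 0 0 := by
  induction t generalizing j with
  | zero => exact hr.1 j
  | succ t ih =>
    by_cases h : t < D.length
    · have a := hr.2.2 t h
      cases hp : D[t] with
      | birth i =>
        obtain ⟨h1, h2⟩ := wid_birth hD h hp
        rw [hp] at a
        rw [h2] at hj
        obtain ⟨k, rfl⟩ : ∃ k, j = k + 2 := ⟨j - 2, by omega⟩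
        rw [a.2 k (by omega)]
        exact ih k (by omega)
      | death i =>
        obtain ⟨h1, h2⟩ := wid_death hD h hp
        rw [hp] at a
        rw [h2] at hj
        rw [← a.2 j (by omega)]
        exact ih (j + 2) (by omega)
      | pos i =>
        obtain ⟨h1, h2⟩ := wid_cr hD h (Or.inl hp)
        rw [hp] at a
        rw [h2] at hj
        rw [a j (by omega)]
        exact ih j hj
      | neg i =>
        obtain ⟨h1, h2⟩ := wid_cr hD h (Or.inr hp)
        rw [hp] at a
        rw [h2] at hj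
        rw [a j (by omega)]
        exact ih j hj
    · rw [hr.2.1 (t + 1) (by omega)]
      exact hr.1 j

/-- the colours are a labelling -/
theorem rlab_col {D : Word} (hD : Closed D) :
    RLab D (fun t j => if j ≤ wid D t then j % 2 else 0) := by
  refine ⟨fun j => ?_, fun t ht => ?_, fun t ht => ?_⟩
  · simp only [wid_zero]
    by_cases h : j ≤ 0
    · have : j = 0 := by omega
      subst this; rfl
    · simp [h]
  · funext j
    show (if j ≤ wid D t then j % 2 else 0) = (if j ≤ wid D 0 then j % 2 else 0)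
    rw [wid_ge hD t ht, wid_zero]
  · have he := wid_even hD t
    cases hp : D[t] with
    | birth i =>
      obtain ⟨h1, h2⟩ := wid_birth hD ht hp
      simp only [RStep, h2]
      refine ⟨fun j hj => ?_, fun j hj => ?_⟩
      · rw [if_pos (by omega), if_pos (by omega)]
      · by_cases hjw : j ≤ wid D t
        · rw [if_pos (by omega), if_pos hjw]; omega
        · rw [if_neg (by omega), if_neg hjw]
    | death i =>
      obtain ⟨h1, h2⟩ := wid_death hD ht hp
      simp only [RStep, h2]
      refine ⟨fun j hj => ?_, fun j hj => ?_⟩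
      · rw [if_pos (by omega), if_pos (by omega)]
      · by_cases hjw : j ≤ wid D t - 2
        · rw [if_pos (by omega), if_pos hjw]; omega
        · rw [if_neg (by omega), if_neg hjw]
    | pos i =>
      obtain ⟨h1, h2⟩ := wid_cr hD ht (Or.inl hp)
      simp only [RStep, h2]
      intro j _
      trivial
    | neg i =>
      obtain ⟨h1, h2⟩ := wid_cr hD ht (Or.inr hp)
      simp only [RStep, h2]
      intro j _
      trivial

theorem rlab_isW {D : Word} (hD : Closed D) (ε : ℕ) : RLab D (fun t j => decide (isW ε D t j)) :=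
  rlab_map (fun c : ℕ => decide (c = ε)) (rlab_col hD)

/-! ### crossings -/

section corners
variable {G : Type}

/-- the black corners of a crossing -/
def kB1 (z : G) : Piece → (r r' : ℕ → G) → G
  | .pos i, r, _ => r (i + 1)
  | .neg i, r, _ => r (i + 2)
  | _, _, _ => z

def kB2 (z : G) : Piece → (r r' : ℕ → G) → G
  | .pos i, _, r' => r' (i + 1)
  | .neg i, r, _ => r i
  | _, _, _ => z

/-- the white corners of a crossing -/
def kW1 (z : G) : Piece → (r r' : ℕ → G) → G
  | .pos i, r, _ => r (i + 2)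
  | .neg i, r, _ => r (i + 1)
  | _, _, _ => z

def kW2 (z : G) : Piece → (r r' : ℕ → G) → G
  | .pos i, r, _ => r i
  | .neg i, _, r' => r' (i + 1)
  | _, _, _ => z

end corners

/-- the black difference at the crossing `t` -/
noncomputable def dB (D : Word) (t : Fin D.length) : (ℕ → ℕ → ℝ) →ₗ[ℝ] ℝ where
  toFun r := kB1 0 D[t] (r t) (r (t + 1)) - kB2 0 D[t] (r t) (r (t + 1))
  map_add' r s := by
    cases D[t] <;> simp [kB1, kB2] <;> ring
  map_smul' c r := by
    cases D[t] <;> simp [kB1, kB2] <;> ring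

/-- the black sum at the crossing `t` -/
noncomputable def sB (D : Word) (t : Fin D.length) : (ℕ → ℕ → ℝ) →ₗ[ℝ] ℝ where
  toFun r := kB1 0 D[t] (r t) (r (t + 1)) + kB2 0 D[t] (r t) (r (t + 1))
  map_add' r s := by
    cases D[t] <;> simp [kB1, kB2] <;> ring
  map_smul' c r := by
    cases D[t] <;> simp [kB1, kB2] <;> ring

/-- the white difference at the crossing `t` -/
noncomputable def dW (D : Word) (t : Fin D.length) : (ℕ → ℕ → ℝ) →ₗ[ℝ] ℝ where
  toFun r := kW1 0 D[t] (r t) (r (t + 1)) - kW2 0 D[t] (r t) (r (t + 1))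
  map_add' r s := by
    cases D[t] <;> simp [kW1, kW2] <;> ring
  map_smul' c r := by
    cases D[t] <;> simp [kW1, kW2] <;> ring

theorem dB_apply (D : Word) (t : Fin D.length) (r : ℕ → ℕ → ℝ) :
    dB D t r = kB1 0 D[t] (r t) (r (t + 1)) - kB2 0 D[t] (r t) (r (t + 1)) := rfl

theorem sB_apply (D : Word) (t : Fin D.length) (r : ℕ → ℕ → ℝ) :
    sB D t r = kB1 0 D[t] (r t) (r (t + 1)) + kB2 0 D[t] (r t) (r (t + 1)) := rfl

theorem dW_apply (D : Word) (t : Fin D.length) (r : ℕ → ℕ → ℝ) :
    dW D t r = kW1 0 D[t] (r t) (r (t + 1)) - kW2 0 D[t] (r t) (r (t + 1)) := rfl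

/-- the sign -/
def sg : Piece → ℝ
  | .pos _ => 1
  | .neg _ => -1
  | _ => 0


section par
variable {ε : ℕ} {D : Word}

theorem par_pos (hp : ParType ε D) (t : Fin D.length) {i : ℕ} (h : D[t] = Piece.pos i) :
    i % 2 = ε := by
  have := hp D[t] (List.getElem_mem _)
  rw [h] at this
  exact this

theorem par_neg (hp : ParType ε D) (t : Fin D.length) {i : ℕ} (h : D[t] = Piece.neg i) :
    i % 2 ≠ ε := by
  have := hp D[t] (List.getElem_mem _)
  rw [h] at this
  exact this

theorem kB_eq {G : Type} (hε : ε < 2) (hD : Closed D) (hp : ParType ε D) (t : Fin D.length) (z : G)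
    (r : ℕ → ℕ → G) (h : ∀ t j, j ≤ wid D t → j % 2 ≠ ε → r t j = z) :
    kB1 z D[t] (r t) (r (t + 1)) = z ∧ kB2 z D[t] (r t) (r (t + 1)) = z := by
  cases hc : D[t] with
  | birth i => exact ⟨rfl, rfl⟩
  | death i => exact ⟨rfl, rfl⟩
  | pos i =>
    obtain ⟨h1, h2⟩ := wid_cr hD t.2 (Or.inl hc)
    have h3 := par_pos hp t hc
    exact ⟨h _ _ (by omega) (by omega), h _ _ (by omega) (by omega)⟩
  | neg i =>
    obtain ⟨h1, h2⟩ := wid_cr hD t.2 (Or.inr hc)
    have h3 := par_neg hp t hc
    exact ⟨h _ _ (by omega) (by omega), h _ _ (by omega) (by omega)⟩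

theorem kW_eq {G : Type} (hε : ε < 2) (hD : Closed D) (hp : ParType ε D) (t : Fin D.length) (z : G)
    (r : ℕ → ℕ → G) (h : ∀ t j, j ≤ wid D t → j % 2 = ε → r t j = z) :
    kW1 z D[t] (r t) (r (t + 1)) = z ∧ kW2 z D[t] (r t) (r (t + 1)) = z := by
  cases hc : D[t] with
  | birth i => exact ⟨rfl, rfl⟩
  | death i => exact ⟨rfl, rfl⟩
  | pos i =>
    obtain ⟨h1, h2⟩ := wid_cr hD t.2 (Or.inl hc)
    have h3 := par_pos hp t hc
    exact ⟨h _ _ (by omega) (by omega), h _ _ (by omega) (by omega)⟩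
  | neg i =>
    obtain ⟨h1, h2⟩ := wid_cr hD t.2 (Or.inr hc)
    have h3 := par_neg hp t hc
    exact ⟨h _ _ (by omega) (by omega), h _ _ (by omega) (by omega)⟩

theorem eqB_of (hp : ParType ε D) (t : Fin D.length) (r : ℕ → ℕ → ℝ) (h : dB D t r = 0) :
    EqB ε D[t] (r t) (r (t + 1)) := by
  rw [dB_apply] at h
  cases hc : D[t] with
  | birth i => exact trivial
  | death i => exact trivial
  | pos i =>
    have h3 := par_pos hp t hc
    rw [hc] at h
    simp only [kB1, kB2] at h
    simp only [EqB, h3, if_true]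
    linarith
  | neg i =>
    have h3 := par_neg hp t hc
    rw [hc] at h
    simp only [kB1, kB2] at h
    simp only [EqB, h3, if_false]
    linarith

theorem eqW_of (hε : ε < 2) (hp : ParType ε D) (t : Fin D.length) (r : ℕ → ℕ → ℝ)
    (h : dW D t r = 0) : EqB (1 - ε) D[t] (r t) (r (t + 1)) := by
  rw [dW_apply] at h
  cases hc : D[t] with
  | birth i => exact trivial
  | death i => exact trivial
  | pos i =>
    have h3 := par_pos hp t hc
    rw [hc] at h
    simp only [kW1, kW2] at h
    have h4 : ¬ (i % 2 = 1 - ε) := by omega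
    simp only [EqB, h4, if_false]
    linarith
  | neg i =>
    have h3 := par_neg hp t hc
    rw [hc] at h
    simp only [kW1, kW2] at h
    have h4 : i % 2 = 1 - ε := by omega
    simp only [EqB, h4, if_true]
    linarith

/-- the form at a crossing, if `g` vanishes at the white corners -/
theorem shoe_eq (hε : ε < 2) (hD : Closed D) (hp : ParType ε D) (t : Fin D.length)
    (g f : ℕ → ℕ → ℝ) (h : ∀ t j, j ≤ wid D t → j % 2 = ε → g t j = 0) :
    shoe D[t] (g t) (g (t + 1)) (f t) (f (t + 1)) = sg D[t] * dB D t g * dW D t f := by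
  have hw := kW_eq hε hD hp t 0 g h
  rw [dB_apply, dW_apply]
  revert hw
  cases hc : D[t] with
  | birth i => intro _; simp [shoe, sg]
  | death i => intro _; simp [shoe, sg]
  | pos i =>
    intro hw
    simp only [kW1, kW2] at hw
    simp only [shoe, sg, kB1, kB2, kW1, kW2, hw.1, hw.2]
    ring
  | neg i =>
    intro hw
    simp only [kW1, kW2] at hw
    simp only [shoe, sg, kB1, kB2, kW1, kW2, hw.1, hw.2]
    ring

/-- white marked corners have black marked neighbours -/
theorem allowed_corner (hD : Closed D) (hp : ParType ε D) (hε : ε < 2) {C : ℕ → ℕ → Bool}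
    (hC : RLab D C) (hA : Allowed ε D C) (t : Fin D.length)
    (h : kB1 false D[t] (C t) (C (t + 1)) = false ∨ kB2 false D[t] (C t) (C (t + 1)) = false) :
    kW1 false D[t] (C t) (C (t + 1)) = false ∧ kW2 false D[t] (C t) (C (t + 1)) = false := by
  have hs := hC.2.2 t t.2
  change RStep D[t] (C t) (C (t + 1)) at hs
  cases hc : D[t] with
  | birth i => exact ⟨rfl, rfl⟩
  | death i => exact ⟨rfl, rfl⟩
  | pos i =>
    obtain ⟨h1, h2⟩ := wid_cr hD t.2 (Or.inl hc)
    have h3 := par_pos hp t hc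
    rw [hc] at hs h
    simp only [kB1, kB2] at h
    simp only [kW1, kW2]
    have a1 := (hA t i (by omega)).1 h3
    have a2 := (hA (t + 1) i (by omega)).1 h3
    have a3 := (hA t (i + 1) (by omega)).2 (by omega)
    have a4 := (hA (t + 1) (i + 1) (by omega)).2 (by omega)
    have b1 : C (t + 1) i = C t i := hs i (by omega)
    have b2 : C (t + 1) (i + 2) = C t (i + 2) := hs (i + 2) (by omega)
    rw [b1] at a2
    rw [show i + 1 + 1 = i + 2 from rfl] at a3 a4
    rw [b2] at a4
    cases c1 : C t i <;> cases c2 : C t (i + 2) <;> simp_all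
  | neg i =>
    obtain ⟨h1, h2⟩ := wid_cr hD t.2 (Or.inr hc)
    have h3 := par_neg hp t hc
    rw [hc] at hs h
    simp only [kB1, kB2] at h
    simp only [kW1, kW2]
    have a1 := (hA t (i + 1) (by omega)).1 (by omega)
    have a2 := (hA (t + 1) (i + 1) (by omega)).1 (by omega)
    have a3 := (hA t i (by omega)).2 h3
    have a4 := (hA (t + 1) i (by omega)).2 h3
    have b1 : C (t + 1) i = C t i := hs i (by omega)
    have b2 : C (t + 1) (i + 2) = C t (i + 2) := hs (i + 2) (by omega)
    rw [show i + 1 + 1 = i + 2 from rfl] at a1 a2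
    rw [b2] at a2
    rw [b1] at a4
    cases c1 : C t (i + 1) <;> cases c2 : C (t + 1) (i + 1) <;> simp_all

end par

/-! ### linear algebra -/

theorem orth_finrank {ι : Type} [Fintype ι] (P Q : Submodule ℝ (ι → ℝ))
    (h : ∀ x ∈ P, ∀ y ∈ Q, ∑ i, x i * y i = 0) :
    Module.finrank ℝ P + Module.finrank ℝ Q ≤ Fintype.card ι := by
  have hd : Disjoint P Q := by
    rw [Submodule.disjoint_def]
    intro x hx hy
    have h1 := h x hx x hy
    have h2 : ∀ i ∈ Finset.univ, x i * x i = 0 :=
      (Finset.sum_eq_zero_iff_of_nonneg (fun i _ => mul_self_nonneg (x i))).mp h1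
    funext i
    simpa using h2 i (Finset.mem_univ i)
  have h1 := Submodule.finrank_add_finrank_le_of_disjoint hd
  rwa [Module.finrank_fintype_fun_eq_card] at h1

/-- `P`, `Q` with orthogonal images; the second map is injective -/
theorem ker_count {E : Type} [AddCommGroup E] [Module ℝ E] {ι : Type} [Fintype ι]
    (P Q : Submodule ℝ E) [Module.Finite ℝ P] [Module.Finite ℝ Q] (A B : E →ₗ[ℝ] (ι → ℝ))
    (horth : ∀ x ∈ P, ∀ y ∈ Q, ∑ i, A x i * B y i = 0) (hB : ∀ y ∈ Q, B y = 0 → y = 0) :
    Module.finrank ℝ P + Module.finrank ℝ Q ≤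
      Module.finrank ℝ (P ⊓ LinearMap.ker A : Submodule ℝ E) + Fintype.card ι := by
  have h1 := LinearMap.finrank_range_add_finrank_ker (A.domRestrict P)
  have h20 : Submodule.map P.subtype (LinearMap.ker (A.domRestrict P)) = P ⊓ LinearMap.ker A := by
    ext x
    simp only [Submodule.mem_map, LinearMap.mem_ker, LinearMap.domRestrict_apply,
      Submodule.subtype_apply, Submodule.mem_inf]
    constructor
    · rintro ⟨y, hy, rfl⟩
      exact ⟨y.2, hy⟩
    · rintro ⟨hx, hx2⟩
      exact ⟨⟨x, hx⟩, hx2, rfl⟩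
  have h2 : Module.finrank ℝ (LinearMap.ker (A.domRestrict P)) =
      Module.finrank ℝ (P ⊓ LinearMap.ker A : Submodule ℝ E) := by
    rw [← h20, Submodule.finrank_map_subtype_eq P (LinearMap.ker (A.domRestrict P))]
  have h3 : Module.finrank ℝ (LinearMap.range (B.domRestrict Q)) = Module.finrank ℝ Q := by
    apply LinearMap.finrank_range_of_inj
    rw [← LinearMap.ker_eq_bot, LinearMap.ker_eq_bot']
    intro y hy
    exact Subtype.ext (hB y y.2 hy)
  have h4 := orth_finrank (LinearMap.range (A.domRestrict P)) (LinearMap.range (B.domRestrict Q)) (by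
    rintro _ ⟨x, rfl⟩ _ ⟨y, rfl⟩
    exact horth x x.2 y y.2)
  omega

/-! ### the marked set -/

/-- black part -/
def TT (ε : ℕ) (D : Word) (C : ℕ → ℕ → Bool) (t j : ℕ) : Bool := C t j && !decide (isW ε D t j)

/-- white part -/
def UU (ε : ℕ) (D : Word) (C : ℕ → ℕ → Bool) (t j : ℕ) : Bool := C t j && decide (isW ε D t j)

section marked
variable {ε : ℕ} {D : Word} {C : ℕ → ℕ → Bool}

theorem rlab_TT (hD : Closed D) (hC : RLab D C) : RLab D (TT ε D C) :=
  rlab_map₂ (fun a b => a && !b) hC (rlab_isW hD ε)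

theorem rlab_UU (hD : Closed D) (hC : RLab D C) : RLab D (UU ε D C) :=
  rlab_map₂ (fun a b => a && b) hC (rlab_isW hD ε)

theorem isW_real {t j : ℕ} (hj : j ≤ wid D t) : isW ε D t j ↔ j % 2 = ε := by
  unfold isW; rw [if_pos hj]

theorem TT_white {t j : ℕ} (hj : j ≤ wid D t) (h : j % 2 = ε) : TT ε D C t j = false := by
  have : isW ε D t j := (isW_real hj).mpr h
  simp [TT, this]

theorem TT_black {t j : ℕ} (hj : j ≤ wid D t) (h : j % 2 ≠ ε) : TT ε D C t j = C t j := by
  have : ¬ isW ε D t j := fun h' => h ((isW_real hj).mp h')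
  simp [TT, this]

theorem UU_black {t j : ℕ} (hj : j ≤ wid D t) (h : j % 2 ≠ ε) : UU ε D C t j = false := by
  have : ¬ isW ε D t j := fun h' => h ((isW_real hj).mp h')
  simp [UU, this]

theorem UU_white {t j : ℕ} (hj : j ≤ wid D t) (h : j % 2 = ε) : UU ε D C t j = C t j := by
  have : isW ε D t j := (isW_real hj).mpr h
  simp [UU, this]

theorem LL_le (hD : Closed D) : LL D C ≤ LL D (TT ε D C) ⊔ LL D (UU ε D C) := by
  intro r hr
  obtain ⟨h1, h2⟩ := hr
  have e : r = (fun t j => (if isW ε D t j then 0 else r t j)) +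
      (fun t j => (if isW ε D t j then r t j else 0)) := by
    funext t j
    simp only [Pi.add_apply]
    split_ifs <;> simp
  rw [e]
  refine Submodule.add_mem_sup ⟨?_, ?_⟩ ⟨?_, ?_⟩
  · have := rlab_map₂ (fun (a : ℝ) (b : Bool) => if b = true then 0 else a) h1 (rlab_isW hD ε)
    simpa using this
  · intro t j htj
    simp only [TT, Bool.and_eq_false_iff, Bool.not_eq_false', decide_eq_true_eq] at htj
    show (if isW ε D t j then 0 else r t j) = 0
    rcases htj with h | h
    · rw [h2 t j h]; simp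
    · rw [if_pos h]
  · have := rlab_map₂ (fun (a : ℝ) (b : Bool) => if b = true then a else 0) h1 (rlab_isW hD ε)
    simpa using this
  · intro t j htj
    simp only [UU, Bool.and_eq_false_iff, decide_eq_false_iff_not] at htj
    show (if isW ε D t j then r t j else 0) = 0
    rcases htj with h | h
    · rw [h2 t j h]; simp
    · rw [if_neg h]

/-- marks at the black corners -/
def m1 (D : Word) (C : ℕ → ℕ → Bool) (t : Fin D.length) : Bool :=
  kB1 false D[t] (C t) (C (t + 1))

def m2 (D : Word) (C : ℕ → ℕ → Bool) (t : Fin D.length) : Bool :=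
  kB2 false D[t] (C t) (C (t + 1))

/-- the crossings with two marked black corners -/
def EE2 (D : Word) (C : ℕ → ℕ → Bool) : Finset (Fin D.length) :=
  Finset.univ.filter fun t => m1 D C t = true ∧ m2 D C t = true

/-- the crossings with one marked black corner -/
def EE1 (D : Word) (C : ℕ → ℕ → Bool) : Finset (Fin D.length) :=
  Finset.univ.filter fun t => m1 D C t ≠ m2 D C t

theorem mem_EE2 (t : Fin D.length) : t ∈ EE2 D C ↔ m1 D C t = true ∧ m2 D C t = true := by
  simp [EE2]

theorem mem_EE1 (t : Fin D.length) : t ∈ EE1 D C ↔ m1 D C t ≠ m2 D C t := by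
  simp [EE1]

theorem sum_BCp : ∑ t : Fin D.length, BCp D[t] (C t) (C (t + 1)) =
    2 * ((EE2 D C).card : ℤ) + ((EE1 D C).card : ℤ) := by
  have h1 : ∀ t : Fin D.length, BCp D[t] (C t) (C (t + 1)) =
      2 * (if m1 D C t = true ∧ m2 D C t = true then 1 else 0) +
        (if m1 D C t ≠ m2 D C t then 1 else 0) := by
    intro t
    have h2 : BCp D[t] (C t) (C (t + 1)) = bi (m1 D C t) + bi (m2 D C t) := by
      unfold m1 m2
      cases D[t] with
      | birth i => rfl
      | death i => rfl
      | pos i => rfl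
      | neg i => exact add_comm _ _
    rw [h2]
    cases m1 D C t <;> cases m2 D C t <;> simp [bi]
  rw [Finset.sum_congr rfl (fun t _ => h1 t), Finset.sum_add_distrib, ← Finset.mul_sum,
    Finset.sum_boole, Finset.sum_boole]
  rfl

/-- values at unmarked corners vanish -/
theorem kB1_zero {g : ℕ → ℕ → ℝ} (hg : ∀ t j, C t j = false → g t j = 0) (t : Fin D.length)
    (h : m1 D C t = false) : kB1 0 D[t] (g t) (g (t + 1)) = 0 := by
  unfold m1 at h
  revert h
  cases D[t] with
  | birth i => intro _; rfl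
  | death i => intro _; rfl
  | pos i => intro h; exact hg _ _ h
  | neg i => intro h; exact hg _ _ h

theorem kB2_zero {g : ℕ → ℕ → ℝ} (hg : ∀ t j, C t j = false → g t j = 0) (t : Fin D.length)
    (h : m2 D C t = false) : kB2 0 D[t] (g t) (g (t + 1)) = 0 := by
  unfold m2 at h
  revert h
  cases D[t] with
  | birth i => intro _; rfl
  | death i => intro _; rfl
  | pos i => intro h; exact hg _ _ h
  | neg i => intro h; exact hg _ _ h

theorem kW1_zero {g : ℕ → ℕ → ℝ} (hg : ∀ t j, C t j = false → g t j = 0) (t : Fin D.length)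
    (h : kW1 false D[t] (C t) (C (t + 1)) = false) : kW1 0 D[t] (g t) (g (t + 1)) = 0 := by
  revert h
  cases D[t] with
  | birth i => intro _; rfl
  | death i => intro _; rfl
  | pos i => intro h; exact hg _ _ h
  | neg i => intro h; exact hg _ _ h

theorem kW2_zero {g : ℕ → ℕ → ℝ} (hg : ∀ t j, C t j = false → g t j = 0) (t : Fin D.length)
    (h : kW2 false D[t] (C t) (C (t + 1)) = false) : kW2 0 D[t] (g t) (g (t + 1)) = 0 := by
  revert h
  cases D[t] with
  | birth i => intro _; rfl
  | death i => intro _; rfl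
  | pos i => intro h; exact hg _ _ h
  | neg i => intro h; exact hg _ _ h

/-- the white differences vanish outside `E2` -/
theorem dW_zero (hε : ε < 2) (hD : Closed D) (hp : ParType ε D) (hC : RLab D C)
    (hA : Allowed ε D C) {f : ℕ → ℕ → ℝ} (hf : ∀ t j, C t j = false → f t j = 0)
    (t : Fin D.length) (ht : t ∉ EE2 D C) : dW D t f = 0 := by
  rw [mem_EE2, not_and_or] at ht
  have h1 := allowed_corner hD hp hε hC hA t (by
    rcases ht with h | h
    · left; simpa [m1] using h
    · right; simpa [m2] using h)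
  rw [dW_apply, kW1_zero hf t h1.1, kW2_zero hf t h1.2, sub_zero]

/-- the black differences vanish outside `E1`, `E2` -/
theorem dB_zero {g : ℕ → ℕ → ℝ} (hg : ∀ t j, C t j = false → g t j = 0) (t : Fin D.length)
    (h1 : t ∉ EE1 D C) (h2 : t ∉ EE2 D C) : dB D t g = 0 ∧ sB D t g = 0 := by
  rw [mem_EE1, not_not] at h1
  rw [mem_EE2, not_and_or] at h2
  have h3 : m1 D C t = false ∧ m2 D C t = false := by
    rcases h2 with h | h
    · have : m1 D C t = false := by simpa using h
      exact ⟨this, h1 ▸ this⟩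
    · have : m2 D C t = false := by simpa using h
      exact ⟨h1 ▸ this, this⟩
  rw [dB_apply, sB_apply, kB1_zero hg t h3.1, kB2_zero hg t h3.2]
  simp

theorem LL_outside {r : ℕ → ℕ → ℝ} (hr : r ∈ LL D (TT ε D C)) :
    ∀ t j, C t j = false → r t j = 0 := by
  intro t j h
  exact hr.2 t j (by simp [TT, h])

theorem LL_outside' {r : ℕ → ℕ → ℝ} (hr : r ∈ LL D (UU ε D C)) :
    ∀ t j, C t j = false → r t j = 0 := by
  intro t j h
  exact hr.2 t j (by simp [UU, h])

theorem eq_zero_of_real (hD : Closed D) {r : ℕ → ℕ → ℝ} (hr : RLab D r)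
    (h : ∀ t j, j ≤ wid D t → r t j = 0) : r = 0 := by
  funext t j
  by_cases hj : j ≤ wid D t
  · exact h t j hj
  · rw [rlab_outer hD hr t j (by omega)]
    exact h 0 0 (Nat.zero_le _)

/-- an unmarked black gap gives an unmarked white gap -/
theorem exists_white (hD : Closed D) (hne : D ≠ []) (hε : ε < 2) (hC : RLab D C)
    (hA : Allowed ε D C)
    (h : ∃ t j, j ≤ wid D t ∧ j % 2 ≠ ε ∧ C t j = false) :
    ∃ t j, j ≤ wid D t ∧ j % 2 = ε ∧ C t j = false := by
  have main : ∀ t j, 0 < wid D t → j ≤ wid D t → j % 2 ≠ ε → C t j = false →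
      ∃ t j, j ≤ wid D t ∧ j % 2 = ε ∧ C t j = false := by
    intro t j hw hj hj2 hc
    by_cases h1 : j < wid D t
    · refine ⟨t, j + 1, by omega, by omega, ?_⟩
      have := (hA t j h1).2 hj2
      by_contra h2
      rw [Bool.not_eq_false] at h2
      rw [this h2] at hc
      exact absurd hc (by decide)
    · obtain ⟨k, rfl⟩ : ∃ k, j = k + 1 := ⟨j - 1, by omega⟩
      refine ⟨t, k, by omega, by omega, ?_⟩
      have := (hA t k (by omega)).1 (by omega)
      by_contra h2
      rw [Bool.not_eq_false] at h2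
      rw [this h2] at hc
      exact absurd hc (by decide)
  obtain ⟨t, j, hj, hj2, hc⟩ := h
  by_cases hw : 0 < wid D t
  · exact main t j hw hj hj2 hc
  · have hj0 : j = 0 := by omega
    subst hj0
    rw [rlab_zero hC t] at hc
    have hlen : 0 < D.length := List.length_pos_iff.mpr hne
    have hw1 : wid D 1 = 2 := by
      cases hp : D[0] with
      | birth i => exact (wid_birth hD hlen hp).2
      | death i => have := (wid_death hD hlen hp).1; rw [wid_zero] at this; omega
      | pos i => have := (wid_cr hD hlen (Or.inl hp)).1; rw [wid_zero] at this; omega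
      | neg i => have := (wid_cr hD hlen (Or.inr hp)).1; rw [wid_zero] at this; omega
    refine main 1 0 (by omega) (by omega) hj2 ?_
    rw [rlab_zero hC 1]
    exact hc

end marked

section main
variable {ε : ℕ} {D : Word} {C : ℕ → ℕ → Bool}

/-- black differences on `E2` -/
noncomputable def AA (D : Word) (C : ℕ → ℕ → Bool) : (ℕ → ℕ → ℝ) →ₗ[ℝ] (EE2 D C → ℝ) :=
  LinearMap.pi fun c => dB D c

/-- white differences on `E2`, with signs -/
noncomputable def BB (D : Word) (C : ℕ → ℕ → Bool) : (ℕ → ℕ → ℝ) →ₗ[ℝ] (EE2 D C → ℝ) :=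
  LinearMap.pi fun c => sg D[(c : Fin D.length)] • dW D c

/-- black labellings on the marked set with equal corners at `E2` -/
noncomputable def GG (ε : ℕ) (D : Word) (C : ℕ → ℕ → Bool) : Submodule ℝ (ℕ → ℕ → ℝ) :=
  LL D (TT ε D C) ⊓ LinearMap.ker (AA D C)

theorem mem_GG {g : ℕ → ℕ → ℝ} : g ∈ GG ε D C ↔
    g ∈ LL D (TT ε D C) ∧ ∀ c ∈ EE2 D C, dB D c g = 0 := by
  unfold GG
  rw [Submodule.mem_inf, LinearMap.mem_ker]
  constructor
  · rintro ⟨h1, h2⟩
    exact ⟨h1, fun c hc => congrFun h2 ⟨c, hc⟩⟩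
  · rintro ⟨h1, h2⟩
    exact ⟨h1, funext fun c => h2 c c.2⟩

theorem TT_vanish {g : ℕ → ℕ → ℝ} (hg : g ∈ LL D (TT ε D C)) :
    ∀ t j, j ≤ wid D t → j % 2 = ε → g t j = 0 :=
  fun t j hj h => hg.2 t j (TT_white hj h)

/-- orthogonality -/
theorem orth (hL1 : S_L1) (hε : ε < 2) (hD : Closed D) (hp : ParType ε D) {g f : ℕ → ℕ → ℝ}
    (hg : g ∈ LL D (TT ε D C)) (hf : RLab D f) :
    ∑ t : Fin D.length, sg D[t] * dB D t g * dW D t f = 0 := by
  rw [← hL1 D g f hD hg.1 hf]
  exact Finset.sum_congr rfl fun t _ => (shoe_eq hε hD hp t g f (TT_vanish hg)).symm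

theorem dim1 (hL1 : S_L1) (hL2 : S_L2) (hL3 : S_L3) (hε : ε < 2) (hD : Closed D) (hne : D ≠ [])
    (hcon : Connected D) (hp : ParType ε D) (hC : RLab D C) (hA : Allowed ε D C)
    (hw : ∃ t j, j ≤ wid D t ∧ j % 2 = ε ∧ C t j = false) :
    Module.finrank ℝ (LL D (TT ε D C)) + Module.finrank ℝ (LL D (UU ε D C)) ≤
      Module.finrank ℝ (GG ε D C) + (EE2 D C).card := by
  have i1 := (hL2 D (TT ε D C) hD hne (rlab_TT hD hC)).1
  have i2 := (hL2 D (UU ε D C) hD hne (rlab_UU hD hC)).1
  have h := ker_count (LL D (TT ε D C)) (LL D (UU ε D C)) (AA D C) (BB D C) ?_ ?_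
  · rw [Fintype.card_coe] at h
    exact h
  · intro g hg f hf
    rw [← orth hL1 hε hD hp hg hf.1]
    have h1 : ∀ c : EE2 D C, AA D C g c * BB D C f c =
        sg D[(c : Fin D.length)] * dB D (c : Fin D.length) g * dW D (c : Fin D.length) f := by
      intro c
      show dB D c g * (sg D[(c : Fin D.length)] * dW D c f) = _
      ring
    rw [Finset.sum_congr rfl (fun c _ => h1 c)]
    rw [Finset.sum_coe_sort (EE2 D C) (fun c => sg D[c] * dB D c g * dW D c f)]
    apply Finset.sum_subset (Finset.subset_univ _)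
    intro c _ hc
    rw [dW_zero hε hD hp hC hA (LL_outside' hf) c hc, mul_zero]
  · intro f hf h0
    have h1 : ∀ c : Fin D.length, dW D c f = 0 := by
      intro c
      by_cases hc : c ∈ EE2 D C
      · have h2 : sg D[c] * dW D c f = 0 := congrFun h0 ⟨c, hc⟩
        rcases mul_eq_zero.mp h2 with h3 | h3
        · rw [dW_apply]
          revert h3
          cases D[c] <;> simp [sg, kW1, kW2]
        · exact h3
      · exact dW_zero hε hD hp hC hA (LL_outside' hf) c hc
    obtain ⟨v, hv⟩ := hL3 (1 - ε) D f (by omega) hD hne hcon hf.1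
      (fun t ht => eqW_of hε hp ⟨t, ht⟩ f (h1 ⟨t, ht⟩))
    obtain ⟨t0, j0, hj0, hj0', hc0⟩ := hw
    have hv0 : v = 0 := by
      rw [← hv t0 j0 hj0 (by omega)]
      exact LL_outside' hf t0 j0 hc0
    refine eq_zero_of_real hD hf.1 fun t j hj => ?_
    by_cases hj2 : j % 2 = ε
    · rw [hv t j hj (by omega), hv0]
    · exact hf.2 t j (UU_black hj hj2)

theorem kB_mul (g h : ℕ → ℕ → ℝ) (t : Fin D.length) :
    kB1 0 D[t] (fun j => g t j * h t j) (fun j => g (t + 1) j * h (t + 1) j) =
      kB1 0 D[t] (g t) (g (t + 1)) * kB1 0 D[t] (h t) (h (t + 1)) ∧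
    kB2 0 D[t] (fun j => g t j * h t j) (fun j => g (t + 1) j * h (t + 1) j) =
      kB2 0 D[t] (g t) (g (t + 1)) * kB2 0 D[t] (h t) (h (t + 1)) := by
  cases D[t] <;> simp [kB1, kB2]

theorem mul_mem_GG {g h : ℕ → ℕ → ℝ} (hg : g ∈ GG ε D C) (hh : h ∈ GG ε D C) :
    (fun t j => g t j * h t j) ∈ GG ε D C := by
  rw [mem_GG] at hg hh ⊢
  refine ⟨⟨rlab_map₂ (fun a b => a * b) hg.1.1 hh.1.1, fun t j htj => ?_⟩, fun c hc => ?_⟩
  · show g t j * h t j = 0
    rw [hg.1.2 t j htj, zero_mul]
  · have h1 := hg.2 c hc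
    have h2 := hh.2 c hc
    rw [dB_apply] at h1 h2 ⊢
    have h3 := kB_mul g h c
    rw [h3.1, h3.2, sub_eq_zero.mp h1, sub_eq_zero.mp h2, sub_self]

theorem sB_mul {g h : ℕ → ℕ → ℝ} (hg : g ∈ GG ε D C) (hh : h ∈ GG ε D C) {c : Fin D.length}
    (hc : c ∈ EE1 D C) : sB D c (fun t j => g t j * h t j) = sB D c g * sB D c h := by
  rw [mem_EE1] at hc
  rw [mem_GG] at hg hh
  have h3 := kB_mul g h c
  rw [sB_apply, sB_apply, sB_apply, h3.1, h3.2]
  cases hm : m1 D C c
  · rw [kB1_zero (LL_outside hg.1) c hm, kB1_zero (LL_outside hh.1) c hm]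
    ring
  · have hm2 : m2 D C c = false := by
      cases hm2 : m2 D C c
      · rfl
      · exact absurd (hm.trans hm2.symm) hc
    rw [kB2_zero (LL_outside hg.1) c hm2, kB2_zero (LL_outside hh.1) c hm2]
    ring

/-- the two differences are related -/
theorem dB_sB {g : ℕ → ℕ → ℝ} (hg : ∀ t j, C t j = false → g t j = 0) {c : Fin D.length}
    (hc : c ∈ EE1 D C) : dB D c g = 0 ↔ sB D c g = 0 := by
  rw [mem_EE1] at hc
  rw [dB_apply, sB_apply]
  cases hm : m1 D C c
  · rw [kB1_zero hg c hm]
    simp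
  · have hm2 : m2 D C c = false := by
      cases hm2 : m2 D C c
      · rfl
      · exact absurd (hm.trans hm2.symm) hc
    rw [kB2_zero hg c hm2]
    simp

theorem TT_kB (hε : ε < 2) (hD : Closed D) (hp : ParType ε D) (t : Fin D.length) :
    kB1 false D[t] (TT ε D C t) (TT ε D C (t + 1)) = m1 D C t ∧
      kB2 false D[t] (TT ε D C t) (TT ε D C (t + 1)) = m2 D C t := by
  unfold m1 m2
  cases hc : D[t] with
  | birth i => exact ⟨rfl, rfl⟩
  | death i => exact ⟨rfl, rfl⟩
  | pos i =>
    obtain ⟨h1, h2⟩ := wid_cr hD t.2 (Or.inl hc)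
    have h3 := par_pos hp t hc
    exact ⟨TT_black (by omega) (by omega), TT_black (by omega) (by omega)⟩
  | neg i =>
    obtain ⟨h1, h2⟩ := wid_cr hD t.2 (Or.inr hc)
    have h3 := par_neg hp t hc
    exact ⟨TT_black (by omega) (by omega), TT_black (by omega) (by omega)⟩

/-- the indicator of the black marked set -/
def oneT (ε : ℕ) (D : Word) (C : ℕ → ℕ → Bool) (t j : ℕ) : ℝ := if TT ε D C t j = true then 1 else 0

theorem oneT_kB (hε : ε < 2) (hD : Closed D) (hp : ParType ε D) (t : Fin D.length) :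
    kB1 0 D[t] (oneT ε D C t) (oneT ε D C (t + 1)) = (if m1 D C t = true then (1 : ℝ) else 0) ∧
      kB2 0 D[t] (oneT ε D C t) (oneT ε D C (t + 1)) =
        (if m2 D C t = true then (1 : ℝ) else 0) := by
  have h := TT_kB (C := C) hε hD hp t
  rw [← h.1, ← h.2]
  cases D[t] with
  | birth i => simp [kB1, kB2]
  | death i => simp [kB1, kB2]
  | pos i => exact ⟨rfl, rfl⟩
  | neg i => exact ⟨rfl, rfl⟩

theorem oneT_mem (hε : ε < 2) (hD : Closed D) (hp : ParType ε D) (hC : RLab D C) :
    oneT ε D C ∈ GG ε D C := by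
  rw [mem_GG]
  refine ⟨⟨rlab_map (fun b : Bool => if b = true then (1 : ℝ) else 0) (rlab_TT hD hC),
    fun t j htj => by simp [oneT, htj]⟩, fun c hc => ?_⟩
  rw [mem_EE2] at hc
  rw [dB_apply, (oneT_kB hε hD hp c).1, (oneT_kB hε hD hp c).2, hc.1, hc.2, sub_self]

theorem sB_oneT (hε : ε < 2) (hD : Closed D) (hp : ParType ε D) {c : Fin D.length}
    (hc : c ∈ EE1 D C) : sB D c (oneT ε D C) = 1 := by
  rw [mem_EE1] at hc
  rw [sB_apply, (oneT_kB hε hD hp c).1, (oneT_kB hε hD hp c).2]
  revert hc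
  cases m1 D C c <;> cases m2 D C c <;> simp

/-- interpolation -/
theorem interp (hε : ε < 2) (hD : Closed D) (hp : ParType ε D) (hC : RLab D C)
    {c : Fin D.length} (hc : c ∈ EE1 D C)
    (hsep : ∀ c' ∈ EE1 D C, c' ≠ c → ∃ g ∈ GG ε D C, sB D c g ≠ sB D c' g)
    (S : Finset (Fin D.length)) : (∀ c' ∈ S, c' ∈ EE1 D C ∧ c' ≠ c) →
    ∃ h ∈ GG ε D C, sB D c h ≠ 0 ∧ ∀ c' ∈ S, sB D c' h = 0 := by
  induction S using Finset.induction_on with
  | empty =>
    intro _
    exact ⟨oneT ε D C, oneT_mem hε hD hp hC, by rw [sB_oneT hε hD hp hc]; exact one_ne_zero,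
      by simp⟩
  | insert a S ha ih =>
    intro hS
    obtain ⟨h, hh, h1, h2⟩ := ih (fun c' hc' => hS c' (Finset.mem_insert_of_mem hc'))
    obtain ⟨ha1, ha2⟩ := hS a (Finset.mem_insert_self _ _)
    obtain ⟨g, hg, hgne⟩ := hsep a ha1 ha2
    have hk : g - (sB D a g) • oneT ε D C ∈ GG ε D C :=
      Submodule.sub_mem _ hg (Submodule.smul_mem _ _ (oneT_mem hε hD hp hC))
    have hkv : ∀ c' ∈ EE1 D C, sB D c' (g - (sB D a g) • oneT ε D C) = sB D c' g - sB D a g := by
      intro c' hc'
      rw [map_sub, map_smul, sB_oneT hε hD hp hc', smul_eq_mul, mul_one]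
    refine ⟨fun t j => h t j * (g - (sB D a g) • oneT ε D C) t j, mul_mem_GG hh hk, ?_, ?_⟩
    · rw [sB_mul hh hk hc, hkv c hc]
      exact mul_ne_zero h1 (sub_ne_zero.mpr hgne)
    · intro c' hc'
      have hc1 : c' ∈ EE1 D C := (hS c' hc').1
      rw [sB_mul hh hk hc1, hkv c' hc1]
      rcases Finset.mem_insert.mp hc' with rfl | hc''
      · rw [sub_self, mul_zero]
      · rw [h2 c' hc'', zero_mul]

theorem exists_f (hred : Reduced D) (c : Fin D.length) (hc : c ∈ EE1 D C) :
    ∃ f : ℕ → ℕ → ℝ, RLab D f ∧ dW D c f ≠ 0 ∧ sg D[c] ≠ 0 := by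
  have hm := (mem_EE1 c).mp hc
  unfold m1 m2 at hm
  cases hp : D[c] with
  | birth i => rw [hp] at hm; exact absurd rfl hm
  | death i => rw [hp] at hm; exact absurd rfl hm
  | pos i =>
    obtain ⟨⟨r, hr, hne⟩, -⟩ := hred c c.2 i (Or.inl hp)
    refine ⟨fun t j => if r t j = true then 1 else 0,
      rlab_map (fun b : Bool => if b = true then (1 : ℝ) else 0) hr, ?_, by simp [sg]⟩
    rw [dW_apply, hp]
    simp only [kW1, kW2]
    revert hne
    cases r c i <;> cases r c (i + 2) <;> simp
  | neg i =>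
    obtain ⟨-, r, hr, hne⟩ := hred c c.2 i (Or.inr hp)
    refine ⟨fun t j => if r t j = true then 1 else 0,
      rlab_map (fun b : Bool => if b = true then (1 : ℝ) else 0) hr, ?_, by simp [sg]⟩
    rw [dW_apply, hp]
    simp only [kW1, kW2]
    revert hne
    cases r c (i + 1) <;> cases r (c + 1) (i + 1) <;> simp

theorem single_contra (hL1 : S_L1) (hε : ε < 2) (hD : Closed D) (hp : ParType ε D)
    (hred : Reduced D) (hC : RLab D C) {c : Fin D.length} (hc : c ∈ EE1 D C)
    (hsep : ∀ c' ∈ EE1 D C, c' ≠ c → ∃ g ∈ GG ε D C, sB D c g ≠ sB D c' g) : False := by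
  obtain ⟨h, hh, h1, h2⟩ := interp hε hD hp hC hc hsep ((EE1 D C).erase c) (by
    intro c' hc'
    rw [Finset.mem_erase] at hc'
    exact ⟨hc'.2, hc'.1⟩)
  obtain ⟨f, hf, hf1, hf2⟩ := exists_f hred c hc
  have hh' := mem_GG.mp hh
  have h3 := orth hL1 hε hD hp hh'.1 hf
  rw [Finset.sum_eq_single c] at h3
  · have h4 : dB D c h ≠ 0 := fun h5 => h1 ((dB_sB (LL_outside hh'.1) hc).mp h5)
    exact (mul_ne_zero (mul_ne_zero hf2 h4) hf1) h3
  · intro c' _ hne
    have h5 : dB D c' h = 0 := by
      by_cases e1 : c' ∈ EE1 D C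
      · exact (dB_sB (LL_outside hh'.1) e1).mpr (h2 c' (Finset.mem_erase.mpr ⟨hne, e1⟩))
      · by_cases e2 : c' ∈ EE2 D C
        · exact hh'.2 c' e2
        · exact (dB_zero (LL_outside hh'.1) c' e1 e2).1
    rw [h5]
    ring
  · intro h5
    exact absurd (Finset.mem_univ _) h5

theorem dim2 (hL1 : S_L1) (hL3 : S_L3) (hε : ε < 2) (hD : Closed D) (hne : D ≠ [])
    (hcon : Connected D) (hred : Reduced D) (hp : ParType ε D) (hC : RLab D C)
    (hb : ∃ t j, j ≤ wid D t ∧ j % 2 ≠ ε ∧ C t j = false) :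
    2 * Module.finrank ℝ (GG ε D C) ≤ (EE1 D C).card := by
  classical
  let ev : Fin D.length → (GG ε D C →ₗ[ℝ] ℝ) := fun c => (sB D c).domRestrict (GG ε D C)
  have h1 : Module.finrank ℝ (GG ε D C) ≤ ((EE1 D C).image ev).card := by
    let Φ : GG ε D C →ₗ[ℝ] ((EE1 D C).image ev → ℝ) := LinearMap.pi fun φ => φ.1
    have hinj : Function.Injective Φ := by
      rw [← LinearMap.ker_eq_bot, LinearMap.ker_eq_bot']
      intro g hg
      have hs : ∀ c ∈ EE1 D C, sB D c (g : ℕ → ℕ → ℝ) = 0 := by
        intro c hc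
        exact congrFun hg ⟨ev c, Finset.mem_image_of_mem ev hc⟩
      have hg' := mem_GG.mp g.2
      have hd : ∀ c, dB D c (g : ℕ → ℕ → ℝ) = 0 := by
        intro c
        by_cases e1 : c ∈ EE1 D C
        · exact (dB_sB (LL_outside hg'.1) e1).mpr (hs c e1)
        · by_cases e2 : c ∈ EE2 D C
          · exact hg'.2 c e2
          · exact (dB_zero (LL_outside hg'.1) c e1 e2).1
      obtain ⟨v, hv⟩ := hL3 ε D g hε hD hne hcon hg'.1.1
        (fun t ht => eqB_of hp ⟨t, ht⟩ g (hd ⟨t, ht⟩))
      obtain ⟨t0, j0, hj0, hj0', hc0⟩ := hb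
      have hv0 : v = 0 := by
        rw [← hv t0 j0 hj0 hj0']
        exact LL_outside hg'.1 t0 j0 hc0
      apply Subtype.ext
      refine eq_zero_of_real hD hg'.1.1 fun t j hj => ?_
      by_cases hj2 : j % 2 = ε
      · exact TT_vanish hg'.1 t j hj hj2
      · rw [hv t j hj hj2, hv0]
    have h2 := LinearMap.finrank_le_finrank_of_injective hinj
    rwa [Module.finrank_fintype_fun_eq_card, Fintype.card_coe] at h2
  have h2 : 2 * ((EE1 D C).image ev).card ≤ (EE1 D C).card := by
    apply Finset.mul_card_image_le_card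
    intro φ hφ
    obtain ⟨c, hc, rfl⟩ := Finset.mem_image.mp hφ
    by_contra hlt
    push Not at hlt
    apply single_contra hL1 hε hD hp hred hC hc
    intro c' hc' hne'
    by_contra hno
    push Not at hno
    have h3 : ev c' = ev c := by
      apply LinearMap.ext
      intro g
      exact (hno g g.2).symm
    have h4 : 1 < ((EE1 D C).filter (fun x => ev x = ev c)).card := by
      rw [Finset.one_lt_card]
      exact ⟨c', Finset.mem_filter.mpr ⟨hc', h3⟩, c, Finset.mem_filter.mpr ⟨hc, rfl⟩, hne'⟩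
    omega
  omega

theorem dim3 (hL3 : S_L3) (hε : ε < 2) (hD : Closed D) (hne : D ≠ [])
    (hcon : Connected D) (hp : ParType ε D)
    (hb : ∀ t j, j ≤ wid D t → j % 2 ≠ ε → C t j = true) :
    Module.finrank ℝ (GG ε D C) ≤ 1 ∧ (EE1 D C).card = 0 := by
  have hE1 : EE1 D C = ∅ := by
    rw [Finset.eq_empty_iff_forall_notMem]
    intro c hc
    rw [mem_EE1] at hc
    apply hc
    unfold m1 m2
    cases hcp : D[c] with
    | birth i => rfl
    | death i => rfl
    | pos i =>
      obtain ⟨h1, h2⟩ := wid_cr hD c.2 (Or.inl hcp)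
      have h3 := par_pos hp c hcp
      show C c (i + 1) = C (c + 1) (i + 1)
      rw [hb _ _ (by omega) (by omega), hb _ _ (by omega) (by omega)]
    | neg i =>
      obtain ⟨h1, h2⟩ := wid_cr hD c.2 (Or.inr hcp)
      have h3 := par_neg hp c hcp
      show C c (i + 2) = C c i
      rw [hb _ _ (by omega) (by omega), hb _ _ (by omega) (by omega)]
  refine ⟨?_, by rw [hE1]; rfl⟩
  have hconst : ∀ g ∈ GG ε D C, ∃ v, ∀ t j, j ≤ wid D t → j % 2 ≠ ε → g t j = v := by
    intro g hg
    have hg' := mem_GG.mp hg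
    apply hL3 ε D g hε hD hne hcon hg'.1.1
    intro t ht
    apply eqB_of hp ⟨t, ht⟩ g
    by_cases e2 : (⟨t, ht⟩ : Fin D.length) ∈ EE2 D C
    · exact hg'.2 _ e2
    · exact (dB_zero (LL_outside hg'.1) _ (by rw [hE1]; exact Finset.notMem_empty _) e2).1
  -- a black gap
  obtain ⟨t0, j0, hj0, hj0'⟩ : ∃ t j, j ≤ wid D t ∧ j % 2 ≠ ε := by
    by_cases h0 : ε = 0
    · have hlen : 0 < D.length := List.length_pos_iff.mpr hne
      have hw1 : wid D 1 = 2 := by
        cases hp : D[0] with
        | birth i => exact (wid_birth hD hlen hp).2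
        | death i => have := (wid_death hD hlen hp).1; rw [wid_zero] at this; omega
        | pos i => have := (wid_cr hD hlen (Or.inl hp)).1; rw [wid_zero] at this; omega
        | neg i => have := (wid_cr hD hlen (Or.inr hp)).1; rw [wid_zero] at this; omega
      exact ⟨1, 1, by omega, by omega⟩
    · exact ⟨0, 0, by omega, by omega⟩
  let Φ : GG ε D C →ₗ[ℝ] ℝ :=
    { toFun := fun g => (g : ℕ → ℕ → ℝ) t0 j0
      map_add' := fun _ _ => rfl
      map_smul' := fun _ _ => rfl }
  have hinj : Function.Injective Φ := by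
    rw [← LinearMap.ker_eq_bot, LinearMap.ker_eq_bot']
    intro g hg
    have hg0 : (g : ℕ → ℕ → ℝ) t0 j0 = 0 := hg
    have hg' := mem_GG.mp g.2
    obtain ⟨v, hv⟩ := hconst g g.2
    have hv0 : v = 0 := by rw [← hv t0 j0 hj0 hj0', hg0]
    apply Subtype.ext
    refine eq_zero_of_real hD hg'.1.1 fun t j hj => ?_
    by_cases hj2 : j % 2 = ε
    · exact TT_vanish hg'.1 t j hj hj2
    · rw [hv t j hj hj2, hv0]
  have h2 := LinearMap.finrank_le_finrank_of_injective hinj
  rwa [Module.finrank_self] at h2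

end main

theorem t_Q (hL1 : S_L1) (hL2 : S_L2) (hL3 : S_L3) (hL4 : S_L4) : S_Q := by
  intro ε D C hε hD hne hcon hred hp hC hA
  have main : (∃ t j, j ≤ wid D t ∧ j % 2 = ε ∧ C t j = false) →
      Rs D (fun t j => bi (C t j)) + 4 * bi (C 0 0) ≤
        2 * (Module.finrank ℝ (GG ε D C) : ℤ) - ((EE1 D C).card : ℤ) := by
    intro hw
    have h1 := dim1 hL1 hL2 hL3 hε hD hne hcon hp hC hA hw
    have i1 := (hL2 D (TT ε D C) hD hne (rlab_TT hD hC)).1
    have i2 := (hL2 D (UU ε D C) hD hne (rlab_UU hD hC)).1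
    have h2 := (hL2 D C hD hne hC).2
    have h3 : Module.finrank ℝ (LL D C) ≤
        Module.finrank ℝ (LL D (TT ε D C)) + Module.finrank ℝ (LL D (UU ε D C)) :=
      (Submodule.finrank_mono (LL_le hD)).trans
        (Submodule.finrank_add_le_finrank_add_finrank _ _)
    have h4 := hL4 D C hD hC
    rw [sum_BCp] at h4
    have h5 : (Module.finrank ℝ (LL D C) : ℤ) ≤
        (Module.finrank ℝ (GG ε D C) : ℤ) + ((EE2 D C).card : ℤ) := by
      exact_mod_cast h3.trans h1
    linarith
  have part1 : (∃ t j, j ≤ wid D t ∧ j % 2 ≠ ε ∧ C t j = false) →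
      Rs D (fun t j => bi (C t j)) + 4 * bi (C 0 0) ≤ 0 := by
    intro hb
    have h1 := main (exists_white hD hne hε hC hA hb)
    have h2 := dim2 hL1 hL3 hε hD hne hcon hred hp hC hb
    have h3 : 2 * (Module.finrank ℝ (GG ε D C) : ℤ) ≤ ((EE1 D C).card : ℤ) := by exact_mod_cast h2
    linarith
  refine ⟨part1, fun hu => ?_⟩
  by_cases hb : ∃ t j, j ≤ wid D t ∧ j % 2 ≠ ε ∧ C t j = false
  · linarith [part1 hb]
  · obtain ⟨t, j, hj, hc⟩ := hu
    have hb' : ∀ t j, j ≤ wid D t → j % 2 ≠ ε → C t j = true := by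
      intro t j hj hj2
      by_contra h
      rw [Bool.not_eq_true] at h
      exact hb ⟨t, j, hj, hj2, h⟩
    have hj2 : j % 2 = ε := by
      by_contra h
      rw [hb' t j hj h] at hc
      exact absurd hc (by decide)
    have h1 := main ⟨t, j, hj, hj2, hc⟩
    obtain ⟨h2, h3⟩ := dim3 hL3 hε hD hne hcon hp hb'
    have h4 : (Module.finrank ℝ (GG ε D C) : ℤ) ≤ 1 := by exact_mod_cast h2
    rw [h3] at h1
    push_cast at h1
    linarith

end Pool.Agent.Helper82_Alt.PQ
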