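import Pool.Agent.Helper82_Alt.Col

/-!
# The signature of an alternating diagram
-/

set_option autoImplicit false

namespace Pool.Agent.Helper82_Alt.PSig

open Pool.Agent.Helper454.Kauf (Piece Word Closed width)
open Pool.Agent.Helper454.Wh (OPiece OWord below noD forget OClosed)
open PWid PCol Module

/-! ### oriented diagrams -/

theorem below_width_piece (p : OPiece) (n : ℕ) (d : ℕ → Bool) (s : ℕ × (ℕ → Bool))
    (h : p.below n d = some s) : p.forget.width n = some s.1 := by
  cases p with
  | birth i b =>
    simp only [OPiece.below] at h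
    simp only [OPiece.forget, Piece.width]
    split_ifs at h ⊢ with h1
    cases h; rfl
  | death i =>
    simp only [OPiece.below] at h
    simp only [OPiece.forget, Piece.width]
    split_ifs at h with h1
    rw [if_pos h1.1]
    cases h; rfl
  | pos i =>
    simp only [OPiece.below] at h
    simp only [OPiece.forget, Piece.width]
    split_ifs at h ⊢ with h1
    cases h; rfl
  | neg i =>
    simp only [OPiece.below] at h
    simp only [OPiece.forget, Piece.width]
    split_ifs at h ⊢ with h1
    cases h; rfl

theorem below_width (w : OWord) (n : ℕ) (d : ℕ → Bool) (s : ℕ × (ℕ → Bool))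
    (h : below w n d = some s) : width (forget w) n = some s.1 := by
  induction w generalizing n d with
  | nil => cases h; rfl
  | cons p w ih =>
    simp only [below] at h
    cases hp : p.below n d with
    | none => rw [hp] at h; cases h
    | some s' =>
      rw [hp] at h
      show (p.forget.width n).bind (width (forget w)) = some s.1
      rw [below_width_piece p n d s' hp]
      exact ih s'.1 s'.2 h

theorem closed_forget {D : OWord} (h : OClosed D) : Closed (forget D) := by
  unfold OClosed at h
  cases hb : below D 0 noD with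
  | none => rw [hb] at h; cases h
  | some s =>
    rw [hb] at h
    have h1 : s.1 = 0 := by simpa using h
    show width (forget D) 0 = some 0
    rw [below_width D 0 noD s hb, h1]

theorem isSome_of_closed {D : OWord} (h : OClosed D) : (below D 0 noD).isSome := by
  unfold OClosed at h
  cases hb : below D 0 noD with
  | none => rw [hb] at h; cases h
  | some s => rfl

/-- the writhe is the sum of the signs -/
theorem writhe_sum (w : OWord) (n : ℕ) (d : ℕ → Bool) (h : (below w n d).isSome) :
    writheFrom w n d = ∑ t : Fin w.length,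
      osign w[t] (((below (w.take t) n d).getD (0, noD)).2) := by
  induction w generalizing n d with
  | nil => rfl
  | cons p w ih =>
    cases hp : p.below n d with
    | none => simp only [below, hp] at h; cases h
    | some s =>
      have h0 : ((p.below n d).bind fun s => below w s.1 s.2).isSome := h
      rw [hp] at h0
      have h1 : (below w s.1 s.2).isSome := h0
      have h2 := ih s.1 s.2 h1
      have h3 := Fin.sum_univ_succ (n := w.length) (fun t : Fin (w.length + 1) =>
        osign (p :: w)[t] (((below ((p :: w).take t) n d).getD (0, noD)).2))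
      refine Eq.trans ?_ h3.symm
      show osign p d + (match p.below n d with
        | some s => writheFrom w s.1 s.2
        | none => 0) = _
      rw [hp]
      show osign p d + writheFrom w s.1 s.2 = _
      rw [h2]
      refine congrArg₂ (· + ·) rfl (Finset.sum_congr rfl fun t _ => ?_)
      have h4 : below ((p :: w).take (Fin.succ t)) n d = below (w.take t) s.1 s.2 := by
        show (p.below n d).bind _ = _
        rw [hp]
        rfl
      rw [h4]
      rfl

/-- positive crossings -/
def plusP : OPiece → (ℕ → Bool) → Bool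
  | .pos i, d => d i == d (i + 1)
  | .neg i, d => !(d i == d (i + 1))
  | _, _ => false

def plusN (D : OWord) (t : ℕ) : Bool :=
  if h : t < D.length then plusP D[t] (dirAt D t) else false

theorem sign_count (p : OPiece) (d : ℕ → Bool) :
    (if crI p.forget = none then (0 : ℤ) else 1) + osign p d = if plusP p d then 2 else 0 := by
  cases p with
  | birth i b => simp [OPiece.forget, crI, osign, plusP]
  | death i => simp [OPiece.forget, crI, osign, plusP]
  | pos i =>
    rw [if_neg (show crI (OPiece.pos i).forget ≠ none by simp [OPiece.forget, crI])]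
    simp only [osign, plusP]
    rcases Bool.eq_false_or_eq_true (d i) with ha | ha <;>
      rcases Bool.eq_false_or_eq_true (d (i + 1)) with hb | hb <;> simp [ha, hb]
  | neg i =>
    rw [if_neg (show crI (OPiece.neg i).forget ≠ none by simp [OPiece.forget, crI])]
    simp only [osign, plusP]
    rcases Bool.eq_false_or_eq_true (d i) with ha | ha <;>
      rcases Bool.eq_false_or_eq_true (d (i + 1)) with hb | hb <;> simp [ha, hb]

/-- one term of the Seifert form -/
theorem term (ε : ℕ) (hε : ε < 2) (D : OWord) (hpar : ParType ε (forget D)) (r : ℕ → ℕ → ℝ)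
    (t : ℕ) (ht : t < D.length) (x y : ℝ)
    (hx : x = dC ε D[t].forget (r t) (r (t + 1)))
    (hy : y = sg D[t].forget * dC (1 - ε) D[t].forget (r t) (r (t + 1))) :
    seifertTerm D r t D[t] = if plusP D[t] (dirAt D t) then y ^ 2 + x * y
      else -(x ^ 2 + x * y) := by
  have hm : D[t].forget ∈ forget D := List.mem_map_of_mem (List.getElem_mem ht)
  have hpt := hpar _ hm
  revert hx hy hpt
  cases D[t] with
  | birth i b =>
    intro hx hy _
    simp only [OPiece.forget, dC, mul_zero] at hx hy
    subst hx hy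
    simp [seifertTerm, plusP]
  | death i =>
    intro hx hy _
    simp only [OPiece.forget, dC, mul_zero] at hx hy
    subst hx hy
    simp [seifertTerm, plusP]
  | pos i =>
    intro hx hy hpt
    simp only [OPiece.forget] at hx hy hpt
    simp only [dC, sg] at hx hy
    rw [if_pos hpt] at hx
    rw [if_neg (by omega)] at hy
    subst hx hy
    simp only [seifertTerm, plusP, frontBack, leftRight]
    rcases Bool.eq_false_or_eq_true (dirAt D t i) with ha | ha <;>
      rcases Bool.eq_false_or_eq_true (dirAt D t (i + 1)) with hb | hb <;>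
      simp [ha, hb] <;> ring
  | neg i =>
    intro hx hy hpt
    simp only [OPiece.forget] at hx hy hpt
    simp only [dC, sg] at hx hy
    rw [if_neg hpt] at hx
    rw [if_pos (by omega)] at hy
    subst hx hy
    simp only [seifertTerm, plusP, frontBack, leftRight]
    rcases Bool.eq_false_or_eq_true (dirAt D t i) with ha | ha <;>
      rcases Bool.eq_false_or_eq_true (dirAt D t (i + 1)) with hb | hb <;>
      simp [ha, hb] <;> ring

/-- sums over `Fin` of a map -/
theorem sum_fin {A : Type} [AddCommMonoid A] {m n : ℕ} (h : m = n) (F : ℕ → A) :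
    ∑ t : Fin m, F t = ∑ t : Fin n, F t := by
  subst h; rfl

/-- orthogonality -/
theorem orth_dS_dL (ε : ℕ) (hε : ε < 2) (W : Word) (hD : Closed W) (hpar : ParType ε W)
    (g f : ℕ → ℕ → ℝ) (hg : g ∈ LL W (M (1 - ε) W)) (hf : f ∈ LL W (M ε W)) :
    ∑ t : Cr W, dS (1 - ε) W g t * dL ε W f t = 0 := by
  have h1 := PL.t_L1 W g f hD hg.1 hf.1
  rw [← h1]
  refine (sum_cr W (fun t => sg W[t] * dC (1 - ε) W[t] (g t) (g (t + 1)) *
    dC ε W[t] (f t) (f (t + 1))) ?_).trans (Finset.sum_congr rfl fun t _ => ?_)
  · intro t ht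
    revert ht
    cases W[t] <;> simp [crI, dC]
  · have h2 := dC_zero hε hD hg t t.2
    have h3 := dC_zero (c := 1 - ε) (by omega) hD (r := f)
      (by rw [show 1 - (1 - ε) = ε by omega]; exact hf) t t.2
    have hpt := hpar W[(t : ℕ)] (List.getElem_mem t.2)
    simp only [Fin.getElem_fin]
    revert h2 h3 hpt
    cases W[(t : ℕ)] with
    | birth i => intro _ _ _; simp [dC, shoe]
    | death i => intro _ _ _; simp [dC, shoe]
    | pos i =>
      intro h2 h3 hpt
      simp only at hpt
      simp only [dC] at h2 h3 ⊢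
      rw [if_pos hpt] at h2
      rw [if_neg (by omega)] at h3
      rw [if_pos hpt, if_neg (by omega)]
      simp only [shoe, sg]
      rw [h2, h3]
      ring
    | neg i =>
      intro h2 h3 hpt
      simp only at hpt
      simp only [dC] at h2 h3 ⊢
      rw [if_neg hpt] at h2
      rw [if_pos (by omega)] at h3
      rw [if_neg hpt, if_pos (by omega)]
      simp only [shoe, sg]
      rw [h2, h3]
      ring

/-- the restriction of a labelling to one colour -/
noncomputable def rst (c : ℕ) (W : Word) (r : ℕ → ℕ → ℝ) : ℕ → ℕ → ℝ :=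
  fun t j => if M c W t j then r t j else 0

theorem dL_rst (c : ℕ) (hc : c < 2) (W : Word) (hD : Closed W) (r : ℕ → ℕ → ℝ) :
    dL c W (rst c W r) = dL c W r := by
  funext t
  refine dC_congr hc hD ?_ t.1 t.1.2
  intro s j h
  show (if M c W s j then r s j else 0) = r s j
  rw [if_pos (by unfold M; rw [h]; simp)]

theorem dS_rst (c : ℕ) (hc : c < 2) (W : Word) (hD : Closed W) (r : ℕ → ℕ → ℝ) :
    dS c W (rst c W r) = dS c W r := by
  funext t
  have := congrFun (dL_rst c hc W hD r) t
  rw [dL_apply, dL_apply] at this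
  rw [dS_apply, dS_apply, this]

theorem orth_self (ε : ℕ) (hε : ε < 2) (W : Word) (hD : Closed W) (hpar : ParType ε W)
    (r : ℕ → ℕ → ℝ) (hr : RLab W r) : ∑ t : Cr W, dS (1 - ε) W r t * dL ε W r t = 0 := by
  rw [← dS_rst (1 - ε) (by omega) W hD r, ← dL_rst ε hε W hD r]
  exact orth_dS_dL ε hε W hD hpar _ _ (restrict_mem (1 - ε) hD hr) (restrict_mem ε hD hr)

/-- the Seifert form in terms of the differences -/
theorem form (ε : ℕ) (hε : ε < 2) (D : OWord) (hO : OClosed D) (hpar : ParType ε (forget D))
    (r : ℕ → ℕ → ℝ) (hr : RLab (forget D) r) :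
    seifertForm D r = ∑ t : Cr (forget D), if plusN D t.1 then (dS (1 - ε) (forget D) r t) ^ 2
      else -(dL ε (forget D) r t) ^ 2 - 2 * (dS (1 - ε) (forget D) r t * dL ε (forget D) r t) := by
  have hD := closed_forget hO
  have h0 := orth_self ε hε (forget D) hD hpar r hr
  have hlen : D.length = (forget D).length := by simp [forget]
  -- everything as a function of ℕ
  set X : ℕ → ℝ := fun t => if h : t < (forget D).length then
    dC ε (forget D)[t] (r t) (r (t + 1)) else 0 with hX
  set Y : ℕ → ℝ := fun t => if h : t < (forget D).length then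
    sg (forget D)[t] * dC (1 - ε) (forget D)[t] (r t) (r (t + 1)) else 0 with hY
  have e1 : seifertForm D r = ∑ t : Fin D.length, if plusN D t then (Y t) ^ 2 + X t * Y t
      else -((X t) ^ 2 + X t * Y t) := by
    unfold seifertForm
    refine Finset.sum_congr rfl fun t _ => ?_
    have ht' : (t : ℕ) < (forget D).length := by rw [← hlen]; exact t.2
    have hget : (forget D)[(t : ℕ)] = D[(t : ℕ)].forget := by simp [forget]
    have h1 := term ε hε D hpar r t t.2 (X t) (Y t)
      (by simp only [hX]; rw [dif_pos ht', hget]) (by simp only [hY]; rw [dif_pos ht', hget])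
    rw [show D[t] = D[(t : ℕ)] from rfl, h1]
    unfold plusN
    rw [dif_pos t.2]
  rw [e1, sum_fin hlen (fun t => if plusN D t then (Y t) ^ 2 + X t * Y t
      else -((X t) ^ 2 + X t * Y t))]
  have hXc : ∀ t : Cr (forget D), X t.1 = dL ε (forget D) r t := by
    intro t
    simp only [hX]
    rw [dif_pos t.1.2]
    rfl
  have hYc : ∀ t : Cr (forget D), Y t.1 = dS (1 - ε) (forget D) r t := by
    intro t
    simp only [hY]
    rw [dif_pos t.1.2]
    rfl
  have hnone : ∀ t : Fin (forget D).length, crI (forget D)[t] = none → X t = 0 ∧ Y t = 0 := by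
    intro t ht
    simp only [hX, hY]
    rw [dif_pos t.2, dif_pos t.2]
    rw [Fin.getElem_fin] at ht
    revert ht
    cases (forget D)[(t : ℕ)] <;> simp [crI, dC]
  rw [← sum_cr (forget D) (fun t => if plusN D t then (Y t) ^ 2 + X t * Y t
      else -((X t) ^ 2 + X t * Y t)) (fun t ht => by
        obtain ⟨a, b⟩ := hnone t ht
        simp only [a, b]
        split_ifs <;> ring)]
  rw [← sub_eq_zero, ← Finset.sum_sub_distrib, ← h0]
  refine Finset.sum_congr rfl fun t _ => ?_
  rw [hXc, hYc]
  split_ifs <;> ring

/-! ### K2 -/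

theorem sum_map (W : Word) (F : Piece → ℤ) :
    (W.map F).sum = ∑ t : Fin W.length, F W[t] := by
  induction W with
  | nil => rfl
  | cons p w ih =>
    have h3 := Fin.sum_univ_succ (n := w.length) (fun t : Fin (w.length + 1) => F (p :: w)[t])
    refine Eq.trans ?_ h3.symm
    rw [List.map_cons, List.sum_cons, ih]
    rfl

theorem bi_M {c : ℕ} (hc : c < 2) {W : Word} {t j : ℕ} (h : j ≤ wid W t) :
    bi (M c W t j) = if j % 2 = c then 1 else 0 := by
  unfold M col bi
  rw [if_pos h]
  simp

theorem PP_white (ε : ℕ) (hε : ε < 2) (W : Word) (hD : Closed W) (hpar : ParType ε W) :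
    2 * PP W (M ε W) = K2 ε W := by
  rw [PL.t_L4 W (M ε W) hD (M_rlab ε hD)]
  unfold Rs K2
  rw [sum_map]
  have h1 : bi (M ε W 0 0) = wh ε 0 := bi_M hε (by rw [wid_zero])
  rw [h1]
  have h2 : ∑ t : Fin W.length, RsP W[t] (fun j => bi (M ε W t j)) (fun j => bi (M ε W (t + 1) j))
      + ∑ t : Fin W.length, BCp W[t] (M ε W t) (M ε W (t + 1)) =
      ∑ t : Fin W.length, K2P ε W[t] := by
    rw [← Finset.sum_add_distrib]
    refine Finset.sum_congr rfl fun t _ => ?_
    have hpt := hpar W[(t : ℕ)] (List.getElem_mem t.2)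
    simp only [Fin.getElem_fin]
    cases hp : W[(t : ℕ)] with
    | birth i =>
      obtain ⟨a, b⟩ := step_birth hD t.2 hp
      simp only [RsP, BCp, K2P, wh]
      rw [bi_M hε (by omega), bi_M hε (by omega), add_zero]
    | death i =>
      obtain ⟨a, b⟩ := step_death hD t.2 hp
      simp only [RsP, BCp, K2P, wh]
      rw [bi_M hε (by omega), bi_M hε (by omega), add_zero]
    | pos i =>
      obtain ⟨a, b⟩ := step_pos hD t.2 hp
      rw [hp] at hpt
      simp only at hpt
      simp only [RsP, BCp, K2P]
      rw [bi_M hε (by omega), bi_M hε (by omega), if_neg (by omega)]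
      rfl
    | neg i =>
      obtain ⟨a, b⟩ := step_neg hD t.2 hp
      rw [hp] at hpt
      simp only at hpt
      simp only [RsP, BCp, K2P]
      rw [bi_M hε (by omega), bi_M hε (by omega), bi_M hε (by omega), bi_M hε (by omega),
        if_pos (by omega)]
      ring
  linarith

theorem PP_black (ε : ℕ) (hε : ε < 2) (W : Word) (hD : Closed W) (hpar : ParType ε W) :
    2 * PP W (M (1 - ε) W) = 2 * crs W + 4 - K2 ε W := by
  have hε' : 1 - ε < 2 := by omega
  rw [PL.t_L4 W (M (1 - ε) W) hD (M_rlab (1 - ε) hD)]
  unfold Rs K2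
  rw [sum_map]
  have h1 : bi (M (1 - ε) W 0 0) = 1 - wh ε 0 := by
    rw [bi_M hε' (by rw [wid_zero])]
    unfold wh
    split_ifs <;> first | rfl | omega
  rw [h1]
  have hc : (crs W : ℤ) = ∑ t : Fin W.length, if crI W[t] = none then (0 : ℤ) else 1 := by
    rw [← sum_crs W]
    push_cast
    rfl
  have h2 : ∑ t : Fin W.length, RsP W[t] (fun j => bi (M (1 - ε) W t j))
        (fun j => bi (M (1 - ε) W (t + 1) j))
      + ∑ t : Fin W.length, BCp W[t] (M (1 - ε) W t) (M (1 - ε) W (t + 1)) =
      2 * crs W - ∑ t : Fin W.length, K2P ε W[t] := by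
    rw [hc, Finset.mul_sum, ← Finset.sum_add_distrib, ← Finset.sum_sub_distrib]
    refine Finset.sum_congr rfl fun t _ => ?_
    have hpt := hpar W[(t : ℕ)] (List.getElem_mem t.2)
    simp only [Fin.getElem_fin]
    cases hp : W[(t : ℕ)] with
    | birth i =>
      obtain ⟨a, b⟩ := step_birth hD t.2 hp
      simp only [RsP, BCp, K2P, wh]
      rw [if_pos (show crI _ = none from rfl)]
      rw [bi_M hε' (by omega), bi_M hε' (by omega), add_zero]
      split_ifs <;> omega
    | death i =>
      obtain ⟨a, b⟩ := step_death hD t.2 hp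
      simp only [RsP, BCp, K2P, wh]
      rw [if_pos (show crI _ = none from rfl)]
      rw [bi_M hε' (by omega), bi_M hε' (by omega), add_zero]
      split_ifs <;> omega
    | pos i =>
      obtain ⟨a, b⟩ := step_pos hD t.2 hp
      rw [hp] at hpt
      simp only at hpt
      simp only [RsP, BCp, K2P]
      rw [if_neg (show crI (Piece.pos i) ≠ none by simp [crI])]
      rw [bi_M hε' (by omega), bi_M hε' (by omega), if_pos (by omega)]
      norm_num
    | neg i =>
      obtain ⟨a, b⟩ := step_neg hD t.2 hp
      rw [hp] at hpt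
      simp only at hpt
      simp only [RsP, BCp, K2P]
      rw [if_neg (show crI (Piece.neg i) ≠ none by simp [crI])]
      rw [bi_M hε' (by omega), bi_M hε' (by omega), bi_M hε' (by omega), bi_M hε' (by omega),
        if_neg (by omega)]
      ring
  linarith

/-! ### existence of the signature -/

theorem exists_greatest (D : OWord) (hO : OClosed D) (hne : D ≠ []) (c : ℝ) :
    ∃ p, IsGreatest (indexSet D c) p := by
  have hD := closed_forget hO
  have hne' : forget D ≠ [] := by simpa [forget] using hne
  obtain ⟨hf, -⟩ := PL.t_L2 (forget D) (fun _ _ => true) hD hne'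
    ⟨fun _ => rfl, fun _ _ => rfl, fun t ht => by cases (forget D)[t] <;> simp [RStep]⟩
  have h0 : (0 : ℕ) ∈ indexSet D c := by
    refine ⟨⊥, fun r hr => ?_, by simp, fun r hr h => absurd ((Submodule.mem_bot ℝ).1 hr) h⟩
    rw [(Submodule.mem_bot ℝ).1 hr]
    exact (LL (forget D) (fun _ _ => true)).zero_mem.1
  have hb : BddAbove (indexSet D c) := by
    refine ⟨finrank ℝ (LL (forget D) (fun _ _ => true)), ?_⟩
    rintro n ⟨V, h1, h2, h3⟩
    rw [← h2]
    refine Submodule.finrank_mono ?_
    intro r hr
    exact ⟨h1 r hr, fun t j h => by cases h⟩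
  exact ⟨sSup (indexSet D c), Nat.sSup_mem ⟨0, h0⟩ hb, fun n hn => le_csSup hb hn⟩

theorem t_sig : S_sig := by
  intro ε D hε hO hne hcon hpar
  have hD := closed_forget hO
  have hne' : forget D ≠ [] := by simpa [forget] using hne
  have hlen : D.length = (forget D).length := by simp [forget]
  obtain ⟨p, hp⟩ := exists_greatest D hO hne 1
  obtain ⟨m, hm⟩ := exists_greatest D hO hne (-1)
  refine ⟨p - m, ⟨p, m, hp, hm, rfl⟩, ?_⟩
  set W := forget D with hW
  set U₁ := LinearMap.range ((dS (1 - ε) W).comp (LL W (M (1 - ε) W)).subtype) with hU₁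
  set U₂ := LinearMap.range ((dL ε W).comp (LL W (M ε W)).subtype) with hU₂
  set S : Finset (Cr W) := Finset.univ.filter (fun t => plusN D t.1 = true) with hS
  have horth : ∀ x ∈ U₁, ∀ y ∈ U₂, ∑ i, x i * y i = 0 := by
    rintro _ ⟨⟨g, hg⟩, rfl⟩ _ ⟨⟨f, hf⟩, rfl⟩
    exact orth_dS_dL ε hε W hD hpar g f hg hf
  have r1 : PP W (M (1 - ε) W) ≤ finrank ℝ U₁ + 1 := by
    rw [hU₁, range_dS]
    exact rank_ge (by omega) hD hne' hcon
  have r2 : PP W (M ε W) ≤ finrank ℝ U₂ + 1 := rank_ge hε hD hne' hcon
  have k1 := PP_white ε hε W hD hpar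
  have k2 := PP_black ε hε W hD hpar
  have hcard := card_cr W
  have hdim : Fintype.card (Cr W) ≤ finrank ℝ U₁ + finrank ℝ U₂ := by
    rw [hcard]
    have : (crs W : ℤ) ≤ finrank ℝ U₁ + finrank ℝ U₂ := by linarith
    exact_mod_cast this
  have hmain := PLin.main S U₁ U₂ horth hdim
  have hU₂le : finrank ℝ U₁ + finrank ℝ U₂ ≤ crs W := by
    rw [← hcard, ← PLin.orth_eq horth hdim]
    exact PLin.orth_le U₁
  -- the positive index
  have hpos : finrank ℝ (U₁.map (PLin.P S)) ≤ p := by
    refine hp.2 ?_
    obtain ⟨K, hK1, hK2⟩ := PLin.exists_compl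
      (((PLin.P S).comp (dS (1 - ε) W)).comp (LL W (M (1 - ε) W)).subtype)
    refine ⟨K.map (LL W (M (1 - ε) W)).subtype, ?_, ?_, ?_⟩
    · rintro _ ⟨⟨g, hg⟩, -, rfl⟩
      exact hg.1
    · rw [Submodule.finrank_map_subtype_eq, hK1, hU₁, ← LinearMap.range_comp]
      rfl
    · rintro _ ⟨⟨g, hg⟩, hgK, rfl⟩ hne0
      rw [one_mul]
      show 0 < seifertForm D g
      rw [form ε hε D hO hpar g hg.1]
      have hz : ∀ t : Cr W, dL ε W g t = 0 := fun t => dC_zero hε hD hg t.1 t.1.2
      have e1 : ∀ t : Cr W, (if plusN D t.1 then (dS (1 - ε) W g t) ^ 2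
          else -(dL ε W g t) ^ 2 - 2 * (dS (1 - ε) W g t * dL ε W g t)) =
          (PLin.P S (dS (1 - ε) W g) t) ^ 2 := by
        intro t
        rw [PLin.P_apply, hz t]
        by_cases h : plusN D t.1 = true
        · rw [if_pos h, if_pos (by rw [hS]; simp [h])]
        · rw [if_neg h, if_neg (by rw [hS]; simp [h])]
          ring
      rw [Finset.sum_congr rfl fun t _ => e1 t]
      by_contra hcon'
      have h1 : ∑ t : Cr W, (PLin.P S (dS (1 - ε) W g) t) ^ 2 = 0 :=
        le_antisymm (not_lt.1 hcon') (Finset.sum_nonneg fun t _ => sq_nonneg _)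
      have h2 := (Finset.sum_eq_zero_iff_of_nonneg (fun t _ => sq_nonneg _)).1 h1
      have h3 : PLin.P S (dS (1 - ε) W g) = 0 := by
        funext t
        exact pow_eq_zero_iff (two_ne_zero) |>.1 (h2 t (Finset.mem_univ t))
      have h4 := hK2 ⟨g, hg⟩ hgK h3
      exact hne0 (congrArg Subtype.val h4)
  -- the negative index
  have hneg : m ≤ finrank ℝ (U₂.map (PLin.P Sᶜ)) := by
    obtain ⟨V, hV1, hV2, hV3⟩ := hm.1
    rw [← hV2]
    have hmem : ∀ r : V, ((PLin.P Sᶜ).comp (dL ε W)) (r : ℕ → ℕ → ℝ) ∈ U₂.map (PLin.P Sᶜ) := by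
      rintro ⟨r, hr⟩
      refine ⟨dL ε W r, ?_, rfl⟩
      rw [← dL_rst ε hε W hD r]
      exact ⟨⟨rst ε W r, restrict_mem ε hD (hV1 r hr)⟩, rfl⟩
    refine LinearMap.finrank_le_finrank_of_injective
      (f := (((PLin.P Sᶜ).comp (dL ε W)).comp V.subtype).codRestrict (U₂.map (PLin.P Sᶜ)) hmem) ?_
    rw [← LinearMap.ker_eq_bot, LinearMap.ker_eq_bot']
    rintro ⟨r, hr⟩ h
    have h1 : PLin.P Sᶜ (dL ε W r) = 0 := congrArg Subtype.val h
    by_contra hne0
    have hr0 : r ≠ 0 := fun h0 => hne0 (Subtype.ext h0)
    have h2 := hV3 r hr hr0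
    rw [form ε hε D hO hpar r (hV1 r hr)] at h2
    have e1 : ∀ t : Cr W, 0 ≤ (if plusN D t.1 then (dS (1 - ε) W r t) ^ 2
          else -(dL ε W r t) ^ 2 - 2 * (dS (1 - ε) W r t * dL ε W r t)) := by
      intro t
      by_cases h : plusN D t.1 = true
      · rw [if_pos h]; exact sq_nonneg _
      · rw [if_neg h]
        have h3 : dL ε W r t = 0 := by
          have := congrFun h1 t
          rw [PLin.P_apply, if_pos (by rw [hS]; simp [h])] at this
          exact this
        rw [h3]
        simp
    have h3 := Finset.sum_nonneg (s := Finset.univ) fun t _ => e1 t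
    linarith
  -- the number of positive crossings
  have hwr : (crs W : ℤ) + writhe D = 2 * S.card := by
    have h1 : writhe D = ∑ t : Fin D.length, osign D[t] (dirAt D t) :=
      writhe_sum D 0 noD (isSome_of_closed hO)
    have h2 : (crs W : ℤ) = ∑ t : Fin D.length, if crI D[t].forget = none then (0 : ℤ) else 1 := by
      rw [← sum_crs W]
      push_cast
      have h3 := sum_fin hlen (fun t => if h : t < D.length then
        (if crI D[t].forget = none then (0 : ℤ) else 1) else 0)
      have h4 : ∑ t : Fin D.length, (if h : (t : ℕ) < D.length then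
        (if crI D[(t : ℕ)].forget = none then (0 : ℤ) else 1) else 0) =
        ∑ t : Fin D.length, if crI D[t].forget = none then (0 : ℤ) else 1 :=
        Finset.sum_congr rfl fun t _ => by rw [dif_pos t.2]; rfl
      rw [← h4, h3]
      refine Finset.sum_congr rfl fun t _ => ?_
      have ht : (t : ℕ) < D.length := by rw [hlen]; exact t.2
      rw [dif_pos ht]
      have : W[t] = D[(t : ℕ)].forget := by simp [hW, forget]
      rw [this]
    rw [h1, h2, ← Finset.sum_add_distrib]
    have h5 : ∀ t : Fin D.length, ((if crI D[t].forget = none then (0 : ℤ) else 1) +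
        osign D[t] (dirAt D t)) = if plusN D t then 2 else 0 := by
      intro t
      rw [sign_count]
      unfold plusN
      rw [dif_pos t.2]
      rfl
    rw [Finset.sum_congr rfl fun t _ => h5 t, sum_fin hlen (fun t => if plusN D t then (2 : ℤ) else 0)]
    rw [← sum_cr W (fun t => if plusN D t then (2 : ℤ) else 0) ?_]
    · rw [hS, Finset.card_filter]
      push_cast
      rw [Finset.mul_sum]
      exact Finset.sum_congr rfl fun t _ => by split_ifs <;> simp
    · intro t ht
      have ht' : (t : ℕ) < D.length := by rw [hlen]; exact t.2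
      have h6 : W[t] = D[(t : ℕ)].forget := by simp [hW, forget]
      rw [h6] at ht
      unfold plusN
      rw [dif_pos ht']
      revert ht
      cases D[(t : ℕ)] <;> simp [OPiece.forget, crI, plusP]
  have c1 : (S.card : ℤ) + finrank ℝ (U₂.map (PLin.P Sᶜ)) ≤
      finrank ℝ (U₁.map (PLin.P S)) + finrank ℝ U₂ := by exact_mod_cast hmain
  have c2 : (finrank ℝ U₁ : ℤ) + finrank ℝ U₂ ≤ crs W := by exact_mod_cast hU₂le
  have c3 : (finrank ℝ (U₁.map (PLin.P S)) : ℤ) ≤ p := by exact_mod_cast hpos
  have c4 : (m : ℤ) ≤ finrank ℝ (U₂.map (PLin.P Sᶜ)) := by exact_mod_cast hneg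
  linarith

end Pool.Agent.Helper82_Alt.PSig
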