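import Pool.Agent.Helper82_Alt.VL

/-!
# The vertex model obeys the rules (assembly)
-/

set_option autoImplicit false

namespace Pool.Agent.Helper82_Alt.PV

open Pool.Agent.Helper454.Kauf (Piece Word LocalMove FirstMove)
open Pool.Agent.Helper454.Wh (OPiece OWord below noD forget OClosed insD delD swpD dirs HomflyRules
  OStep OIsotopic)
open PVL

theorem below_append (x y : OWord) : ∀ (n : ℕ) (d : ℕ → Bool),
    below (x ++ y) n d = (below x n d).bind (fun s => below y s.1 s.2) := by
  induction x with
  | nil => intro n d; rfl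
  | cons p x ih =>
    intro n d
    simp only [List.cons_append, below]
    cases p.below n d with
    | none => rfl
    | some s => simp [ih]

theorem OClosed_split {x y : OWord} (h : OClosed (x ++ y)) :
    ∃ (n : ℕ) (d : ℕ → Bool), below x 0 noD = some (n, d) ∧ (below y n d).map Prod.fst = some 0 := by
  unfold OClosed at h
  rw [below_append] at h
  cases hx : below x 0 noD with
  | none => rw [hx] at h; simp at h
  | some s =>
    rw [hx] at h
    exact ⟨s.1, s.2, rfl, h⟩

theorem swpD_eq (i : ℕ) (d : ℕ → Bool) (h : d i = d (i + 1)) : swpD i d = d := by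
  funext k
  unfold swpD
  by_cases h1 : k = i
  · rw [if_pos h1, h1, h]
  · rw [if_neg h1]
    by_cases h2 : k = i + 1
    · rw [if_pos h2, h2, h]
    · rw [if_neg h2]

theorem ins_del (i : ℕ) (d : ℕ → Bool) (h : d (i + 1) = !d i) :
    insD i (d (i + 1)) (delD i d) = swpD i d := by
  funext k
  unfold swpD insD delD
  by_cases h1 : k < i
  · rw [if_pos h1, if_pos h1, if_neg (by omega), if_neg (by omega)]
  · rw [if_neg h1]
    by_cases h2 : k = i
    · rw [if_pos h2, if_pos h2]
    · rw [if_neg h2, if_neg h2]
      by_cases h3 : k = i + 1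
      · rw [if_pos h3, if_pos h3, h, Bool.not_not]
      · rw [if_neg h3, if_neg h3, if_neg (by omega)]
        congr 1
        omega

theorem forget_three {l : OWord} {i j k : ℕ} (h : forget l = [Piece.pos i, Piece.pos j, Piece.pos k]) :
    l = [OPiece.pos i, OPiece.pos j, OPiece.pos k] := by
  have hp : ∀ (p : OPiece) (j : ℕ), p.forget = Piece.pos j → p = OPiece.pos j := by
    intro p j hp
    cases p <;> simp_all [OPiece.forget]
  unfold forget at h
  rcases l with _ | ⟨a, _ | ⟨b, _ | ⟨c, _ | ⟨x, l⟩⟩⟩⟩
  · simp at h
  · simp at h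
  · simp at h
  · simp only [List.map_cons, List.map_nil, List.cons.injEq, and_true] at h
    obtain ⟨h1, h2, h3⟩ := h
    rw [hp a i h1, hp b j h2, hp c k h3]
  · simp at h

theorem third_unique {a b : Word} (h : LocalMove a b) (i : ℕ)
    (ha : a = [Piece.pos i, Piece.pos (i + 1), Piece.pos i]) :
    b = [Piece.pos (i + 1), Piece.pos i, Piece.pos (i + 1)] := by
  cases h <;> simp_all

theorem relV_move (hV1 : S_V1) (hV2 : S_V2) (q : ℝ) (N n : ℕ) (d : ℕ → Bool) (l r : OWord)
    (hq : 1 < q) (hm : LocalMove (forget l) (forget r)) (hb : below l n d = below r n d)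
    (hs : (below l n d).isSome) : RelV q N n d 1 l r := by
  by_cases h3 : ∀ i, forget l ≠ [Piece.pos i, Piece.pos (i + 1), Piece.pos i]
  · exact hV1 q N n d l r hq hm h3 hb hs
  · push Not at h3
    obtain ⟨i, hi⟩ := h3
    have hr : forget r = [Piece.pos (i + 1), Piece.pos i, Piece.pos (i + 1)] :=
      third_unique hm i hi
    have hl' := forget_three hi
    have hr' := forget_three hr
    subst hl' hr'
    refine hV2 q N n i d hq ?_
    by_contra hn
    simp only [below, OPiece.below] at hs
    by_cases h2 : i + 2 ≤ n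
    · rw [if_pos h2] at hs
      simp only [Option.bind_some] at hs
      rw [if_neg (by omega)] at hs
      simp at hs
    · rw [if_neg h2] at hs
      simp at hs

theorem step (hV1 : S_V1) (hV2 : S_V2) (hV3 : S_V3) (hW1 : S_W1) (hW2 : S_W2) (q : ℝ) (N : ℕ)
    (hq : 1 < q) (D E : OWord) (h : OStep D E) :
    q ^ (-((N : ℤ) * writhe D)) * ZV q N D = q ^ (-((N : ℤ) * writhe E)) * ZV q N E := by
  have hq0 : q ≠ 0 := by positivity
  obtain ⟨x, l, r, y, n, d, hm, hx, hlr, hD, hE⟩ := h
  rw [List.append_assoc] at hD
  obtain ⟨n', d', hx', hD'⟩ := OClosed_split hD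
  rw [hx] at hx'
  obtain ⟨h1, h2⟩ := Prod.mk.inj (Option.some.inj hx')
  subst h1 h2
  rw [below_append] at hD'
  cases hl : below l n d with
  | none => rw [hl] at hD'; simp at hD'
  | some s =>
    obtain ⟨m, e⟩ := s
    have hr : below r n d = some (m, e) := by rw [← hlr, hl]
    have hs : (below l n d).isSome := by rw [hl]; rfl
    have w1 : writhe (x ++ l ++ y) =
        writheFrom x 0 noD + (writheFrom l n d + writheFrom y m e) := by
      unfold writhe
      rw [List.append_assoc, hW2 x (l ++ y) 0 noD n d hx, hW2 l y n d m e hl]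
    have w2 : writhe (x ++ r ++ y) =
        writheFrom x 0 noD + (writheFrom r n d + writheFrom y m e) := by
      unfold writhe
      rw [List.append_assoc, hW2 x (r ++ y) 0 noD n d hx, hW2 r y n d m e hr]
    rcases hm with hm | hm
    · have w3 := hW1.1 l r n d hm hlr hs
      have z := relV_mid q x l r y 0 n noD d 1 hx
        (relV_move hV1 hV2 q N n d l r hq hm hlr hs) fz [] rfl
      unfold ZV
      rw [w1, w2, w3, z, one_mul]
    · have w3 := hW1.2 l r n d hm hlr hs
      have z := relV_mid q x l r y 0 n noD d _ hx (hV3 q N n d l r hq hm hlr hs) fz [] rfl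
      unfold ZV
      rw [w1, w2, w3, z, ← mul_assoc, ← zpow_add₀ hq0]
      congr 2
      ring

theorem t_V (hV1 : S_V1) (hV2 : S_V2) (hV3 : S_V3) (hV4 : S_V4) (hW1 : S_W1) (hW2 : S_W2) :
    S_V := by
  intro q N hq
  have hq0 : q ≠ 0 := by positivity
  refine ⟨?_, ?_, ?_⟩
  · intro D E h
    induction h with
    | rel D E h => exact step hV1 hV2 hV3 hW1 hW2 q N hq D E h
    | refl D => rfl
    | symm D E _ ih => exact ih.symm
    | trans D E F _ _ ih1 ih2 => exact ih1.trans ih2
  · intro x i y hD hd
    rw [List.append_assoc] at hD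
    obtain ⟨n, d, hx, hD'⟩ := OClosed_split hD
    have hdirs : dirs x = d := by unfold dirs; rw [hx]; rfl
    rw [hdirs] at hd
    simp only [List.cons_append, List.nil_append, below, OPiece.below] at hD'
    have hn : i + 2 ≤ n := by
      by_contra hn
      rw [if_neg hn] at hD'
      simp at hD'
    have hp : below [OPiece.pos i] n d = some (n, d) := by
      simp only [below, OPiece.below]
      rw [if_pos hn, swpD_eq i d hd]
      rfl
    have hg : below [OPiece.neg i] n d = some (n, d) := by
      simp only [below, OPiece.below]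
      rw [if_pos hn, swpD_eq i d hd]
      rfl
    have w0 : writhe (x ++ y) = writheFrom x 0 noD + writheFrom y n d := hW2 x y 0 noD n d hx
    have w1 : writhe (x ++ [OPiece.pos i] ++ y) = writhe (x ++ y) + 1 := by
      rw [w0]
      unfold writhe
      rw [List.append_assoc, hW2 x ([OPiece.pos i] ++ y) 0 noD n d hx,
        hW2 [OPiece.pos i] y n d n d hp]
      have : writheFrom [OPiece.pos i] n d = 1 := by
        simp [writheFrom, osign, hd, OPiece.below, hn]
      rw [this]
      ring
    have w2 : writhe (x ++ [OPiece.neg i] ++ y) = writhe (x ++ y) - 1 := by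
      rw [w0]
      unfold writhe
      rw [List.append_assoc, hW2 x ([OPiece.neg i] ++ y) 0 noD n d hx,
        hW2 [OPiece.neg i] y n d n d hg]
      have : writheFrom [OPiece.neg i] n d = -1 := by
        simp [writheFrom, osign, hd, OPiece.below, hn]
      rw [this]
      ring
    have z : ZV q N (x ++ [OPiece.pos i] ++ y) - ZV q N (x ++ [OPiece.neg i] ++ y) =
        (q - q⁻¹) * ZV q N (x ++ y) := by
      unfold ZV
      simp only [opWV_append]
      have e1 : opWV q N x (opWV q N [OPiece.pos i] (opWV q N y fz)) ([] : VS N) =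
          opWV q N x (fun s => opWV q N [OPiece.neg i] (opWV q N y fz) s +
            (q - q⁻¹) * opWV q N y fz s) [] := by
        refine opWV_congr q x 0 noD n d _ _ hx ?_ [] rfl
        intro s hs
        have := (hV4 q N n i d (opWV q N y fz) s hq hn hs).1 hd
        linarith
      rw [e1, opWV_add, opWV_smul]
      ring
    simp only [smul_eq_mul]
    rw [w1, w2]
    have e2 : q ^ (N : ℤ) * (q ^ (-((N : ℤ) * (writhe (x ++ y) + 1))) *
        ZV q N (x ++ [OPiece.pos i] ++ y)) = q ^ (-((N : ℤ) * writhe (x ++ y))) *
        ZV q N (x ++ [OPiece.pos i] ++ y) := by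
      rw [← mul_assoc, ← zpow_add₀ hq0]
      congr 2
      ring
    have e3 : q ^ (-(N : ℤ)) * (q ^ (-((N : ℤ) * (writhe (x ++ y) - 1))) *
        ZV q N (x ++ [OPiece.neg i] ++ y)) = q ^ (-((N : ℤ) * writhe (x ++ y))) *
        ZV q N (x ++ [OPiece.neg i] ++ y) := by
      rw [← mul_assoc, ← zpow_add₀ hq0]
      congr 2
      ring
    rw [e2, e3, ← mul_sub, z]
    ring
  · intro x i y hD hd
    rw [List.append_assoc] at hD
    obtain ⟨n, d, hx, hD'⟩ := OClosed_split hD
    have hdirs : dirs x = d := by unfold dirs; rw [hx]; rfl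
    rw [hdirs] at hd ⊢
    simp only [List.cons_append, List.nil_append, below, OPiece.below] at hD'
    have hn : i + 2 ≤ n := by
      by_contra hn
      rw [if_neg hn] at hD'
      simp at hD'
    have hd' : d (i + 1) = !d i := by
      revert hd
      cases d i <;> cases d (i + 1) <;> simp
    have hp : below [OPiece.pos i] n d = some (n, swpD i d) := by
      simp only [below, OPiece.below]
      rw [if_pos hn]
      rfl
    have hg : below [OPiece.neg i] n d = some (n, swpD i d) := by
      simp only [below, OPiece.below]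
      rw [if_pos hn]
      rfl
    have ho : below [OPiece.death i, OPiece.birth i (d (i + 1))] n d = some (n, swpD i d) := by
      simp only [below, OPiece.below]
      rw [if_pos ⟨hn, hd'⟩]
      simp only [Option.bind_some]
      rw [if_pos (by omega), ins_del i d hd', show n - 2 + 2 = n by omega]
      rfl
    have w0 : writhe (x ++ [OPiece.death i, OPiece.birth i (d (i + 1))] ++ y) =
        writheFrom x 0 noD + writheFrom y n (swpD i d) := by
      unfold writhe
      rw [List.append_assoc, hW2 x _ 0 noD n d hx, hW2 _ y n d n (swpD i d) ho]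
      have : writheFrom [OPiece.death i, OPiece.birth i (d (i + 1))] n d = 0 := by
        simp only [writheFrom, osign, OPiece.below]
        rw [if_pos ⟨hn, hd'⟩]
        simp only [zero_add]
        rw [if_pos (by omega)]
      rw [this]
      ring
    have w1 : writhe (x ++ [OPiece.pos i] ++ y) =
        writhe (x ++ [OPiece.death i, OPiece.birth i (d (i + 1))] ++ y) - 1 := by
      rw [w0]
      unfold writhe
      rw [List.append_assoc, hW2 x ([OPiece.pos i] ++ y) 0 noD n d hx,
        hW2 [OPiece.pos i] y n d n _ hp]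
      have : writheFrom [OPiece.pos i] n d = -1 := by
        simp [writheFrom, osign, hd, OPiece.below, hn]
      rw [this]
      ring
    have w2 : writhe (x ++ [OPiece.neg i] ++ y) =
        writhe (x ++ [OPiece.death i, OPiece.birth i (d (i + 1))] ++ y) + 1 := by
      rw [w0]
      unfold writhe
      rw [List.append_assoc, hW2 x ([OPiece.neg i] ++ y) 0 noD n d hx,
        hW2 [OPiece.neg i] y n d n _ hg]
      have : writheFrom [OPiece.neg i] n d = 1 := by
        simp [writheFrom, osign, hd, OPiece.below, hn]
      rw [this]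
      ring
    have z : ZV q N (x ++ [OPiece.neg i] ++ y) - ZV q N (x ++ [OPiece.pos i] ++ y) =
        (q - q⁻¹) * ZV q N (x ++ [OPiece.death i, OPiece.birth i (d (i + 1))] ++ y) := by
      unfold ZV
      simp only [opWV_append]
      have e1 : opWV q N x (opWV q N [OPiece.neg i] (opWV q N y fz)) ([] : VS N) =
          opWV q N x (fun s => opWV q N [OPiece.pos i] (opWV q N y fz) s +
            (q - q⁻¹) * opWV q N [OPiece.death i, OPiece.birth i (d (i + 1))]
              (opWV q N y fz) s) [] := by
        refine opWV_congr q x 0 noD n d _ _ hx ?_ [] rfl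
        intro s hs
        have := (hV4 q N n i d (opWV q N y fz) s hq hn hs).2 hd
        linarith
      rw [e1, opWV_add, opWV_smul]
      ring
    simp only [smul_eq_mul]
    rw [w1, w2]
    generalize writhe (x ++ [OPiece.death i, OPiece.birth i (d (i + 1))] ++ y) = w at *
    have e2 : q ^ (N : ℤ) * (q ^ (-((N : ℤ) * (w + 1))) *
        ZV q N (x ++ [OPiece.neg i] ++ y)) = q ^ (-((N : ℤ) * w)) *
        ZV q N (x ++ [OPiece.neg i] ++ y) := by
      rw [← mul_assoc, ← zpow_add₀ hq0]
      congr 2
      ring
    have e3 : q ^ (-(N : ℤ)) * (q ^ (-((N : ℤ) * (w - 1))) *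
        ZV q N (x ++ [OPiece.pos i] ++ y)) = q ^ (-((N : ℤ) * w)) *
        ZV q N (x ++ [OPiece.pos i] ++ y) := by
      rw [← mul_assoc, ← zpow_add₀ hq0]
      congr 2
      ring
    rw [e2, e3, ← mul_sub, z]
    ring

end Pool.Agent.Helper82_Alt.PV
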