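import Pool.Agent.Helper82_Alt.V1c

/-!
# Vertex model: the pieces V1, V3, V4
-/

set_option autoImplicit false

namespace Pool.Agent.Helper82_Alt.PV

open Pool.Agent.Helper454.Kauf (Piece Word LocalMove FirstMove)
open Pool.Agent.Helper454.Wh (OPiece OWord below forget insD delD swpD)

variable {N : ℕ}

/-- the operators of a slide of a crossing through a maximum -/
lemma rel_slideB (q : ℝ) (hq1 : 1 < q) (s b : Bool) (i : ℕ) {n : ℕ} {d : ℕ → Bool} (hi : i + 1 ≤ n)
    (f : VF N) (st : VS N) (hst : st.map Prod.fst = dlist n d) :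
    atPos (birthL q b) i (atPos (crossL q s) (i + 1) f) st =
      atPos (birthL q b) (i + 1) (atPos (crossL q (!s)) i f) st := by
  obtain ⟨u, c, s', rfl, hu⟩ := split1 hst hi
  rw [atPos_app0 _ i u hu, atPos_app' _ 1 i u hu]
  have e1 : (fun r => atPos (crossL q s) (i + 1) f (u ++ r)) =
      atPos (crossL q s) 1 (fun r => f (u ++ r)) := by
    funext r; rw [atPos_app' _ 1 i u hu]
  have e2 : (fun r => atPos (crossL q (!s)) i f (u ++ r)) =
      crossL q (!s) (fun r => f (u ++ r)) := by
    funext r; rw [atPos_app0 _ i u hu]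
  rw [e1, e2]
  exact slideB q hq1 s b (d i) c _ s'

lemma rel_slideD (q : ℝ) (hq1 : 1 < q) (s : Bool) (i : ℕ) {n : ℕ} {d : ℕ → Bool} (hi : i + 3 ≤ n)
    (hd : d (i + 2) = !d i) (f : VF N) (st : VS N) (hst : st.map Prod.fst = dlist n d) :
    atPos (crossL q s) (i + 1) (atPos (deathL q) i f) st =
      atPos (crossL q (!s)) i (atPos (deathL q) (i + 1) f) st := by
  obtain ⟨u, c, c', c'', s', rfl, hu⟩ := split3 hst hi
  rw [atPos_app0 _ i u hu, atPos_app' _ 1 i u hu]
  have e1 : (fun r => atPos (deathL q) (i + 1) f (u ++ r)) =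
      atPos (deathL q) 1 (fun r => f (u ++ r)) := by
    funext r; rw [atPos_app' _ 1 i u hu]
  have e2 : (fun r => atPos (deathL q) i f (u ++ r)) =
      deathL q (fun r => f (u ++ r)) := by
    funext r; rw [atPos_app0 _ i u hu]
  rw [e1, e2, hd]
  exact slideD q hq1 s (d i) (d (i + 1)) c c' c'' _ s'

lemma rel_r2 (q : ℝ) (hq1 : 1 < q) (s : Bool) (i : ℕ) {n : ℕ} {d : ℕ → Bool} (hi : i + 2 ≤ n)
    (f : VF N) (st : VS N) (hst : st.map Prod.fst = dlist n d) :
    atPos (crossL q s) i (atPos (crossL q (!s)) i f) st = f st := by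
  obtain ⟨u, c, c', s', rfl, hu⟩ := split2 hst hi
  rw [atPos_app0 _ i u hu]
  have e1 : (fun r => atPos (crossL q (!s)) i f (u ++ r)) =
      crossL q (!s) (fun r => f (u ++ r)) := by
    funext r; rw [atPos_app0 _ i u hu]
  rw [e1]
  exact r2 q hq1 s (d i) (d (i + 1)) c c' _ s'

theorem t_V1 : S_V1 := by
  intro q N n d l r hq1 hm h3 hb hsome
  generalize hL : forget l = L at hm h3
  generalize hR : forget r = R at hm
  have hsome' := hsome
  rw [hb] at hsome'
  cases hm with
  | exchange p q' h =>
    obtain ⟨p₁, q₁, rfl, hp1, hq1'⟩ := forget_two hL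
    obtain ⟨q₂, p₂, rfl, hq2, hp2⟩ := forget_two hR
    refine rel_exchange q (by rw [hp1, hp2]) (by rw [hq1', hq2, hp1]) ?_ hb hsome
    rw [hp1, hq2]; exact h
  | zigzag₁ i =>
    obtain ⟨p₁, p₂, rfl, h1, h2⟩ := forget_two hL
    obtain rfl := forget_nil hR
    obtain ⟨b, rfl⟩ := of_birth h1
    obtain rfl := of_death h2
    obtain ⟨m, e, m', e', a1, a2, a3⟩ := below_two hsome
    obtain ⟨_, rfl, rfl⟩ := below_birth a1
    obtain ⟨b1, b2, rfl, rfl⟩ := below_death a2
    have hdb : d i = b := by
      have e1 := insD_at2 i b d 0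
      have e2 := insD_at1 i b d
      simp only [Nat.add_zero] at e1
      rw [show i + 1 + 1 = i + 2 by omega, e1, e2, Bool.not_not] at b2
      exact b2
    intro f st hst
    obtain ⟨u, c, s', rfl, hu⟩ := split1 hst (i := i) (by omega)
    rw [one_mul]
    change atPos (birthL q b) i (atPos (deathL q) (i + 1) f) _ = f _
    rw [atPos_app0 _ i u hu]
    have e1 : (fun r => atPos (deathL q) (i + 1) f (u ++ r)) =
        atPos (deathL q) 1 (fun r => f (u ++ r)) := by
      funext r; rw [atPos_app' _ 1 i u hu]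
    rw [e1, hdb]
    exact zig1 q hq1 b c _ s'
  | zigzag₂ i =>
    obtain ⟨p₁, p₂, rfl, h1, h2⟩ := forget_two hL
    obtain rfl := forget_nil hR
    obtain ⟨b, rfl⟩ := of_birth h1
    obtain rfl := of_death h2
    obtain ⟨m, e, m', e', a1, a2, a3⟩ := below_two hsome
    have a0 := below_left a1 i (by simp [idx])
    obtain ⟨c0, rfl, rfl⟩ := below_birth a1
    obtain ⟨b1, b2, rfl, rfl⟩ := below_death a2
    have hdb : d i = !b := by
      rw [insD_at, a0] at b2
      rw [b2, Bool.not_not]
    intro f st hst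
    obtain ⟨u, c, s', rfl, hu⟩ := split1 hst (i := i) c0
    rw [one_mul]
    change atPos (birthL q b) (i + 1) (atPos (deathL q) i f) _ = f _
    rw [atPos_app' _ 1 i u hu]
    have e1 : (fun r => atPos (deathL q) i f (u ++ r)) =
        deathL q (fun r => f (u ++ r)) := by
      funext r; rw [atPos_app0 _ i u hu]
    rw [e1, hdb]
    exact zig2 q hq1 b c _ s'
  | slideBirth₁ i =>
    obtain ⟨p₁, p₂, rfl, h1, h2⟩ := forget_two hL
    obtain ⟨p₃, p₄, rfl, h4, h5⟩ := forget_two hR
    obtain ⟨b, rfl⟩ := of_birth h1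
    obtain rfl := of_pos h2
    obtain ⟨b', rfl⟩ := of_birth h4
    obtain rfl := of_neg h5
    obtain ⟨m, e, m', e', a1, a2, a3⟩ := below_two hsome
    obtain ⟨n1, g, n2, g', c1, c2, c3⟩ := below_two hsome'
    have hlast : e' = g' := by
      have := a3.symm.trans (hb.trans c3)
      simp only [Option.some.injEq, Prod.mk.injEq] at this
      exact this.2
    have x1 := below_left a2 i (by simp [idx])
    obtain ⟨_, rfl, rfl⟩ := below_birth a1
    obtain ⟨c0, rfl, rfl⟩ := below_birth c1
    obtain ⟨_, rfl, rfl⟩ := below_neg c2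
    rw [insD_at, hlast, swpD_at, insD_at] at x1
    subst x1
    intro f st hst
    rw [one_mul]
    exact rel_slideB q hq1 false b' i c0 f st hst
  | slideBirth₂ i =>
    obtain ⟨p₁, p₂, rfl, h1, h2⟩ := forget_two hL
    obtain ⟨p₃, p₄, rfl, h4, h5⟩ := forget_two hR
    obtain ⟨b, rfl⟩ := of_birth h1
    obtain rfl := of_neg h2
    obtain ⟨b', rfl⟩ := of_birth h4
    obtain rfl := of_pos h5
    obtain ⟨m, e, m', e', a1, a2, a3⟩ := below_two hsome
    obtain ⟨n1, g, n2, g', c1, c2, c3⟩ := below_two hsome'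
    have hlast : e' = g' := by
      have := a3.symm.trans (hb.trans c3)
      simp only [Option.some.injEq, Prod.mk.injEq] at this
      exact this.2
    have x1 := below_left a2 i (by simp [idx])
    obtain ⟨_, rfl, rfl⟩ := below_birth a1
    obtain ⟨c0, rfl, rfl⟩ := below_birth c1
    obtain ⟨_, rfl, rfl⟩ := below_pos c2
    rw [insD_at, hlast, swpD_at, insD_at] at x1
    subst x1
    intro f st hst
    rw [one_mul]
    exact rel_slideB q hq1 true b' i c0 f st hst
  | slideDeath₁ i =>
    obtain ⟨p₁, p₂, rfl, h1, h2⟩ := forget_two hL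
    obtain ⟨p₃, p₄, rfl, h4, h5⟩ := forget_two hR
    obtain rfl := of_pos h1
    obtain rfl := of_death h2
    obtain rfl := of_neg h4
    obtain rfl := of_death h5
    obtain ⟨m, e, m', e', a1, a2, a3⟩ := below_two hsome
    have x1 := below_left a1 i (by simp [idx])
    obtain ⟨c0, rfl, rfl⟩ := below_pos a1
    obtain ⟨_, b2, rfl, rfl⟩ := below_death a2
    rw [swpD_at, x1] at b2
    intro f st hst
    rw [one_mul]
    exact rel_slideD q hq1 false i c0 b2 f st hst
  | slideDeath₂ i =>
    obtain ⟨p₁, p₂, rfl, h1, h2⟩ := forget_two hL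
    obtain ⟨p₃, p₄, rfl, h4, h5⟩ := forget_two hR
    obtain rfl := of_neg h1
    obtain rfl := of_death h2
    obtain rfl := of_pos h4
    obtain rfl := of_death h5
    obtain ⟨m, e, m', e', a1, a2, a3⟩ := below_two hsome
    have x1 := below_left a1 i (by simp [idx])
    obtain ⟨c0, rfl, rfl⟩ := below_neg a1
    obtain ⟨_, b2, rfl, rfl⟩ := below_death a2
    rw [swpD_at, x1] at b2
    intro f st hst
    rw [one_mul]
    exact rel_slideD q hq1 true i c0 b2 f st hst
  | second₁ i =>
    obtain ⟨p₁, p₂, rfl, h1, h2⟩ := forget_two hL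
    obtain rfl := forget_nil hR
    obtain rfl := of_pos h1
    obtain rfl := of_neg h2
    obtain ⟨m, e, m', e', a1, a2, a3⟩ := below_two hsome
    obtain ⟨c0, rfl, rfl⟩ := below_pos a1
    intro f st hst
    rw [one_mul]
    exact rel_r2 q hq1 false i c0 f st hst
  | second₂ i =>
    obtain ⟨p₁, p₂, rfl, h1, h2⟩ := forget_two hL
    obtain rfl := forget_nil hR
    obtain rfl := of_neg h1
    obtain rfl := of_pos h2
    obtain ⟨m, e, m', e', a1, a2, a3⟩ := below_two hsome
    obtain ⟨c0, rfl, rfl⟩ := below_neg a1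
    intro f st hst
    rw [one_mul]
    exact rel_r2 q hq1 true i c0 f st hst
  | third i => exact absurd rfl (h3 i)

lemma rel_curlB (q : ℝ) (hq1 : 1 < q) (s b : Bool) (i : ℕ) {n : ℕ} {d : ℕ → Bool} (hi : i ≤ n)
    (f : VF N) (st : VS N) (hst : st.map Prod.fst = dlist n d) :
    atPos (birthL q b) i (atPos (crossL q s) i f) st =
      kap q N s * atPos (birthL q (!b)) i f st := by
  obtain ⟨u, s', rfl, hu⟩ := split0 hst hi
  rw [atPos_app0 _ i u hu, atPos_app0 _ i u hu]
  have e1 : (fun r => atPos (crossL q s) i f (u ++ r)) = crossL q s (fun r => f (u ++ r)) := by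
    funext r; rw [atPos_app0 _ i u hu]
  rw [e1]
  exact curl_birth q hq1 s b _ s'

lemma rel_curlD (q : ℝ) (hq1 : 1 < q) (s : Bool) (i : ℕ) {n : ℕ} {d : ℕ → Bool} (hi : i + 2 ≤ n)
    (hd : d (i + 1) = !d i) (f : VF N) (st : VS N) (hst : st.map Prod.fst = dlist n d) :
    atPos (crossL q s) i (atPos (deathL q) i f) st = kap q N s * atPos (deathL q) i f st := by
  obtain ⟨u, c, c', s', rfl, hu⟩ := split2 hst hi
  rw [atPos_app0 _ i u hu, atPos_app0 _ i u hu]
  have e1 : (fun r => atPos (deathL q) i f (u ++ r)) = deathL q (fun r => f (u ++ r)) := by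
    funext r; rw [atPos_app0 _ i u hu]
  rw [e1, hd]
  exact curl_death q hq1 s (d i) c c' _ s'

theorem t_V3 : S_V3 := by
  intro q N n d l r hq1 hm hb hsome
  generalize hL : forget l = L at hm
  generalize hR : forget r = R at hm
  have hsome' := hsome
  rw [hb] at hsome'
  cases hm with
  | birthPos i =>
    obtain ⟨p₁, p₂, rfl, h1, h2⟩ := forget_two hL
    obtain ⟨p₃, rfl, h4⟩ := forget_one hR
    obtain ⟨b, rfl⟩ := of_birth h1
    obtain rfl := of_pos h2
    obtain ⟨b', rfl⟩ := of_birth h4
    obtain ⟨m, e, m', e', a1, a2, a3⟩ := below_two hsome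
    obtain ⟨n1, g, c1, c3⟩ := below_one hsome'
    have hlast : e' = g := by
      have := a3.symm.trans (hb.trans c3)
      simp only [Option.some.injEq, Prod.mk.injEq] at this
      exact this.2
    obtain ⟨c0, rfl, rfl⟩ := below_birth a1
    obtain ⟨_, rfl, rfl⟩ := below_pos a2
    obtain ⟨_, rfl, rfl⟩ := below_birth c1
    have x1 := congrFun hlast i
    rw [swpD_at, insD_at1, insD_at] at x1
    subst x1
    intro f st hst
    have hk : q ^ ((N : ℤ) * curlSign [Piece.birth i, Piece.pos i]) = kap q N false := by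
      simp [curlSign, kap]
    rw [hk]
    exact rel_curlB q hq1 false b i c0 f st hst
  | birthNeg i =>
    obtain ⟨p₁, p₂, rfl, h1, h2⟩ := forget_two hL
    obtain ⟨p₃, rfl, h4⟩ := forget_one hR
    obtain ⟨b, rfl⟩ := of_birth h1
    obtain rfl := of_neg h2
    obtain ⟨b', rfl⟩ := of_birth h4
    obtain ⟨m, e, m', e', a1, a2, a3⟩ := below_two hsome
    obtain ⟨n1, g, c1, c3⟩ := below_one hsome'
    have hlast : e' = g := by
      have := a3.symm.trans (hb.trans c3)
      simp only [Option.some.injEq, Prod.mk.injEq] at this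
      exact this.2
    obtain ⟨c0, rfl, rfl⟩ := below_birth a1
    obtain ⟨_, rfl, rfl⟩ := below_neg a2
    obtain ⟨_, rfl, rfl⟩ := below_birth c1
    have x1 := congrFun hlast i
    rw [swpD_at, insD_at1, insD_at] at x1
    subst x1
    intro f st hst
    have hk : q ^ ((N : ℤ) * curlSign [Piece.birth i, Piece.neg i]) = kap q N true := by
      simp [curlSign, kap]
    rw [hk]
    exact rel_curlB q hq1 true b i c0 f st hst
  | deathPos i =>
    obtain ⟨p₁, p₂, rfl, h1, h2⟩ := forget_two hL
    obtain ⟨p₃, rfl, h4⟩ := forget_one hR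
    obtain rfl := of_pos h1
    obtain rfl := of_death h2
    obtain rfl := of_death h4
    obtain ⟨n1, g, c1, c3⟩ := below_one hsome'
    obtain ⟨c0, hd, _, _⟩ := below_death c1
    intro f st hst
    have hk : q ^ ((N : ℤ) * curlSign [Piece.pos i, Piece.death i]) = kap q N false := by
      simp [curlSign, kap]
    rw [hk]
    exact rel_curlD q hq1 false i c0 hd f st hst
  | deathNeg i =>
    obtain ⟨p₁, p₂, rfl, h1, h2⟩ := forget_two hL
    obtain ⟨p₃, rfl, h4⟩ := forget_one hR
    obtain rfl := of_neg h1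
    obtain rfl := of_death h2
    obtain rfl := of_death h4
    obtain ⟨n1, g, c1, c3⟩ := below_one hsome'
    obtain ⟨c0, hd, _, _⟩ := below_death c1
    intro f st hst
    have hk : q ^ ((N : ℤ) * curlSign [Piece.neg i, Piece.death i]) = kap q N true := by
      simp [curlSign, kap]
    rw [hk]
    exact rel_curlD q hq1 true i c0 hd f st hst

/-! ### skein relations -/

lemma skein_par (q : ℝ) (b : Bool) (c d : Fin N) (f : VF N) (st : VS N) :
    crossL q false f ((b, c) :: (b, d) :: st) - crossL q true f ((b, c) :: (b, d) :: st) =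
      (q - q⁻¹) * f ((b, c) :: (b, d) :: st) := by
  by_cases h : c = d
  · subst h
    rw [crossL_par_eq, crossL_par_eq]
    simp only [eq', if_true, Bool.false_eq_true, if_false]; ring
  · rw [crossL_par_ne _ _ _ h, crossL_par_ne _ _ _ h]
    by_cases h1 : ordP false b c d
    · have h2 : ¬ ordP true b c d := ordP_both h1
      rw [if_pos h1, if_neg h2]
      simp only [hq, Bool.false_eq_true, if_false]; ring
    · have h2 : ordP true b c d := ordP_or h h1
      rw [if_neg h1, if_pos h2]
      simp only [hq, if_true]; ring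

lemma skein_anti (q : ℝ) (hq1 : 1 < q) (b : Bool) (c d : Fin N) (f : VF N) (st : VS N) :
    crossL q true f ((b, c) :: (!b, d) :: st) - crossL q false f ((b, c) :: (!b, d) :: st) =
      (q - q⁻¹) * deathL q (birthL q (!b) f) ((b, c) :: (!b, d) :: st) := by
  have hb : b ≠ !b := by cases b <;> simp
  by_cases h : c = d
  · subst h
    rw [crossL_anti_eq _ _ hb, crossL_anti_eq _ _ hb, death_pos, if_pos rfl]
    simp only [eq', hq, if_true, Bool.false_eq_true, if_false, Bool.not_false, Bool.not_true]
    have key : turn q true b c f st + turn q false b c f st + f ((!b, c) :: (b, c) :: st) =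
        wD q b c * birthL q (!b) f st := by
      have e1 : f ((!b, c) :: (b, c) :: st) = ∑ e : Fin N, (if e = c then
          wB q (!b) e * wD q b c * f ((!b, e) :: (b, e) :: st) else 0) := by
        rw [Finset.sum_ite_eq' Finset.univ c, if_pos (Finset.mem_univ c), wDB q hq1, one_mul]
      rw [e1, turn, turn, birthL, Finset.mul_sum, ← Finset.sum_add_distrib,
        ← Finset.sum_add_distrib]
      refine Finset.sum_congr rfl fun e _ => ?_
      rw [Bool.not_not]
      by_cases he : e = c
      · subst he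
        rw [if_neg (ordP_irr _ _ _), if_neg (ordP_irr _ _ _), if_pos rfl]; ring
      · rw [if_neg he]
        by_cases h1 : ordP false b c e
        · have h2 : ¬ ordP true b c e := ordP_both h1
          rw [if_neg h2, if_pos h1]; ring
        · have h2 : ordP true b c e := ordP_or (Ne.symm he) h1
          rw [if_pos h2, if_neg h1]; ring
    linear_combination (q - q⁻¹) * key
  · rw [crossL_anti_ne _ _ hb h, crossL_anti_ne _ _ hb h, death_pos, if_neg (Ne.symm h)]
    ring

theorem t_V4 : S_V4 := by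
  intro q N n i d f s hq1 hi hst
  obtain ⟨u, c, c', s', rfl, hu⟩ := split2 hst hi
  constructor
  · intro hd
    change atPos (crossL q false) i f _ - atPos (crossL q true) i f _ = _
    rw [atPos_app0 _ i u hu, atPos_app0 _ i u hu, ← hd]
    exact skein_par q (d i) c c' _ s'
  · intro hd
    have hd' : d (i + 1) = !d i := by
      revert hd; cases d i <;> cases d (i + 1) <;> simp
    change atPos (crossL q true) i f _ - atPos (crossL q false) i f _ =
      (q - q⁻¹) * atPos (deathL q) i (atPos (birthL q (d (i + 1))) i f) _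
    rw [atPos_app0 _ i u hu, atPos_app0 _ i u hu, atPos_app0 _ i u hu]
    have e1 : (fun r => atPos (birthL q (d (i + 1))) i f (u ++ r)) =
        birthL q (d (i + 1)) (fun r => f (u ++ r)) := by
      funext r; rw [atPos_app0 _ i u hu]
    rw [e1, hd']
    exact skein_anti q hq1 (d i) c c' _ s'

end Pool.Agent.Helper82_Alt.PV
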