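import Pool.Agent.Helper82_Alt.VL

/-!
# The third Reidemeister move in the vertex model, all directions
-/

set_option autoImplicit false

namespace Pool.Agent.Helper82_Alt.PV2

open Pool.Agent.Helper454.Kauf (Piece Word LocalMove FirstMove)
open Pool.Agent.Helper454.Wh (OPiece OWord below noD forget OClosed insD delD swpD)
open PVL

/-- crossing: `neg` if `s`, `pos` otherwise -/
def cr (s : Bool) (i : ℕ) : OPiece := if s then .neg i else .pos i

theorem opV_cr (q : ℝ) (N : ℕ) (s : Bool) (i : ℕ) : opV q N (cr s i) = atPos (crossL q s) i := by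
  cases s <;> rfl

theorem below_cr (s : Bool) (i n : ℕ) (d : ℕ → Bool) :
    (cr s i).below n d = if i + 2 ≤ n then some (n, swpD i d) else none := by
  cases s <;> rfl

theorem below_b (i : ℕ) (b : Bool) (n : ℕ) (d : ℕ → Bool) :
    (OPiece.birth i b).below n d = if i ≤ n then some (n + 2, insD i b d) else none := rfl

theorem below_d (i n : ℕ) (d : ℕ → Bool) : (OPiece.death i).below n d =
    if i + 2 ≤ n ∧ d (i + 1) = !d i then some (n - 2, delD i d) else none := rfl

theorem belL_cr (s : Bool) (i : ℕ) : belL (cr s i) = atL swapD i := by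
  cases s <;> rfl

theorem forget_cr (s : Bool) (i : ℕ) :
    OPiece.forget (cr s i) = if s then Piece.neg i else Piece.pos i := by
  cases s <;> rfl

/-- `x` and `y` have the same value at the states with the directions `L` -/
def Rl (q : ℝ) (N : ℕ) (L : List Bool) (x y : OWord) : Prop :=
  ∀ (f : VF N) (s : VS N), s.map Prod.fst = L → opWV q N x f s = opWV q N y f s

theorem Rl.symm {q : ℝ} {N : ℕ} {L : List Bool} {x y : OWord} (h : Rl q N L x y) :
    Rl q N L y x := fun f s hs => (h f s hs).symm

theorem Rl.trans {q : ℝ} {N : ℕ} {L : List Bool} {x y z : OWord} (h : Rl q N L x y)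
    (h' : Rl q N L y z) : Rl q N L x z := fun f s hs => (h f s hs).trans (h' f s hs)

theorem Rl.mid {q : ℝ} {N : ℕ} {L L' : List Bool} {l r : OWord} (x y : OWord)
    (hx : belLW x L = some L') (h : Rl q N L' l r) : Rl q N L (x ++ l ++ y) (x ++ r ++ y) := by
  intro f s hs
  rw [opWV_append, opWV_append, opWV_append, opWV_append]
  exact opWV_congrL q x L L' _ _ hx (fun s hs => h _ s hs) s hs

/-- a move from `S_V1` -/
theorem Rl_move (hV1 : S_V1) {q : ℝ} {N : ℕ} (hq : 1 < q) (L : List Bool) (l r : OWord)
    (hm : LocalMove (forget l) (forget r))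
    (h3 : ∀ i, forget l ≠ [Piece.pos i, Piece.pos (i + 1), Piece.pos i])
    (h : ∀ d : ℕ → Bool, dlist L.length d = L →
      below l L.length d = below r L.length d ∧ (below l L.length d).isSome) : Rl q N L l r := by
  intro f s hs
  obtain ⟨h1, h2⟩ := h (fun k => L.getD k false) (eq_dlist L).symm
  have := hV1 q N L.length (fun k => L.getD k false) l r hq hm h3 h1 h2 f s
    (by rw [hs]; exact eq_dlist L)
  rw [this, one_mul]

theorem slideB (hV1 : S_V1) {q : ℝ} {N : ℕ} (hq : 1 < q) (L : List Bool) (i : ℕ) (b s : Bool)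
    (hL : i + 1 ≤ L.length) :
    Rl q N L [.birth i b, cr s (i + 1)] [.birth (i + 1) b, cr (!s) i] := by
  refine Rl_move hV1 hq L _ _ ?_ ?_ ?_
  · cases s
    · exact LocalMove.slideBirth₁ i
    · exact LocalMove.slideBirth₂ i
  · intro j
    simp [forget]
  · intro d _
    have e1 : below [.birth i b, cr s (i + 1)] L.length d =
        some (L.length + 2, swpD (i + 1) (insD i b d)) := by
      simp only [below, below_b, below_d, below_cr]
      rw [if_pos (by omega)]
      simp only [Option.bind_some]
      rw [if_pos (by omega)]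
      rfl
    have e2 : below [.birth (i + 1) b, cr (!s) i] L.length d =
        some (L.length + 2, swpD i (insD (i + 1) b d)) := by
      simp only [below, below_b, below_d, below_cr]
      rw [if_pos (by omega)]
      simp only [Option.bind_some]
      rw [if_pos (by omega)]
      rfl
    have e3 : swpD (i + 1) (insD i b d) = swpD i (insD (i + 1) b d) := by
      funext k
      unfold swpD insD
      rcases lt_trichotomy k i with h | h | h
      · simp [show k ≠ i + 1 by omega, show k ≠ i + 1 + 1 by omega, show k ≠ i by omega, h,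
          show k < i + 1 by omega]
      · subst h
        simp [show ¬ k = k + 1 + 1 by omega]
      · rcases Nat.lt_or_ge (i + 1) k with h' | h'
        · rcases Nat.lt_or_ge (i + 2) k with h'' | h''
          · simp [show k ≠ i + 1 by omega, show k ≠ i + 1 + 1 by omega, show k ≠ i by omega,
              show ¬ k < i + 1 by omega, show ¬ k < i by omega]
          · have : k = i + 2 := by omega
            subst this
            simp
        · have : k = i + 1 := by omega
          subst this
          simp [show ¬ i + 1 + 1 < i by omega, show ¬ i + 1 + 1 = i by omega]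
    rw [e1, e2, e3]
    exact ⟨rfl, rfl⟩

theorem zig (hV1 : S_V1) {q : ℝ} {N : ℕ} (hq : 1 < q) (a b c : Bool) (L : List Bool) :
    Rl q N (a :: b :: c :: L) [.birth 2 c, .death 3] [] := by
  refine Rl_move hV1 hq _ _ _ (LocalMove.zigzag₁ 2) ?_ ?_
  · intro j
    simp [forget, OPiece.forget]
  · intro d hd
    simp only [List.length_cons, dlist_succ, List.cons.injEq] at hd
    obtain ⟨-, -, hd2, -⟩ := hd
    have e1 : below [.birth 2 c, .death 3] (a :: b :: c :: L).length d =
        some ((a :: b :: c :: L).length, d) := by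
      simp only [below, below_b, below_d, List.length_cons]
      rw [if_pos (by omega)]
      simp only [Option.bind_some]
      have e0 : insD 2 c d (3 + 1) = !insD 2 c d 3 := by
        simp [insD]
        rw [← hd2]
      rw [if_pos ⟨by omega, e0⟩]
      simp only [Option.bind_some]
      congr 2
      funext k
      rcases k with _ | _ | _ | k
      · simp [delD, insD]
      · simp [delD, insD]
      · simp [delD, insD, ← hd2]
      · simp [delD, insD]
    rw [e1]
    exact ⟨rfl, rfl⟩

theorem exCC (hV1 : S_V1) {q : ℝ} {N : ℕ} (hq : 1 < q) (s s' : Bool) (L : List Bool)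
    (hL : 4 ≤ L.length) : Rl q N L [cr s 0, cr s' 2] [cr s' 2, cr s 0] := by
  refine Rl_move hV1 hq _ _ _ ?_ ?_ ?_
  · cases s <;> cases s'
    · exact LocalMove.exchange (.pos 0) (.pos 2) (by decide)
    · exact LocalMove.exchange (.pos 0) (.neg 2) (by decide)
    · exact LocalMove.exchange (.neg 0) (.pos 2) (by decide)
    · exact LocalMove.exchange (.neg 0) (.neg 2) (by decide)
  · intro j
    simp [forget]
  · intro d _
    simp only [below, below_cr]
    rw [if_pos (by omega), if_pos (by omega)]
    simp only [Option.bind_some]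
    rw [if_pos (by omega), if_pos (by omega)]
    simp only [Option.bind_some, Option.isSome_some, and_true]
    congr 2
    funext k
    rcases k with _ | _ | _ | _ | k <;> simp [swpD]

theorem exCD (hV1 : S_V1) {q : ℝ} {N : ℕ} (hq : 1 < q) (s : Bool) (i : ℕ) (hi : i < 2)
    (a b c e g : Bool) (L : List Bool) (hg : g = !e) :
    Rl q N (a :: b :: c :: e :: g :: L) [cr s i, .death 3] [.death 3, cr s i] := by
  refine Rl_move hV1 hq _ _ _ ?_ ?_ ?_
  · cases s
    · exact LocalMove.exchange (.pos i) (.death 3) (by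
        simp only [Piece.index, Piece.ins]; omega)
    · exact LocalMove.exchange (.neg i) (.death 3) (by
        simp only [Piece.index, Piece.ins]; omega)
  · intro j
    simp [forget]
  · intro d hd
    simp only [List.length_cons, dlist_succ, List.cons.injEq] at hd
    obtain ⟨-, -, -, hd3, hd4, -⟩ := hd
    simp only [below, below_cr, below_d, List.length_cons]
    have e1 : swpD i d (3 + 1) = !swpD i d 3 := by
      unfold swpD
      rw [if_neg (by omega), if_neg (by omega), if_neg (by omega), if_neg (by omega)]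
      simp only [zero_add] at hd3 hd4
      rw [hd3, show d (3 + 1) = g from hd4, hg]
    have e2 : d (3 + 1) = !d 3 := by
      simp only [zero_add] at hd3 hd4
      rw [hd3, show d (3 + 1) = g from hd4, hg]
    rw [if_pos (by omega), if_pos ⟨by omega, e2⟩]
    simp only [Option.bind_some]
    rw [if_pos ⟨by omega, e1⟩, if_pos (by omega)]
    simp only [Option.bind_some, Option.isSome_some, and_true]
    congr 2
    funext k
    rcases i with _ | _ | i
    · rcases k with _ | _ | _ | _ | k <;> simp [swpD, delD]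
    · rcases k with _ | _ | _ | _ | k <;> simp [swpD, delD]
    · omega

theorem exBC (hV1 : S_V1) {q : ℝ} {N : ℕ} (hq : 1 < q) (s b : Bool) (L : List Bool)
    (hL : 2 ≤ L.length) : Rl q N L [.birth 0 b, cr s 2] [cr s 0, .birth 0 b] := by
  refine Rl_move hV1 hq _ _ _ ?_ ?_ ?_
  · cases s
    · exact LocalMove.exchange (.birth 0) (.pos 0) (by decide)
    · exact LocalMove.exchange (.birth 0) (.neg 0) (by decide)
  · intro j
    simp [forget, OPiece.forget]
  · intro d _
    simp only [below, below_cr, below_b]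
    rw [if_pos (by omega), if_pos (by omega)]
    simp only [Option.bind_some]
    rw [if_pos (by omega), if_pos (by omega)]
    simp only [Option.bind_some, Option.isSome_some, and_true]
    congr 2
    funext k
    rcases k with _ | _ | _ | _ | k <;> simp [swpD, insD]

theorem r2 (hV1 : S_V1) {q : ℝ} {N : ℕ} (hq : 1 < q) (s : Bool) (i : ℕ) (L : List Bool)
    (hL : i + 2 ≤ L.length) : Rl q N L [cr s i, cr (!s) i] [] := by
  refine Rl_move hV1 hq _ _ _ ?_ ?_ ?_
  · cases s
    · exact LocalMove.second₁ i
    · exact LocalMove.second₂ i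
  · intro j
    simp [forget]
  · intro d _
    simp only [below, below_cr]
    rw [if_pos hL]
    simp only [Option.bind_some]
    rw [if_pos hL]
    simp only [Option.bind_some, Option.isSome_some, and_true]
    congr 2
    funext k
    unfold swpD
    by_cases h1 : k = i
    · subst h1; simp
    · by_cases h2 : k = i + 1
      · subst h2; simp
      · simp [h1, h2]

/-- the third move with the directions `a, b, c` -/
def R3 (q : ℝ) (N : ℕ) (s1 s2 s3 a b c : Bool) : Prop := ∀ L : List Bool,
  Rl q N (a :: b :: c :: L) [cr s1 0, cr s2 1, cr s3 0] [cr s3 1, cr s2 0, cr s1 1]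

theorem R3.shift {q : ℝ} {N : ℕ} {s1 s2 s3 a b c : Bool} (h : R3 q N s1 s2 s3 a b c) (x : Bool)
    (L : List Bool) : Rl q N (x :: a :: b :: c :: L) [cr s1 1, cr s2 2, cr s3 1]
      [cr s3 2, cr s2 1, cr s1 2] := by
  intro f s hs
  cases s with
  | nil => simp at hs
  | cons y s =>
    simp only [List.map_cons, List.cons.injEq] at hs
    have := h L (fun r => f (y :: r)) s hs.2
    simp only [opWV, opV_cr, atPos] at this ⊢
    exact this

theorem rotate (hV1 : S_V1) {q : ℝ} {N : ℕ} (hq : 1 < q) (s1 s2 s3 a b c : Bool)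
    (h : R3 q N s1 s2 s3 (!c) a b) : R3 q N s3 (!s1) (!s2) a b c := by
  intro L
  have hA : Rl q N (a :: b :: c :: L) [.birth 0 c, cr s1 1, cr s2 2, cr s3 1, .death 3]
      [cr (!s2) 1, cr (!s1) 0, cr s3 1] := by
    refine Rl.trans (Rl.mid [] [cr s2 2, cr s3 1, .death 3] rfl (slideB hV1 hq _ 0 c s1 (by simp))) ?_
    refine Rl.trans (Rl.mid [.birth 1 c] [cr s3 1, .death 3] (L' := a :: c :: (!c) :: b :: c :: L)
      (by rfl) (exCC hV1 hq (!s1) s2 _ (by simp))) ?_
    refine Rl.trans (Rl.mid [] [cr (!s1) 0, cr s3 1, .death 3] rfl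
      (slideB hV1 hq _ 1 c s2 (by simp))) ?_
    refine Rl.trans (Rl.mid [.birth 2 c, cr (!s2) 1, cr (!s1) 0] []
      (L' := c :: a :: b :: (!c) :: c :: L)
      (by simp only [belLW, belL_cr]; rfl) (exCD hV1 hq s3 1 (by omega) _ _ _ _ _ _ (by simp))) ?_
    refine Rl.trans (Rl.mid [.birth 2 c, cr (!s2) 1] [cr s3 1]
      (L' := a :: c :: b :: (!c) :: c :: L)
      (by simp only [belLW, belL_cr]; rfl) (exCD hV1 hq (!s1) 0 (by omega) _ _ _ _ _ _ (by simp))) ?_
    refine Rl.trans (Rl.mid [.birth 2 c] [cr (!s1) 0, cr s3 1]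
      (L' := a :: b :: c :: (!c) :: c :: L)
      (by rfl) (exCD hV1 hq (!s2) 1 (by omega) _ _ _ _ _ _ (by simp))) ?_
    exact Rl.mid [] [cr (!s2) 1, cr (!s1) 0, cr s3 1] rfl (zig hV1 hq a b c L)
  have hB : Rl q N (a :: b :: c :: L) [.birth 0 c, cr s3 2, cr s2 1, cr s1 2, .death 3]
      [cr s3 0, cr (!s1) 1, cr (!s2) 0] := by
    refine Rl.trans (Rl.mid [] [cr s2 1, cr s1 2, .death 3] rfl (exBC hV1 hq s3 c _ (by simp))) ?_
    refine Rl.trans (Rl.mid [cr s3 0] [cr s1 2, .death 3] (L' := b :: a :: c :: L)
      (by simp only [belLW, belL_cr]; rfl) (slideB hV1 hq _ 0 c s2 (by simp))) ?_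
    refine Rl.trans (Rl.mid [cr s3 0, .birth 1 c] [.death 3] (L' := b :: c :: (!c) :: a :: c :: L)
      (by simp only [belLW, belL_cr]; rfl) (exCC hV1 hq (!s2) s1 _ (by simp))) ?_
    refine Rl.trans (Rl.mid [cr s3 0] [cr (!s2) 0, .death 3] (L' := b :: a :: c :: L)
      (by simp only [belLW, belL_cr]; rfl) (slideB hV1 hq _ 1 c s1 (by simp))) ?_
    refine Rl.trans (Rl.mid [cr s3 0, .birth 2 c, cr (!s1) 1] []
      (L' := b :: c :: a :: (!c) :: c :: L)
      (by simp only [belLW, belL_cr]; rfl) (exCD hV1 hq (!s2) 0 (by omega) _ _ _ _ _ _ (by simp))) ?_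
    refine Rl.trans (Rl.mid [cr s3 0, .birth 2 c] [cr (!s2) 0]
      (L' := b :: a :: c :: (!c) :: c :: L)
      (by simp only [belLW, belL_cr]; rfl) (exCD hV1 hq (!s1) 1 (by omega) _ _ _ _ _ _ (by simp))) ?_
    exact Rl.mid [cr s3 0] [cr (!s1) 1, cr (!s2) 0] (L' := b :: a :: c :: L)
      (by simp only [belLW, belL_cr]; rfl) (zig hV1 hq b a c L)
  have hC : Rl q N (a :: b :: c :: L) [.birth 0 c, cr s1 1, cr s2 2, cr s3 1, .death 3]
      [.birth 0 c, cr s3 2, cr s2 1, cr s1 2, .death 3] :=
    Rl.mid [.birth 0 c] [.death 3] (L' := c :: (!c) :: a :: b :: c :: L) rfl (h.shift c (c :: L))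
  exact (hB.symm.trans hC.symm).trans hA

theorem conj (hV1 : S_V1) {q : ℝ} {N : ℕ} (hq : 1 < q) (a b c : Bool)
    (h : R3 q N false false true a c b) : R3 q N false false false a b c := by
  intro L
  have h1 : Rl q N (a :: b :: c :: L) [cr false 0, cr false 1, cr false 0]
      [cr false 1, cr true 1, cr false 0, cr false 1, cr false 0] :=
    (Rl.mid [] [cr false 0, cr false 1, cr false 0] rfl (r2 hV1 hq false 1 _ (by simp))).symm
  refine Rl.trans h1 ?_
  refine Rl.trans (Rl.mid [cr false 1] [cr false 0] (L' := a :: c :: b :: L)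
    (by simp only [belLW, belL_cr]; rfl) (h L).symm) ?_
  exact Rl.mid [cr false 1, cr false 0, cr false 1] [] (L' := c :: b :: a :: L)
    (by simp only [belLW, belL_cr]; rfl) (r2 hV1 hq true 0 _ (by simp))

theorem crossL_par (q : ℝ) {N : ℕ} (s b : Bool) (f : VF N) (c d : Fin N) (st : VS N) :
    crossL q s f ((b, c) :: (b, d) :: st) =
      if c = d then (if s then q⁻¹ else q) * f ((b, c) :: (b, c) :: st)
        else f ((b, d) :: (b, c) :: st) +
          (if ordP s b c d then (if s then -(q - q⁻¹) else q - q⁻¹) * f ((b, c) :: (b, d) :: st)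
            else 0) := by
  simp only [crossL, if_true]

theorem tri {N : ℕ} (c d : Fin N) : (c < d ∧ ¬ c = d ∧ ¬ d = c ∧ ¬ d < c) ∨ c = d ∨
    (d < c ∧ ¬ c = d ∧ ¬ d = c ∧ ¬ c < d) := by
  rcases lt_trichotomy c d with h | h | h
  · exact Or.inl ⟨h, h.ne, h.ne', h.not_gt⟩
  · exact Or.inr (Or.inl h)
  · exact Or.inr (Or.inr ⟨h, h.ne', h.ne, h.not_gt⟩)

/-- parallel strands -/
theorem direct (q : ℝ) (hq : 1 < q) (N : ℕ) (s1 s2 s3 b : Bool) (h : s1 = s2 ∨ s2 = s3) :
    R3 q N s1 s2 s3 b b b := by
  intro L f st hst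
  have hq0 : q ≠ 0 := by positivity
  rcases st with _ | ⟨⟨b1, c1⟩, _ | ⟨⟨b2, c2⟩, _ | ⟨⟨b3, c3⟩, st⟩⟩⟩
  · simp at hst
  · simp at hst
  · simp at hst
  simp only [List.map_cons, List.cons.injEq] at hst
  obtain ⟨h1, h2, h3, -⟩ := hst
  subst h1 h2 h3
  simp only [opWV, opV_cr, atPos, crossL_par]
  cases b3 <;> cases s1 <;> cases s2 <;> cases s3 <;> first
  | (exfalso; simp at h; done)
  | (rcases tri c1 c2 with ⟨h1, h2, h3, h4⟩ | h1 | ⟨h1, h2, h3, h4⟩ <;>
     rcases tri c1 c3 with ⟨k1, k2, k3, k4⟩ | k1 | ⟨k1, k2, k3, k4⟩ <;>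
     rcases tri c2 c3 with ⟨l1, l2, l3, l4⟩ | l1 | ⟨l1, l2, l3, l4⟩ <;>
     first
     | (exfalso; order)
     | (simp [ordP, *]; done)
     | (simp [ordP, *]; ring1)
     | (simp [ordP, *]; field_simp <;> ring1))

theorem R3_all (hV1 : S_V1) {q : ℝ} {N : ℕ} (hq : 1 < q) (a b c : Bool) :
    R3 q N false false false a b c := by
  have A : ∀ x : Bool, R3 q N false false false x x (!x) := by
    intro x
    have := rotate hV1 hq true true false x x (!x) (by
      rw [Bool.not_not]; exact direct q hq N _ _ _ x (Or.inl rfl))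
    exact this
  have B : ∀ x : Bool, R3 q N true true false x x (!x) := by
    intro x
    have := rotate hV1 hq false true true x x (!x) (by
      rw [Bool.not_not]; exact direct q hq N _ _ _ x (Or.inr rfl))
    exact this
  have C : ∀ x : Bool, R3 q N false false true x x (!x) := by
    intro x
    have := rotate hV1 hq true false false x x (!x) (by
      rw [Bool.not_not]; exact direct q hq N _ _ _ x (Or.inr rfl))
    exact this
  have A' : ∀ x : Bool, R3 q N false false false x (!x) (!x) := by
    intro x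
    have := rotate hV1 hq true true false x (!x) (!x) (by
      rw [Bool.not_not]; exact B x)
    exact this
  have C' : ∀ x : Bool, R3 q N false false false x (!x) x := fun x => conj hV1 hq x (!x) x (C x)
  cases a <;> cases b <;> cases c
  · exact direct q hq N _ _ _ _ (Or.inl rfl)
  · exact A false
  · exact C' false
  · exact A' false
  · exact A' true
  · exact C' true
  · exact A true
  · exact direct q hq N _ _ _ _ (Or.inl rfl)

theorem t_V2 (hV1 : S_V1) : S_V2 := by
  intro q N n i
  induction i generalizing n with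
  | zero =>
    intro d hq hn f s hs
    obtain ⟨m, rfl⟩ : ∃ m, n = m + 3 := ⟨n - 3, by omega⟩
    rw [show m + 3 = m + 1 + 1 + 1 by ring, dlist_succ, dlist_succ, dlist_succ] at hs
    rw [one_mul]
    exact R3_all hV1 hq _ _ _ _ f s hs
  | succ i ih =>
    intro d hq hn f s hs
    obtain ⟨m, rfl⟩ : ∃ m, n = m + 1 := ⟨n - 1, by omega⟩
    rw [dlist_succ] at hs
    cases s with
    | nil => simp at hs
    | cons y s =>
      simp only [List.map_cons, List.cons.injEq] at hs
      have := ih m (fun k => d (k + 1)) hq (by omega) (fun r => f (y :: r)) s hs.2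
      simp only [opWV, opV, atPos] at this ⊢
      exact this

end Pool.Agent.Helper82_Alt.PV2
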