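import Pool.Agent.Helper82_Alt.F1
import Pool.Agent.Helper82_Alt.B1
import Pool.Agent.Helper82_Alt.B2
import Pool.Agent.Helper82_Alt.D1
import Pool.Agent.Helper82_Alt.D2
import Pool.Agent.Helper82_Alt.Q
import Pool.Agent.Helper82_Alt.L
import Pool.Agent.Helper82_Alt.K1
import Pool.Agent.Helper82_Alt.K2
import Pool.Agent.Helper82_Alt.K3
import Pool.Agent.Helper82_Alt.V1
import Pool.Agent.Helper82_Alt.V2
import Pool.Agent.Helper82_Alt.V
import Pool.Agent.Helper82_Alt.W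
import Pool.Agent.Helper82_Alt.Sig
import Pool.Agent.H560R3.TG.Bound3

/-! Assembly: the degrees of the two polynomials, for connected reduced alternating diagrams. -/

set_option autoImplicit false
set_option linter.unusedSimpArgs false

namespace Pool.Agent.Helper82_Alt.PF

open LaurentPolynomial
open Pool.Agent.Helper454.Kauf (Piece Word Raz KauffmanRules circle Closed RegIsotopic aPow zVar)
open Pool.Agent.Helper454.Wh (OPiece OWord below noD forget OClosed Rlm dirs ocircle HomflyRules lPow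
  mPow IsHomfly)

theorem c_L1 : S_L1 := PL.t_L1
theorem c_L2 : S_L2 := PL.t_L2
theorem c_L3 : S_L3 := PL.t_L3
theorem c_L4 : S_L4 := PL.t_L4
theorem c_Q : S_Q := PQ.t_Q c_L1 c_L2 c_L3 c_L4
theorem c_D2 : S_D2 := PD2.t_D2 c_Q
theorem c_D1 : S_D1 := PD1.t_D1
theorem c_W1 : S_W1 := PW.t_W1
theorem c_W2 : S_W2 := PW.t_W2
theorem c_W3 : S_W3 := PW.t_W3
theorem c_K1 : S_K1 := PK1.t_K1
theorem c_K2 : S_K2 := PK2.t_K2 c_W1 c_W2
theorem c_K3 : S_K3 := PK3.t_K3
theorem c_V1 : S_V1 := PV.t_V1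
theorem c_V2 : S_V2 := PV2.t_V2 c_V1
theorem c_V3 : S_V3 := PV.t_V3
theorem c_V4 : S_V4 := PV.t_V4
theorem c_V : S_V := PV.t_V c_V1 c_V2 c_V3 c_V4 c_W1 c_W2
theorem c_B1 : S_B1 := t_B1
theorem c_B2 : S_B2 := PB2.t_B2 (fun _ hG w hw hne => span hG w hw hne) c_W1 c_W3

abbrev R2 : Type := LaurentPolynomial (LaurentPolynomial ℤ)

/-- `ℝ` as a module over the polynomial ring -/
@[reducible] noncomputable def RM (φ : R2 →+* ℝ) : Module R2 ℝ := Module.compHom ℝ φ

theorem K_ev {K : Word → Raz} (hK : KauffmanRules K) (hc : K circle = 1) (a z : ℝˣ) (Λ : Word → ℝ)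
    (hΛ : KR (a : ℝ) ((a : ℝ)⁻¹) z Λ) (D : Word) (hD : Closed D) (hne : D ≠ []) :
    Λ D = ev2 a z (K D) * Λ circle := by
  letI := RM (ev2 a z)
  have hs : ∀ (p : Raz) (x : ℝ), p • x = ev2 a z p * x := fun _ _ => rfl
  have ha1 : ∀ x : ℝ, aPow 1 • x = a * x := fun x => by rw [hs, aPow, ev2_T, zpow_one]
  have ha2 : ∀ x : ℝ, aPow (-1) • x = (a : ℝ)⁻¹ * x := fun x => by
    rw [hs, aPow, ev2_T, zpow_neg, zpow_one]
  have hz : ∀ x : ℝ, zVar • x = z * x := fun x => by rw [hs, zVar, ev2_C_T, zpow_one]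
  have hR : KauffmanRules (M := Raz × ℝ) (fun D => (K D, Λ D)) := by
    constructor
    · intro D E h; exact Prod.ext (hK.regular D E h) (hΛ.regular D E h)
    · intro x i y h
      exact Prod.ext (hK.birthPos x i y h) ((hΛ.birthPos x i y h).trans (ha2 _).symm)
    · intro x i y h
      exact Prod.ext (hK.birthNeg x i y h) ((hΛ.birthNeg x i y h).trans (ha1 _).symm)
    · intro x i y h
      exact Prod.ext (hK.deathPos x i y h) ((hΛ.deathPos x i y h).trans (ha2 _).symm)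
    · intro x i y h
      exact Prod.ext (hK.deathNeg x i y h) ((hΛ.deathNeg x i y h).trans (ha1 _).symm)
    · intro x i y h
      exact Prod.ext (hK.skein x i y h) ((hΛ.skein x i y h).trans (hz _).symm)
  obtain ⟨p, _, hp⟩ := c_B1 (Raz × ℝ) _ hR D hD hne
  have h1 : K D = p • K circle := congrArg Prod.fst hp
  have h2 : Λ D = p • Λ circle := congrArg Prod.snd hp
  rw [hc, smul_eq_mul, mul_one] at h1
  rw [h1, h2, hs]

theorem K_fil {K : Word → Raz} (hK : KauffmanRules K) (hc : K circle = 1) (D : Word)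
    (hD : Closed D) (hne : D ≠ []) (j k : ℤ) (h : cf (K D) (j, k) ≠ 0) : j + k ≤ crs D := by
  obtain ⟨p, hp1, hp⟩ := c_B1 Raz _ hK D hD hne
  rw [hc, smul_eq_mul, mul_one] at hp
  rw [hp] at h
  exact hp1 j k h

theorem P_ev {P : OWord → Rlm} (hP : IsHomfly P) (l m : ℝˣ) (Λ : OWord → ℝ)
    (hΛ : HomflyRules (R := ℝ) (l : ℝ) ((l : ℝ)⁻¹) (m : ℝ) Λ) (D : OWord) (hD : OClosed D)
    (hne : D ≠ []) : Λ D = ev2 m l (P D) * Λ ocircle := by
  letI := RM (ev2 m l)
  have hs : ∀ (p : Rlm) (x : ℝ), p • x = ev2 m l p * x := fun _ _ => rfl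
  have hl1 : ∀ x : ℝ, lPow 1 • x = l * x := fun x => by rw [hs, lPow, ev2_C_T, zpow_one]
  have hl2 : ∀ x : ℝ, lPow (-1) • x = (l : ℝ)⁻¹ * x := fun x => by
    rw [hs, lPow, ev2_C_T, zpow_neg, zpow_one]
  have hm : ∀ x : ℝ, mPow 1 • x = m * x := fun x => by rw [hs, mPow, ev2_T, zpow_one]
  have hR : HomflyRules (lPow 1) (lPow (-1)) (mPow 1) (M := Rlm × ℝ) (fun D => (P D, Λ D)) := by
    constructor
    · intro D E h; exact Prod.ext (hP.1.isotopy D E h) (hΛ.isotopy D E h)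
    · intro x i y h1 h2
      refine Prod.ext (hP.1.parallel x i y h1 h2) ?_
      have := hΛ.parallel x i y h1 h2
      simp only [smul_eq_mul] at this
      show lPow (-1) • Λ _ - lPow 1 • Λ _ = mPow 1 • Λ _
      rw [hl1, hl2, hm]
      exact this
    · intro x i y h1 h2
      refine Prod.ext (hP.1.antiparallel x i y h1 h2) ?_
      have := hΛ.antiparallel x i y h1 h2
      simp only [smul_eq_mul] at this
      show lPow (-1) • Λ _ - lPow 1 • Λ _ = mPow 1 • Λ _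
      rw [hl1, hl2, hm]
      exact this
  obtain ⟨p, _, hp⟩ := c_B2 (Rlm × ℝ) _ hR D hD hne
  have h1 : P D = p • P ocircle := congrArg Prod.fst hp
  have h2 : Λ D = p • Λ ocircle := congrArg Prod.snd hp
  rw [hP.2, smul_eq_mul, mul_one] at h1
  rw [h1, h2, hs]

theorem P_fil {P : OWord → Rlm} (hP : IsHomfly P) (D : OWord) (hD : OClosed D) (hne : D ≠ [])
    (j k : ℤ) (h : cf (P D) (j, k) ≠ 0) : writhe D - k + j ≤ crs (forget D) := by
  obtain ⟨p, hp1, hp⟩ := c_B2 Rlm _ hP.1 D hD hne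
  rw [hP.2, smul_eq_mul, mul_one] at hp
  rw [hp] at h
  exact hp1 j k h

end Pool.Agent.Helper82_Alt.PF
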