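import Pool.Agent.Helper82_Alt.F2

/-! Assembly: the degrees of the two polynomials, for connected reduced alternating diagrams. -/

set_option autoImplicit false
set_option linter.unusedSimpArgs false

namespace Pool.Agent.Helper82_Alt.PF

open LaurentPolynomial
open Pool.Agent.Helper454.Kauf (Piece Word Raz KauffmanRules circle Closed RegIsotopic aPow zVar
  normalised exponentsInv)
open Pool.Agent.Helper454.Wh (OPiece OWord below noD forget OClosed Rlm dirs ocircle HomflyRules lPow
  mPow IsHomfly)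

theorem oclosed_closed {D : OWord} (h : OClosed D) : Closed (forget D) := PB2.closed_forget h

theorem fExp_least {K : Word → Raz} {D : OWord} {jm : ℤ}
    (h : IsGreatest {j | (K (forget D)).coeff j ≠ 0} jm) :
    IsLeast (fExponents K D) (writhe D - jm) := by
  have e : ∀ n, n ∈ fExponents K D ↔ (K (forget D)).coeff (writhe D - n) ≠ 0 := by
    intro n
    unfold fExponents exponentsInv normalised
    rw [Set.mem_setOf_eq, invert_apply, aPow, LT_mul_coeff]
    rw [show -n - -writhe D = writhe D - n by ring]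
  constructor
  · rw [e]
    rw [show writhe D - (writhe D - jm) = jm by ring]
    exact h.1
  · intro n hn
    rw [e] at hn
    have := h.2 hn
    omega

theorem exists_greatest (p : R2) (hp : p ≠ 0) : ∃ j, IsGreatest {j | p.coeff j ≠ 0} j := by
  have h1 : p.coeff.support.Nonempty := by
    rw [Finset.nonempty_iff_ne_empty]
    intro h
    apply hp
    exact AddMonoidAlgebra.coeff_eq_zero.1 (Finsupp.support_eq_empty.1 h)
  refine ⟨p.coeff.support.max' h1, ?_, ?_⟩
  · have := Finset.max'_mem _ h1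
    exact Finsupp.mem_support_iff.1 this
  · intro j hj
    exact Finset.le_max' _ _ (Finsupp.mem_support_iff.2 hj)

theorem circle_le (t : ℝ) (t1 : 1 ≤ t) : |brk t circle| ≤ 2 * t ^ (2 : ℤ) := by
  have t0 : 0 < t := by linarith
  rw [(c_K1 t t0).2, abs_neg, abs_of_pos (by positivity)]
  have h3 : (t⁻¹) ^ 2 ≤ 1 := by
    rw [inv_pow]
    exact inv_le_one_of_one_le₀ (one_le_pow₀ t1)
  have h4 : (1 : ℝ) ≤ t ^ 2 := one_le_pow₀ t1
  have h5 : t ^ (2 : ℤ) = t ^ 2 := by norm_cast
  rw [h5]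
  linarith

/-- lower bound for the degree in `a` -/
theorem K_low {K : Word → Raz} (hK : KauffmanRules K) (hc : K circle = 1) (ε : ℕ) (D : Word)
    (hε : ε < 2) (hD : Closed D) (hne : D ≠ []) (hco : Connected D) (hre : Reduced D)
    (hpa : ParType ε D) : ∃ jm, IsGreatest {j | (K D).coeff j ≠ 0} jm ∧ K2 ε D - 2 ≤ 2 * jm := by
  obtain ⟨c, T, hc0, hT, hg⟩ := c_K3 ε D hε hD hne hco hre hpa
  -- the evaluation
  have hev : ∀ t : ℝ, ∀ ht : 0 < t, brk t D =
      ev2 (Units.mk0 (-t ^ 3) (neg_ne_zero.2 (by positivity)))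
        (Units.mk0 (t + t⁻¹) (by positivity)) (K D) * brk t circle := by
    intro t ht
    refine K_ev hK hc _ _ (brk t) ?_ D hD hne
    have := (c_K1 t ht).1
    have e : (-t ^ 3 : ℝ)⁻¹ = -(t⁻¹) ^ 3 := by
      rw [inv_neg, inv_pow]
    rw [Units.val_mk0, Units.val_mk0, e]
    exact this
  have hK0 : K D ≠ 0 := by
    intro h0
    have h1 := hg T le_rfl
    rw [hev T (by linarith), h0, map_zero, zero_mul, abs_zero] at h1
    have : 0 < c * T ^ ((crs D : ℤ) + K2 ε D) := by positivity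
    linarith
  obtain ⟨jm, hjm⟩ := exists_greatest (K D) hK0
  refine ⟨jm, hjm, ?_⟩
  obtain ⟨C, hC, hgr⟩ := growth (K D) 3 1 (2 * jm + crs D) (by
    intro j k h
    have h1 := K_fil hK hc D hD hne j k h
    have h2 : j ≤ jm := hjm.2 (by
      rw [Set.mem_setOf_eq]
      intro h0
      apply h
      unfold cf
      simp only [h0]
      rfl)
    omega)
  have hfin : ∀ t : ℝ, T ≤ t → c * t ^ ((crs D : ℤ) + K2 ε D) ≤ (2 * C) * t ^ (2 * jm + crs D + 2) := by
    intro t ht
    have t1 : 1 ≤ t := hT.trans ht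
    have t0 : 0 < t := by linarith
    refine (hg t ht).trans ?_
    rw [hev t t0, abs_mul]
    have h1 := hgr t (Units.mk0 (-t ^ 3) (neg_ne_zero.2 (by positivity)))
      (Units.mk0 (t + t⁻¹) (by positivity)) t1 ?_ ?_ ?_ ?_
    · have h2 : |brk t circle| ≤ 2 * t ^ (2 : ℤ) := circle_le t t1
      calc |(ev2 _ _) (K D)| * |brk t circle|
          ≤ (C * t ^ (2 * jm + crs D)) * (2 * t ^ (2 : ℤ)) := by
            apply mul_le_mul h1 h2 (abs_nonneg _) (by positivity)
        _ = _ := by
            rw [zpow_add₀ t0.ne' (2 * jm + crs D) 2]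
            ring
    · rw [Units.val_mk0, abs_neg, abs_of_pos (by positivity)]
      have : t ^ (3 : ℤ) = t ^ 3 := by norm_cast
      rw [this]
      have : 0 < t ^ 3 := by positivity
      linarith
    · rw [Units.val_mk0, abs_neg, abs_of_pos (by positivity)]
      have : t ^ (3 : ℤ) = t ^ 3 := by norm_cast
      rw [this]
      have : 0 < t ^ 3 := by positivity
      linarith
    · rw [Units.val_mk0, abs_of_pos (by positivity), zpow_one]
      have : t⁻¹ ≤ 1 := inv_le_one_of_one_le₀ t1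
      linarith
    · rw [Units.val_mk0, abs_of_pos (by positivity), zpow_one]
      have : 0 < t⁻¹ := by positivity
      linarith
  have := H560R3.TG.exp_le hc0 hfin
  omega

theorem exists_least (p : R2) (hp : p ≠ 0) : ∃ d, IsLeast (lExponents p) d := by
  classical
  have h1 : ∃ j, p.coeff j ≠ 0 := by
    by_contra hcon
    push Not at hcon
    exact hp (AddMonoidAlgebra.coeff_eq_zero.1 (Finsupp.ext hcon))
  obtain ⟨j, hj⟩ := h1
  have h2 : ∃ k, (p.coeff j).coeff k ≠ 0 := by
    by_contra hcon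
    push Not at hcon
    exact hj (AddMonoidAlgebra.coeff_eq_zero.1 (Finsupp.ext hcon))
  obtain ⟨k, hk⟩ := h2
  have h3 : ((sup2 p).filter (fun k => k ∈ lExponents p)).Nonempty :=
    ⟨k, Finset.mem_filter.2 ⟨(cf_mem (p := p) (j := j) (k := k) hk).2, ⟨j, hk⟩⟩⟩
  refine ⟨_, (Finset.mem_filter.1 (Finset.min'_mem _ h3)).2, ?_⟩
  rintro l ⟨i, hi⟩
  exact Finset.min'_le _ _ (Finset.mem_filter.2 ⟨(cf_mem (p := p) (j := i) (k := l) hi).2, ⟨i, hi⟩⟩)

/-- upper bound for the least degree in `l` -/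
theorem P_up {P : OWord → Rlm} (hP : IsHomfly P) (ε : ℕ) (D : OWord)
    (hε : ε < 2) (hD : OClosed D) (hne : D ≠ []) (hco : Connected (forget D))
    (hre : Reduced (forget D)) (hpa : ParType ε (forget D)) :
    ∃ dP, IsLeast (lExponents (P D)) dP ∧
      2 * dP ≤ crs (forget D) + writhe D - (K2 ε (forget D) - 2) := by
  have hne' : forget D ≠ [] := by
    intro h; apply hne; exact List.map_eq_nil_iff.1 h
  obtain ⟨c, T, hc0, hT, hg⟩ := c_K3 ε (forget D) hε (oclosed_closed hD) hne' hco hre hpa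
  -- the evaluation
  have hm : ∀ t : ℝ, 2 ≤ t → t ^ (-2 : ℤ) - t ^ (2 : ℤ) ≠ 0 ∧ t ^ (-2 : ℤ) ≤ 1 / 4 ∧
      4 ≤ t ^ (2 : ℤ) ∧ 0 < t ^ (-2 : ℤ) := by
    intro t ht
    have h1 : t ^ (2 : ℤ) = t ^ 2 := by norm_cast
    have h2 : 4 ≤ t ^ 2 := by nlinarith
    have h3 : t ^ (-2 : ℤ) = (t ^ 2)⁻¹ := by rw [zpow_neg, h1]
    have h4 : t ^ (-2 : ℤ) ≤ 1 / 4 := by
      rw [h3, inv_eq_one_div]
      exact one_div_le_one_div_of_le (by norm_num) h2
    refine ⟨?_, h4, by rw [h1]; exact h2, by positivity⟩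
    rw [h1]; intro h; linarith
  have hev : ∀ t : ℝ, ∀ ht : 2 ≤ t, (-t ^ 3) ^ (-writhe D) * brk t (forget D) =
      ev2 (Units.mk0 (t ^ (-2 : ℤ) - t ^ (2 : ℤ)) (hm t ht).1)
        (Units.mk0 (t ^ (-4 : ℤ)) (by positivity)) (P D) * brk t circle := by
    intro t ht
    have h1 := P_ev hP (Units.mk0 (t ^ (-4 : ℤ)) (by positivity))
      (Units.mk0 (t ^ (-2 : ℤ) - t ^ (2 : ℤ)) (hm t ht).1)
      (fun D => (-t ^ 3) ^ (-writhe D) * brk t (forget D)) ?_ D hD hne
    · have h2 : writhe ocircle = 0 := by decide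
      have h3 : forget ocircle = circle := rfl
      simp only [h2, h3, neg_zero, zpow_zero, one_mul] at h1
      exact h1
    · have e : (t ^ (-4 : ℤ))⁻¹ = t ^ (4 : ℤ) := by
        rw [← zpow_neg]; norm_num
      rw [Units.val_mk0, Units.val_mk0, e]
      exact c_K2 t (by linarith)
  have hP0 : P D ≠ 0 := by
    intro h0
    have t2 : 2 ≤ max T 2 := le_max_right _ _
    have h1 := hg (max T 2) (le_max_left _ _)
    have h2 := hev (max T 2) t2
    rw [h0, map_zero, zero_mul] at h2
    have h3 : (-(max T 2) ^ 3) ^ (-writhe D) ≠ 0 := by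
      apply zpow_ne_zero
      rw [neg_ne_zero]
      positivity
    have h4 : brk (max T 2) (forget D) = 0 := by
      rcases mul_eq_zero.1 h2 with h | h
      · exact absurd h h3
      · exact h
    rw [h4, abs_zero] at h1
    have : 0 < c * (max T 2) ^ ((crs (forget D) : ℤ) + K2 ε (forget D)) := by positivity
    linarith
  obtain ⟨dP, hdP⟩ := exists_least (P D) hP0
  refine ⟨dP, hdP, ?_⟩
  obtain ⟨C, hC, hgr⟩ := growth (P D) 2 (-4) (2 * (crs (forget D) - writhe D) - 2 * dP) (by
    intro j k h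
    have h1 := P_fil hP D hD hne j k h
    have h2 : dP ≤ k := hdP.2 ⟨j, h⟩
    omega)
  have hfin : ∀ t : ℝ, max T 2 ≤ t → c * t ^ ((crs (forget D) : ℤ) + K2 ε (forget D)) ≤
      (2 * C) * t ^ (3 * writhe D + (2 * (crs (forget D) - writhe D) - 2 * dP) + 2) := by
    intro t ht
    have t2 : 2 ≤ t := (le_max_right _ _).trans ht
    have tT : T ≤ t := (le_max_left _ _).trans ht
    have t1 : 1 ≤ t := by linarith
    have t0 : 0 < t := by linarith
    obtain ⟨m1, m2, m3, m4⟩ := hm t t2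
    refine (hg t tT).trans ?_
    have e1 : |brk t (forget D)| = t ^ (3 * writhe D) *
        |(-t ^ 3) ^ (-writhe D) * brk t (forget D)| := by
      rw [abs_mul, abs_zpow, abs_neg, abs_of_pos (by positivity : (0 : ℝ) < t ^ 3), ← mul_assoc]
      have : t ^ (3 * writhe D) * (t ^ 3) ^ (-writhe D) = 1 := by
        rw [show (t ^ 3 : ℝ) = t ^ (3 : ℤ) by norm_cast, ← zpow_mul, ← zpow_add₀ t0.ne']
        rw [show 3 * writhe D + 3 * -writhe D = 0 by ring, zpow_zero]
      rw [this, one_mul]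
    rw [e1, hev t t2, abs_mul]
    have h1 := hgr t (Units.mk0 (t ^ (-2 : ℤ) - t ^ (2 : ℤ)) m1)
      (Units.mk0 (t ^ (-4 : ℤ)) (by positivity)) t1 ?_ ?_ ?_ ?_
    · have h2 : |brk t circle| ≤ 2 * t ^ (2 : ℤ) := circle_le t t1
      calc t ^ (3 * writhe D) * (|(ev2 _ _) (P D)| * |brk t circle|)
          ≤ t ^ (3 * writhe D) *
            ((C * t ^ (2 * (crs (forget D) - writhe D) - 2 * dP)) * (2 * t ^ (2 : ℤ))) := by
            apply mul_le_mul_of_nonneg_left _ (by positivity)
            apply mul_le_mul h1 h2 (abs_nonneg _) (by positivity)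
        _ = _ := by
            rw [zpow_add₀ t0.ne' (3 * writhe D + _) 2, zpow_add₀ t0.ne' (3 * writhe D)]
            ring
    · rw [Units.val_mk0, abs_of_neg (by linarith)]
      linarith
    · rw [Units.val_mk0, abs_of_neg (by linarith)]
      linarith
    · rw [Units.val_mk0, abs_of_pos (by positivity)]
      have : 0 < t ^ (-4 : ℤ) := by positivity
      linarith
    · rw [Units.val_mk0, abs_of_pos (by positivity)]
      have : 0 < t ^ (-4 : ℤ) := by positivity
      linarith
  have := H560R3.TG.exp_le hc0 hfin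
  omega

end Pool.Agent.Helper82_Alt.PF
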