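import Pool.Agent.Helper82_Alt.F3

/-! Assembly: lower bound for the least degree of the HOMFLY polynomial, from the vertex model. -/

set_option autoImplicit false
set_option linter.unusedSimpArgs false

namespace Pool.Agent.Helper82_Alt.PF

open LaurentPolynomial
open Pool.Agent.Helper454.Kauf (Piece Word Raz KauffmanRules circle Closed RegIsotopic aPow zVar
  normalised exponentsInv)
open Pool.Agent.Helper454.Wh (OPiece OWord below noD forget OClosed Rlm dirs ocircle HomflyRules lPow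
  mPow IsHomfly)

theorem growth_contra (q : ℝ) (hq : 1 < q) (k : ℕ) (c C : ℝ) (hc : 0 < c) (N₀ : ℕ)
    (h : ∀ N : ℕ, N₀ ≤ N → c * q ^ N ≤ C * ((N : ℝ) + 1) ^ k) : False := by
  have h1 := isLittleO_pow_const_const_pow_of_one_lt (R := ℝ) k hq
  have h2 := (Asymptotics.isLittleO_iff.1 h1) (c := c / (2 * (|C| + 1) * q)) (by positivity)
  obtain ⟨N₁, hN₁⟩ := Filter.eventually_atTop.1 h2
  set N := max N₀ N₁
  have h3 := hN₁ (N + 1) (by omega)
  have h4 := h N (by omega)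
  rw [Real.norm_of_nonneg (by positivity), Real.norm_of_nonneg (by positivity)] at h3
  push_cast at h3
  have h5 : C * ((N : ℝ) + 1) ^ k ≤ |C| * (c / (2 * (|C| + 1) * q) * q ^ (N + 1)) := by
    refine (mul_le_mul_of_nonneg_right (le_abs_self C) (by positivity)).trans ?_
    exact mul_le_mul_of_nonneg_left h3 (abs_nonneg _)
  have h6 : |C| * (c / (2 * (|C| + 1) * q) * q ^ (N + 1)) = (|C| / (|C| + 1)) * (c / 2 * q ^ N) := by
    rw [pow_succ]
    have : |C| + 1 ≠ 0 := by positivity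
    have : q ≠ 0 := by positivity
    field_simp
  have h7 : |C| / (|C| + 1) ≤ 1 := by
    rw [div_le_one (by positivity)]
    linarith
  have h8 : 0 < c / 2 * q ^ N := by positivity
  have h9 : (|C| / (|C| + 1)) * (c / 2 * q ^ N) ≤ 1 * (c / 2 * q ^ N) :=
    mul_le_mul_of_nonneg_right h7 h8.le
  rw [h6] at h5
  have : c * q ^ N = 2 * (c / 2 * q ^ N) := by ring
  linarith

/-- the value of the vertex model on the circle -/
theorem ZV_circle (q : ℝ) (N : ℕ) : ZV q N ocircle = ∑ c : Fin N, q ^ lamZ c := by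
  unfold ZV ocircle
  simp only [opWV, opV, atPos, birthL, deathL]
  refine Finset.sum_congr rfl fun c _ => ?_
  simp [wB, wD, fz]

theorem ZV_circle_ge (q : ℝ) (hq : 1 < q) (N : ℕ) (hN : 1 ≤ N) :
    q ^ ((N : ℤ) - 1) ≤ ZV q N ocircle := by
  rw [ZV_circle]
  have h1 : q ^ lamZ (⟨N - 1, by omega⟩ : Fin N) ≤ ∑ c : Fin N, q ^ lamZ c :=
    Finset.single_le_sum (f := fun c : Fin N => q ^ lamZ c) (fun c _ => by positivity)
      (Finset.mem_univ _)
  have h2 : lamZ (⟨N - 1, by omega⟩ : Fin N) = (N : ℤ) - 1 := by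
    unfold lamZ
    simp only
    omega
  rw [h2] at h1
  exact h1

/-- upper bound for the vertex model -/
theorem ZV_le (ε : ℕ) (D : OWord) (hε : ε < 2) (hD : OClosed D) (hne : D ≠ [])
    (hco : Connected (forget D)) (hre : Reduced (forget D)) (hpa : ParType ε (forget D))
    (q : ℝ) (hq : 1 < q) (N : ℕ) (hN : 1 ≤ N) :
    (ZV q N D) ^ 2 ≤ (q * (N + 1)) ^ (2 * D.length) * q ^ (((N : ℤ) - 1) * K2 ε (forget D)) := by
  have hne' : forget D ≠ [] := by
    intro h; apply hne; exact List.map_eq_nil_iff.1 h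
  refine c_D1 q N D _ hq hN hD ?_
  intro r hr h0 hle
  have h1 := c_D2 ε (forget D) (N - 1) r hε (oclosed_closed hD) hne' hco hre hpa hr h0
  rw [Nat.cast_sub hN, Nat.cast_one] at h1
  exact h1 hle

/-- lower bound for the least degree in `l` -/
theorem P_lo {P : OWord → Rlm} (hP : IsHomfly P) (ε : ℕ) (D : OWord) (hε : ε < 2)
    (hD : OClosed D) (hne : D ≠ []) (hco : Connected (forget D)) (hre : Reduced (forget D))
    (hpa : ParType ε (forget D)) (dP : ℤ) (hdP : IsLeast (lExponents (P D)) dP) :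
    2 * writhe D - (K2 ε (forget D) - 2) ≤ 2 * dP := by
  by_contra hcon
  push Not at hcon
  obtain ⟨j₀, hj₀⟩ := hdP.1
  obtain ⟨m, hm0, hmne⟩ := exists_pos_ne (sup1 (P D)) (fun j => cf (P D) (j, dP)) j₀
    (cf_mem (p := P D) (j := j₀) (k := dP) hj₀).1 hj₀
  obtain ⟨q, hq, hqm⟩ := exists_q m hm0
  have q0 : 0 < q := by linarith
  have q1 : 1 ≤ q := hq.le
  set γ : ℤ → ℝ := fun k => ∑ j ∈ sup1 (P D), (cf (P D) (j, k) : ℝ) * m ^ j with hγ
  set κ := K2 ε (forget D) with hκ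
  set w := writhe D with hw
  have hγ0 : ∀ k, k < dP → γ k = 0 := by
    intro k hk
    rw [hγ]
    refine Finset.sum_eq_zero fun j _ => ?_
    have : cf (P D) (j, k) = 0 := by
      by_contra hne
      have := hdP.2 (show k ∈ lExponents (P D) from ⟨j, hne⟩)
      omega
    rw [this, Int.cast_zero, zero_mul]
  have hγd : γ dP ≠ 0 := hmne
  set G := ∑ k ∈ sup2 (P D), |γ k| with hG
  have hG0 : 0 ≤ G := Finset.sum_nonneg fun k _ => abs_nonneg _
  set A := |γ dP| / 2 with hA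
  have hA0 : 0 < A := by
    have := abs_pos.2 hγd
    positivity
  have hm' : m ≠ 0 := hm0.ne'
  have hl' : ∀ N : ℕ, q ^ (-(N : ℤ)) ≠ 0 := fun N => by positivity
  have hevs : ∀ N : ℕ, ev2 (Units.mk0 m hm') (Units.mk0 (q ^ (-(N : ℤ))) (hl' N)) (P D) =
      ∑ k ∈ sup2 (P D), γ k * q ^ (-(N : ℤ) * k) := by
    intro N
    rw [ev2_sum, Finset.sum_comm]
    refine Finset.sum_congr rfl fun k _ => ?_
    rw [hγ]
    simp only [Finset.sum_mul, Units.val_mk0]
    refine Finset.sum_congr rfl fun j _ => ?_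
    rw [← zpow_mul]
    ring
  have hlow : ∀ N : ℕ, G ≤ A * q ^ N →
      A * q ^ (-(N : ℤ) * dP) ≤
        |ev2 (Units.mk0 m hm') (Units.mk0 (q ^ (-(N : ℤ))) (hl' N)) (P D)| := by
    intro N hN
    have hmem : dP ∈ sup2 (P D) := (cf_mem (p := P D) (j := j₀) (k := dP) hj₀).2
    rw [hevs N, ← Finset.add_sum_erase _ _ hmem]
    have hsum : |∑ k ∈ (sup2 (P D)).erase dP, γ k * q ^ (-(N : ℤ) * k)| ≤
        G * q ^ (-(N : ℤ) * (dP + 1)) := by
      refine (Finset.abs_sum_le_sum_abs _ _).trans ?_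
      have h1 : ∑ k ∈ (sup2 (P D)).erase dP, |γ k * q ^ (-(N : ℤ) * k)| ≤
          ∑ k ∈ (sup2 (P D)).erase dP, |γ k| * q ^ (-(N : ℤ) * (dP + 1)) := by
        refine Finset.sum_le_sum fun k hk => ?_
        rw [abs_mul, abs_of_pos (by positivity : (0 : ℝ) < q ^ (-(N : ℤ) * k))]
        rcases lt_or_ge k dP with h | h
        · rw [hγ0 k h]; simp
        · have hk' : dP + 1 ≤ k := by
            have := (Finset.mem_erase.1 hk).1
            omega
          refine mul_le_mul_of_nonneg_left ?_ (abs_nonneg _)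
          apply zpow_le_zpow_right₀ q1
          have : (0 : ℤ) ≤ N := Nat.cast_nonneg _
          nlinarith
      refine h1.trans ?_
      rw [← Finset.sum_mul]
      refine mul_le_mul_of_nonneg_right ?_ (by positivity)
      exact Finset.sum_le_sum_of_subset_of_nonneg (Finset.erase_subset _ _)
        fun k _ _ => abs_nonneg _
    have e1 : q ^ (-(N : ℤ) * (dP + 1)) = (q ^ N)⁻¹ * q ^ (-(N : ℤ) * dP) := by
      rw [show -(N : ℤ) * (dP + 1) = -(N : ℤ) + -(N : ℤ) * dP by ring, zpow_add₀ q0.ne', zpow_neg,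
        zpow_natCast]
    have e2 : G * q ^ (-(N : ℤ) * (dP + 1)) ≤ A * q ^ (-(N : ℤ) * dP) := by
      rw [e1, ← mul_assoc]
      refine mul_le_mul_of_nonneg_right ?_ (by positivity)
      rw [← div_eq_mul_inv, div_le_iff₀ (by positivity)]
      exact hN
    have e3 : |γ dP * q ^ (-(N : ℤ) * dP)| = 2 * (A * q ^ (-(N : ℤ) * dP)) := by
      rw [abs_mul, abs_of_pos (by positivity : (0 : ℝ) < q ^ (-(N : ℤ) * dP)), hA]
      ring
    have e4 := abs_sub_abs_le_abs_sub (γ dP * q ^ (-(N : ℤ) * dP))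
      (-(∑ k ∈ (sup2 (P D)).erase dP, γ k * q ^ (-(N : ℤ) * k)))
    rw [sub_neg_eq_add, abs_neg, e3] at e4
    linarith
  -- large N
  obtain ⟨N₁, hN₁⟩ := pow_unbounded_of_one_lt (G / A) hq
  refine growth_contra q hq (2 * D.length) (A ^ 2 * q ^ (κ - 2)) (q ^ (2 * D.length))
    (by positivity) (max N₁ 1) ?_
  intro N hN
  have hN1 : 1 ≤ N := (le_max_right _ _).trans hN
  have hNN : N₁ ≤ N := (le_max_left _ _).trans hN
  have hGN : G ≤ A * q ^ N := by
    have h1 : q ^ N₁ ≤ q ^ N := pow_le_pow_right₀ q1 hNN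
    have h2 : G / A ≤ q ^ N := by linarith
    rw [div_le_iff₀ hA0] at h2
    linarith
  have h1 := hlow N hGN
  have h2 := ZV_circle_ge q hq N hN1
  -- the two functions
  have h3 := P_ev hP (Units.mk0 (q ^ (-(N : ℤ))) (hl' N)) (Units.mk0 m hm')
    (fun D => q ^ (-((N : ℤ) * writhe D)) * ZV q N D) (by
      have e : (q ^ (-(N : ℤ)))⁻¹ = q ^ (N : ℤ) := by rw [← zpow_neg, neg_neg]
      rw [Units.val_mk0, Units.val_mk0, e, ← hqm]
      exact c_V q N hq) D hD hne
  have hwo : writhe ocircle = 0 := by decide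
  simp only [hwo, mul_zero, neg_zero, zpow_zero, one_mul] at h3
  -- compare
  have h4 : A * q ^ (-(N : ℤ) * dP) * q ^ ((N : ℤ) - 1) ≤ |q ^ (-((N : ℤ) * w)) * ZV q N D| := by
    rw [h3, abs_mul]
    have : ZV q N ocircle ≤ |ZV q N ocircle| := le_abs_self _
    apply mul_le_mul h1 (h2.trans this) (by positivity) (abs_nonneg _)
  have h5 := ZV_le ε D hε hD hne hco hre hpa q hq N hN1
  have h6 : (A * q ^ (-(N : ℤ) * dP) * q ^ ((N : ℤ) - 1)) ^ 2 ≤
      (q ^ (-((N : ℤ) * w))) ^ 2 *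
        ((q * (N + 1)) ^ (2 * D.length) * q ^ (((N : ℤ) - 1) * κ)) := by
    have h7 := pow_le_pow_left₀ (by positivity) h4 2
    rw [sq_abs, mul_pow (q ^ (-((N : ℤ) * w)))] at h7
    exact h7.trans (mul_le_mul_of_nonneg_left h5 (by positivity))
  have h8 : (A * q ^ (-(N : ℤ) * dP) * q ^ ((N : ℤ) - 1)) ^ 2 =
      A ^ 2 * q ^ (-(2 * (N : ℤ) * dP) + 2 * (N - 1)) := by
    rw [mul_pow, mul_pow, mul_assoc]
    congr 1
    rw [← zpow_natCast, ← zpow_natCast, ← zpow_mul, ← zpow_mul, ← zpow_add₀ q0.ne']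
    congr 1
    push_cast
    ring
  have h9 : (q ^ (-((N : ℤ) * w))) ^ 2 *
        ((q * (N + 1)) ^ (2 * D.length) * q ^ (((N : ℤ) - 1) * κ)) =
      q ^ (-(2 * (N : ℤ) * w) + (N - 1) * κ) *
        (q ^ (2 * D.length) * ((N : ℝ) + 1) ^ (2 * D.length)) := by
    rw [mul_pow q, zpow_add₀ q0.ne']
    have : (q ^ (-((N : ℤ) * w))) ^ 2 = q ^ (-(2 * (N : ℤ) * w)) := by
      rw [← zpow_natCast, ← zpow_mul]
      congr 1
      push_cast
      ring
    rw [this]
    ring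
  rw [h8, h9] at h6
  -- divide
  have h10 : q ^ (κ - 2) * q ^ N ≤
      q ^ (-(-(2 * (N : ℤ) * w) + (N - 1) * κ)) * q ^ (-(2 * (N : ℤ) * dP) + 2 * (N - 1)) := by
    rw [← zpow_natCast, ← zpow_add₀ q0.ne', ← zpow_add₀ q0.ne']
    apply zpow_le_zpow_right₀ q1
    have : (1 : ℤ) ≤ N := by exact_mod_cast hN1
    nlinarith
  set X := q ^ (-(2 * (N : ℤ) * w) + (N - 1) * κ) with hX
  have hX0 : 0 < X := by positivity
  have hXi : q ^ (-(-(2 * (N : ℤ) * w) + (N - 1) * κ)) = X⁻¹ := by rw [zpow_neg]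
  rw [hXi] at h10
  calc A ^ 2 * q ^ (κ - 2) * q ^ N = A ^ 2 * (q ^ (κ - 2) * q ^ N) := by ring
    _ ≤ A ^ 2 * (X⁻¹ * q ^ (-(2 * (N : ℤ) * dP) + 2 * (N - 1))) :=
        mul_le_mul_of_nonneg_left h10 (by positivity)
    _ = X⁻¹ * (A ^ 2 * q ^ (-(2 * (N : ℤ) * dP) + 2 * (N - 1))) := by ring
    _ ≤ X⁻¹ * (X * (q ^ (2 * D.length) * ((N : ℝ) + 1) ^ (2 * D.length))) :=
        mul_le_mul_of_nonneg_left h6 (by positivity)
    _ = q ^ (2 * D.length) * ((N : ℝ) + 1) ^ (2 * D.length) := by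
        rw [← mul_assoc, inv_mul_cancel₀ hX0.ne', one_mul]

/-- what is proved for the two polynomials -/
def PD (P : OWord → Rlm) (K : Word → Raz) (D : Word) (β : ℤ) : Prop :=
  ∀ D' : OWord, forget D' = D → OClosed D' → ∃ jm dP, IsGreatest {j | (K D).coeff j ≠ 0} jm ∧
    IsLeast (lExponents (P D')) dP ∧ writhe D' - jm ≤ dP ∧ 2 * dP ≤ crs D + writhe D' - β

theorem pd_reduced {P : OWord → Rlm} {K : Word → Raz} (hP : IsHomfly P) (hK : KauffmanRules K)
    (hc : K circle = 1) (ε : ℕ) (D : Word) (hε : ε < 2) (hne : D ≠ [])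
    (hco : Connected D) (hre : Reduced D) (hpa : ParType ε D) : PD P K D (K2 ε D - 2) := by
  rintro D' rfl hD
  have hne' : D' ≠ [] := by
    rintro rfl; exact hne rfl
  obtain ⟨jm, hj1, hj2⟩ := K_low hK hc ε (forget D') hε (oclosed_closed hD) hne hco hre hpa
  obtain ⟨dP, hd1, hd2⟩ := P_up hP ε D' hε hD hne' hco hre hpa
  have hd3 := P_lo hP ε D' hε hD hne' hco hre hpa dP hd1
  exact ⟨jm, dP, hj1, hd1, by omega, hd2⟩

end Pool.Agent.Helper82_Alt.PF
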