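import Pool.Agent.Helper82_Alt.F4
import Pool.Agent.Helper454.Kauf.Exist10
import Pool.Agent.Helper454.Wh.Homf.E12

/-! The inequalities for connected reduced alternating diagrams. -/

set_option autoImplicit false

namespace Pool.Agent.Helper82_Alt.PF

open Pool.Agent.Helper454.Kauf (Piece Word Raz KauffmanRules circle Closed)
open Pool.Agent.Helper454.Wh (OWord forget OClosed Rlm IsHomfly)

theorem final1 :
    (∃ P : OWord → Rlm, IsHomfly P) ∧ (∃ K : Word → Raz, KauffmanRules K ∧ K circle = 1) ∧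
    ∀ (P : OWord → Rlm) (K : Word → Raz), IsHomfly P → KauffmanRules K → K circle = 1 →
      ∀ D : OWord, OClosed D → D ≠ [] → Alternating (forget D) → Connected (forget D) →
        Reduced (forget D) → ∃ dF dP σ : ℤ, IsLeast (fExponents K D) dF ∧
          IsLeast (lExponents (P D)) dP ∧ IsSignature D σ ∧ dF ≤ dP ∧ dP ≤ σ := by
  refine ⟨Helper454.Wh.Homf.exists_homfly, ⟨_, Helper454.Kauf.Ex.Lam_rules,
    Helper454.Kauf.Ex.Lam_circle⟩, ?_⟩
  intro P K hP hK hc D hD hne hal hco hre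
  have hne' : forget D ≠ [] := by
    intro h; apply hne; exact List.map_eq_nil_iff.1 h
  obtain ⟨ε, hε, hpa⟩ := PPar.t_par (forget D) (oclosed_closed hD) hco hal
  obtain ⟨jm, dP, h1, h2, h3, h4⟩ := pd_reduced hP hK hc ε (forget D) hε hne' hco hre hpa D rfl hD
  obtain ⟨σ, h5, h6⟩ := PSig.t_sig ε D hε hD hne hco hpa
  exact ⟨_, dP, σ, fExp_least h1, h2, h5, h3, by omega⟩

end Pool.Agent.Helper82_Alt.PF
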