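import Pool.Agent.Helper82_Alt.A10
import Pool.Agent.Helper82_Alt.Spec

/-!
# Phase 2: diagrams which are not connected or not reduced

Statements `S_…` as in `Spec.lean`.
-/

set_option autoImplicit false

namespace Pool.Agent.Helper82_Alt

open Pool.Agent.Helper454.Kauf (Piece Word Raz KauffmanRules circle Closed RegIsotopic aPow zVar
  LocalMove FirstMove width)
open Pool.Agent.Helper454.Wh (OPiece OWord below noD forget OClosed Rlm dirs ocircle HomflyRules lPow
  mPow IsHomfly)

/-! ### labelled words -/

/-- Words whose pieces carry the name (`true` or `false`) of a side. -/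
abbrev LW : Type := List (Piece × Bool)

def wd (L : LW) : Word := L.map Prod.fst

/-- Rows of sides: `s` lists the sides of the strands of a row. A piece with the side `b` acts on
strands of the side `b`. -/
def rstep : Piece → Bool → List Bool → Option (List Bool)
  | .birth i, b, s => if i ≤ s.length then some (s.take i ++ b :: b :: s.drop i) else none
  | .death i, b, s =>
      if s[i]? = some b ∧ s[i + 1]? = some b then some (s.take i ++ s.drop (i + 2)) else none
  | .pos i, b, s => if s[i]? = some b ∧ s[i + 1]? = some b then some s else none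
  | .neg i, b, s => if s[i]? = some b ∧ s[i + 1]? = some b then some s else none

/-- the row below a labelled word -/
def run : LW → List Bool → Option (List Bool)
  | [], s => some s
  | p :: L, s => (rstep p.1 p.2 s).bind (run L)

/-- the number of strands of the side `b` on the left of the strand `i` -/
def ct (b : Bool) (s : List Bool) (i : ℕ) : ℕ := (s.take i).count b

/-- the sub-diagram of the side `b` -/
def subw (b : Bool) : LW → List Bool → Word
  | [], _ => []
  | p :: L, s =>
      if p.2 = b then p.1.moved (ct b s p.1.index) :: subw b L ((rstep p.1 p.2 s).getD s)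
      else subw b L ((rstep p.1 p.2 s).getD s)

/-- `D` is a link diagram which consists of the two parts `Dt`, `Df` without common crossings. -/
def Spl (D Dt Df : Word) : Prop := ∃ L : LW, wd L = D ∧ run L [] = some [] ∧
  Dt = subw true L [] ∧ Df = subw false L []

/-- The crossing `cx b i` of the link diagram `x ++ cx b i :: y` is nugatory, its upper ends belong
to the part `true`, its lower ends to the part `false`, these parts have no other common crossings.
`Dt` is the part `true` (with a minimum in place of the upper ends of the crossing), `Df` is the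
part `false` (with a maximum in place of the lower ends). -/
def Nug (x y : Word) (i : ℕ) (Dt Df : Word) : Prop := ∃ (Lx Ly : LW) (s : List Bool),
  wd Lx = x ∧ wd Ly = y ∧ run Lx [] = some s ∧ s[i]? = some true ∧ s[i + 1]? = some true ∧
  run Ly ((s.set i false).set (i + 1) false) = some [] ∧
  Dt = subw true Lx [] ++ .death (ct true s i) :: subw true Ly ((s.set i false).set (i + 1) false) ∧
  Df = subw false Lx [] ++ .birth (ct false s i) :: subw false Ly ((s.set i false).set (i + 1) false)

/-! ### shuffles -/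

/-- the strand `k + n` moves to the position `k`, under the `n` strands on its left -/
def mvL (k : ℕ) : ℕ → Word
  | 0 => []
  | n + 1 => .neg (k + n) :: mvL k n

/-- From the row `true … true false … false` (after `k` other strands) to the row `s`; the strands
`true` pass over the strands `false`. -/
def sh : ℕ → List Bool → Word
  | _, [] => []
  | k, true :: s => sh (k + 1) s
  | k, false :: s => mvL k (s.count true) ++ sh (k + 1) s

/-- the piece moved to the right by `m` strands -/
def up (m : ℕ) (p : Piece) : Piece := p.moved (p.index + m)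

/-- where the piece `p` of the side `b` acts in the row `true … true false … false` which is
equivalent to the row `s` -/
def blk (b : Bool) (s : List Bool) (p : Piece) : Piece :=
  if b then p.moved (ct true s p.index) else p.moved (s.count true + ct false s p.index)

/-- A piece slides through a shuffle. -/
def S_shA : Prop := ∀ (n k : ℕ) (s s' : List Bool) (p : Piece) (b : Bool), k + s.length ≤ n →
  rstep p b s = some s' → E n (sh k s ++ [up k p]) (up k (blk b s p) :: sh k s')

/-- Words in different places commute: `w` acts on the first `m` strands (`m'` afterwards), `u` on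
the strands after them. -/
def S_shB : Prop := ∀ (n m m' : ℕ) (w u : Word) (k k' : ℕ), width w m = some m' →
  width u k = some k' → n = m + k →
  E n (u.map (up m) ++ w) (w ++ u.map (up m'))

/-! ### isotopies -/

/-- The two parts can be separated. -/
def S_splE : Prop := ∀ D Dt Df : Word, Spl D Dt Df → Closed D ∧ Closed Dt ∧ Closed Df ∧
  RegIsotopic D (Dt ++ Df)

/-- The two parts at a nugatory crossing can be separated. -/
def S_nugE : Prop := ∀ (x y : Word) (i : ℕ) (Dt Df : Word), Nug x y i Dt Df →
  Closed Dt ∧ Closed Df ∧ (∀ b, Closed (x ++ cx b i :: y)) ∧ ∃ V Y : Word,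
    width V 0 = some 2 ∧ width Y 2 = some 0 ∧
    (∀ b, RegIsotopic (x ++ cx b i :: y) (V ++ cx b 0 :: Y)) ∧
    RegIsotopic (V ++ [.death 0]) Dt ∧ RegIsotopic (.birth 0 :: Y) Df

/-- Rotating a crossing. -/
def S_rotE : Prop := ∀ (n i : ℕ) (b : Bool), i + 2 ≤ n →
  E n [cx b i] [.birth i, cx (!b) (i + 1), .death (i + 2)]

/-! ### products -/

/-- Tangles with two ends, Kauffman polynomial. -/
def S_tanK : Prop := ∀ (M : Type) [AddCommGroup M] [Module Raz M] (Λ : Word → M), KauffmanRules Λ →
  ∀ V : Word, width V 0 = some 2 →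
    ∃ q : Raz, ∀ Y, Closed (V ++ Y) → Λ (V ++ Y) = q • Λ (.birth 0 :: Y)

/-- Tangles with two ends, HOMFLY polynomial. -/
def S_tanP : Prop := ∀ (M : Type) [AddCommGroup M] [Module Rlm M] (Λ : OWord → M),
  HomflyRules (lPow 1) (lPow (-1)) (mPow 1) Λ → ∀ (V : OWord) (e : ℕ → Bool),
  below V 0 noD = some (2, e) →
    ∃ q : Rlm, ∀ Y, OClosed (V ++ Y) → Λ (V ++ Y) = q • Λ (.birth 0 (e 0) :: Y)

def S_nugK : Prop := ∀ K : Word → Raz, KauffmanRules K → K circle = 1 →
  ∀ (x y : Word) (i : ℕ) (Dt Df : Word) (b : Bool), Nug x y i Dt Df →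
    K (x ++ cx b i :: y) = aPow (sg b) * (K Dt * K Df)

def S_nugP : Prop := ∀ P : OWord → Rlm, IsHomfly P →
  ∀ (x y : Word) (i : ℕ) (Dt Df : Word) (b : Bool) (D : OWord), Nug x y i Dt Df →
    forget D = x ++ cx b i :: y → OClosed D →
    ∃ Dt' Df' : OWord, forget Dt' = Dt ∧ forget Df' = Df ∧ OClosed Dt' ∧ OClosed Df' ∧
      P D = P Dt' * P Df' ∧ writhe D = writhe Dt' + writhe Df' + sg b

def S_uniK : Prop := ∀ K : Word → Raz, KauffmanRules K → K circle = 1 →
  ∀ A B : Word, Closed A → Closed B → A ≠ [] → B ≠ [] →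
    zVar * K (A ++ B) = (aPow 1 + aPow (-1) - zVar) * (K A * K B)

def S_uniP : Prop := ∀ P : OWord → Rlm, IsHomfly P →
  ∀ A B : OWord, OClosed A → OClosed B → A ≠ [] → B ≠ [] →
    mPow 1 * P (A ++ B) = (lPow (-1) - lPow 1) * (P A * P B)

def S_splP : Prop := ∀ (D : OWord) (Dt Df : Word), OClosed D → Spl (forget D) Dt Df →
  ∃ Dt' Df' : OWord, forget Dt' = Dt ∧ forget Df' = Df ∧ OClosed Dt' ∧ OClosed Df' ∧
    writhe D = writhe Dt' + writhe Df' ∧ ∀ P : OWord → Rlm, IsHomfly P → P D = P (Dt' ++ Df')

/-! ### degrees -/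

def S_degL : Prop := ∀ (p q : Rlm) (a b : ℤ), IsLeast (lExponents p) a → IsLeast (lExponents q) b →
  IsLeast (lExponents (p * q)) (a + b)

def S_degA : Prop := ∀ (p q : Raz) (a b : ℤ), IsGreatest {j | p.coeff j ≠ 0} a →
  IsGreatest {j | q.coeff j ≠ 0} b → IsGreatest {j | (p * q).coeff j ≠ 0} (a + b)

/-! ### combinatorics of the parts -/

/-- A nugatory crossing gives two parts, after a rotation of the crossing if necessary. -/
def S_nugEx : Prop := ∀ (x y : Word) (i : ℕ) (b : Bool), Closed (x ++ cx b i :: y) →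
  Connected (x ++ cx b i :: y) → ¬ NotNugatory (x ++ cx b i :: y) x.length i →
  (∃ Dt Df, Nug x y i Dt Df) ∨ ∃ Dt Df, Nug (x ++ [.birth i]) (.death (i + 2) :: y) (i + 1) Dt Df

/-- Rotating a crossing does not change the other data. -/
def S_rotC : Prop := ∀ (x y : Word) (i : ℕ) (b : Bool), Closed (x ++ cx b i :: y) →
  (Connected (x ++ cx b i :: y) →
    Connected (x ++ [.birth i] ++ cx (!b) (i + 1) :: (.death (i + 2) :: y))) ∧
  ∀ ε, ε < 2 → ParType ε (x ++ cx b i :: y) →
    ParType ε (x ++ [.birth i] ++ cx (!b) (i + 1) :: (.death (i + 2) :: y)) ∧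
    K2 ε (x ++ [.birth i] ++ cx (!b) (i + 1) :: (.death (i + 2) :: y)) = K2 ε (x ++ cx b i :: y) ∧
    crs (x ++ [.birth i] ++ cx (!b) (i + 1) :: (.death (i + 2) :: y)) = crs (x ++ cx b i :: y)

/-- The parts at a nugatory crossing of a connected diagram are connected. -/
def S_nugC : Prop := ∀ (x y : Word) (i : ℕ) (b : Bool) (Dt Df : Word), Nug x y i Dt Df →
  Connected (x ++ cx b i :: y) → Connected Dt ∧ Connected Df

/-- Colours and numbers of the parts at a nugatory crossing. -/
def S_nugK2 : Prop := ∀ (ε : ℕ) (x y : Word) (i : ℕ) (b : Bool) (Dt Df : Word), ε < 2 →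
  Nug x y i Dt Df → Connected (x ++ cx b i :: y) → ParType ε (x ++ cx b i :: y) →
  crs Dt + crs Df + 1 = crs (x ++ cx b i :: y) ∧
  ∃ εt εf, εt < 2 ∧ εf < 2 ∧ ParType εt Dt ∧ ParType εf Df ∧
    K2 εt Dt + K2 εf Df = K2 ε (x ++ cx b i :: y) + 1 - sg b

/-- A diagram which is not connected consists of two parts. -/
def S_splEx : Prop := ∀ D : Word, Closed D → ¬ Connected D →
  ∃ Dt Df, Spl D Dt Df ∧ Dt ≠ [] ∧ Df ≠ [] ∧ Dt.length + Df.length = D.length ∧
    crs Dt + crs Df = crs D

/-- The parts of an alternating diagram are alternating. -/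
def S_splA : Prop := ∀ D Dt Df : Word, Spl D Dt Df → Alternating D →
  Alternating Dt ∧ Alternating Df

/-! ### signature -/

/-- The number of positive squares minus the number of negative squares of the Seifert form is at
least `b`. -/
def SigGe (D : OWord) (b : ℤ) : Prop := ∃ p m : ℕ, b ≤ (p : ℤ) - m ∧
  (∃ V : Submodule ℝ (ℕ → ℕ → ℝ), (∀ r ∈ V, RLab (forget D) r) ∧ Module.finrank ℝ V = p ∧
    Module.Finite ℝ V ∧ ∀ r ∈ V, r ≠ 0 → 0 < seifertForm D r) ∧
  ∃ φ : (ℕ → ℕ → ℝ) →ₗ[ℝ] (Fin m → ℝ), ∀ r, RLab (forget D) r → φ r = 0 → 0 ≤ seifertForm D r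

/-- `S_sig` in this form -/
def S_sigB : Prop := ∀ (ε : ℕ) (D : OWord), ε < 2 → OClosed D → D ≠ [] → Connected (forget D) →
  ParType ε (forget D) → ∃ b : ℤ, SigGe D b ∧
    crs (forget D) + writhe D - K2 ε (forget D) + 2 ≤ 2 * b

/-- Union of two parts. -/
def S_sigU : Prop := ∀ (D : OWord) (Dt Df : Word), OClosed D → Spl (forget D) Dt Df →
  ∃ Dt' Df' : OWord, forget Dt' = Dt ∧ forget Df' = Df ∧ OClosed Dt' ∧ OClosed Df' ∧
    writhe D = writhe Dt' + writhe Df' ∧
    ∀ b₁ b₂, SigGe Dt' b₁ → SigGe Df' b₂ → SigGe D (b₁ + b₂)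

def S_sigE : Prop := ∀ (D : OWord) (b : ℤ), OClosed D → D ≠ [] → SigGe D b →
  ∃ σ, IsSignature D σ ∧ b ≤ σ

end Pool.Agent.Helper82_Alt
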