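import Pool.Agent.Helper82_Alt.Final1
import Pool.Agent.Helper82_Alt.Spec2

/-! Assembly of phase 2. -/

set_option autoImplicit false
set_option linter.unusedSimpArgs false

namespace Pool.Agent.Helper82_Alt.PG

open LaurentPolynomial
open Pool.Agent.Helper82_Alt.PF
open Pool.Agent.Helper454.Kauf (Piece Word Raz KauffmanRules circle Closed RegIsotopic aPow zVar
  width)
open Pool.Agent.Helper454.Wh (OPiece OWord below noD forget OClosed Rlm dirs ocircle HomflyRules lPow
  mPow IsHomfly)

theorem aPow_greatest {p : Raz} {a n : ℤ} (h : IsGreatest {j | p.coeff j ≠ 0} a) :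
    IsGreatest {j | (aPow n * p).coeff j ≠ 0} (a + n) := by
  have e : ∀ j, (aPow n * p).coeff j = p.coeff (j - n) := fun j => by rw [aPow, LT_mul_coeff]
  constructor
  · show (aPow n * p).coeff (a + n) ≠ 0
    rw [e, add_sub_cancel_right]
    exact h.1
  · intro j hj
    have hj' : (aPow n * p).coeff j ≠ 0 := hj
    rw [e] at hj'
    have := h.2 hj'
    omega

/-- a nugatory crossing -/
theorem pd_nug (hnugE : S_nugE) (hnugK : S_nugK) (hnugP : S_nugP) (hdegL : S_degL)
    (hdegA : S_degA) (hnugC : S_nugC) (hnugK2 : S_nugK2)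
    {P : OWord → Rlm} {K : Word → Raz} (hP : IsHomfly P) (hK : KauffmanRules K)
    (hc : K circle = 1) {ε : ℕ} {x y : Word} {i : ℕ} {b : Bool} {Dt Df : Word} (hε : ε < 2)
    (hN : Nug x y i Dt Df) (hco : Connected (x ++ cx b i :: y))
    (hpa : ParType ε (x ++ cx b i :: y))
    (ih : ∀ (D : Word) (ε : ℕ), ε < 2 → crs D < crs (x ++ cx b i :: y) → Closed D → D ≠ [] →
      Connected D → ParType ε D → PD P K D (K2 ε D - 2)) :
    PD P K (x ++ cx b i :: y) (K2 ε (x ++ cx b i :: y) - 2) := by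
  obtain ⟨hct, hcf, _, _⟩ := hnugE x y i Dt Df hN
  obtain ⟨hc1, εt, εf, ht, hf, hpt, hpf, hk⟩ := hnugK2 ε x y i b Dt Df hε hN hco hpa
  obtain ⟨hcot, hcof⟩ := hnugC x y i b Dt Df hN hco
  have hnt : Dt ≠ [] := by
    obtain ⟨Lx, Ly, s, _, _, _, _, _, _, h, _⟩ := hN
    rw [h]; simp
  have hnf : Df ≠ [] := by
    obtain ⟨Lx, Ly, s, _, _, _, _, _, _, _, h⟩ := hN
    rw [h]; simp
  have iht := ih Dt εt ht (by omega) hct hnt hcot hpt
  have ihf := ih Df εf hf (by omega) hcf hnf hcof hpf
  rintro D' hD' hcl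
  obtain ⟨Dt', Df', e1, e2, o1, o2, hPD, hw⟩ := hnugP P hP x y i Dt Df b D' hN hD' hcl
  obtain ⟨jt, dt, t1, t2, t3, t4⟩ := iht Dt' e1 o1
  obtain ⟨jf, df, f1, f2, f3, f4⟩ := ihf Df' e2 o2
  refine ⟨jt + jf + sg b, dt + df, ?_, ?_, ?_, ?_⟩
  · rw [hnugK K hK hc x y i Dt Df b hN]
    exact aPow_greatest (hdegA _ _ _ _ t1 f1)
  · rw [hPD]
    exact hdegL _ _ _ _ t2 f2
  · rw [hw]; omega
  · rw [hw]
    have : (crs Dt : ℤ) + crs Df + 1 = crs (x ++ cx b i :: y) := by exact_mod_cast hc1
    omega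

theorem split_at {D : Word} {t : ℕ} (h : t < D.length) : D = D.take t ++ D[t] :: D.drop (t + 1) := by
  rw [← List.drop_eq_getElem_cons, List.take_append_drop]

theorem pd_iso {P : OWord → Rlm} {K : Word → Raz} (hP : IsHomfly P) (hK : KauffmanRules K)
    {D E : Word} {β : ℤ} (h : RegIsotopic D E) (hcr : crs E = crs D) (hE : PD P K E β) :
    PD P K D β := by
  intro D' hD' hcl
  obtain ⟨E', e1, e2, e3, e4⟩ := (PB2.TT_reg c_W1 c_W3 hP.1 h).1 D' hD' hcl
  obtain ⟨jm, dP, h1, h2, h3, h4⟩ := hE E' e1 e2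
  refine ⟨jm, dP, ?_, ?_, ?_, ?_⟩
  · rw [hK.regular D E h]; exact h1
  · rw [e3]; exact h2
  · rw [e4]; exact h3
  · rw [e4, ← hcr]; exact h4

/-- connected alternating diagrams -/
theorem pd_conn (hnugE : S_nugE) (hnugK : S_nugK) (hnugP : S_nugP) (hdegL : S_degL)
    (hdegA : S_degA) (hnugC : S_nugC) (hnugK2 : S_nugK2) (hnugEx : S_nugEx) (hrotC : S_rotC)
    (hrotE : S_rotE) {P : OWord → Rlm} {K : Word → Raz} (hP : IsHomfly P) (hK : KauffmanRules K)
    (hc : K circle = 1) (n : ℕ) : ∀ (D : Word) (ε : ℕ), ε < 2 → crs D = n → Closed D → D ≠ [] →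
      Connected D → ParType ε D → PD P K D (K2 ε D - 2) := by
  induction n using Nat.strong_induction_on with
  | _ n ih =>
    intro D ε hε hn hcl hne hco hpa
    by_cases hre : Reduced D
    · exact pd_reduced hP hK hc ε D hε hne hco hre hpa
    · unfold Reduced at hre
      push Not at hre
      obtain ⟨t, ht, i, hpc, hnn⟩ := hre
      obtain ⟨b, hb⟩ : ∃ b, D[t] = cx b i := by
        rcases hpc with h | h
        · exact ⟨false, h⟩
        · exact ⟨true, h⟩
      have hsp := split_at ht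
      rw [hb] at hsp
      obtain ⟨x, hx⟩ : ∃ x, x = D.take t := ⟨_, rfl⟩
      obtain ⟨y, hy⟩ : ∃ y, y = D.drop (t + 1) := ⟨_, rfl⟩
      have hxl : x.length = t := by rw [hx, List.length_take]; omega
      rw [← hx, ← hy] at hsp
      clear hx hy hpc hb
      subst hsp
      rw [← hxl] at hnn
      have ih' : ∀ (D' : Word) (ε : ℕ), ε < 2 → crs D' < crs (x ++ cx b i :: y) → Closed D' →
          D' ≠ [] → Connected D' → ParType ε D' → PD P K D' (K2 ε D' - 2) := by
        intro D' ε' h1 h2 h3 h4 h5 h6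
        exact ih (crs D') (by omega) D' ε' h1 rfl h3 h4 h5 h6
      rcases hnugEx x y i b hcl hco hnn with ⟨Dt, Df, hN⟩ | ⟨Dt, Df, hN⟩
      · exact pd_nug hnugE hnugK hnugP hdegL hdegA hnugC hnugK2 hP hK hc hε hN hco hpa ih'
      · obtain ⟨r1, r2⟩ := hrotC x y i b hcl
        have r1' := r1 hco
        obtain ⟨r3, r4, r5⟩ := r2 ε hε hpa
        have h1 := pd_nug hnugE hnugK hnugP hdegL hdegA hnugC hnugK2 hP hK hc (b := !b) hε hN r1' r3
          (by rw [r5]; exact ih')
        rw [r4] at h1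
        refine pd_iso hP hK ?_ r5 h1
        -- isotopy
        have hcl' := hcl
        unfold Closed at hcl'
        rw [width_append] at hcl'
        rcases hw : width x 0 with _ | n
        · rw [hw] at hcl'; simp at hcl'
        · rw [hw, Option.bind_some] at hcl'
          have hi : i + 2 ≤ n := by
            by_contra hcon
            cases b <;> simp [width, Piece.width, cx, hcon] at hcl'
          have := (hrotE n i b hi).2 x y hw (by simpa using hcl)
          simpa using this

/-- what is proved for the signature -/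
def SG (D : Word) (β : ℤ) : Prop :=
  ∀ D' : OWord, forget D' = D → OClosed D' → ∃ b, SigGe D' b ∧ crs D + writhe D' - β ≤ 2 * b

theorem lm_greatest {p q : Raz} {a : ℤ} (hdegA : S_degA) (h : IsGreatest {j | p.coeff j ≠ 0} a)
    (e : zVar * q = (aPow 1 + aPow (-1) - zVar) * p) :
    IsGreatest {j | q.coeff j ≠ 0} (a + 1) := by
  have h1 : ∀ j, (aPow 1 + aPow (-1) - zVar : Raz).coeff j =
      (if j = 1 then 1 else 0) + (if j = -1 then 1 else 0) - (if j = 0 then T 1 else 0) := by
    intro j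
    rw [AddMonoidAlgebra.coeff_sub, AddMonoidAlgebra.coeff_add, Finsupp.sub_apply,
      Finsupp.add_apply, aPow, aPow, zVar, T, T, ← single_eq_C, AddMonoidAlgebra.coeff_single,
      AddMonoidAlgebra.coeff_single, AddMonoidAlgebra.coeff_single, Finsupp.single_apply,
      Finsupp.single_apply, Finsupp.single_apply]
    simp only [eq_comm]
  have h2 : IsGreatest {j | (aPow 1 + aPow (-1) - zVar : Raz).coeff j ≠ 0} 1 := by
    constructor
    · show (aPow 1 + aPow (-1) - zVar : Raz).coeff 1 ≠ 0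
      rw [h1]
      norm_num
    · intro j hj
      have hj' : (aPow 1 + aPow (-1) - zVar : Raz).coeff j ≠ 0 := hj
      rw [h1] at hj'
      by_contra hcon
      push Not at hcon
      apply hj'
      rw [if_neg (by omega), if_neg (by omega), if_neg (by omega)]
      simp
  have h3 := hdegA _ _ _ _ h2 h
  rw [← e] at h3
  have h4 : ∀ j, (zVar * q).coeff j = T 1 * q.coeff j := by
    intro j
    rw [zVar, LC_mul_coeff]
  have h5 : ∀ j, (zVar * q).coeff j ≠ 0 ↔ q.coeff j ≠ 0 := by
    intro j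
    rw [h4]
    constructor
    · intro h h0
      exact h (by rw [h0, mul_zero])
    · intro h h0
      apply h
      have : T (-1) * (T 1 * q.coeff j) = 0 := by rw [h0, mul_zero]
      rwa [← mul_assoc, ← T_add, neg_add_cancel, T_zero, one_mul] at this
  rw [add_comm 1 a] at h3
  constructor
  · exact (h5 _).1 h3.1
  · intro j hj
    exact h3.2 ((h5 j).2 hj)

theorem lm_least {p q : Rlm} {a : ℤ} (hdegL : S_degL) (h : IsLeast (lExponents p) a)
    (e : mPow 1 * q = (lPow (-1) - lPow 1) * p) :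
    IsLeast (lExponents q) (a - 1) := by
  have h1 : ∀ j, (lPow (-1) - lPow 1 : Rlm).coeff j = if j = 0 then T (-1) - T 1 else 0 := by
    intro j
    rw [AddMonoidAlgebra.coeff_sub, Finsupp.sub_apply, lPow, lPow, ← single_eq_C, ← single_eq_C,
      AddMonoidAlgebra.coeff_single,
      AddMonoidAlgebra.coeff_single, Finsupp.single_apply,
      Finsupp.single_apply]
    by_cases hj : j = 0
    · simp [hj]
    · simp [hj, eq_comm]
  have h1' : ∀ k, ((T (-1) - T 1 : LaurentPolynomial ℤ)).coeff k =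
      (if k = -1 then 1 else 0) - (if k = 1 then 1 else 0) := by
    intro k
    rw [AddMonoidAlgebra.coeff_sub, Finsupp.sub_apply, T, T, AddMonoidAlgebra.coeff_single,
      AddMonoidAlgebra.coeff_single, Finsupp.single_apply, Finsupp.single_apply]
    simp only [eq_comm]
  have h2 : IsLeast (lExponents (lPow (-1) - lPow 1 : Rlm)) (-1) := by
    constructor
    · refine ⟨0, ?_⟩
      rw [h1, if_pos rfl, h1']
      norm_num
    · rintro k ⟨j, hj⟩
      rw [h1] at hj
      by_cases hj0 : j = 0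
      · rw [if_pos hj0, h1'] at hj
        by_contra hcon
        push Not at hcon
        apply hj
        rw [if_neg (by omega), if_neg (by omega)]
        simp
      · rw [if_neg hj0] at hj
        exact absurd rfl hj
  have h3 := hdegL _ _ _ _ h2 h
  rw [← e] at h3
  have h4 : lExponents (mPow 1 * q) = lExponents q := by
    ext k
    constructor
    · rintro ⟨j, hj⟩
      rw [mPow, LT_mul_coeff] at hj
      exact ⟨_, hj⟩
    · rintro ⟨j, hj⟩
      refine ⟨j + 1, ?_⟩
      rw [mPow, LT_mul_coeff, add_sub_cancel_right]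
      exact hj
  rw [h4] at h3
  rw [show a - 1 = -1 + a by ring]
  exact h3

/-- all alternating diagrams -/
theorem pd_all (hsplE : S_splE) (hsplP : S_splP) (hsplEx : S_splEx) (hsplA : S_splA)
    (huniK : S_uniK) (huniP : S_uniP) (hdegL : S_degL) (hdegA : S_degA) (hsigB : S_sigB)
    (hsigU : S_sigU)
    {P : OWord → Rlm} {K : Word → Raz} (hP : IsHomfly P) (hK : KauffmanRules K)
    (hc : K circle = 1)
    (hconn : ∀ (D : Word) (ε : ℕ), ε < 2 → Closed D → D ≠ [] →
      Connected D → ParType ε D → PD P K D (K2 ε D - 2)) (n : ℕ) :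
    ∀ D : Word, D.length = n → Closed D → D ≠ [] → Alternating D →
      ∃ β, PD P K D β ∧ SG D β := by
  induction n using Nat.strong_induction_on with
  | _ n ih =>
    intro D hn hcl hne hal
    by_cases hco : Connected D
    · obtain ⟨ε, hε, hpa⟩ := PPar.t_par D hcl hco hal
      refine ⟨_, hconn D ε hε hcl hne hco hpa, ?_⟩
      rintro D' rfl hcl'
      have hne' : D' ≠ [] := by rintro rfl; exact hne rfl
      obtain ⟨b, h1, h2⟩ := hsigB ε D' hε hcl' hne' hco hpa
      exact ⟨b, h1, by omega⟩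
    · obtain ⟨Dt, Df, hS, nt, nf, hl, hcr⟩ := hsplEx D hcl hco
      obtain ⟨_, ct, cf, hE⟩ := hsplE D Dt Df hS
      obtain ⟨at', af⟩ := hsplA D Dt Df hS hal
      have lt := List.length_pos_iff.2 nt
      have lf := List.length_pos_iff.2 nf
      obtain ⟨βt, pt, st⟩ := ih Dt.length (by omega) Dt rfl ct nt at'
      obtain ⟨βf, pf, sf⟩ := ih Df.length (by omega) Df rfl cf nf af
      refine ⟨βt + βf + 2, ?_, ?_⟩
      · rintro D' hD' hcl'
        subst hD'
        obtain ⟨Dt', Df', e1, e2, o1, o2, hw, hPD⟩ := hsplP D' Dt Df hcl' hS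
        obtain ⟨jt, dt, t1, t2, t3, t4⟩ := pt Dt' e1 o1
        obtain ⟨jf, df, f1, f2, f3, f4⟩ := pf Df' e2 o2
        have hnt' : Dt' ≠ [] := by rintro rfl; exact nt (by rw [← e1]; rfl)
        have hnf' : Df' ≠ [] := by rintro rfl; exact nf (by rw [← e2]; rfl)
        refine ⟨jt + jf + 1, dt + df - 1, ?_, ?_, ?_, ?_⟩
        · rw [hK.regular _ _ hE]
          exact lm_greatest hdegA (hdegA _ _ _ _ t1 f1) (huniK K hK hc Dt Df ct cf nt nf)
        · rw [hPD P hP]
          exact lm_least hdegL (hdegL _ _ _ _ t2 f2) (huniP P hP Dt' Df' o1 o2 hnt' hnf')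
        · rw [hw]; omega
        · rw [hw]
          have : (crs Dt : ℤ) + crs Df = crs (forget D') := by exact_mod_cast hcr
          omega
      · rintro D' hD' hcl'
        subst hD'
        obtain ⟨Dt', Df', e1, e2, o1, o2, hw, hb⟩ := hsigU D' Dt Df hcl' hS
        obtain ⟨bt, t1, t2⟩ := st Dt' e1 o1
        obtain ⟨bf, f1, f2⟩ := sf Df' e2 o2
        refine ⟨bt + bf, hb _ _ t1 f1, ?_⟩
        rw [hw]
        have : (crs Dt : ℤ) + crs Df = crs (forget D') := by exact_mod_cast hcr
        omega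

end Pool.Agent.Helper82_Alt.PG
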