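import Pool.Agent.Helper82_Alt.NugEx

/-!
# The parts at a nugatory crossing of a connected diagram are connected
-/

set_option autoImplicit false

namespace Pool.Agent.Helper82_Alt.PNugC

open Pool.Agent.Helper454.Kauf (Piece Word Closed width)
open PWid PNugEx

/-! ### counting strands of a side -/

theorem ct_zero (b : Bool) (s : List Bool) : ct b s 0 = 0 := by simp [ct]

theorem ct_mono {b : Bool} {s : List Bool} {j k : ℕ} (h : j ≤ k) : ct b s j ≤ ct b s k := by
  unfold ct
  exact List.Sublist.count_le b (List.take_sublist_take_left h)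

theorem ct_le_count (b : Bool) (s : List Bool) (j : ℕ) : ct b s j ≤ s.count b := by
  unfold ct
  exact List.Sublist.count_le b (List.take_sublist j s)

theorem ct_succ {b a : Bool} {s : List Bool} {j : ℕ} (h : s[j]? = some a) :
    ct b s (j + 1) = ct b s j + if a = b then 1 else 0 := by
  obtain ⟨hj, ha⟩ := List.getElem?_eq_some_iff.1 h
  unfold ct
  rw [List.take_succ_eq_append_getElem hj, List.count_append, ha]
  cases a <;> cases b <;> simp

theorem ct_lt {b : Bool} {s : List Bool} {j k : ℕ} (hj : s[j]? = some b) (h : j < k) :
    ct b s j < ct b s k := by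
  have h1 := ct_succ (b := b) hj
  rw [if_pos rfl] at h1
  have h2 := ct_mono (b := b) (s := s) (Nat.succ_le_of_lt h)
  have h3 : ct b s (j + 1) ≤ ct b s k := h2
  omega

/-- the row with two new strands -/
def ins2 (s : List Bool) (i : ℕ) (b : Bool) : List Bool := s.take i ++ b :: b :: s.drop i

theorem ins2_length {s : List Bool} {i : ℕ} {b : Bool} (hi : i ≤ s.length) :
    (ins2 s i b).length = s.length + 2 := by
  unfold ins2
  rw [List.length_append, List.length_take, List.length_cons, List.length_cons, List.length_drop]
  omega

theorem count_ins2 {b c : Bool} {s : List Bool} {i : ℕ} :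
    (ins2 s i b).count c = s.count c + if b = c then 2 else 0 := by
  have h : s.count c = (s.take i).count c + (s.drop i).count c := by
    rw [← List.count_append, List.take_append_drop]
  unfold ins2
  rw [h, List.count_append]
  cases b <;> cases c <;> simp <;> omega

theorem get_lt {b : Bool} {s : List Bool} {i j : ℕ} (hi : i ≤ s.length) (hj : j < i) :
    (ins2 s i b)[j]? = s[j]? := by
  unfold ins2
  rw [List.getElem?_append_left (by rw [List.length_take]; omega), List.getElem?_take, if_pos hj]

theorem get_i {b : Bool} {s : List Bool} {i : ℕ} (hi : i ≤ s.length) :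
    (ins2 s i b)[i]? = some b := by
  unfold ins2
  rw [List.getElem?_append_right (by rw [List.length_take]; omega), List.length_take,
    Nat.min_eq_left hi, Nat.sub_self]
  rfl

theorem get_i1 {b : Bool} {s : List Bool} {i : ℕ} (hi : i ≤ s.length) :
    (ins2 s i b)[i + 1]? = some b := by
  unfold ins2
  rw [List.getElem?_append_right (by rw [List.length_take]; omega), List.length_take,
    Nat.min_eq_left hi, show i + 1 - i = 1 by omega]
  rfl

theorem get_ge {b : Bool} {s : List Bool} {i j : ℕ} (hi : i ≤ s.length) (hj : i ≤ j) :
    (ins2 s i b)[j + 2]? = s[j]? := by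
  unfold ins2
  rw [List.getElem?_append_right (by rw [List.length_take]; omega), List.length_take,
    Nat.min_eq_left hi, show j + 2 - i = (j - i) + 1 + 1 by omega, List.getElem?_cons_succ,
    List.getElem?_cons_succ, List.getElem?_drop, show i + (j - i) = j by omega]

theorem ct_le' {b c : Bool} {s : List Bool} {i j : ℕ} (hi : i ≤ s.length) (hj : j ≤ i) :
    ct c (ins2 s i b) j = ct c s j := by
  unfold ct ins2
  rw [List.take_append_of_le_length (by rw [List.length_take]; omega), List.take_take,
    Nat.min_eq_left hj]

theorem ct_ge' {b c : Bool} {s : List Bool} {i j : ℕ} (hi : i ≤ s.length) (hj : i ≤ j) :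
    ct c (ins2 s i b) (j + 2) = ct c s j + if b = c then 2 else 0 := by
  have h1 : (ins2 s i b).take (j + 2) = ins2 (s.take j) i b := by
    unfold ins2
    rw [List.take_append, List.length_take, Nat.min_eq_left hi,
      List.take_of_length_le (by rw [List.length_take]; omega),
      show j + 2 - i = (j - i) + 1 + 1 by omega, List.take_succ_cons, List.take_succ_cons,
      List.take_take, Nat.min_eq_left hj, List.drop_take]
  unfold ct
  rw [h1, count_ins2]

theorem ct_mid {b c : Bool} {s : List Bool} {i : ℕ} (hi : i ≤ s.length) :
    ct c (ins2 s i b) (i + 1) = ct c s i + if b = c then 1 else 0 := by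
  rw [ct_succ (get_i hi), ct_le' hi le_rfl]

/-! ### steps of rows -/

theorem rstep_birth {i : ℕ} {b : Bool} {s s' : List Bool} (h : rstep (.birth i) b s = some s') :
    i ≤ s.length ∧ s' = ins2 s i b := by
  simp only [rstep] at h
  split_ifs at h with hi
  exact ⟨hi, (Option.some.inj h).symm⟩

theorem split_two {s : List Bool} {i : ℕ} {b : Bool} (h1 : s[i]? = some b)
    (h2 : s[i + 1]? = some b) : i ≤ (s.take i ++ s.drop (i + 2)).length ∧
      s = ins2 (s.take i ++ s.drop (i + 2)) i b := by
  obtain ⟨hi, -⟩ := List.getElem?_eq_some_iff.1 h1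
  obtain ⟨hi', -⟩ := List.getElem?_eq_some_iff.1 h2
  have hl : (s.take i).length = i := by rw [List.length_take]; omega
  refine ⟨by rw [List.length_append, hl]; omega, ?_⟩
  unfold ins2
  rw [List.take_append_of_le_length (by omega), List.take_of_length_le (by omega),
    List.drop_append, List.drop_of_length_le (by omega), hl, Nat.sub_self, List.drop_zero,
    List.nil_append]
  apply List.ext_getElem?
  intro j
  by_cases hj : j < i
  · rw [List.getElem?_append_left (by omega), List.getElem?_take, if_pos hj]
  · rw [List.getElem?_append_right (by omega), hl]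
    obtain ⟨k, rfl⟩ : ∃ k, j = i + k := ⟨j - i, by omega⟩
    rw [show i + k - i = k by omega]
    match k with
    | 0 => exact h1
    | 1 => exact h2
    | k + 2 =>
      rw [List.getElem?_cons_succ, List.getElem?_cons_succ, List.getElem?_drop,
        show i + 2 + k = i + (k + 2) by omega]

theorem rstep_death {i : ℕ} {b : Bool} {s s' : List Bool} (h : rstep (.death i) b s = some s') :
    i ≤ s'.length ∧ s = ins2 s' i b := by
  simp only [rstep] at h
  split_ifs at h with hi
  rw [← Option.some.inj h]
  exact split_two hi.1 hi.2

theorem rstep_pos {i : ℕ} {b : Bool} {s s' : List Bool} (h : rstep (.pos i) b s = some s') :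
    s' = s ∧ s[i]? = some b ∧ s[i + 1]? = some b := by
  simp only [rstep] at h
  split_ifs at h with hi
  exact ⟨(Option.some.inj h).symm, hi⟩

theorem rstep_neg {i : ℕ} {b : Bool} {s s' : List Bool} (h : rstep (.neg i) b s = some s') :
    s' = s ∧ s[i]? = some b ∧ s[i + 1]? = some b := by
  simp only [rstep] at h
  split_ifs at h with hi
  exact ⟨(Option.some.inj h).symm, hi⟩

theorem lt_of_get {s : List Bool} {i : ℕ} {b : Bool} (h : s[i]? = some b) : i < s.length :=
  (List.getElem?_eq_some_iff.1 h).1

/-- the width of a labelled piece -/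
theorem width_rstep {p : Piece} {b : Bool} {s s' : List Bool} (h : rstep p b s = some s') :
    p.width s.length = some s'.length := by
  cases p with
  | birth i =>
    obtain ⟨hi, rfl⟩ := rstep_birth h
    rw [ins2_length hi]
    simp [Piece.width, hi]
  | death i =>
    obtain ⟨hi, rfl⟩ := rstep_death h
    rw [ins2_length hi]
    simp [Piece.width, hi]
  | pos i =>
    obtain ⟨rfl, h1, h2⟩ := rstep_pos h
    have := lt_of_get h2
    simp only [Piece.width]
    rw [if_pos (by omega)]
  | neg i =>
    obtain ⟨rfl, h1, h2⟩ := rstep_neg h
    have := lt_of_get h2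
    simp only [Piece.width]
    rw [if_pos (by omega)]

theorem two_le {b : Bool} {s : List Bool} {i : ℕ} (h1 : s[i]? = some b)
    (h2 : s[i + 1]? = some b) : ct b s i + 2 ≤ s.count b := by
  have h3 := ct_succ (b := b) h1
  have h4 := ct_succ (b := b) h2
  have h5 := ct_le_count b s (i + 1 + 1)
  rw [if_pos rfl] at h3 h4
  omega

/-- the width of the piece in its side -/
theorem width_moved {p : Piece} {b : Bool} {s s' : List Bool} (h : rstep p b s = some s') :
    (p.moved (ct b s p.index)).width (s.count b) = some (s'.count b) := by
  cases p with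
  | birth i =>
    obtain ⟨hi, rfl⟩ := rstep_birth h
    have h1 := ct_le_count b s i
    simp only [Piece.moved, Piece.index, Piece.width]
    rw [if_pos h1, count_ins2, if_pos rfl]
  | death i =>
    obtain ⟨hi, rfl⟩ := rstep_death h
    have h1 := two_le (get_i (b := b) hi) (get_i1 hi)
    simp only [Piece.moved, Piece.index, Piece.width]
    rw [if_pos h1, count_ins2, if_pos rfl, Nat.add_sub_cancel]
  | pos i =>
    obtain ⟨rfl, h1, h2⟩ := rstep_pos h
    simp only [Piece.moved, Piece.index, Piece.width]
    rw [if_pos (two_le h1 h2)]
  | neg i =>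
    obtain ⟨rfl, h1, h2⟩ := rstep_neg h
    simp only [Piece.moved, Piece.index, Piece.width]
    rw [if_pos (two_le h1 h2)]

/-- a piece of the other side -/
theorem count_other {p : Piece} {b c : Bool} {s s' : List Bool} (h : rstep p b s = some s')
    (hbc : b ≠ c) : s'.count c = s.count c := by
  cases p with
  | birth i =>
    obtain ⟨hi, rfl⟩ := rstep_birth h
    rw [count_ins2, if_neg hbc, add_zero]
  | death i =>
    obtain ⟨hi, rfl⟩ := rstep_death h
    rw [count_ins2, if_neg hbc, add_zero]
  | pos i =>
    obtain ⟨rfl, -⟩ := rstep_pos h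
    rfl
  | neg i =>
    obtain ⟨rfl, -⟩ := rstep_neg h
    rfl

theorem width_wd {L : LW} {s s' : List Bool} (h : run L s = some s') :
    width (wd L) s.length = some s'.length := by
  induction L generalizing s with
  | nil =>
    rw [show s = s' from Option.some.inj h]
    rfl
  | cons p L ih =>
    have h1 : (rstep p.1 p.2 s).bind (run L) = some s' := h
    cases h2 : rstep p.1 p.2 s with
    | none => rw [h2] at h1; simp at h1
    | some s1 =>
      rw [h2] at h1
      show (p.1.width s.length).bind (width (wd L)) = _
      rw [width_rstep h2]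
      exact ih h1

theorem subw_cons (β : Bool) (p : Piece × Bool) (L : LW) {s s1 : List Bool}
    (h : rstep p.1 p.2 s = some s1) : subw β (p :: L) s =
      if p.2 = β then p.1.moved (ct β s p.1.index) :: subw β L s1 else subw β L s1 := by
  simp only [subw, h, Option.getD_some]

theorem width_subw (β : Bool) {L : LW} {s s' : List Bool} (h : run L s = some s') :
    width (subw β L s) (s.count β) = some (s'.count β) := by
  induction L generalizing s with
  | nil =>
    rw [show s = s' from Option.some.inj h]
    rfl
  | cons p L ih =>
    have h1 : (rstep p.1 p.2 s).bind (run L) = some s' := h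
    cases h2 : rstep p.1 p.2 s with
    | none => rw [h2] at h1; simp at h1
    | some s1 =>
      rw [h2] at h1
      rw [subw_cons β p L h2]
      split_ifs with hb
      · subst hb
        show ((p.1.moved _).width _).bind (width _) = _
        rw [width_moved h2]
        exact ih h1
      · rw [← count_other h2 hb]
        exact ih h1

/-! ### transfer of labellings -/

/-- the labelling of a row made of a labelling of the strands of the side `β` and a label for the
other strands -/
def F (β : Bool) (s : List Bool) (f : ℕ → Bool) (c : Bool) (j : ℕ) : Bool :=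
  if s[j]? = some β then f (ct β s j) else c

theorem F_ins2 {β b c : Bool} {s : List Bool} {i : ℕ} (hi : i ≤ s.length) {f f' : ℕ → Bool}
    (hs : if b = β then SStep (.birth (ct β s i)) f f' else f' = f) :
    SStep (.birth i) (F β s f c) (F β (ins2 s i b) f' c) := by
  by_cases hb : b = β
  · rw [if_pos hb] at hs
    subst hb
    obtain ⟨h1, h2, h3⟩ := hs
    refine ⟨fun j hj => ?_, fun j hj => ?_, ?_⟩
    · unfold F
      rw [get_lt hi hj, ct_le' hi hj.le]
      split_ifs with h
      · exact h1 _ (ct_lt h hj)
      · rfl
    · unfold F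
      rw [get_ge hi hj, ct_ge' hi hj, if_pos rfl]
      split_ifs with h
      · exact h2 _ (ct_mono hj)
      · rfl
    · unfold F
      rw [get_i hi, get_i1 hi, if_pos rfl, if_pos rfl, ct_mid hi, ct_le' hi le_rfl, if_pos rfl]
      exact h3
  · rw [if_neg hb] at hs
    subst hs
    refine ⟨fun j hj => ?_, fun j hj => ?_, ?_⟩
    · unfold F
      rw [get_lt hi hj, ct_le' hi hj.le]
    · unfold F
      rw [get_ge hi hj, ct_ge' hi hj, if_neg hb, add_zero]
    · unfold F
      rw [get_i hi, get_i1 hi, if_neg (by simpa using hb), if_neg (by simpa using hb)]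

theorem sstep_F {β b c : Bool} {p : Piece} {s s' : List Bool} {f f' : ℕ → Bool}
    (h : rstep p b s = some s')
    (hs : if b = β then SStep (p.moved (ct β s p.index)) f f' else f' = f) :
    SStep p (F β s f c) (F β s' f' c) := by
  cases p with
  | birth i =>
    obtain ⟨hi, rfl⟩ := rstep_birth h
    exact F_ins2 hi hs
  | death i =>
    obtain ⟨hi, rfl⟩ := rstep_death h
    refine F_ins2 (b := b) (i := i) hi (f := f') (f' := f) ?_
    simp only [Piece.moved, Piece.index] at hs
    rw [ct_le' hi le_rfl] at hs
    by_cases hb : b = β
    · rw [if_pos hb] at hs ⊢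
      exact hs
    · rw [if_neg hb] at hs ⊢
      exact hs.symm
  | pos i =>
    obtain ⟨rfl, h1, h2⟩ := rstep_pos h
    by_cases hb : b = β
    · rw [if_pos hb] at hs
      subst hb
      obtain ⟨h3, h4⟩ := hs
      obtain rfl : f' = f := funext h3
      refine ⟨fun j => rfl, ?_⟩
      unfold F
      rw [if_pos h1, if_pos h2, ct_succ h1, if_pos rfl]
      exact h4
    · rw [if_neg hb] at hs
      subst hs
      refine ⟨fun j => rfl, ?_⟩
      unfold F
      rw [h1, h2, if_neg (by simpa using hb), if_neg (by simpa using hb)]
  | neg i =>
    obtain ⟨rfl, h1, h2⟩ := rstep_neg h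
    by_cases hb : b = β
    · rw [if_pos hb] at hs
      subst hb
      obtain ⟨h3, h4⟩ := hs
      obtain rfl : f' = f := funext h3
      refine ⟨fun j => rfl, ?_⟩
      unfold F
      rw [if_pos h1, if_pos h2, ct_succ h1, if_pos rfl]
      exact h4
    · rw [if_neg hb] at hs
      subst hs
      refine ⟨fun j => rfl, ?_⟩
      unfold F
      rw [h1, h2, if_neg (by simpa using hb), if_neg (by simpa using hb)]

theorem exists_pos {b : Bool} {s : List Bool} {j : ℕ} (h : j < s.count b) :
    ∃ k < s.length, s[k]? = some b ∧ ct b s k = j := by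
  induction s generalizing j with
  | nil => simp at h
  | cons a s ih =>
    by_cases hab : a = b
    · subst hab
      rw [List.count_cons_self] at h
      cases j with
      | zero => exact ⟨0, by simp, by simp, by simp [ct]⟩
      | succ j =>
        obtain ⟨k, h1, h2, h3⟩ := ih (j := j) (by omega)
        refine ⟨k + 1, by simpa using h1, by simpa using h2, ?_⟩
        unfold ct at h3 ⊢
        rw [List.take_succ_cons, List.count_cons_self, h3]
    · rw [List.count_cons_of_ne hab] at h
      obtain ⟨k, h1, h2, h3⟩ := ih h
      refine ⟨k + 1, by simpa using h1, by simpa using h2, ?_⟩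
      unfold ct at h3 ⊢
      rw [List.take_succ_cons, List.count_cons_of_ne hab, h3]

/-- all strands have the label `v` -/
def Const (w : Word) (n : ℕ) (s : ℕ → ℕ → Bool) (v : Bool) : Prop :=
  ∀ t ≤ w.length, ∀ m, width (w.take t) n = some m → ∀ j < m, s t j = v

/-- extension of a labelling of a side to the diagram -/
theorem ext_run (β c : Bool) {L : LW} {s s' : List Bool} (h : run L s = some s')
    {σ : ℕ → ℕ → Bool}
    (hσ : ∀ t (ht : t < (subw β L s).length), SStep (subw β L s)[t] (σ t) (σ (t + 1))) :
    ∃ S : ℕ → ℕ → Bool, (∀ t (ht : t < (wd L).length), SStep (wd L)[t] (S t) (S (t + 1))) ∧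
      S 0 = F β s (σ 0) c ∧ S (wd L).length = F β s' (σ (subw β L s).length) c ∧
      ∀ v, Const (wd L) s.length S v → Const (subw β L s) (s.count β) σ v := by
  induction L generalizing s σ with
  | nil =>
    obtain rfl : s = s' := Option.some.inj h
    refine ⟨fun _ => F β s (σ 0) c, fun t ht => absurd ht (by simp [wd]), rfl, rfl, ?_⟩
    intro v hv t ht m hm j hj
    have ht0 : t = 0 := by simpa [subw] using ht
    subst ht0
    have hm' : s.count β = m := by simpa [subw, width] using hm
    subst hm'
    obtain ⟨k, h1, h2, h3⟩ := exists_pos hj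
    have h4 := hv 0 (Nat.zero_le _) s.length rfl k h1
    have h5 : F β s (σ 0) c k = v := h4
    unfold F at h5
    rw [if_pos h2, h3] at h5
    exact h5
  | cons p L ih =>
    have h1 : (rstep p.1 p.2 s).bind (run L) = some s' := h
    cases h2 : rstep p.1 p.2 s with
    | none => rw [h2] at h1; simp at h1
    | some s1 =>
      rw [h2] at h1
      have h3 : run L s1 = some s' := h1
      by_cases hb : p.2 = β
      · have hsub : subw β (p :: L) s = p.1.moved (ct β s p.1.index) :: subw β L s1 := by
          rw [subw_cons β p L h2, if_pos hb]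
        rw [hsub] at hσ ⊢
        obtain ⟨σ0, σ1⟩ := (steps_cons (R := fun t p => SStep p (σ t) (σ (t + 1)))).1 hσ
        obtain ⟨S, hS, hS0, hS1, hSc⟩ := ih h3 (σ := fun t => σ (t + 1)) σ1
        refine ⟨fun t => match t with
          | 0 => F β s (σ 0) c
          | t + 1 => S t, ?_, rfl, hS1, ?_⟩
        · refine (steps_cons (R := fun t q => SStep q _ _)).2 ⟨?_, hS⟩
          show SStep p.1 (F β s (σ 0) c) (S 0)
          rw [hS0]
          exact sstep_F h2 (by rw [if_pos hb]; exact σ0)
        · intro v hv
          have h4 : Const (subw β L s1) (s1.count β) (fun t => σ (t + 1)) v := by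
            apply hSc v
            intro t ht m hm j hj
            refine hv (t + 1) (Nat.succ_le_succ ht) m ?_ j hj
            show (p.1.width s.length).bind (width ((wd L).take t)) = some m
            rw [width_rstep h2]
            exact hm
          intro t ht m hm j hj
          cases t with
          | zero =>
            have hm' : s.count β = m := by simpa [width] using hm
            subst hm'
            obtain ⟨k, k1, k2, k3⟩ := exists_pos hj
            have h5 : F β s (σ 0) c k = v := hv 0 (Nat.zero_le _) s.length rfl k k1
            unfold F at h5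
            rw [if_pos k2, k3] at h5
            exact h5
          | succ t =>
            refine h4 t (Nat.le_of_succ_le_succ ht) m ?_ j hj
            have h5 : ((p.1.moved (ct β s p.1.index)).width (s.count β)).bind
              (width ((subw β L s1).take t)) = some m := hm
            rw [← hb] at h5 ⊢
            rw [width_moved h2] at h5
            exact h5
      · have hsub : subw β (p :: L) s = subw β L s1 := by
          rw [subw_cons β p L h2, if_neg hb]
        rw [hsub] at hσ ⊢
        obtain ⟨S, hS, hS0, hS1, hSc⟩ := ih h3 (σ := σ) hσ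
        refine ⟨fun t => match t with
          | 0 => F β s (σ 0) c
          | t + 1 => S t, ?_, rfl, hS1, ?_⟩
        · refine (steps_cons (R := fun t q => SStep q _ _)).2 ⟨?_, hS⟩
          show SStep p.1 (F β s (σ 0) c) (S 0)
          rw [hS0]
          exact sstep_F h2 (by rw [if_neg hb])
        · intro v hv
          have h4 : Const (subw β L s1) (s1.count β) σ v := by
            apply hSc v
            intro t ht m hm j hj
            refine hv (t + 1) (Nat.succ_le_succ ht) m ?_ j hj
            show (p.1.width s.length).bind (width ((wd L).take t)) = some m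
            rw [width_rstep h2]
            exact hm
          rw [count_other h2 hb] at h4
          exact h4

theorem conn_part (β : Bool) {i : ℕ} {b : Bool} {Lx Ly : LW} {s s2 : List Bool} {p : Piece}
    (hx : run Lx [] = some s) (hy : run Ly s2 = some []) (hlen : s2.length = s.length)
    (hi : i + 2 ≤ s.length) (hp : p.width (s.count β) = some (s2.count β))
    (hF : ∀ f f', SStep p f f' → ∃ c, SStep (cx b i) (F β s f c) (F β s2 f' c))
    (hcon : Connected (wd Lx ++ cx b i :: wd Ly)) :
    Connected (subw β Lx [] ++ p :: subw β Ly s2) := by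
  intro σ hσ
  obtain ⟨σ1, σ2, σ3⟩ := (steps_mid (R := fun t p => SStep p (σ t) (σ (t + 1)))).1 hσ
  set X := subw β Lx [] with hX
  set Y := subw β Ly s2 with hY
  obtain ⟨c, hc⟩ := hF _ _ σ2
  obtain ⟨Sx, x1, x2, x3, x4⟩ := ext_run β c hx (σ := σ) σ1
  obtain ⟨Sy, y1, y2, y3, y4⟩ := ext_run β c hy (σ := fun t => σ (X.length + 1 + t)) σ3
  obtain ⟨v, hv⟩ := hcon (fun t => if t ≤ (wd Lx).length then Sx t else
      Sy (t - (wd Lx).length - 1)) (by
    refine (steps_mid (R := fun t p => SStep p
      ((fun t => if t ≤ (wd Lx).length then Sx t else Sy (t - (wd Lx).length - 1)) t)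
      ((fun t => if t ≤ (wd Lx).length then Sx t else Sy (t - (wd Lx).length - 1)) (t + 1)))).2
        ⟨?_, ?_, ?_⟩
    · intro t ht
      show SStep (wd Lx)[t] (if t ≤ (wd Lx).length then Sx t else _)
        (if t + 1 ≤ (wd Lx).length then Sx (t + 1) else _)
      rw [if_pos (by omega), if_pos (by omega)]
      exact x1 t ht
    · show SStep (cx b i) (if (wd Lx).length ≤ (wd Lx).length then Sx (wd Lx).length else _)
        (if (wd Lx).length + 1 ≤ (wd Lx).length then _ else
          Sy ((wd Lx).length + 1 - (wd Lx).length - 1))
      rw [if_pos le_rfl, if_neg (by omega),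
        show (wd Lx).length + 1 - (wd Lx).length - 1 = 0 by omega, x3, y2]
      exact hc
    · intro t ht
      show SStep (wd Ly)[t]
        (if (wd Lx).length + 1 + t ≤ (wd Lx).length then _ else
          Sy ((wd Lx).length + 1 + t - (wd Lx).length - 1))
        (if (wd Lx).length + 1 + t + 1 ≤ (wd Lx).length then _ else
          Sy ((wd Lx).length + 1 + t + 1 - (wd Lx).length - 1))
      rw [if_neg (by omega), if_neg (by omega),
        show (wd Lx).length + 1 + t - (wd Lx).length - 1 = t by omega,
        show (wd Lx).length + 1 + t + 1 - (wd Lx).length - 1 = t + 1 by omega]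
      exact y1 t ht)
  have hwx : width (wd Lx) 0 = some s.length := width_wd hx
  have hcx : Const X 0 σ v := by
    refine x4 v fun t ht m hm j hj => ?_
    have := hv t m (by rw [take_left ht]; exact hm) j hj
    simpa only [if_pos ht] using this
  have hcy : Const Y (s2.count β) (fun t => σ (X.length + 1 + t)) v := by
    refine y4 v fun t ht m hm j hj => ?_
    have := hv ((wd Lx).length + (t + 1)) m (by
      rw [take_right, width_append, hwx]
      show ((cx b i).width s.length).bind (width ((wd Ly).take t)) = some m
      rw [width_cx, if_pos hi, ← hlen]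
      exact hm) j hj
    have h2 : (if (wd Lx).length + (t + 1) ≤ (wd Lx).length then Sx ((wd Lx).length + (t + 1)) else
        Sy ((wd Lx).length + (t + 1) - (wd Lx).length - 1)) j = v := this
    rw [if_neg (by omega), show (wd Lx).length + (t + 1) - (wd Lx).length - 1 = t by omega] at h2
    exact h2
  refine ⟨v, fun t m hm j hj => ?_⟩
  by_cases ht : t ≤ X.length
  · rw [take_left ht] at hm
    exact hcx t ht m hm j hj
  · obtain ⟨k, rfl⟩ : ∃ k, t = X.length + (k + 1) := ⟨t - X.length - 1, by omega⟩
    have hX0 : width X 0 = some (s.count β) := width_subw β hx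
    rw [take_right, width_append, hX0] at hm
    have h1 : (p.width (s.count β)).bind (width (Y.take k)) = some m := hm
    rw [hp] at h1
    have h2 : width (Y.take k) (s2.count β) = some m := h1
    by_cases hk : k ≤ Y.length
    · have h3 : σ (X.length + 1 + k) j = v := hcy k hk m h2 j hj
      rwa [show X.length + 1 + k = X.length + (k + 1) by omega] at h3
    · rw [List.take_of_length_le (by omega)] at h2
      have h3 : width Y (s2.count β) = some (List.count β []) := width_subw β hy
      rw [h3] at h2
      have h4 : 0 = m := by simpa using h2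
      omega

/-- the two rows at the crossing -/
theorem rows {s : List Bool} {i : ℕ} (h1 : s[i]? = some true) (h2 : s[i + 1]? = some true) :
    ∃ s0 : List Bool, i ≤ s0.length ∧ s = ins2 s0 i true ∧
      (s.set i false).set (i + 1) false = ins2 s0 i false := by
  obtain ⟨h3, h4⟩ := split_two h1 h2
  refine ⟨_, h3, h4, ?_⟩
  set s0 := s.take i ++ s.drop (i + 2) with hs0
  rw [h4]
  apply List.ext_getElem?
  intro j
  rw [List.getElem?_set, List.getElem?_set, List.length_set, ins2_length h3]
  by_cases ha : i + 1 = j
  · rw [if_pos ha, if_pos (by omega), ← ha, get_i1 h3]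
  · rw [if_neg ha]
    by_cases hb : i = j
    · rw [if_pos hb, if_pos (by omega), ← hb, get_i h3]
    · rw [if_neg hb]
      by_cases hj : j < i
      · rw [get_lt h3 hj, get_lt h3 hj]
      · obtain ⟨k, rfl⟩ : ∃ k, j = k + 2 := ⟨j - 2, by omega⟩
        rw [get_ge h3 (by omega), get_ge h3 (by omega)]

theorem cross_of {b : Bool} {i : ℕ} {a m a' : ℕ → Bool} (h1 : SStep (.death i) a m)
    (h2 : SStep (.birth i) m a') (h3 : a' i = a i) : SStep (cx b i) a a' := by
  rw [sstep_cx]
  obtain ⟨d1, d2, d3⟩ := h1
  obtain ⟨b1, b2, b3⟩ := h2
  refine ⟨fun j => ?_, d3⟩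
  by_cases hj : j < i
  · rw [b1 j hj, d1 j hj]
  · by_cases hi : j = i
    · rw [hi, h3]
    · by_cases hi' : j = i + 1
      · rw [hi', ← b3, h3, d3]
      · obtain ⟨k, rfl⟩ : ∃ k, j = k + 2 := ⟨j - 2, by omega⟩
        rw [b2 k (by omega), d2 k (by omega)]

theorem t_nugC : S_nugC := by
  rintro x y i b Dt Df ⟨Lx, Ly, s, rfl, rfl, hx, h1, h2, hy, rfl, rfl⟩ hcon
  obtain ⟨s0, hi, hs, hs2⟩ := rows h1 h2
  rw [hs2] at hy ⊢
  subst hs
  rw [ct_le' hi le_rfl, ct_le' hi le_rfl]
  have hdeath : rstep (.death i) true (ins2 s0 i true) = some s0 := by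
    simp only [rstep]
    rw [if_pos ⟨h1, h2⟩]
    congr 1
    unfold ins2
    rw [List.take_append_of_le_length (by rw [List.length_take]; omega), List.take_take,
      Nat.min_self, List.drop_append, List.drop_of_length_le (by rw [List.length_take]; omega),
      List.length_take, Nat.min_eq_left hi, show i + 2 - i = 2 by omega]
    simp
  have hbirth : rstep (.birth i) false s0 = some (ins2 s0 i false) := by
    simp only [rstep]
    rw [if_pos hi]
    rfl
  have hlen : (ins2 s0 i false).length = (ins2 s0 i true).length := by
    rw [ins2_length hi, ins2_length hi]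
  have hi2 : i + 2 ≤ (ins2 s0 i true).length := by rw [ins2_length hi]; omega
  constructor
  · refine conn_part true hx hy hlen hi2 ?_ ?_ hcon
    · have e1 : (ins2 s0 i true).count true = s0.count true + 2 := by rw [count_ins2, if_pos rfl]
      have e2 : (ins2 s0 i false).count true = s0.count true := by
        rw [count_ins2, if_neg (by simp), add_zero]
      rw [e1, e2]
      show (if ct true s0 i + 2 ≤ s0.count true + 2 then some (s0.count true + 2 - 2) else none) = _
      rw [if_pos (Nat.add_le_add_right (ct_le_count true s0 i) 2), Nat.add_sub_cancel]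
    · intro f f' hf
      refine ⟨f (ct true s0 i), cross_of (m := F true s0 f' (f (ct true s0 i)))
        (sstep_F hdeath ?_) (sstep_F hbirth ?_) ?_⟩
      · rw [if_pos rfl]
        simp only [Piece.moved, Piece.index]
        rw [ct_le' hi le_rfl]
        exact hf
      · rw [if_neg (by simp)]
      · unfold F
        rw [get_i hi, get_i hi, if_neg (by simp), if_pos rfl, ct_le' hi le_rfl]
  · refine conn_part false hx hy hlen hi2 ?_ ?_ hcon
    · have e1 : (ins2 s0 i true).count false = s0.count false := by
        rw [count_ins2, if_neg (by simp), add_zero]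
      have e2 : (ins2 s0 i false).count false = s0.count false + 2 := by
        rw [count_ins2, if_pos rfl]
      rw [e1, e2]
      show (if ct false s0 i ≤ s0.count false then some (s0.count false + 2) else none) = _
      rw [if_pos (ct_le_count false s0 i)]
    · intro f f' hf
      refine ⟨f' (ct false s0 i), cross_of (m := F false s0 f (f' (ct false s0 i)))
        (sstep_F hdeath ?_) (sstep_F hbirth ?_) ?_⟩
      · rw [if_neg (by simp)]
      · rw [if_pos rfl]
        exact hf
      · unfold F
        rw [get_i hi, get_i hi, if_pos rfl, if_neg (by simp), ct_le' hi le_rfl]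

end Pool.Agent.Helper82_Alt.PNugC
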