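import Pool.Agent.Helper82_Alt.Lay

/-!
# Separation of the two parts at a nugatory crossing
-/

set_option autoImplicit false
set_option linter.unusedSimpArgs false

namespace Pool.Agent.Helper82_Alt

open Pool.Agent.Helper454.Kauf
open Pool.Agent.Helper454.Kauf.Piece (birth death pos neg)

namespace PNugE

open PRun PLay

/-! ### the braids -/

/-- the strands `u`, `u + 1` move to the right, under `m` strands -/
def Rr : ℕ → ℕ → Word
  | _, 0 => []
  | u, m + 1 => pos (u + 1) :: pos u :: Rr (u + 1) m

/-- the strands `u`, `u + 1` move to the right, over `m` strands -/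
def Oo : ℕ → ℕ → Word
  | _, 0 => []
  | u, m + 1 => neg (u + 1) :: neg u :: Oo (u + 1) m

theorem CW_Rr {n : ℕ} : ∀ (m u : ℕ), (m = 0 ∨ u + m + 2 ≤ n) → CW n (Rr u m) := by
  intro m
  induction m with
  | zero => intro u _; exact CW.nil n
  | succ m ih =>
    intro u h
    exact CW.cons false (by omega) (CW.cons false (by omega) (ih (u + 1) (by omega)))

theorem CW_Oo {n : ℕ} : ∀ (m u : ℕ), (m = 0 ∨ u + m + 2 ≤ n) → CW n (Oo u m) := by
  intro m
  induction m with
  | zero => intro u _; exact CW.nil n
  | succ m ih =>
    intro u h
    exact CW.cons true (by omega) (CW.cons true (by omega) (ih (u + 1) (by omega)))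

theorem up_Oo (a : ℕ) : ∀ (m u : ℕ), (Oo u m).map (up a) = Oo (u + a) m := by
  intro m
  induction m with
  | zero => intro u; rfl
  | succ m ih =>
    intro u
    simp only [Oo, List.map_cons, ih, up, Piece.moved, Piece.index]
    rw [show u + 1 + a = u + a + 1 by omega]

/-- two strands pass under `m` strands and are joined -/
theorem Rr_death {n : ℕ} : ∀ (m u : ℕ), u + m + 2 ≤ n →
    E n (Rr u m ++ [death (u + m)]) [death u] := by
  intro m
  induction m with
  | zero =>
    intro u h
    refine E.refl (m := n - 2) ?_
    simp only [Rr, List.nil_append, Nat.add_zero]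
    rw [w_death _ (by omega), w_nil]
  | succ m ih =>
    intro u h
    have h1 := (ih (u + 1) (by omega)).left (m := n) [pos (u + 1), pos u]
      (width_cx2 false false (by omega) (by omega))
    have h2 := (e_sd (n := n) (i := u) true (by omega)).symm.left (m := n) [pos (u + 1)]
      (CW.pos (by omega)).width
    have h3 := (e_r2 (n := n) (i := u + 1) false (by omega)).right [death u] ⟨n - 2, by
      rw [width_append, width_cx2 _ _ (by omega) (by omega), Option.bind_some,
        w_death _ (by omega), w_nil]⟩
    have h4 : u + (m + 1) = u + 1 + m := by omega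
    rw [h4]
    simp only [Rr, List.cons_append, List.nil_append, Bool.not_true, Bool.not_false, cx_true,
      cx_false] at h1 h2 h3 ⊢
    exact h1.trans (h2.trans h3)

/-- two new strands pass over `m` strands -/
theorem birth_Oo {n : ℕ} : ∀ (m u : ℕ), u + m ≤ n →
    E n (birth u :: Oo u m) [birth (u + m)] := by
  intro m
  induction m with
  | zero =>
    intro u h
    refine E.refl (m := n + 2) ?_
    rw [show Oo u 0 = [] from rfl, w_birth _ (by omega), w_nil]
  | succ m ih =>
    intro u h
    have w1 := (CW_Oo (n := n + 2) m (u + 1) (by omega)).width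
    have h1 := (e_sb (n := n) (i := u) true (by omega)).right (neg u :: Oo (u + 1) m) ⟨n + 2, by
      simp only [List.cons_append, List.nil_append]
      rw [w_birth _ (by omega), w_cx _ _ (by omega), ← cx_true, w_cx _ _ (by omega), w1]⟩
    have h2 := ((e_r2 (n := n + 2) (i := u) false (by omega)).left (m := n) [birth (u + 1)] (by
      rw [w_birth _ (by omega), w_nil])).right (Oo (u + 1) m) ⟨n + 2, by
      simp only [List.cons_append, List.nil_append]
      rw [w_birth _ (by omega), w_cx _ _ (by omega), w_cx _ _ (by omega), w1]⟩
    have h3 := ih (u + 1) (by omega)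
    have h4 : u + (m + 1) = u + 1 + m := by omega
    rw [h4]
    simp only [Oo, List.cons_append, List.nil_append, Bool.not_true, Bool.not_false, cx_true,
      cx_false] at h1 h2 h3 ⊢
    exact h1.trans (h2.trans h3)

/-! ### layered words -/

/-- the heights of the strands of the row `s`, if `ts`, `fs` are those of the two sides -/
def mrg : List Bool → List ℕ → List ℕ → List ℕ
  | true :: s, t :: ts, fs => t :: mrg s ts fs
  | false :: s, ts, f :: fs => f :: mrg s ts fs
  | _, _, _ => []

theorem lay_mvL : ∀ (ts a r : List ℕ) (f : ℕ), (∀ t ∈ ts, f < t) →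
    Lay (a ++ (ts ++ f :: r)) (mvL a.length ts.length) (a ++ f :: (ts ++ r)) := by
  intro ts
  induction ts using List.reverseRecOn with
  | nil => intro a r f _; exact Lay.nil _
  | append_singleton ts t ih =>
    intro a r f h
    have ht : f < t := h t (by simp)
    have h1 := ih a (t :: r) f (fun x hx => h x (by simp [hx]))
    have hd : decide (f < t) = true := by simpa using ht
    have h2 := Lay.cons (a ++ ts) r t f (mvL a.length ts.length) (a ++ f :: (ts ++ t :: r))
      (by omega) (by simpa using h1)
    rw [hd, cx_true, List.length_append] at h2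
    have h3 : mvL a.length (ts ++ [t]).length =
        neg (a.length + ts.length) :: mvL a.length ts.length := by
      rw [List.length_append, List.length_singleton]; rfl
    rw [h3]
    simpa using h2

theorem lay_sh : ∀ (s : List Bool) (a ts fs : List ℕ), ts.length = s.count true →
    fs.length = s.count false → (∀ t ∈ ts, ∀ f ∈ fs, f < t) →
    Lay (a ++ (ts ++ fs)) (sh a.length s) (a ++ mrg s ts fs) := by
  intro s
  induction s with
  | nil =>
    intro a ts fs h1 h2 _
    obtain rfl := List.eq_nil_of_length_eq_zero h1
    obtain rfl := List.eq_nil_of_length_eq_zero h2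
    exact Lay.nil _
  | cons b s ih =>
    intro a ts fs h1 h2 h3
    cases b
    · rw [List.count_cons_self] at h2
      rw [List.count_cons_of_ne (by simp)] at h1
      obtain _ | ⟨f, fs⟩ := fs
      · simp at h2
      · simp only [List.length_cons, Nat.add_right_cancel_iff] at h2
        have e1 := ih (a ++ [f]) ts fs h1 h2 (fun t ht g hg => h3 t ht g (by simp [hg]))
        have e2 := lay_mvL ts a fs f (fun t ht => h3 t ht f (by simp))
        have e3 : (a ++ [f]).length = a.length + 1 := by simp
        rw [e3] at e1
        have e4 := e2.append (by simpa using e1)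
        rw [h1] at e4
        simpa [sh, mrg] using e4
    · rw [List.count_cons_self] at h1
      rw [List.count_cons_of_ne (by simp)] at h2
      obtain _ | ⟨t, ts⟩ := ts
      · simp at h1
      · simp only [List.length_cons, Nat.add_right_cancel_iff] at h1
        have e1 := ih (a ++ [t]) ts fs h1 h2 (fun t' ht g hg => h3 t' (by simp [ht]) g hg)
        have e3 : (a ++ [t]).length = a.length + 1 := by simp
        rw [e3] at e1
        simpa [sh, mrg] using e1

theorem lay_Rr : ∀ (B a r : List ℕ) (p q : ℕ), (∀ t ∈ B, p < t ∧ q < t) →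
    Lay (a ++ p :: q :: (B ++ r)) (Rr a.length B.length) (a ++ (B ++ p :: q :: r)) := by
  intro B
  induction B with
  | nil => intro a r p q _; exact Lay.nil _
  | cons t B ih =>
    intro a r p q h
    obtain ⟨hp, hq⟩ := h t (by simp)
    have e1 := ih (a ++ [t]) r p q (fun x hx => h x (by simp [hx]))
    have e3 : (a ++ [t]).length = a.length + 1 := by simp
    rw [e3] at e1
    have d1 : decide (t < p) = false := by simp only [decide_eq_false_iff_not]; omega
    have d2 : decide (t < q) = false := by simp only [decide_eq_false_iff_not]; omega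
    have e4 := Lay.cons a (q :: (B ++ r)) p t (Rr (a.length + 1) B.length)
      (a ++ [t] ++ (B ++ p :: q :: r)) (by omega) (by simpa using e1)
    have e5 := Lay.cons (a ++ [p]) (B ++ r) q t _ _ (by omega) (by simpa using e4)
    have e6 : (a ++ [p]).length = a.length + 1 := by simp
    rw [d1, d2, cx_false, cx_false, e6] at e5
    simpa [Rr] using e5

theorem lay_Oo : ∀ (B a r : List ℕ) (p q : ℕ), (∀ t ∈ B, t < p ∧ t < q) →
    Lay (a ++ p :: q :: (B ++ r)) (Oo a.length B.length) (a ++ (B ++ p :: q :: r)) := by
  intro B
  induction B with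
  | nil => intro a r p q _; exact Lay.nil _
  | cons t B ih =>
    intro a r p q h
    obtain ⟨hp, hq⟩ := h t (by simp)
    have e1 := ih (a ++ [t]) r p q (fun x hx => h x (by simp [hx]))
    have e3 : (a ++ [t]).length = a.length + 1 := by simp
    rw [e3] at e1
    have d1 : decide (t < p) = true := by simpa using hp
    have d2 : decide (t < q) = true := by simpa using hq
    have e4 := Lay.cons a (q :: (B ++ r)) p t (Oo (a.length + 1) B.length)
      (a ++ [t] ++ (B ++ p :: q :: r)) (by omega) (by simpa using e1)
    have e5 := Lay.cons (a ++ [p]) (B ++ r) q t _ _ (by omega) (by simpa using e4)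
    have e6 : (a ++ [p]).length = a.length + 1 := by simp
    rw [d1, d2, cx_true, cx_true, e6] at e5
    simpa [Oo] using e5

theorem mrg_special (sr : List Bool) (B D : List ℕ) (p q : ℕ) : ∀ (sl : List Bool)
    (A C : List ℕ), A.length = sl.count true → C.length = sl.count false →
    mrg (sl ++ true :: true :: sr) (A ++ p :: q :: B) (C ++ D) =
      mrg (sl ++ false :: false :: sr) (A ++ B) (C ++ p :: q :: D) := by
  intro sl
  induction sl with
  | nil =>
    intro A C h1 h2
    obtain rfl := List.eq_nil_of_length_eq_zero h1
    obtain rfl := List.eq_nil_of_length_eq_zero h2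
    rfl
  | cons b sl ih =>
    intro A C h1 h2
    cases b
    · rw [List.count_cons_self] at h2
      rw [List.count_cons_of_ne (by simp)] at h1
      obtain _ | ⟨f, C⟩ := C
      · simp at h2
      · simp only [List.length_cons, Nat.add_right_cancel_iff] at h2
        have := ih A C h1 h2
        simp only [List.cons_append, mrg, this]
    · rw [List.count_cons_self] at h1
      rw [List.count_cons_of_ne (by simp)] at h2
      obtain _ | ⟨t, A⟩ := A
      · simp at h1
      · simp only [List.length_cons, Nat.add_right_cancel_iff] at h1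
        have := ih A C h1 h2
        simp only [List.cons_append, mrg, this]

/-- heights -/
theorem heights (u m v w : ℕ) (b : Bool) : ∃ (A B C D : List ℕ) (p q : ℕ),
    A.length = u ∧ B.length = m ∧ C.length = v ∧ D.length = w ∧
    (A ++ p :: q :: (B ++ (C ++ D))).Nodup ∧ (∀ t ∈ A ++ B, p < t ∧ q < t) ∧
    (∀ f ∈ C ++ D, f < p ∧ f < q) ∧ p ≠ q ∧ decide (q < p) = b := by
  obtain ⟨p, q, hp, hq, hpq, hb⟩ : ∃ p q : ℕ, (v + w ≤ p ∧ p < v + w + 2) ∧
      (v + w ≤ q ∧ q < v + w + 2) ∧ p ≠ q ∧ decide (q < p) = b := by
    cases b
    · exact ⟨v + w, v + w + 1, by omega, by omega, by omega, by simp⟩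
    · exact ⟨v + w + 1, v + w, by omega, by omega, by omega, by simp⟩
  refine ⟨List.range' (v + w + 2) u, List.range' (v + w + 2 + u) m, List.range' 0 v,
    List.range' v w, p, q, by simp, by simp, by simp, by simp, ?_, ?_, ?_, hpq, hb⟩
  · have nd : ∀ s n : ℕ, (List.range' s n).Nodup := fun _ _ => List.nodup_range'
    simp only [List.nodup_append, List.nodup_cons, List.mem_append, List.mem_cons,
      List.mem_range'_1]
    refine ⟨nd _ _, ⟨by rintro (h | h | h | h) <;> omega, by rintro (h | h | h) <;> omega,
      nd _ _, ⟨nd _ _, nd _ _, ?_⟩, ?_⟩, ?_⟩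
    · rintro a ⟨_, _⟩ b ⟨_, _⟩; omega
    · rintro a ⟨_, _⟩ b (⟨_, _⟩ | ⟨_, _⟩) <;> omega
    · rintro a ⟨_, _⟩ b (h | h | ⟨_, _⟩ | ⟨_, _⟩ | ⟨_, _⟩) <;> omega
  · intro t ht
    simp only [List.mem_append, List.mem_range'_1] at ht
    omega
  · intro t ht
    simp only [List.mem_append, List.mem_range'_1] at ht
    omega

/-- the special strands first move under the strands `true` and over the strands `false` -/
theorem e_gamma (sl sr : List Bool) :
    E (sl ++ true :: true :: sr).length (sh 0 (sl ++ true :: true :: sr))
      (Rr (sl.count true) (sr.count true) ++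
        (Oo (sl.count true + sr.count true) (sl.count false) ++
          sh 0 (sl ++ false :: false :: sr))) := by
  obtain ⟨A, B, C, D, p, q, hA, hB, hC, hD, hnd, h1, h2, hpq, -⟩ :=
    heights (sl.count true) (sr.count true) (sl.count false) (sr.count false) true
  have h3 : ∀ t ∈ A ++ B, ∀ f ∈ C ++ D, f < t := fun t ht f hf => (h2 f hf).1.trans (h1 t ht).1
  have L1 := lay_sh (sl ++ true :: true :: sr) [] (A ++ p :: q :: B) (C ++ D)
    (by simp [List.count_cons, hA, hB]) (by simp [List.count_cons, hC, hD]) (by
      intro t ht f hf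
      have : t = p ∨ t = q ∨ t ∈ A ++ B := by
        simp only [List.mem_append, List.mem_cons] at ht ⊢; tauto
      rcases this with rfl | rfl | ht
      · exact (h2 f hf).1
      · exact (h2 f hf).2
      · exact h3 t ht f hf)
  have L2 := lay_Rr B A (C ++ D) p q (fun t ht => h1 t (by simp [ht]))
  have L3 := lay_Oo C (A ++ B) D p q (fun t ht => h2 t (by simp [ht]))
  have L4 := lay_sh (sl ++ false :: false :: sr) [] (A ++ B) (C ++ p :: q :: D)
    (by simp [List.count_cons, hA, hB]) (by simp [List.count_cons, hC, hD]) (by
      intro t ht f hf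
      have : f = p ∨ f = q ∨ f ∈ C ++ D := by
        simp only [List.mem_append, List.mem_cons] at hf ⊢; tauto
      rcases this with rfl | rfl | hf
      · exact (h1 t ht).1
      · exact (h1 t ht).2
      · exact h3 t ht f hf)
  rw [← mrg_special sr B D p q sl A C hA hC] at L4
  rw [List.length_append] at L3
  have L5 := L2.append (by simpa using L3.append (by simpa using L4))
  rw [hA, hB, hC] at L5
  refine uniq _ _ _ _ _ rfl hnd (by simpa using L1) (by simpa using L5) _ ?_
  simp only [List.length_append, List.length_cons, hA, hB, hC, hD]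
  have c1 := count_add sl
  have c2 := count_add sr
  omega

/-- the crossing of the special strands -/
theorem e_delta {n : ℕ} (u m : ℕ) (b : Bool) (hn : u + m + 2 ≤ n) :
    E n (cx b u :: Rr u m) (Rr u m ++ [cx b (u + m)]) := by
  obtain ⟨A, B, C, D, p, q, hA, hB, hC, hD, hnd, h1, h2, hpq, hb⟩ := heights u m 0 0 b
  obtain rfl := List.eq_nil_of_length_eq_zero hC
  obtain rfl := List.eq_nil_of_length_eq_zero hD
  have L1 := lay_Rr B A [] p q (fun t ht => h1 t (by simp [ht]))
  have L2 := Lay.cons (A ++ B) [] p q [] _ hpq (Lay.nil _)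
  have L3 : Lay (A ++ p :: q :: (B ++ [])) (Rr A.length B.length ++
      [cx (decide (q < p)) (A.length + B.length)]) (A ++ (B ++ [q, p])) :=
    L1.append (by simpa using L2)
  have L4 := lay_Rr B A [] q p (fun t ht => (h1 t (by simp [ht])).symm)
  have L5 := Lay.cons A (B ++ []) p q _ _ hpq L4
  rw [hb, hA, hB] at L5
  rw [hA, hB, hb] at L3
  refine uniq _ _ _ _ _ rfl hnd (by simpa using L5) (by simpa using L3) n ?_
  simp only [List.length_append, List.length_cons, hA, hB, List.length_nil]
  omega

theorem step {D pre l r suf : Word} {n m : ℕ} (H : E m D (pre ++ (l ++ suf))) (h : E n l r)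
    (hu : width pre m = some n) : E m D (pre ++ (r ++ suf)) := by
  obtain ⟨⟨k, h1, h2⟩, -⟩ := id H
  have := E.cong pre suf h hu ⟨k, by rw [List.append_assoc]; exact h2⟩
  rw [List.append_assoc, List.append_assoc] at this
  exact H.trans this

theorem reg_of_E {D W : Word} (h : E 0 D W) (hc : Closed D) : RegIsotopic D W := by
  have := h.2 [] [] rfl (by simpa using hc)
  simpa using this

theorem wcomp {u v : Word} {n m k : ℕ} (h : width u n = some m) (h' : width v m = some k) :
    width (u ++ v) n = some k := by
  rw [width_append, h, Option.bind_some, h']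

end PNugE

open PRun PNugE in
theorem t_nugE (hA : S_shA) (hB : S_shB) : S_nugE := by
  rintro x y i Dt Df ⟨Lx, Ly, s, rfl, rfl, hx, hi1, hi2, hy, hDt, hDf⟩
  obtain ⟨sl, sr, rfl, rfl, htake, -⟩ := split_at hi1 hi2
  have hset : (((sl ++ true :: true :: sr).set sl.length false).set (sl.length + 1) false) =
      sl ++ false :: false :: sr := by
    simp
  have hct1 : ct true (sl ++ true :: true :: sr) sl.length = sl.count true := by
    simp [ct]
  have hct2 : ct false (sl ++ true :: true :: sr) sl.length = sl.count false := by
    simp [ct]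
  rw [hset] at hy hDt hDf
  rw [hct1] at hDt
  rw [hct2] at hDf
  obtain ⟨u, hu⟩ : ∃ u, u = sl.count true := ⟨_, rfl⟩
  obtain ⟨v, hv⟩ : ∃ v, v = sl.count false := ⟨_, rfl⟩
  obtain ⟨m, hm⟩ : ∃ m, m = sr.count true := ⟨_, rfl⟩
  obtain ⟨w, hw⟩ : ∃ w, w = sr.count false := ⟨_, rfl⟩
  have cl := count_add sl
  have cr := count_add sr
  have k1 : (sl ++ true :: true :: sr).count true = u + m + 2 := by
    simp [List.count_cons, hu, hm]; omega
  have k2 : (sl ++ true :: true :: sr).count false = v + w := by
    simp [List.count_cons, hv, hw]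
  have k3 : (sl ++ false :: false :: sr).count true = u + m := by
    simp [List.count_cons, hu, hm]
  have k4 : (sl ++ false :: false :: sr).count false = v + w + 2 := by
    simp [List.count_cons, hv, hw]; omega
  obtain ⟨n, hn⟩ : ∃ n, n = sl.length + 2 + sr.length := ⟨_, rfl⟩
  have l1 : (sl ++ true :: true :: sr).length = n := by simp [hn]; omega
  have l2 : (sl ++ false :: false :: sr).length = n := by simp [hn]; omega
  have hn' : n = u + m + 2 + (v + w) := by omega
  have eX := t_run hA hB Lx [] _ hx
  have eY := t_run hA hB Ly _ _ hy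
  have wX := run_width hx
  have wY := run_width hy
  have wxt := run_subw (b := true) hx
  have wxf := run_subw (b := false) hx
  have wyt := run_subw (b := true) hy
  have wyf := run_subw (b := false) hy
  rw [k1] at eX wxt
  rw [k2] at wxf
  rw [k3] at wyt
  rw [k4] at wyf
  rw [l1] at wX
  rw [l2] at eY wY
  have eG := e_gamma sl sr
  rw [l1, ← hu, ← hm, ← hv] at eG
  rw [← hu] at hDt
  rw [← hv] at hDf
  have eC : ∀ b, E n (sh 0 (sl ++ true :: true :: sr) ++ [cx b sl.length])
      (cx b u :: sh 0 (sl ++ true :: true :: sr)) := by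
    intro b
    have := hA n 0 _ _ (cx b sl.length) true (by omega)
      (show rstep (cx b sl.length) true (sl ++ true :: true :: sr) =
        some (sl ++ true :: true :: sr) by cases b <;> simp [cx, rstep])
    rw [up_zero, up_zero] at this
    simpa [blk, cx_index, cx_moved, hct1, ← hu] using this
  simp only [List.count_nil, List.length_nil] at eX wxt wxf wyt wyf eY wX wY
  rw [up_map_zero] at eY
  simp only [sh, List.nil_append, List.append_nil] at eX eY
  generalize hxt : subw true Lx [] = xt at *
  generalize hxf : subw false Lx [] = xf at *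
  generalize hyt : subw true Ly (sl ++ false :: false :: sr) = yt at *
  generalize hyf : subw false Ly (sl ++ false :: false :: sr) = yf at *
  generalize wd Lx = X at *
  generalize wd Ly = Y at *
  generalize sh 0 (sl ++ true :: true :: sr) = S1 at *
  generalize sh 0 (sl ++ false :: false :: sr) = S2 at *
  clear hy hx hi1 hi2 htake hset hct1 hct2
  -- widths
  have wR : width (Rr u m) (u + m + 2) = some (u + m + 2) := (CW_Rr m u (by omega)).width
  have wRn : width (Rr u m) n = some n := (CW_Rr m u (by omega)).width
  have wcn : ∀ (b : Bool) (j : ℕ), j + 2 ≤ u + m + 2 → width [cx b j] (u + m + 2) =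
    some (u + m + 2) := fun b j hj => (CW.one b hj).width
  have wcX : ∀ (b : Bool) (w' : Word), width (cx b sl.length :: w') n = width w' n :=
    fun b w' => w_cx b w' (by omega)
  have wxfU : width (xf.map (up (u + m + 2))) (u + m + 2) = some n := by
    rw [hn']; exact width_up _ _ _ _ wxf
  have wxf2 : width (xf.map (up 2)) 2 = some (v + w + 2) := by
    rw [Nat.add_comm (v + w) 2]; exact width_up _ _ _ _ wxf
  have wO : width (Oo 0 v) (v + w + 2) = some (v + w + 2) := (CW_Oo v 0 (by omega)).width
  have hY2 : width (xf.map (up 2) ++ (Oo 0 v ++ yf)) 2 = some 0 := wcomp wxf2 (wcomp wO wyf)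
  have wyt2 : width yt (u + m + 2) = some 2 := by
    have := width_add 2 _ _ _ wyt
    simpa using this
  have hV : width (xt ++ (Rr u m ++ yt)) 0 = some 2 := wcomp wxt (wcomp wR wyt2)
  -- closed diagrams
  have cD : ∀ b, Closed (X ++ cx b sl.length :: Y) := by
    intro b
    unfold Closed
    rw [width_append, wX, Option.bind_some, wcX, wY]
  have cDt : Closed Dt := by
    rw [hDt]
    unfold Closed
    rw [width_append, wxt, Option.bind_some, w_death _ (by omega)]
    exact wyt
  have cDf : Closed Df := by
    rw [hDf]
    unfold Closed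
    rw [width_append, wxf, Option.bind_some, w_birth _ (by omega)]
    exact wyf
  refine ⟨cDt, cDf, cD, xt ++ (Rr u m ++ yt), xf.map (up 2) ++ (Oo 0 v ++ yf), hV, hY2, ?_, ?_, ?_⟩
  · intro b
    refine reg_of_E ?_ (cD b)
    have s0 : E 0 (X ++ cx b sl.length :: Y) ([] ++ (X ++ (cx b sl.length :: Y))) :=
      E.refl (m := 0) (cD b)
    have s1 := step s0 eX (w_nil 0)
    have s2 := step (pre := xt ++ xf.map (up (u + m + 2))) (suf := Y) (n := n)
      (by simpa only [List.append_assoc, List.cons_append, List.nil_append] using s1) (eC b)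
      (wcomp wxt wxfU)
    have s3 := step (pre := xt ++ xf.map (up (u + m + 2)) ++ [cx b u]) (suf := Y) (n := n)
      (by simpa only [List.append_assoc, List.cons_append, List.nil_append] using s2) eG
      (wcomp (wcomp wxt wxfU) (CW.one b (by omega)).width)
    have s4 := step (pre := xt ++ xf.map (up (u + m + 2)) ++ [cx b u] ++ Rr u m ++ Oo (u + m) v)
      (suf := []) (n := n)
      (by simpa only [List.append_assoc, List.cons_append, List.nil_append, List.append_nil]
        using s3) eY
      (wcomp (wcomp (wcomp (wcomp wxt wxfU) (CW.one b (by omega)).width) wRn)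
        (CW_Oo v (u + m) (by omega)).width)
    have s5 := step (pre := xt ++ xf.map (up (u + m + 2))) (suf := Oo (u + m) v ++ (yt ++ yf))
      (n := n)
      (by simpa only [List.append_assoc, List.cons_append, List.nil_append, List.append_nil]
        using s4) (e_delta (n := n) u m b (by omega)) (wcomp wxt wxfU)
    have h6 := hB (u + m + 2) (u + m + 2) (u + m + 2) (Rr u m ++ [cx b (u + m)]) xf 0 (v + w)
      (wcomp wR (wcn b (u + m) (by omega))) wxf rfl
    have s6 := step (pre := xt) (suf := Oo (u + m) v ++ (yt ++ yf)) (n := u + m + 2)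
      (by simpa only [List.append_assoc, List.cons_append, List.nil_append, List.append_nil]
        using s5) h6 wxt
    have wz : width (cx b 0 :: (xf.map (up 2) ++ Oo 0 v)) 2 = some (v + w + 2) := by
      rw [w_cx _ _ (by omega)]; exact wcomp wxf2 wO
    have h7 := hB (u + m + 2) (u + m) 0 yt (cx b 0 :: (xf.map (up 2) ++ Oo 0 v)) 2 (v + w + 2)
      wyt wz rfl
    have hz : (cx b 0 :: (xf.map (up 2) ++ Oo 0 v)).map (up (u + m)) =
        cx b (u + m) :: (xf.map (up (u + m + 2)) ++ Oo (u + m) v) := by
      rw [List.map_cons, List.map_append, up_map_map, up_Oo, up_cx, Nat.zero_add]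
    rw [hz, up_map_zero] at h7
    have s7 := step (pre := xt ++ Rr u m) (suf := yf) (n := u + m + 2)
      (by simpa only [List.append_assoc, List.cons_append, List.nil_append, List.append_nil]
        using s6) h7 (wcomp wxt wR)
    simpa only [List.append_assoc, List.cons_append, List.nil_append, List.append_nil] using s7
  · rw [hDt]
    have cV : Closed (xt ++ (Rr u m ++ yt) ++ [death 0]) := by
      unfold Closed
      rw [width_append, hV, Option.bind_some]; rfl
    refine reg_of_E ?_ cV
    have s0 : E 0 (xt ++ (Rr u m ++ yt) ++ [death 0]) (xt ++ (Rr u m ++ yt) ++ [death 0]) :=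
      E.refl (m := 0) cV
    have h1 := hB (u + m + 2) (u + m) 0 yt [death 0] 2 0 wyt rfl rfl
    rw [up_map_zero] at h1
    have s1 := step (pre := xt ++ Rr u m) (suf := []) (n := u + m + 2)
      (by simpa only [List.append_assoc, List.cons_append, List.nil_append, List.append_nil]
        using s0) h1.symm (wcomp wxt wR)
    have h2 := Rr_death (n := u + m + 2) m u (by omega)
    have s2 := step (pre := xt) (suf := yt) (n := u + m + 2)
      (by simpa only [List.append_assoc, List.cons_append, List.nil_append, List.append_nil,
        List.map_cons, List.map_nil, up_death, Nat.zero_add] using s1) h2 wxt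
    simpa only [List.append_assoc, List.cons_append, List.nil_append, List.append_nil] using s2
  · rw [hDf]
    have cY : Closed (birth 0 :: (xf.map (up 2) ++ (Oo 0 v ++ yf))) := by
      unfold Closed
      rw [w_birth _ (by omega)]
      exact hY2
    refine reg_of_E ?_ cY
    have s0 : E 0 (birth 0 :: (xf.map (up 2) ++ (Oo 0 v ++ yf)))
        (birth 0 :: (xf.map (up 2) ++ (Oo 0 v ++ yf))) := E.refl (m := 0) cY
    have h1 := hB 0 0 2 [birth 0] xf 0 (v + w) rfl wxf rfl
    rw [up_map_zero] at h1
    have s1 := step (pre := []) (suf := Oo 0 v ++ yf) (n := 0)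
      (by simpa only [List.append_assoc, List.cons_append, List.nil_append, List.append_nil]
        using s0) h1.symm (w_nil 0)
    have h2 := birth_Oo (n := v + w) v 0 (by omega)
    have s2 := step (pre := xf) (suf := yf) (n := v + w)
      (by simpa only [List.append_assoc, List.cons_append, List.nil_append, List.append_nil]
        using s1) h2 wxf
    simpa only [List.append_assoc, List.cons_append, List.nil_append, List.append_nil,
      Nat.zero_add] using s2

end Pool.Agent.Helper82_Alt
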