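import Pool.Agent.Helper82_Alt.Spec2
import Pool.Agent.Helper82_Alt.Sig

/-!
# A nugatory crossing separates the diagram
-/

set_option autoImplicit false

namespace Pool.Agent.Helper82_Alt.PNugEx

open Pool.Agent.Helper454.Kauf (Piece Word Closed width)
open PWid PCol Module

/-! ### the number of dimensions of the space of labellings -/

/-- sign of a crossing, with respect to a colour -/
def sn (c : ℕ) : Piece → ℝ
  | .pos i => if i % 2 = c then 1 else -1
  | .neg i => if i % 2 = c then 1 else -1
  | _ => 1

theorem sn_ne (c : ℕ) (p : Piece) : sn c p ≠ 0 := by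
  cases p <;> simp only [sn] <;> (try split_ifs) <;> norm_num

/-- scaling of the coordinates -/
noncomputable def scl {ι : Type} (u : ι → ℝ) (hu : ∀ t, u t ≠ 0) : (ι → ℝ) ≃ₗ[ℝ] (ι → ℝ) where
  toFun := fun x t => u t * x t
  map_add' := by intro x y; funext t; simp only [Pi.add_apply]; ring
  map_smul' := by
    intro a x; funext t; simp only [Pi.smul_apply, smul_eq_mul, RingHom.id_apply]; ring
  invFun := fun x t => (u t)⁻¹ * x t
  left_inv := by
    intro x; funext t
    show (u t)⁻¹ * (u t * x t) = x t
    rw [← mul_assoc, inv_mul_cancel₀ (hu t), one_mul]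
  right_inv := by
    intro x; funext t
    show u t * ((u t)⁻¹ * x t) = x t
    rw [← mul_assoc, mul_inv_cancel₀ (hu t), one_mul]

theorem orth_sn (ε : ℕ) (hε : ε < 2) (W : Word) (hD : Closed W)
    (g f : ℕ → ℕ → ℝ) (hg : g ∈ LL W (M (1 - ε) W)) (hf : f ∈ LL W (M ε W)) :
    ∑ t : Cr W, (sn ε W[t.1] * dL (1 - ε) W g t) * dL ε W f t = 0 := by
  have h1 := PL.t_L1 W g f hD hg.1 hf.1
  rw [← h1]
  refine (sum_cr W (fun t => sn ε W[t] * dC (1 - ε) W[t] (g t) (g (t + 1)) *
    dC ε W[t] (f t) (f (t + 1))) ?_).trans (Finset.sum_congr rfl fun t _ => ?_)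
  · intro t ht
    revert ht
    cases W[t] <;> simp [crI, dC]
  · have h2 := dC_zero hε hD hg t t.2
    have h3 := dC_zero (c := 1 - ε) (by omega) hD (r := f)
      (by rw [show 1 - (1 - ε) = ε by omega]; exact hf) t t.2
    simp only [Fin.getElem_fin]
    revert h2 h3
    cases W[(t : ℕ)] with
    | birth i => intro _ _; simp [dC, shoe]
    | death i => intro _ _; simp [dC, shoe]
    | pos i =>
      intro h2 h3
      by_cases hpt : i % 2 = ε
      · simp only [dC] at h2 h3 ⊢
        rw [if_pos hpt] at h2
        rw [if_neg (by omega)] at h3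
        rw [if_pos hpt, if_neg (by omega)]
        simp only [shoe, sn]
        rw [h2, h3, if_pos hpt]
        ring
      · simp only [dC] at h2 h3 ⊢
        rw [if_neg hpt] at h2
        rw [if_pos (by omega)] at h3
        rw [if_neg hpt, if_pos (by omega)]
        simp only [shoe, sn]
        rw [h2, h3, if_neg hpt]
        ring
    | neg i =>
      intro h2 h3
      by_cases hpt : i % 2 = ε
      · simp only [dC] at h2 h3 ⊢
        rw [if_pos hpt] at h2
        rw [if_neg (by omega)] at h3
        rw [if_pos hpt, if_neg (by omega)]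
        simp only [shoe, sn]
        rw [h2, h3, if_pos hpt]
        ring
      · simp only [dC] at h2 h3 ⊢
        rw [if_neg hpt] at h2
        rw [if_pos (by omega)] at h3
        rw [if_neg hpt, if_pos (by omega)]
        simp only [shoe, sn]
        rw [h2, h3, if_neg hpt]
        ring

/-- the mask of all gaps -/
def tt : ℕ → ℕ → Bool := fun _ _ => true

theorem tt_rlab (D : Word) : RLab D tt :=
  ⟨fun _ => rfl, fun _ _ => rfl, fun t ht => by cases D[t] <;> simp [RStep, tt]⟩

theorem mem_tt {D : Word} {r : ℕ → ℕ → ℝ} (h : RLab D r) : r ∈ LL D tt :=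
  ⟨h, fun t j h => by cases h⟩

/-- restriction to a colour -/
noncomputable def rs (c : ℕ) (D : Word) (hD : Closed D) : LL D tt →ₗ[ℝ] LL D (M c D) where
  toFun r := ⟨fun t j => if M c D t j then r.1 t j else 0, restrict_mem c hD r.2.1⟩
  map_add' x y := by
    ext t j
    show (if M c D t j then x.1 t j + y.1 t j else 0) =
      (if M c D t j then x.1 t j else 0) + (if M c D t j then y.1 t j else 0)
    split_ifs <;> simp
  map_smul' a x := by
    ext t j
    show (if M c D t j then a * x.1 t j else 0) = a * (if M c D t j then x.1 t j else 0)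
    split_ifs <;> simp

theorem dim_le {D : Word} (hD : Closed D) (hne : D ≠ []) (hcon : Connected D) :
    finrank ℝ (LL D tt) ≤ crs D + 2 := by
  obtain ⟨hf0, -⟩ := PL.t_L2 D (M 0 D) hD hne (M_rlab 0 hD)
  obtain ⟨hf1, -⟩ := PL.t_L2 D (M 1 D) hD hne (M_rlab 1 hD)
  have h1 : finrank ℝ (LL D tt) ≤ finrank ℝ (LL D (M 0 D)) + finrank ℝ (LL D (M 1 D)) := by
    rw [← Module.finrank_prod]
    refine LinearMap.finrank_le_finrank_of_injective (f := (rs 0 D hD).prod (rs 1 D hD)) ?_
    rw [injective_iff_map_eq_zero]
    rintro ⟨r, hr⟩ h
    have h0 := congrArg (fun z => z.1.1) h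
    have h1 := congrArg (fun z => z.2.1) h
    ext t j
    show r t j = 0
    have h0' : (if M 0 D t j then r t j else 0) = 0 := congrFun (congrFun h0 t) j
    have h1' : (if M 1 D t j then r t j else 0) = 0 := congrFun (congrFun h1 t) j
    have hc := col_lt D t j
    by_cases h2 : col D t j = 0
    · rw [if_pos (by unfold M; rw [h2]; rfl)] at h0'
      exact h0'
    · rw [if_pos (by unfold M; rw [show col D t j = 1 by omega]; rfl)] at h1'
      exact h1'
  have h2 : ∀ c < 2, finrank ℝ (LL D (M c D)) ≤
      finrank ℝ (LinearMap.range ((dL c D).comp (LL D (M c D)).subtype)) + 1 := by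
    intro c hc
    obtain ⟨hf, -⟩ := PL.t_L2 D (M c D) hD hne (M_rlab c hD)
    have h2 := LinearMap.finrank_range_add_finrank_ker ((dL c D).comp (LL D (M c D)).subtype)
    have h3 := ker_le hc hD hne hcon
    omega
  have h3 := h2 0 (by omega)
  have h4 := h2 1 (by omega)
  set U₀ := LinearMap.range ((dL 0 D).comp (LL D (M 0 D)).subtype) with hU₀
  set U₁ := LinearMap.range ((dL 1 D).comp (LL D (M 1 D)).subtype) with hU₁
  let e := scl (fun t : Cr D => sn 0 D[t.1]) (fun t => sn_ne 0 _)
  have h5 : finrank ℝ (U₁.map (e : (Cr D → ℝ) →ₗ[ℝ] (Cr D → ℝ))) = finrank ℝ U₁ :=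
    LinearEquiv.finrank_map_eq e _
  have h6 : U₀ ≤ PLin.orth (U₁.map (e : (Cr D → ℝ) →ₗ[ℝ] (Cr D → ℝ))) := by
    rintro _ ⟨⟨f, hf⟩, rfl⟩ _ ⟨_, ⟨⟨g, hg⟩, rfl⟩, rfl⟩
    rw [← orth_sn 0 (by omega) D hD g f hg hf]
    exact Finset.sum_congr rfl fun t _ => mul_comm _ _
  have h7 := PLin.orth_le (U₁.map (e : (Cr D → ℝ) →ₗ[ℝ] (Cr D → ℝ)))
  have h8 := Submodule.finrank_mono h6
  rw [h5, card_cr] at h7
  omega

theorem PP_tt {D : Word} (hD : Closed D) : PP D tt = crs D + 2 := by
  have h1 : ∑ t : Fin D.length, ((wid D (t + 1) : ℤ) - wid D t) = 0 := by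
    rw [telescope D.length _ (fun t => (wid D t : ℤ)) (fun t => rfl), wid_length hD, wid_zero]
    rfl
  have h2 : (crs D : ℤ) = ∑ t : Fin D.length, if crI D[t] = none then (0 : ℤ) else 1 := by
    rw [← sum_crs D]
    push_cast
    rfl
  have h3 : ∑ t : Fin D.length, 2 * PPp D[t] (tt t) (tt (t + 1)) =
      ∑ t : Fin D.length, ((wid D (t + 1) : ℤ) - wid D t) +
      ∑ t : Fin D.length, 2 * (if crI D[t] = none then (0 : ℤ) else 1) := by
    rw [← Finset.sum_add_distrib]
    refine Finset.sum_congr rfl fun t _ => ?_
    cases hp : D[(t : ℕ)] with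
    | birth i =>
      obtain ⟨a, b⟩ := step_birth hD t.2 hp
      rw [b]
      simp only [PPp, crI, tt, bi]
      push_cast
      simp
    | death i =>
      obtain ⟨a, b⟩ := step_death hD t.2 hp
      rw [← b]
      simp only [PPp, crI, tt, bi]
      push_cast
      simp
    | pos i =>
      obtain ⟨a, b⟩ := step_pos hD t.2 hp
      rw [b]
      simp [PPp, crI, tt, bi]
    | neg i =>
      obtain ⟨a, b⟩ := step_neg hD t.2 hp
      rw [b]
      simp [PPp, crI, tt, bi]
  rw [h1, zero_add, ← Finset.mul_sum, ← Finset.mul_sum, ← h2] at h3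
  unfold PP
  have h4 : bi (tt 0 0) = 1 := rfl
  rw [h4]
  linarith

theorem dim_ge {D : Word} (hD : Closed D) (hne : D ≠ []) : crs D + 2 ≤ finrank ℝ (LL D tt) := by
  obtain ⟨-, h⟩ := PL.t_L2 D tt hD hne (tt_rlab D)
  rw [PP_tt hD] at h
  exact_mod_cast h

/-- an injection of the labellings -/
theorem not_connected {D E : Word} (hD : Closed D) (hE : Closed E) (hne : D ≠ []) (hnE : E ≠ [])
    (hc : crs E + 1 ≤ crs D) (f : (ℕ → ℕ → ℝ) →ₗ[ℝ] (ℕ → ℕ → ℝ))
    (hf : ∀ r, RLab D r → RLab E (f r)) (hi : ∀ r, RLab D r → f r = 0 → r = 0) :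
    ¬ Connected E := by
  intro hcon
  obtain ⟨hfin, -⟩ := PL.t_L2 E tt hE hnE (tt_rlab E)
  have h1 : finrank ℝ (LL D tt) ≤ finrank ℝ (LL E tt) := by
    refine LinearMap.finrank_le_finrank_of_injective
      (f := (f.comp (LL D tt).subtype).codRestrict (LL E tt) fun r => mem_tt (hf r.1 r.2.1)) ?_
    rw [injective_iff_map_eq_zero]
    rintro ⟨r, hr⟩ h
    have h0 : f r = 0 := congrArg Subtype.val h
    exact Subtype.ext (hi r hr.1 h0)
  have h2 := dim_le hE hnE hcon
  have h3 := dim_ge hD hne
  omega

/-! ### words in parts -/

theorem steps_append {x y : Word} {R : ℕ → Piece → Prop} :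
    (∀ t (h : t < (x ++ y).length), R t (x ++ y)[t]) ↔
      (∀ t (h : t < x.length), R t x[t]) ∧ ∀ t (h : t < y.length), R (x.length + t) y[t] := by
  constructor
  · intro H
    refine ⟨fun t h => ?_, fun t h => ?_⟩
    · have := H t (by rw [List.length_append]; omega)
      rwa [List.getElem_append_left h] at this
    · have := H (x.length + t) (by rw [List.length_append]; omega)
      rw [List.getElem_append_right (by omega)] at this
      simpa using this
  · rintro ⟨H1, H2⟩ t h
    by_cases ht : t < x.length
    · rw [List.getElem_append_left ht]; exact H1 t ht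
    · rw [List.getElem_append_right (by omega)]
      have := H2 (t - x.length) (by rw [List.length_append] at h; omega)
      rwa [show x.length + (t - x.length) = t by omega] at this

theorem steps_cons {p : Piece} {y : Word} {R : ℕ → Piece → Prop} :
    (∀ t (h : t < (p :: y).length), R t (p :: y)[t]) ↔
      R 0 p ∧ ∀ t (h : t < y.length), R (t + 1) y[t] := by
  constructor
  · intro H
    exact ⟨H 0 (by simp), fun t h => H (t + 1) (by simpa using h)⟩
  · rintro ⟨H1, H2⟩ t h
    cases t with
    | zero => exact H1
    | succ t => exact H2 t (by simpa using h)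

/-- steps of a word in three parts, the middle one a piece -/
theorem steps_mid {x y : Word} {p : Piece} {R : ℕ → Piece → Prop} :
    (∀ t (h : t < (x ++ p :: y).length), R t (x ++ p :: y)[t]) ↔
      (∀ t (h : t < x.length), R t x[t]) ∧ R x.length p ∧
        ∀ t (h : t < y.length), R (x.length + 1 + t) y[t] := by
  rw [steps_append (R := R), steps_cons (R := fun t p => R (x.length + t) p)]
  refine and_congr_right fun _ => and_congr Iff.rfl ?_
  constructor
  · intro H t h
    have := H t h
    rwa [show x.length + (t + 1) = x.length + 1 + t by omega] at this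
  · intro H t h
    have := H t h
    rwa [show x.length + 1 + t = x.length + (t + 1) by omega] at this

theorem take_left {x z : Word} {t : ℕ} (h : t ≤ x.length) : (x ++ z).take t = x.take t := by
  rw [List.take_append_of_le_length h]

theorem take_right {x z : Word} (t : ℕ) : (x ++ z).take (x.length + t) = x ++ z.take t := by
  rw [List.take_append, List.take_of_length_le (by omega)]
  congr 2
  omega

theorem crs_append (x y : Word) : crs (x ++ y) = crs x + crs y := by
  induction x with
  | nil => simp [crs]
  | cons p x ih => cases p <;> simp only [List.cons_append, crs, ih] <;> omega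

theorem crs_cx (b : Bool) (i : ℕ) (y : Word) : crs (cx b i :: y) = crs y + 1 := by
  cases b <;> simp [cx, crs]

theorem width_cx (b : Bool) (i n : ℕ) : (cx b i).width n = if i + 2 ≤ n then some n else none := by
  cases b <;> rfl

theorem rstep_cx {G : Type} (b : Bool) (i : ℕ) (r r' : ℕ → G) :
    RStep (cx b i) r r' ↔ ∀ j, j ≠ i + 1 → r' j = r j := by
  cases b <;> rfl

theorem sstep_cx (b : Bool) (i : ℕ) (s s' : ℕ → Bool) :
    SStep (cx b i) s s' ↔ (∀ j, s' j = s j) ∧ s i = s (i + 1) := by
  cases b <;> rfl

/-- widths around the crossing -/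
theorem widths {x y : Word} {b : Bool} {i : ℕ} (h : Closed (x ++ cx b i :: y)) :
    ∃ w, width x 0 = some w ∧ i + 2 ≤ w ∧ width y w = some 0 := by
  have h1 : width (x ++ cx b i :: y) 0 = some 0 := h
  rw [width_append] at h1
  cases hw : width x 0 with
  | none => rw [hw] at h1; simp at h1
  | some w =>
    rw [hw] at h1
    have h2 : ((cx b i).width w).bind (width y) = some 0 := h1
    rw [width_cx] at h2
    split_ifs at h2 with h3
    · exact ⟨w, rfl, h3, h2⟩
    · simp at h2

/-! ### labelled words -/

/-- the side of a piece -/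
def side : Piece → (ℕ → Bool) → (ℕ → Bool) → Bool
  | .birth i, _, s' => s' i
  | .death i, s, _ => s i
  | .pos i, s, _ => s i
  | .neg i, s, _ => s i

/-- the labelled word -/
def lab : Word → (ℕ → ℕ → Bool) → LW
  | [], _ => []
  | p :: w, s => (p, side p (s 0) (s 1)) :: lab w (fun t => s (t + 1))

theorem wd_lab (w : Word) (s : ℕ → ℕ → Bool) : wd (lab w s) = w := by
  induction w generalizing s with
  | nil => rfl
  | cons p w ih =>
    show p :: wd (lab w _) = p :: w
    rw [ih]

/-- a row as a list -/
def rw' (n : ℕ) (f : ℕ → Bool) : List Bool := (List.range n).map f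

theorem rw'_length (n : ℕ) (f : ℕ → Bool) : (rw' n f).length = n := by simp [rw']

theorem rw'_get? (n : ℕ) (f : ℕ → Bool) (j : ℕ) :
    (rw' n f)[j]? = if j < n then some (f j) else none := by
  unfold rw'
  rw [List.getElem?_map]
  split_ifs with h
  · rw [List.getElem?_range h]; rfl
  · rw [List.getElem?_eq_none (by simpa using h)]; rfl

theorem rstep_row {p : Piece} {n m : ℕ} {s s' : ℕ → Bool} (h : SStep p s s')
    (hn : p.width n = some m) : rstep p (side p s s') (rw' n s) = some (rw' m s') := by
  cases p with
  | birth i =>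
    obtain ⟨h1, h2, h3⟩ := h
    simp only [Piece.width] at hn
    split_ifs at hn with hi
    rw [show side (.birth i) s s' = s' i from rfl]
    simp only [rstep]
    rw [rw'_length, if_pos hi, ← Option.some.inj hn]
    congr 1
    apply List.ext_getElem?
    intro j
    rw [rw'_get?, List.getElem?_append, List.length_take, rw'_length, Nat.min_eq_left hi]
    by_cases hj : j < i
    · rw [if_pos hj, List.getElem?_take, if_pos hj, rw'_get?, if_pos (by omega),
        if_pos (by omega), h1 j hj]
    · rw [if_neg hj]
      obtain ⟨k, rfl⟩ : ∃ k, j = i + k := ⟨j - i, by omega⟩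
      rw [show i + k - i = k by omega]
      match k with
      | 0 =>
        rw [List.getElem?_cons_zero, if_pos (by omega)]
        rfl
      | 1 =>
        rw [List.getElem?_cons_succ, List.getElem?_cons_zero, if_pos (by omega), h3]
      | k + 2 =>
        rw [List.getElem?_cons_succ, List.getElem?_cons_succ, List.getElem?_drop, rw'_get?]
        by_cases hk : i + k < n
        · rw [if_pos hk, if_pos (by omega), ← h2 (i + k) (by omega)]
          rfl
        · rw [if_neg hk, if_neg (by omega)]
  | death i =>
    obtain ⟨h1, h2, h3⟩ := h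
    simp only [Piece.width] at hn
    split_ifs at hn with hi
    rw [show side (.death i) s s' = s i from rfl]
    simp only [rstep]
    rw [if_pos ⟨by rw [rw'_get?, if_pos (by omega)], by rw [rw'_get?, if_pos (by omega), h3]⟩,
      ← Option.some.inj hn]
    congr 1
    apply List.ext_getElem?
    intro j
    rw [rw'_get?, List.getElem?_append, List.length_take, rw'_length, Nat.min_eq_left (by omega)]
    by_cases hj : j < i
    · rw [if_pos hj, List.getElem?_take, if_pos hj, rw'_get?, if_pos (by omega),
        if_pos (by omega), h1 j hj]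
    · rw [if_neg hj, List.getElem?_drop, rw'_get?, show i + 2 + (j - i) = j + 2 by omega]
      by_cases hk : j + 2 < n
      · rw [if_pos hk, if_pos (by omega), h2 j (by omega)]
      · rw [if_neg hk, if_neg (by omega)]
  | pos i =>
    obtain ⟨h1, h3⟩ := h
    simp only [Piece.width] at hn
    split_ifs at hn with hi
    rw [show side (.pos i) s s' = s i from rfl]
    simp only [rstep]
    rw [if_pos ⟨by rw [rw'_get?, if_pos (by omega)], by rw [rw'_get?, if_pos (by omega), h3]⟩,
      ← Option.some.inj hn, funext h1]
  | neg i =>
    obtain ⟨h1, h3⟩ := h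
    simp only [Piece.width] at hn
    split_ifs at hn with hi
    rw [show side (.neg i) s s' = s i from rfl]
    simp only [rstep]
    rw [if_pos ⟨by rw [rw'_get?, if_pos (by omega)], by rw [rw'_get?, if_pos (by omega), h3]⟩,
      ← Option.some.inj hn, funext h1]

theorem run_lab (w : Word) (s : ℕ → ℕ → Bool) (n m : ℕ) (hn : width w n = some m)
    (h : ∀ t (h : t < w.length), SStep w[t] (s t) (s (t + 1))) :
    run (lab w s) (rw' n (s 0)) = some (rw' m (s w.length)) := by
  induction w generalizing s n with
  | nil =>
    have : n = m := by simpa [width] using hn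
    subst this
    rfl
  | cons p w ih =>
    have h1 : (p.width n).bind (width w) = some m := hn
    cases hp : p.width n with
    | none => rw [hp] at h1; simp at h1
    | some k =>
      rw [hp] at h1
      have h2 : width w k = some m := h1
      show (rstep p (side p (s 0) (s 1)) (rw' n (s 0))).bind (run (lab w _)) = _
      rw [rstep_row (show SStep p (s 0) (s 1) from h 0 (by simp)) hp]
      exact ih (fun t => s (t + 1)) k h2 (fun t ht => h (t + 1) (by simpa using ht))

theorem run_append (A B : LW) (s : List Bool) : run (A ++ B) s = (run A s).bind (run B) := by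
  induction A generalizing s with
  | nil => rfl
  | cons p A ih =>
    show (rstep p.1 p.2 s).bind (run (A ++ B)) = ((rstep p.1 p.2 s).bind (run A)).bind (run B)
    cases rstep p.1 p.2 s with
    | none => rfl
    | some s' => exact ih s'

theorem sstep_not {p : Piece} {s s' : ℕ → Bool} (h : SStep p s s') :
    SStep p (fun j => !s j) (fun j => !s' j) := by
  cases p with
  | birth i =>
    obtain ⟨h1, h2, h3⟩ := h
    exact ⟨fun j hj => congrArg not (h1 j hj), fun j hj => congrArg not (h2 j hj),
      congrArg not h3⟩
  | death i =>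
    obtain ⟨h1, h2, h3⟩ := h
    exact ⟨fun j hj => congrArg not (h1 j hj), fun j hj => congrArg not (h2 j hj),
      congrArg not h3⟩
  | pos i =>
    obtain ⟨h1, h3⟩ := h
    exact ⟨fun j => congrArg not (h1 j), congrArg not h3⟩
  | neg i =>
    obtain ⟨h1, h3⟩ := h
    exact ⟨fun j => congrArg not (h1 j), congrArg not h3⟩

/-! ### the left and the right corner belong to the same region -/

theorem steps_two {x y : Word} {p q : Piece} {R : ℕ → Piece → Prop} :
    (∀ t (h : t < (x ++ p :: q :: y).length), R t (x ++ p :: q :: y)[t]) ↔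
      (∀ t (h : t < x.length), R t x[t]) ∧ R x.length p ∧ R (x.length + 1) q ∧
        ∀ t (h : t < y.length), R (x.length + 2 + t) y[t] := by
  rw [steps_mid (R := R), steps_cons (R := fun t p => R (x.length + 1 + t) p)]
  refine and_congr_right fun _ => and_congr_right fun _ => and_congr Iff.rfl ?_
  constructor
  · intro H t h
    have := H t h
    rwa [show x.length + 1 + (t + 1) = x.length + 2 + t by omega] at this
  · intro H t h
    have := H t h
    rwa [show x.length + 2 + t = x.length + 1 + (t + 1) by omega] at this

/-- the labellings of the resolved diagram -/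
def fA (n i : ℕ) : (ℕ → ℕ → ℝ) →ₗ[ℝ] (ℕ → ℕ → ℝ) where
  toFun r := fun t j => if t ≤ n then r t j else
    if t = n + 1 then (if j ≤ i then r n j else r n (j + 2)) else r (t - 1) j
  map_add' := by
    intro x y; funext t j; simp only [Pi.add_apply]; split_ifs <;> rfl
  map_smul' := by
    intro a x; funext t j; simp only [Pi.smul_apply, RingHom.id_apply]; split_ifs <;> rfl

theorem fA_le {n i t : ℕ} (h : t ≤ n) (r : ℕ → ℕ → ℝ) : fA n i r t = r t := by
  funext j
  show (if t ≤ n then _ else _) = _
  rw [if_pos h]

theorem fA_mid (n i : ℕ) (r : ℕ → ℕ → ℝ) (j : ℕ) :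
    fA n i r (n + 1) j = if j ≤ i then r n j else r n (j + 2) := by
  show (if n + 1 ≤ n then _ else if n + 1 = n + 1 then _ else _) = _
  rw [if_neg (by omega), if_pos rfl]

theorem fA_ge {n i t : ℕ} (h : n + 1 ≤ t) (r : ℕ → ℕ → ℝ) : fA n i r (t + 1) = r t := by
  funext j
  show (if t + 1 ≤ n then _ else if t + 1 = n + 1 then _ else _) = _
  rw [if_neg (by omega), if_neg (by omega), Nat.add_sub_cancel]

theorem caseA {x y : Word} {b : Bool} {i : ℕ} (hD : Closed (x ++ cx b i :: y))
    (hcon : Connected (x ++ cx b i :: y))
    (hWE : ∀ r : ℕ → ℕ → Bool, RLab (x ++ cx b i :: y) r → r x.length i = r x.length (i + 2)) :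
    ∃ s s2 : ℕ → ℕ → Bool, (∀ t (h : t < x.length), SStep x[t] (s t) (s (t + 1))) ∧
      (∀ t (h : t < y.length), SStep y[t] (s2 t) (s2 (t + 1))) ∧
      s x.length i = true ∧ s x.length (i + 1) = true ∧ s2 0 i = false ∧ s2 0 (i + 1) = false ∧
      ∀ j, j ≠ i → j ≠ i + 1 → s2 0 j = s x.length j := by
  obtain ⟨w, hx, hi, hy⟩ := widths hD
  set n := x.length with hn
  have hWE' : ∀ r : ℕ → ℕ → ℝ, RLab (x ++ cx b i :: y) r → r n i = r n (i + 2) := by
    intro r hr
    have h1 := hWE (fun t j => decide (r t j = r n i))
      (rlab_map₂ (fun a _ => decide (a = r n i)) hr hr)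
    simp only [decide_true] at h1
    exact (of_decide_eq_true h1.symm).symm
  have hE : Closed (x ++ .death i :: .birth i :: y) := by
    show width _ 0 = some 0
    rw [width_append, hx]
    show ((Piece.death i).width w).bind _ = some 0
    simp only [Piece.width, if_pos hi, Option.bind_some, width]
    rw [if_pos (by omega), Option.bind_some, show w - 2 + 2 = w by omega]
    exact hy
  have hnc : ¬ Connected (x ++ .death i :: .birth i :: y) := by
    refine not_connected hD hE (by simp) (by simp) ?_ (fA n i) ?_ ?_
    · rw [crs_append, crs_append, crs_cx]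
      simp only [crs]
      omega
    · intro r hr
      have hr3 := (steps_mid (R := fun t p => RStep p (r t) (r (t + 1)))).1 hr.2.2
      obtain ⟨r1, r2, r3⟩ := hr3
      rw [rstep_cx] at r2
      refine ⟨?_, ?_, ?_⟩
      · rw [fA_le (Nat.zero_le n)]
        exact hr.1
      · intro t ht
        rw [List.length_append, List.length_cons, List.length_cons] at ht
        obtain ⟨k, rfl⟩ : ∃ k, t = k + 1 := ⟨t - 1, by omega⟩
        rw [fA_ge (by omega), fA_le (Nat.zero_le n)]
        exact hr.2.1 k (by rw [List.length_append, List.length_cons]; omega)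
      · refine (steps_two (R := fun t p => RStep p (fA n i r t) (fA n i r (t + 1)))).2
          ⟨?_, ?_, ?_, ?_⟩
        · intro t ht
          rw [fA_le (by omega), fA_le (by omega)]
          exact r1 t ht
        · rw [fA_le le_rfl]
          refine ⟨fun j hj => ?_, fun j hj => ?_⟩
          · rw [fA_mid, if_pos hj]
          · rw [fA_mid]
            split_ifs with h
            · rw [show j = i by omega]
              exact (hWE' r hr).symm
            · rfl
        · show RStep (.birth i) (fA n i r (n + 1)) (fA n i r (n + 1 + 1))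
          rw [fA_ge le_rfl]
          refine ⟨fun j hj => ?_, fun j hj => ?_⟩
          · rw [fA_mid, if_pos hj]
            exact r2 j (by omega)
          · rw [fA_mid]
            refine (r2 (j + 2) (by omega)).trans ?_
            split_ifs with h
            · rw [show j = i by omega]
              exact (hWE' r hr).symm
            · rfl
        · intro t ht
          have h1 := r3 t ht
          show RStep y[t] (fA n i r (n + 2 + t)) (fA n i r (n + 2 + t + 1))
          rw [show n + 2 + t = n + 1 + t + 1 by omega, fA_ge (by omega), fA_ge (by omega)]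
          exact h1
    · intro r hr h0
      funext t j
      by_cases ht : t ≤ n
      · rw [← fA_le (i := i) ht r, h0]
      · rw [← fA_ge (i := i) (show n + 1 ≤ t by omega) r, h0]
        rfl
  unfold Connected at hnc
  push Not at hnc
  obtain ⟨s, hs, hv⟩ := hnc
  obtain ⟨s1, s2, s3, s4⟩ := (steps_two (R := fun t p => SStep p (s t) (s (t + 1)))).1 hs
  obtain ⟨d1, d2, d3⟩ := s2
  obtain ⟨b1, b2, b3⟩ := s3
  have hout : ∀ j, j ≠ i → j ≠ i + 1 → s (n + 2) j = s n j := by
    intro j h1 h2
    by_cases hj : j < i
    · rw [show n + 2 = n + 1 + 1 by omega, b1 j hj, d1 j hj]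
    · obtain ⟨k, rfl⟩ : ∃ k, j = k + 2 := ⟨j - 2, by omega⟩
      rw [show n + 2 = n + 1 + 1 by omega, b2 k (by omega), d2 k (by omega)]
  have hne : s (n + 2) i ≠ s n i := by
    intro heq
    have hall : ∀ j, s (n + 2) j = s n j := by
      intro j
      by_cases h1 : j = i
      · rw [h1, heq]
      · by_cases h2 : j = i + 1
        · rw [h2, ← d3, ← heq]
          exact b3.symm
        · exact hout j h1 h2
    obtain ⟨v, hv'⟩ := hcon (fun t => if t ≤ n then s t else s (t + 1)) (by
      refine (steps_mid (R := fun t p => SStep p ((fun t => if t ≤ n then s t else s (t + 1)) t)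
        ((fun t => if t ≤ n then s t else s (t + 1)) (t + 1)))).2 ⟨?_, ?_, ?_⟩
      · intro t ht
        show SStep x[t] (if t ≤ n then s t else s (t + 1)) (if t + 1 ≤ n then _ else _)
        rw [if_pos (by omega), if_pos (by omega)]
        exact s1 t ht
      · rw [sstep_cx]
        show (∀ j, (if n + 1 ≤ n then s (n + 1) else s (n + 1 + 1)) j =
            (if n ≤ n then s n else s (n + 1)) j) ∧
          (if n ≤ n then s n else s (n + 1)) i = (if n ≤ n then s n else s (n + 1)) (i + 1)
        rw [if_neg (by omega), if_pos le_rfl]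
        exact ⟨hall, d3⟩
      · intro t ht
        show SStep y[t] (if n + 1 + t ≤ n then _ else s (n + 1 + t + 1))
          (if n + 1 + t + 1 ≤ n then _ else s (n + 1 + t + 1 + 1))
        rw [if_neg (by omega), if_neg (by omega)]
        have := s4 t ht
        rwa [show n + 2 + t = n + 1 + t + 1 by omega] at this)
    have hv2 : ∀ t ≤ n, ∀ m, width (x.take t) 0 = some m → ∀ j < m, s t j = v := by
      intro t ht m hm j hj
      have := hv' t m (by rw [take_left ht]; exact hm) j hj
      simpa only [if_pos ht] using this
    obtain ⟨t, m, hm, j, hj, hne⟩ := hv v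
    apply hne
    by_cases ht : t ≤ n
    · rw [take_left ht] at hm
      exact hv2 t ht m hm j hj
    · obtain ⟨k, rfl⟩ : ∃ k, t = n + (k + 1) := ⟨t - n - 1, by omega⟩
      rw [take_right, width_append, hx] at hm
      have hxx : width (x.take n) 0 = some w := by rw [hn, List.take_length]; exact hx
      cases k with
      | zero =>
        have h1 : (if i + 2 ≤ w then some (w - 2) else none) = some m := by
          simpa [width, Piece.width] using hm
        rw [if_pos hi] at h1
        have h2 := Option.some.inj h1
        show s (n + 1) j = v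
        by_cases h3 : j < i
        · rw [← d1 j h3]
          exact hv2 n le_rfl w hxx j (by omega)
        · rw [← d2 j (by omega)]
          exact hv2 n le_rfl w hxx (j + 2) (by omega)
      | succ k =>
        have h1 : width (y.take k) w = some m := by
          have h2 : ((if i + 2 ≤ w then some (w - 2) else none).bind fun m1 =>
              (if i ≤ m1 then some (m1 + 2) else none).bind (width (y.take k))) = some m := hm
          rw [if_pos hi, Option.bind_some, if_pos (by omega), Option.bind_some,
            show w - 2 + 2 = w by omega] at h2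
          exact h2
        have h2 := hv' (n + (k + 1)) m (by
          rw [take_right, width_append, hx]
          show ((cx b i).width w).bind (width (y.take k)) = some m
          rw [width_cx, if_pos hi]
          exact h1) j hj
        have h3 : (if n + (k + 1) ≤ n then s (n + (k + 1)) else s (n + (k + 1) + 1)) j = v := h2
        rw [if_neg (by omega)] at h3
        exact h3
  have hi1 : s (n + 2) (i + 1) = s (n + 2) i := b3.symm
  cases h : s n i with
  | true =>
    rw [h] at hne
    have h1 : s (n + 2) i = false := by simpa using hne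
    refine ⟨s, fun t => s (n + 2 + t), s1, s4, h, by rw [← d3, h], h1, ?_, hout⟩
    show s (n + 2) (i + 1) = false
    rw [hi1, h1]
  | false =>
    rw [h] at hne
    have h1 : s (n + 2) i = true := by simpa using hne
    refine ⟨fun t j => !s t j, fun t j => !s (n + 2 + t) j, fun t ht => sstep_not (s1 t ht),
      fun t ht => sstep_not (s4 t ht), ?_, ?_, ?_, ?_, ?_⟩
    · show (!s n i) = true
      rw [h]; rfl
    · show (!s n (i + 1)) = true
      rw [← d3, h]; rfl
    · show (!s (n + 2) i) = false
      rw [h1]; rfl
    · show (!s (n + 2) (i + 1)) = false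
      rw [hi1, h1]; rfl
    · intro j a c
      show (!s (n + 2) j) = !s n j
      rw [hout j a c]

/-! ### the top and the bottom corner belong to the same region -/

/-- the labellings of the resolved diagram -/
def fB (n : ℕ) : (ℕ → ℕ → ℝ) →ₗ[ℝ] (ℕ → ℕ → ℝ) where
  toFun r := fun t => if t ≤ n then r t else r (t + 1)
  map_add' := by
    intro x y; funext t; simp only [Pi.add_apply]; split_ifs <;> rfl
  map_smul' := by
    intro a x; funext t; simp only [Pi.smul_apply, RingHom.id_apply]; split_ifs <;> rfl

theorem fB_le {n t : ℕ} (h : t ≤ n) (r : ℕ → ℕ → ℝ) : fB n r t = r t := if_pos h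

theorem fB_gt {n t : ℕ} (h : n < t) (r : ℕ → ℕ → ℝ) : fB n r t = r (t + 1) :=
  if_neg (by omega)

theorem caseB {x y : Word} {b : Bool} {i : ℕ} (hD : Closed (x ++ cx b i :: y))
    (hcon : Connected (x ++ cx b i :: y))
    (hNS : ∀ r : ℕ → ℕ → Bool, RLab (x ++ cx b i :: y) r →
      r x.length (i + 1) = r (x.length + 1) (i + 1)) :
    ∃ s s2 : ℕ → ℕ → Bool, (∀ t (h : t < x.length), SStep x[t] (s t) (s (t + 1))) ∧
      (∀ t (h : t < y.length), SStep y[t] (s2 t) (s2 (t + 1))) ∧
      s x.length i = true ∧ s x.length (i + 1) = false ∧ s2 0 = s x.length := by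
  obtain ⟨w, hx, hi, hy⟩ := widths hD
  set n := x.length with hn
  have hNS' : ∀ r : ℕ → ℕ → ℝ, RLab (x ++ cx b i :: y) r → r n (i + 1) = r (n + 1) (i + 1) := by
    intro r hr
    have h1 := hNS (fun t j => decide (r t j = r n (i + 1)))
      (rlab_map₂ (fun a _ => decide (a = r n (i + 1))) hr hr)
    simp only [decide_true] at h1
    exact (of_decide_eq_true h1.symm).symm
  have hE : Closed (x ++ y) := by
    show width _ 0 = some 0
    rw [width_append, hx]
    exact hy
  have hxne : x ≠ [] := by
    rintro rfl
    have : w = 0 := by simpa [width] using hx.symm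
    omega
  have hnc : ¬ Connected (x ++ y) := by
    refine not_connected hD hE (by simp) (by simp [hxne]) ?_ (fB n) ?_ ?_
    · rw [crs_append, crs_append, crs_cx]
      omega
    · intro r hr
      have hr3 := (steps_mid (R := fun t p => RStep p (r t) (r (t + 1)))).1 hr.2.2
      obtain ⟨r1, r2, r3⟩ := hr3
      rw [rstep_cx] at r2
      have hrow : r (n + 1) = r n := by
        funext j
        by_cases hj : j = i + 1
        · rw [hj]; exact (hNS' r hr).symm
        · exact r2 j hj
      have hge : ∀ t, n ≤ t → fB n r t = r (t + 1) := by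
        intro t ht
        by_cases h : t = n
        · rw [h, fB_le le_rfl, hrow]
        · exact fB_gt (by omega) r
      refine ⟨?_, ?_, ?_⟩
      · rw [fB_le (Nat.zero_le n)]
        exact hr.1
      · intro t ht
        rw [List.length_append] at ht
        rw [hge t (by omega), fB_le (Nat.zero_le n)]
        exact hr.2.1 _ (by rw [List.length_append, List.length_cons]; omega)
      · refine (steps_append (R := fun t p => RStep p (fB n r t) (fB n r (t + 1)))).2 ⟨?_, ?_⟩
        · intro t ht
          rw [fB_le (by omega), fB_le (by omega)]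
          exact r1 t ht
        · intro t ht
          have h1 := r3 t ht
          show RStep y[t] (fB n r (n + t)) (fB n r (n + t + 1))
          rw [hge _ (by omega), hge _ (by omega)]
          rwa [show n + 1 + t = n + t + 1 by omega] at h1
    · intro r hr h0
      have hr3 := (steps_mid (R := fun t p => RStep p (r t) (r (t + 1)))).1 hr.2.2
      obtain ⟨r1, r2, r3⟩ := hr3
      rw [rstep_cx] at r2
      funext t j
      by_cases ht : t ≤ n
      · rw [← fB_le ht r, h0]
      · by_cases ht2 : t = n + 1
        · rw [ht2]
          by_cases hj : j = i + 1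
          · rw [hj, ← hNS' r hr, ← fB_le le_rfl r, h0]
            rfl
          · rw [r2 j hj]
            show r n j = 0
            rw [← fB_le le_rfl r, h0]
            rfl
        · obtain ⟨k, rfl⟩ : ∃ k, t = k + 1 := ⟨t - 1, by omega⟩
          rw [← fB_gt (show n < k by omega) r, h0]
          rfl
  unfold Connected at hnc
  push Not at hnc
  obtain ⟨s, hs, hv⟩ := hnc
  obtain ⟨s1, s2⟩ := (steps_append (R := fun t p => SStep p (s t) (s (t + 1)))).1 hs
  have hne : s n i ≠ s n (i + 1) := by
    intro heq
    obtain ⟨v, hv'⟩ := hcon (fun t => if t ≤ n then s t else s (t - 1)) (by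
      refine (steps_mid (R := fun t p => SStep p ((fun t => if t ≤ n then s t else s (t - 1)) t)
        ((fun t => if t ≤ n then s t else s (t - 1)) (t + 1)))).2 ⟨?_, ?_, ?_⟩
      · intro t ht
        show SStep x[t] (if t ≤ n then s t else s (t - 1)) (if t + 1 ≤ n then _ else _)
        rw [if_pos (by omega), if_pos (by omega)]
        exact s1 t ht
      · rw [sstep_cx]
        show (∀ j, (if n + 1 ≤ n then s (n + 1) else s (n + 1 - 1)) j =
            (if n ≤ n then s n else s (n - 1)) j) ∧
          (if n ≤ n then s n else s (n - 1)) i = (if n ≤ n then s n else s (n - 1)) (i + 1)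
        rw [if_neg (by omega), if_pos le_rfl, Nat.add_sub_cancel]
        exact ⟨fun j => rfl, heq⟩
      · intro t ht
        show SStep y[t] (if n + 1 + t ≤ n then _ else s (n + 1 + t - 1))
          (if n + 1 + t + 1 ≤ n then _ else s (n + 1 + t + 1 - 1))
        rw [if_neg (by omega), if_neg (by omega), show n + 1 + t - 1 = n + t by omega,
          show n + 1 + t + 1 - 1 = n + t + 1 by omega]
        exact s2 t ht)
    obtain ⟨t, m, hm, j, hj, hne⟩ := hv v
    apply hne
    by_cases ht : t ≤ n
    · rw [take_left ht] at hm
      have := hv' t m (by rw [take_left ht]; exact hm) j hj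
      simpa only [if_pos ht] using this
    · obtain ⟨k, rfl⟩ : ∃ k, t = n + k := ⟨t - n, by omega⟩
      rw [take_right, width_append, hx] at hm
      have h1 : width (y.take k) w = some m := hm
      have h2 := hv' (n + (k + 1)) m (by
        rw [take_right, width_append, hx]
        show ((cx b i).width w).bind (width (y.take k)) = some m
        rw [width_cx, if_pos hi]
        exact h1) j hj
      have h3 : (if n + (k + 1) ≤ n then s (n + (k + 1)) else s (n + (k + 1) - 1)) j = v := h2
      rw [if_neg (by omega), show n + (k + 1) - 1 = n + k by omega] at h3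
      exact h3
  cases h : s n i with
  | true =>
    rw [h] at hne
    have h1 : s n (i + 1) = false := by simpa using hne.symm
    exact ⟨s, fun t => s (n + t), s1, s2, h, h1, rfl⟩
  | false =>
    rw [h] at hne
    have h1 : s n (i + 1) = true := by simpa using hne.symm
    refine ⟨fun t j => !s t j, fun t j => !s (n + t) j, fun t ht => sstep_not (s1 t ht),
      fun t ht => sstep_not (s2 t ht), ?_, ?_, rfl⟩
    · show (!s n i) = true
      rw [h]; rfl
    · show (!s n (i + 1)) = false
      rw [h1]; rfl

/-! ### rows as lists -/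

theorem split_row {S : List Bool} {i : ℕ} {a b : Bool} (h1 : S[i]? = some a)
    (h2 : S[i + 1]? = some b) : ∃ A B : List Bool, A.length = i ∧ S = A ++ a :: b :: B := by
  obtain ⟨hi, ha⟩ := List.getElem?_eq_some_iff.1 h1
  obtain ⟨hi', hb⟩ := List.getElem?_eq_some_iff.1 h2
  refine ⟨S.take i, S.drop (i + 2), by rw [List.length_take]; omega, ?_⟩
  rw [← ha, ← hb]
  conv_lhs => rw [← List.take_append_drop i S, List.drop_eq_getElem_cons hi,
    List.drop_eq_getElem_cons hi']

theorem t_nugEx : S_nugEx := by
  intro x y i b hD hcon hnn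
  obtain ⟨w, hx, hi, hy⟩ := widths hD
  unfold NotNugatory at hnn
  rw [not_and_or] at hnn
  rcases hnn with h | h
  · left
    push Not at h
    obtain ⟨s, s2, h1, h2, h3, h4, h5, h6, h7⟩ := caseA hD hcon h
    refine ⟨_, _, lab x s, lab y s2, rw' w (s x.length), wd_lab _ _, wd_lab _ _,
      run_lab x s 0 w hx h1, ?_, ?_, ?_, rfl, rfl⟩
    · rw [rw'_get?, if_pos (by omega), h3]
    · rw [rw'_get?, if_pos (by omega), h4]
    · have h8 : ((rw' w (s x.length)).set i false).set (i + 1) false = rw' w (s2 0) := by
        apply List.ext_getElem?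
        intro j
        rw [List.getElem?_set, List.getElem?_set, List.length_set, rw'_length, rw'_get?, rw'_get?]
        by_cases ha : i + 1 = j
        · rw [if_pos ha, if_pos (by omega), if_pos (by omega), ← ha, h6]
        · rw [if_neg ha]
          by_cases hb : i = j
          · rw [if_pos hb, if_pos (by omega), if_pos (by omega), ← hb, h5]
          · rw [if_neg hb, h7 j (by omega) (by omega)]
      rw [h8]
      exact run_lab y s2 w 0 hy h2
  · right
    push Not at h
    obtain ⟨s, s2, h1, h2, h3, h4, h5⟩ := caseB hD hcon h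
    obtain ⟨A, B, hA, hS⟩ := split_row (S := rw' w (s x.length)) (i := i) (a := true) (b := false)
      (by rw [rw'_get?, if_pos (by omega), h3]) (by rw [rw'_get?, if_pos (by omega), h4])
    have hr1 : run (lab x s) [] = some (A ++ true :: false :: B) := by
      rw [← hS]; exact run_lab x s 0 w hx h1
    have hr2 : run (lab y s2) (A ++ true :: false :: B) = some [] := by
      rw [← hS, ← h5]; exact run_lab y s2 w 0 hy h2
    subst hA
    refine ⟨_, _, lab x s ++ [(.birth A.length, true)], (.death (A.length + 2), false) :: lab y s2,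
      A ++ true :: true :: true :: false :: B, ?_, ?_, ?_, ?_, ?_, ?_, rfl, rfl⟩
    · show List.map _ (lab x s ++ _) = _
      rw [List.map_append]
      exact congrArg (· ++ [Piece.birth A.length]) (wd_lab x s)
    · exact congrArg (Piece.death (A.length + 2) :: ·) (wd_lab y s2)
    · rw [run_append, hr1]
      simp [run, rstep]
    · rw [List.getElem?_append_right (by omega)]
      simp
    · rw [List.getElem?_append_right (by omega)]
      simp [show A.length + 1 + 1 - A.length = 2 by omega]
    · have e1 : ((A ++ true :: true :: true :: false :: B).set (A.length + 1) false).set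
          (A.length + 1 + 1) false = A ++ true :: false :: false :: false :: B := by
        rw [List.set_append_right _ _ (by omega), List.set_append_right _ _ (by omega)]
        simp [show A.length + 1 + 1 - A.length = 2 by omega]
      rw [e1]
      show (rstep (.death (A.length + 2)) false _).bind (run (lab y s2)) = some []
      have e2 : rstep (.death (A.length + 2)) false (A ++ true :: false :: false :: false :: B) =
          some (A ++ true :: false :: B) := by
        simp only [rstep]
        rw [if_pos ⟨by rw [List.getElem?_append_right (by omega)]; simp,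
          by rw [List.getElem?_append_right (by omega)]
             simp [show A.length + 2 + 1 - A.length = 3 by omega]⟩]
        congr 1
        rw [List.take_append, List.drop_append, List.take_of_length_le (by omega),
          List.drop_of_length_le (by omega), show A.length + 2 + 2 - A.length = 4 by omega,
          show A.length + 2 - A.length = 2 by omega]
        simp
      rw [e2]
      exact hr2

end Pool.Agent.Helper82_Alt.PNugEx
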