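import Pool.Agent.Helper82_Alt.NugC

/-!
# Colours and numbers of the parts at a nugatory crossing
-/

set_option autoImplicit false

namespace Pool.Agent.Helper82_Alt.PNugK2

open Pool.Agent.Helper454.Kauf (Piece Word Closed width)
open PWid PNugEx PNugC

/-! ### the parity labelling -/

/-- is the parity of the number of strands of the other side on the left equal to `r`? -/
def Q (β : Bool) (r : ℕ) (s : List Bool) (k : ℕ) : Bool :=
  if s[k]? = some β then decide (ct (!β) s k % 2 = r) else true

theorem Q_ins2 {β b : Bool} {r : ℕ} {s : List Bool} {i : ℕ} (hi : i ≤ s.length) :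
    SStep (.birth i) (Q β r s) (Q β r (ins2 s i b)) := by
  refine ⟨fun j hj => ?_, fun j hj => ?_, ?_⟩
  · unfold Q
    rw [get_lt hi hj, ct_le' hi hj.le]
  · unfold Q
    rw [get_ge hi hj, ct_ge' hi hj]
    have h : (ct (!β) s j + if b = !β then 2 else 0) % 2 = ct (!β) s j % 2 := by
      split_ifs <;> omega
    rw [h]
  · unfold Q
    rw [get_i hi, get_i1 hi, ct_mid hi, ct_le' hi le_rfl]
    by_cases hb : b = β
    · have h : ¬ (b = !β) := by subst hb; cases b <;> simp
      rw [if_neg h, add_zero]
    · rw [if_neg (by simpa using hb), if_neg (by simpa using hb)]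

theorem Q_same {β b : Bool} {r : ℕ} {s : List Bool} {i : ℕ} (h1 : s[i]? = some b)
    (h2 : s[i + 1]? = some b) : Q β r s i = Q β r s (i + 1) := by
  unfold Q
  rw [h1, h2, ct_succ h1]
  by_cases hb : b = β
  · have h : ¬ (b = !β) := by subst hb; cases b <;> simp
    rw [if_neg h, add_zero]
  · rw [if_neg (by simpa using hb), if_neg (by simpa using hb)]

theorem sstep_Q {β b : Bool} {r : ℕ} {p : Piece} {s s' : List Bool}
    (h : rstep p b s = some s') : SStep p (Q β r s) (Q β r s') := by
  cases p with
  | birth i =>
    obtain ⟨hi, rfl⟩ := rstep_birth h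
    exact Q_ins2 hi
  | death i =>
    obtain ⟨hi, rfl⟩ := rstep_death h
    exact Q_ins2 (b := b) (i := i) hi
  | pos i =>
    obtain ⟨rfl, h1, h2⟩ := rstep_pos h
    exact ⟨fun j => rfl, Q_same h1 h2⟩
  | neg i =>
    obtain ⟨rfl, h1, h2⟩ := rstep_neg h
    exact ⟨fun j => rfl, Q_same h1 h2⟩

/-- the parity is `r` at all pieces of the side `β` -/
def Good (β : Bool) (r : ℕ) : LW → List Bool → Prop
  | [], _ => True
  | p :: L, s => (p.2 = β → ct (!β) s p.1.index % 2 = r) ∧
      Good β r L ((rstep p.1 p.2 s).getD s)

theorem Q_true {β : Bool} {r k : ℕ} {s : List Bool} (h1 : s[k]? = some β)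
    (h : Q β r s k = true) : ct (!β) s k % 2 = r := by
  unfold Q at h
  rw [if_pos h1] at h
  simpa using h

theorem good_run (β : Bool) (r : ℕ) {L : LW} {s s' : List Bool} (h : run L s = some s') :
    ∃ S : ℕ → ℕ → Bool, (∀ t (ht : t < (wd L).length), SStep (wd L)[t] (S t) (S (t + 1))) ∧
      S 0 = Q β r s ∧ S (wd L).length = Q β r s' ∧
      (Const (wd L) s.length S true → Good β r L s) := by
  induction L generalizing s with
  | nil =>
    obtain rfl : s = s' := Option.some.inj h
    exact ⟨fun _ => Q β r s, fun t ht => absurd ht (by simp [wd]), rfl, rfl, fun _ => trivial⟩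
  | cons p L ih =>
    have h1 : (rstep p.1 p.2 s).bind (run L) = some s' := h
    cases h2 : rstep p.1 p.2 s with
    | none => rw [h2] at h1; simp at h1
    | some s1 =>
      rw [h2] at h1
      have h3 : run L s1 = some s' := h1
      obtain ⟨S, hS, hS0, hS1, hSc⟩ := ih h3
      refine ⟨fun t => match t with
          | 0 => Q β r s
          | t + 1 => S t, ?_, rfl, hS1, ?_⟩
      · refine (steps_cons (R := fun t q => SStep q _ _)).2 ⟨?_, hS⟩
        show SStep p.1 (Q β r s) (S 0)
        rw [hS0]
        exact sstep_Q h2
      · intro hv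
        have hv0 : ∀ j < s.length, Q β r s j = true := hv 0 (Nat.zero_le _) s.length rfl
        have hv1 : ∀ j < s1.length, S 0 j = true := by
          refine hv 1 (by simp [wd]) s1.length ?_
          show (p.1.width s.length).bind (width ((wd L).take 0)) = some s1.length
          rw [width_rstep h2]
          rfl
        rw [hS0] at hv1
        refine ⟨fun hb => ?_, ?_⟩
        · subst hb
          obtain ⟨q, b⟩ := p
          simp only at h2 hv0 hv1 ⊢
          cases q with
          | birth i =>
            obtain ⟨hi, rfl⟩ := rstep_birth h2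
            simp only [Piece.index]
            have := Q_true (get_i hi) (hv1 i (by rw [ins2_length hi]; omega))
            rwa [ct_le' hi le_rfl] at this
          | death i =>
            obtain ⟨hi, rfl⟩ := rstep_death h2
            simp only [Piece.index]
            exact Q_true (get_i hi) (hv0 i (by rw [ins2_length hi]; omega))
          | pos i =>
            obtain ⟨rfl, h4, -⟩ := rstep_pos h2
            simp only [Piece.index]
            exact Q_true h4 (hv0 i (lt_of_get h4))
          | neg i =>
            obtain ⟨rfl, h4, -⟩ := rstep_neg h2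
            simp only [Piece.index]
            exact Q_true h4 (hv0 i (lt_of_get h4))
        · rw [h2, Option.getD_some]
          apply hSc
          intro t ht m hm j hj
          refine hv (t + 1) (Nat.succ_le_succ ht) m ?_ j hj
          show (p.1.width s.length).bind (width ((wd L).take t)) = some m
          rw [width_rstep h2]
          exact hm

/-- the parities in a connected diagram with a nugatory crossing -/
theorem good_of (β : Bool) {i : ℕ} {b : Bool} {Lx Ly : LW} {s0 : List Bool}
    (hi : i ≤ s0.length) (hx : run Lx [] = some (ins2 s0 i true))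
    (hy : run Ly (ins2 s0 i false) = some [])
    (hcon : Connected (wd Lx ++ cx b i :: wd Ly)) :
    Good β (ct (!β) s0 i % 2) Lx [] ∧ Good β (ct (!β) s0 i % 2) Ly (ins2 s0 i false) ∧
      ((ins2 s0 i true)[0]? = some β → ct (!β) s0 i % 2 = 0) := by
  set r := ct (!β) s0 i % 2 with hr
  obtain ⟨Sx, x1, x2, x3, x4⟩ := good_run β r hx
  obtain ⟨Sy, y1, y2, y3, y4⟩ := good_run β r hy
  have hc : SStep (cx b i) (Q β r (ins2 s0 i true)) (Q β r (ins2 s0 i false)) := by
    refine cross_of (m := Q β r s0) (Q_ins2 (b := true) (i := i) hi) (Q_ins2 hi) ?_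
    unfold Q
    rw [get_i hi, get_i hi, ct_le' hi le_rfl, ct_le' hi le_rfl]
    cases β <;> simp [hr]
  have hlen : (ins2 s0 i true).length = (ins2 s0 i false).length := by
    rw [ins2_length hi, ins2_length hi]
  obtain ⟨v, hv⟩ := hcon (fun t => if t ≤ (wd Lx).length then Sx t else
      Sy (t - (wd Lx).length - 1)) (by
    refine (steps_mid (R := fun t p => SStep p
      ((fun t => if t ≤ (wd Lx).length then Sx t else Sy (t - (wd Lx).length - 1)) t)
      ((fun t => if t ≤ (wd Lx).length then Sx t else Sy (t - (wd Lx).length - 1)) (t + 1)))).2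
        ⟨?_, ?_, ?_⟩
    · intro t ht
      show SStep (wd Lx)[t] (if t ≤ (wd Lx).length then Sx t else _)
        (if t + 1 ≤ (wd Lx).length then Sx (t + 1) else _)
      rw [if_pos (by omega), if_pos (by omega)]
      exact x1 t ht
    · show SStep (cx b i) (if (wd Lx).length ≤ (wd Lx).length then Sx (wd Lx).length else _)
        (if (wd Lx).length + 1 ≤ (wd Lx).length then _ else
          Sy ((wd Lx).length + 1 - (wd Lx).length - 1))
      rw [if_pos le_rfl, if_neg (by omega),
        show (wd Lx).length + 1 - (wd Lx).length - 1 = 0 by omega, x3, y2]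
      exact hc
    · intro t ht
      show SStep (wd Ly)[t]
        (if (wd Lx).length + 1 + t ≤ (wd Lx).length then _ else
          Sy ((wd Lx).length + 1 + t - (wd Lx).length - 1))
        (if (wd Lx).length + 1 + t + 1 ≤ (wd Lx).length then _ else
          Sy ((wd Lx).length + 1 + t + 1 - (wd Lx).length - 1))
      rw [if_neg (by omega), if_neg (by omega),
        show (wd Lx).length + 1 + t - (wd Lx).length - 1 = t by omega,
        show (wd Lx).length + 1 + t + 1 - (wd Lx).length - 1 = t + 1 by omega]
      exact y1 t ht)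
  have hwx : width (wd Lx) 0 = some (ins2 s0 i true).length := width_wd hx
  have hcx : Const (wd Lx) 0 Sx v := by
    intro t ht m hm j hj
    have := hv t m (by rw [take_left ht]; exact hm) j hj
    simpa only [if_pos ht] using this
  have hcy : Const (wd Ly) (ins2 s0 i false).length Sy v := by
    intro t ht m hm j hj
    have := hv ((wd Lx).length + (t + 1)) m (by
      rw [take_right, width_append, hwx]
      show ((cx b i).width _).bind (width ((wd Ly).take t)) = some m
      rw [width_cx, if_pos (by rw [ins2_length hi]; omega), hlen]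
      exact hm) j hj
    have h2 : (if (wd Lx).length + (t + 1) ≤ (wd Lx).length then Sx ((wd Lx).length + (t + 1)) else
        Sy ((wd Lx).length + (t + 1) - (wd Lx).length - 1)) j = v := this
    rw [if_neg (by omega), show (wd Lx).length + (t + 1) - (wd Lx).length - 1 = t by omega] at h2
    exact h2
  -- the label is `true`
  have hrow : ∀ j < (ins2 s0 i true).length, Q β r (ins2 s0 i true) j = v := by
    intro j hj
    have := hcx (wd Lx).length le_rfl (ins2 s0 i true).length (by
      rw [List.take_length]; exact hwx) j hj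
    rwa [x3] at this
  have hvt : v = true := by
    rw [← hrow i (by rw [ins2_length hi]; omega)]
    unfold Q
    rw [get_i hi, ct_le' hi le_rfl]
    cases β <;> simp [hr]
  subst hvt
  refine ⟨x4 hcx, y4 hcy, fun h0 => ?_⟩
  have := Q_true h0 (hrow 0 (by rw [ins2_length hi]; omega))
  rw [ct_zero] at this
  exact this.symm

/-! ### sums over the pieces -/

theorem ct_add (s : List Bool) (k : ℕ) (h : k ≤ s.length) : ct true s k + ct false s k = k := by
  unfold ct
  rw [List.count_true_add_count_false, List.length_take]
  omega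

theorem index_le {p : Piece} {b : Bool} {s s' : List Bool} (h : rstep p b s = some s') :
    p.index ≤ s.length := by
  cases p with
  | birth i =>
    obtain ⟨hi, rfl⟩ := rstep_birth h
    exact hi
  | death i =>
    obtain ⟨hi, rfl⟩ := rstep_death h
    rw [ins2_length hi]
    simp only [Piece.index]
    omega
  | pos i =>
    obtain ⟨rfl, h4, -⟩ := rstep_pos h
    exact (lt_of_get h4).le
  | neg i =>
    obtain ⟨rfl, h4, -⟩ := rstep_neg h
    exact (lt_of_get h4).le

theorem wh_shift {ε w k k' d : ℕ} (hε : ε < 2) (h : k = k' + d) (hd : d % 2 = w % 2) :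
    wh ((ε + w) % 2) k' = wh ε k := by
  unfold wh
  by_cases h1 : k % 2 = ε
  · rw [if_pos h1, if_pos (by omega)]
  · rw [if_neg h1, if_neg (by omega)]

theorem K2P_shift {ε w k' d : ℕ} {p : Piece} (hε : ε < 2) (h : p.index = k' + d)
    (hd : d % 2 = w % 2) : K2P ((ε + w) % 2) (p.moved k') = K2P ε p := by
  cases p with
  | birth i =>
    simp only [Piece.index] at h
    simp only [Piece.moved, K2P]
    rw [wh_shift (k := i) hε h hd, wh_shift (k := i + 1) hε (k' := k' + 1) (by omega) hd]
  | death i =>
    simp only [Piece.index] at h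
    simp only [Piece.moved, K2P]
    rw [wh_shift (k := i) hε h hd, wh_shift (k := i + 1) hε (k' := k' + 1) (by omega) hd]
  | pos i => rfl
  | neg i => rfl

/-- the parity condition for one piece -/
def PT (ε : ℕ) (p : Piece) : Prop :=
  match p with
  | .pos i => i % 2 = ε
  | .neg i => i % 2 ≠ ε
  | _ => True

theorem PT_shift {ε w k' d : ℕ} {p : Piece} (hε : ε < 2) (h : p.index = k' + d)
    (hd : d % 2 = w % 2) (hp : PT ε p) : PT ((ε + w) % 2) (p.moved k') := by
  cases p with
  | birth i => trivial
  | death i => trivial
  | pos i =>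
    simp only [Piece.index] at h
    simp only [Piece.moved, PT] at hp ⊢
    omega
  | neg i =>
    simp only [Piece.index] at h
    simp only [Piece.moved, PT] at hp ⊢
    omega

theorem crs_cons (p : Piece) (w : Word) : crs (p :: w) = crs w + crs [p] := by
  cases p <;> rfl

theorem crs_moved (p : Piece) (k : ℕ) : crs [p.moved k] = crs [p] := by
  cases p <;> rfl

theorem parts {ε u v : ℕ} (hε : ε < 2) {L : LW} {s s' : List Bool} (h : run L s = some s')
    (ht : Good true (v % 2) L s) (hf : Good false (u % 2) L s) :
    crs (subw true L s) + crs (subw false L s) = crs (wd L) ∧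
    ((subw true L s).map (K2P ((ε + v) % 2))).sum +
      ((subw false L s).map (K2P ((ε + u) % 2))).sum = ((wd L).map (K2P ε)).sum ∧
    ((∀ p ∈ wd L, PT ε p) → (∀ p ∈ subw true L s, PT ((ε + v) % 2) p) ∧
      ∀ p ∈ subw false L s, PT ((ε + u) % 2) p) := by
  induction L generalizing s with
  | nil => exact ⟨rfl, rfl, fun _ => ⟨by simp [subw], by simp [subw]⟩⟩
  | cons p L ih =>
    have h1 : (rstep p.1 p.2 s).bind (run L) = some s' := h
    cases h2 : rstep p.1 p.2 s with
    | none => rw [h2] at h1; simp at h1
    | some s1 =>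
      rw [h2] at h1
      have h3 : run L s1 = some s' := h1
      obtain ⟨t1, t2⟩ := ht
      obtain ⟨f1, f2⟩ := hf
      rw [h2, Option.getD_some] at t2 f2
      obtain ⟨a1, a2, a3⟩ := ih h3 t2 f2
      have hidx := ct_add s p.1.index (index_le h2)
      have hwd : wd (p :: L) = p.1 :: wd L := rfl
      rw [hwd, subw_cons true p L h2, subw_cons false p L h2]
      rcases hp : p.2 with _ | _
      · -- false
        have hd := f1 hp
        rw [if_neg (by simp), if_pos rfl]
        have hidx' : p.1.index = ct false s p.1.index + ct true s p.1.index := by omega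
        refine ⟨?_, ?_, fun hpt => ?_⟩
        · rw [crs_cons, crs_cons p.1, crs_moved]
          omega
        · rw [List.map_cons, List.sum_cons, List.map_cons, List.sum_cons,
            K2P_shift (w := u) hε hidx' hd]
          linarith
        · obtain ⟨b1, b2⟩ := a3 (fun q hq => hpt q (List.mem_cons_of_mem _ hq))
          refine ⟨b1, fun q hq => ?_⟩
          rcases List.mem_cons.1 hq with rfl | hq
          · exact PT_shift hε hidx' hd (hpt _ List.mem_cons_self)
          · exact b2 q hq
      · have hd := t1 hp
        rw [if_pos rfl, if_neg (by simp)]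
        refine ⟨?_, ?_, fun hpt => ?_⟩
        · rw [crs_cons, crs_cons p.1, crs_moved]
          omega
        · rw [List.map_cons, List.sum_cons, List.map_cons, List.sum_cons,
            K2P_shift (w := v) hε hidx.symm hd]
          linarith
        · obtain ⟨b1, b2⟩ := a3 (fun q hq => hpt q (List.mem_cons_of_mem _ hq))
          refine ⟨fun q hq => ?_, b2⟩
          rcases List.mem_cons.1 hq with rfl | hq
          · exact PT_shift hε hidx.symm hd (hpt _ List.mem_cons_self)
          · exact b1 q hq

theorem ParType_iff (ε : ℕ) (D : Word) : ParType ε D ↔ ∀ p ∈ D, PT ε p := Iff.rfl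

theorem crs_mid (x y : Word) (p : Piece) : crs (x ++ p :: y) = crs x + crs [p] + crs y := by
  rw [crs_append, crs_cons]
  ring

theorem t_nugK2 : S_nugK2 := by
  rintro ε x y i b Dt Df hε ⟨Lx, Ly, s, rfl, rfl, hx, h1, h2, hy, rfl, rfl⟩ hcon hpar
  obtain ⟨s0, hi, hs, hs2⟩ := rows h1 h2
  rw [hs2] at hy ⊢
  subst hs
  rw [ct_le' hi le_rfl, ct_le' hi le_rfl]
  obtain ⟨tx, ty, tz⟩ := good_of true hi hx hy hcon
  obtain ⟨fx, fy, fz⟩ := good_of false hi hx hy hcon
  simp only [Bool.not_true, Bool.not_false] at tx ty tz fx fy fz
  set v := ct false s0 i with hv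
  set u := ct true s0 i with hu
  have huv : u + v = i := ct_add s0 i hi
  obtain ⟨a1, a2, a3⟩ := parts hε hx tx fx
  obtain ⟨b1, b2, b3⟩ := parts hε hy ty fy
  rw [ParType_iff] at hpar
  obtain ⟨a4, a5⟩ := a3 fun p hp => hpar p (List.mem_append_left _ hp)
  obtain ⟨b4, b5⟩ := b3 fun p hp => hpar p (List.mem_append_right _ (List.mem_cons_of_mem _ hp))
  have hcx : PT ε (cx b i) := hpar _ (List.mem_append_right _ List.mem_cons_self)
  refine ⟨?_, (ε + v) % 2, (ε + u) % 2, by omega, by omega, ?_, ?_, ?_⟩
  · rw [crs_mid, crs_mid, crs_mid]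
    have c1 : crs [Piece.death u] = 0 := rfl
    have c2 : crs [Piece.birth v] = 0 := rfl
    have c3 : crs [cx b i] = 1 := by cases b <;> rfl
    rw [c1, c2, c3]
    omega
  · rw [ParType_iff]
    intro p hp
    rcases List.mem_append.1 hp with hp | hp
    · exact a4 p hp
    · rcases List.mem_cons.1 hp with rfl | hp
      · trivial
      · exact b4 p hp
  · rw [ParType_iff]
    intro p hp
    rcases List.mem_append.1 hp with hp | hp
    · exact a5 p hp
    · rcases List.mem_cons.1 hp with rfl | hp
      · trivial
      · exact b5 p hp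
  · unfold K2
    simp only [List.map_append, List.map_cons, List.sum_append, List.sum_cons]
    -- one of the two parities is even
    have hone : v % 2 = 0 ∨ u % 2 = 0 := by
      have hlen : 0 < (ins2 s0 i true).length := by rw [ins2_length hi]; omega
      rcases h0 : (ins2 s0 i true)[0]? with _ | β
      · rw [List.getElem?_eq_none_iff] at h0; omega
      · cases β
        · exact Or.inr (fz h0)
        · exact Or.inl (tz h0)
    have e1 : K2P ((ε + v) % 2) (.death u) = wh ε (i + 1) - wh ε i := by
      simp only [K2P]
      rw [wh_shift (w := v) (k := i) (k' := u) (d := v) hε huv.symm rfl,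
        wh_shift (w := v) (k := i + 1) (d := v) (k' := u + 1) hε (by omega) rfl]
    have e2 : K2P ((ε + u) % 2) (.birth v) = wh ε (i + 1) - wh ε i := by
      simp only [K2P]
      rw [wh_shift (w := u) (k := i) (k' := v) (d := u) hε (by omega) rfl,
        wh_shift (w := u) (k := i + 1) (d := u) (k' := v + 1) hε (by omega) rfl]
    rw [e1, e2]
    have key : 2 * (wh ε (i + 1) - wh ε i) + 4 * wh ((ε + v) % 2) 0 + 4 * wh ((ε + u) % 2) 0 =
        K2P ε (cx b i) + 4 * wh ε 0 + 1 - sg b := by
      unfold wh
      cases b
      · simp only [cx, Bool.false_eq_true, if_false, K2P, sg, PT] at hcx ⊢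
        have hi2 : i % 2 = (u + v) % 2 := by rw [huv]
        rcases Nat.mod_two_eq_zero_or_one v with hv2 | hv2 <;>
          rcases Nat.mod_two_eq_zero_or_one u with hu2 | hu2 <;>
          split_ifs <;> omega
      · simp only [cx, if_true, K2P, sg, PT] at hcx ⊢
        have hi2 : i % 2 = (u + v) % 2 := by rw [huv]
        rcases Nat.mod_two_eq_zero_or_one v with hv2 | hv2 <;>
          rcases Nat.mod_two_eq_zero_or_one u with hu2 | hu2 <;>
          split_ifs <;> omega
    linarith

end Pool.Agent.Helper82_Alt.PNugK2
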