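import Pool.Agent.Helper82_Alt.UniP

/-!
# Nugatory crossings, HOMFLY polynomial
-/

set_option autoImplicit false

namespace Pool.Agent.Helper82_Alt.PNugP

open Pool.Agent.Helper82_Alt Pool.Agent.Helper82_Alt.PB2 Pool.Agent.Helper82_Alt.PUniP
open Pool.Agent.Helper454.Kauf (Piece Word Closed RegIsotopic RegStep LocalMove FirstMove circle)
open Pool.Agent.Helper454.Wh

theorem writheFrom_cons_birth {i n : ℕ} (o : Bool) (w : OWord) (d : ℕ → Bool) (h : i ≤ n) :
    writheFrom (.birth i o :: w) n d = writheFrom w (n + 2) (insD i o d) := by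
  simp [writheFrom, osign, OPiece.below, h]

/-- the oriented circle has the value 1 -/
theorem P_circle {P : OWord → Rlm} (hP : IsHomfly P) (o : Bool) :
    P [.birth 0 o, .death 0] = 1 := by
  cases o
  · have := flip (X := []) (Y := []) (n := 0) (i := 0) (d := noD) (e' := noD) hP.1 false rfl
      le_rfl rfl
    simp only [List.nil_append, List.append_nil, Bool.not_false] at this
    rw [this]
    exact hP.2
  · exact hP.2

theorem t_nugP (hE : S_nugE) (hT : S_tanP) : S_nugP := by
  intro P hP x y i Dt Df b D hN hD hcl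
  obtain ⟨ct, cf, hcx, V, Y, wV, wY, hI, hIt, hIf⟩ := hE x y i Dt Df hN
  obtain ⟨D1, g1, g2, g3, g4⟩ := (OT_reg (hI b)).1 D hD hcl
  obtain ⟨V', C', Y', rfl, rfl, hC, rfl⟩ := split3 (x := V) (l := [cx b 0]) (y := Y)
    (by simpa using g1)
  obtain ⟨p, rfl, hp⟩ := inv1 hC
  obtain rfl := inv_cx hp
  obtain ⟨n, e, m, e', e'', hV, hbC, hY⟩ := oclosed_split g2
  have hn : n = 2 := by
    have := width_forget V' 0 noD n e hV
    rw [wV] at this
    exact (Option.some.inj this).symm
  subst hn
  have he1 : e 1 = !e 0 := below_two hV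
  have hef : ∀ k, 2 ≤ k → e k = false := below_false V' 0 noD 2 e hV (fun _ _ => rfl)
  rw [bl_ocx _ _ _ le_rfl, bl_nil] at hbC
  obtain ⟨rfl, rfl⟩ : 2 = m ∧ swpD 0 e = e' := by simpa using hbC
  have hsw : swpD 0 e = insD 0 (!e 0) noD := by
    funext k
    simp only [swpD, insD, noD]
    rcases k with _ | _ | k
    · simpa using he1
    · simp
    · rw [if_neg (by omega), if_neg (by omega), if_neg (by omega), if_neg (by omega),
        if_neg (by omega)]
      exact hef _ (by omega)
  have hins : insD 0 (e 0) noD = e := by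
    funext k
    simp only [insD, noD]
    rcases k with _ | _ | k
    · simp
    · simpa using he1.symm
    · rw [if_neg (by omega), if_neg (by omega), if_neg (by omega)]
      exact (hef _ (by omega)).symm
  obtain ⟨q, hq⟩ := hT Rlm P hP.1 V' e hV
  -- the upper part
  have hdel : delD 0 e = noD := by
    funext k
    simp only [delD, noD]
    rw [if_neg (by omega)]
    exact hef _ (by omega)
  have cV : OClosed (V' ++ [.death 0]) := by
    rw [oclosed_iff', below_append' _ hV, bl_death _ _ le_rfl (by simpa using he1), bl_nil, hdel]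
  have pV : P (V' ++ [.death 0]) = q := by
    rw [hq _ cV, P_circle hP, smul_eq_mul, mul_one]
  -- the lower part
  have cY : OClosed (.birth 0 (!e 0) :: Y') := by
    rw [oclosed_iff, bl_birth _ _ _ le_rfl, ← hsw]
    exact ⟨_, hY⟩
  have pY : P (V' ++ [ocx b 0] ++ Y') = q * P (.birth 0 (!e 0) :: Y') := by
    have h1 := g2
    rw [List.append_assoc] at h1 ⊢
    rw [hq _ h1, smul_eq_mul]
    congr 1
    have h2 : OClosed ([] ++ [.birth 0 (e 0), ocx b 0] ++ Y') := by
      rw [oclosed_iff]
      refine ⟨e'', ?_⟩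
      simp only [List.nil_append, List.cons_append]
      rw [bl_birth _ _ _ le_rfl, hins, bl_ocx _ _ _ le_rfl]
      exact hY
    have h3 := (curlB (X := []) (Y := Y') (n := 0) (i := 0) (d := noD) hP.1 b (e 0) rfl
      le_rfl h2).2
    simpa using h3
  -- the writhe
  have w1 : writhe (V' ++ [ocx b 0] ++ Y') = writheFrom V' 0 noD + sg b +
      writheFrom Y' 2 (swpD 0 e) := by
    have hb' : below [ocx b 0] 2 e = some (2, swpD 0 e) := by
      rw [bl_ocx _ _ _ le_rfl, bl_nil]
    rw [writhe_split hV hb', wr_ocx]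
    congr 2
    have : e 0 ≠ e (0 + 1) := by
      intro h
      rw [zero_add, he1] at h
      cases h4 : e 0 <;> simp [h4] at h
    rw [if_neg this]
    cases b <;> simp [sg]
  have w2 : writhe (V' ++ [.death 0]) = writheFrom V' 0 noD := by
    unfold writhe
    rw [writhe_append V' [.death 0] 0 noD _ _ hV, wr_one]
    simp [osign]
  have w3 : writhe (.birth 0 (!e 0) :: Y') = writheFrom Y' 2 (swpD 0 e) := by
    unfold writhe
    rw [writheFrom_cons_birth _ _ _ le_rfl, hsw]
  -- the parts
  obtain ⟨Dt', a1, a2, a3, a4⟩ := (OT_reg hIt).1 _ (by simp [forget, OPiece.forget]) cV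
  obtain ⟨Df', b1, b2, b3, b4⟩ := (OT_reg hIf).1 _ (by simp [forget, OPiece.forget]) cY
  refine ⟨Dt', Df', a1, b1, a2, b2, ?_, ?_⟩
  · rw [hP.1.isotopy _ _ g3, pY, ← pV, hP.1.isotopy _ _ a3, hP.1.isotopy _ _ b3]
  · rw [g4, w1, ← a4, ← b4, w2, w3]
    ring

end Pool.Agent.Helper82_Alt.PNugP
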