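import Pool.Agent.Helper82_Alt.NugEx

/-!
# Rotating a crossing does not change connectivity, colours and numbers
-/

set_option autoImplicit false

namespace Pool.Agent.Helper82_Alt.PRotC

open Pool.Agent.Helper454.Kauf (Piece Word Closed width)
open PWid PNugEx

/-- steps of a word with three pieces in the middle -/
theorem steps_three {x y : Word} {p q r : Piece} {R : ℕ → Piece → Prop} :
    (∀ t (h : t < (x ++ p :: q :: r :: y).length), R t (x ++ p :: q :: r :: y)[t]) ↔
      (∀ t (h : t < x.length), R t x[t]) ∧ R x.length p ∧ R (x.length + 1) q ∧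
        R (x.length + 2) r ∧ ∀ t (h : t < y.length), R (x.length + 3 + t) y[t] := by
  rw [steps_two (R := R), steps_cons (R := fun t p => R (x.length + 2 + t) p)]
  refine and_congr_right fun _ => and_congr_right fun _ => and_congr_right fun _ =>
    and_congr Iff.rfl ?_
  constructor
  · intro H t h
    have := H t h
    rwa [show x.length + 2 + (t + 1) = x.length + 3 + t by omega] at this
  · intro H t h
    have := H t h
    rwa [show x.length + 3 + t = x.length + 2 + (t + 1) by omega] at this

theorem word_eq (x y : Word) (i : ℕ) (b : Bool) :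
    x ++ [.birth i] ++ cx (!b) (i + 1) :: (.death (i + 2) :: y) =
      x ++ .birth i :: cx (!b) (i + 1) :: .death (i + 2) :: y := by
  rw [List.append_assoc]
  rfl

theorem conn {x y : Word} {i : ℕ} {b : Bool} (hD : Closed (x ++ cx b i :: y))
    (hcon : Connected (x ++ cx b i :: y)) :
    Connected (x ++ .birth i :: cx (!b) (i + 1) :: .death (i + 2) :: y) := by
  obtain ⟨w, hx, hi, hy⟩ := widths hD
  set n := x.length with hn
  intro s hs
  obtain ⟨s1, s2, s3, s4, s5⟩ := (steps_three (R := fun t p => SStep p (s t) (s (t + 1)))).1 hs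
  obtain ⟨b1, b2, b3⟩ := s2
  rw [sstep_cx] at s3
  obtain ⟨c1, c2⟩ := s3
  obtain ⟨d1, d2, d3⟩ := s4
  have c1' : s (n + 2) = s (n + 1) := funext c1
  have d1' : ∀ j < i + 2, s (n + 2) j = s (n + 3) j := d1
  have d2' : ∀ j ≥ i + 2, s (n + 2) (j + 2) = s (n + 3) j := d2
  have d3' : s (n + 2) (i + 2) = s (n + 2) (i + 3) := d3
  have b1' : ∀ j < i, s (n + 1) j = s n j := b1
  have b2' : ∀ j ≥ i, s (n + 1) (j + 2) = s n j := b2
  have b3' : s (n + 1) i = s (n + 1) (i + 1) := b3
  have c2' : s (n + 1) (i + 1) = s (n + 1) (i + 2) := c2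
  rw [c1'] at d1' d2' d3'
  have e0 : s (n + 1) (i + 2) = s n i := b2' i le_rfl
  have e1 : s (n + 1) (i + 3) = s n (i + 1) := b2' (i + 1) (by omega)
  have e2 : s n i = s n (i + 1) := by rw [← e0, ← e1, d3']
  have hrow : ∀ j, s (n + 3) j = s n j := by
    intro j
    by_cases h1 : j < i
    · rw [← d1' j (by omega), b1' j h1]
    · by_cases h2 : j = i
      · rw [h2, ← d1' i (by omega), b3', c2', e0]
      · by_cases h3 : j = i + 1
        · rw [h3, ← d1' (i + 1) (by omega), c2', e0, e2]
        · obtain ⟨k, rfl⟩ : ∃ k, j = k + 2 := ⟨j - 2, by omega⟩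
          rw [← d2' (k + 2) (by omega), b2' (k + 2) (by omega)]
  obtain ⟨v, hv⟩ := hcon (fun t => if t ≤ n then s t else s (t + 2)) (by
    refine (steps_mid (R := fun t p => SStep p ((fun t => if t ≤ n then s t else s (t + 2)) t)
      ((fun t => if t ≤ n then s t else s (t + 2)) (t + 1)))).2 ⟨?_, ?_, ?_⟩
    · intro t ht
      show SStep x[t] (if t ≤ n then s t else _) (if t + 1 ≤ n then s (t + 1) else _)
      rw [if_pos (by omega), if_pos (by omega)]
      exact s1 t ht
    · rw [sstep_cx]
      show (∀ j, (if n + 1 ≤ n then s (n + 1) else s (n + 1 + 2)) j =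
          (if n ≤ n then s n else s (n + 2)) j) ∧
        (if n ≤ n then s n else s (n + 2)) i = (if n ≤ n then s n else s (n + 2)) (i + 1)
      rw [if_neg (by omega), if_pos le_rfl]
      exact ⟨hrow, e2⟩
    · intro t ht
      show SStep y[t] (if n + 1 + t ≤ n then _ else s (n + 1 + t + 2))
        (if n + 1 + t + 1 ≤ n then _ else s (n + 1 + t + 1 + 2))
      rw [if_neg (by omega), if_neg (by omega)]
      have := s5 t ht
      rw [show x.length + 3 + t = n + 1 + t + 2 by omega] at this
      exact this)
  have hv2 : ∀ t ≤ n, ∀ m, width (x.take t) 0 = some m → ∀ j < m, s t j = v := by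
    intro t ht m hm j hj
    have := hv t m (by rw [take_left ht]; exact hm) j hj
    simpa only [if_pos ht] using this
  have hxx : width (x.take n) 0 = some w := by rw [hn, List.take_length]; exact hx
  have hn1 : ∀ j < w + 2, s (n + 1) j = v := by
    intro j hj
    by_cases h1 : j < i
    · rw [b1' j h1]
      exact hv2 n le_rfl w hxx j (by omega)
    · by_cases h2 : j = i
      · rw [h2, b3', c2', e0]
        exact hv2 n le_rfl w hxx i (by omega)
      · by_cases h3 : j = i + 1
        · rw [h3, c2', e0]
          exact hv2 n le_rfl w hxx i (by omega)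
        · obtain ⟨k, rfl⟩ : ∃ k, j = k + 2 := ⟨j - 2, by omega⟩
          rw [b2' k (by omega)]
          exact hv2 n le_rfl w hxx k (by omega)
  refine ⟨v, fun t m hm j hj => ?_⟩
  by_cases ht : t ≤ n
  · rw [take_left ht] at hm
    exact hv2 t ht m hm j hj
  · obtain ⟨k, rfl⟩ : ∃ k, t = n + (k + 1) := ⟨t - n - 1, by omega⟩
    rw [take_right, width_append, hx] at hm
    match k with
    | 0 =>
      have h1 : (if i ≤ w then some (w + 2) else none) = some m := by
        simpa [width, Piece.width] using hm
      rw [if_pos (by omega)] at h1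
      have h2 := Option.some.inj h1
      exact hn1 j (by omega)
    | 1 =>
      have h1 : ((if i ≤ w then some (w + 2) else none).bind fun m1 =>
          ((cx (!b) (i + 1)).width m1).bind fun m2 => some m2) = some m := hm
      rw [if_pos (by omega), Option.bind_some, width_cx, if_pos (by omega), Option.bind_some] at h1
      have h2 := Option.some.inj h1
      show s (n + 2) j = v
      rw [c1']
      exact hn1 j (by omega)
    | k + 2 =>
      have h1 : width (y.take k) w = some m := by
        have h2 : ((if i ≤ w then some (w + 2) else none).bind fun m1 =>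
            ((cx (!b) (i + 1)).width m1).bind fun m2 =>
              (if i + 2 + 2 ≤ m2 then some (m2 - 2) else none).bind (width (y.take k))) = some m :=
          hm
        rw [if_pos (by omega), Option.bind_some, width_cx, if_pos (by omega), Option.bind_some,
          if_pos (by omega), Option.bind_some, Nat.add_sub_cancel] at h2
        exact h2
      have h2 := hv (n + (k + 1)) m (by
        rw [take_right, width_append, hx]
        show ((cx b i).width w).bind (width (y.take k)) = some m
        rw [width_cx, if_pos hi]
        exact h1) j hj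
      have h3 : (if n + (k + 1) ≤ n then s (n + (k + 1)) else s (n + (k + 1) + 2)) j = v := h2
      rw [if_neg (by omega)] at h3
      exact h3

theorem K2_append (ε : ℕ) (x y : Word) :
    K2 ε (x ++ y) = (x.map (K2P ε)).sum + (y.map (K2P ε)).sum + 4 * wh ε 0 := by
  unfold K2
  rw [List.map_append, List.sum_append]

theorem t_rotC : S_rotC := by
  intro x y i b hD
  rw [word_eq]
  refine ⟨conn hD, fun ε hε hpar => ?_⟩
  have hc : (cx b i) ∈ x ++ cx b i :: y := by simp
  have hpc := hpar _ hc
  refine ⟨?_, ?_, ?_⟩
  · intro p hp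
    rw [List.mem_append, List.mem_cons, List.mem_cons, List.mem_cons] at hp
    rcases hp with hp | rfl | rfl | rfl | hp
    · exact hpar p (by simp [hp])
    · trivial
    · cases b with
      | true =>
        have h1 : i % 2 ≠ ε := hpc
        show (i + 1) % 2 = ε
        omega
      | false =>
        have h1 : i % 2 = ε := hpc
        show (i + 1) % 2 ≠ ε
        omega
    · trivial
    · exact hpar p (by simp [hp])
  · rw [K2_append, K2_append]
    simp only [List.map_cons, List.sum_cons]
    cases b with
    | true =>
      have h1 : i % 2 ≠ ε := hpc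
      show _ + (wh ε (i + 1) - wh ε i + (0 + (wh ε (i + 2 + 1) - wh ε (i + 2) + _))) + _ =
        _ + (2 + _) + _
      unfold wh
      rw [if_pos (show (i + 1) % 2 = ε by omega), if_neg h1,
        if_pos (show (i + 2 + 1) % 2 = ε by omega), if_neg (show ¬ (i + 2) % 2 = ε by omega)]
      ring
    | false =>
      have h1 : i % 2 = ε := hpc
      show _ + (wh ε (i + 1) - wh ε i + (2 + (wh ε (i + 2 + 1) - wh ε (i + 2) + _))) + _ =
        _ + (0 + _) + _
      unfold wh
      rw [if_neg (show ¬ (i + 1) % 2 = ε by omega), if_pos h1,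
        if_neg (show ¬ (i + 2 + 1) % 2 = ε by omega), if_pos (show (i + 2) % 2 = ε by omega)]
      ring
  · rw [crs_append, crs_append, crs_cx]
    simp only [crs]
    rw [crs_cx]
    simp only [crs]

end Pool.Agent.Helper82_Alt.PRotC
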