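import Pool.Agent.Helper82_Alt.Spec2

/-!
# Rotating a crossing
-/

set_option autoImplicit false

namespace Pool.Agent.Helper82_Alt.PRotE

open Pool.Agent.Helper454.Kauf
open Pool.Agent.Helper454.Kauf.Piece (birth death pos neg)

theorem t_rotE : S_rotE := by
  intro n i b hi
  have w1 : width [birth (i + 1)] n = some (n + 2) := by
    rw [w_birth _ (by omega), w_nil]
  have w2 : width [birth i, cx (!b) (i + 1), death (i + 2)] n = some n := by
    rw [w_birth _ (by omega), w_cx _ _ (by omega), w_death _ (by omega), w_nil]
    rfl
  have w3 : width [birth (i + 1), death (i + 2), cx b i] n = some n := by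
    rw [w_birth _ (by omega), w_death _ (by omega), w_cx _ _ (by omega), w_nil]
    rfl
  have a1 : E n [birth i, cx (!b) (i + 1), death (i + 2)] [birth (i + 1), cx b i, death (i + 2)] := by
    have := (e_sb (n := n) (i := i) (!b) (by omega)).right [death (i + 2)] ⟨n, w2⟩
    simpa using this
  have a2 : E n [birth (i + 1), cx b i, death (i + 2)] [birth (i + 1), death (i + 2), cx b i] := by
    have := (e_cd (n := n + 2) (i := i) (j := i + 2) b (by omega) (by omega)).left
      [birth (i + 1)] w1
    simpa using this
  have a3 : E n [birth (i + 1), death (i + 2), cx b i] [cx b i] := by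
    have := (e_zig1 (n := n) (i := i + 1) (by omega)).right [cx b i] ⟨n, w3⟩
    simpa using this
  exact ((a1.trans a2).trans a3).symm

end Pool.Agent.Helper82_Alt.PRotE
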