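import Pool.Agent.Helper82_Alt.NugE

/-!
# Pieces slide through shuffles, far commutation, separation of the parts of a split diagram
-/

set_option autoImplicit false
set_option linter.unusedSimpArgs false

namespace Pool.Agent.Helper82_Alt

open Pool.Agent.Helper454.Kauf
open Pool.Agent.Helper454.Kauf.Piece (birth death pos neg)

namespace PSh

open PRun PLay PNugE

/-! ### far commutation -/

theorem piece_fit {p : Piece} {m m' : ℕ} (h : p.width m = some m') :
    p.index + p.ins ≤ m ∧ m' + p.ins = m + p.outs := by
  cases p with
  | birth i =>
    simp only [Piece.width] at h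
    split_ifs at h with hi
    obtain rfl := Option.some.inj h
    exact ⟨hi, rfl⟩
  | death i =>
    simp only [Piece.width] at h
    split_ifs at h with hi
    obtain rfl := Option.some.inj h
    exact ⟨hi, by show m - 2 + 2 = m + 0; omega⟩
  | pos i =>
    simp only [Piece.width] at h
    split_ifs at h with hi
    obtain rfl := Option.some.inj h
    exact ⟨hi, rfl⟩
  | neg i =>
    simp only [Piece.width] at h
    split_ifs at h with hi
    obtain rfl := Option.some.inj h
    exact ⟨hi, rfl⟩

theorem up_fields (m : ℕ) (q : Piece) : (up m q).index = q.index + m ∧ (up m q).ins = q.ins ∧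
    (up m q).outs = q.outs := by
  cases q <;> exact ⟨rfl, rfl, rfl⟩

theorem far_one {k k' : ℕ} {q : Piece} (hq : q.width k = some k') : ∀ (w : Word) (m m' : ℕ),
    width w m = some m' → E (m + k) ([up m q] ++ w) (w ++ [up m' q]) := by
  intro w
  induction w with
  | nil =>
    intro m m' h
    obtain rfl := Option.some.inj h
    have h1 := width_up m [q] k k' (by
      show (q.width k).bind (width []) = _
      rw [hq]; rfl)
    exact E.refl h1
  | cons p w ih =>
    intro m m' h
    change (p.width m).bind (width w) = some m' at h
    obtain ⟨m1, h1, h2⟩ := Option.bind_eq_some_iff.1 h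
    obtain ⟨f1, f2⟩ := piece_fit h1
    obtain ⟨g1, g2⟩ := piece_fit hq
    obtain ⟨u1, u2, u3⟩ := up_fields m q
    have e1 := (e_far (n := m + k) p (up m q) (by omega) (by omega)).symm
    have h3 : (up m q).moved ((up m q).index + p.outs - p.ins) = up m1 q := by
      rw [u1]
      have : q.index + m + p.outs - p.ins = q.index + m1 := by omega
      rw [this]
      cases q <;> rfl
    rw [h3] at e1
    have hw1 : width [p] (m + k) = some (m1 + k) := by
      have := width_add k [p] m m1 (by
        show (p.width m).bind (width []) = _
        rw [h1]; rfl)
      exact this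
    have e2 := (ih m1 m' h2).left (m := m + k) [p] hw1
    obtain ⟨⟨l, w1, w2⟩, -⟩ := id e2
    have e3 := e1.right w ⟨l, by
      obtain ⟨⟨l', v1, v2⟩, -⟩ := id e1
      have : width ([p, up m1 q] ++ w) (m + k) = some l := by simpa using w1
      rw [width_append] at this ⊢
      rw [v1]
      rw [v2] at this
      exact this⟩
    exact E.trans (by simpa using e3) (by simpa using e2)

end PSh

open PSh PRun in
theorem t_shB : S_shB := by
  intro n m m' w u k k' hw hu hn
  subst hn
  induction u generalizing k with
  | nil =>
    have : width w (m + k) = some (m' + k) := width_add k w m m' hw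
    simpa using E.refl this
  | cons q u ih =>
    change (q.width k).bind (width u) = some k' at hu
    obtain ⟨k1, h1, h2⟩ := Option.bind_eq_some_iff.1 hu
    have e1 := ih k1 h2
    have hq1 : width [up m q] (m + k) = some (m + k1) := width_up m [q] k k1 (by
      show (q.width k).bind (width []) = _
      rw [h1]; rfl)
    have e2 := e1.left (m := m + k) [up m q] hq1
    have e3 := (far_one h1 w m m' hw).right (u.map (up m')) (by
      obtain ⟨⟨l, w1, w2⟩, -⟩ := e2
      exact ⟨l, by simpa using w2⟩)
    exact E.trans (by simpa using e2) (by simpa using e3)

namespace PSh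

open PRun PLay PNugE

theorem up_mvL (a k : ℕ) : ∀ m : ℕ, (mvL k m).map (up a) = mvL (k + a) m := by
  intro m
  induction m with
  | zero => rfl
  | succ m ih =>
    simp only [mvL, List.map_cons, ih, up, Piece.moved, Piece.index]
    rw [show k + m + a = k + a + m by omega]

theorem up_sh (a : ℕ) : ∀ (s : List Bool) (k : ℕ), (sh k s).map (up a) = sh (k + a) s := by
  intro s
  induction s with
  | nil => intro k; rfl
  | cons b s ih =>
    intro k
    cases b
    · simp only [sh, List.map_append, up_mvL, ih]
      rw [show k + 1 + a = k + a + 1 by omega]
    · simp only [sh, ih]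
      rw [show k + 1 + a = k + a + 1 by omega]

theorem mvL_add (k a : ℕ) : ∀ b : ℕ, mvL k (a + b) = mvL (k + a) b ++ mvL k a := by
  intro b
  induction b with
  | zero => rfl
  | succ b ih =>
    show neg (k + (a + b)) :: mvL k (a + b) = neg (k + a + b) :: (mvL (k + a) b ++ mvL k a)
    rw [ih, Nat.add_assoc]

/-- far pieces on the right of a word of crossings -/
theorem farR {n m : ℕ} {w : Word} (hw : CW m w) (q : Piece) {k' : ℕ} (hm : m ≤ n)
    (hq : q.width (n - m) = some k') : E n (w ++ [up m q]) ([up m q] ++ w) := by
  have h1 := t_shB n m m w [q] (n - m) k' hw.width (by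
    show (q.width (n - m)).bind (width []) = _
    rw [hq]; rfl) (by omega)
  simpa using h1.symm

/-- a birth on the left of a word of crossings -/
theorem farL_birth {n k : ℕ} {w : Word} (hk : k ≤ n) (hw : CW (n - k) w) :
    E n (w.map (up k) ++ [birth k]) (birth k :: w.map (up (k + 2))) := by
  exact t_shB n k (k + 2) [birth k] w (n - k) (n - k) (by rw [w_birth _ (by omega), w_nil])
    hw.width (by omega)

/-- a death on the left of a word of crossings -/
theorem farL_death {n k : ℕ} {w : Word} (hk : k + 2 ≤ n) (hw : CW (n - (k + 2)) w) :
    E n (w.map (up (k + 2)) ++ [death k]) (death k :: w.map (up k)) := by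
  have := t_shB n (k + 2) k [death k] w (n - (k + 2)) (n - (k + 2))
    (by rw [w_death _ (by omega), w_nil]; congr 1) hw.width (by omega)
  exact this

/-! ### a strand passing under births and deaths -/

theorem mvL_b_far {n k m j : ℕ} (h : k + m + 1 ≤ j) (hj : j ≤ n) :
    E n (mvL k m ++ [birth j]) (birth j :: mvL k m) := by
  obtain ⟨c, rfl⟩ := Nat.exists_eq_add_of_le h
  have := farR (n := n) (m := k + m + 1) (CW_mvL k m (by omega)) (birth c)
    (k' := n - (k + m + 1) + 2) (by omega) (by
      show (if c ≤ n - (k + m + 1) then some (n - (k + m + 1) + 2) else none) = _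
      rw [if_pos (by omega)])
  rw [up_birth, Nat.add_comm c] at this
  exact this

theorem mvL_d_far {n k m j : ℕ} (h : k + m + 1 ≤ j) (hj : j + 2 ≤ n) :
    E n (mvL k m ++ [death j]) (death j :: mvL k m) := by
  obtain ⟨c, rfl⟩ := Nat.exists_eq_add_of_le h
  have := farR (n := n) (m := k + m + 1) (CW_mvL k m (by omega)) (death c)
    (k' := n - (k + m + 1) - 2) (by omega) (by
      show (if c + 2 ≤ n - (k + m + 1) then some (n - (k + m + 1) - 2) else none) = _
      rw [if_pos (by omega)])
  rw [up_death, Nat.add_comm c] at this
  exact this

theorem mvL_c_far {n k m : ℕ} (h : k + m + 3 ≤ n) :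
    E n (mvL k m ++ [neg (k + m + 1)]) (neg (k + m + 1) :: mvL k m) := by
  have := farR (n := n) (m := k + m + 1) (CW_mvL k m (by omega)) (neg 0)
    (k' := n - (k + m + 1)) (by omega) (by
      show (if 0 + 2 ≤ n - (k + m + 1) then some (n - (k + m + 1)) else none) = _
      rw [if_pos (by omega)])
  have e3 : up (k + m + 1) (neg 0) = neg (k + m + 1) := by
    simp [up, Piece.moved, Piece.index]
  rw [e3] at this
  exact this

theorem mvL_b_left {n j c : ℕ} (h : j + c + 1 ≤ n) :
    E n (mvL j c ++ [birth j]) (birth j :: mvL (j + 2) c) := by
  have := farL_birth (n := n) (k := j) (w := mvL 0 c) (by omega) (CW_mvL 0 c (by omega))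
  rw [up_mvL, up_mvL, Nat.zero_add, Nat.zero_add] at this
  exact this

theorem mvL_d_left {n j c : ℕ} (h : j + 2 + c + 1 ≤ n) :
    E n (mvL (j + 2) c ++ [death j]) (death j :: mvL j c) := by
  have := farL_death (n := n) (k := j) (w := mvL 0 c) (by omega) (CW_mvL 0 c (by omega))
  rw [up_mvL, up_mvL, Nat.zero_add, Nat.zero_add] at this
  exact this

theorem e_birth_under {n j : ℕ} (h : j < n) : E n [birth (j + 1)] [birth j, neg (j + 1), neg j] := by
  have h1 := (e_sb (n := n) (i := j) true h).right [neg j] ⟨n + 2, by
    simp only [List.cons_append, List.nil_append]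
    rw [w_birth _ (by omega), w_cx _ _ (by omega), ← cx_true, w_cx _ _ (by omega), w_nil]⟩
  have h2 := (e_r2 (n := n + 2) (i := j) false (by omega)).left (m := n) [birth (j + 1)] (by
    rw [w_birth _ (by omega), w_nil])
  exact (h1.trans h2).symm

theorem e_death_under {n j : ℕ} (h : j + 3 ≤ n) : E n [neg (j + 1), neg j, death (j + 1)] [death j] := by
  have h1 := (e_sd (n := n) (i := j) false h).symm.left (m := n) [neg (j + 1)]
    (CW.neg (by omega)).width
  have h2 := (e_r2 (n := n) (i := j + 1) true (by omega)).right [death j] ⟨n - 2, by
    rw [width_append, width_cx2 _ _ (by omega) (by omega), Option.bind_some,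
      w_death _ (by omega), w_nil]⟩
  exact h1.trans h2

theorem mvL_b_mid {n k u c : ℕ} (h : k + u + c + 1 ≤ n) :
    E n (mvL k (u + c) ++ [birth (k + 1 + u)]) (birth (k + u) :: mvL k (u + c + 2)) := by
  have e0 : mvL k (u + c + 2) = mvL (k + u + 2) c ++ ([neg (k + u + 1), neg (k + u)] ++ mvL k u) := by
    rw [show u + c + 2 = u + (2 + c) by omega, mvL_add, mvL_add, List.append_assoc]; rfl
  rw [e0, mvL_add]
  have c1 : CW n (mvL (k + u) c) := CW_mvL _ _ (by omega)
  have c2 : CW n (mvL k u) := CW_mvL _ _ (by omega)
  have s1 := (mvL_b_far (n := n) (k := k) (m := u) (j := k + u + 1) (by omega) (by omega)).left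
    (mvL (k + u) c) c1.width
  have s2 := (e_birth_under (n := n) (j := k + u) (by omega)).cong (m := n) (mvL (k + u) c)
    (mvL k u) c1.width ⟨n + 2, by
      rw [width_append, width_append, c1.width, Option.bind_some, w_birth _ (by omega), w_nil,
        Option.bind_some]
      exact (CW_mvL _ _ (by omega)).width⟩
  have s3 := (mvL_b_left (n := n) (j := k + u) (c := c) (by omega)).right
    ([neg (k + u + 1), neg (k + u)] ++ mvL k u) (by
      obtain ⟨⟨l, w1, w2⟩, -⟩ := id s2
      exact ⟨l, by simpa using w2⟩)
  have e1 : k + 1 + u = k + u + 1 := by omega
  rw [e1]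
  simp only [List.append_assoc, List.cons_append, List.nil_append] at s1 s2 s3 ⊢
  exact s1.trans (s2.trans s3)

theorem mvL_d_mid {n k u c : ℕ} (h : k + u + 2 + c + 1 ≤ n) :
    E n (mvL k (u + 2 + c) ++ [death (k + 1 + u)]) (death (k + u) :: mvL k (u + c)) := by
  have e0 : mvL k (u + 2 + c) = mvL (k + u + 2) c ++ ([neg (k + u + 1), neg (k + u)] ++ mvL k u) := by
    rw [show u + 2 + c = u + (2 + c) by omega, mvL_add, mvL_add, List.append_assoc]; rfl
  rw [e0, mvL_add k u c]
  have c1 : CW n (mvL (k + u + 2) c) := CW_mvL _ _ (by omega)
  have c2 : CW n (mvL k u) := CW_mvL _ _ (by omega)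
  have c3 : CW n [neg (k + u + 1), neg (k + u)] :=
    CW.cons true (by omega) (CW.cons true (by omega) (CW.nil n))
  have s1 := (mvL_d_far (n := n) (k := k) (m := u) (j := k + u + 1) (by omega) (by omega)).left
    (mvL (k + u + 2) c ++ [neg (k + u + 1), neg (k + u)]) (c1.append c3).width
  have s2 := (e_death_under (n := n) (j := k + u) (by omega)).cong (m := n) (mvL (k + u + 2) c)
    (mvL k u) c1.width (by
      obtain ⟨⟨l, w1, w2⟩, -⟩ := id s1
      exact ⟨l, by simpa only [List.append_assoc, List.cons_append, List.nil_append] using w2⟩)
  have s3 := (mvL_d_left (n := n) (j := k + u) (c := c) (by omega)).right (mvL k u) (by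
      obtain ⟨⟨l, w1, w2⟩, -⟩ := id s2
      exact ⟨l, by simpa using w2⟩)
  have e1 : k + 1 + u = k + u + 1 := by omega
  rw [e1]
  simp only [List.append_assoc, List.cons_append, List.nil_append] at s1 s2 s3 ⊢
  exact s1.trans (s2.trans s3)

/-- an arc passes under `m` strands -/
theorem birth_mvL2 {n k : ℕ} : ∀ m : ℕ, k + m ≤ n →
    E n (birth (k + m) :: (mvL k m ++ mvL (k + 1) m)) [birth k] := by
  intro m
  induction m with
  | zero =>
    intro h
    refine E.refl (m := n + 2) ?_
    simp only [mvL, List.append_nil, Nat.add_zero]
    rw [w_birth _ (by omega), w_nil]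
  | succ m ih =>
    intro h
    have c1 : CW (n + 2) (mvL k m) := CW_mvL _ _ (by omega)
    have c2 : CW (n + 2) (mvL (k + 1) m) := CW_mvL _ _ (by omega)
    have wb : width [birth (k + m + 1), neg (k + m)] n = some (n + 2) := by
      rw [w_birth _ (by omega), ← cx_true, w_cx _ _ (by omega), w_nil]
    have h1 := (mvL_c_far (n := n + 2) (k := k) (m := m) (by omega)).cong (m := n)
      [birth (k + m + 1), neg (k + m)] (mvL (k + 1) m) wb
        ⟨n + 2, by
          rw [width_append, width_append, wb, Option.bind_some, (c1.append (CW.neg (by
            omega))).width, Option.bind_some, c2.width]⟩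
    have h2 := (e_over_birth (n := n) (j := k + m) (by omega)).right (mvL k m ++ mvL (k + 1) m)
      (by
        obtain ⟨⟨l, w1, w2⟩, -⟩ := id h1
        exact ⟨l, by simpa only [List.append_assoc, List.cons_append, List.nil_append] using w2⟩)
    have h3 := ih (by omega)
    have e1 : mvL k (m + 1) = neg (k + m) :: mvL k m := rfl
    have e2 : mvL (k + 1) (m + 1) = neg (k + m + 1) :: mvL (k + 1) m := by
      show neg (k + 1 + m) :: mvL (k + 1) m = _
      rw [show k + 1 + m = k + m + 1 by omega]
    rw [e1, e2]
    simp only [List.append_assoc, List.cons_append, List.nil_append] at h1 h2 h3 ⊢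
    exact h1.trans (h2.trans h3)

theorem death_mvL2 {n k : ℕ} : ∀ m : ℕ, k + m + 2 ≤ n →
    E n (mvL k m ++ (mvL (k + 1) m ++ [death k])) [death (k + m)] := by
  intro m
  induction m with
  | zero =>
    intro h
    refine E.refl (m := n - 2) ?_
    simp only [mvL, List.nil_append, Nat.add_zero]
    rw [w_death _ (by omega), w_nil]
  | succ m ih =>
    intro h
    have c1 : CW n (mvL k m) := CW_mvL _ _ (by omega)
    have c2 : CW n (mvL (k + 1) m) := CW_mvL _ _ (by omega)
    have wb : width [neg (k + m)] n = some n := (CW.neg (by omega)).width
    have h1 := (mvL_c_far (n := n) (k := k) (m := m) (by omega)).cong (m := n)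
      [neg (k + m)] (mvL (k + 1) m ++ [death k]) wb
        ⟨n - 2, by
          rw [width_append, width_append, wb, Option.bind_some, (c1.append (CW.neg (by
            omega))).width, Option.bind_some, width_append, c2.width,
            Option.bind_some, w_death _ (by omega), w_nil]⟩
    have h2 := (ih (by omega)).left (m := n) [neg (k + m), neg (k + m + 1)]
      (width_cx2 true true (by omega) (by omega))
    -- neg j, neg (j+1), death j ~ neg j, pos j, death (j+1) ~ death (j+1)
    have h3 := (e_sd (n := n) (i := k + m) true (by omega)).left (m := n) [neg (k + m)] wb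
    have h4 := (e_r2 (n := n) (i := k + m) true (by omega)).right [death (k + m + 1)] ⟨n - 2, by
      rw [width_append, width_cx2 _ _ (by omega) (by omega), Option.bind_some,
        w_death _ (by omega), w_nil]⟩
    have e1 : mvL k (m + 1) = neg (k + m) :: mvL k m := rfl
    have e2 : mvL (k + 1) (m + 1) = neg (k + m + 1) :: mvL (k + 1) m := by
      show neg (k + 1 + m) :: mvL (k + 1) m = _
      rw [show k + 1 + m = k + m + 1 by omega]
    rw [e1, e2, show k + (m + 1) = k + m + 1 by omega]
    simp only [List.append_assoc, List.cons_append, List.nil_append, cx_true, Bool.not_true,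
      cx_false] at h1 h2 h3 h4 ⊢
    exact h1.trans (h2.trans (h3.trans h4))

/-! ### crossings -/

theorem mrg_append (r : List Bool) (B D : List ℕ) : ∀ (l : List Bool) (A C : List ℕ),
    A.length = l.count true → C.length = l.count false →
    PNugE.mrg (l ++ r) (A ++ B) (C ++ D) = PNugE.mrg l A C ++ PNugE.mrg r B D := by
  intro l
  induction l with
  | nil =>
    intro A C h1 h2
    obtain rfl := List.eq_nil_of_length_eq_zero h1
    obtain rfl := List.eq_nil_of_length_eq_zero h2
    rfl
  | cons b l ih =>
    intro A C h1 h2
    cases b
    · rw [List.count_cons_self] at h2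
      rw [List.count_cons_of_ne (by simp)] at h1
      obtain _ | ⟨f, C⟩ := C
      · simp at h2
      · simp only [List.length_cons, Nat.add_right_cancel_iff] at h2
        have := ih A C h1 h2
        simp only [List.cons_append, PNugE.mrg, this]
    · rw [List.count_cons_self] at h1
      rw [List.count_cons_of_ne (by simp)] at h2
      obtain _ | ⟨t, A⟩ := A
      · simp at h1
      · simp only [List.length_cons, Nat.add_right_cancel_iff] at h1
        have := ih A C h1 h2
        simp only [List.cons_append, PNugE.mrg, this]

theorem mrg_length : ∀ (l : List Bool) (A C : List ℕ),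
    A.length = l.count true → C.length = l.count false → (PNugE.mrg l A C).length = l.length := by
  intro l
  induction l with
  | nil => intro A C _ _; rfl
  | cons b l ih =>
    intro A C h1 h2
    cases b
    · rw [List.count_cons_self] at h2
      rw [List.count_cons_of_ne (by simp)] at h1
      obtain _ | ⟨f, C⟩ := C
      · simp at h2
      · simp only [List.length_cons, Nat.add_right_cancel_iff] at h2
        simp only [PNugE.mrg, List.length_cons, ih A C h1 h2]
    · rw [List.count_cons_self] at h1
      rw [List.count_cons_of_ne (by simp)] at h2
      obtain _ | ⟨t, A⟩ := A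
      · simp at h1
      · simp only [List.length_cons, Nat.add_right_cancel_iff] at h1
        simp only [PNugE.mrg, List.length_cons, ih A C h1 h2]

/-- where the piece acts in the row of blocks -/
def bi' (b : Bool) (T : ℕ) (l : List Bool) : ℕ := if b then l.count true else T + l.count false

theorem shA_cx {n k : ℕ} (l r : List Bool) (b c : Bool) (hn : k + (l ++ b :: b :: r).length ≤ n) :
    E n (sh k (l ++ b :: b :: r) ++ [cx c (l.length + k)])
      (cx c (bi' b ((l ++ b :: b :: r).count true) l + k) :: sh k (l ++ b :: b :: r)) := by
  obtain ⟨A0, B, C, D, p, q, hA0, hB, hC, hD, hnd, h1, h2, hpq, hc⟩ :=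
    heights (k + l.count true) (r.count true) (l.count false) (r.count false) c
  obtain ⟨P, A, rfl, hP, hA⟩ : ∃ P A, A0 = P ++ A ∧ P.length = k ∧ A.length = l.count true := by
    refine ⟨A0.take k, A0.drop k, (List.take_append_drop k A0).symm, ?_, ?_⟩
    · rw [List.length_take]; omega
    · rw [List.length_drop]; omega
  have h3 : ∀ t ∈ A ++ B, p < t ∧ q < t := fun t ht => h1 t (by
    simp only [List.mem_append] at ht ⊢; tauto)
  have h4 : ∀ t ∈ A ++ B, ∀ f ∈ C ++ D, f < t := fun t ht f hf =>
    (h2 f hf).1.trans (h3 t ht).1
  have hlen := mrg_length l A C hA hC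
  have hcount := count_add l
  have hcountr := count_add r
  have hu : (l ++ b :: b :: r).length = l.length + r.length + 2 := by simp; omega
  rw [hu] at hn
  cases b
  · -- a crossing of two strands `false`
    have K : ∀ p' q' : ℕ, (∀ t ∈ A ++ B, p' < t ∧ q' < t) →
        Lay (P ++ ((A ++ B) ++ (C ++ p' :: q' :: D))) (sh k (l ++ false :: false :: r))
          (P ++ (PNugE.mrg l A C ++ p' :: q' :: PNugE.mrg r B D)) := by
      intro p' q' h5
      have := lay_sh (l ++ false :: false :: r) P (A ++ B) (C ++ p' :: q' :: D)
        (by simp [List.count_cons, hA, hB]) (by simp [List.count_cons, hC, hD]) (by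
          intro t ht f hf
          have : f = p' ∨ f = q' ∨ f ∈ C ++ D := by
            simp only [List.mem_append, List.mem_cons] at hf ⊢; tauto
          rcases this with rfl | rfl | hf
          · exact (h5 t ht).1
          · exact (h5 t ht).2
          · exact h4 t ht f hf)
      rw [mrg_append _ _ _ l A C hA hC, hP] at this
      exact this
    have L1 := K p q h3
    have L2 := K q p (fun t ht => (h3 t ht).symm)
    have L3 := Lay.cons (P ++ PNugE.mrg l A C) (PNugE.mrg r B D) p q [] _ hpq (Lay.nil _)
    rw [hc, List.length_append, hP, hlen] at L3
    have L4 := Lay.cons (P ++ ((A ++ B) ++ C)) D p q _ _ hpq (by simpa using L2)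
    rw [hc] at L4
    have L5 := L1.append (by simpa using L3)
    have hl : (P ++ ((A ++ B) ++ C)).length = bi' false ((l ++ false :: false :: r).count true) l + k := by
      simp only [List.length_append, hP, hA, hB, hC, bi', List.count_append, List.count_cons,
        Bool.false_eq_true, if_false]
      simp
      omega
    have e1 : l.length + k = k + l.length := Nat.add_comm _ _
    rw [hl] at L4
    rw [e1]
    refine uniq _ _ _ _ _ rfl ?_ (by simpa using L5) (by simpa using L4) n ?_
    · refine (List.Perm.nodup_iff ?_).2 hnd
      refine List.perm_iff_count.2 fun a => ?_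
      simp only [List.count_append, List.count_cons]
      omega
    · simp only [List.length_append, List.length_cons, hP, hA, hB, hC, hD]
      omega
  · -- a crossing of two strands `true`
    have K : ∀ p' q' : ℕ, (∀ f ∈ C ++ D, f < p' ∧ f < q') →
        Lay (P ++ ((A ++ p' :: q' :: B) ++ (C ++ D))) (sh k (l ++ true :: true :: r))
          (P ++ (PNugE.mrg l A C ++ p' :: q' :: PNugE.mrg r B D)) := by
      intro p' q' h5
      have := lay_sh (l ++ true :: true :: r) P (A ++ p' :: q' :: B) (C ++ D)
        (by simp [List.count_cons, hA, hB]) (by simp [List.count_cons, hC, hD]) (by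
          intro t ht f hf
          have : t = p' ∨ t = q' ∨ t ∈ A ++ B := by
            simp only [List.mem_append, List.mem_cons] at ht ⊢; tauto
          rcases this with rfl | rfl | ht
          · exact (h5 f hf).1
          · exact (h5 f hf).2
          · exact h4 t ht f hf)
      rw [mrg_append _ _ _ l A C hA hC, hP] at this
      exact this
    have L1 := K p q h2
    have L2 := K q p (fun f hf => (h2 f hf).symm)
    have L3 := Lay.cons (P ++ PNugE.mrg l A C) (PNugE.mrg r B D) p q [] _ hpq (Lay.nil _)
    rw [hc, List.length_append, hP, hlen] at L3
    have L4 := Lay.cons (P ++ A) (B ++ (C ++ D)) p q _ _ hpq (by simpa using L2)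
    rw [hc] at L4
    have L5 := L1.append (by simpa using L3)
    have hl : (P ++ A).length = bi' true ((l ++ true :: true :: r).count true) l + k := by
      simp only [List.length_append, hP, hA, bi', if_true]
      omega
    have e1 : l.length + k = k + l.length := Nat.add_comm _ _
    rw [hl] at L4
    rw [e1]
    refine uniq _ _ _ _ _ rfl ?_ (by simpa using L5) (by simpa using L4) n ?_
    · refine (List.Perm.nodup_iff ?_).2 hnd
      refine List.perm_iff_count.2 fun a => ?_
      simp only [List.count_append, List.count_cons]
      omega
    · simp only [List.length_append, List.length_cons, hP, hA, hB, hC, hD]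
      omega

/-! ### births and deaths -/

theorem shA_birth (r : List Bool) (b : Bool) {n : ℕ} : ∀ (l : List Bool) (k : ℕ),
    k + (l ++ r).length ≤ n →
    E n (sh k (l ++ r) ++ [birth (l.length + k)])
      (birth (bi' b ((l ++ r).count true) l + k) :: sh k (l ++ b :: b :: r)) := by
  intro l
  induction l with
  | nil =>
    intro k hn
    simp only [List.nil_append] at hn ⊢
    have h1 := farL_birth (n := n) (k := k) (w := sh 0 r) (by omega) (CW_sh r 0 (by omega))
    rw [up_sh, up_sh, Nat.zero_add, Nat.zero_add] at h1
    simp only [List.length_nil, Nat.zero_add]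
    cases b
    · have e1 : sh k (false :: false :: r) =
          mvL k (r.count true) ++ (mvL (k + 1) (r.count true) ++ sh (k + 2) r) := by
        simp only [sh, List.count_cons]
        simp
      have hT : r.count true ≤ r.length := List.count_le_length
      have h2 := (birth_mvL2 (n := n) (k := k) (r.count true) (by omega)).symm.right (sh (k + 2) r)
        (by
          obtain ⟨⟨m, w1, w2⟩, -⟩ := id h1
          exact ⟨m, w2⟩)
      rw [e1]
      have h3 := h1.trans h2
      have e2 : bi' false (r.count true) [] + k = k + r.count true := by
        simp only [bi', List.count_nil, Bool.false_eq_true, if_false]; omega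
      rw [e2]
      simpa only [List.append_assoc, List.cons_append, List.nil_append] using h3
    · have e2 : bi' true (r.count true) [] + k = k := by
        simp only [bi', List.count_nil, if_true]; omega
      rw [e2]
      exact h1
  | cons a l ih =>
    intro k hn
    simp only [List.cons_append, List.length_cons] at hn
    have h1 := ih (k + 1) (by omega)
    cases a
    · -- `false`
      have e1 : sh k (false :: l ++ r) = mvL k ((l ++ r).count true) ++ sh (k + 1) (l ++ r) := rfl
      have e2 : sh k (false :: l ++ b :: b :: r) =
        mvL k ((l ++ b :: b :: r).count true) ++ sh (k + 1) (l ++ b :: b :: r) := rfl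
      have hT : (l ++ r).count true ≤ (l ++ r).length := List.count_le_length
      have c1 : CW n (mvL k ((l ++ r).count true)) := CW_mvL _ _ (by omega)
      have h2 := h1.left (m := n) (mvL k ((l ++ r).count true)) c1.width
      have key : E n (mvL k ((l ++ r).count true) ++ [birth (bi' b ((l ++ r).count true) l + (k + 1))])
          (birth (bi' b ((false :: l ++ r).count true) (false :: l) + k) ::
            mvL k ((l ++ b :: b :: r).count true)) := by
        cases b
        · have e3 : bi' false ((false :: l ++ r).count true) (false :: l) + k =
              bi' false ((l ++ r).count true) l + (k + 1) := by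
            simp only [bi', List.cons_append, List.count_cons, Bool.false_eq_true, if_false]
            simp
            omega
          have e4 : (l ++ false :: false :: r).count true = (l ++ r).count true := by
            simp [List.count_cons]
          rw [e3, e4]
          have hc := count_add (l ++ r)
          have hc' : l.count false ≤ (l ++ r).count false := by
            rw [List.count_append]; omega
          refine mvL_b_far ?_ ?_
          · simp only [bi', Bool.false_eq_true, if_false]; omega
          · simp only [bi', Bool.false_eq_true, if_false]; omega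
        · have e3 : bi' true ((false :: l ++ r).count true) (false :: l) + k =
              k + l.count true := by
            simp only [bi', List.count_cons, if_true]
            simp
            omega
          have e4 : (l ++ true :: true :: r).count true = l.count true + r.count true + 2 := by
            simp [List.count_cons]; omega
          have e5 : bi' true ((l ++ r).count true) l + (k + 1) = k + 1 + l.count true := by
            simp only [bi', if_true]; omega
          rw [e3, e4, e5, List.count_append]
          rw [List.count_append] at hT
          exact mvL_b_mid (by omega)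
      have h3 := key.right (sh (k + 1) (l ++ b :: b :: r)) (by
        obtain ⟨⟨m, w1, w2⟩, -⟩ := id h2
        exact ⟨m, by simpa only [List.append_assoc, List.cons_append, List.nil_append] using w2⟩)
      have e6 : (false :: l).length + k = l.length + (k + 1) := by
        simp only [List.length_cons]; omega
      rw [e1, e2, e6]
      have h4 := h2.trans (by simpa only [List.append_assoc, List.cons_append, List.nil_append]
        using h3)
      simpa only [List.append_assoc, List.cons_append, List.nil_append] using h4
    · -- `true`
      have e1 : sh k (true :: l ++ r) = sh (k + 1) (l ++ r) := rfl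
      have e2 : sh k (true :: l ++ b :: b :: r) = sh (k + 1) (l ++ b :: b :: r) := rfl
      have e6 : (true :: l).length + k = l.length + (k + 1) := by
        simp only [List.length_cons]; omega
      have e3 : bi' b ((true :: l ++ r).count true) (true :: l) + k =
          bi' b ((l ++ r).count true) l + (k + 1) := by
        cases b <;> simp only [bi', List.cons_append, List.count_cons] <;> simp <;> omega
      rw [e1, e2, e6, e3]
      exact h1

theorem shA_death (r : List Bool) (b : Bool) {n : ℕ} : ∀ (l : List Bool) (k : ℕ),
    k + (l ++ b :: b :: r).length ≤ n →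
    E n (sh k (l ++ b :: b :: r) ++ [death (l.length + k)])
      (death (bi' b ((l ++ b :: b :: r).count true) l + k) :: sh k (l ++ r)) := by
  intro l
  induction l with
  | nil =>
    intro k hn
    simp only [List.nil_append, List.length_cons] at hn ⊢
    have h1 := farL_death (n := n) (k := k) (w := sh 0 r) (by omega) (CW_sh r 0 (by omega))
    rw [up_sh, up_sh, Nat.zero_add, Nat.zero_add] at h1
    simp only [List.length_nil, Nat.zero_add]
    cases b
    · have e1 : sh k (false :: false :: r) =
          mvL k (r.count true) ++ (mvL (k + 1) (r.count true) ++ sh (k + 2) r) := by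
        simp only [sh, List.count_cons]
        simp
      have hT : r.count true ≤ r.length := List.count_le_length
      have c1 : CW n (mvL k (r.count true) ++ mvL (k + 1) (r.count true)) :=
        (CW_mvL _ _ (by omega)).append (CW_mvL _ _ (by omega))
      have h2 := h1.left (m := n) _ c1.width
      have h3 := (death_mvL2 (n := n) (k := k) (r.count true) (by omega)).right (sh k r)
        (by
          obtain ⟨⟨m, w1, w2⟩, -⟩ := id h2
          exact ⟨m, by simpa only [List.append_assoc, List.cons_append, List.nil_append] using w2⟩)
      have e2 : bi' false ((false :: false :: r).count true) [] + k = k + r.count true := by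
        simp only [bi', List.count_nil, Bool.false_eq_true, if_false, List.count_cons]
        simp
        omega
      rw [e1, e2]
      simp only [List.append_assoc, List.cons_append, List.nil_append] at h2 h3 ⊢
      exact h2.trans h3
    · have e2 : bi' true ((true :: true :: r).count true) [] + k = k := by
        simp only [bi', List.count_nil, if_true]; omega
      rw [e2]
      exact h1
  | cons a l ih =>
    intro k hn
    simp only [List.cons_append, List.length_cons] at hn
    have h1 := ih (k + 1) (by omega)
    have hlen : (l ++ b :: b :: r).length = l.length + r.length + 2 := by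
      simp only [List.length_append, List.length_cons]; omega
    have hcl := count_add l
    have hcr := count_add r
    cases a
    · -- `false`
      have e1 : sh k (false :: l ++ b :: b :: r) =
        mvL k ((l ++ b :: b :: r).count true) ++ sh (k + 1) (l ++ b :: b :: r) := rfl
      have e2 : sh k (false :: l ++ r) = mvL k ((l ++ r).count true) ++ sh (k + 1) (l ++ r) := rfl
      have hT : (l ++ b :: b :: r).count true ≤ (l ++ b :: b :: r).length := List.count_le_length
      have c1 : CW n (mvL k ((l ++ b :: b :: r).count true)) := CW_mvL _ _ (by omega)
      have h2 := h1.left (m := n) (mvL k ((l ++ b :: b :: r).count true)) c1.width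
      have key : E n (mvL k ((l ++ b :: b :: r).count true) ++
            [death (bi' b ((l ++ b :: b :: r).count true) l + (k + 1))])
          (death (bi' b ((false :: l ++ b :: b :: r).count true) (false :: l) + k) ::
            mvL k ((l ++ r).count true)) := by
        cases b
        · have e3 : bi' false ((false :: l ++ false :: false :: r).count true) (false :: l) + k =
              bi' false ((l ++ false :: false :: r).count true) l + (k + 1) := by
            simp only [bi', List.cons_append, List.count_cons, Bool.false_eq_true, if_false]
            simp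
            omega
          have e4 : (l ++ false :: false :: r).count true = (l ++ r).count true := by
            simp [List.count_cons]
          rw [e3, e4, List.count_append]
          refine mvL_d_far ?_ ?_
          · simp only [bi', Bool.false_eq_true, if_false]; omega
          · simp only [bi', Bool.false_eq_true, if_false]
            omega
        · have e3 : bi' true ((false :: l ++ true :: true :: r).count true) (false :: l) + k =
              k + l.count true := by
            simp only [bi', List.count_cons, if_true]
            simp
            omega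
          have e4 : (l ++ true :: true :: r).count true = l.count true + 2 + r.count true := by
            simp [List.count_cons]; omega
          have e5 : bi' true (l.count true + 2 + r.count true) l + (k + 1) =
              k + 1 + l.count true := by
            simp only [bi', if_true]; omega
          rw [e3, e4, e5, List.count_append]
          rw [e4] at hT
          exact mvL_d_mid (by omega)
      have h3 := key.right (sh (k + 1) (l ++ r)) (by
        obtain ⟨⟨m, w1, w2⟩, -⟩ := id h2
        exact ⟨m, by simpa only [List.append_assoc, List.cons_append, List.nil_append] using w2⟩)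
      have e6 : (false :: l).length + k = l.length + (k + 1) := by
        simp only [List.length_cons]; omega
      rw [e1, e2, e6]
      have h4 := h2.trans (by simpa only [List.append_assoc, List.cons_append, List.nil_append]
        using h3)
      simpa only [List.append_assoc, List.cons_append, List.nil_append] using h4
    · -- `true`
      have e1 : sh k (true :: l ++ b :: b :: r) = sh (k + 1) (l ++ b :: b :: r) := rfl
      have e2 : sh k (true :: l ++ r) = sh (k + 1) (l ++ r) := rfl
      have e6 : (true :: l).length + k = l.length + (k + 1) := by
        simp only [List.length_cons]; omega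
      have e3 : bi' b ((true :: l ++ b :: b :: r).count true) (true :: l) + k =
          bi' b ((l ++ b :: b :: r).count true) l + (k + 1) := by
        cases b <;> simp only [bi', List.cons_append, List.count_cons] <;> simp <;> omega
      rw [e1, e2, e6, e3]
      exact h1

end PSh

open PSh PRun in
theorem t_shA : S_shA := by
  intro n k s s' p b hn h
  obtain ⟨l, r, h1⟩ := rstep_cases h
  rcases h1 with ⟨rfl, rfl, rfl⟩ | ⟨rfl, rfl, rfl⟩ | ⟨⟨c, rfl⟩, rfl, rfl⟩
  · have e1 := shA_birth r b l k hn
    have e2 : up k (blk b (l ++ r) (birth l.length)) =
        birth (bi' b ((l ++ r).count true) l + k) := by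
      cases b <;> simp [blk, bi', ct, up, Piece.moved, Piece.index]
    rw [e2]
    exact e1
  · have e1 := shA_death r b l k hn
    have e2 : up k (blk b (l ++ b :: b :: r) (death l.length)) =
        death (bi' b ((l ++ b :: b :: r).count true) l + k) := by
      cases b <;> simp [blk, bi', ct, up, Piece.moved, Piece.index]
    rw [e2]
    exact e1
  · have e1 := shA_cx l r b c hn
    have e2 : up k (blk b (l ++ b :: b :: r) (cx c l.length)) =
        cx c (bi' b ((l ++ b :: b :: r).count true) l + k) := by
      cases b <;> simp [blk, bi', ct, up_cx, cx_moved, cx_index]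
    rw [e2, up_cx]
    exact e1

open PSh PRun PNugE in
theorem t_splE : S_splE := by
  rintro D Dt Df ⟨L, rfl, hrun, rfl, rfl⟩
  have h1 := t_run t_shA t_shB L [] [] hrun
  have w1 := run_width hrun
  have w2 := run_subw (b := true) hrun
  have w3 := run_subw (b := false) hrun
  simp only [List.count_nil, List.length_nil] at h1 w1 w2 w3
  rw [up_map_zero] at h1
  refine ⟨w1, w2, w3, reg_of_E ?_ w1⟩
  simpa [sh] using h1

end Pool.Agent.Helper82_Alt
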