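import Pool.Agent.Helper82_Alt.Sig
import Pool.Agent.Helper82_Alt.Spec2

/-!
# The signature: bounds in the form `SigGe`
-/

set_option autoImplicit false

namespace Pool.Agent.Helper82_Alt.PSigE

open Pool.Agent.Helper454.Kauf (Piece Word Closed width)
open Pool.Agent.Helper454.Wh (OPiece OWord below noD forget OClosed)
open PWid PCol PSig Module

theorem t_sigE : S_sigE := by
  rintro D b hO hne ⟨p, m, hb, ⟨V, hV1, hV2, hVf, hV3⟩, φ, hφ⟩
  obtain ⟨p', hp'⟩ := exists_greatest D hO hne 1
  obtain ⟨m', hm'⟩ := exists_greatest D hO hne (-1)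
  refine ⟨p' - m', ⟨p', m', hp', hm', rfl⟩, ?_⟩
  have h1 : p ≤ p' := hp'.2 ⟨V, hV1, hV2, fun r hr h => by rw [one_mul]; exact hV3 r hr h⟩
  have h2 : m' ≤ m := by
    obtain ⟨U, hU1, hU2, hU3⟩ := hm'.1
    rw [← hU2, show m = finrank ℝ (Fin m → ℝ) by simp]
    refine LinearMap.finrank_le_finrank_of_injective (f := φ.comp U.subtype) ?_
    rw [← LinearMap.ker_eq_bot, LinearMap.ker_eq_bot']
    rintro ⟨r, hr⟩ h
    by_contra hne0
    have hr0 : r ≠ 0 := fun h0 => hne0 (Subtype.ext h0)
    have h3 := hU3 r hr hr0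
    have h4 := hφ r (hU1 r hr) h
    linarith
  have c1 : (p : ℤ) ≤ p' := by exact_mod_cast h1
  have c2 : (m' : ℤ) ≤ m := by exact_mod_cast h2
  linarith

theorem t_sigB : S_sigB := by
  intro ε D hε hO hne hcon hpar
  have hD := closed_forget hO
  have hne' : forget D ≠ [] := by simpa [forget] using hne
  have hlen : D.length = (forget D).length := by simp [forget]
  set W := forget D with hW
  set U₁ := LinearMap.range ((dS (1 - ε) W).comp (LL W (M (1 - ε) W)).subtype) with hU₁
  set U₂ := LinearMap.range ((dL ε W).comp (LL W (M ε W)).subtype) with hU₂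
  set S : Finset (Cr W) := Finset.univ.filter (fun t => plusN D t.1 = true) with hS
  set Q := U₂.map (PLin.P Sᶜ) with hQ
  refine ⟨(finrank ℝ (U₁.map (PLin.P S)) : ℤ) - finrank ℝ Q,
    ⟨finrank ℝ (U₁.map (PLin.P S)), finrank ℝ Q, le_rfl, ?_, ?_⟩, ?_⟩
  · -- the positive index
    obtain ⟨K, hK1, hK2⟩ := PLin.exists_compl
      (((PLin.P S).comp (dS (1 - ε) W)).comp (LL W (M (1 - ε) W)).subtype)
    obtain ⟨hf, -⟩ := PL.t_L2 W (M (1 - ε) W) hD hne' (M_rlab (1 - ε) hD)
    refine ⟨K.map (LL W (M (1 - ε) W)).subtype, ?_, ?_, ?_, ?_⟩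
    · rintro _ ⟨⟨g, hg⟩, -, rfl⟩
      exact hg.1
    · rw [Submodule.finrank_map_subtype_eq, hK1, hU₁, ← LinearMap.range_comp]
      rfl
    · haveI := hf
      infer_instance
    · rintro _ ⟨⟨g, hg⟩, hgK, rfl⟩ hne0
      show 0 < seifertForm D g
      rw [form ε hε D hO hpar g hg.1]
      have hz : ∀ t : Cr W, dL ε W g t = 0 := fun t => dC_zero hε hD hg t.1 t.1.2
      have e1 : ∀ t : Cr W, (if plusN D t.1 then (dS (1 - ε) W g t) ^ 2
          else -(dL ε W g t) ^ 2 - 2 * (dS (1 - ε) W g t * dL ε W g t)) =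
          (PLin.P S (dS (1 - ε) W g) t) ^ 2 := by
        intro t
        rw [PLin.P_apply, hz t]
        by_cases h : plusN D t.1 = true
        · rw [if_pos h, if_pos (by rw [hS]; simp [h])]
        · rw [if_neg h, if_neg (by rw [hS]; simp [h])]
          ring
      rw [Finset.sum_congr rfl fun t _ => e1 t]
      by_contra hcon'
      have h1 : ∑ t : Cr W, (PLin.P S (dS (1 - ε) W g) t) ^ 2 = 0 :=
        le_antisymm (not_lt.1 hcon') (Finset.sum_nonneg fun t _ => sq_nonneg _)
      have h2 := (Finset.sum_eq_zero_iff_of_nonneg (fun t _ => sq_nonneg _)).1 h1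
      have h3 : PLin.P S (dS (1 - ε) W g) = 0 := by
        funext t
        exact pow_eq_zero_iff (two_ne_zero) |>.1 (h2 t (Finset.mem_univ t))
      have h4 := hK2 ⟨g, hg⟩ hgK h3
      exact hne0 (congrArg Subtype.val h4)
  · -- the negative index
    obtain ⟨π, hπ⟩ := Q.subtype.exists_leftInverse_of_injective
      (LinearMap.ker_eq_bot.2 Q.injective_subtype)
    refine ⟨((finBasis ℝ Q).equivFun.toLinearMap.comp π).comp ((PLin.P Sᶜ).comp (dL ε W)), ?_⟩
    intro r hr h
    have hmem : ((PLin.P Sᶜ).comp (dL ε W)) r ∈ Q := by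
      refine ⟨dL ε W r, ?_, rfl⟩
      rw [← dL_rst ε hε W hD r]
      exact ⟨⟨rst ε W r, restrict_mem ε hD hr⟩, rfl⟩
    have h1 : π (((PLin.P Sᶜ).comp (dL ε W)) r) = 0 := by
      have : (finBasis ℝ Q).equivFun (π (((PLin.P Sᶜ).comp (dL ε W)) r)) = 0 := h
      exact (LinearEquiv.map_eq_zero_iff _).1 this
    have h2 : ((PLin.P Sᶜ).comp (dL ε W)) r = 0 := by
      have h3 := LinearMap.congr_fun hπ ⟨_, hmem⟩
      have h4 : π (((PLin.P Sᶜ).comp (dL ε W)) r) = ⟨_, hmem⟩ := h3
      rw [h1] at h4
      exact (congrArg Subtype.val h4).symm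
    rw [form ε hε D hO hpar r hr]
    refine Finset.sum_nonneg fun t _ => ?_
    by_cases h : plusN D t.1 = true
    · rw [if_pos h]; exact sq_nonneg _
    · rw [if_neg h]
      have h3 : dL ε W r t = 0 := by
        have := congrFun h2 t
        rw [LinearMap.comp_apply, PLin.P_apply, if_pos (by rw [hS]; simp [h])] at this
        exact this
      rw [h3]
      simp
  · have horth : ∀ x ∈ U₁, ∀ y ∈ U₂, ∑ i, x i * y i = 0 := by
      rintro _ ⟨⟨g, hg⟩, rfl⟩ _ ⟨⟨f, hf⟩, rfl⟩
      exact orth_dS_dL ε hε W hD hpar g f hg hf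
    have r1 : PP W (M (1 - ε) W) ≤ finrank ℝ U₁ + 1 := by
      rw [hU₁, range_dS]
      exact rank_ge (by omega) hD hne' hcon
    have r2 : PP W (M ε W) ≤ finrank ℝ U₂ + 1 := rank_ge hε hD hne' hcon
    have k1 := PP_white ε hε W hD hpar
    have k2 := PP_black ε hε W hD hpar
    have hcard := card_cr W
    have hdim : Fintype.card (Cr W) ≤ finrank ℝ U₁ + finrank ℝ U₂ := by
      rw [hcard]
      have : (crs W : ℤ) ≤ finrank ℝ U₁ + finrank ℝ U₂ := by linarith
      exact_mod_cast this
    have hmain := PLin.main S U₁ U₂ horth hdim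
    have hU₂le : finrank ℝ U₁ + finrank ℝ U₂ ≤ crs W := by
      rw [← hcard, ← PLin.orth_eq horth hdim]
      exact PLin.orth_le U₁
    -- the number of positive crossings
    have hwr : (crs W : ℤ) + writhe D = 2 * S.card := by
      have h1 : writhe D = ∑ t : Fin D.length, osign D[t] (dirAt D t) :=
        writhe_sum D 0 noD (isSome_of_closed hO)
      have h2 : (crs W : ℤ) = ∑ t : Fin D.length,
          if crI D[t].forget = none then (0 : ℤ) else 1 := by
        rw [← sum_crs W]
        push_cast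
        have h3 := sum_fin hlen (fun t => if h : t < D.length then
          (if crI D[t].forget = none then (0 : ℤ) else 1) else 0)
        have h4 : ∑ t : Fin D.length, (if h : (t : ℕ) < D.length then
          (if crI D[(t : ℕ)].forget = none then (0 : ℤ) else 1) else 0) =
          ∑ t : Fin D.length, if crI D[t].forget = none then (0 : ℤ) else 1 :=
          Finset.sum_congr rfl fun t _ => by rw [dif_pos t.2]; rfl
        rw [← h4, h3]
        refine Finset.sum_congr rfl fun t _ => ?_
        have ht : (t : ℕ) < D.length := by rw [hlen]; exact t.2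
        rw [dif_pos ht]
        have : W[t] = D[(t : ℕ)].forget := by simp [hW, forget]
        rw [this]
      rw [h1, h2, ← Finset.sum_add_distrib]
      have h5 : ∀ t : Fin D.length, ((if crI D[t].forget = none then (0 : ℤ) else 1) +
          osign D[t] (dirAt D t)) = if plusN D t then 2 else 0 := by
        intro t
        rw [sign_count]
        unfold plusN
        rw [dif_pos t.2]
        rfl
      rw [Finset.sum_congr rfl fun t _ => h5 t,
        sum_fin hlen (fun t => if plusN D t then (2 : ℤ) else 0)]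
      rw [← sum_cr W (fun t => if plusN D t then (2 : ℤ) else 0) ?_]
      · rw [hS, Finset.card_filter]
        push_cast
        rw [Finset.mul_sum]
        exact Finset.sum_congr rfl fun t _ => by split_ifs <;> simp
      · intro t ht
        have ht' : (t : ℕ) < D.length := by rw [hlen]; exact t.2
        have h6 : W[t] = D[(t : ℕ)].forget := by simp [hW, forget]
        rw [h6] at ht
        unfold plusN
        rw [dif_pos ht']
        revert ht
        cases D[(t : ℕ)] <;> simp [OPiece.forget, crI, plusP]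
    have c1 : (S.card : ℤ) + finrank ℝ Q ≤
        finrank ℝ (U₁.map (PLin.P S)) + finrank ℝ U₂ := by exact_mod_cast hmain
    have c2 : (finrank ℝ U₁ : ℤ) + finrank ℝ U₂ ≤ crs W := by exact_mod_cast hU₂le
    linarith

end Pool.Agent.Helper82_Alt.PSigE
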