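import Pool.Agent.Helper82_Alt.Spec2

/-!
# A diagram which is not connected consists of two parts
-/

set_option autoImplicit false

namespace Pool.Agent.Helper82_Alt.PSplEx

open Pool.Agent.Helper454.Kauf (Piece Word Closed width)

/-- the side of a piece -/
def labp : Piece → (ℕ → Bool) → (ℕ → Bool) → Bool
  | .birth i, _, g => g i
  | .death i, f, _ => f i
  | .pos i, f, _ => f i
  | .neg i, f, _ => f i

/-- the first `n` labels -/
def rowOf (n : ℕ) (f : ℕ → Bool) : List Bool := (List.range n).map f

theorem rowOf_length (n : ℕ) (f : ℕ → Bool) : (rowOf n f).length = n := by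
  simp [rowOf]

theorem rowOf_get (n : ℕ) (f : ℕ → Bool) (j : ℕ) :
    (rowOf n f)[j]? = if j < n then some (f j) else none := by
  unfold rowOf
  rw [List.getElem?_map]
  split_ifs with h
  · rw [List.getElem?_range h]; rfl
  · rw [List.getElem?_eq_none (by simpa using h)]; rfl

theorem rstep_rowOf (p : Piece) (n m : ℕ) (f g : ℕ → Bool) (hw : p.width n = some m)
    (hs : SStep p f g) : rstep p (labp p f g) (rowOf n f) = some (rowOf m g) := by
  cases p with
  | birth i =>
    simp only [Helper454.Kauf.Piece.width] at hw
    split at hw
    · rename_i hi
      obtain rfl : n + 2 = m := by simpa using hw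
      obtain ⟨h1, h2, h3⟩ := hs
      simp only [rstep, labp, rowOf_length, if_pos hi, Option.some.injEq]
      apply List.ext_getElem?
      intro j
      rw [rowOf_get, List.getElem?_append, List.length_take, rowOf_length, min_eq_left hi]
      by_cases hj : j < i
      · rw [if_pos hj, List.getElem?_take_of_lt hj, rowOf_get, if_pos (by omega), if_pos (by omega),
          h1 j hj]
      · rw [if_neg hj]
        obtain ⟨k, rfl⟩ : ∃ k, j = i + k := ⟨j - i, by omega⟩
        rw [Nat.add_sub_cancel_left]
        match k with
        | 0 => simp only [List.getElem?_cons_zero, Nat.add_zero]; rw [if_pos (by omega)]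
        | 1 =>
          simp only [List.getElem?_cons_succ, List.getElem?_cons_zero]
          rw [if_pos (by omega), h3]
        | k + 2 =>
          simp only [List.getElem?_cons_succ, List.getElem?_drop]
          rw [rowOf_get, ← add_assoc, h2 (i + k) (by omega)]
          by_cases hk : i + k < n
          · rw [if_pos hk, if_pos (by omega)]
          · rw [if_neg hk, if_neg (by omega)]
    · simp at hw
  | death i =>
    simp only [Helper454.Kauf.Piece.width] at hw
    split at hw
    · rename_i hi
      obtain rfl : n - 2 = m := by simpa using hw
      obtain ⟨h1, h2, h3⟩ := hs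
      have e1 : (rowOf n f)[i]? = some (f i) := by rw [rowOf_get, if_pos (by omega)]
      have e2 : (rowOf n f)[i + 1]? = some (f i) := by rw [rowOf_get, if_pos (by omega), h3]
      simp only [rstep, labp, e1, e2, and_self, if_true, Option.some.injEq]
      apply List.ext_getElem?
      intro j
      rw [rowOf_get, List.getElem?_append, List.length_take, rowOf_length, min_eq_left (by omega)]
      by_cases hj : j < i
      · rw [if_pos hj, List.getElem?_take_of_lt hj, rowOf_get, if_pos (by omega), if_pos (by omega),
          h1 j hj]
      · rw [if_neg hj, List.getElem?_drop, rowOf_get, show i + 2 + (j - i) = j + 2 by omega,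
          h2 j (by omega)]
        by_cases hk : j + 2 < n
        · rw [if_pos hk, if_pos (by omega)]
        · rw [if_neg hk, if_neg (by omega)]
    · simp at hw
  | pos i =>
    simp only [Helper454.Kauf.Piece.width] at hw
    split at hw
    · rename_i hi
      obtain rfl : n = m := by simpa using hw
      obtain ⟨h1, h3⟩ := hs
      have e1 : (rowOf n f)[i]? = some (f i) := by rw [rowOf_get, if_pos (by omega)]
      have e2 : (rowOf n f)[i + 1]? = some (f i) := by rw [rowOf_get, if_pos (by omega), h3]
      have e3 : g = f := funext h1
      simp only [rstep, labp, e1, e2, and_self, if_true, e3]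
    · simp at hw
  | neg i =>
    simp only [Helper454.Kauf.Piece.width] at hw
    split at hw
    · rename_i hi
      obtain rfl : n = m := by simpa using hw
      obtain ⟨h1, h3⟩ := hs
      have e1 : (rowOf n f)[i]? = some (f i) := by rw [rowOf_get, if_pos (by omega)]
      have e2 : (rowOf n f)[i + 1]? = some (f i) := by rw [rowOf_get, if_pos (by omega), h3]
      have e3 : g = f := funext h1
      simp only [rstep, labp, e1, e2, and_self, if_true, e3]
    · simp at hw

/-- the labelled word of a labelling of the strands -/
def labW : Word → (ℕ → ℕ → Bool) → LW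
  | [], _ => []
  | p :: w, s => (p, labp p (s 0) (s 1)) :: labW w (fun t => s (t + 1))

theorem wd_labW (w : Word) (s : ℕ → ℕ → Bool) : wd (labW w s) = w := by
  induction w generalizing s with
  | nil => rfl
  | cons p w ih =>
    show p :: wd (labW w _) = p :: w
    rw [ih]

theorem run_labW (w : Word) (s : ℕ → ℕ → Bool) (n m : ℕ) (hw : width w n = some m)
    (hs : ∀ t (h : t < w.length), SStep w[t] (s t) (s (t + 1))) :
    run (labW w s) (rowOf n (s 0)) = some (rowOf m (s w.length)) := by
  induction w generalizing s n with
  | nil =>
    obtain rfl : n = m := by simpa [width] using hw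
    rfl
  | cons p w ih =>
    have hw' : (p.width n).bind (width w) = some m := hw
    cases hp : p.width n with
    | none => rw [hp] at hw'; simp at hw'
    | some k =>
      rw [hp] at hw'
      show (rstep p (labp p (s 0) (s 1)) (rowOf n (s 0))).bind (run (labW w _)) = _
      rw [rstep_rowOf p n k (s 0) (s 1) hp (hs 0 (by simp))]
      have := ih (fun t => s (t + 1)) k hw' (fun t h => hs (t + 1) (by simpa using h))
      simpa using this

theorem labW_snd (w : Word) (s : ℕ → ℕ → Bool) (c : Bool) (h : ∀ p ∈ labW w s, p.2 = c) (t : ℕ)
    (ht : t < w.length) : labp w[t] (s t) (s (t + 1)) = c := by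
  induction w generalizing s t with
  | nil => simp at ht
  | cons p w ih =>
    cases t with
    | zero => exact h (p, labp p (s 0) (s 1)) (by simp [labW])
    | succ t =>
      exact ih (fun t => s (t + 1)) (fun q hq => h q (by simp [labW, hq])) t (by simpa using ht)

/-- all strands have the label `c` if all pieces have it -/
theorem all_of_labp (D : Word) (hD : Closed D) (s : ℕ → ℕ → Bool) (c : Bool)
    (hs : ∀ t (h : t < D.length), SStep D[t] (s t) (s (t + 1)))
    (hc : ∀ t (h : t < D.length), labp D[t] (s t) (s (t + 1)) = c) (t n : ℕ)
    (hn : width (D.take t) 0 = some n) (j : ℕ) (hj : j < n) : s t j = c := by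
  induction t generalizing n j with
  | zero =>
    obtain rfl : 0 = n := by simpa [width] using hn
    omega
  | succ t ih =>
    by_cases ht : t < D.length
    · rw [List.take_succ_eq_append_getElem ht] at hn
      have h0 : ∃ k, width (D.take t) 0 = some k ∧ (D[t]).width k = some n := by
        have app : ∀ (x y : Word) (n : ℕ), width (x ++ y) n = (width x n).bind (width y) := by
          intro x y
          induction x with
          | nil => intro n; rfl
          | cons p x ih =>
            intro n
            show (p.width n).bind (width (x ++ y)) = ((p.width n).bind (width x)).bind (width y)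
            cases h : p.width n with
            | none => rfl
            | some m => exact ih m
        rw [app] at hn
        cases hk : width (D.take t) 0 with
        | none => rw [hk] at hn; simp at hn
        | some k =>
          rw [hk] at hn
          refine ⟨k, rfl, ?_⟩
          have hn' : ((D[t]).width k).bind (width []) = some n := hn
          cases hq : (D[t]).width k with
          | none => rw [hq] at hn'; simp at hn'
          | some q => rw [hq] at hn'; simpa [width] using hn'
      obtain ⟨k, hk, hkn⟩ := h0
      have h1 := hs t ht
      have h2 := hc t ht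
      revert h1 h2 hkn
      generalize D[t] = p
      intro hkn h1 h2
      cases p with
      | birth i =>
        simp only [Helper454.Kauf.Piece.width] at hkn
        split at hkn
        · rename_i hi
          obtain rfl : k + 2 = n := by simpa using hkn
          obtain ⟨a1, a2, a3⟩ := h1
          simp only [labp] at h2
          by_cases hji : j < i
          · rw [a1 j hji]; exact ih k hk j (by omega)
          · by_cases hj2 : j = i
            · rw [hj2, h2]
            · by_cases hj3 : j = i + 1
              · rw [hj3, ← a3, h2]
              · obtain ⟨l, rfl⟩ : ∃ l, j = l + 2 := ⟨j - 2, by omega⟩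
                rw [a2 l (by omega)]
                exact ih k hk l (by omega)
        · simp at hkn
      | death i =>
        simp only [Helper454.Kauf.Piece.width] at hkn
        split at hkn
        · rename_i hi
          obtain rfl : k - 2 = n := by simpa using hkn
          obtain ⟨a1, a2, a3⟩ := h1
          by_cases hji : j < i
          · rw [← a1 j hji]; exact ih k hk j (by omega)
          · rw [← a2 j (by omega)]; exact ih k hk (j + 2) (by omega)
        · simp at hkn
      | pos i =>
        simp only [Helper454.Kauf.Piece.width] at hkn
        split at hkn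
        · rename_i hi
          obtain rfl : k = n := by simpa using hkn
          rw [h1.1 j]; exact ih k hk j hj
        · simp at hkn
      | neg i =>
        simp only [Helper454.Kauf.Piece.width] at hkn
        split at hkn
        · rename_i hi
          obtain rfl : k = n := by simpa using hkn
          rw [h1.1 j]; exact ih k hk j hj
        · simp at hkn
    · rw [List.take_of_length_le (by omega), hD] at hn
      obtain rfl : 0 = n := by simpa using hn
      omega

theorem subw_nil (b : Bool) (L : LW) (s : List Bool) (h : subw b L s = []) :
    ∀ p ∈ L, p.2 = !b := by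
  induction L generalizing s with
  | nil => simp
  | cons p L ih =>
    simp only [subw] at h
    split_ifs at h with h1
    intro q hq
    rcases List.mem_cons.mp hq with rfl | hq
    · cases b <;> cases hh : q.2 <;> simp_all
    · exact ih _ h q hq

theorem subw_length (L : LW) (s : List Bool) :
    (subw true L s).length + (subw false L s).length = L.length := by
  induction L generalizing s with
  | nil => rfl
  | cons p L ih =>
    have := ih ((rstep p.1 p.2 s).getD s)
    simp only [subw]
    cases h : p.2 <;> rw [h] at this <;> simp <;> omega

theorem crs_moved (p : Piece) (j : ℕ) (w : Word) : crs (p.moved j :: w) = crs [p] + crs w := by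
  cases p <;> simp [crs, Helper454.Kauf.Piece.moved] <;> omega

theorem crs_cons (p : Piece) (w : Word) : crs (p :: w) = crs [p] + crs w := by
  cases p <;> simp [crs] <;> omega

theorem subw_crs (L : LW) (s : List Bool) :
    crs (subw true L s) + crs (subw false L s) = crs (wd L) := by
  induction L generalizing s with
  | nil => rfl
  | cons p L ih =>
    have := ih ((rstep p.1 p.2 s).getD s)
    have e : wd (p :: L) = p.1 :: wd L := rfl
    rw [e, crs_cons]
    simp only [subw]
    cases h : p.2
    · rw [h] at this
      rw [if_neg (by simp), if_pos rfl, crs_moved]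
      omega
    · rw [h] at this
      rw [if_pos rfl, if_neg (by simp), crs_moved]
      omega

theorem t_splEx : S_splEx := by
  intro D hD hc
  unfold Connected at hc
  push Not at hc
  obtain ⟨s, hs, hv⟩ := hc
  have e0 : rowOf 0 (s 0) = [] := rfl
  have hrun : run (labW D s) [] = some [] := by
    have := run_labW D s 0 0 hD hs
    rw [e0] at this
    rw [this]
    rfl
  refine ⟨subw true (labW D s) [], subw false (labW D s) [], ⟨labW D s, wd_labW D s, hrun, rfl, rfl⟩,
    ?_, ?_, ?_, ?_⟩
  · intro h
    have h1 := subw_nil true _ _ h
    obtain ⟨t, n, hn, j, hj, hne⟩ := hv false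
    exact hne (all_of_labp D hD s false hs (fun t ht => labW_snd D s false h1 t ht) t n hn j hj)
  · intro h
    have h1 := subw_nil false _ _ h
    obtain ⟨t, n, hn, j, hj, hne⟩ := hv true
    exact hne (all_of_labp D hD s true hs (fun t ht => labW_snd D s true h1 t ht) t n hn j hj)
  · rw [subw_length]
    have := congrArg List.length (wd_labW D s)
    simpa [wd] using this
  · rw [subw_crs, wd_labW]

/-! ### alternating parts -/

/-- add a value in front -/
def consF (x : Bool) (f : ℕ → Bool) : ℕ → Bool
  | 0 => x
  | k + 1 => f k

/-- the values at the strands of the side `b` (all strands behind `s` count) -/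
def sel (b : Bool) : List Bool → (ℕ → Bool) → ℕ → Bool
  | [], e => e
  | c :: s, e => if c = b then consF (e 0) (sel b s (fun j => e (j + 1))) else
      sel b s (fun j => e (j + 1))

/-- the same piece one step further to the right -/
def nx : Piece → Piece
  | .birth i => .birth (i + 1)
  | .death i => .death (i + 1)
  | .pos i => .pos (i + 1)
  | .neg i => .neg (i + 1)

theorem astep_nx (p : Piece) (e e' : ℕ → Bool) : AStep (nx p) e e' ↔
    e' 0 = e 0 ∧ AStep p (fun j => e (j + 1)) (fun j => e' (j + 1)) := by
  cases p with
  | birth i =>
    simp only [nx, AStep]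
    constructor
    · rintro ⟨h1, h2, h3⟩
      exact ⟨h1 0 (by omega), fun j hj => h1 (j + 1) (by omega), fun j hj => by
        have := h2 (j + 1) (by omega); exact this, h3⟩
    · rintro ⟨h0, h1, h2, h3⟩
      refine ⟨fun j hj => ?_, fun j hj => ?_, h3⟩
      · cases j with
        | zero => exact h0
        | succ j => exact h1 j (by omega)
      · obtain ⟨k, rfl⟩ : ∃ k, j = k + 1 := ⟨j - 1, by omega⟩
        exact h2 k (by omega)
  | death i =>
    simp only [nx, AStep]
    constructor
    · rintro ⟨h1, h2, h3⟩
      exact ⟨(h1 0 (by omega)).symm, fun j hj => h1 (j + 1) (by omega), fun j hj => by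
        have := h2 (j + 1) (by omega); exact this, h3⟩
    · rintro ⟨h0, h1, h2, h3⟩
      refine ⟨fun j hj => ?_, fun j hj => ?_, h3⟩
      · cases j with
        | zero => exact h0.symm
        | succ j => exact h1 j (by omega)
      · obtain ⟨k, rfl⟩ : ∃ k, j = k + 1 := ⟨j - 1, by omega⟩
        exact h2 k (by omega)
  | pos i =>
    simp only [nx, AStep]
    constructor
    · rintro ⟨h1, h2, h3⟩
      exact ⟨h1 0, fun j => h1 (j + 1), h2, h3⟩
    · rintro ⟨h0, h1, h2, h3⟩
      refine ⟨fun j => ?_, h2, h3⟩
      cases j with
      | zero => exact h0
      | succ j => exact h1 j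
  | neg i =>
    simp only [nx, AStep]
    constructor
    · rintro ⟨h1, h2, h3⟩
      exact ⟨h1 0, fun j => h1 (j + 1), h2, h3⟩
    · rintro ⟨h0, h1, h2, h3⟩
      refine ⟨fun j => ?_, h2, h3⟩
      cases j with
      | zero => exact h0
      | succ j => exact h1 j

theorem astep_nx_cons (p : Piece) (x : Bool) (f f' : ℕ → Bool) (h : AStep p f f') :
    AStep (nx p) (consF x f) (consF x f') := by
  rw [astep_nx]
  exact ⟨rfl, h⟩

theorem rstep_nx (p : Piece) (b c : Bool) (s s' : List Bool) (h : rstep (nx p) b (c :: s) = some s') :
    ∃ s₁, rstep p b s = some s₁ ∧ s' = c :: s₁ := by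
  cases p with
  | birth i =>
    simp only [nx, rstep, List.length_cons, Nat.add_le_add_iff_right] at h ⊢
    split_ifs at h with h1
    rw [if_pos h1]
    refine ⟨_, rfl, ?_⟩
    have := Option.some.inj h
    rw [← this]
    simp
  | death i =>
    simp only [nx, rstep, List.getElem?_cons_succ] at h ⊢
    split_ifs at h with h1
    rw [if_pos h1]
    refine ⟨_, rfl, ?_⟩
    have := Option.some.inj h
    rw [← this]
    simp
  | pos i =>
    simp only [nx, rstep, List.getElem?_cons_succ] at h ⊢
    split_ifs at h with h1
    rw [if_pos h1]
    exact ⟨_, rfl, (Option.some.inj h).symm⟩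
  | neg i =>
    simp only [nx, rstep, List.getElem?_cons_succ] at h ⊢
    split_ifs at h with h1
    rw [if_pos h1]
    exact ⟨_, rfl, (Option.some.inj h).symm⟩

theorem moved_nx (p : Piece) (j : ℕ) : (nx p).moved (j + 1) = nx (p.moved j) := by
  cases p <;> rfl

theorem moved_nx' (p : Piece) (j : ℕ) : (nx p).moved j = p.moved j := by
  cases p <;> rfl

theorem index_nx (p : Piece) : (nx p).index = p.index + 1 := by
  cases p <;> rfl

theorem sel_step (i : ℕ) (p : Piece) (hi : p.index = i) (b c : Bool) (s s' : List Bool)
    (e e' : ℕ → Bool) (hr : rstep p c s = some s') (ha : AStep p e e') :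
    (c = b → AStep (p.moved (ct b s i)) (sel b s e) (sel b s' e')) ∧
    (c ≠ b → sel b s e = sel b s' e') := by
  induction i generalizing p s s' e e' with
  | zero =>
    cases p with
    | birth i =>
      obtain rfl : i = 0 := hi
      simp only [rstep, Nat.zero_le, if_true, List.take_zero, List.drop_zero, List.nil_append,
        Option.some.injEq] at hr
      subst hr
      obtain ⟨h1, h2, h3⟩ := ha
      have e1 : (fun j => e' (j + 1 + 1)) = e := funext fun j => h2 j (by omega)
      constructor
      · rintro rfl
        simp only [ct, List.take_zero, List.count_nil, Helper454.Kauf.Piece.moved, sel, if_true, e1]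
        refine ⟨fun j hj => by omega, fun j hj => rfl, h3⟩
      · intro hc
        simp only [sel, if_neg hc, e1]
    | death i =>
      obtain rfl : i = 0 := hi
      simp only [rstep] at hr
      split_ifs at hr with h0
      obtain ⟨h1, h2, h3⟩ := ha
      match s, h0, hr with
      | x :: y :: s, h0, hr =>
        obtain ⟨h01, h02⟩ := h0
        obtain rfl : x = c := by simpa using h01
        obtain rfl : y = x := by simpa using h02
        simp only [List.take_zero, List.nil_append, Option.some.injEq] at hr
        have e1 : (fun j => e (j + 1 + 1)) = e' := funext fun j => h2 j (by omega)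
        have hr' : s' = s := by rw [← hr]; rfl
        subst hr'
        constructor
        · rintro rfl
          simp only [ct, List.take_zero, List.count_nil, Helper454.Kauf.Piece.moved, sel, if_true, e1]
          refine ⟨fun j hj => by omega, fun j hj => rfl, h3⟩
        · intro hc
          simp only [sel, if_neg hc, e1]
      | [], h0, hr => simp at h0
      | [x], h0, hr => simp at h0
    | pos i =>
      obtain rfl : i = 0 := hi
      simp only [rstep] at hr
      split_ifs at hr with h0
      obtain ⟨h1, h2, h3⟩ := ha
      obtain rfl : s = s' := Option.some.inj hr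
      have e1 : e' = e := funext h1
      subst e1
      match s, h0 with
      | x :: y :: s, h0 =>
        obtain ⟨h01, h02⟩ := h0
        obtain rfl : x = c := by simpa using h01
        obtain rfl : y = x := by simpa using h02
        constructor
        · rintro rfl
          simp only [ct, List.take_zero, List.count_nil, Helper454.Kauf.Piece.moved, sel, if_true]
          exact ⟨fun j => rfl, h2, h3⟩
        · intro hc
          rfl
      | [], h0 => simp at h0
      | [x], h0 => simp at h0
    | neg i =>
      obtain rfl : i = 0 := hi
      simp only [rstep] at hr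
      split_ifs at hr with h0
      obtain ⟨h1, h2, h3⟩ := ha
      obtain rfl : s = s' := Option.some.inj hr
      have e1 : e' = e := funext h1
      subst e1
      match s, h0 with
      | x :: y :: s, h0 =>
        obtain ⟨h01, h02⟩ := h0
        obtain rfl : x = c := by simpa using h01
        obtain rfl : y = x := by simpa using h02
        constructor
        · rintro rfl
          simp only [ct, List.take_zero, List.count_nil, Helper454.Kauf.Piece.moved, sel, if_true]
          exact ⟨fun j => rfl, h2, h3⟩
        · intro hc
          rfl
      | [], h0 => simp at h0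
      | [x], h0 => simp at h0
  | succ i ih =>
    obtain ⟨q, rfl, hq⟩ : ∃ q, nx q = p ∧ q.index = i := by
      cases p with
      | birth k =>
        obtain rfl : k = i + 1 := hi
        exact ⟨.birth i, rfl, rfl⟩
      | death k =>
        obtain rfl : k = i + 1 := hi
        exact ⟨.death i, rfl, rfl⟩
      | pos k =>
        obtain rfl : k = i + 1 := hi
        exact ⟨.pos i, rfl, rfl⟩
      | neg k =>
        obtain rfl : k = i + 1 := hi
        exact ⟨.neg i, rfl, rfl⟩
    cases s with
    | nil => cases q <;> simp [nx, rstep] at hr
    | cons x s =>
      obtain ⟨s₁, hs₁, rfl⟩ := rstep_nx q c x s s' hr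
      obtain ⟨h0, ha'⟩ := (astep_nx q e e').mp ha
      obtain ⟨k1, k2⟩ := ih q hq s s₁ _ _ hs₁ ha'
      constructor
      · intro hc
        by_cases hx : x = b
        · have e1 : ct b (x :: s) (i + 1) = ct b s i + 1 := by
            simp [ct, hx]
          rw [e1, moved_nx]
          simp only [sel, if_pos hx, h0]
          exact astep_nx_cons _ _ _ _ (k1 hc)
        · have e1 : ct b (x :: s) (i + 1) = ct b s i := by
            simp [ct, hx]
          rw [e1, moved_nx']
          simp only [sel, if_neg hx]
          exact k1 hc
      · intro hc
        by_cases hx : x = b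
        · simp only [sel, if_pos hx, h0, k2 hc]
        · simp only [sel, if_neg hx]
          exact k2 hc

theorem sel_run (b : Bool) (L : LW) (s s' : List Bool) (e : ℕ → ℕ → Bool) (hr : run L s = some s')
    (he : ∀ t (h : t < (wd L).length), AStep (wd L)[t] (e t) (e (t + 1))) :
    ∃ f : ℕ → ℕ → Bool, f 0 = sel b s (e 0) ∧
      ∀ t (h : t < (subw b L s).length), AStep (subw b L s)[t] (f t) (f (t + 1)) := by
  induction L generalizing s e with
  | nil => exact ⟨fun _ => sel b s (e 0), rfl, fun t h => by simp [subw] at h⟩
  | cons p L ih =>
    have hr' : (rstep p.1 p.2 s).bind (run L) = some s' := hr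
    cases hs : rstep p.1 p.2 s with
    | none => rw [hs] at hr'; simp at hr'
    | some s₁ =>
      rw [hs] at hr'
      obtain ⟨f, hf0, hf⟩ := ih s₁ (fun t => e (t + 1)) hr' (fun t h => he (t + 1) (by
        simpa [wd] using h))
      have ha : AStep p.1 (e 0) (e 1) := he 0 (by simp [wd])
      obtain ⟨k1, k2⟩ := sel_step p.1.index p.1 rfl b p.2 s s₁ _ _ hs ha
      by_cases hb : p.2 = b
      · have e1 : subw b (p :: L) s = p.1.moved (ct b s p.1.index) :: subw b L s₁ := by
          simp only [subw, if_pos hb, hs, Option.getD_some]
        refine ⟨fun t => match t with | 0 => sel b s (e 0) | t + 1 => f t, rfl, ?_⟩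
        rw [e1]
        intro t ht
        cases t with
        | zero =>
          show AStep (p.1.moved (ct b s p.1.index)) (sel b s (e 0)) (f 0)
          rw [hf0]
          exact k1 hb
        | succ t => exact hf t (by simpa using ht)
      · have e1 : subw b (p :: L) s = subw b L s₁ := by
          simp only [subw, if_neg hb, hs, Option.getD_some]
        refine ⟨f, ?_, ?_⟩
        · rw [hf0, k2 hb]
        · rw [e1]
          exact hf

theorem t_splA : S_splA := by
  rintro D Dt Df ⟨L, rfl, hr, rfl, rfl⟩ ⟨e, he⟩
  constructor
  · obtain ⟨f, -, hf⟩ := sel_run true L [] [] e hr he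
    exact ⟨f, hf⟩
  · obtain ⟨f, -, hf⟩ := sel_run false L [] [] e hr he
    exact ⟨f, hf⟩

end Pool.Agent.Helper82_Alt.PSplEx
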