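import Pool.Agent.Helper82_Alt.SigE
import Pool.Agent.Helper82_Alt.SplEx

/-!
# The signature of a union of two parts
-/

set_option autoImplicit false

namespace Pool.Agent.Helper82_Alt.PSigU

open Pool.Agent.Helper454.Kauf (Piece Word Closed width)
open Pool.Agent.Helper454.Wh (OPiece OWord below noD forget OClosed insD delD swpD)
open PSplEx PWid Module

/-! ### region labels -/

theorem R_zero {p : Piece} {ρ ρ' : ℕ → ℝ} (h : RStep p ρ ρ') : ρ' 0 = ρ 0 := by
  cases p with
  | birth i => exact h.1 0 (Nat.zero_le _)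
  | death i => exact (h.1 0 (Nat.zero_le _)).symm
  | pos i => exact h 0 (by omega)
  | neg i => exact h 0 (by omega)

theorem R_nx (p : Piece) (ρ ρ' : ℕ → ℝ) : RStep (nx p) ρ ρ' ↔
    ρ' 0 = ρ 0 ∧ RStep p (fun j => ρ (j + 1)) (fun j => ρ' (j + 1)) := by
  cases p with
  | birth i =>
    simp only [nx, RStep]
    constructor
    · rintro ⟨h1, h2⟩
      exact ⟨h1 0 (by omega), fun j hj => h1 (j + 1) (by omega), fun j hj => h2 (j + 1) (by omega)⟩
    · rintro ⟨h0, h1, h2⟩
      refine ⟨fun j hj => ?_, fun j hj => ?_⟩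
      · cases j with
        | zero => exact h0
        | succ j => exact h1 j (by omega)
      · obtain ⟨k, rfl⟩ : ∃ k, j = k + 1 := ⟨j - 1, by omega⟩
        exact h2 k (by omega)
  | death i =>
    simp only [nx, RStep]
    constructor
    · rintro ⟨h1, h2⟩
      exact ⟨(h1 0 (by omega)).symm, fun j hj => h1 (j + 1) (by omega),
        fun j hj => h2 (j + 1) (by omega)⟩
    · rintro ⟨h0, h1, h2⟩
      refine ⟨fun j hj => ?_, fun j hj => ?_⟩
      · cases j with
        | zero => exact h0.symm
        | succ j => exact h1 j (by omega)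
      · obtain ⟨k, rfl⟩ : ∃ k, j = k + 1 := ⟨j - 1, by omega⟩
        exact h2 k (by omega)
  | pos i =>
    simp only [nx, RStep]
    constructor
    · intro h
      exact ⟨h 0 (by omega), fun j hj => h (j + 1) (by omega)⟩
    · rintro ⟨h0, h1⟩ j hj
      cases j with
      | zero => exact h0
      | succ j => exact h1 j (by omega)
  | neg i =>
    simp only [nx, RStep]
    constructor
    · intro h
      exact ⟨h 0 (by omega), fun j hj => h (j + 1) (by omega)⟩
    · rintro ⟨h0, h1⟩ j hj
      cases j with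
      | zero => exact h0
      | succ j => exact h1 j (by omega)

theorem R_add (p : Piece) (x : ℝ) (ρ ρ' : ℕ → ℝ) (h : RStep p ρ ρ') :
    RStep p (fun j => x + ρ j) (fun j => x + ρ' j) := by
  cases p with
  | birth i => exact ⟨fun j hj => by simp only [h.1 j hj], fun j hj => by simp only [h.2 j hj]⟩
  | death i => exact ⟨fun j hj => by simp only [h.1 j hj], fun j hj => by simp only [h.2 j hj]⟩
  | pos i => exact fun j hj => by simp only [h j hj]
  | neg i => exact fun j hj => by simp only [h j hj]

/-- add a jump in front -/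
def consR (x : ℝ) (f : ℕ → ℝ) : ℕ → ℝ
  | 0 => 0
  | u + 1 => x + f u

/-- the sum of the jumps at the first `u` strands of the side `b` -/
def jmp (b : Bool) : List Bool → (ℕ → ℝ) → ℕ → ℝ
  | [], _ => fun _ => 0
  | c :: s, ρ => if c = b then consR (ρ 1 - ρ 0) (jmp b s (fun j => ρ (j + 1))) else
      jmp b s (fun j => ρ (j + 1))

theorem jmp_zero (b : Bool) (s : List Bool) (ρ : ℕ → ℝ) : jmp b s ρ 0 = 0 := by
  induction s generalizing ρ with
  | nil => rfl
  | cons c s ih =>
    by_cases h : c = b
    · simp only [jmp, if_pos h, consR]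
    · simp only [jmp, if_neg h]
      exact ih _

theorem jmp_pos {b c : Bool} (h : c = b) (s : List Bool) (ρ : ℕ → ℝ) : jmp b (c :: s) ρ =
    consR (ρ 1 - ρ 0) (jmp b s (fun j => ρ (j + 1))) := by
  simp only [jmp, if_pos h]

theorem jmp_neg {b c : Bool} (h : c ≠ b) (s : List Bool) (ρ : ℕ → ℝ) : jmp b (c :: s) ρ =
    jmp b s (fun j => ρ (j + 1)) := by
  simp only [jmp, if_neg h]

theorem ct_zero (b : Bool) (s : List Bool) : ct b s 0 = 0 := by simp [ct]

theorem ct_pos {b c : Bool} (h : c = b) (s : List Bool) (i : ℕ) :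
    ct b (c :: s) (i + 1) = ct b s i + 1 := by simp [ct, h]

theorem ct_neg {b c : Bool} (h : c ≠ b) (s : List Bool) (i : ℕ) :
    ct b (c :: s) (i + 1) = ct b s i := by simp [ct, h]

theorem exists_nx (p : Piece) (i : ℕ) (h : p.index = i + 1) : ∃ q, nx q = p ∧ q.index = i := by
  cases p with
  | birth k =>
    obtain rfl : k = i + 1 := h
    exact ⟨.birth i, rfl, rfl⟩
  | death k =>
    obtain rfl : k = i + 1 := h
    exact ⟨.death i, rfl, rfl⟩
  | pos k =>
    obtain rfl : k = i + 1 := h
    exact ⟨.pos i, rfl, rfl⟩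
  | neg k =>
    obtain rfl : k = i + 1 := h
    exact ⟨.neg i, rfl, rfl⟩

/-- rows with two leading strands -/
theorem two {s : List Bool} {c : Bool} (h : s[0]? = some c ∧ s[0 + 1]? = some c) :
    ∃ s₂, s = c :: c :: s₂ := by
  match s, h with
  | x :: y :: s, h =>
    obtain ⟨h01, h02⟩ := h
    obtain rfl : x = c := by simpa using h01
    obtain rfl : y = x := by simpa using h02
    exact ⟨s, rfl⟩
  | [], h => simp at h
  | [x], h => simp at h

/-- the row of sides at a piece with the index 0 -/
theorem rstep0 {p : Piece} (hi : p.index = 0) {c : Bool} {s s' : List Bool}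
    (hr : rstep p c s = some s') :
    (p = .birth 0 ∧ s' = c :: c :: s) ∨ (p = .death 0 ∧ s = c :: c :: s') ∨
      ((p = .pos 0 ∨ p = .neg 0) ∧ s' = s ∧ ∃ s₂, s = c :: c :: s₂) := by
  cases p with
  | birth i =>
    obtain rfl : i = 0 := hi
    simp only [rstep, Nat.zero_le, if_true, List.take_zero, List.drop_zero, List.nil_append,
      Option.some.injEq] at hr
    exact Or.inl ⟨rfl, hr.symm⟩
  | death i =>
    obtain rfl : i = 0 := hi
    simp only [rstep] at hr
    split_ifs at hr with h0
    obtain ⟨s₂, rfl⟩ := two h0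
    refine Or.inr (Or.inl ⟨rfl, ?_⟩)
    have := Option.some.inj hr
    rw [← this]
    rfl
  | pos i =>
    obtain rfl : i = 0 := hi
    simp only [rstep] at hr
    split_ifs at hr with h0
    exact Or.inr (Or.inr ⟨Or.inl rfl, (Option.some.inj hr).symm, two h0⟩)
  | neg i =>
    obtain rfl : i = 0 := hi
    simp only [rstep] at hr
    split_ifs at hr with h0
    exact Or.inr (Or.inr ⟨Or.inr rfl, (Option.some.inj hr).symm, two h0⟩)

theorem R_consR (p : Piece) (x : ℝ) (f f' : ℕ → ℝ) (h : RStep p f f') :
    RStep (nx p) (consR x f) (consR x f') := by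
  rw [R_nx]
  exact ⟨rfl, R_add p x f f' h⟩

theorem jmp_step (i : ℕ) (p : Piece) (hi : p.index = i) (b c : Bool) (s s' : List Bool)
    (ρ ρ' : ℕ → ℝ) (hr : rstep p c s = some s') (ha : RStep p ρ ρ') :
    (c = b → RStep (p.moved (ct b s i)) (jmp b s ρ) (jmp b s' ρ')) ∧
    (c ≠ b → jmp b s ρ = jmp b s' ρ') := by
  induction i generalizing p s s' ρ ρ' with
  | zero =>
    rw [ct_zero]
    rcases rstep0 hi hr with ⟨rfl, rfl⟩ | ⟨rfl, rfl⟩ | ⟨hp, rfl, s₂, rfl⟩
    · obtain ⟨h1, h2⟩ := ha
      have e1 : (fun j => ρ' (j + 1 + 1)) = ρ := funext fun j => h2 j (by omega)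
      constructor
      · intro hc
        rw [jmp_pos hc, jmp_pos hc, e1]
        refine ⟨fun j hj => ?_, fun j hj => ?_⟩
        · obtain rfl : j = 0 := by omega
          rw [jmp_zero]; rfl
        · show ρ' 1 - ρ' 0 + (ρ' 2 - ρ' 1 + jmp b s ρ j) = jmp b s ρ j
          rw [h1 0 le_rfl, h2 0 (by omega)]
          ring
      · intro hc
        rw [jmp_neg hc, jmp_neg hc, e1]
    · obtain ⟨h1, h2⟩ := ha
      have e1 : (fun j => ρ (j + 1 + 1)) = ρ' := funext fun j => h2 j (by omega)
      constructor
      · intro hc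
        rw [jmp_pos hc, jmp_pos hc, e1]
        refine ⟨fun j hj => ?_, fun j hj => ?_⟩
        · obtain rfl : j = 0 := by omega
          rw [jmp_zero]; rfl
        · show ρ 1 - ρ 0 + (ρ 2 - ρ 1 + jmp b s' ρ' j) = jmp b s' ρ' j
          rw [h1 0 le_rfl, h2 0 (by omega)]
          ring
      · intro hc
        rw [jmp_neg hc, jmp_neg hc, e1]
    · have h : ∀ j, j ≠ 1 → ρ' j = ρ j := by
        rcases hp with rfl | rfl <;> exact ha
      have e1 : (fun j => ρ' (j + 1 + 1)) = fun j => ρ (j + 1 + 1) :=
        funext fun j => h (j + 2) (by omega)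
      constructor
      · intro hc
        rw [jmp_pos hc, jmp_pos hc, jmp_pos hc, jmp_pos hc, e1]
        have key : ∀ j, j ≠ 0 + 1 →
            consR (ρ' 1 - ρ' 0) (consR (ρ' 2 - ρ' 1) (jmp b s₂ fun j => ρ (j + 1 + 1))) j =
            consR (ρ 1 - ρ 0) (consR (ρ 2 - ρ 1) (jmp b s₂ fun j => ρ (j + 1 + 1))) j := by
          intro j hj
          match j with
          | 0 => rfl
          | 1 => omega
          | j + 2 =>
            show ρ' 1 - ρ' 0 + (ρ' 2 - ρ' 1 + _) = ρ 1 - ρ 0 + (ρ 2 - ρ 1 + _)
            rw [h 0 (by omega), h 2 (by omega)]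
            ring
        rcases hp with rfl | rfl <;> exact key
      · intro hc
        rw [jmp_neg hc, jmp_neg hc, jmp_neg hc, jmp_neg hc, e1]
  | succ i ih =>
    obtain ⟨q, rfl, hq⟩ := exists_nx p i hi
    cases s with
    | nil => cases q <;> simp [nx, rstep] at hr
    | cons x s =>
      obtain ⟨s₁, hs₁, rfl⟩ := rstep_nx q c x s s' hr
      obtain ⟨h0, ha'⟩ := (R_nx q ρ ρ').mp ha
      obtain ⟨k1, k2⟩ := ih q hq s s₁ _ _ hs₁ ha'
      have h1 : ρ' 1 = ρ 1 := R_zero ha'
      constructor
      · intro hc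
        by_cases hx : x = b
        · rw [ct_pos hx, moved_nx, jmp_pos hx, jmp_pos hx, h0, h1]
          exact R_consR _ _ _ _ (k1 hc)
        · rw [ct_neg hx, moved_nx', jmp_neg hx, jmp_neg hx]
          exact k1 hc
      · intro hc
        by_cases hx : x = b
        · rw [jmp_pos hx, jmp_pos hx, h0, h1, k2 hc]
        · rw [jmp_neg hx, jmp_neg hx]
          exact k2 hc

/-- extension of labels of one part -/
theorem ext_step (i : ℕ) (p : Piece) (hi : p.index = i) (b c : Bool) (s s' : List Bool)
    (α α' : ℕ → ℝ) (hr : rstep p c s = some s')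
    (ha : (c = b → RStep (p.moved (ct b s i)) α α') ∧ (c ≠ b → α' = α)) :
    RStep p (fun j => α (ct b s j)) (fun j => α' (ct b s' j)) := by
  induction i generalizing p s s' α α' with
  | zero =>
    rw [ct_zero] at ha
    rcases rstep0 hi hr with ⟨rfl, rfl⟩ | ⟨rfl, rfl⟩ | ⟨hp, rfl, s₂, rfl⟩
    · by_cases hc : c = b
      · obtain ⟨h1, h2⟩ := ha.1 hc
        refine ⟨fun j hj => ?_, fun j hj => ?_⟩
        · obtain rfl : j = 0 := by omega
          simp only [ct_zero]
          exact h1 0 le_rfl
        · simp only [ct_pos hc]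
          exact h2 _ (by omega)
      · rw [ha.2 hc]
        refine ⟨fun j hj => ?_, fun j hj => ?_⟩
        · obtain rfl : j = 0 := by omega
          simp only [ct_zero]
        · simp only [ct_neg hc]
    · by_cases hc : c = b
      · obtain ⟨h1, h2⟩ := ha.1 hc
        refine ⟨fun j hj => ?_, fun j hj => ?_⟩
        · obtain rfl : j = 0 := by omega
          simp only [ct_zero]
          exact h1 0 le_rfl
        · simp only [ct_pos hc]
          exact h2 _ (by omega)
      · rw [ha.2 hc]
        refine ⟨fun j hj => ?_, fun j hj => ?_⟩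
        · obtain rfl : j = 0 := by omega
          simp only [ct_zero]
        · simp only [ct_neg hc]
    · have key : ∀ j, j ≠ 0 + 1 → α' (ct b (c :: c :: s₂) j) = α (ct b (c :: c :: s₂) j) := by
        intro j hj
        by_cases hc : c = b
        · have h : ∀ j, j ≠ 0 + 1 → α' j = α j := by
            have := ha.1 hc
            rcases hp with rfl | rfl <;> exact this
          match j with
          | 0 => rw [ct_zero]; exact h 0 (by omega)
          | 1 => omega
          | j + 2 =>
            rw [ct_pos hc, ct_pos hc]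
            exact h _ (by omega)
        · rw [ha.2 hc]
      rcases hp with rfl | rfl <;> exact key
  | succ i ih =>
    obtain ⟨q, rfl, hq⟩ := exists_nx p i hi
    cases s with
    | nil => cases q <;> simp [nx, rstep] at hr
    | cons x s =>
      obtain ⟨s₁, hs₁, rfl⟩ := rstep_nx q c x s s' hr
      rw [R_nx]
      have h0 : α' 0 = α 0 := by
        by_cases hc : c = b
        · exact R_zero (ha.1 hc)
        · rw [ha.2 hc]
      refine ⟨by simp only [ct_zero]; exact h0, ?_⟩
      by_cases hx : x = b
      · simp only [ct_pos hx]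
        refine ih q hq s s₁ (fun j => α (j + 1)) (fun j => α' (j + 1)) hs₁ ⟨fun hc => ?_, fun hc => ?_⟩
        · have := ha.1 hc
          rw [ct_pos hx, moved_nx] at this
          exact ((R_nx _ _ _).1 this).2
        · rw [ha.2 hc]
      · simp only [ct_neg hx]
        refine ih q hq s s₁ α α' hs₁ ⟨fun hc => ?_, fun hc => ha.2 hc⟩
        have := ha.1 hc
        rw [ct_neg hx, moved_nx'] at this
        exact this

/-- jumps of extended labels -/
theorem jmp_ext (b : Bool) (s : List Bool) (α : ℕ → ℝ) (u : ℕ) :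
    jmp b s (fun j => α (ct b s j)) u = α (min u (s.count b)) - α 0 := by
  induction s generalizing α u with
  | nil => simp [jmp]
  | cons c s ih =>
    by_cases h : c = b
    · rw [jmp_pos h]
      simp only [ct_pos h, ct_zero, zero_add]
      cases u with
      | zero => simp [consR]
      | succ u =>
        show α 1 - α 0 + jmp b s (fun j => (fun k => α (k + 1)) (ct b s j)) u = _
        rw [ih (fun k => α (k + 1)) u]
        simp only [h, List.count_cons_self, zero_add]
        rw [show min (u + 1) (List.count b s + 1) = min u (List.count b s) + 1 by omega]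
        ring
    · rw [jmp_neg h]
      simp only [ct_neg h]
      rw [ih, List.count_cons_of_ne h]

theorem jmp_ext' (b c : Bool) (h : c ≠ b) (s : List Bool) (α : ℕ → ℝ) (u : ℕ) :
    jmp c s (fun j => α (ct b s j)) u = 0 := by
  induction s generalizing α u with
  | nil => simp [jmp]
  | cons x s ih =>
    by_cases hx : x = c
    · have hb : x ≠ b := by rw [hx]; exact h
      rw [jmp_pos hx]
      simp only [ct_neg hb, ct_zero]
      cases u with
      | zero => rfl
      | succ u =>
        show α 0 - α 0 + jmp c s (fun j => α (ct b s j)) u = 0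
        rw [ih]
        ring
    · rw [jmp_neg hx]
      have hb : x = b := by
        revert h hx; cases x <;> cases b <;> cases c <;> simp
      simp only [ct_pos hb]
      exact ih (fun k => α (k + 1)) u

theorem jmp_add (b : Bool) (s : List Bool) (ρ σ : ℕ → ℝ) : jmp b s (ρ + σ) = jmp b s ρ + jmp b s σ := by
  induction s generalizing ρ σ with
  | nil => funext u; simp [jmp]
  | cons c s ih =>
    have e : (fun j => (ρ + σ) (j + 1)) = (fun j => ρ (j + 1)) + fun j => σ (j + 1) := rfl
    by_cases h : c = b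
    · rw [jmp_pos h, jmp_pos h, jmp_pos h, e, ih]
      funext u
      cases u with
      | zero => simp [consR]
      | succ u => simp only [consR, Pi.add_apply]; ring
    · rw [jmp_neg h, jmp_neg h, jmp_neg h, e, ih]

theorem jmp_smul (b : Bool) (s : List Bool) (x : ℝ) (ρ : ℕ → ℝ) : jmp b s (x • ρ) = x • jmp b s ρ := by
  induction s generalizing ρ with
  | nil => funext u; simp [jmp]
  | cons c s ih =>
    have e : (fun j => (x • ρ) (j + 1)) = x • fun j => ρ (j + 1) := rfl
    by_cases h : c = b
    · rw [jmp_pos h, jmp_pos h, e, ih]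
      funext u
      cases u with
      | zero => simp [consR]
      | succ u => simp only [consR, Pi.smul_apply, smul_eq_mul]; ring
    · rw [jmp_neg h, jmp_neg h, e, ih]

/-- the corners of a crossing of the side `b` -/
theorem jmp_corner (i : ℕ) (b : Bool) (s : List Bool) (ρ : ℕ → ℝ)
    (h0 : s[i]? = some b) (h1 : s[i + 1]? = some b) :
    jmp b s ρ (ct b s i + 1) - jmp b s ρ (ct b s i) = ρ (i + 1) - ρ i ∧
    jmp b s ρ (ct b s i + 2) - jmp b s ρ (ct b s i) = ρ (i + 2) - ρ i ∧
    ∀ ρ' : ℕ → ℝ, (∀ j ≤ i, ρ' j = ρ j) →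
      jmp b s ρ' (ct b s i) = jmp b s ρ (ct b s i) := by
  induction i generalizing s ρ with
  | zero =>
    obtain ⟨s₂, rfl⟩ := two ⟨h0, h1⟩
    rw [ct_zero, jmp_pos rfl, jmp_pos rfl]
    simp only [consR, zero_add, jmp_zero]
    exact ⟨by ring, by ring, fun ρ' h => trivial⟩
  | succ i ih =>
    cases s with
    | nil => simp at h0
    | cons x s =>
      have h0' : s[i]? = some b := by simpa using h0
      have h1' : s[i + 1]? = some b := by simpa using h1
      obtain ⟨a1, a2, a3⟩ := ih s (fun j => ρ (j + 1)) h0' h1'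
      by_cases hx : x = b
      · rw [ct_pos hx, jmp_pos hx]
        simp only [consR, show ct b s i + 1 + 2 = (ct b s i + 2) + 1 by omega]
        refine ⟨by linarith, by linarith, fun ρ' h => ?_⟩
        rw [jmp_pos hx]
        simp only [consR]
        rw [h 1 (by omega), h 0 (by omega), a3 (fun j => ρ' (j + 1)) (fun j hj => h (j + 1) (by omega))]
      · rw [ct_neg hx, jmp_neg hx]
        refine ⟨a1, a2, fun ρ' h => ?_⟩
        rw [jmp_neg hx]
        exact a3 (fun j => ρ' (j + 1)) (fun j hj => h (j + 1) (by omega))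

theorem sel_corner (i : ℕ) (b : Bool) (s : List Bool) (d : ℕ → Bool)
    (h0 : s[i]? = some b) (h1 : s[i + 1]? = some b) :
    sel b s d (ct b s i) = d i ∧ sel b s d (ct b s i + 1) = d (i + 1) := by
  induction i generalizing s d with
  | zero =>
    obtain ⟨s₂, rfl⟩ := two ⟨h0, h1⟩
    rw [ct_zero]
    simp [sel, consF]
  | succ i ih =>
    cases s with
    | nil => simp at h0
    | cons x s =>
      have h0' : s[i]? = some b := by simpa using h0
      have h1' : s[i + 1]? = some b := by simpa using h1
      obtain ⟨a1, a2⟩ := ih s (fun j => d (j + 1)) h0' h1'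
      by_cases hx : x = b
      · rw [ct_pos hx]
        simp only [sel, if_pos hx, consF]
        exact ⟨a1, a2⟩
      · rw [ct_neg hx]
        simp only [sel, if_neg hx]
        exact ⟨a1, a2⟩

/-! ### oriented words -/

theorem insD_nx (i : ℕ) (β : Bool) (d : ℕ → Bool) :
    insD (i + 1) β d = consF (d 0) (insD i β (fun k => d (k + 1))) := by
  funext k
  cases k with
  | zero => simp [insD, consF]
  | succ k =>
    simp only [insD, consF, Nat.add_lt_add_iff_right, Nat.add_right_cancel_iff]
    split_ifs with h1 h2 h3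
    · rfl
    · rfl
    · rfl
    · rw [show k + 1 - 2 = k - 2 + 1 by omega]

theorem delD_nx (i : ℕ) (d : ℕ → Bool) :
    delD (i + 1) d = consF (d 0) (delD i (fun k => d (k + 1))) := by
  funext k
  cases k with
  | zero => simp [delD, consF]
  | succ k => simp only [delD, consF, Nat.add_lt_add_iff_right, show k + 1 + 2 = k + 2 + 1 by omega]

theorem swpD_nx (i : ℕ) (d : ℕ → Bool) :
    swpD (i + 1) d = consF (d 0) (swpD i (fun k => d (k + 1))) := by
  funext k
  cases k with
  | zero => simp [swpD, consF]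
  | succ k => simp only [swpD, consF, Nat.add_right_cancel_iff]

/-- the same oriented piece one step further to the right -/
def onx : OPiece → OPiece
  | .birth i b => .birth (i + 1) b
  | .death i => .death (i + 1)
  | .pos i => .pos (i + 1)
  | .neg i => .neg (i + 1)

def omv (j : ℕ) : OPiece → OPiece
  | .birth _ b => .birth j b
  | .death _ => .death j
  | .pos _ => .pos j
  | .neg _ => .neg j

theorem forget_onx (p : OPiece) : (onx p).forget = nx p.forget := by cases p <;> rfl
theorem forget_omv (j : ℕ) (p : OPiece) : (omv j p).forget = p.forget.moved j := by cases p <;> rfl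
theorem omv_onx (j : ℕ) (p : OPiece) : omv (j + 1) (onx p) = onx (omv j p) := by cases p <;> rfl
theorem omv_onx' (j : ℕ) (p : OPiece) : omv j (onx p) = omv j p := by cases p <;> rfl

theorem exists_onx (p : OPiece) (i : ℕ) (h : p.forget.index = i + 1) :
    ∃ q, onx q = p ∧ q.forget.index = i := by
  cases p with
  | birth k b =>
    obtain rfl : k = i + 1 := h
    exact ⟨.birth i b, rfl, rfl⟩
  | death k =>
    obtain rfl : k = i + 1 := h
    exact ⟨.death i, rfl, rfl⟩
  | pos k =>
    obtain rfl : k = i + 1 := h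
    exact ⟨.pos i, rfl, rfl⟩
  | neg k =>
    obtain rfl : k = i + 1 := h
    exact ⟨.neg i, rfl, rfl⟩

theorem below_onx (p : OPiece) (n : ℕ) (d : ℕ → Bool) :
    (onx p).below (n + 1) d =
      (p.below n (fun k => d (k + 1))).map (fun s => (s.1 + 1, consF (d 0) s.2)) := by
  cases p with
  | birth i b =>
    simp only [onx, OPiece.below, Nat.add_le_add_iff_right, insD_nx]
    split_ifs with h
    · rfl
    · rfl
  | death i =>
    simp only [onx, OPiece.below, delD_nx]
    by_cases h : i + 2 ≤ n ∧ d (i + 1 + 1) = !d (i + 1)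
    · rw [if_pos h, if_pos ⟨by omega, h.2⟩]
      simp only [Option.map_some]
      rw [show n + 1 - 2 = n - 2 + 1 by omega]
    · rw [if_neg h, if_neg (fun h' => h ⟨by omega, h'.2⟩)]
      rfl
  | pos i =>
    simp only [onx, OPiece.below, swpD_nx]
    by_cases h : i + 2 ≤ n
    · rw [if_pos h, if_pos (by omega)]; rfl
    · rw [if_neg h, if_neg (by omega)]; rfl
  | neg i =>
    simp only [onx, OPiece.below, swpD_nx]
    by_cases h : i + 2 ≤ n
    · rw [if_pos h, if_pos (by omega)]; rfl
    · rw [if_neg h, if_neg (by omega)]; rfl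

theorem sel_pos {b c : Bool} (h : c = b) (s : List Bool) (e : ℕ → Bool) : sel b (c :: s) e =
    consF (e 0) (sel b s (fun j => e (j + 1))) := by
  simp only [sel, if_pos h]

theorem sel_neg {b c : Bool} (h : c ≠ b) (s : List Bool) (e : ℕ → Bool) : sel b (c :: s) e =
    sel b s (fun j => e (j + 1)) := by
  simp only [sel, if_neg h]

theorem insD0 (β : Bool) (d : ℕ → Bool) : insD 0 β d = consF β (consF (!β) d) := by
  funext k
  match k with
  | 0 => simp [insD, consF]
  | 1 => simp [insD, consF]
  | k + 2 => simp [insD, consF]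

theorem delD0 (d : ℕ → Bool) : delD 0 d = fun k => d (k + 2) := by
  funext k
  simp [delD]

theorem swpD0 (d : ℕ → Bool) : swpD 0 d = consF (d 1) (consF (d 0) (fun k => d (k + 2))) := by
  funext k
  match k with
  | 0 => simp [swpD, consF]
  | 1 => simp [swpD, consF]
  | k + 2 => simp [swpD, consF]

theorem below_step (i : ℕ) (p : OPiece) (hi : p.forget.index = i) (b c : Bool) (s s' : List Bool)
    (d d' : ℕ → Bool) (m : ℕ) (hr : rstep p.forget c s = some s')
    (hb : p.below s.length d = some (m, d')) :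
    m = s'.length ∧
    (c = b → (omv (ct b s i) p).below (s.count b) (sel b s d) = some (s'.count b, sel b s' d')) ∧
    (c ≠ b → s'.count b = s.count b ∧ sel b s' d' = sel b s d) := by
  induction i generalizing p s s' d d' m with
  | zero =>
    rw [ct_zero]
    rcases rstep0 hi hr with ⟨hp, rfl⟩ | ⟨hp, rfl⟩ | ⟨hp, rfl, s₂, rfl⟩
    · cases p with
      | birth k β =>
        obtain rfl : k = 0 := hi
        simp only [OPiece.below, Nat.zero_le, if_true, Option.some.injEq, Prod.mk.injEq] at hb
        obtain ⟨rfl, rfl⟩ := hb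
        rw [insD0]
        refine ⟨by simp, fun hc => ?_, fun hc => ?_⟩
        · simp only [omv, OPiece.below, Nat.zero_le, if_true, insD0]
          rw [sel_pos hc, sel_pos hc]
          simp [consF, hc]
        · rw [sel_neg hc, sel_neg hc]
          simp [consF, hc]
      | death k => simp [OPiece.forget] at hp
      | pos k => simp [OPiece.forget] at hp
      | neg k => simp [OPiece.forget] at hp
    · cases p with
      | birth k β => simp [OPiece.forget] at hp
      | death k =>
        obtain rfl : k = 0 := hi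
        simp only [OPiece.below] at hb
        split_ifs at hb with h0
        simp only [Option.some.injEq, Prod.mk.injEq] at hb
        obtain ⟨rfl, rfl⟩ := hb
        rw [delD0]
        refine ⟨by simp, fun hc => ?_, fun hc => ?_⟩
        · simp only [omv, OPiece.below, delD0]
          rw [sel_pos hc, sel_pos hc]
          have h2 : d 1 = !d 0 := h0.2
          simp [consF, hc, h2]
        · rw [sel_neg hc, sel_neg hc]
          simp [hc]
      | pos k => simp [OPiece.forget] at hp
      | neg k => simp [OPiece.forget] at hp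
    · have key : d' = swpD 0 d ∧ m = (c :: c :: s₂).length ∧
          ∀ e : ℕ → Bool, ∀ n, 2 ≤ n → (omv 0 p).below n e = some (n, swpD 0 e) := by
        cases p with
        | birth k β => simp [OPiece.forget] at hp
        | death k => simp [OPiece.forget] at hp
        | pos k =>
          obtain rfl : k = 0 := hi
          simp only [OPiece.below] at hb
          split_ifs at hb with h0
          simp only [Option.some.injEq, Prod.mk.injEq] at hb
          exact ⟨hb.2.symm, hb.1.symm, fun e n h => by
            simp only [omv, OPiece.below]; rw [if_pos (by omega)]⟩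
        | neg k =>
          obtain rfl : k = 0 := hi
          simp only [OPiece.below] at hb
          split_ifs at hb with h0
          simp only [Option.some.injEq, Prod.mk.injEq] at hb
          exact ⟨hb.2.symm, hb.1.symm, fun e n h => by
            simp only [omv, OPiece.below]; rw [if_pos (by omega)]⟩
      obtain ⟨rfl, rfl, key⟩ := key
      refine ⟨rfl, fun hc => ?_, fun hc => ⟨rfl, ?_⟩⟩
      · rw [key _ _ (by simp [hc])]
        rw [swpD0, swpD0, sel_pos hc, sel_pos hc, sel_pos hc, sel_pos hc]
        rfl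
      · rw [swpD0, sel_neg hc, sel_neg hc, sel_neg hc, sel_neg hc]
        rfl
  | succ i ih =>
    obtain ⟨q, rfl, hq⟩ := exists_onx p i hi
    rw [forget_onx] at hr
    cases s with
    | nil => cases q <;> simp [nx, rstep, OPiece.forget] at hr
    | cons x s =>
      obtain ⟨s₁, hs₁, rfl⟩ := rstep_nx q.forget c x s s' hr
      rw [List.length_cons, below_onx] at hb
      cases hq' : q.below s.length (fun k => d (k + 1)) with
      | none => rw [hq'] at hb; simp at hb
      | some s₂ =>
        obtain ⟨m₁, d₁⟩ := s₂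
        rw [hq'] at hb
        simp only [Option.map_some, Option.some.injEq, Prod.mk.injEq] at hb
        obtain ⟨rfl, rfl⟩ := hb
        obtain ⟨k0, k1, k2⟩ := ih q hq s s₁ _ _ _ hs₁ hq'
        refine ⟨by simp [k0], fun hc => ?_, fun hc => ?_⟩
        · by_cases hx : x = b
          · rw [ct_pos hx, omv_onx, sel_pos hx, sel_pos hx]
            rw [hx, List.count_cons_self, List.count_cons_self, below_onx]
            simp only [consF]
            rw [k1 hc]
            rfl
          · rw [ct_neg hx, omv_onx', sel_neg hx, sel_neg hx, List.count_cons_of_ne hx,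
              List.count_cons_of_ne hx]
            simp only [consF]
            exact k1 hc
        · obtain ⟨a1, a2⟩ := k2 hc
          by_cases hx : x = b
          · rw [sel_pos hx, sel_pos hx, hx, List.count_cons_self, List.count_cons_self, a1]
            exact ⟨rfl, by simp only [consF]; rw [a2]⟩
          · rw [sel_neg hx, sel_neg hx, List.count_cons_of_ne hx, List.count_cons_of_ne hx, a1]
            exact ⟨rfl, by simp only [consF]; rw [a2]⟩

/-- Oriented words with sides -/
abbrev LO : Type := List (OPiece × Bool)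

def fo (L : LO) : OWord := L.map Prod.fst

def lo (L : LO) : LW := L.map (fun p => (p.1.forget, p.2))

/-- the oriented part of the side `b` -/
def osub (b : Bool) : LO → List Bool → OWord
  | [], _ => []
  | p :: L, s =>
      if p.2 = b then omv (ct b s p.1.forget.index) p.1 ::
        osub b L ((rstep p.1.forget p.2 s).getD s)
      else osub b L ((rstep p.1.forget p.2 s).getD s)

theorem forget_osub (b : Bool) (L : LO) (s : List Bool) :
    forget (osub b L s) = subw b (lo L) s := by
  induction L generalizing s with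
  | nil => rfl
  | cons p L ih =>
    by_cases h : p.2 = b
    · simp only [osub, subw, lo, List.map_cons, if_pos h, forget, forget_omv]
      refine congrArg _ ?_
      exact ih _
    · simp only [osub, subw, lo, List.map_cons, if_neg h]
      exact ih _

theorem exists_LO (D : OWord) (L : LW) (h : wd L = forget D) : ∃ M : LO, fo M = D ∧ lo M = L := by
  induction D generalizing L with
  | nil =>
    have : L = [] := by
      cases L with
      | nil => rfl
      | cons p L => simp [wd, forget] at h
    subst this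
    exact ⟨[], rfl, rfl⟩
  | cons p D ih =>
    cases L with
    | nil => simp [wd, forget] at h
    | cons q L =>
      simp only [wd, forget, List.map_cons, List.cons.injEq] at h
      obtain ⟨M, h1, h2⟩ := ih L h.2
      refine ⟨(p, q.2) :: M, ?_, ?_⟩
      · simp only [fo, List.map_cons]
        rw [show List.map Prod.fst M = D from h1]
      · simp only [lo, List.map_cons]
        rw [show List.map (fun p : OPiece × Bool => (p.1.forget, p.2)) M = L from h2, ← h.1]

theorem run_cons {p : Piece × Bool} {L : LW} {s s' : List Bool} (h : run (p :: L) s = some s') :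
    ∃ s₁, rstep p.1 p.2 s = some s₁ ∧ run L s₁ = some s' := by
  have hr' : (rstep p.1 p.2 s).bind (run L) = some s' := h
  cases hs : rstep p.1 p.2 s with
  | none => rw [hs] at hr'; simp at hr'
  | some s₁ => rw [hs] at hr'; exact ⟨s₁, rfl, hr'⟩

theorem below_cons {p : OPiece} {w : OWord} {n : ℕ} {d : ℕ → Bool} {x : ℕ × (ℕ → Bool)}
    (h : below (p :: w) n d = some x) :
    ∃ n₁ d₁, p.below n d = some (n₁, d₁) ∧ below w n₁ d₁ = some x := by
  have hr' : (p.below n d).bind (fun s => below w s.1 s.2) = some x := h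
  cases hs : p.below n d with
  | none => rw [hs] at hr'; simp at hr'
  | some s₁ => rw [hs] at hr'; exact ⟨s₁.1, s₁.2, rfl, hr'⟩

theorem osub_pos {b : Bool} {p : OPiece × Bool} {L : LO} {s s₁ : List Bool} (h : p.2 = b)
    (hs : rstep p.1.forget p.2 s = some s₁) :
    osub b (p :: L) s = omv (ct b s p.1.forget.index) p.1 :: osub b L s₁ := by
  simp only [osub, if_pos h, hs, Option.getD_some]

theorem osub_neg {b : Bool} {p : OPiece × Bool} {L : LO} {s s₁ : List Bool} (h : p.2 ≠ b)
    (hs : rstep p.1.forget p.2 s = some s₁) :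
    osub b (p :: L) s = osub b L s₁ := by
  simp only [osub, if_neg h, hs, Option.getD_some]

theorem below_osub (b : Bool) (L : LO) (s s' : List Bool) (d d' : ℕ → Bool) (m : ℕ)
    (hr : run (lo L) s = some s') (hb : below (fo L) s.length d = some (m, d')) :
    m = s'.length ∧ below (osub b L s) (s.count b) (sel b s d) = some (s'.count b, sel b s' d') := by
  induction L generalizing s d with
  | nil =>
    obtain rfl : s = s' := Option.some.inj hr
    have h1 : (s.length, d) = (m, d') := Option.some.inj hb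
    rw [Prod.mk.injEq] at h1
    obtain ⟨rfl, rfl⟩ := h1
    exact ⟨rfl, rfl⟩
  | cons p L ih =>
    obtain ⟨s₁, hs₁, hr₁⟩ := run_cons hr
    obtain ⟨n₁, d₁, hd₁, hb₁⟩ := below_cons hb
    obtain ⟨rfl, k1, k2⟩ := below_step _ p.1 rfl b p.2 s s₁ _ _ _ hs₁ hd₁
    obtain ⟨a1, a2⟩ := ih s₁ d₁ hr₁ hb₁
    refine ⟨a1, ?_⟩
    by_cases h : p.2 = b
    · rw [osub_pos h hs₁]
      show ((omv (ct b s p.1.forget.index) p.1).below (s.count b) (sel b s d)).bind _ = _
      rw [k1 h]
      exact a2
    · rw [osub_neg h hs₁, ← (k2 h).1, ← (k2 h).2]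
      exact a2

/-! ### writhe and form -/

/-- the pieces which are crossings sit on two strands of their side -/
theorem crossing_row {p : OPiece} {i : ℕ} (hp : p = .pos i ∨ p = .neg i) {c : Bool}
    {s s' : List Bool} (hr : rstep p.forget c s = some s') :
    s' = s ∧ s[i]? = some c ∧ s[i + 1]? = some c := by
  rcases hp with rfl | rfl
  · simp only [OPiece.forget, rstep] at hr
    split_ifs at hr with h0
    exact ⟨(Option.some.inj hr).symm, h0⟩
  · simp only [OPiece.forget, rstep] at hr
    split_ifs at hr with h0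
    exact ⟨(Option.some.inj hr).symm, h0⟩

theorem osign_step (p : OPiece) (c : Bool) (s s' : List Bool) (d : ℕ → Bool)
    (hr : rstep p.forget c s = some s') :
    osign (omv (ct c s p.forget.index) p) (sel c s d) = osign p d := by
  cases p with
  | birth i b => rfl
  | death i => rfl
  | pos i =>
    obtain ⟨-, h0, h1⟩ := crossing_row (Or.inl rfl) hr
    obtain ⟨a1, a2⟩ := sel_corner i c s d h0 h1
    simp only [OPiece.forget, Helper454.Kauf.Piece.index, omv, osign]
    rw [a1, a2]
  | neg i =>
    obtain ⟨-, h0, h1⟩ := crossing_row (Or.inr rfl) hr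
    obtain ⟨a1, a2⟩ := sel_corner i c s d h0 h1
    simp only [OPiece.forget, Helper454.Kauf.Piece.index, omv, osign]
    rw [a1, a2]

theorem writheFrom_cons {p : OPiece} {w : OWord} {n : ℕ} {d : ℕ → Bool} {n₁ : ℕ} {d₁ : ℕ → Bool}
    (h : p.below n d = some (n₁, d₁)) :
    writheFrom (p :: w) n d = osign p d + writheFrom w n₁ d₁ := by
  simp only [writheFrom, h]

theorem writhe_osub (L : LO) (s s' : List Bool) (d d' : ℕ → Bool) (m : ℕ)
    (hr : run (lo L) s = some s') (hb : below (fo L) s.length d = some (m, d')) :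
    writheFrom (fo L) s.length d =
      writheFrom (osub true L s) (s.count true) (sel true s d) +
      writheFrom (osub false L s) (s.count false) (sel false s d) := by
  induction L generalizing s d with
  | nil => rfl
  | cons p L ih =>
    obtain ⟨s₁, hs₁, hr₁⟩ := run_cons hr
    obtain ⟨n₁, d₁, hd₁, hb₁⟩ := below_cons hb
    have kt := below_step _ p.1 rfl true p.2 s s₁ _ _ _ hs₁ hd₁
    have kf := below_step _ p.1 rfl false p.2 s s₁ _ _ _ hs₁ hd₁
    obtain rfl := kt.1
    have e1 : writheFrom (fo (p :: L)) s.length d = osign p.1 d + writheFrom (fo L) s₁.length d₁ :=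
      writheFrom_cons hd₁
    rw [e1, ih s₁ d₁ hr₁ hb₁]
    rcases Bool.eq_false_or_eq_true p.2 with h | h
    · have hf : p.2 ≠ false := by rw [h]; simp
      rw [osub_pos h hs₁, osub_neg hf hs₁, writheFrom_cons (kt.2.1 h), ← (kf.2.2 hf).1,
        ← (kf.2.2 hf).2]
      have := osign_step p.1 p.2 s s₁ d hs₁
      rw [h] at this
      rw [this]
      ring
    · have hf : p.2 ≠ true := by rw [h]; simp
      rw [osub_neg hf hs₁, osub_pos h hs₁, writheFrom_cons (kf.2.1 h), ← (kt.2.2 hf).1,
        ← (kt.2.2 hf).2]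
      have := osign_step p.1 p.2 s s₁ d hs₁
      rw [h] at this
      rw [this]
      ring

/-- one term of the form -/
def trm (p : OPiece) (d : ℕ → Bool) (ρ ρ' : ℕ → ℝ) : ℝ :=
  match p with
  | .birth _ _ => 0
  | .death _ => 0
  | .pos i =>
      let a := d i; let b := d (i + 1)
      let u := frontBack a b (ρ i) (ρ (i + 1)) (ρ (i + 2)) (ρ' (i + 1))
      let v := leftRight a b (ρ i) (ρ (i + 1)) (ρ (i + 2)) (ρ' (i + 1))
      (if a = b then 1 else -1) * u ^ 2 + u * v
  | .neg i =>
      let a := d i; let b := d (i + 1)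
      let u := frontBack a b (ρ i) (ρ (i + 1)) (ρ (i + 2)) (ρ' (i + 1))
      let v := leftRight a b (ρ i) (ρ (i + 1)) (ρ (i + 2)) (ρ' (i + 1))
      (if a = b then -1 else 1) * u ^ 2 + u * v

theorem trm_eq (D : OWord) (r : ℕ → ℕ → ℝ) (t : ℕ) (p : OPiece) :
    seifertTerm D r t p = trm p (dirAt D t) (r t) (r (t + 1)) := by
  cases p <;> rfl

/-- corners changed by a constant -/
theorem corners (a b : Bool) (x y z w x' y' z' w' : ℝ) (h1 : y' - x' = y - x) (h2 : z' - x' = z - x)
    (h3 : w' - x' = w - x) : frontBack a b x' y' z' w' = frontBack a b x y z w ∧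
    leftRight a b x' y' z' w' = leftRight a b x y z w := by
  unfold frontBack leftRight
  constructor
  · split_ifs <;> linarith
  · split_ifs <;> linarith

theorem trm_step (p : OPiece) (c : Bool) (s s' : List Bool) (d : ℕ → Bool) (ρ ρ' : ℕ → ℝ)
    (hr : rstep p.forget c s = some s') (ha : RStep p.forget ρ ρ') :
    trm (omv (ct c s p.forget.index) p) (sel c s d) (jmp c s ρ) (jmp c s' ρ') = trm p d ρ ρ' := by
  cases p with
  | birth i b => rfl
  | death i => rfl
  | pos i =>
    obtain ⟨rfl, h0, h1⟩ := crossing_row (Or.inl rfl) hr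
    obtain ⟨a1, a2⟩ := sel_corner i c s' d h0 h1
    have ha' : ∀ j, j ≠ i + 1 → ρ' j = ρ j := ha
    obtain ⟨b1, b2, b3⟩ := jmp_corner i c s' ρ h0 h1
    obtain ⟨c1, -, -⟩ := jmp_corner i c s' ρ' h0 h1
    have b4 := b3 ρ' (fun j hj => ha' j (by omega))
    rw [b4, ha' i (by omega)] at c1
    obtain ⟨e1, e2⟩ := corners (d i) (d (i + 1)) _ _ _ _ _ _ _ _ b1 b2 c1
    simp only [OPiece.forget, Helper454.Kauf.Piece.index, omv, trm]
    rw [a1, a2, e1, e2]
  | neg i =>
    obtain ⟨rfl, h0, h1⟩ := crossing_row (Or.inr rfl) hr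
    obtain ⟨a1, a2⟩ := sel_corner i c s' d h0 h1
    have ha' : ∀ j, j ≠ i + 1 → ρ' j = ρ j := ha
    obtain ⟨b1, b2, b3⟩ := jmp_corner i c s' ρ h0 h1
    obtain ⟨c1, -, -⟩ := jmp_corner i c s' ρ' h0 h1
    have b4 := b3 ρ' (fun j hj => ha' j (by omega))
    rw [b4, ha' i (by omega)] at c1
    obtain ⟨e1, e2⟩ := corners (d i) (d (i + 1)) _ _ _ _ _ _ _ _ b1 b2 c1
    simp only [OPiece.forget, Helper454.Kauf.Piece.index, omv, trm]
    rw [a1, a2, e1, e2]

def frm : OWord → ℕ → (ℕ → Bool) → (ℕ → ℕ → ℝ) → ℝ
  | [], _, _, _ => 0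
  | p :: w, n, d, r => trm p d (r 0) (r 1) +
      match p.below n d with
      | some s => frm w s.1 s.2 (fun t => r (t + 1))
      | none => 0

theorem frm_cons {p : OPiece} {w : OWord} {n : ℕ} {d : ℕ → Bool} {n₁ : ℕ} {d₁ : ℕ → Bool}
    {r : ℕ → ℕ → ℝ} (h : p.below n d = some (n₁, d₁)) :
    frm (p :: w) n d r = trm p d (r 0) (r 1) + frm w n₁ d₁ (fun t => r (t + 1)) := by
  simp only [frm, h]

theorem frm_sum (w : OWord) (n : ℕ) (d : ℕ → Bool) (r : ℕ → ℕ → ℝ) (h : (below w n d).isSome) :
    frm w n d r = ∑ t : Fin w.length,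
      trm w[t] (((below (w.take t) n d).getD (0, noD)).2) (r t) (r (t + 1)) := by
  induction w generalizing n d r with
  | nil => rfl
  | cons p w ih =>
    cases hp : p.below n d with
    | none => simp only [below, hp] at h; cases h
    | some s =>
      have h0 : ((p.below n d).bind fun s => below w s.1 s.2).isSome := h
      rw [hp] at h0
      have h1 : (below w s.1 s.2).isSome := h0
      have h2 := ih s.1 s.2 (fun t => r (t + 1)) h1
      have h3 := Fin.sum_univ_succ (n := w.length) (fun t : Fin (w.length + 1) =>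
        trm (p :: w)[t] (((below ((p :: w).take t) n d).getD (0, noD)).2) (r t) (r (t + 1)))
      refine Eq.trans ?_ h3.symm
      rw [frm_cons (n₁ := s.1) (d₁ := s.2) (by rw [hp]), h2]
      refine congrArg₂ (· + ·) rfl (Finset.sum_congr rfl fun t _ => ?_)
      have h4 : below ((p :: w).take (Fin.succ t)) n d = below (w.take t) s.1 s.2 := by
        show (p.below n d).bind _ = _
        rw [hp]
        rfl
      rw [h4]
      rfl

theorem frm_eq {D : OWord} (h : OClosed D) (r : ℕ → ℕ → ℝ) :
    seifertForm D r = frm D 0 noD r := by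
  rw [frm_sum D 0 noD r (PSig.isSome_of_closed h)]
  unfold seifertForm
  exact Finset.sum_congr rfl fun t _ => trm_eq D r t _

/-! ### restriction and extension -/

def consL (x : ℕ → ℝ) (f : ℕ → ℕ → ℝ) : ℕ → ℕ → ℝ
  | 0 => x
  | t + 1 => f t

def RR : Word → (ℕ → ℕ → ℝ) → Prop
  | [], _ => True
  | p :: w, r => RStep p (r 0) (r 1) ∧ RR w (fun t => r (t + 1))

theorem RR_iff (w : Word) (r : ℕ → ℕ → ℝ) :
    RR w r ↔ ∀ t (h : t < w.length), RStep w[t] (r t) (r (t + 1)) := by
  induction w generalizing r with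
  | nil => simp [RR]
  | cons p w ih =>
    constructor
    · rintro ⟨h1, h2⟩ t ht
      cases t with
      | zero => exact h1
      | succ t => exact (ih _).1 h2 t (by simpa using ht)
    · intro h
      exact ⟨h 0 (by simp), (ih _).2 fun t ht => h (t + 1) (by simpa using ht)⟩

def resF (b : Bool) : LW → List Bool → (ℕ → ℕ → ℝ) → ℕ → ℕ → ℝ
  | [], s, r => fun _ => jmp b s (r 0)
  | p :: L, s, r =>
      if p.2 = b then
        consL (jmp b s (r 0)) (resF b L ((rstep p.1 p.2 s).getD s) (fun t => r (t + 1)))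
      else resF b L ((rstep p.1 p.2 s).getD s) (fun t => r (t + 1))

def extF (b : Bool) : LW → List Bool → (ℕ → ℕ → ℝ) → ℕ → ℕ → ℝ
  | [], s, a => fun _ j => a 0 (ct b s j)
  | p :: L, s, a => consL (fun j => a 0 (ct b s j))
      (extF b L ((rstep p.1 p.2 s).getD s) (if p.2 = b then fun t => a (t + 1) else a))

theorem resF_pos {b : Bool} {p : Piece × Bool} {L : LW} {s s₁ : List Bool} (h : p.2 = b)
    (hs : rstep p.1 p.2 s = some s₁) (r : ℕ → ℕ → ℝ) :
    resF b (p :: L) s r = consL (jmp b s (r 0)) (resF b L s₁ (fun t => r (t + 1))) := by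
  simp only [resF, if_pos h, hs, Option.getD_some]

theorem resF_neg {b : Bool} {p : Piece × Bool} {L : LW} {s s₁ : List Bool} (h : p.2 ≠ b)
    (hs : rstep p.1 p.2 s = some s₁) (r : ℕ → ℕ → ℝ) :
    resF b (p :: L) s r = resF b L s₁ (fun t => r (t + 1)) := by
  simp only [resF, if_neg h, hs, Option.getD_some]

theorem subw_pos {b : Bool} {p : Piece × Bool} {L : LW} {s s₁ : List Bool} (h : p.2 = b)
    (hs : rstep p.1 p.2 s = some s₁) :
    subw b (p :: L) s = p.1.moved (ct b s p.1.index) :: subw b L s₁ := by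
  simp only [subw, if_pos h, hs, Option.getD_some]

theorem subw_neg {b : Bool} {p : Piece × Bool} {L : LW} {s s₁ : List Bool} (h : p.2 ≠ b)
    (hs : rstep p.1 p.2 s = some s₁) :
    subw b (p :: L) s = subw b L s₁ := by
  simp only [subw, if_neg h, hs, Option.getD_some]

theorem extF_cons {b : Bool} {p : Piece × Bool} {L : LW} {s s₁ : List Bool}
    (hs : rstep p.1 p.2 s = some s₁) (a : ℕ → ℕ → ℝ) :
    extF b (p :: L) s a = consL (fun j => a 0 (ct b s j))
      (extF b L s₁ (if p.2 = b then fun t => a (t + 1) else a)) := by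
  simp only [extF, hs, Option.getD_some]

theorem extF_zero (b : Bool) (L : LW) (s : List Bool) (a : ℕ → ℕ → ℝ) :
    extF b L s a 0 = fun j => a 0 (ct b s j) := by
  cases L <;> rfl

theorem resF_zero (b : Bool) (L : LW) (s s' : List Bool) (r : ℕ → ℕ → ℝ)
    (hr : run L s = some s') (h : RR (wd L) r) : resF b L s r 0 = jmp b s (r 0) := by
  induction L generalizing s r with
  | nil => rfl
  | cons p L ih =>
    obtain ⟨s₁, hs₁, hr₁⟩ := run_cons hr
    by_cases hp : p.2 = b
    · rw [resF_pos hp hs₁]; rfl
    · rw [resF_neg hp hs₁, ih s₁ _ hr₁ h.2]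
      exact ((jmp_step _ p.1 rfl b p.2 s s₁ _ _ hs₁ h.1).2 hp).symm

theorem RR_resF (b : Bool) (L : LW) (s s' : List Bool) (r : ℕ → ℕ → ℝ)
    (hr : run L s = some s') (h : RR (wd L) r) : RR (subw b L s) (resF b L s r) := by
  induction L generalizing s r with
  | nil => trivial
  | cons p L ih =>
    obtain ⟨s₁, hs₁, hr₁⟩ := run_cons hr
    by_cases hp : p.2 = b
    · rw [resF_pos hp hs₁, subw_pos hp hs₁]
      refine ⟨?_, ih s₁ _ hr₁ h.2⟩
      show RStep _ (jmp b s (r 0)) (resF b L s₁ (fun t => r (t + 1)) 0)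
      rw [resF_zero b L s₁ s' _ hr₁ h.2]
      exact (jmp_step _ p.1 rfl b p.2 s s₁ _ _ hs₁ h.1).1 hp
    · rw [resF_neg hp hs₁, subw_neg hp hs₁]
      exact ih s₁ _ hr₁ h.2

theorem resF_end (b : Bool) (L : LW) (s : List Bool) (r : ℕ → ℕ → ℝ)
    (hr : run L s = some []) (t : ℕ) (ht : (subw b L s).length ≤ t) :
    resF b L s r t = fun _ => 0 := by
  induction L generalizing s r t with
  | nil =>
    obtain rfl : s = [] := Option.some.inj hr
    rfl
  | cons p L ih =>
    obtain ⟨s₁, hs₁, hr₁⟩ := run_cons hr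
    by_cases hp : p.2 = b
    · rw [resF_pos hp hs₁]
      rw [subw_pos hp hs₁, List.length_cons] at ht
      obtain ⟨k, rfl⟩ : ∃ k, t = k + 1 := ⟨t - 1, by omega⟩
      exact ih s₁ _ hr₁ k (by omega)
    · rw [resF_neg hp hs₁]
      rw [subw_neg hp hs₁] at ht
      exact ih s₁ _ hr₁ t ht

theorem consL_add (x y : ℕ → ℝ) (f g : ℕ → ℕ → ℝ) :
    consL (x + y) (f + g) = consL x f + consL y g := by
  funext t; cases t <;> rfl

theorem consL_smul (c : ℝ) (x : ℕ → ℝ) (f : ℕ → ℕ → ℝ) :
    consL (c • x) (c • f) = c • consL x f := by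
  funext t; cases t <;> rfl

theorem resF_add (b : Bool) (L : LW) (s : List Bool) (r r' : ℕ → ℕ → ℝ) :
    resF b L s (r + r') = resF b L s r + resF b L s r' := by
  induction L generalizing s r r' with
  | nil =>
    funext t
    show jmp b s (r 0 + r' 0) = _
    rw [jmp_add]; rfl
  | cons p L ih =>
    by_cases hp : p.2 = b
    · simp only [resF, if_pos hp]
      rw [← consL_add, ← ih]
      refine congrArg₂ consL ?_ rfl
      exact jmp_add b s _ _
    · simp only [resF, if_neg hp]
      exact ih _ _ _

theorem resF_smul (b : Bool) (L : LW) (s : List Bool) (c : ℝ) (r : ℕ → ℕ → ℝ) :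
    resF b L s (c • r) = c • resF b L s r := by
  induction L generalizing s r with
  | nil =>
    funext t
    show jmp b s (c • r 0) = _
    rw [jmp_smul]; rfl
  | cons p L ih =>
    by_cases hp : p.2 = b
    · simp only [resF, if_pos hp]
      rw [← consL_smul, ← ih]
      refine congrArg₂ consL ?_ rfl
      exact jmp_smul b s _ _
    · simp only [resF, if_neg hp]
      exact ih _ _

theorem extF_add (b : Bool) (L : LW) (s : List Bool) (r r' : ℕ → ℕ → ℝ) :
    extF b L s (r + r') = extF b L s r + extF b L s r' := by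
  induction L generalizing s r r' with
  | nil => rfl
  | cons p L ih =>
    simp only [extF]
    rw [← consL_add, ← ih]
    refine congrArg₂ consL rfl ?_
    refine congrArg _ ?_
    by_cases hp : p.2 = b
    · simp only [if_pos hp]; rfl
    · simp only [if_neg hp]

theorem extF_smul (b : Bool) (L : LW) (s : List Bool) (c : ℝ) (r : ℕ → ℕ → ℝ) :
    extF b L s (c • r) = c • extF b L s r := by
  induction L generalizing s r with
  | nil => rfl
  | cons p L ih =>
    simp only [extF]
    rw [← consL_smul, ← ih]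
    refine congrArg₂ consL rfl ?_
    refine congrArg _ ?_
    by_cases hp : p.2 = b
    · simp only [if_pos hp]; rfl
    · simp only [if_neg hp]

theorem RR_extF (b : Bool) (L : LW) (s s' : List Bool) (a : ℕ → ℕ → ℝ)
    (hr : run L s = some s') (h : RR (subw b L s) a) : RR (wd L) (extF b L s a) := by
  induction L generalizing s a with
  | nil => trivial
  | cons p L ih =>
    obtain ⟨s₁, hs₁, hr₁⟩ := run_cons hr
    rw [extF_cons hs₁]
    have h1 : RR (subw b L s₁) (if p.2 = b then fun t => a (t + 1) else a) := by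
      by_cases hp : p.2 = b
      · rw [if_pos hp]
        rw [subw_pos hp hs₁] at h
        exact h.2
      · rw [if_neg hp]
        rwa [subw_neg hp hs₁] at h
    refine ⟨?_, ih s₁ _ hr₁ h1⟩
    show RStep p.1 (fun j => a 0 (ct b s j))
      (extF b L s₁ (if p.2 = b then fun t => a (t + 1) else a) 0)
    rw [extF_zero]
    refine ext_step _ p.1 rfl b p.2 s s₁ _ _ hs₁ ⟨fun hp => ?_, fun hp => ?_⟩
    · rw [subw_pos hp hs₁] at h
      simp only [if_pos hp]
      exact h.1
    · simp only [if_neg hp]

theorem extF_end (b : Bool) (L : LW) (s : List Bool) (a : ℕ → ℕ → ℝ)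
    (hr : run L s = some []) (t : ℕ) (ht : L.length ≤ t) :
    extF b L s a t = fun _ => a (subw b L s).length 0 := by
  induction L generalizing s a t with
  | nil =>
    obtain rfl : s = [] := Option.some.inj hr
    funext j
    simp [extF, subw, ct]
  | cons p L ih =>
    obtain ⟨s₁, hs₁, hr₁⟩ := run_cons hr
    obtain ⟨k, rfl⟩ : ∃ k, t = k + 1 := ⟨t - 1, by simp at ht; omega⟩
    rw [extF_cons hs₁]
    show extF b L s₁ _ k = _
    rw [ih s₁ _ hr₁ k (by simpa using ht)]
    by_cases hp : p.2 = b
    · rw [if_pos hp, subw_pos hp hs₁, List.length_cons]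
    · rw [if_neg hp, subw_neg hp hs₁]

/-- beyond the last strand the labels are constant -/
theorem tail_step (i : ℕ) (p : Piece) (hi : p.index = i) (b : Bool) (s s' : List Bool)
    (α α' : ℕ → ℝ) (hr : rstep p b s = some s') (ha : RStep (p.moved (ct b s i)) α α')
    (ht : ∀ u, s.count b ≤ u → α u = α (s.count b)) :
    ∀ u, s'.count b ≤ u → α' u = α' (s'.count b) := by
  induction i generalizing p s s' α α' with
  | zero =>
    rw [ct_zero] at ha
    rcases rstep0 hi hr with ⟨rfl, rfl⟩ | ⟨rfl, rfl⟩ | ⟨hp, rfl, s₂, rfl⟩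
    · intro u hu
      simp only [List.count_cons_self] at hu ⊢
      obtain ⟨k, rfl⟩ : ∃ k, u = k + 2 := ⟨u - 2, by omega⟩
      rw [ha.2 k (by omega), ha.2 _ (Nat.zero_le _)]
      exact ht k (by omega)
    · intro u hu
      simp only [List.count_cons_self] at ht
      rw [← ha.2 u (by omega), ← ha.2 _ (Nat.zero_le _)]
      exact ht (u + 2) (by omega)
    · intro u hu
      have h : ∀ j, j ≠ 0 + 1 → α' j = α j := by
        rcases hp with rfl | rfl <;> exact ha
      simp only [List.count_cons_self] at ht hu ⊢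
      rw [h u (by omega), h _ (by omega)]
      exact ht u hu
  | succ i ih =>
    obtain ⟨q, rfl, hq⟩ := exists_nx p i hi
    cases s with
    | nil => cases q <;> simp [nx, rstep] at hr
    | cons x s =>
      obtain ⟨s₁, hs₁, rfl⟩ := rstep_nx q b x s s' hr
      by_cases hx : x = b
      · rw [ct_pos hx, moved_nx] at ha
        rw [hx, List.count_cons_self] at ht
        rw [hx, List.count_cons_self]
        intro u hu
        obtain ⟨k, rfl⟩ : ∃ k, u = k + 1 := ⟨u - 1, by omega⟩
        exact ih q hq s s₁ (fun j => α (j + 1)) (fun j => α' (j + 1)) hs₁ ((R_nx _ _ _).1 ha).2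
          (fun v hv => ht (v + 1) (by omega)) k (by omega)
      · rw [ct_neg hx, moved_nx'] at ha
        rw [List.count_cons_of_ne hx] at ht
        rw [List.count_cons_of_ne hx]
        exact ih q hq s s₁ α α' hs₁ ha ht

theorem count_other {p : Piece} {b c : Bool} (h : c ≠ b) {s s' : List Bool}
    (hr : rstep p c s = some s') : s'.count b = s.count b := by
  obtain ⟨i, hi⟩ : ∃ i, p.index = i := ⟨_, rfl⟩
  induction i generalizing p s s' with
  | zero =>
    rcases rstep0 hi hr with ⟨rfl, rfl⟩ | ⟨rfl, rfl⟩ | ⟨hp, rfl, s₂, rfl⟩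
    · simp [h]
    · simp [h]
    · rfl
  | succ i ih =>
    obtain ⟨q, rfl, hq⟩ := exists_nx p i hi
    cases s with
    | nil => cases q <;> simp [nx, rstep] at hr
    | cons x s =>
      obtain ⟨s₁, hs₁, rfl⟩ := rstep_nx q c x s s' hr
      rw [List.count_cons, List.count_cons, ih hs₁ hq]

theorem res_ext (b : Bool) (L : LW) (s s' : List Bool) (a : ℕ → ℕ → ℝ)
    (hr : run L s = some s') (h : RR (subw b L s) a)
    (ht : ∀ u, s.count b ≤ u → a 0 u = a 0 (s.count b)) (t : ℕ) (hlt : t ≤ (subw b L s).length)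
    (u : ℕ) : resF b L s (extF b L s a) t u = a t u - a t 0 := by
  have base : ∀ (s : List Bool) (a : ℕ → ℕ → ℝ),
      (∀ u, s.count b ≤ u → a 0 u = a 0 (s.count b)) →
      jmp b s (fun j => a 0 (ct b s j)) u = a 0 u - a 0 0 := by
    intro s a ht
    rw [jmp_ext]
    rcases le_total u (s.count b) with hu | hu
    · rw [min_eq_left hu]
    · rw [min_eq_right hu, ht u hu]
  induction L generalizing s a t with
  | nil =>
    obtain rfl : t = 0 := by simpa [subw] using hlt
    exact base s a ht
  | cons p L ih =>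
    obtain ⟨s₁, hs₁, hr₁⟩ := run_cons hr
    by_cases hp : p.2 = b
    · rw [subw_pos hp hs₁] at h hlt
      rw [resF_pos hp hs₁]
      cases t with
      | zero =>
        show jmp b s (extF b (p :: L) s a 0) u = _
        rw [extF_zero]
        exact base s a ht
      | succ t =>
        rw [extF_cons hs₁, if_pos hp]
        show resF b L s₁ (extF b L s₁ (fun t => a (t + 1))) t u = _
        refine ih s₁ (fun t => a (t + 1)) hr₁ h.2 ?_ t (by simpa using hlt)
        rw [← hp]
        refine tail_step _ p.1 rfl p.2 s s₁ (a 0) (a 1) hs₁ ?_ ?_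
        · rw [hp]; exact h.1
        · rw [hp]; exact ht
    · rw [subw_neg hp hs₁] at h hlt
      rw [resF_neg hp hs₁, extF_cons hs₁, if_neg hp]
      show resF b L s₁ (extF b L s₁ a) t u = _
      refine ih s₁ a hr₁ h ?_ t hlt
      rw [count_other hp hs₁]
      exact ht

theorem res_ext' (b c : Bool) (hc : c ≠ b) (L : LW) (s s' : List Bool) (a : ℕ → ℕ → ℝ)
    (hr : run L s = some s') : resF c L s (extF b L s a) = 0 := by
  induction L generalizing s a with
  | nil =>
    funext t u
    exact jmp_ext' b c hc s (a 0) u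
  | cons p L ih =>
    obtain ⟨s₁, hs₁, hr₁⟩ := run_cons hr
    by_cases hp : p.2 = c
    · rw [resF_pos hp hs₁, extF_cons hs₁]
      funext t u
      cases t with
      | zero => exact jmp_ext' b c hc s (a 0) u
      | succ t =>
        show resF c L s₁ (extF b L s₁ _) t u = 0
        rw [ih s₁ _ hr₁]
        rfl
    · rw [resF_neg hp hs₁, extF_cons hs₁]
      exact ih s₁ _ hr₁

/-- the form of a diagram is the sum of the forms of the parts -/
theorem frm_osub (L : LO) (s s' : List Bool) (d d' : ℕ → Bool) (m : ℕ) (r : ℕ → ℕ → ℝ)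
    (hr : run (lo L) s = some s') (hb : below (fo L) s.length d = some (m, d'))
    (h : RR (wd (lo L)) r) :
    frm (fo L) s.length d r =
      frm (osub true L s) (s.count true) (sel true s d) (resF true (lo L) s r) +
      frm (osub false L s) (s.count false) (sel false s d) (resF false (lo L) s r) := by
  induction L generalizing s d r with
  | nil => simp [frm, fo, osub]
  | cons p L ih =>
    obtain ⟨s₁, hs₁, hr₁⟩ := run_cons hr
    obtain ⟨n₁, d₁, hd₁, hb₁⟩ := below_cons hb
    have kt := below_step _ p.1 rfl true p.2 s s₁ _ _ _ hs₁ hd₁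
    have kf := below_step _ p.1 rfl false p.2 s s₁ _ _ _ hs₁ hd₁
    obtain rfl := kt.1
    have e1 : frm (fo (p :: L)) s.length d r = trm p.1 d (r 0) (r 1) +
      frm (fo L) s₁.length d₁ (fun t => r (t + 1)) := frm_cons hd₁
    rw [e1, ih s₁ d₁ _ hr₁ hb₁ h.2]
    have e2 := trm_step p.1 p.2 s s₁ d (r 0) (r 1) hs₁ h.1
    have e3 : ∀ b, resF b (lo L) s₁ (fun t => r (t + 1)) 0 = jmp b s₁ (r 1) := fun b =>
      resF_zero b (lo L) s₁ s' _ hr₁ h.2
    rcases Bool.eq_false_or_eq_true p.2 with hp | hp
    · have hf : p.2 ≠ false := by rw [hp]; simp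
      rw [osub_pos hp hs₁, osub_neg hf hs₁, frm_cons (kt.2.1 hp), ← (kf.2.2 hf).1,
        ← (kf.2.2 hf).2]
      have f1 : resF true (lo (p :: L)) s r = consL (jmp true s (r 0))
        (resF true (lo L) s₁ (fun t => r (t + 1))) := resF_pos hp hs₁ r
      have f2 : resF false (lo (p :: L)) s r = resF false (lo L) s₁ (fun t => r (t + 1)) :=
        resF_neg hf hs₁ r
      rw [f1, f2]
      show _ = trm _ _ (jmp true s (r 0)) (resF true (lo L) s₁ (fun t => r (t + 1)) 0) +
        frm (osub true L s₁) _ _ (resF true (lo L) s₁ (fun t => r (t + 1))) + _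
      rw [e3]
      rw [hp] at e2
      rw [e2]
      ring
    · have hf : p.2 ≠ true := by rw [hp]; simp
      rw [osub_neg hf hs₁, osub_pos hp hs₁, frm_cons (kf.2.1 hp), ← (kt.2.2 hf).1,
        ← (kt.2.2 hf).2]
      have f1 : resF false (lo (p :: L)) s r = consL (jmp false s (r 0))
        (resF false (lo L) s₁ (fun t => r (t + 1))) := resF_pos hp hs₁ r
      have f2 : resF true (lo (p :: L)) s r = resF true (lo L) s₁ (fun t => r (t + 1)) :=
        resF_neg hf hs₁ r
      rw [f1, f2]
      show _ = _ + (trm _ _ (jmp false s (r 0)) (resF false (lo L) s₁ (fun t => r (t + 1)) 0) +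
        frm (osub false L s₁) _ _ (resF false (lo L) s₁ (fun t => r (t + 1))))
      rw [e3]
      rw [hp] at e2
      rw [e2]
      ring

/-- adding a constant does not change the form -/
theorem frm_const (w : OWord) (n : ℕ) (d : ℕ → Bool) (r r' : ℕ → ℕ → ℝ) (k : ℝ)
    (h : ∀ t ≤ w.length, ∀ u, r' t u = r t u - k) : frm w n d r' = frm w n d r := by
  induction w generalizing n d r r' with
  | nil => rfl
  | cons p w ih =>
    have h0 := h 0 (Nat.zero_le _)
    have h1 := h 1 (by simp)
    have e : trm p d (r' 0) (r' 1) = trm p d (r 0) (r 1) := by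
      cases p with
      | birth i b => rfl
      | death i => rfl
      | pos i =>
        obtain ⟨e1, e2⟩ := corners (d i) (d (i + 1)) (r 0 i) (r 0 (i + 1)) (r 0 (i + 2)) (r 1 (i + 1))
          (r' 0 i) (r' 0 (i + 1)) (r' 0 (i + 2)) (r' 1 (i + 1)) (by rw [h0, h0]; ring)
          (by rw [h0, h0]; ring) (by rw [h0, h1]; ring)
        simp only [trm]
        rw [e1, e2]
      | neg i =>
        obtain ⟨e1, e2⟩ := corners (d i) (d (i + 1)) (r 0 i) (r 0 (i + 1)) (r 0 (i + 2)) (r 1 (i + 1))
          (r' 0 i) (r' 0 (i + 1)) (r' 0 (i + 2)) (r' 1 (i + 1)) (by rw [h0, h0]; ring)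
          (by rw [h0, h0]; ring) (by rw [h0, h1]; ring)
        simp only [trm]
        rw [e1, e2]
    simp only [frm]
    rw [e]
    cases hp : p.below n d with
    | none => rfl
    | some s =>
      refine congrArg _ ?_
      exact ih s.1 s.2 _ _ (fun t ht u => h (t + 1) (by simpa using ht) u)

theorem frm_zero (w : OWord) (n : ℕ) (d : ℕ → Bool) : frm w n d 0 = 0 := by
  induction w generalizing n d with
  | nil => rfl
  | cons p w ih =>
    have e : trm p d ((0 : ℕ → ℕ → ℝ) 0) ((0 : ℕ → ℕ → ℝ) 1) = 0 := by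
      cases p <;> simp [trm, frontBack, leftRight]
    simp only [frm]
    rw [e]
    cases hp : p.below n d with
    | none => simp
    | some s =>
      rw [zero_add]
      exact ih s.1 s.2

/-- restriction as a linear map -/
def R (b : Bool) (L : LW) : (ℕ → ℕ → ℝ) →ₗ[ℝ] (ℕ → ℕ → ℝ) where
  toFun := resF b L []
  map_add' := resF_add b L []
  map_smul' := resF_smul b L []

/-- extension as a linear map -/
def X (b : Bool) (L : LW) : (ℕ → ℕ → ℝ) →ₗ[ℝ] (ℕ → ℕ → ℝ) where
  toFun := extF b L []
  map_add' := extF_add b L []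
  map_smul' := extF_smul b L []

theorem rlab_res (b : Bool) (L : LW) (hr : run L [] = some []) (r : ℕ → ℕ → ℝ)
    (h : RLab (wd L) r) : RLab (subw b L []) (R b L r) := by
  have hRR : RR (wd L) r := (RR_iff _ _).2 h.2.2
  have h0 : R b L r 0 = fun _ => 0 := resF_zero b L [] [] r hr hRR
  refine ⟨fun j => by rw [h0], fun t ht => ?_, (RR_iff _ _).1 (RR_resF b L [] [] r hr hRR)⟩
  rw [h0]
  exact resF_end b L [] r hr t ht

theorem rlab_ext (b : Bool) (L : LW) (hr : run L [] = some []) (a : ℕ → ℕ → ℝ)
    (h : RLab (subw b L []) a) : RLab (wd L) (X b L a) := by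
  have hRR : RR (subw b L []) a := (RR_iff _ _).2 h.2.2
  have h0 : X b L a 0 = fun _ => a 0 0 := by
    show extF b L [] a 0 = _
    rw [extF_zero]
    funext j
    simp [ct]
  refine ⟨fun j => by rw [h0], fun t ht => ?_, (RR_iff _ _).1 (RR_extF b L [] [] a hr hRR)⟩
  rw [h0]
  have h1 := extF_end b L [] a hr t (by simpa [wd] using ht)
  rw [show X b L a t = extF b L [] a t from rfl, h1, h.2.1 _ le_rfl]

theorem R_X' (b c : Bool) (hc : c ≠ b) (L : LW) (hr : run L [] = some []) (a : ℕ → ℕ → ℝ) :
    R c L (X b L a) = 0 := res_ext' b c hc L [] [] a hr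

theorem R_X (b : Bool) (L : LW) (hr : run L [] = some []) (a : ℕ → ℕ → ℝ)
    (h : RLab (subw b L []) a) (t : ℕ) (ht : t ≤ (subw b L []).length) (u : ℕ) :
    R b L (X b L a) t u = a t u - a 0 0 := by
  have h1 := res_ext b L [] [] a hr ((RR_iff _ _).2 h.2.2) (fun u _ => h.1 u) t ht u
  rw [show R b L (X b L a) t u = resF b L [] (extF b L [] a) t u from rfl, h1, rlab_left h t]

theorem t_sigU : S_sigU := by
  rintro D Dt Df hO ⟨L, hL, hr, rfl, rfl⟩
  obtain ⟨M, rfl, rfl⟩ := exists_LO D L hL
  obtain ⟨⟨m, d'⟩, hb⟩ : ∃ x, below (fo M) 0 noD = some x :=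
    Option.isSome_iff_exists.1 (PSig.isSome_of_closed hO)
  have hbb : ∀ b, below (osub b M []) 0 noD = some (0, sel b [] d') := fun b =>
    (below_osub b M [] [] noD d' m hr hb).2
  have hOO : ∀ b, OClosed (osub b M []) := fun b => by
    show (below (osub b M []) 0 noD).map Prod.fst = some 0
    rw [hbb b]
    rfl
  refine ⟨osub true M [], osub false M [], forget_osub _ _ _, forget_osub _ _ _, hOO true, hOO false,
    writhe_osub M [] [] noD d' m hr hb, ?_⟩
  have hform : ∀ r, RLab (forget (fo M)) r → seifertForm (fo M) r =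
      seifertForm (osub true M []) (R true (lo M) r) +
      seifertForm (osub false M []) (R false (lo M) r) := by
    intro r h
    rw [frm_eq hO, frm_eq (hOO true), frm_eq (hOO false)]
    exact frm_osub M [] [] noD d' m r hr hb ((RR_iff _ _).2 (by rw [hL]; exact h.2.2))
  have hconst : ∀ b (a x : ℕ → ℕ → ℝ), RLab (forget (osub b M [])) a → x = R b (lo M) (X b (lo M) a) →
      seifertForm (osub b M []) x = seifertForm (osub b M []) a := by
    rintro b a x h rfl
    rw [frm_eq (hOO b), frm_eq (hOO b)]
    refine frm_const _ _ _ _ _ (a 0 0) (fun t ht u => ?_)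
    rw [forget_osub] at h
    refine R_X b (lo M) hr a h t ?_ u
    rw [← forget_osub]
    simpa [forget] using ht
  rintro b₁ b₂ ⟨p₁, m₁, hb₁, ⟨V₁, hV₁, hp₁, hf₁, hpos₁⟩, φ₁, hφ₁⟩
    ⟨p₂, m₂, hb₂, ⟨V₂, hV₂, hp₂, hf₂, hpos₂⟩, φ₂, hφ₂⟩
  refine ⟨p₁ + p₂, m₁ + m₂, by push_cast; linarith, ?_, ?_⟩
  · -- the positive part
    set Θ : V₁ × V₂ →ₗ[ℝ] (ℕ → ℕ → ℝ) :=
      ((X true (lo M)).comp V₁.subtype).coprod ((X false (lo M)).comp V₂.subtype) with hΘ
    have hΘa : ∀ x : V₁ × V₂, Θ x = X true (lo M) x.1 + X false (lo M) x.2 := fun x => by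
      rw [hΘ]; simp
    have hlab : ∀ x : V₁ × V₂, RLab (forget (fo M)) (Θ x) := by
      intro x
      rw [hΘa, ← hL]
      have a1 := rlab_ext true (lo M) hr x.1 (by rw [← forget_osub]; exact hV₁ _ x.1.2)
      have a2 := rlab_ext false (lo M) hr x.2 (by rw [← forget_osub]; exact hV₂ _ x.2.2)
      exact ((LL (wd (lo M)) (fun _ _ => true)).add_mem ⟨a1, fun t j h => by cases h⟩
        ⟨a2, fun t j h => by cases h⟩).1
    have hval : ∀ x : V₁ × V₂, seifertForm (fo M) (Θ x) =
        seifertForm (osub true M []) x.1 + seifertForm (osub false M []) x.2 := by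
      intro x
      rw [hform _ (hlab x)]
      rw [hconst true x.1 _ (hV₁ _ x.1.2) (by
          rw [hΘa, map_add, R_X' false true (by simp) (lo M) hr, add_zero]),
        hconst false x.2 _ (hV₂ _ x.2.2) (by
          rw [hΘa, map_add, R_X' true false (by simp) (lo M) hr, zero_add])]
    have hnn₁ : ∀ x : V₁, 0 ≤ seifertForm (osub true M []) x := by
      intro x
      by_cases h : (x : ℕ → ℕ → ℝ) = 0
      · rw [h]
        have : seifertForm (osub true M []) 0 = 0 := by
          rw [frm_eq (hOO true)]
          exact frm_zero _ _ _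
        rw [this]
      · exact (hpos₁ _ x.2 h).le
    have hnn₂ : ∀ x : V₂, 0 ≤ seifertForm (osub false M []) x := by
      intro x
      by_cases h : (x : ℕ → ℕ → ℝ) = 0
      · rw [h]
        have : seifertForm (osub false M []) 0 = 0 := by
          rw [frm_eq (hOO false)]
          exact frm_zero _ _ _
        rw [this]
      · exact (hpos₂ _ x.2 h).le
    have hpos : ∀ x : V₁ × V₂, x ≠ 0 → 0 < seifertForm (fo M) (Θ x) := by
      intro x hx
      rw [hval]
      by_cases h : x.1 = 0
      · have h2 : x.2 ≠ 0 := fun h2 => hx (Prod.ext h h2)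
        have := hpos₂ x.2 x.2.2 (fun h3 => h2 (Subtype.ext h3))
        have := hnn₁ x.1
        linarith
      · have := hpos₁ x.1 x.1.2 (fun h3 => h (Subtype.ext h3))
        have := hnn₂ x.2
        linarith
    have hinj : Function.Injective Θ := by
      rw [← LinearMap.ker_eq_bot, LinearMap.ker_eq_bot']
      intro x hx
      by_contra hne
      have h1 := hpos x hne
      rw [hx, frm_eq hO, frm_zero] at h1
      exact lt_irrefl _ h1
    refine ⟨LinearMap.range Θ, ?_, ?_, inferInstance, ?_⟩
    · rintro _ ⟨x, rfl⟩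
      exact hlab x
    · rw [LinearMap.finrank_range_of_inj hinj, Module.finrank_prod, hp₁, hp₂]
    · rintro _ ⟨x, rfl⟩ hne
      exact hpos x (fun h => hne (by rw [h, map_zero]))
  · -- the other part
    have e : ((Fin m₁ → ℝ) × (Fin m₂ → ℝ)) ≃ₗ[ℝ] (Fin (m₁ + m₂) → ℝ) :=
      LinearEquiv.ofFinrankEq _ _ (by simp)
    refine ⟨e.toLinearMap.comp ((φ₁.comp (R true (lo M))).prod (φ₂.comp (R false (lo M)))), ?_⟩
    intro r h h0
    have h1 : ((φ₁.comp (R true (lo M))).prod (φ₂.comp (R false (lo M)))) r = 0 :=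
      (LinearEquiv.map_eq_zero_iff e).1 h0
    have h2 : φ₁ (R true (lo M) r) = 0 := congrArg Prod.fst h1
    have h3 : φ₂ (R false (lo M) r) = 0 := congrArg Prod.snd h1
    rw [hform r h]
    rw [← hL] at h
    refine add_nonneg (hφ₁ _ ?_ h2) (hφ₂ _ ?_ h3)
    · rw [forget_osub]; exact rlab_res true (lo M) hr r h
    · rw [forget_osub]; exact rlab_res false (lo M) hr r h

end Pool.Agent.Helper82_Alt.PSigU
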