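import Pool.Agent.Helper82_Alt.A11
import Pool.Agent.Helper82_Alt.B1
import Pool.Agent.Helper82_Alt.Spec2

/-! Tangles with two ends, Kauffman polynomial. -/

set_option autoImplicit false
set_option linter.unusedSimpArgs false

namespace Pool.Agent.Helper82_Alt.PTanK

open LaurentPolynomial
open Pool.Agent.Helper454.Kauf
open Pool.Agent.Helper454.Kauf.Piece (birth death pos neg)

theorem cl {w y : Word} (h : O.Ok w) (hc : Closed (w ++ y)) : width y 2 = some 0 := by
  unfold Closed at hc
  rw [width_append, show width w 0 = some 2 from h, Option.bind_some] at hc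
  exact hc

theorem t_tanK : S_tanK := by
  intro M _ _ Λ hΛ V hV
  have hcc : ∀ {w : Word}, O.Ok w → ∀ Y, width Y 2 = some 0 → Closed (w ++ Y) := by
    intro w hw Y hY
    unfold Closed
    rw [width_append, show width w 0 = some 2 from hw, Option.bind_some]
    exact hY
  have hSk : O.Sk (fun _ w => ∃ q : Raz, ∀ Y, width Y 2 = some 0 →
      Λ (w ++ Y) = q • Λ (.birth 0 :: Y)) := by
    refine ⟨?_, ?_, ?_, ?_, ?_, ?_, ?_⟩
    · rintro c c' w _ h
      exact h
    · rintro c w w' y hc he ⟨q, h⟩
      refine ⟨q, fun Y hY => ?_⟩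
      rw [← h Y hY]
      have h1 := hcc hc Y hY
      have := he.2 [] (y ++ Y) rfl (by simpa using h1)
      simp only [List.nil_append, ← List.append_assoc] at this
      exact hΛ.regular _ _ this
    · rintro c b x i y hc ⟨q, h⟩
      refine ⟨aPow (sg b) * q, fun Y hY => ?_⟩
      have h1 := hcc hc Y hY
      have h2 := cxBirth hΛ b x i (y ++ Y) (by simpa using h1)
      have h3 := h Y hY
      simp only [List.append_assoc, List.cons_append, List.nil_append] at h2 h3 ⊢
      rw [h2, h3, mul_smul]
    · rintro c b x i y hc ⟨q, h⟩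
      refine ⟨aPow (sg b) * q, fun Y hY => ?_⟩
      have h1 := hcc hc Y hY
      have h2 := cxDeath hΛ b x i (y ++ Y) (by simpa using h1)
      have h3 := h Y hY
      simp only [List.append_assoc, List.cons_append, List.nil_append] at h2 h3 ⊢
      rw [h2, h3, mul_smul]
    · rintro c b x i y hc ⟨q, h⟩ ⟨q1, h1⟩ ⟨q2, h2⟩
      refine ⟨zVar * (q1 + q2) - q, fun Y hY => ?_⟩
      have hc1 := hcc hc Y hY
      have hcl : Closed (x ++ [pos i] ++ (y ++ Y)) := by
        cases b
        · simpa [cx_false] using hc1
        · refine (closed_congr (w := x ++ [cx true i]) ?_ (y ++ Y)).1 (by simpa using hc1)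
          rw [width_append, width_append]
          congr 1
      have hs := hΛ.skein x i (y ++ Y) hcl
      have h0 := h Y hY
      have h1 := h1 Y hY
      have h2 := h2 Y hY
      simp only [List.append_assoc, List.cons_append, List.nil_append] at hs h0 h1 h2 ⊢
      rw [sub_smul, mul_smul, add_smul, ← h1, ← h2, ← h0, ← hs]
      cases b
      · show _ = _ + _ - Λ (x ++ neg i :: (y ++ Y))
        rw [add_sub_cancel_right]; rfl
      · show _ = _ + _ - Λ (x ++ pos i :: (y ++ Y))
        rw [add_sub_cancel_left]; rfl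
    · rintro c x i y hc ⟨n, hx, hi⟩ ⟨q, h⟩
      refine ⟨C (T (-1)) * (aPow 1 + aPow (-1) - zVar) * q, fun Y hY => ?_⟩
      have h1 := hcc hc Y hY
      have hne : x ++ (y ++ Y) ≠ [] := by
        intro hnil
        simp only [List.append_eq_nil_iff] at hnil
        obtain ⟨rfl, rfl, rfl⟩ := hnil
        simp [O.Ok, w_nil] at hc
      have h2 := circ_any hΛ hx hi (by simpa using h1) hne
      have h3 := congrArg (fun m => (C (T (-1)) : Raz) • m) h2
      simp only [smul_smul] at h3
      rw [zz, one_smul] at h3
      have h4 := h Y hY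
      simp only [List.append_assoc, List.cons_append, List.nil_append] at h3 h4 ⊢
      rw [h3, h4, smul_smul]
    · exact ⟨1, fun Y _ => by rw [one_smul]; rfl⟩
  obtain ⟨q, h⟩ := O.span2 hSk V hV
  exact ⟨q, fun Y hY => h Y (cl hV hY)⟩

end Pool.Agent.Helper82_Alt.PTanK
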