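import Pool.Agent.Helper82_Alt.LocO
import Pool.Agent.Helper82_Alt.NugP

/-!
# Tangles with two ends, HOMFLY polynomial
-/

set_option autoImplicit false

namespace Pool.Agent.Helper82_Alt.PTanP

open Pool.Agent.Helper82_Alt Pool.Agent.Helper82_Alt.PB2 Pool.Agent.Helper82_Alt.PUniP
open Pool.Agent.Helper454.Kauf (Piece Word Closed RegIsotopic RegStep LocalMove FirstMove circle)
open Pool.Agent.Helper454.Wh

/-! ### orientations under local moves in a part -/

/-- the oriented part `W` can be replaced by `W'` -/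
def OTl (w w' : Word) : Prop :=
  ∀ W, forget W = w → ∀ m e, below W 0 noD = some (m, e) →
    ∃ W', forget W' = w' ∧ below W' 0 noD = some (m, e) ∧
      ∀ Z, OClosed (W ++ Z) → OClosed (W' ++ Z) ∧ OIsotopic (W ++ Z) (W' ++ Z)

theorem below_split {X L Y : OWord} {m : ℕ} {e : ℕ → Bool}
    (h : below (X ++ L ++ Y) 0 noD = some (m, e)) :
    ∃ n d n' d', below X 0 noD = some (n, d) ∧ below L n d = some (n', d') ∧
      below Y n' d' = some (m, e) := by
  rw [below_append, below_append] at h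
  rcases hX : below X 0 noD with _ | ⟨n, d⟩
  · rw [hX] at h; simp at h
  rw [hX] at h
  simp only [Option.bind_some] at h
  rcases hL : below L n d with _ | ⟨n', d'⟩
  · rw [hL] at h; simp at h
  rw [hL] at h
  simp only [Option.bind_some] at h
  exact ⟨n, d, n', d', rfl, hL, h⟩

theorem below_mk {X L Y : OWord} {n : ℕ} {d : ℕ → Bool} {n' : ℕ} {d' : ℕ → Bool} {m : ℕ}
    {e : ℕ → Bool} (hX : below X 0 noD = some (n, d)) (hL : below L n d = some (n', d'))
    (hY : below Y n' d' = some (m, e)) : below (X ++ L ++ Y) 0 noD = some (m, e) := by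
  rw [below_append, below_append, hX, Option.bind_some, hL, Option.bind_some, hY]

theorem closed_ext {W W' Z : OWord} {m : ℕ} {e : ℕ → Bool} (h : below W 0 noD = some (m, e))
    (h' : below W' 0 noD = some (m, e)) (hc : OClosed (W ++ Z)) : OClosed (W' ++ Z) := by
  rw [oclosed_iff'] at hc ⊢
  rw [below_append' Z h] at hc
  rw [below_append' Z h', hc]

theorem OTl_step {x l r y : Word} {k m : ℕ} (h : LocalMove l r ∨ LocalMove r l)
    (hx : Helper454.Kauf.width x 0 = some k) (hl : Helper454.Kauf.width l k = some m)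
    (hr : Helper454.Kauf.width r k = some m) : OTl (x ++ l ++ y) (x ++ r ++ y) := by
  intro W hW j e hb
  obtain ⟨X, L, Y, rfl, rfl, rfl, rfl⟩ := split3 hW
  obtain ⟨n, d, n', d', hX, hL, hY⟩ := below_split hb
  have h1 := (width_forget X _ _ _ _ hX).symm.trans hx
  have h1' : n = k := Option.some.inj h1
  subst h1'
  have h2 := (width_forget L _ _ _ _ hL).symm.trans hl
  have h2' : n' = m := Option.some.inj h2
  subst h2'
  obtain ⟨R, hR1, hR2⟩ := PW.t_W3 (forget L) r L n d n' d' h rfl hL hr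
  subst hR1
  refine ⟨X ++ R ++ Y, by rw [forget_append, forget_append], below_mk hX hR2 hY, ?_⟩
  intro Z hZ
  have hZ' := closed_ext hb (below_mk hX hR2 hY) hZ
  refine ⟨hZ', ?_⟩
  have e1 : X ++ L ++ Y ++ Z = X ++ L ++ (Y ++ Z) := by simp
  have e2 : X ++ R ++ Y ++ Z = X ++ R ++ (Y ++ Z) := by simp
  rw [e1] at hZ ⊢
  rw [e2] at hZ' ⊢
  rcases h with h | h
  · exact (exchI hX hL hR2 hZ (Or.inl h)).2
  · exact ((exchI hX hR2 hL hZ' (Or.inl h)).2).symm

theorem OTl_eqv {w w' : Word} (h : Relation.EqvGen (Loc.LStep 0) w w') :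
    OTl w w' ∧ OTl w' w := by
  induction h with
  | rel w w' h =>
    obtain ⟨x, l, r, y, k, m, j, hm, hx, hl, hr, _⟩ := h
    exact ⟨OTl_step (Or.inl hm) hx hl hr, OTl_step (Or.inr hm) hx hr hl⟩
  | refl w => exact ⟨fun W h1 m e h2 => ⟨W, h1, h2, fun Z hZ => ⟨hZ, Relation.EqvGen.refl _⟩⟩,
      fun W h1 m e h2 => ⟨W, h1, h2, fun Z hZ => ⟨hZ, Relation.EqvGen.refl _⟩⟩⟩
  | symm w w' _ ih => exact ih.symm
  | trans a b c _ _ ih1 ih2 =>
    refine ⟨fun D h1 m e h2 => ?_, fun D h1 m e h2 => ?_⟩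
    · obtain ⟨D', a1, a2, a3⟩ := ih1.1 D h1 m e h2
      obtain ⟨D'', b1, b2, b3⟩ := ih2.1 D' a1 m e a2
      exact ⟨D'', b1, b2, fun Z hZ => ⟨(b3 Z (a3 Z hZ).1).1,
        Relation.EqvGen.trans _ _ _ (a3 Z hZ).2 (b3 Z (a3 Z hZ).1).2⟩⟩
    · obtain ⟨D', a1, a2, a3⟩ := ih2.2 D h1 m e h2
      obtain ⟨D'', b1, b2, b3⟩ := ih1.2 D' a1 m e a2
      exact ⟨D'', b1, b2, fun Z hZ => ⟨(b3 Z (a3 Z hZ).1).1,
        Relation.EqvGen.trans _ _ _ (a3 Z hZ).2 (b3 Z (a3 Z hZ).1).2⟩⟩

/-! ### the family of predicates -/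

section
variable {M : Type} [AddCommGroup M] [Module Rlm M] {Λ : OWord → M}

/-- `V` is a multiple of a maximum -/
def GT (Λ : OWord → M) (_ : ℤ) (w : Word) : Prop :=
  ∀ V : OWord, forget V = w → ∀ e, below V 0 noD = some (2, e) →
    ∃ q : Rlm, ∀ Y, OClosed (V ++ Y) → Λ (V ++ Y) = q • Λ (.birth 0 (e 0) :: Y)

/-- the crossing at a place where the smoothing is `S` -/
theorem skein_coef (p q : Rlm) : (∃ r : Rlm, ∀ a b s o : M,
    lPow (-1) • a - lPow 1 • b = mPow 1 • s → s = q • o → b = p • o → a = r • o) ∧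
    (∃ r : Rlm, ∀ a b s o : M,
    lPow (-1) • a - lPow 1 • b = mPow 1 • s → s = q • o → a = p • o → b = r • o) := by
  constructor
  · refine ⟨lPow 1 * (lPow 1 * p) + lPow 1 * (mPow 1 * q), fun a b s o h hs hb => ?_⟩
    have h1 : lPow (-1) • a = lPow 1 • b + mPow 1 • s := by
      rw [← h]; abel
    have h2 : a = lPow 1 • (lPow 1 • b) + lPow 1 • (mPow 1 • s) := by
      rw [← smul_add, ← h1, PB2.ll]
    rw [h2, hb, hs, add_smul, mul_smul, mul_smul, mul_smul, mul_smul]
  · refine ⟨lPow (-1) * (lPow (-1) * p) + -(lPow (-1) * (mPow 1 * q)), fun a b s o h hs ha => ?_⟩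
    have h1 : lPow 1 • b = lPow (-1) • a - mPow 1 • s := by
      rw [← h]; abel
    have h2 : b = lPow (-1) • (lPow (-1) • a) - lPow (-1) • (mPow 1 • s) := by
      rw [← smul_sub, ← h1, PB2.ll']
    rw [h2, ha, hs, add_smul, neg_smul, mul_smul, mul_smul, mul_smul, mul_smul, sub_eq_add_neg]

theorem skT (hΛ : HomflyRules (lPow 1) (lPow (-1)) (mPow 1) Λ) : Loc.O.Sk (GT Λ) where
  mono := fun _ _ _ _ h => h
  reg := by
    intro c w w' y _ hE h V hV e hb
    obtain ⟨W, Y, rfl, rfl, rfl⟩ := List.map_eq_append_iff.1 (show V.map OPiece.forget = _ from hV)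
    have hb0 := hb
    rw [below_append] at hb
    rcases hX : below W 0 noD with _ | ⟨n, d⟩
    · rw [hX] at hb; simp at hb
    rw [hX] at hb
    simp only [Option.bind_some] at hb
    obtain ⟨W', h1, h2, h3⟩ := (OTl_eqv hE.2).1 W rfl n d hX
    obtain ⟨q, hq⟩ := h (W' ++ Y) (by rw [forget_append, h1]; rfl) e
      (by rw [below_append' _ h2]; exact hb)
    refine ⟨q, fun Z hZ => ?_⟩
    rw [List.append_assoc] at hZ ⊢
    obtain ⟨h4, h5⟩ := h3 (Y ++ Z) hZ
    rw [hΛ.isotopy _ _ h5]
    rw [← List.append_assoc] at h4 ⊢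
    exact hq Z h4
  birthX := by
    intro c b x i y _ h V hV e hb
    obtain ⟨X, L, Y, rfl, rfl, hL, rfl⟩ := split3 hV
    obtain ⟨p, p', rfl, h1, h2⟩ := inv2 hL
    obtain ⟨o, rfl⟩ := inv_birth h1
    obtain rfl := inv_cx h2
    obtain ⟨n, d, m, e', hX, hbL, hY⟩ := below_split hb
    have hi : i ≤ n := by
      by_contra hi
      simp [below, OPiece.below, hi] at hbL
    have hbl := curlB_below (d := d) b o hi
    rw [hbl] at hbL
    obtain ⟨rfl, rfl⟩ : n + 2 = m ∧ insD i (!o) d = e' := by simpa using hbL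
    have hb' : below [.birth i (!o)] n d = some (n + 2, insD i (!o) d) := by
      rw [bl_birth _ _ _ hi, bl_nil]
    obtain ⟨q, hq⟩ := h (X ++ [.birth i (!o)] ++ Y) (by simp [forget, OPiece.forget]) e
      (below_mk hX hb' hY)
    refine ⟨q, fun Z hZ => ?_⟩
    have e1 : X ++ [.birth i o, ocx b i] ++ Y ++ Z = X ++ [.birth i o, ocx b i] ++ (Y ++ Z) := by
      simp
    have e2 : X ++ [.birth i (!o)] ++ Y ++ Z = X ++ [.birth i (!o)] ++ (Y ++ Z) := by simp
    rw [e1] at hZ ⊢
    have f := curlB hΛ b o hX hi hZ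
    rw [f.2, ← e2]
    exact hq Z (by rw [e2]; exact f.1)
  deathX := by
    intro c b x i y _ h V hV e hb
    obtain ⟨X, L, Y, rfl, rfl, hL, rfl⟩ := split3 hV
    obtain ⟨p, p', rfl, h1, h2⟩ := inv2 hL
    obtain rfl := inv_cx h1
    obtain rfl := inv_death h2
    obtain ⟨n, d, m, e', hX, hbL, hY⟩ := below_split hb
    have hi : i + 2 ≤ n := by
      by_contra hi
      cases b <;> simp [below, OPiece.below, hi, ocx] at hbL
    have hd : d (i + 1) = !d i := by
      rw [bl_ocx _ _ _ hi] at hbL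
      simp only [below, OPiece.below] at hbL
      split_ifs at hbL with hc
      · simp [swpD] at hc
        rw [hc.2]; simp
      · simp at hbL
    have hbl := curlD_below (d := d) b hi hd
    rw [hbl] at hbL
    obtain ⟨rfl, rfl⟩ : n - 2 = m ∧ delD i d = e' := by simpa using hbL
    have hb' : below [.death i] n d = some (n - 2, delD i d) := by
      rw [bl_death _ _ hi hd, bl_nil]
    obtain ⟨q, hq⟩ := h (X ++ [.death i] ++ Y) (by simp [forget, OPiece.forget]) e
      (below_mk hX hb' hY)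
    refine ⟨q, fun Z hZ => ?_⟩
    have e1 : X ++ [ocx b i, .death i] ++ Y ++ Z = X ++ [ocx b i, .death i] ++ (Y ++ Z) := by
      simp
    have e2 : X ++ [.death i] ++ Y ++ Z = X ++ [.death i] ++ (Y ++ Z) := by simp
    rw [e1] at hZ ⊢
    have f := curlD hΛ b hX hi hd hZ
    rw [f.2, ← e2]
    exact hq Z (by rw [e2]; exact f.1)
  cross := by
    intro c b x i y _ h1 h2 h3 V hV e hb
    obtain ⟨X, L, Y, rfl, rfl, hL, rfl⟩ := split3 hV
    obtain ⟨p, rfl, hp⟩ := inv1 hL
    obtain rfl := inv_cx hp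
    obtain ⟨n, d, m, e', hX, hbL, hY⟩ := below_split hb
    have hi : i + 2 ≤ n := by
      by_contra hi
      cases b <;> simp [below, OPiece.below, hi, ocx] at hbL
    have hdir : dirs X = d := by
      unfold dirs; rw [hX]; rfl
    have hbx : ∀ b, below [ocx b i] n d = some (n, swpD i d) := by
      intro b; rw [bl_ocx _ _ _ hi, bl_nil]
    rw [hbx b] at hbL
    obtain ⟨rfl, rfl⟩ : n = m ∧ swpD i d = e' := by simpa using hbL
    have hbb : ∀ b, below (X ++ [ocx b i] ++ Y) 0 noD = some (2, e) :=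
      fun b => below_mk hX (hbx b) hY
    have hcl : ∀ b' Z, OClosed (X ++ [ocx b i] ++ Y ++ Z) → OClosed (X ++ [ocx b' i] ++ (Y ++ Z)) :=
      fun b' Z hZ => by simpa using closed_ext (hbb b) (hbb b') hZ
    obtain ⟨q, hq⟩ := h1 (X ++ [ocx (!b) i] ++ Y) (by
      rw [forget_append, forget_append]
      congr 2
      simp [forget, forget_ocx]) e (hbb _)
    by_cases hd : d i = d (i + 1)
    · -- parallel
      have hs : below (X ++ Y) 0 noD = some (2, e) := by
        rw [below_append' _ hX, ← hY, e4 i d hd]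
      obtain ⟨r, hr⟩ := h2 (X ++ Y) (by rw [forget_append]) e hs
      have hsk : ∀ Z, OClosed (X ++ [ocx b i] ++ Y ++ Z) →
          lPow (-1) • Λ (X ++ [ocx false i] ++ (Y ++ Z)) -
            lPow 1 • Λ (X ++ [ocx true i] ++ (Y ++ Z)) = mPow 1 • Λ (X ++ Y ++ Z) := by
        intro Z hZ
        have := hΛ.parallel X i (Y ++ Z) (hcl false Z hZ) (by rw [hdir]; exact hd)
        rw [List.append_assoc X Y Z]
        exact this
      cases b
      · obtain ⟨t, ht⟩ := (skein_coef (M := M) q r).1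
        refine ⟨t, fun Z hZ => ?_⟩
        have f1 := ht _ _ _ (Λ (.birth 0 (e 0) :: Z)) (hsk Z hZ)
          (hr Z (closed_ext (hbb false) hs hZ))
          (by simpa using hq Z (closed_ext (hbb false) (hbb _) hZ))
        simpa using f1
      · obtain ⟨t, ht⟩ := (skein_coef (M := M) q r).2
        refine ⟨t, fun Z hZ => ?_⟩
        have f1 := ht _ _ _ (Λ (.birth 0 (e 0) :: Z)) (hsk Z hZ)
          (hr Z (closed_ext (hbb true) hs hZ))
          (by simpa using hq Z (closed_ext (hbb true) (hbb _) hZ))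
        simpa using f1
    · -- antiparallel
      have hd' : d (i + 1) = !d i := by
        cases h4 : d i <;> cases h5 : d (i + 1) <;> simp_all
      have hbs : below [.death i, .birth i (d (i + 1))] n d = some (n, swpD i d) := by
        rw [bl_death _ _ hi hd', bl_birth _ _ _ (by omega), e3 i d hd', bl_nil]
        congr 2
        omega
      have hs : below (X ++ [.death i, .birth i (d (i + 1))] ++ Y) 0 noD = some (2, e) :=
        below_mk hX hbs hY
      obtain ⟨r, hr⟩ := h3 (X ++ [.death i, .birth i (d (i + 1))] ++ Y) (by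
        rw [forget_append, forget_append]
        rfl) e hs
      have hsk : ∀ Z, OClosed (X ++ [ocx b i] ++ Y ++ Z) →
          lPow (-1) • Λ (X ++ [ocx true i] ++ (Y ++ Z)) -
            lPow 1 • Λ (X ++ [ocx false i] ++ (Y ++ Z)) =
              mPow 1 • Λ (X ++ [.death i, .birth i (d (i + 1))] ++ Y ++ Z) := by
        intro Z hZ
        have := hΛ.antiparallel X i (Y ++ Z) (hcl true Z hZ) (by rw [hdir]; exact hd)
        rw [hdir] at this
        rw [List.append_assoc _ Y Z]
        exact this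
      cases b
      · obtain ⟨t, ht⟩ := (skein_coef (M := M) q r).2
        refine ⟨t, fun Z hZ => ?_⟩
        have f1 := ht _ _ _ (Λ (.birth 0 (e 0) :: Z)) (hsk Z hZ)
          (hr Z (closed_ext (hbb false) hs hZ))
          (by simpa using hq Z (closed_ext (hbb false) (hbb _) hZ))
        simpa using f1
      · obtain ⟨t, ht⟩ := (skein_coef (M := M) q r).1
        refine ⟨t, fun Z hZ => ?_⟩
        have f1 := ht _ _ _ (Λ (.birth 0 (e 0) :: Z)) (hsk Z hZ)
          (hr Z (closed_ext (hbb true) hs hZ))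
          (by simpa using hq Z (closed_ext (hbb true) (hbb _) hZ))
        simpa using f1
  circ := by
    intro c x i y hok hw h V hV e hb
    obtain ⟨X, L, Y, rfl, rfl, hL, rfl⟩ := split3 hV
    obtain ⟨p, p', rfl, h1, h2⟩ := inv2 hL
    obtain ⟨o, rfl⟩ := inv_birth h1
    obtain rfl := inv_death h2
    obtain ⟨n, d, m, e', hX, hbL, hY⟩ := below_split hb
    have hi : i ≤ n := by
      by_contra hi
      simp [below, OPiece.below, hi] at hbL
    have hbb : below [.birth i o, .death i] n d = some (n, d) := by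
      rw [bl_birth _ _ _ hi, bl_death _ _ (by omega) (by simp [insD]), e5, bl_nil]
      simp
    rw [hbb] at hbL
    obtain ⟨rfl, rfl⟩ : n = m ∧ d = e' := by simpa using hbL
    have hs : below (X ++ Y) 0 noD = some (2, e) := by
      rw [below_append' _ hX, hY]
    obtain ⟨q, hq⟩ := h (X ++ Y) (by rw [forget_append]) e hs
    have hne : X ++ Y ≠ [] := by
      intro h0
      rw [h0] at hs
      simp [below] at hs
    refine ⟨mPow (-1) * (lPow (-1) * q) + -(mPow (-1) * (lPow 1 * q)), fun Z hZ => ?_⟩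
    have hZ' := closed_ext hb hs hZ
    have hYZ : ∃ e', below (Y ++ Z) n d = some (0, e') := by
      rw [List.append_assoc, oclosed_iff'] at hZ'
      rw [below_append' _ hX] at hZ'
      exact ⟨_, hZ'⟩
    obtain ⟨e', he'⟩ := hYZ
    have hc := circ hΛ o hX hi he' (by
      intro h0
      apply hne
      rw [← List.append_assoc] at h0
      exact (List.append_eq_nil_iff.1 h0).1)
    unfold CircAt at hc
    have hq' := hq Z hZ'
    rw [List.append_assoc X Y Z] at hq'
    rw [List.append_assoc _ Y Z]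
    refine (mm' _).symm.trans ?_
    rw [hc, hq', add_smul, neg_smul, mul_smul, mul_smul, mul_smul, mul_smul, smul_sub,
      sub_eq_add_neg]
  base := by
    intro V hV e hb
    obtain ⟨p, rfl, hp⟩ := inv1 hV
    obtain ⟨o, rfl⟩ := inv_birth hp
    refine ⟨1, fun Y _ => ?_⟩
    rw [bl_birth _ _ _ le_rfl, bl_nil] at hb
    obtain rfl : insD 0 o noD = e := by simpa using hb
    have : insD 0 o noD 0 = o := by simp [insD]
    rw [this, one_smul]
    rfl

end

theorem t_tanP : S_tanP := by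
  intro M _ _ Λ hΛ V e hV
  exact Loc.O.span2 (skT hΛ) (forget V) (width_forget V 0 noD 2 e hV) V rfl e hV

end Pool.Agent.Helper82_Alt.PTanP
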