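import Pool.Agent.Helper82_Alt.Spec2
import Pool.Agent.Helper82_Alt.B1

/-!
# Unions, Kauffman polynomial
-/

set_option autoImplicit false

namespace Pool.Agent.Helper82_Alt.PUniK

open Pool.Agent.Helper454.Kauf
open Pool.Agent.Helper454.Kauf.Piece (birth death pos neg)

theorem closed_app {A B : Word} (hA : Closed A) (hB : Closed B) : Closed (A ++ B) := by
  unfold Closed at *
  rw [width_append, hA, Option.bind_some, hB]

theorem reg_app {A A' B : Word} (h : RegIsotopic A A') (hB : Closed B) :
    RegIsotopic (A ++ B) (A' ++ B) := by
  induction h with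
  | rel a a' h =>
    obtain ⟨x, l, r, y, h1, h2, h3⟩ := h
    have h2' := closed_app h2 hB
    have h3' := closed_app h3 hB
    rw [List.append_assoc] at h2' h3' ⊢
    rw [List.append_assoc _ y B]
    exact Relation.EqvGen.rel _ _ (RegStep.mk x l r (y ++ B) h1 h2' h3')
  | refl a => exact Relation.EqvGen.refl _
  | symm a b _ ih => exact ih.symm
  | trans a b c _ _ ih1 ih2 => exact Relation.EqvGen.trans _ _ _ ih1 ih2

theorem pair_rules {K : Word → Raz} (hK : KauffmanRules K) {B : Word} (hB : Closed B) :
    KauffmanRules (fun A => (K A, K (A ++ B))) where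
  regular := by
    intro D E h
    exact Prod.ext (hK.regular _ _ h) (hK.regular _ _ (reg_app h hB))
  birthPos := by
    intro x i y h
    have h' := closed_app h hB
    rw [List.append_assoc] at h'
    refine Prod.ext (hK.birthPos x i y h) ?_
    simpa only [Prod.smul_mk, List.append_assoc] using hK.birthPos x i (y ++ B) h'
  birthNeg := by
    intro x i y h
    have h' := closed_app h hB
    rw [List.append_assoc] at h'
    refine Prod.ext (hK.birthNeg x i y h) ?_
    simpa only [Prod.smul_mk, List.append_assoc] using hK.birthNeg x i (y ++ B) h'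
  deathPos := by
    intro x i y h
    have h' := closed_app h hB
    rw [List.append_assoc] at h'
    refine Prod.ext (hK.deathPos x i y h) ?_
    simpa only [Prod.smul_mk, List.append_assoc] using hK.deathPos x i (y ++ B) h'
  deathNeg := by
    intro x i y h
    have h' := closed_app h hB
    rw [List.append_assoc] at h'
    refine Prod.ext (hK.deathNeg x i y h) ?_
    simpa only [Prod.smul_mk, List.append_assoc] using hK.deathNeg x i (y ++ B) h'
  skein := by
    intro x i y h
    have h' := closed_app h hB
    rw [List.append_assoc] at h'
    refine Prod.ext (hK.skein x i y h) ?_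
    simpa only [Prod.smul_mk, Prod.mk_add_mk, List.append_assoc] using hK.skein x i (y ++ B) h'

theorem t_uniK : S_uniK := by
  intro K hK hK1 A B hA hB hne hne'
  obtain ⟨p, _, hp⟩ := t_B1 (Raz × Raz) _ (pair_rules hK hB) A hA hne
  have h1 : K A = p := by
    have := congrArg Prod.fst hp
    simpa [hK1] using this
  have h2 : K (A ++ B) = p * K (circle ++ B) := by
    have := congrArg Prod.snd hp
    simpa using this
  have h3 := circ_any (x := []) (y := B) (n := 0) (i := 0) hK rfl le_rfl
    (by simpa using hB) (by simpa using hne')
  have h3' : zVar * K (circle ++ B) = (aPow 1 + aPow (-1) - zVar) * K B := by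
    simpa [circle, smul_eq_mul] using h3
  rw [h2, h1, ← mul_assoc, mul_comm zVar p, mul_assoc, h3']
  ring

end Pool.Agent.Helper82_Alt.PUniK
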