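import Pool.Agent.Helper82_Alt.Spec

/-!
# W1, W2, W3: orientations and writhe under the local moves
-/

set_option autoImplicit false
set_option linter.unusedSimpArgs false
set_option linter.unusedVariables false
set_option linter.unreachableTactic false
set_option linter.unusedTactic false

namespace Pool.Agent.Helper82_Alt.PW

open Pool.Agent.Helper454.Kauf (Piece Word Closed LocalMove FirstMove width)
open Pool.Agent.Helper454.Wh (OPiece OWord below noD forget OClosed insD delD swpD)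

/-! ### W2 -/

theorem t_W2 : S_W2 := by
  intro x y n d m e h
  induction x generalizing n d with
  | nil =>
    simp only [below, Option.some.injEq, Prod.mk.injEq] at h
    obtain ⟨rfl, rfl⟩ := h
    simp [writheFrom]
  | cons p x ih =>
    simp only [below] at h
    rcases h1 : p.below n d with _ | s
    · rw [h1] at h; simp at h
    · rw [h1] at h
      have h2 := ih s.1 s.2 h
      simp only [List.cons_append, writheFrom, h1, h2]
      ring

/-! ### pieces -/

/-- the piece at another position -/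
def mv (j : ℕ) : OPiece → OPiece
  | .birth _ b => .birth j b
  | .death _ => .death j
  | .pos _ => .pos j
  | .neg _ => .neg j

def act : OPiece → (ℕ → Bool) → (ℕ → Bool)
  | .birth i b, d => insD i b d
  | .death i, d => delD i d
  | .pos i, d => swpD i d
  | .neg i, d => swpD i d

def fitD : OPiece → Bool → Bool → Prop
  | .death _, x, y => y = !x
  | _, _, _ => True

instance (a : OPiece) (x y : Bool) : Decidable (fitD a x y) := by
  unfold fitD; cases a <;> infer_instance

def sgD : OPiece → Bool → Bool → ℤ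
  | .pos _, x, y => if x = y then 1 else -1
  | .neg _, x, y => if x = y then -1 else 1
  | _, _, _ => 0

abbrev ix (a : OPiece) : ℕ := a.forget.index
abbrev is (a : OPiece) : ℕ := a.forget.ins
abbrev os (a : OPiece) : ℕ := a.forget.outs

theorem below_eq (a : OPiece) (n : ℕ) (d : ℕ → Bool) :
    a.below n d = if ix a + is a ≤ n ∧ fitD a (d (ix a)) (d (ix a + 1)) then
      some (n - is a + os a, act a d) else none := by
  cases a <;> simp [OPiece.below, ix, is, os, OPiece.forget, Piece.index, Piece.ins, Piece.outs,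
    act, fitD]
  all_goals
    split_ifs with h
    · have : n - 2 + 2 = n := by omega
      rw [this]
    · rfl

theorem osign_eq (a : OPiece) (d : ℕ → Bool) : osign a d = sgD a (d (ix a)) (d (ix a + 1)) := by
  cases a <;> rfl

theorem act_lt (a : OPiece) (d : ℕ → Bool) (j : ℕ) (h : j < ix a) : act a d j = d j := by
  cases a <;> simp only [act, ix, OPiece.forget, Piece.index] at * <;>
    simp only [insD, delD, swpD] <;> split_ifs <;> first | rfl | (exfalso; omega)

theorem act_ge (a : OPiece) (d : ℕ → Bool) (j : ℕ) (h : ix a ≤ j) :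
    act a d (j + os a) = d (j + is a) := by
  cases a <;> simp only [act, ix, is, os, OPiece.forget, Piece.index, Piece.ins, Piece.outs] at * <;>
    simp only [insD, delD, swpD] <;> split_ifs <;> first | rfl | (exfalso; omega)

theorem ix_mv (j : ℕ) (a : OPiece) : ix (mv j a) = j := by cases a <;> rfl
theorem is_mv (j : ℕ) (a : OPiece) : is (mv j a) = is a := by cases a <;> rfl
theorem os_mv (j : ℕ) (a : OPiece) : os (mv j a) = os a := by cases a <;> rfl
theorem fitD_mv (j : ℕ) (a : OPiece) (x y : Bool) : fitD (mv j a) x y ↔ fitD a x y := by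
  cases a <;> rfl
theorem sgD_mv (j : ℕ) (a : OPiece) (x y : Bool) : sgD (mv j a) x y = sgD a x y := by
  cases a <;> rfl
theorem mv_ix (a : OPiece) : mv (ix a) a = a := by cases a <;> rfl
theorem mv_mv (i j : ℕ) (a : OPiece) : mv i (mv j a) = mv i a := by cases a <;> rfl
theorem forget_mv (j : ℕ) (a : OPiece) : (mv j a).forget = a.forget.moved j := by cases a <;> rfl

/-- the directions of the new strands -/
def nw : OPiece → ℕ → Bool → Bool → Bool
  | .birth _ b, r, _, _ => if r = 0 then b else !b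
  | .death _, _, _, _ => true
  | .pos _, r, x, y => if r = 0 then y else x
  | .neg _, r, x, y => if r = 0 then y else x

theorem act_mid (a : OPiece) (d : ℕ → Bool) (r : ℕ) (h : r < os a) :
    act a d (ix a + r) = nw a r (d (ix a)) (d (ix a + 1)) := by
  cases a <;> simp only [act, ix, is, os, OPiece.forget, Piece.index, Piece.ins, Piece.outs, nw] at *
  · have : r = 0 ∨ r = 1 := by omega
    rcases this with rfl | rfl <;> simp [insD]
  · omega
  · have : r = 0 ∨ r = 1 := by omega
    rcases this with rfl | rfl <;> simp [swpD]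
  · have : r = 0 ∨ r = 1 := by omega
    rcases this with rfl | rfl <;> simp [swpD]

theorem nw_congr (a : OPiece) (r : ℕ) (x y x' y' : Bool) (h : is a = 2 → x = x' ∧ y = y') :
    nw a r x y = nw a r x' y' := by
  cases a with
  | birth i b => rfl
  | death i => rfl
  | pos i => obtain ⟨rfl, rfl⟩ := h rfl; rfl
  | neg i => obtain ⟨rfl, rfl⟩ := h rfl; rfl

theorem nw_mv (j : ℕ) (a : OPiece) (r : ℕ) (x y : Bool) : nw (mv j a) r x y = nw a r x y := by
  cases a <;> rfl

theorem act_comm (p q : OPiece) (d : ℕ → Bool) (k : ℕ) (hk : ix p ≤ k) (hq : ix q = k + is p) :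
    act (mv (k + os p) q) (act p d) = act p (act q d) := by
  funext j
  by_cases h1 : j < ix p
  · rw [act_lt _ _ j (by rw [ix_mv]; omega), act_lt p d j h1, act_lt p _ j h1,
      act_lt q d j (by omega)]
  by_cases h2 : j < ix p + os p
  · obtain ⟨r, rfl⟩ : ∃ r, j = ix p + r := ⟨j - ix p, by omega⟩
    rw [act_lt _ _ _ (by rw [ix_mv]; omega), act_mid p d r (by omega), act_mid p _ r (by omega)]
    apply nw_congr
    intro h3
    exact ⟨(act_lt q d _ (by omega)).symm, (act_lt q d _ (by omega)).symm⟩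
  obtain ⟨j', rfl⟩ : ∃ j', j = j' + os p := ⟨j - os p, by omega⟩
  rw [act_ge p (act q d) j' (by omega)]
  by_cases h3 : j' < k
  · rw [act_lt _ _ _ (by rw [ix_mv]; omega), act_ge p d j' (by omega), act_lt q d _ (by omega)]
  by_cases h4 : j' < k + os q
  · obtain ⟨r, rfl⟩ : ∃ r, j' = k + r := ⟨j' - k, by omega⟩
    have e1 : k + r + os p = ix (mv (k + os p) q) + r := by rw [ix_mv]; omega
    have e2 : k + r + is p = ix q + r := by omega
    rw [e1, act_mid _ _ r (by rw [os_mv]; omega), e2, act_mid q d r (by omega), nw_mv, ix_mv]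
    have e3 : act p d (k + os p) = d (ix q) := by rw [act_ge p d k hk, hq]
    have e4 : act p d (k + os p + 1) = d (ix q + 1) := by
      have := act_ge p d (k + 1) (by omega)
      rw [show k + os p + 1 = k + 1 + os p by omega, this, hq]
      congr 1
      omega
    rw [e3, e4]
  obtain ⟨i, rfl⟩ : ∃ i, j' = i + os q := ⟨j' - os q, by omega⟩
  have e1 : i + os q + os p = i + os p + os (mv (k + os p) q) := by rw [os_mv]; omega
  have e2 : i + os q + is p = i + is p + os q := by omega
  rw [e1, act_ge _ _ _ (by rw [ix_mv]; omega), e2, act_ge q d _ (by omega), is_mv]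
  have e3 : i + os p + is q = i + is q + os p := by omega
  rw [e3, act_ge p d _ (by omega)]
  congr 1
  omega

theorem below2 (a b : OPiece) (n : ℕ) (d : ℕ → Bool) :
    below [a, b] n d = if (ix a + is a ≤ n ∧ fitD a (d (ix a)) (d (ix a + 1))) ∧
      (ix b + is b ≤ n - is a + os a ∧ fitD b (act a d (ix b)) (act a d (ix b + 1))) then
      some (n - is a + os a - is b + os b, act b (act a d)) else none := by
  simp only [below]
  rw [below_eq a]
  split_ifs with h1 h2 h2
  · simp only [Option.bind_some]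
    rw [below_eq b, if_pos h2.2]
    rfl
  · simp only [Option.bind_some]
    rw [below_eq b, if_neg (fun h => h2 ⟨h1, h⟩)]
    rfl
  · exact absurd h2.1 h1
  · rfl

theorem exch (p q : OPiece) (k : ℕ) (hk : ix p ≤ k) (hq : ix q = k + is p) (n : ℕ)
    (d : ℕ → Bool) : below [p, mv (k + os p) q] n d = below [q, p] n d := by
  rw [below2, below2, ix_mv, is_mv, os_mv, act_comm p q d k hk hq]
  have e1 : act p d (k + os p) = d (ix q) := by rw [act_ge p d k hk, hq]
  have e2 : act p d (k + os p + 1) = d (ix q + 1) := by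
    have := act_ge p d (k + 1) (by omega)
    rw [show k + os p + 1 = k + 1 + os p by omega, this, hq]
    congr 1
    omega
  have e5 : is p = 0 ∨ is p = 2 := by cases p <;> simp [is, OPiece.forget, Piece.ins]
  have e6 : is q = 0 ∨ is q = 2 := by cases q <;> simp [is, OPiece.forget, Piece.ins]
  have e7 : os p = 0 ∨ os p = 2 := by cases p <;> simp [os, OPiece.forget, Piece.outs]
  have e8 : os q = 0 ∨ os q = 2 := by cases q <;> simp [os, OPiece.forget, Piece.outs]
  have e3 : fitD p (act q d (ix p)) (act q d (ix p + 1)) ↔ fitD p (d (ix p)) (d (ix p + 1)) := by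
    cases p with
    | death i =>
      have hi : i ≤ k := hk
      have h1 : act q d (ix (OPiece.death i)) = d (ix (OPiece.death i)) := by
        apply act_lt
        rw [hq]
        show i < k + 2
        omega
      have h2 : act q d (ix (OPiece.death i) + 1) = d (ix (OPiece.death i) + 1) := by
        apply act_lt
        rw [hq]
        show i + 1 < k + 2
        omega
      rw [h1, h2]
    | _ => rfl
  rw [e1, e2]
  simp only [e3, fitD_mv]
  have hc : ((ix p + is p ≤ n ∧ fitD p (d (ix p)) (d (ix p + 1))) ∧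
      k + os p + is q ≤ n - is p + os p ∧ fitD q (d (ix q)) (d (ix q + 1))) ↔
      ((ix q + is q ≤ n ∧ fitD q (d (ix q)) (d (ix q + 1))) ∧
      ix p + is p ≤ n - is q + os q ∧ fitD p (d (ix p)) (d (ix p + 1))) := by
    constructor
    · rintro ⟨⟨h1, h2⟩, h3, h4⟩
      refine ⟨⟨?_, h4⟩, ?_, h2⟩
      · omega
      · omega
    · rintro ⟨⟨h1, h2⟩, h3, h4⟩
      refine ⟨⟨?_, h4⟩, ?_, h2⟩
      · omega
      · omega
  by_cases h : ((ix p + is p ≤ n ∧ fitD p (d (ix p)) (d (ix p + 1))) ∧
      k + os p + is q ≤ n - is p + os p ∧ fitD q (d (ix q)) (d (ix q + 1)))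
  · rw [if_pos h, if_pos (hc.1 h)]
    congr 2
    obtain ⟨⟨h1, h2⟩, h3, h4⟩ := h
    omega
  · rw [if_neg h, if_neg (fun h' => h (hc.2 h'))]

theorem writhe2 (a b : OPiece) (n : ℕ) (d : ℕ → Bool) (h : (below [a, b] n d).isSome) :
    writheFrom [a, b] n d = sgD a (d (ix a)) (d (ix a + 1)) +
      sgD b (act a d (ix b)) (act a d (ix b + 1)) := by
  rw [below2] at h
  split_ifs at h with h1
  · simp only [writheFrom]
    rw [below_eq a, if_pos h1.1]
    simp only
    rw [osign_eq, osign_eq, below_eq b, if_pos h1.2]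
    simp
  · simp at h

theorem exch_writhe (p q : OPiece) (k : ℕ) (hk : ix p ≤ k) (hq : ix q = k + is p) (n : ℕ)
    (d : ℕ → Bool) (h : (below [q, p] n d).isSome) :
    writheFrom [p, mv (k + os p) q] n d = writheFrom [q, p] n d := by
  rw [writhe2 q p n d h, writhe2 p _ n d (by rw [exch p q k hk hq]; exact h), ix_mv]
  have e1 : act p d (k + os p) = d (ix q) := by rw [act_ge p d k hk, hq]
  have e2 : act p d (k + os p + 1) = d (ix q + 1) := by
    have := act_ge p d (k + 1) (by omega)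
    rw [show k + os p + 1 = k + 1 + os p by omega, this, hq]
    congr 1
    omega
  have e3 : sgD p (act q d (ix p)) (act q d (ix p + 1)) = sgD p (d (ix p)) (d (ix p + 1)) := by
    cases p with
    | birth i b => rfl
    | death i => rfl
    | pos i =>
      have hi : i ≤ k := hk
      have h1 : act q d (ix (OPiece.pos i)) = d (ix (OPiece.pos i)) := by
        apply act_lt
        rw [hq]
        show i < k + 2
        omega
      have h2 : act q d (ix (OPiece.pos i) + 1) = d (ix (OPiece.pos i) + 1) := by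
        apply act_lt
        rw [hq]
        show i + 1 < k + 2
        omega
      rw [h1, h2]
    | neg i =>
      have hi : i ≤ k := hk
      have h1 : act q d (ix (OPiece.neg i)) = d (ix (OPiece.neg i)) := by
        apply act_lt
        rw [hq]
        show i < k + 2
        omega
      have h2 : act q d (ix (OPiece.neg i) + 1) = d (ix (OPiece.neg i) + 1) := by
        apply act_lt
        rw [hq]
        show i + 1 < k + 2
        omega
      rw [h1, h2]
  rw [e1, e2, e3, sgD_mv]
  ring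

/-! ### inversion of `forget` -/

theorem fcons {L : OWord} {p : Piece} {w : Word} (h : forget L = p :: w) :
    ∃ a M, L = a :: M ∧ a.forget = p ∧ forget M = w := by
  cases L with
  | nil => simp [forget] at h
  | cons a M =>
    simp only [forget, List.map_cons, List.cons.injEq] at h
    exact ⟨a, M, rfl, h.1, h.2⟩

theorem fnil {L : OWord} (h : forget L = []) : L = [] := by
  cases L with
  | nil => rfl
  | cons a M => simp [forget] at h

theorem f1 {L : OWord} {p : Piece} (h : forget L = [p]) : ∃ a, L = [a] ∧ a.forget = p := by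
  obtain ⟨a, M, rfl, h1, h2⟩ := fcons h
  rw [fnil h2]
  exact ⟨a, rfl, h1⟩

theorem f2 {L : OWord} {p q : Piece} (h : forget L = [p, q]) :
    ∃ a b, L = [a, b] ∧ a.forget = p ∧ b.forget = q := by
  obtain ⟨a, M, rfl, h1, h2⟩ := fcons h
  obtain ⟨b, rfl, h3⟩ := f1 h2
  exact ⟨a, b, rfl, h1, h3⟩

theorem f3 {L : OWord} {p q r : Piece} (h : forget L = [p, q, r]) :
    ∃ a b c, L = [a, b, c] ∧ a.forget = p ∧ b.forget = q ∧ c.forget = r := by
  obtain ⟨a, M, rfl, h1, h2⟩ := fcons h
  obtain ⟨b, c, rfl, h3, h4⟩ := f2 h2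
  exact ⟨a, b, c, rfl, h1, h3, h4⟩

theorem fbirth {a : OPiece} {i : ℕ} (h : a.forget = .birth i) : ∃ b, a = .birth i b := by
  cases a <;> simp [OPiece.forget] at h
  exact ⟨_, by rw [h]⟩

theorem fdeath {a : OPiece} {i : ℕ} (h : a.forget = .death i) : a = .death i := by
  cases a <;> simp [OPiece.forget] at h
  rw [h]

theorem fpos {a : OPiece} {i : ℕ} (h : a.forget = .pos i) : a = .pos i := by
  cases a <;> simp [OPiece.forget] at h
  rw [h]

theorem fneg {a : OPiece} {i : ℕ} (h : a.forget = .neg i) : a = .neg i := by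
  cases a <;> simp [OPiece.forget] at h
  rw [h]

/-- two oriented pieces over the same piece are equal, except for births -/
theorem same_sgD {a b : OPiece} (h : a.forget = b.forget) (x y : Bool) : sgD a x y = sgD b x y := by
  cases a <;> cases b <;> simp [OPiece.forget] at h <;> rfl

/-! ### directions -/

theorem dZ1 (i : ℕ) (b : Bool) (d : ℕ → Bool) (h : d i = b) : delD (i + 1) (insD i b d) = d := by
  funext k
  simp only [insD, delD]
  split_ifs <;> first | rfl | (exfalso; omega) | (subst h; congr 1; omega) | (congr 1; omega)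

theorem dZ2 (i : ℕ) (b : Bool) (d : ℕ → Bool) (h : b = !d i) :
    delD i (insD (i + 1) b d) = d := by
  subst h
  funext k
  simp only [insD, delD]
  split_ifs <;> first | rfl | (exfalso; omega) | (rw [Bool.not_not]; congr 1; omega) |
    (congr 1; omega)

theorem dSB (i : ℕ) (b : Bool) (d : ℕ → Bool) :
    swpD (i + 1) (insD i b d) = swpD i (insD (i + 1) b d) := by
  funext k
  simp only [insD, swpD]
  split_ifs <;> first | rfl | (exfalso; omega) | (congr 1; omega)

theorem dSD (i : ℕ) (d : ℕ → Bool) : delD i (swpD (i + 1) d) = delD (i + 1) (swpD i d) := by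
  funext k
  simp only [delD, swpD]
  split_ifs <;> first | rfl | (exfalso; omega) | (congr 1; omega)

theorem dR2 (i : ℕ) (d : ℕ → Bool) : swpD i (swpD i d) = d := by
  funext k
  simp only [swpD]
  split_ifs <;> first | rfl | (exfalso; omega) | (congr 1; omega)

theorem dR3 (i : ℕ) (d : ℕ → Bool) : swpD i (swpD (i + 1) (swpD i d)) =
    swpD (i + 1) (swpD i (swpD (i + 1) d)) := by
  funext k
  simp only [swpD]
  split_ifs <;> first | rfl | (exfalso; omega) | (congr 1; omega)

theorem i0 (i : ℕ) (b : Bool) (d : ℕ → Bool) : insD i b d i = b := by simp [insD]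
theorem i1 (i : ℕ) (b : Bool) (d : ℕ → Bool) : insD i b d (i + 1) = !b := by simp [insD]
theorem i2 (i : ℕ) (b : Bool) (d : ℕ → Bool) : insD i b d (i + 2) = d i := by
  simp [insD]
theorem im (i : ℕ) (b : Bool) (d : ℕ → Bool) : insD (i + 1) b d i = d i := by simp [insD]
theorem s0 (i : ℕ) (d : ℕ → Bool) : swpD i d i = d (i + 1) := by simp [swpD]
theorem s1 (i : ℕ) (d : ℕ → Bool) : swpD i d (i + 1) = d i := by simp [swpD]
theorem s2 (i : ℕ) (d : ℕ → Bool) : swpD i d (i + 2) = d (i + 2) := by simp [swpD]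
theorem sm (i : ℕ) (d : ℕ → Bool) : swpD (i + 1) d i = d i := by
  simp only [swpD]
  rw [if_neg (by omega), if_neg (by omega)]

/-- the state below -/
theorem bB (i n : ℕ) (b : Bool) (w : OWord) (d : ℕ → Bool) (h : i ≤ n) :
    below (.birth i b :: w) n d = below w (n + 2) (insD i b d) := by
  simp only [below, OPiece.below, if_pos h, Option.bind_some]

theorem bD (i n : ℕ) (w : OWord) (d : ℕ → Bool) (h : i + 2 ≤ n) (h' : d (i + 1) = !d i) :
    below (.death i :: w) n d = below w (n - 2) (delD i d) := by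
  simp only [below, OPiece.below, if_pos (And.intro h h'), Option.bind_some]

theorem bP (i n : ℕ) (w : OWord) (d : ℕ → Bool) (h : i + 2 ≤ n) :
    below (.pos i :: w) n d = below w n (swpD i d) := by
  simp only [below, OPiece.below, if_pos h, Option.bind_some]

theorem bN (i n : ℕ) (w : OWord) (d : ℕ → Bool) (h : i + 2 ≤ n) :
    below (.neg i :: w) n d = below w n (swpD i d) := by
  simp only [below, OPiece.below, if_pos h, Option.bind_some]

theorem iB {i n : ℕ} {b : Bool} {w : OWord} {d : ℕ → Bool} {s : ℕ × (ℕ → Bool)}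
    (h : below (.birth i b :: w) n d = some s) : i ≤ n ∧ below w (n + 2) (insD i b d) = some s := by
  by_cases h1 : i ≤ n
  · rw [bB i n b w d h1] at h; exact ⟨h1, h⟩
  · simp [below, OPiece.below, h1] at h

theorem iD {i n : ℕ} {w : OWord} {d : ℕ → Bool} {s : ℕ × (ℕ → Bool)}
    (h : below (.death i :: w) n d = some s) :
    i + 2 ≤ n ∧ d (i + 1) = !d i ∧ below w (n - 2) (delD i d) = some s := by
  by_cases h1 : i + 2 ≤ n ∧ d (i + 1) = !d i
  · rw [bD i n w d h1.1 h1.2] at h; exact ⟨h1.1, h1.2, h⟩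
  · simp only [below, OPiece.below, if_neg h1, Option.bind_none] at h
    exact absurd h (by simp)

theorem iP {i n : ℕ} {w : OWord} {d : ℕ → Bool} {s : ℕ × (ℕ → Bool)}
    (h : below (.pos i :: w) n d = some s) : i + 2 ≤ n ∧ below w n (swpD i d) = some s := by
  by_cases h1 : i + 2 ≤ n
  · rw [bP i n w d h1] at h; exact ⟨h1, h⟩
  · simp [below, OPiece.below, h1] at h

theorem iN {i n : ℕ} {w : OWord} {d : ℕ → Bool} {s : ℕ × (ℕ → Bool)}
    (h : below (.neg i :: w) n d = some s) : i + 2 ≤ n ∧ below w n (swpD i d) = some s := by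
  by_cases h1 : i + 2 ≤ n
  · rw [bN i n w d h1] at h; exact ⟨h1, h⟩
  · simp [below, OPiece.below, h1] at h

theorem i_nil {n : ℕ} {d : ℕ → Bool} {s : ℕ × (ℕ → Bool)} (h : below [] n d = some s) :
    n = s.1 ∧ d = s.2 := by
  simp only [below, Option.some.injEq] at h
  rw [← h]
  exact ⟨rfl, rfl⟩

theorem some_ext {n m : ℕ} {d e : ℕ → Bool} (h1 : n = m) (h2 : d = e) :
    below [] n d = some (m, e) := by
  rw [h1, h2]; rfl

theorem wB' (i : ℕ) (b : Bool) (w : OWord) (n : ℕ) (d : ℕ → Bool) (h : i ≤ n) :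
    writheFrom (.birth i b :: w) n d = writheFrom w (n + 2) (insD i b d) := by
  simp [writheFrom, osign, OPiece.below, h]

theorem wD' (i : ℕ) (w : OWord) (n : ℕ) (d : ℕ → Bool) (h : i + 2 ≤ n) (h' : d (i + 1) = !d i) :
    writheFrom (.death i :: w) n d = writheFrom w (n - 2) (delD i d) := by
  simp [writheFrom, osign, OPiece.below, h, h']

theorem wP' (i : ℕ) (w : OWord) (n : ℕ) (d : ℕ → Bool) (h : i + 2 ≤ n) :
    writheFrom (.pos i :: w) n d = (if d i = d (i + 1) then 1 else -1) +
      writheFrom w n (swpD i d) := by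
  simp [writheFrom, osign, OPiece.below, h]

theorem wN' (i : ℕ) (w : OWord) (n : ℕ) (d : ℕ → Bool) (h : i + 2 ≤ n) :
    writheFrom (.neg i :: w) n d = (if d i = d (i + 1) then -1 else 1) +
      writheFrom w n (swpD i d) := by
  simp [writheFrom, osign, OPiece.below, h]

theorem w_nil (n : ℕ) (d : ℕ → Bool) : writheFrom [] n d = 0 := rfl

/-! ### W3 -/

theorem w3_fwd {l r : Word} (hm : LocalMove l r) (L : OWord) (n : ℕ) (d : ℕ → Bool) (m : ℕ)
    (e : ℕ → Bool) (hL : forget L = l) (hb : below L n d = some (m, e)) :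
    ∃ R : OWord, forget R = r ∧ below R n d = some (m, e) := by
  cases hm with
  | exchange p q h =>
    obtain ⟨a, b, rfl, h1, h2⟩ := f2 hL
    have hix : ix (mv q.index b) = q.index := ix_mv _ _
    have hpq : p.ins ≤ q.index := le_trans (Nat.le_add_left _ _) h
    have hm1 : mv (q.index - p.ins + os a) (mv q.index b) = b := by
      rw [mv_mv]
      have : ix b = q.index - p.ins + os a := by
        show b.forget.index = q.index - p.ins + a.forget.outs
        rw [h2, h1]
        have : (q.moved (q.index + p.outs - p.ins)).index = q.index + p.outs - p.ins := by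
          cases q <;> rfl
        rw [this]
        omega
      rw [← this, mv_ix]
    have e1 := exch a (mv q.index b) (q.index - p.ins)
      (by show a.forget.index ≤ _; rw [h1]; omega)
      (by rw [ix_mv]; show _ = _ + a.forget.ins; rw [h1]; omega) n d
    rw [hm1] at e1
    refine ⟨[mv q.index b, a], ?_, by rw [← e1]; exact hb⟩
    simp only [forget, List.map_cons, List.map_nil, forget_mv, h1, h2]
    congr 1
    cases q <;> rfl
  | zigzag₁ i =>
    obtain ⟨a, b, rfl, h1, h2⟩ := f2 hL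
    obtain ⟨c, rfl⟩ := fbirth h1
    obtain rfl := fdeath h2
    obtain ⟨g1, hb⟩ := iB hb
    obtain ⟨g2, g3, hb⟩ := iD hb
    obtain ⟨g4, g5⟩ := i_nil hb
    rw [i2, i1, Bool.not_not] at g3
    rw [dZ1 i c d g3] at g5
    exact ⟨[], rfl, some_ext g4 g5⟩
  | zigzag₂ i =>
    obtain ⟨a, b, rfl, h1, h2⟩ := f2 hL
    obtain ⟨c, rfl⟩ := fbirth h1
    obtain rfl := fdeath h2
    obtain ⟨g1, hb⟩ := iB hb
    obtain ⟨g2, g3, hb⟩ := iD hb
    obtain ⟨g4, g5⟩ := i_nil hb
    rw [i0, im] at g3
    rw [dZ2 i c d g3] at g5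
    exact ⟨[], rfl, some_ext g4 g5⟩
  | slideBirth₁ i =>
    obtain ⟨a, b, rfl, h1, h2⟩ := f2 hL
    obtain ⟨c, rfl⟩ := fbirth h1
    obtain rfl := fpos h2
    obtain ⟨g1, hb⟩ := iB hb
    obtain ⟨g2, hb⟩ := iP hb
    refine ⟨[.birth (i + 1) c, .neg i], rfl, ?_⟩
    rw [bB _ _ _ _ _ (by omega), bN _ _ _ _ (by omega), ← dSB, hb]
  | slideBirth₂ i =>
    obtain ⟨a, b, rfl, h1, h2⟩ := f2 hL
    obtain ⟨c, rfl⟩ := fbirth h1
    obtain rfl := fneg h2
    obtain ⟨g1, hb⟩ := iB hb
    obtain ⟨g2, hb⟩ := iN hb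
    refine ⟨[.birth (i + 1) c, .pos i], rfl, ?_⟩
    rw [bB _ _ _ _ _ (by omega), bP _ _ _ _ (by omega), ← dSB, hb]
  | slideDeath₁ i =>
    obtain ⟨a, b, rfl, h1, h2⟩ := f2 hL
    obtain rfl := fpos h1
    obtain rfl := fdeath h2
    obtain ⟨g1, hb⟩ := iP hb
    obtain ⟨g2, g3, hb⟩ := iD hb
    rw [s0, sm] at g3
    refine ⟨[.neg i, .death (i + 1)], rfl, ?_⟩
    rw [bN _ _ _ _ (by omega), bD _ _ _ _ (by omega) (by rw [s2, s1]; exact g3), ← dSD, hb]
  | slideDeath₂ i =>
    obtain ⟨a, b, rfl, h1, h2⟩ := f2 hL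
    obtain rfl := fneg h1
    obtain rfl := fdeath h2
    obtain ⟨g1, hb⟩ := iN hb
    obtain ⟨g2, g3, hb⟩ := iD hb
    rw [s0, sm] at g3
    refine ⟨[.pos i, .death (i + 1)], rfl, ?_⟩
    rw [bP _ _ _ _ (by omega), bD _ _ _ _ (by omega) (by rw [s2, s1]; exact g3), ← dSD, hb]
  | second₁ i =>
    obtain ⟨a, b, rfl, h1, h2⟩ := f2 hL
    obtain rfl := fpos h1
    obtain rfl := fneg h2
    obtain ⟨g1, hb⟩ := iP hb
    obtain ⟨g2, hb⟩ := iN hb
    rw [dR2] at hb
    exact ⟨[], rfl, hb⟩
  | second₂ i =>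
    obtain ⟨a, b, rfl, h1, h2⟩ := f2 hL
    obtain rfl := fneg h1
    obtain rfl := fpos h2
    obtain ⟨g1, hb⟩ := iN hb
    obtain ⟨g2, hb⟩ := iP hb
    rw [dR2] at hb
    exact ⟨[], rfl, hb⟩
  | third i =>
    obtain ⟨a, b, c, rfl, h1, h2, h3⟩ := f3 hL
    obtain rfl := fpos h1
    obtain rfl := fpos h2
    obtain rfl := fpos h3
    obtain ⟨g1, hb⟩ := iP hb
    obtain ⟨g2, hb⟩ := iP hb
    obtain ⟨g3, hb⟩ := iP hb
    refine ⟨[.pos (i + 1), .pos i, .pos (i + 1)], rfl, ?_⟩
    rw [bP _ _ _ _ (by omega), bP _ _ _ _ (by omega), bP _ _ _ _ (by omega), ← dR3, hb]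

theorem w3_bwd {l r : Word} (hm : LocalMove r l) (L : OWord) (n : ℕ) (d : ℕ → Bool) (m : ℕ)
    (e : ℕ → Bool) (hL : forget L = l) (hb : below L n d = some (m, e))
    (hw : width r n = some m) :
    ∃ R : OWord, forget R = r ∧ below R n d = some (m, e) := by
  cases hm with
  | exchange p q h =>
    obtain ⟨b, a, rfl, h1, h2⟩ := f2 hL
    have hpq : p.ins ≤ q.index := le_trans (Nat.le_add_left _ _) h
    have e1 := exch a b (q.index - p.ins)
      (by show a.forget.index ≤ _; rw [h2]; omega)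
      (by show b.forget.index = _ + a.forget.ins; rw [h1, h2]; omega) n d
    refine ⟨[a, mv (q.index - p.ins + os a) b], ?_, by rw [e1]; exact hb⟩
    simp only [forget, List.map_cons, List.map_nil, forget_mv, h1, h2]
    have : q.index - p.ins + os a = q.index + p.outs - p.ins := by
      show q.index - p.ins + a.forget.outs = _
      rw [h2]
      omega
    rw [this]
  | zigzag₁ i =>
    obtain rfl := fnil hL
    obtain ⟨g4, g5⟩ := i_nil hb
    simp only [width, Piece.width] at hw
    have h1 : i < n := by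
      by_contra h1
      split_ifs at hw with h2
      · simp only [Option.bind_some] at hw
        rw [if_neg (by omega)] at hw
        simp at hw
      · simp at hw
    refine ⟨[.birth i (d i), .death (i + 1)], rfl, ?_⟩
    rw [bB _ _ _ _ _ (by omega), bD _ _ _ _ (by omega) (by rw [i2, i1, Bool.not_not]),
      dZ1 i _ d rfl]
    exact some_ext g4 g5
  | zigzag₂ i =>
    obtain rfl := fnil hL
    obtain ⟨g4, g5⟩ := i_nil hb
    simp only [width, Piece.width] at hw
    have h1 : i < n := by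
      by_contra h1
      rw [if_neg (by omega)] at hw
      simp at hw
    refine ⟨[.birth (i + 1) (!d i), .death i], rfl, ?_⟩
    rw [bB _ _ _ _ _ (by omega), bD _ _ _ _ (by omega) (by rw [i0, im]),
      dZ2 i _ d rfl]
    exact some_ext g4 g5
  | slideBirth₁ i =>
    obtain ⟨a, b, rfl, h1, h2⟩ := f2 hL
    obtain ⟨c, rfl⟩ := fbirth h1
    obtain rfl := fneg h2
    obtain ⟨g1, hb⟩ := iB hb
    obtain ⟨g2, hb⟩ := iN hb
    refine ⟨[.birth i c, .pos (i + 1)], rfl, ?_⟩
    rw [bB _ _ _ _ _ (by omega), bP _ _ _ _ (by omega), dSB, hb]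
  | slideBirth₂ i =>
    obtain ⟨a, b, rfl, h1, h2⟩ := f2 hL
    obtain ⟨c, rfl⟩ := fbirth h1
    obtain rfl := fpos h2
    obtain ⟨g1, hb⟩ := iB hb
    obtain ⟨g2, hb⟩ := iP hb
    refine ⟨[.birth i c, .neg (i + 1)], rfl, ?_⟩
    rw [bB _ _ _ _ _ (by omega), bN _ _ _ _ (by omega), dSB, hb]
  | slideDeath₁ i =>
    obtain ⟨a, b, rfl, h1, h2⟩ := f2 hL
    obtain rfl := fneg h1
    obtain rfl := fdeath h2
    obtain ⟨g1, hb⟩ := iN hb
    obtain ⟨g2, g3, hb⟩ := iD hb
    rw [s2, s1] at g3
    refine ⟨[.pos (i + 1), .death i], rfl, ?_⟩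
    rw [bP _ _ _ _ (by omega), bD _ _ _ _ (by omega) (by rw [s0, sm]; exact g3), dSD, hb]
  | slideDeath₂ i =>
    obtain ⟨a, b, rfl, h1, h2⟩ := f2 hL
    obtain rfl := fpos h1
    obtain rfl := fdeath h2
    obtain ⟨g1, hb⟩ := iP hb
    obtain ⟨g2, g3, hb⟩ := iD hb
    rw [s2, s1] at g3
    refine ⟨[.neg (i + 1), .death i], rfl, ?_⟩
    rw [bN _ _ _ _ (by omega), bD _ _ _ _ (by omega) (by rw [s0, sm]; exact g3), dSD, hb]
  | second₁ i =>
    obtain rfl := fnil hL
    simp only [width, Piece.width] at hw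
    have h1 : i + 2 ≤ n := by
      by_contra h1
      rw [if_neg h1] at hw
      simp at hw
    refine ⟨[.pos i, .neg i], rfl, ?_⟩
    rw [bP _ _ _ _ h1, bN _ _ _ _ h1, dR2, hb]
  | second₂ i =>
    obtain rfl := fnil hL
    simp only [width, Piece.width] at hw
    have h1 : i + 2 ≤ n := by
      by_contra h1
      rw [if_neg h1] at hw
      simp at hw
    refine ⟨[.neg i, .pos i], rfl, ?_⟩
    rw [bN _ _ _ _ h1, bP _ _ _ _ h1, dR2, hb]
  | third i =>
    obtain ⟨a, b, c, rfl, h1, h2, h3⟩ := f3 hL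
    obtain rfl := fpos h1
    obtain rfl := fpos h2
    obtain rfl := fpos h3
    obtain ⟨g1, hb⟩ := iP hb
    obtain ⟨g2, hb⟩ := iP hb
    obtain ⟨g3, hb⟩ := iP hb
    refine ⟨[.pos i, .pos (i + 1), .pos i], rfl, ?_⟩
    rw [bP _ _ _ _ (by omega), bP _ _ _ _ (by omega), bP _ _ _ _ (by omega), dR3, hb]

theorem t_W3 : S_W3 := by
  intro l r L n d m e hm hL hb hw
  rcases hm with hm | hm
  · exact w3_fwd hm L n d m e hL hb
  · exact w3_bwd hm L n d m e hL hb hw

/-! ### W1 -/

theorem w1_local {l r : Word} (hm : LocalMove l r) (L R : OWord) (n : ℕ) (d : ℕ → Bool)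
    (hL : forget L = l) (hR : forget R = r) (s : ℕ × (ℕ → Bool)) (hb : below L n d = some s)
    (hc : below R n d = some s) : writheFrom L n d = writheFrom R n d := by
  cases hm with
  | exchange p q h =>
    obtain ⟨a, b, rfl, h1, h2⟩ := f2 hL
    obtain ⟨b', a', rfl, h2', h1'⟩ := f2 hR
    have hpq : p.ins ≤ q.index := le_trans (Nat.le_add_left _ _) h
    have hk1 : ix a' ≤ q.index - p.ins := by
      show a'.forget.index ≤ _; rw [h1']; omega
    have hk2 : ix b' = q.index - p.ins + is a' := by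
      show b'.forget.index = _ + a'.forget.ins; rw [h1', h2']; omega
    have e1 := exch_writhe a' b' (q.index - p.ins) hk1 hk2 n d (by rw [hc]; rfl)
    have e2 := exch a' b' (q.index - p.ins) hk1 hk2 n d
    rw [hc] at e2
    rw [← e1]
    rw [writhe2 _ _ n d (by rw [hb]; rfl), writhe2 _ _ n d (by rw [e2]; rfl)]
    have k1 : a.forget = a'.forget := by rw [h1, h1']
    have k2 : b.forget = (mv (q.index - p.ins + os a') b').forget := by
      rw [forget_mv, h2, h2']
      congr 1
      show _ = q.index - p.ins + a'.forget.outs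
      rw [h1']
      omega
    have k3 : ix a = ix a' := by show a.forget.index = _; rw [k1]
    have k4 : ix b = ix (mv (q.index - p.ins + os a') b') := by show b.forget.index = _; rw [k2]
    rw [k3, k4, same_sgD k1, same_sgD k2]
    congr 1
    rw [ix_mv]
    have k5 : ix a' ≤ q.index - p.ins := hk1
    have e3 : act a d (q.index - p.ins + os a') = act a' d (q.index - p.ins + os a') := by
      have e4 : os a = os a' := by show a.forget.outs = _; rw [k1]
      have e5 : is a = is a' := by show a.forget.ins = _; rw [k1]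
      rw [act_ge a' d _ k5, ← e4, act_ge a d _ (by rw [k3]; exact k5), e5]
    have e3' : act a d (q.index - p.ins + os a' + 1) = act a' d (q.index - p.ins + os a' + 1) := by
      have e4 : os a = os a' := by show a.forget.outs = _; rw [k1]
      have e5 : is a = is a' := by show a.forget.ins = _; rw [k1]
      have e6 : q.index - p.ins + os a' + 1 = q.index - p.ins + 1 + os a' := by omega
      rw [e6, act_ge a' d _ (by omega), ← e4, act_ge a d _ (by rw [k3]; omega), e5]
    rw [e3, e3']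
  | zigzag₁ i =>
    obtain ⟨a, b, rfl, h1, h2⟩ := f2 hL
    obtain ⟨c, rfl⟩ := fbirth h1
    obtain rfl := fdeath h2
    obtain rfl := fnil hR
    obtain ⟨g1, hb⟩ := iB hb
    obtain ⟨g2, g3, hb⟩ := iD hb
    rw [wB' _ _ _ _ _ g1, wD' _ _ _ _ g2 g3]
    rfl
  | zigzag₂ i =>
    obtain ⟨a, b, rfl, h1, h2⟩ := f2 hL
    obtain ⟨c, rfl⟩ := fbirth h1
    obtain rfl := fdeath h2
    obtain rfl := fnil hR
    obtain ⟨g1, hb⟩ := iB hb
    obtain ⟨g2, g3, hb⟩ := iD hb
    rw [wB' _ _ _ _ _ g1, wD' _ _ _ _ g2 g3]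
    rfl
  | slideBirth₁ i =>
    obtain ⟨a, b, rfl, h1, h2⟩ := f2 hL
    obtain ⟨c, rfl⟩ := fbirth h1
    obtain rfl := fpos h2
    obtain ⟨a', b', rfl, h1', h2'⟩ := f2 hR
    obtain ⟨c', rfl⟩ := fbirth h1'
    obtain rfl := fneg h2'
    obtain ⟨g1, hb⟩ := iB hb
    obtain ⟨g2, hb⟩ := iP hb
    obtain ⟨g1', hc⟩ := iB hc
    obtain ⟨g2', hc⟩ := iN hc
    rw [wB' _ _ _ _ _ g1, wP' _ _ _ _ g2, wB' _ _ _ _ _ g1', wN' _ _ _ _ g2', w_nil, w_nil]
    have k : c = c' := by
      have e1 := (i_nil hb).2.trans (i_nil hc).2.symm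
      have e2 := congrFun e1 i
      rw [sm, i0, s0, i0] at e2
      exact e2
    subst k
    rw [i1, show i + 1 + 1 = i + 2 from rfl, i2, im, i0]
    cases c <;> cases d i <;> simp
  | slideBirth₂ i =>
    obtain ⟨a, b, rfl, h1, h2⟩ := f2 hL
    obtain ⟨c, rfl⟩ := fbirth h1
    obtain rfl := fneg h2
    obtain ⟨a', b', rfl, h1', h2'⟩ := f2 hR
    obtain ⟨c', rfl⟩ := fbirth h1'
    obtain rfl := fpos h2'
    obtain ⟨g1, hb⟩ := iB hb
    obtain ⟨g2, hb⟩ := iN hb
    obtain ⟨g1', hc⟩ := iB hc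
    obtain ⟨g2', hc⟩ := iP hc
    rw [wB' _ _ _ _ _ g1, wN' _ _ _ _ g2, wB' _ _ _ _ _ g1', wP' _ _ _ _ g2', w_nil, w_nil]
    have k : c = c' := by
      have e1 := (i_nil hb).2.trans (i_nil hc).2.symm
      have e2 := congrFun e1 i
      rw [sm, i0, s0, i0] at e2
      exact e2
    subst k
    rw [i1, show i + 1 + 1 = i + 2 from rfl, i2, im, i0]
    cases c <;> cases d i <;> simp
  | slideDeath₁ i =>
    obtain ⟨a, b, rfl, h1, h2⟩ := f2 hL
    obtain rfl := fpos h1
    obtain rfl := fdeath h2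
    obtain ⟨a', b', rfl, h1', h2'⟩ := f2 hR
    obtain rfl := fneg h1'
    obtain rfl := fdeath h2'
    obtain ⟨g1, hb⟩ := iP hb
    obtain ⟨g2, g3, hb⟩ := iD hb
    obtain ⟨g1', hc⟩ := iN hc
    obtain ⟨g2', g3', hc⟩ := iD hc
    rw [wP' _ _ _ _ g1, wD' _ _ _ _ g2 g3, wN' _ _ _ _ g1', wD' _ _ _ _ g2' g3', w_nil, w_nil]
    rw [s0, sm] at g3
    have g4 : d (i + 1 + 1) = !d i := g3
    rw [g4]
    cases d i <;> cases d (i + 1) <;> simp
  | slideDeath₂ i =>
    obtain ⟨a, b, rfl, h1, h2⟩ := f2 hL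
    obtain rfl := fneg h1
    obtain rfl := fdeath h2
    obtain ⟨a', b', rfl, h1', h2'⟩ := f2 hR
    obtain rfl := fpos h1'
    obtain rfl := fdeath h2'
    obtain ⟨g1, hb⟩ := iN hb
    obtain ⟨g2, g3, hb⟩ := iD hb
    obtain ⟨g1', hc⟩ := iP hc
    obtain ⟨g2', g3', hc⟩ := iD hc
    rw [wN' _ _ _ _ g1, wD' _ _ _ _ g2 g3, wP' _ _ _ _ g1', wD' _ _ _ _ g2' g3', w_nil, w_nil]
    rw [s0, sm] at g3
    have g4 : d (i + 1 + 1) = !d i := g3
    rw [g4]
    cases d i <;> cases d (i + 1) <;> simp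
  | second₁ i =>
    obtain ⟨a, b, rfl, h1, h2⟩ := f2 hL
    obtain rfl := fpos h1
    obtain rfl := fneg h2
    obtain rfl := fnil hR
    obtain ⟨g1, hb⟩ := iP hb
    rw [wP' _ _ _ _ g1, wN' _ _ _ _ g1, w_nil, w_nil, s0, s1]
    cases d i <;> cases d (i + 1) <;> simp
  | second₂ i =>
    obtain ⟨a, b, rfl, h1, h2⟩ := f2 hL
    obtain rfl := fneg h1
    obtain rfl := fpos h2
    obtain rfl := fnil hR
    obtain ⟨g1, hb⟩ := iN hb
    rw [wN' _ _ _ _ g1, wP' _ _ _ _ g1, w_nil, w_nil, s0, s1]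
    cases d i <;> cases d (i + 1) <;> simp
  | third i =>
    obtain ⟨a, b, c, rfl, h1, h2, h3⟩ := f3 hL
    obtain rfl := fpos h1
    obtain rfl := fpos h2
    obtain rfl := fpos h3
    obtain ⟨a', b', c', rfl, h1', h2', h3'⟩ := f3 hR
    obtain rfl := fpos h1'
    obtain rfl := fpos h2'
    obtain rfl := fpos h3'
    obtain ⟨g1, hc⟩ := iP hc
    rw [wP' _ _ _ _ (by omega), wP' _ _ _ _ (by omega), wP' _ _ _ _ (by omega),
      wP' _ _ _ _ (by omega), wP' _ _ _ _ (by omega), wP' _ _ _ _ (by omega), w_nil, w_nil]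
    have e1 : swpD i d (i + 1) = d i := s1 i d
    have e2 : swpD i d (i + 1 + 1) = d (i + 2) := s2 i d
    have e3 : swpD (i + 1) (swpD i d) i = d (i + 1) := by rw [sm, s0]
    have e4 : swpD (i + 1) (swpD i d) (i + 1) = d (i + 2) := by rw [s0]; exact s2 i d
    have e5 : swpD (i + 1) d i = d i := sm i d
    have e6 : swpD (i + 1) d (i + 1) = d (i + 2) := s0 (i + 1) d
    have e7 : swpD i (swpD (i + 1) d) (i + 1) = d i := by rw [s1, sm]
    have e8 : swpD i (swpD (i + 1) d) (i + 1 + 1) = d (i + 1) := by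
      have : swpD i (swpD (i + 1) d) (i + 2) = swpD (i + 1) d (i + 2) := s2 _ _
      rw [show i + 1 + 1 = i + 2 from rfl, this]
      exact s1 (i + 1) d
    rw [e1, e2, e3, e4, e5, e6, e7, e8]
    have e9 : d (i + 1 + 1) = d (i + 2) := rfl
    rw [e9]
    ring

theorem w1_first {l r : Word} (hm : FirstMove l r) (L R : OWord) (n : ℕ) (d : ℕ → Bool)
    (hL : forget L = l) (hR : forget R = r) (s : ℕ × (ℕ → Bool)) (hb : below L n d = some s)
    (hc : below R n d = some s) :
    writheFrom L n d = writheFrom R n d + curlSign l := by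
  cases hm with
  | birthPos i =>
    obtain ⟨a, b, rfl, h1, h2⟩ := f2 hL
    obtain ⟨c, rfl⟩ := fbirth h1
    obtain rfl := fpos h2
    obtain ⟨a', rfl, h1'⟩ := f1 hR
    obtain ⟨c', rfl⟩ := fbirth h1'
    obtain ⟨g1, hb⟩ := iB hb
    obtain ⟨g2, hb⟩ := iP hb
    rw [wB' _ _ _ _ _ g1, wP' _ _ _ _ g2, wB' _ _ _ _ _ g1, w_nil, w_nil, i0, i1]
    cases c <;> simp [curlSign]
  | birthNeg i =>
    obtain ⟨a, b, rfl, h1, h2⟩ := f2 hL
    obtain ⟨c, rfl⟩ := fbirth h1
    obtain rfl := fneg h2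
    obtain ⟨a', rfl, h1'⟩ := f1 hR
    obtain ⟨c', rfl⟩ := fbirth h1'
    obtain ⟨g1, hb⟩ := iB hb
    obtain ⟨g2, hb⟩ := iN hb
    rw [wB' _ _ _ _ _ g1, wN' _ _ _ _ g2, wB' _ _ _ _ _ g1, w_nil, w_nil, i0, i1]
    cases c <;> simp [curlSign]
  | deathPos i =>
    obtain ⟨a, b, rfl, h1, h2⟩ := f2 hL
    obtain rfl := fpos h1
    obtain rfl := fdeath h2
    obtain ⟨a', rfl, h1'⟩ := f1 hR
    obtain rfl := fdeath h1'
    obtain ⟨g1, hb⟩ := iP hb
    obtain ⟨g2, g3, hb⟩ := iD hb
    obtain ⟨g2', g3', hc⟩ := iD hc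
    rw [wP' _ _ _ _ g1, wD' _ _ _ _ g2 g3, wD' _ _ _ _ g2' g3', w_nil, w_nil, g3']
    cases d i <;> simp [curlSign]
  | deathNeg i =>
    obtain ⟨a, b, rfl, h1, h2⟩ := f2 hL
    obtain rfl := fneg h1
    obtain rfl := fdeath h2
    obtain ⟨a', rfl, h1'⟩ := f1 hR
    obtain rfl := fdeath h1'
    obtain ⟨g1, hb⟩ := iN hb
    obtain ⟨g2, g3, hb⟩ := iD hb
    obtain ⟨g2', g3', hc⟩ := iD hc
    rw [wN' _ _ _ _ g1, wD' _ _ _ _ g2 g3, wD' _ _ _ _ g2' g3', w_nil, w_nil, g3']
    cases d i <;> simp [curlSign]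

theorem t_W1 : S_W1 := by
  refine ⟨?_, ?_⟩
  · intro l r n d hm h1 h2
    obtain ⟨s, hs⟩ := Option.isSome_iff_exists.1 h2
    exact w1_local hm l r n d rfl rfl s hs (by rw [← h1]; exact hs)
  · intro l r n d hm h1 h2
    obtain ⟨s, hs⟩ := Option.isSome_iff_exists.1 h2
    exact w1_first hm l r n d rfl rfl s hs (by rw [← h1]; exact hs)

end Pool.Agent.Helper82_Alt.PW
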