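import Pool.Agent.Helper82_Alt.Spec2
import Pool.Agent.Helper82_Alt.B2
import Pool.Agent.Helper82_Alt.W

/-!
# Split diagrams and unions, HOMFLY polynomial
-/

set_option autoImplicit false

namespace Pool.Agent.Helper82_Alt.PUniP

open Pool.Agent.Helper82_Alt Pool.Agent.Helper82_Alt.PB2
open Pool.Agent.Helper454.Kauf (Piece Word Closed RegIsotopic RegStep LocalMove FirstMove circle)
open Pool.Agent.Helper454.Wh

/-! ### directions beyond the strands -/

theorem below_false (w : OWord) : ∀ (n : ℕ) (d : ℕ → Bool) (m : ℕ) (e : ℕ → Bool),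
    below w n d = some (m, e) → (∀ k, n ≤ k → d k = false) → ∀ k, m ≤ k → e k = false := by
  induction w with
  | nil =>
    intro n d m e h hd
    simp only [below, Option.some.injEq, Prod.mk.injEq] at h
    obtain ⟨rfl, rfl⟩ := h
    exact hd
  | cons p w ih =>
    intro n d m e h hd
    simp only [below] at h
    rcases hp : p.below n d with _ | ⟨m', e'⟩
    · rw [hp] at h; simp at h
    · rw [hp] at h
      simp only [Option.bind_some] at h
      refine ih m' e' m e h ?_
      cases p <;> simp only [OPiece.below] at hp <;> split_ifs at hp with hc <;>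
        simp only [Option.some.injEq, Prod.mk.injEq] at hp <;> obtain ⟨rfl, rfl⟩ := hp <;>
        intro k hk
      · simp only [insD]
        rw [if_neg (by omega), if_neg (by omega), if_neg (by omega)]
        exact hd _ (by omega)
      · simp only [delD]
        rw [if_neg (by omega)]
        exact hd _ (by omega)
      · simp only [swpD]
        rw [if_neg (by omega), if_neg (by omega)]
        exact hd _ (by omega)
      · simp only [swpD]
        rw [if_neg (by omega), if_neg (by omega)]
        exact hd _ (by omega)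

theorem below_zero {w : OWord} {e : ℕ → Bool} (h : below w 0 noD = some (0, e)) : e = noD := by
  funext k
  exact below_false w 0 noD 0 e h (fun _ _ => rfl) k (Nat.zero_le k)

theorem oclosed_iff' (D : OWord) : OClosed D ↔ below D 0 noD = some (0, noD) := by
  rw [oclosed_iff]
  constructor
  · rintro ⟨e, he⟩
    rw [he, below_zero he]
  · intro h
    exact ⟨_, h⟩

/-- number of strands directed downwards minus number of strands directed upwards -/
def bal (n : ℕ) (d : ℕ → Bool) : ℤ := ∑ j ∈ Finset.range n, sg (d j)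

theorem bal_ins {n i : ℕ} (b : Bool) (d : ℕ → Bool) (h : i ≤ n) :
    bal (n + 2) (insD i b d) = bal n d := by
  unfold bal
  obtain ⟨k, rfl⟩ := Nat.exists_eq_add_of_le h
  rw [show i + k + 2 = i + (2 + k) by omega, Finset.sum_range_add, Finset.sum_range_add,
    Finset.sum_range_add]
  have h1 : ∑ j ∈ Finset.range i, sg (insD i b d j) = ∑ j ∈ Finset.range i, sg (d j) := by
    refine Finset.sum_congr rfl fun j hj => ?_
    have : insD i b d j = d j := by
      simp only [insD]
      rw [if_pos (Finset.mem_range.1 hj)]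
    rw [this]
  have h2 : ∑ j ∈ Finset.range 2, sg (insD i b d (i + j)) = 0 := by
    rw [Finset.sum_range_succ, Finset.sum_range_one]
    have a1 : insD i b d (i + 0) = b := by simp [insD]
    have a2 : insD i b d (i + 1) = !b := by simp [insD]
    rw [a1, a2]
    cases b <;> simp [sg]
  have h3 : ∑ j ∈ Finset.range k, sg (insD i b d (i + (2 + j))) =
      ∑ j ∈ Finset.range k, sg (d (i + j)) := by
    refine Finset.sum_congr rfl fun j _ => ?_
    have : insD i b d (i + (2 + j)) = d (i + j) := by
      simp only [insD]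
      rw [if_neg (by omega), if_neg (by omega), if_neg (by omega),
        show i + (2 + j) - 2 = i + j by omega]
    rw [this]
  rw [h1, h2, h3, zero_add]

theorem bal_swp {n i : ℕ} (d : ℕ → Bool) (h : i + 2 ≤ n) : bal n (swpD i d) = bal n d := by
  unfold bal
  obtain ⟨k, rfl⟩ := Nat.exists_eq_add_of_le h
  simp only [Finset.sum_range_add, Finset.sum_range_succ]
  have h1 : ∑ j ∈ Finset.range i, sg (swpD i d j) = ∑ j ∈ Finset.range i, sg (d j) := by
    refine Finset.sum_congr rfl fun j hj => ?_
    have := Finset.mem_range.1 hj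
    have : swpD i d j = d j := by
      simp only [swpD]
      rw [if_neg (by omega), if_neg (by omega)]
    rw [this]
  have h3 : ∑ j ∈ Finset.range k, sg (swpD i d (i + 2 + j)) =
      ∑ j ∈ Finset.range k, sg (d (i + 2 + j)) := by
    refine Finset.sum_congr rfl fun j _ => ?_
    have : swpD i d (i + 2 + j) = d (i + 2 + j) := by
      simp only [swpD]
      rw [if_neg (by omega), if_neg (by omega)]
    rw [this]
  have h4 : swpD i d i = d (i + 1) := by simp [swpD]
  have h5 : swpD i d (i + 1) = d i := by simp [swpD]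
  rw [h1, h3]
  simp only [h4, h5]
  ring

theorem bal_del {n i : ℕ} (d : ℕ → Bool) (h : i + 2 ≤ n) (h' : d (i + 1) = !d i) :
    bal (n - 2) (delD i d) = bal n d := by
  have h1 := bal_ins (n := n - 2) (i := i) (d (i + 1)) (delD i d) (by omega)
  rw [e3 i d h', bal_swp d (by omega)] at h1
  rw [← h1]
  congr 1
  omega

theorem below_bal (w : OWord) : ∀ (n : ℕ) (d : ℕ → Bool) (m : ℕ) (e : ℕ → Bool),
    below w n d = some (m, e) → bal m e = bal n d := by
  induction w with
  | nil =>
    intro n d m e h
    simp only [below, Option.some.injEq, Prod.mk.injEq] at h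
    obtain ⟨rfl, rfl⟩ := h
    rfl
  | cons p w ih =>
    intro n d m e h
    simp only [below] at h
    rcases hp : p.below n d with _ | ⟨m', e'⟩
    · rw [hp] at h; simp at h
    · rw [hp] at h
      simp only [Option.bind_some] at h
      rw [ih m' e' m e h]
      cases p <;> simp only [OPiece.below] at hp <;> split_ifs at hp with hc <;>
        simp only [Option.some.injEq, Prod.mk.injEq] at hp <;> obtain ⟨rfl, rfl⟩ := hp
      · exact bal_ins _ d hc
      · exact bal_del d hc.1 hc.2
      · exact bal_swp d hc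
      · exact bal_swp d hc

theorem below_two {w : OWord} {e : ℕ → Bool} (h : below w 0 noD = some (2, e)) : e 1 = !e 0 := by
  have h1 := below_bal w 0 noD 2 e h
  unfold bal at h1
  rw [Finset.sum_range_succ, Finset.sum_range_one, Finset.sum_range_zero] at h1
  cases h2 : e 0 <;> cases h3 : e 1 <;> simp [h2, h3, sg] at h1 ⊢

/-! ### orientations under regular isotopies -/

/-- `D` can be replaced by `D'` -/
def OT (w w' : Word) : Prop :=
  ∀ D, forget D = w → OClosed D → ∃ D', forget D' = w' ∧ OClosed D' ∧ OIsotopic D D' ∧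
    writhe D = writhe D'

theorem exchI {X L R Y : OWord} {n : ℕ}
    {d : ℕ → Bool} {m : ℕ} {e : ℕ → Bool} (hX : below X 0 noD = some (n, d))
    (hL : below L n d = some (m, e)) (hR : below R n d = some (m, e))
    (hc : OClosed (X ++ L ++ Y))
    (hm : LocalMove (forget L) (forget R) ∨ FirstMove (forget L) (forget R)) :
    OClosed (X ++ R ++ Y) ∧ OIsotopic (X ++ L ++ Y) (X ++ R ++ Y) := by
  have hc' : OClosed (X ++ R ++ Y) := by
    obtain ⟨n', d', m', e', e'', h1, h2, h3⟩ := oclosed_split hc
    rw [hX] at h1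
    obtain ⟨rfl, rfl⟩ : n = n' ∧ d = d' := by simpa using h1
    rw [hL] at h2
    obtain ⟨rfl, rfl⟩ : m = m' ∧ e = e' := by simpa using h2
    exact oclosed_mk hX hR h3
  exact ⟨hc', Relation.EqvGen.rel _ _
    (OStep.mk X L R Y n d hm hX (hL.trans hR.symm) hc hc')⟩

theorem OT_step {x l r y : Word} (h : LocalMove l r ∨ LocalMove r l)
    (hr : Closed (x ++ r ++ y)) : OT (x ++ l ++ y) (x ++ r ++ y) := by
  intro D hD hc
  obtain ⟨X, L, Y, rfl, rfl, rfl, rfl⟩ := split3 hD
  obtain ⟨n, d, m, e, e', hX, hL, hY⟩ := oclosed_split hc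
  have hw : Helper454.Kauf.width r n = some m := by
    have h1 := width_forget X _ _ _ _ hX
    have h2 := width_forget Y _ _ _ _ hY
    unfold Helper454.Kauf.Closed at hr
    rw [width_append, width_append, h1, Option.bind_some] at hr
    rcases h3 : Helper454.Kauf.width r n with _ | m'
    · rw [h3] at hr; simp at hr
    · rw [h3] at hr
      simp only [Option.bind_some] at hr
      have h4 := width_net _ _ _ hr
      have h5 := width_net _ _ _ h2
      congr 1
      have : (m' : ℤ) = m := by linarith
      exact_mod_cast this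
  obtain ⟨R, hR1, hR2⟩ := PW.t_W3 (forget L) r L n d m e h rfl hL hw
  subst hR1
  have hwr : writheFrom L n d = writheFrom R n d := by
    rcases h with h | h
    · exact PW.t_W1.1 L R n d h (hL.trans hR2.symm) (by rw [hL]; rfl)
    · exact (PW.t_W1.1 R L n d h (hR2.trans hL.symm) (by rw [hR2]; rfl)).symm
  refine ⟨X ++ R ++ Y, by rw [forget_append, forget_append], oclosed_mk hX hR2 hY, ?_, ?_⟩
  · rcases h with h | h
    · exact (exchI hX hL hR2 hc (Or.inl h)).2
    · exact ((exchI hX hR2 hL (oclosed_mk hX hR2 hY) (Or.inl h)).2).symm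
  · rw [writhe_split hX hL, writhe_split hX hR2, hwr]

theorem OT_reg {w w' : Word} (h : RegIsotopic w w') : OT w w' ∧ OT w' w := by
  induction h with
  | rel w w' h =>
    obtain ⟨x, l, r, y, hm, hl, hr⟩ := h
    exact ⟨OT_step (Or.inl hm) hr, OT_step (Or.inr hm) hl⟩
  | refl w => exact ⟨fun D h1 h2 => ⟨D, h1, h2, Relation.EqvGen.refl _, rfl⟩,
      fun D h1 h2 => ⟨D, h1, h2, Relation.EqvGen.refl _, rfl⟩⟩
  | symm w w' _ ih => exact ih.symm
  | trans a b c _ _ ih1 ih2 =>
    refine ⟨fun D h1 h2 => ?_, fun D h1 h2 => ?_⟩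
    · obtain ⟨D', a1, a2, a3, a4⟩ := ih1.1 D h1 h2
      obtain ⟨D'', b1, b2, b3, b4⟩ := ih2.1 D' a1 a2
      exact ⟨D'', b1, b2, Relation.EqvGen.trans _ _ _ a3 b3, a4.trans b4⟩
    · obtain ⟨D', a1, a2, a3, a4⟩ := ih2.2 D h1 h2
      obtain ⟨D'', b1, b2, b3, b4⟩ := ih1.2 D' a1 a2
      exact ⟨D'', b1, b2, Relation.EqvGen.trans _ _ _ a3 b3, a4.trans b4⟩

/-! ### split diagrams -/

theorem t_splP (hE : S_splE) : S_splP := by
  intro D Dt Df hD hS
  obtain ⟨_, ct, cf, hI⟩ := hE _ _ _ hS
  obtain ⟨D', h1, h2, h3, h4⟩ := (OT_reg hI).1 D rfl hD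
  obtain ⟨X, Y, rfl, rfl, rfl⟩ := List.map_eq_append_iff.1 (show D'.map OPiece.forget = _ from h1)
  have hXY := (oclosed_iff' _).1 h2
  rw [below_append] at hXY
  rcases hX : below X 0 noD with _ | ⟨n, d⟩
  · rw [hX] at hXY; simp at hXY
  rw [hX] at hXY
  simp only [Option.bind_some] at hXY
  have hn := width_forget X 0 noD n d hX
  have hn0 : n = 0 := by
    have := (show Helper454.Kauf.width (forget X) 0 = some 0 from ct).symm.trans hn
    simpa using this.symm
  subst hn0
  have hd := below_zero hX
  subst hd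
  refine ⟨X, Y, rfl, rfl, (oclosed_iff' _).2 hX, (oclosed_iff' _).2 hXY, ?_, ?_⟩
  · rw [h4]
    exact PW.t_W2 X Y 0 noD 0 noD hX
  · intro P hP
    exact hP.1.isotopy _ _ h3

/-! ### unions -/

theorem OClosed_append {A B : OWord} (hA : OClosed A) (hB : OClosed B) : OClosed (A ++ B) := by
  rw [oclosed_iff'] at hA hB ⊢
  rw [below_append' B hA, hB]

theorem OIso_append {A A' B : OWord} (h : OIsotopic A A') (hB : OClosed B) :
    OIsotopic (A ++ B) (A' ++ B) := by
  induction h with
  | rel a a' h =>
    obtain ⟨x, l, r, y, n, d, h1, h2, h3, h4, h5⟩ := h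
    have h4' := OClosed_append h4 hB
    have h5' := OClosed_append h5 hB
    rw [List.append_assoc] at h4' h5' ⊢
    rw [List.append_assoc _ y B]
    exact Relation.EqvGen.rel _ _ (OStep.mk x l r (y ++ B) n d h1 h2 h3 h4' h5')
  | refl a => exact Relation.EqvGen.refl _
  | symm a b _ ih => exact ih.symm
  | trans a b c _ _ ih1 ih2 => exact Relation.EqvGen.trans _ _ _ ih1 ih2

theorem pair_rules {P : OWord → Rlm} (hP : IsHomfly P) {B : OWord} (hB : OClosed B) :
    HomflyRules (lPow 1) (lPow (-1)) (mPow 1) (fun A => (P A, P (A ++ B))) where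
  isotopy := by
    intro D E h
    exact Prod.ext (hP.1.isotopy _ _ h) (hP.1.isotopy _ _ (OIso_append h hB))
  parallel := by
    intro x i y h hd
    have h' := OClosed_append h hB
    rw [List.append_assoc] at h'
    have h1 := hP.1.parallel x i y h hd
    have h2 := hP.1.parallel x i (y ++ B) h' hd
    refine Prod.ext ?_ ?_
    · exact h1
    · simpa only [Prod.smul_mk, Prod.mk_sub_mk, List.append_assoc] using h2
  antiparallel := by
    intro x i y h hd
    have h' := OClosed_append h hB
    rw [List.append_assoc] at h'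
    have h1 := hP.1.antiparallel x i y h hd
    have h2 := hP.1.antiparallel x i (y ++ B) h' hd
    refine Prod.ext ?_ ?_
    · exact h1
    · simpa only [Prod.smul_mk, Prod.mk_sub_mk, List.append_assoc] using h2

theorem t_B2' : S_B2 := t_B2 (fun _ hG w hw hne => span hG w hw hne) PW.t_W1 PW.t_W3

theorem t_uniP : S_uniP := by
  intro P hP A B hA hB hne hne'
  obtain ⟨p, _, hp⟩ := t_B2' (Rlm × Rlm) _ (pair_rules hP hB) A hA hne
  have h1 : P A = p := by
    have := congrArg Prod.fst hp
    simpa [hP.2] using this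
  have h2 : P (A ++ B) = p * P (ocircle ++ B) := by
    have := congrArg Prod.snd hp
    simpa using this
  have h3 := circ (X := []) (Y := B) (n := 0) (i := 0) (d := noD) (e' := noD) hP.1 true rfl le_rfl
    ((oclosed_iff' _).1 hB) (by simpa using hne')
  unfold CircAt at h3
  have h3' : mPow 1 * P (ocircle ++ B) = lPow (-1) * P B - lPow 1 * P B := by
    simpa [ocircle, smul_eq_mul] using h3
  rw [h2, h1, ← mul_assoc, mul_comm (mPow 1) p, mul_assoc, h3']
  ring

end Pool.Agent.Helper82_Alt.PUniP
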