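import Pool.Agent.Helper82_Alt.G1
import Pool.Agent.Helper82_Alt.TanK
import Pool.Agent.Helper82_Alt.TanP
import Pool.Agent.Helper82_Alt.UniP
import Pool.Agent.Helper82_Alt.NugP
import Pool.Agent.Helper82_Alt.NugE
import Pool.Agent.Helper82_Alt.NugEx
import Pool.Agent.Helper82_Alt.SplEx
import Pool.Agent.Helper82_Alt.Deg
import Pool.Agent.Helper82_Alt.SigE
import Pool.Agent.Helper82_Alt.Sh
import Pool.Agent.Helper82_Alt.RotE
import Pool.Agent.Helper82_Alt.UniK
import Pool.Agent.Helper82_Alt.NugK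
import Pool.Agent.Helper82_Alt.SigU
import Pool.Agent.Helper82_Alt.NugC
import Pool.Agent.Helper82_Alt.RotC
import Pool.Agent.Helper82_Alt.NugK2

/-! Assembly of phase 2, all pieces. -/

set_option autoImplicit false
set_option linter.unusedSimpArgs false

namespace Pool.Agent.Helper82_Alt.PG

open LaurentPolynomial
open Pool.Agent.Helper82_Alt.PF
open Pool.Agent.Helper454.Kauf (Piece Word Raz KauffmanRules circle Closed RegIsotopic aPow zVar
  width)
open Pool.Agent.Helper454.Wh (OPiece OWord below noD forget OClosed Rlm dirs ocircle HomflyRules lPow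
  mPow IsHomfly)

theorem d_splEx : S_splEx := PSplEx.t_splEx
theorem d_splA : S_splA := PSplEx.t_splA
theorem d_degL : S_degL := PDeg.t_degL
theorem d_degA : S_degA := PDeg.t_degA
theorem d_nugEx : S_nugEx := PNugEx.t_nugEx
theorem d_uniP : S_uniP := PUniP.t_uniP
theorem d_tanP : S_tanP := PTanP.t_tanP
theorem d_tanK : S_tanK := PTanK.t_tanK
theorem d_sigB : S_sigB := PSigE.t_sigB
theorem d_sigE : S_sigE := PSigE.t_sigE

theorem final2 :
    (∃ P : OWord → Rlm, IsHomfly P) ∧ (∃ K : Word → Raz, KauffmanRules K ∧ K circle = 1) ∧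
    ∀ (P : OWord → Rlm) (K : Word → Raz), IsHomfly P → KauffmanRules K → K circle = 1 →
      ∀ D : OWord, OClosed D → D ≠ [] → Alternating (forget D) →
        ∃ dF dP σ : ℤ, IsLeast (fExponents K D) dF ∧
          IsLeast (lExponents (P D)) dP ∧ IsSignature D σ ∧ dF ≤ dP ∧ dP ≤ σ := by
  refine ⟨Helper454.Wh.Homf.exists_homfly, ⟨_, Helper454.Kauf.Ex.Lam_rules,
    Helper454.Kauf.Ex.Lam_circle⟩, ?_⟩
  intro P K hP hK hc D hD hne hal
  have hne' : forget D ≠ [] := by
    intro h; apply hne; exact List.map_eq_nil_iff.1 h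
  have hnugE : S_nugE := Helper82_Alt.t_nugE Helper82_Alt.t_shA Helper82_Alt.t_shB
  have hsplE : S_splE := Helper82_Alt.t_splE
  have hrotC : S_rotC := PRotC.t_rotC
  have hnugC : S_nugC := PNugC.t_nugC
  have hnugK2 : S_nugK2 := PNugK2.t_nugK2
  have hrotE : S_rotE := PRotE.t_rotE
  have hsigU : S_sigU := PSigU.t_sigU
  have huniK : S_uniK := PUniK.t_uniK
  have hnugK : S_nugK := PNugK.t_nugK hnugE d_tanK
  have hnugP : S_nugP := PNugP.t_nugP hnugE d_tanP
  have hsplP : S_splP := PUniP.t_splP hsplE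
  have hconn : ∀ (D : Word) (ε : ℕ), ε < 2 → Closed D → D ≠ [] →
      Connected D → ParType ε D → PD P K D (K2 ε D - 2) := fun D ε hε h1 h2 h3 h4 =>
    pd_conn hnugE hnugK hnugP d_degL d_degA hnugC hnugK2 d_nugEx hrotC hrotE hP hK hc (crs D) D ε
      hε rfl h1 h2 h3 h4
  obtain ⟨β, h1, h2⟩ := pd_all hsplE hsplP d_splEx d_splA huniK d_uniP d_degL d_degA d_sigB hsigU
    hP hK hc hconn _ (forget D) rfl (oclosed_closed hD) hne' hal
  obtain ⟨jm, dP, a1, a2, a3, a4⟩ := h1 D rfl hD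
  obtain ⟨b, b1, b2⟩ := h2 D rfl hD
  obtain ⟨σ, c1, c2⟩ := d_sigE D b hD hne b1
  exact ⟨_, dP, σ, fExp_least a1, a2, c1, a3, by omega⟩

end Pool.Agent.Helper82_Alt.PG
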