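import Pool.Agent.H560R3.TG.Main

/-!
A variant of `Pool.Agent.H560R3.TG.lower_states` for diagrams without crossings (the proof is the
same).
-/

set_option autoImplicit false
set_option linter.unusedSimpArgs false

namespace Pool.Agent.Helper82_Alt.PK3

open Pool.Agent.H560R3.TG

variable {S G S' G' : Type}

theorem lower_states' {D : List Piece} (hwf : WF 0 D 0) (cB : Bool)
    (hcB : ∀ i b, Piece.cr i b ∈ D → (b = cB ↔ i % 2 = 0)) (hz2 : Z2Trivial D)
    (hn : ∀ Z : List (Slice Unit (ℕ × Bool)), Labelling (0, true) Z D →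
      ∃ K ∈ sts (0, true) [] Z, K ≠ []) :
    ∃ (EA EB : List (Slice Unit ℕ)) (e l : ℕ) (f : List (Slice Unit ℕ)),
      Labelling 0 EA D ∧ HOK EA ∧ CEs cB 0 EA ∧
      Labelling 0 EB D ∧ HOK EB ∧ CEs (!cB) 0 EB ∧ AllAdj R01 0 [] EB ∧
      Labelling l f D ∧ e ≤ cardL l f ∧ e ≤ holes D + 1 ∧
      (crossings D : ℤ) + 4 - 2 * e ≤ Phi cB ht 0 EA + Phi (!cB) ht 0 EB := by
  classical
  obtain ⟨P, hP, hPA⟩ := exists_std hwf
  obtain ⟨EX, hX, hXh, hmin⟩ := exists_min (D := D) ⟨trE kp (fun _ => true) 0 P,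
    labelling_tr sym_kp (fun _ => true) hP, by
      intro h hh
      have := holeLabels_tr (kp : Unit → ℕ → ℕ → Unit) (fun _ => true) 0 P
      rw [this] at hh
      obtain ⟨_, _, rfl⟩ := List.mem_map.1 hh
      rfl⟩
  have hsame : P.map Slice.plain = EX.map Slice.plain := hP.2.trans hX.2.symm
  set Z : List (Slice Unit (ℕ × Bool)) := trE (fun _ _ _ => ()) id (0, true) (zipE P EX) with hZ
  have hZl : Labelling ((0, true) : ℕ × Bool) Z D :=
    labelling_tr (fun _ _ _ => rfl) id (labelling_zip hP hX)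
  have hZ1 : trE kp Prod.fst (0, true) Z = P := by
    have h1 := trE_zip_fst 0 true P EX hsame [] [] [] [] hP.1 hX.1 rfl
    have h2 := trE_trE (fun (_ : Unit × Unit) (_ _ : ℕ × Bool) => ()) id kp Prod.fst (0, true)
      (zipE P EX)
    exact h2.trans h1
  have hZ2 : trE kp Prod.snd (0, true) Z = EX := by
    have h1 := trE_zip_snd 0 true P EX hsame [] [] [] [] hP.1 hX.1 rfl
    have h2 := trE_trE (fun (_ : Unit × Unit) (_ _ : ℕ × Bool) => ()) id kp Prod.snd (0, true)
      (zipE P EX)
    exact h2.trans h1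
  have hZ2' : trE (fun _ _ _ => ()) Prod.snd (0, true) Z = EX := hZ2
  have hZR : AllAdj (fun p q : ℕ × Bool => R01 p.1 q.1) (0, true) [] Z := by
    have := (allAdj_tr (S := Unit) (S' := Unit) sym_kp (Prod.fst : ℕ × Bool → ℕ) R01
      (0, true) [] Z).1
    apply this
    rw [hZ1]; exact hPA
  have hZh : ∀ g ∈ holeLabels (0, true) Z, g.1 = 0 ∧ g.2 = true := by
    intro g hg
    have e1 := holeLabels_tr (kp : Unit → ℕ × Bool → ℕ × Bool → Unit) Prod.fst (0, true) Z
    have e2 := holeLabels_tr (kp : Unit → ℕ × Bool → ℕ × Bool → Unit) Prod.snd (0, true) Z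
    rw [hZ1] at e1
    rw [hZ2] at e2
    exact ⟨std_holes hz2 hP hPA _ (by rw [e1]; exact List.mem_map_of_mem hg),
      hXh _ (by rw [e2]; exact List.mem_map_of_mem hg)⟩
  have hX3 : ∀ p ∈ labs (0, true) [] Z, p.2 = true → p.1 = 0 := by
    intro p hp hp2
    have := hmin Unit (ℕ × Bool) (0, true) Z Prod.snd (fun p => decide (p.1 = 0)) hZl hZ2' rfl
      (by simp) (fun g hg => by simpa using (hZh g hg).1) p hp hp2
    simpa using this
  have hle : ∀ p ∈ labs (0, true) [] Z, p.1 ≤ 1 :=
    labs_of_allAdj (P := fun p => p.1 ≤ 1) (fun x y h => by unfold R01 at h; omega) _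
      (by simp) _ _ hZR
  have hadj := allAdj_labs (P := fun p : ℕ × Bool => (p.2 = true → p.1 = 0)) _ _ _ hX3 hZR
  -- facts at the crossings
  have hcr : ∀ s ∈ Z, ∀ b y y' z, s.p = .cr b () y () () y' () z →
      (b = cB → (cur (0, true) s.L).1 = 0 ∧ y = (1, false) ∧ y' = (1, false) ∧ z.1 = 0) ∧
      (b ≠ cB → cur (0, true) s.L = (1, false) ∧ y.1 = 0 ∧ y'.1 = 0 ∧ z = (1, false)) := by
    intro s hs b y y' z hsp
    obtain ⟨L, p, R⟩ := s
    simp only at hsp
    subst hsp
    have hmem : Piece.cr L.length b ∈ D := by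
      rw [← hZl.2]; exact List.mem_map.2 ⟨_, hs, rfl⟩
    obtain ⟨m1, m2⟩ := src_mem_sts _ _ _ _ hZl.1 _ hs
    have m1' : L ++ ((), y) :: ((), z) :: R ∈ sts (0, true) [] Z := by
      simpa [Slice.src, Loc.src] using m1
    have m2' : L ++ ((), y') :: ((), z) :: R ∈ sts (0, true) [] Z := by
      simpa [Slice.tgt, Loc.tgt] using m2
    obtain ⟨a1, a2, a3, -⟩ := state_adj hadj m1'
    obtain ⟨-, a4, a5, -⟩ := state_adj hadj m2'
    have hpar : (cur (0, true) L).1 % 2 = L.length % 2 := by
      have h1 := adj_parity 0 (trF kp Prod.fst (0, true) L) (by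
        have := (adj_tr (S := Unit) (S' := Unit) kp (Prod.fst : ℕ × Bool → ℕ) Nb (0, true) L).2
          (adj_mono (fun x y h => R01_nb h.1) _ _ a1)
        exact this)
      have h2 : cur 0 (trF kp Prod.fst (0, true) L) = (cur (0, true) L).1 :=
        cur_trF kp Prod.fst (0, true) L
      rw [h2, trF_length] at h1
      simpa using h1
    have hiff := hcB _ _ hmem
    simp only at a2 a3 a4 a5 ⊢
    obtain ⟨r2, x2, y2⟩ := a2
    obtain ⟨r3, -, z3⟩ := a3
    obtain ⟨r4, -, y4⟩ := a4
    unfold R01 at r2 r3 r4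
    generalize cur (0, true) L = X at hpar r2 x2 r4 ⊢
    obtain ⟨X1, X2⟩ := X
    obtain ⟨y1, yb⟩ := y
    obtain ⟨y1', yb'⟩ := y'
    obtain ⟨z1, zb⟩ := z
    simp only [Prod.mk.injEq] at *
    constructor
    · intro hb
      have h1 := hiff.1 hb
      have hX : X1 = 0 := by omega
      refine ⟨hX, ⟨by omega, ?_⟩, ⟨by omega, ?_⟩, by omega⟩
      · by_contra hc
        have := y2 (by simpa using hc)
        omega
      · by_contra hc
        have := y4 (by simpa using hc)
        omega
    · intro hb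
      have h1 : L.length % 2 = 1 := by
        rcases Nat.mod_two_eq_zero_or_one L.length with h | h
        · exact absurd (hiff.2 h) hb
        · exact h
      have hX : X1 = 1 := by omega
      refine ⟨⟨hX, ?_⟩, by omega, by omega, ⟨by omega, ?_⟩⟩
      · by_contra hc
        have := x2 (by simpa using hc)
        omega
      · by_contra hc
        have := z3 (by simpa using hc)
        omega
  have hCEZ : CEs cB (0, true) Z := by
    intro s hs
    have h1 := hcr s hs
    obtain ⟨L, p, R⟩ := s
    cases p with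
    | cr b s₁ y s₂ t₁ y' t₂ z =>
      obtain ⟨h2, h3⟩ := h1 b y y' z rfl
      refine ⟨fun hb => ?_, fun hb => ?_⟩
      · rw [(h2 hb).2.1, (h2 hb).2.2.1]
      · rw [(h3 hb).2.2.2]; exact (h3 hb).1
    | _ => trivial
  -- the two labellings
  have hEA : Labelling 0 (trE kp rh (0, true) Z) D := labelling_tr sym_kp rh hZl
  have hsum : Phi cB ht 0 (trE kp rh (0, true) Z) + Phi (!cB) ht 0 P =
      (crossings D : ℤ) - 2 * Phi cB (ind Prod.snd) (0, true) Z := by
    have e1 := Phi_tr (kp : Unit → ℕ × Bool → ℕ × Bool → Unit) rh cB ht (0, true) Z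
    have e2 := Phi_tr (kp : Unit → ℕ × Bool → ℕ × Bool → Unit) Prod.fst (!cB) ht (0, true) Z
    rw [hZ1] at e2
    have e1' : Phi cB ht 0 (trE kp rh (0, true) Z) = Phi cB (fun g => ht (rh g)) (0, true) Z := e1
    have e2' : Phi (!cB) ht 0 P = Phi (!cB) (fun g => ht g.1) (0, true) Z := e2
    have e3 := phi_sum cB (!cB) (fun g => ht (rh g)) (fun g => ht g.1) (ind Prod.snd)
      (0, true) Z (by
        intro s hs
        have h1 := hcr s hs
        obtain ⟨m1, m2⟩ := src_mem_sts _ _ _ _ hZl.1 _ hs
        have lb : ∀ p ∈ labs (0, true) [] Z, ht (rh p) + ht p.1 = 2 - 2 * ind Prod.snd p := by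
          intro p hp
          have q1 := hX3 p hp
          have q2 := hle p hp
          obtain ⟨p1, p2⟩ := p
          simp only at q1 q2
          cases p2
          · have : p1 = 0 ∨ p1 = 1 := by omega
            rcases this with rfl | rfl <;> simp [ht, rh, ind]
          · have : p1 = 0 := q1 rfl
            subst this
            simp [ht, rh, ind]
        obtain ⟨L, p, R⟩ := s
        cases p with
        | birth u y =>
          have hy : y ∈ labs (0, true) [] Z :=
            mem_labs_of_state _ _ _ _ m2 _ (by simp [Slice.tgt, Loc.tgt])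
          have := lb y hy
          simp only [Loc.wt, Slice.plain, crossings]
          push_cast
          linarith
        | death u y =>
          have hy : cur (0, true) L ∈ labs (0, true) [] Z := by
            apply cur_mem_labs _ _ _ _ R
            simpa [Slice.tgt, Loc.tgt] using m2
          have := lb _ hy
          simp only [Loc.wt, Slice.plain, crossings]
          push_cast
          linarith
        | hole => simp [Loc.wt, Slice.plain, crossings]
        | cr b s₁ y s₂ t₁ y' t₂ z =>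
          obtain ⟨h2, h3⟩ := h1 b y y' z rfl
          simp only at h2 h3
          by_cases hb : b = cB
          · obtain ⟨k1, k2, k3, k4⟩ := h2 hb
            simp only [Loc.wt, Slice.plain, crossings, hb, if_true]
            have hb'' : ¬ (cB = !cB) := by simp
            simp only [hb'', if_false, k3, k1, ht]
            push_cast
            try ring
          · obtain ⟨k1, k2, k3, k4⟩ := h3 hb
            have hb' : b = !cB := bool_ne hb
            simp only [Loc.wt, Slice.plain, crossings, hb, if_false, hb', if_true]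
            have hb'' : ¬ ((!cB) = cB) := by simp
            simp only [hb'', if_false, k1]
            obtain ⟨y1', yb'⟩ := y'
            simp only at k3
            subst k3
            cases yb' <;> simp [ht, rh, ind])
    have e4 := phi_one cB (0, true) [] [] Z hZl.1
    rw [e1', e2', e3, hZl.2]
    simp only [List.length_nil, Nat.cast_zero, sub_zero] at e4
    linarith
  obtain ⟨l, Z', q1, q2, q3, q4⟩ := outerIneq (Prod.snd : ℕ × Bool → Bool) cB (0, true) rfl Z
    hZl.1 hCEZ (allAdj_mono (by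
      rintro x y ⟨r, hx, hy⟩ ⟨c1, c2⟩
      have h1 := hx c1
      have h2 := hy c2
      unfold R01 at r
      omega) _ _ _ hadj) (hn Z hZl)
  have hZ'l : Labelling (((0, true), l) : (ℕ × Bool) × ℕ) Z' D := by
    refine ⟨q1, ?_⟩
    rw [← hZl.2, ← q2, plain_trE]
  have hf : Labelling l (trE kp Prod.snd ((0, true), l) Z') D :=
    labelling_tr sym_kp Prod.snd hZ'l
  have hsub : NU ((0, true), l) [] Z' ⊆
      insert l (holeLabels l (trE kp Prod.snd ((0, true), l) Z')).toFinset := by
    intro l' hl'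
    by_contra hcon
    rw [Finset.mem_insert, not_or, List.mem_toFinset] at hcon
    obtain ⟨c1, c2⟩ := hcon
    rw [mem_NU] at hl'
    obtain ⟨hl0, p, hp, hpl⟩ := hl'
    have hpC : p.1.2 = true := by
      have := q3 p hp
      by_contra hc
      simp only [Mk, hc, Bool.false_eq_true, if_false] at this
      exact hl0 (hpl ▸ this)
    have hZ'X : trE (fun _ _ _ => ()) (fun p : (ℕ × Bool) × ℕ => p.1.2) ((0, true), l) Z' =
        EX := by
      have h2 := trE_trE (kp : Unit → (ℕ × Bool) × ℕ → (ℕ × Bool) × ℕ → Unit) Prod.fst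
        (fun (_ : Unit) (_ _ : ℕ × Bool) => ()) Prod.snd ((0, true), l) Z'
      rw [q2] at h2
      exact h2.symm.trans hZ2'
    have hhl := holeLabels_tr (kp : Unit → (ℕ × Bool) × ℕ → (ℕ × Bool) × ℕ → Unit) Prod.snd
      ((0, true), l) Z'
    have hhl2 := holeLabels_tr (fun (_ : Unit) (_ _ : (ℕ × Bool) × ℕ) => ())
      (fun p : (ℕ × Bool) × ℕ => p.1.2) ((0, true), l) Z'
    rw [hZ'X] at hhl2
    have := hmin Unit ((ℕ × Bool) × ℕ) ((0, true), l) Z' (fun p => p.1.2)
      (fun p => p.1.2 && decide (p.2 ≠ l')) hZ'l hZ'X rfl (by simpa using fun h => c1 h.symm)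
      (by
        intro g hg
        have h1 : g.1.2 = true := hXh _ (by rw [hhl2]; exact List.mem_map.2 ⟨g, hg, rfl⟩)
        have h2 : g.2 ≠ l' := by
          rintro rfl
          apply c2
          have hhl' : holeLabels l (trE kp Prod.snd ((0, true), l) Z') = _ := hhl
          rw [hhl']
          exact List.mem_map.2 ⟨g, hg, rfl⟩
        simp [h1, h2]) p hp hpC
    simp [hpl] at this
  refine ⟨trE kp rh (0, true) Z, P, (NU ((0, true), l) [] Z').card, l,
    trE kp Prod.snd ((0, true), l) Z', hEA, ⟨?_, ?_⟩, ?_, hP,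
    ⟨allAdj_mono (fun _ _ => R01_nb) _ _ _ hPA, std_holes hz2 hP hPA⟩, ?_, hPA, hf,
    Finset.card_le_card hsub, ?_, ?_⟩
  · refine (allAdj_tr sym_kp rh Nb (0, true) [] Z).2 (allAdj_mono ?_ _ _ _ hadj)
    rintro x y ⟨r, hx, hy⟩
    exact rh_nb r hx hy
  · intro g hg
    have e1 := holeLabels_tr (kp : Unit → ℕ × Bool → ℕ × Bool → Unit) rh (0, true) Z
    have e1' : holeLabels 0 (trE kp rh (0, true) Z) = _ := e1
    rw [e1'] at hg
    obtain ⟨p, hp, rfl⟩ := List.mem_map.1 hg
    simp [rh, (hZh p hp).2]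
  · intro s hs
    obtain ⟨r, hr, rfl⟩ := List.mem_map.1 hs
    have h1 := hcr r hr
    obtain ⟨L, p, R⟩ := r
    cases p with
    | cr b s₁ y s₂ t₁ y' t₂ z =>
      obtain ⟨h2, h3⟩ := h1 b y y' z rfl
      refine ⟨fun hb => ?_, fun hb => ?_⟩
      · rw [(h2 hb).2.1, (h2 hb).2.2.1]
      · rw [(h3 hb).2.2.2]
        have : cur 0 (trF kp rh (0, true) L) = rh (cur (0, true) L) := cur_trF kp rh (0, true) L
        simp only [Slice.tr]
        rw [this]
        exact congrArg rh (h3 hb).1
    | _ => trivial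
  · rw [← hZ1]
    intro s hs
    obtain ⟨r, hr, rfl⟩ := List.mem_map.1 hs
    have h1 := hcr r hr
    obtain ⟨L, p, R⟩ := r
    cases p with
    | cr b s₁ y s₂ t₁ y' t₂ z =>
      obtain ⟨h2, h3⟩ := h1 b y y' z rfl
      refine ⟨fun hb => ?_, fun hb => ?_⟩
      · have hb' : b ≠ cB := bool_ne' hb
        show y.1 = y'.1
        rw [(h3 hb').2.1, (h3 hb').2.2.1]
      · have hb' : b = cB := bool_ne'' hb
        have : cur 0 (trF kp Prod.fst (0, true) L) = (cur (0, true) L).1 :=
          cur_trF kp Prod.fst (0, true) L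
        show cur 0 (trF kp Prod.fst (0, true) L) = z.1
        rw [this, (h2 hb').2.2.2]
        exact (h2 hb').1
    | _ => trivial
  · have h1 : (insert l (holeLabels l (trE kp Prod.snd ((0, true), l) Z')).toFinset).card ≤
        holes D + 1 := by
      refine (Finset.card_insert_le _ _).trans ?_
      have h2 := List.toFinset_card_le (holeLabels l (trE kp Prod.snd ((0, true), l) Z'))
      rw [holeLabels_length, hf.2] at h2
      omega
    exact (Finset.card_le_card hsub).trans h1
  · rw [hsum]
    linarith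


end Pool.Agent.Helper82_Alt.PK3
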