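import Pool.Agent.Helper82_Alt.Spec
import Pool.Agent.Helper82_Alt.K3a

/-!
Conversions between labellings which are functions and labellings which are lists of slices;
connectedness, alternation and simplicity of the diagram `tg D`.
-/

set_option autoImplicit false
set_option linter.unusedSimpArgs false

namespace Pool.Agent.Helper82_Alt.PK3

open Pool.Agent.Helper454.Kauf (Word Closed)
open Pool.Agent.H560R3
open Pool.Agent.H560R3.TG (WF Slice Loc Path Labelling cur crossings holes holeLabels sts trE kp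
  Adj AllAdj)

variable {S G S' G' : Type}

abbrev KP := Pool.Agent.Helper454.Kauf.Piece

abbrev kw := Pool.Agent.Helper454.Kauf.width

/-! ### widths -/

theorem width_cons {p : KP} {D : Word} {n m : ℕ} (h : kw (p :: D) n = some m) :
    ∃ n', p.width n = some n' ∧ kw D n' = some m := by
  have h : (p.width n).bind (kw D) = some m := h
  rcases hp : p.width n with _ | n'
  · rw [hp] at h; simp at h
  · rw [hp] at h; exact ⟨n', rfl, h⟩

theorem width_append {u v : Word} {n m : ℕ} (h : kw (u ++ v) n = some m) :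
    ∃ k, kw u n = some k ∧ kw v k = some m := by
  induction u generalizing n with
  | nil => exact ⟨n, rfl, h⟩
  | cons p u ih =>
    obtain ⟨n', h1, h2⟩ := width_cons h
    obtain ⟨k, h3, h4⟩ := ih h2
    refine ⟨k, ?_, h4⟩
    show (p.width n).bind (kw u) = some k
    rw [h1]; exact h3

theorem pw_birth {i n n' : ℕ} (h : (Helper454.Kauf.Piece.birth i).width n = some n') :
    i ≤ n ∧ n' = n + 2 := by
  simp only [Helper454.Kauf.Piece.width] at h
  split_ifs at h with h1
  exact ⟨h1, (Option.some.inj h).symm⟩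

theorem pw_death {i n n' : ℕ} (h : (Helper454.Kauf.Piece.death i).width n = some n') :
    i + 2 ≤ n ∧ n' = n - 2 := by
  simp only [Helper454.Kauf.Piece.width] at h
  split_ifs at h with h1
  exact ⟨h1, (Option.some.inj h).symm⟩

theorem pw_pos {i n n' : ℕ} (h : (Helper454.Kauf.Piece.pos i).width n = some n') :
    i + 2 ≤ n ∧ n' = n := by
  simp only [Helper454.Kauf.Piece.width] at h
  split_ifs at h with h1
  exact ⟨h1, (Option.some.inj h).symm⟩

theorem pw_neg {i n n' : ℕ} (h : (Helper454.Kauf.Piece.neg i).width n = some n') :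
    i + 2 ≤ n ∧ n' = n := by
  simp only [Helper454.Kauf.Piece.width] at h
  split_ifs at h with h1
  exact ⟨h1, (Option.some.inj h).symm⟩

theorem wf_of_width (D : Word) (n m : ℕ) (h : kw D n = some m) : WF n (tg D) m := by
  induction D generalizing n with
  | nil => exact Option.some.inj h
  | cons p D ih =>
    obtain ⟨n', h1, h2⟩ := width_cons h
    have h3 := ih n' h2
    cases p with
    | birth i => obtain ⟨h4, rfl⟩ := pw_birth h1; exact ⟨h4, h3⟩
    | death i => obtain ⟨h4, rfl⟩ := pw_death h1; exact ⟨h4, h3⟩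
    | pos i => obtain ⟨h4, rfl⟩ := pw_pos h1; exact ⟨h4, h3⟩
    | neg i => obtain ⟨h4, rfl⟩ := pw_neg h1; exact ⟨h4, h3⟩

theorem holes_tg (D : Word) : holes (tg D) = 0 := by
  induction D with
  | nil => rfl
  | cons p D ih => cases p <;> exact ih

theorem crossings_tg (D : Word) : crossings (tg D) = crs D := by
  induction D with
  | nil => rfl
  | cons p D ih =>
    cases p with
    | birth i => exact ih
    | death i => exact ih
    | pos i => exact congrArg (· + 1) ih
    | neg i => exact congrArg (· + 1) ih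

theorem no_hole (D : Word) (i : ℕ) : TG.Piece.hole i ∉ tg D := by
  intro h
  obtain ⟨p, -, hp⟩ := List.mem_map.1 h
  cases p <;> simp [tgP] at hp

theorem holeLabels_nil {a : G} {E : List (Slice S G)} {D : Word}
    (h : E.map Slice.plain = tg D) : holeLabels a E = [] := by
  apply List.eq_nil_of_length_eq_zero
  rw [TG.holeLabels_length, h, holes_tg]

/-! ### rows -/

/-- the strands `i, …, i + n - 1` with the gaps on their right -/
def row (g : ℕ → G) : ℕ → ℕ → List (Unit × G)
  | _, 0 => []
  | i, n + 1 => ((), g (i + 1)) :: row g (i + 1) n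

theorem row_len (g : ℕ → G) (i n : ℕ) : (row g i n).length = n := by
  induction n generalizing i with
  | zero => rfl
  | succ n ih => simp only [row, List.length_cons, ih]

theorem row_cur (g : ℕ → G) (i n : ℕ) : cur (g i) (row g i n) = g (i + n) := by
  induction n generalizing i with
  | zero => rfl
  | succ n ih =>
    show cur (g (i + 1)) (row g (i + 1) n) = _
    rw [ih]; congr 1; omega

theorem row_add (g : ℕ → G) (i n m : ℕ) : row g i (n + m) = row g i n ++ row g (i + n) m := by
  induction n generalizing i with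
  | zero => simp [row]
  | succ n ih =>
    rw [show n + 1 + m = (n + m) + 1 by omega]
    simp only [row, List.cons_append]
    rw [ih, show i + 1 + n = i + (n + 1) by omega]

theorem row_congr (g g' : ℕ → G) (i i' n : ℕ) (h : ∀ j, j < n → g (i + j + 1) = g' (i' + j + 1)) :
    row g i n = row g' i' n := by
  induction n generalizing i i' with
  | zero => rfl
  | succ n ih =>
    simp only [row]
    rw [ih (i + 1) (i' + 1)]
    · have := h 0 (by omega)
      simp only [add_zero] at this
      rw [this]
    · intro j hj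
      have := h (j + 1) (by omega)
      rw [show i + 1 + j + 1 = i + (j + 1) + 1 by omega,
        show i' + 1 + j + 1 = i' + (j + 1) + 1 by omega]
      exact this

/-! ### from functions to slices -/

def mkS (p : KP) (g g' : ℕ → G) (n : ℕ) : Slice Unit G :=
  match p with
  | .birth i => ⟨row g 0 i, .birth () (g' (i + 1)), row g i (n - i)⟩
  | .death i => ⟨row g 0 i, .death () (g (i + 1)), row g (i + 2) (n - i - 2)⟩
  | .pos i => ⟨row g 0 i, .cr false () (g (i + 1)) () () (g' (i + 1)) () (g (i + 2)),
      row g (i + 2) (n - i - 2)⟩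
  | .neg i => ⟨row g 0 i, .cr true () (g (i + 1)) () () (g' (i + 1)) () (g (i + 2)),
      row g (i + 2) (n - i - 2)⟩

theorem row_split2 (g : ℕ → G) (i n : ℕ) (h : i + 2 ≤ n) :
    row g 0 n = row g 0 i ++ ((), g (i + 1)) :: ((), g (i + 2)) :: row g (i + 2) (n - i - 2) := by
  conv_lhs => rw [show n = i + (n - i - 2 + 2) by omega, row_add]
  simp only [row, zero_add]

theorem mkS_spec (p : KP) (g g' : ℕ → G) (n n' : ℕ) (h : p.width n = some n')
    (hr : RStep p g g') : (mkS p g g' n).src (g 0) = row g 0 n ∧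
      (mkS p g g' n).tgt (g 0) = row g' 0 n' ∧ (mkS p g g' n).plain = tgP p ∧ g' 0 = g 0 := by
  have hc : ∀ i, cur (g 0) (row g 0 i) = g i := fun i => by rw [row_cur, zero_add]
  cases p with
  | birth i =>
    obtain ⟨h1, rfl⟩ := pw_birth h
    obtain ⟨r1, r2⟩ := hr
    refine ⟨?_, ?_, ?_, r1 0 (Nat.zero_le _)⟩
    · simp only [mkS, Slice.src, Loc.src, List.append_nil]
      conv_rhs => rw [show n = i + (n - i) by omega, row_add, zero_add]
    · simp only [mkS, Slice.tgt, Loc.tgt, hc]
      rw [row_split2 g' i (n + 2) (by omega)]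
      have e1 : row g 0 i = row g' 0 i := row_congr _ _ _ _ _ (fun j hj => (r1 _ (by omega)).symm)
      have e2 : g' (i + 2) = g i := r2 i le_rfl
      have e3 : row g i (n - i) = row g' (i + 2) (n + 2 - i - 2) := by
        rw [show n + 2 - i - 2 = n - i by omega]
        apply row_congr
        intro j hj
        rw [show i + 2 + j + 1 = (i + j + 1) + 2 by omega]
        exact (r2 _ (by omega)).symm
      rw [e1, e2, e3]
      simp
    · simp only [mkS, Slice.plain, row_len, tgP]
  | death i =>
    obtain ⟨h1, rfl⟩ := pw_death h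
    obtain ⟨r1, r2⟩ := hr
    refine ⟨?_, ?_, ?_, (r1 0 (Nat.zero_le _)).symm⟩
    · simp only [mkS, Slice.src, Loc.src, hc]
      rw [row_split2 g i n h1]
      have e2 : g (i + 2) = g i := by rw [r2 i le_rfl, r1 i le_rfl]
      rw [e2]
      simp
    · simp only [mkS, Slice.tgt, Loc.tgt, List.append_nil]
      have e1 : row g 0 i = row g' 0 i := row_congr _ _ _ _ _ (fun j hj => r1 _ (by omega))
      have e3 : row g (i + 2) (n - i - 2) = row g' i (n - i - 2) := by
        apply row_congr
        intro j hj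
        rw [show i + 2 + j + 1 = (i + j + 1) + 2 by omega]
        exact r2 _ (by omega)
      rw [e1, e3]
      conv_rhs => rw [show n - 2 = i + (n - i - 2) by omega, row_add, zero_add]
    · simp only [mkS, Slice.plain, row_len, tgP]
  | pos i =>
    obtain ⟨h1, rfl⟩ := pw_pos h
    have r1 : ∀ j, j ≠ i + 1 → g' j = g j := hr
    refine ⟨?_, ?_, ?_, r1 0 (by omega)⟩
    · simp only [mkS, Slice.src, Loc.src]
      rw [row_split2 g i n' h1]
      simp
    · simp only [mkS, Slice.tgt, Loc.tgt]
      rw [row_split2 g' i n' h1, r1 (i + 2) (by omega)]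
      have e1 : row g 0 i = row g' 0 i := row_congr _ _ _ _ _ (fun j hj => (r1 _ (by omega)).symm)
      have e3 : row g (i + 2) (n' - i - 2) = row g' (i + 2) (n' - i - 2) :=
        row_congr _ _ _ _ _ (fun j hj => (r1 _ (by omega)).symm)
      rw [e1, e3]
      simp
    · simp only [mkS, Slice.plain, row_len, tgP]
  | neg i =>
    obtain ⟨h1, rfl⟩ := pw_neg h
    have r1 : ∀ j, j ≠ i + 1 → g' j = g j := hr
    refine ⟨?_, ?_, ?_, r1 0 (by omega)⟩
    · simp only [mkS, Slice.src, Loc.src]
      rw [row_split2 g i n' h1]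
      simp
    · simp only [mkS, Slice.tgt, Loc.tgt]
      rw [row_split2 g' i n' h1, r1 (i + 2) (by omega)]
      have e1 : row g 0 i = row g' 0 i := row_congr _ _ _ _ _ (fun j hj => (r1 _ (by omega)).symm)
      have e3 : row g (i + 2) (n' - i - 2) = row g' (i + 2) (n' - i - 2) :=
        row_congr _ _ _ _ _ (fun j hj => (r1 _ (by omega)).symm)
      rw [e1, e3]
      simp
    · simp only [mkS, Slice.plain, row_len, tgP]

def mkE : Word → (ℕ → ℕ → G) → ℕ → List (Slice Unit G)
  | [], _, _ => []
  | p :: w, r, n => mkS p (r 0) (r 1) n :: mkE w (fun t => r (t + 1)) ((p.width n).getD 0)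

theorem mkE_spec (D : Word) (r : ℕ → ℕ → G) (n m : ℕ) (h : kw D n = some m)
    (hr : ∀ t (h : t < D.length), RStep D[t] (r t) (r (t + 1))) :
    Path (r 0 0) (row (r 0) 0 n) (mkE D r n) (row (r D.length) 0 m) ∧
      (mkE D r n).map Slice.plain = tg D := by
  induction D generalizing r n with
  | nil =>
    obtain rfl : n = m := Option.some.inj h
    exact ⟨rfl, rfl⟩
  | cons p D ih =>
    obtain ⟨n', h1, h2⟩ := width_cons h
    obtain ⟨a1, a2, a3, a4⟩ := mkS_spec p (r 0) (r 1) n n' h1 (hr 0 (by simp))
    obtain ⟨b1, b2⟩ := ih (fun t => r (t + 1)) n' h2 (fun t ht => by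
      have := hr (t + 1) (by simpa using ht)
      simpa using this)
    simp only [mkE, h1, Option.getD_some]
    refine ⟨⟨a1, ?_⟩, ?_⟩
    · rw [a2]
      simp only [zero_add] at b1
      rw [a4] at b1
      simpa using b1
    · simp only [List.map_cons, a3, b2, tg]

theorem mkE_append (u v : Word) (r : ℕ → ℕ → G) (n m : ℕ) (h : kw u n = some m) :
    mkE (u ++ v) r n = mkE u r n ++ mkE v (fun t => r (t + u.length)) m := by
  induction u generalizing r n with
  | nil =>
    obtain rfl : n = m := Option.some.inj h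
    rfl
  | cons p u ih =>
    obtain ⟨n', h1, h2⟩ := width_cons h
    simp only [List.cons_append, mkE, h1, Option.getD_some, List.length_cons]
    rw [ih (fun t => r (t + 1)) n' h2]
    congr 2

theorem mkE_len (D : Word) (r : ℕ → ℕ → G) (n : ℕ) : (mkE D r n).length = D.length := by
  induction D generalizing r n with
  | nil => rfl
  | cons p D ih => simp only [mkE, List.length_cons, ih]

theorem mkE_lab {D : Word} (hD : Closed D) {r : ℕ → ℕ → G} (hr : RLab D r) :
    Labelling (r 0 0) (mkE D r 0) (tg D) := by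
  obtain ⟨h1, h2⟩ := mkE_spec D r 0 0 hD hr.2.2
  exact ⟨h1, h2⟩

/-! ### from slices to functions: connectedness -/

theorem path_get (a : G) (F F' : List (S × G)) (E : List (Slice S G)) (hE : Path a F E F')
    (t : ℕ) (ht : t < E.length) : (E[t]).src a = (sts a F E).getD t [] ∧
      (E[t]).tgt a = (sts a F E).getD (t + 1) [] := by
  induction E generalizing F t with
  | nil => simp at ht
  | cons s E ih =>
    obtain ⟨h1, h2⟩ := hE
    rcases t with _ | t
    · exact ⟨h1, rfl⟩
    · have := ih (s.tgt a) h2 t (by simpa using ht)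
      exact this

theorem width_get (a : G) (F F' : List (S × G)) (E : List (Slice S G)) (D : Word)
    (hE : Path a F E F') (hp : E.map Slice.plain = tg D) (n : ℕ) (hn : kw D F.length = some n)
    (t : ℕ) (ht : t ≤ D.length) :
    kw (D.take t) F.length = some ((sts a F E).getD t []).length := by
  induction D generalizing E F t with
  | nil =>
    simp only [List.length_nil, Nat.le_zero] at ht
    subst ht
    rfl
  | cons p D ih =>
    obtain ⟨s, E1, rfl, h1, h2⟩ := List.map_eq_cons_iff.1 hp
    obtain ⟨n', h3, h4⟩ := width_cons hn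
    obtain ⟨g1, g2⟩ := hE
    rcases t with _ | t
    · rfl
    · have hlen : (s.tgt a).length = n' := by
        rw [← g1] at h3
        obtain ⟨L, q, R⟩ := s
        cases p with
        | birth i =>
          obtain ⟨-, rfl⟩ := pw_birth h3
          obtain ⟨L', R', u, y, hs, hL⟩ := TG.plain_birth _ i h1
          rw [hs]
          simp [Slice.src, Slice.tgt, Loc.src, Loc.tgt]
          try omega
        | death i =>
          obtain ⟨-, rfl⟩ := pw_death h3
          obtain ⟨L', R', u, y, hs, hL⟩ := TG.plain_death _ i h1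
          rw [hs]
          simp [Slice.src, Slice.tgt, Loc.src, Loc.tgt]
          try omega
        | pos i =>
          obtain ⟨-, rfl⟩ := pw_pos h3
          obtain ⟨L', R', s₁, y, s₂, t₁, y', t₂, z, hs, hL⟩ := TG.plain_cr _ i false h1
          rw [hs]
          simp [Slice.src, Slice.tgt, Loc.src, Loc.tgt]
        | neg i =>
          obtain ⟨-, rfl⟩ := pw_neg h3
          obtain ⟨L', R', s₁, y, s₂, t₁, y', t₂, z, hs, hL⟩ := TG.plain_cr _ i true h1
          rw [hs]
          simp [Slice.src, Slice.tgt, Loc.src, Loc.tgt]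
      have := ih (s.tgt a) E1 g2 h2 (by rw [hlen]; exact h4) t (by simpa using ht)
      show (p.width F.length).bind (kw (D.take t)) = _
      rw [h3]
      rw [hlen] at this
      exact this

/-- label of the strand `j` -/
def fs (K : List (Bool × Unit)) (j : ℕ) : Bool := (K.map Prod.fst).getD j false

theorem fs_lt (A B : List (Bool × Unit)) (j : ℕ) (h : j < A.length) : fs (A ++ B) j = fs A j := by
  unfold fs
  rw [List.map_append, List.getD_append _ _ _ _ (by simpa using h)]

theorem fs_ge (A B : List (Bool × Unit)) (j : ℕ) : fs (A ++ B) (A.length + j) = fs B j := by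
  unfold fs
  rw [List.map_append, List.getD_append_right _ _ _ _ (by simp)]
  simp

theorem fs_get (K : List (Bool × Unit)) (j : ℕ) (h : j < K.length) : fs K j = K[j].1 := by
  unfold fs
  rw [List.getD_eq_getElem _ _ (by simpa using h)]
  simp

theorem sstep (p : KP) (s : Slice Bool Unit) (hp : s.plain = tgP p) (hs : s.p.Same) :
    SStep p (fs (s.src ())) (fs (s.tgt ())) := by
  cases p with
  | birth i =>
    obtain ⟨L, R, u, y, rfl, rfl⟩ := TG.plain_birth _ i hp
    have e1 : Slice.src () (⟨L, .birth u y, R⟩ : Slice Bool Unit) = L ++ R := by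
      simp [Slice.src, Loc.src]
    have e2 : Slice.tgt () (⟨L, .birth u y, R⟩ : Slice Bool Unit) =
        L ++ ((u, y) :: (u, cur () L) :: R) := by
      simp [Slice.tgt, Loc.tgt]
    rw [e1, e2]
    refine ⟨fun j hj => ?_, fun j hj => ?_, ?_⟩
    · rw [fs_lt _ _ _ hj, fs_lt _ _ _ hj]
    · obtain ⟨k, rfl⟩ : ∃ k, j = L.length + k := ⟨j - L.length, by omega⟩
      rw [fs_ge, add_assoc, fs_ge]
      rfl
    · have h0 := fs_ge L ((u, y) :: (u, cur () L) :: R) 0
      rw [add_zero] at h0
      rw [h0, fs_ge]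
      rfl
  | death i =>
    obtain ⟨L, R, u, y, rfl, rfl⟩ := TG.plain_death _ i hp
    have e1 : Slice.tgt () (⟨L, .death u y, R⟩ : Slice Bool Unit) = L ++ R := by
      simp [Slice.tgt, Loc.tgt]
    have e2 : Slice.src () (⟨L, .death u y, R⟩ : Slice Bool Unit) =
        L ++ ((u, y) :: (u, cur () L) :: R) := by
      simp [Slice.src, Loc.src]
    rw [e1, e2]
    refine ⟨fun j hj => ?_, fun j hj => ?_, ?_⟩
    · rw [fs_lt _ _ _ hj, fs_lt _ _ _ hj]
    · obtain ⟨k, rfl⟩ : ∃ k, j = L.length + k := ⟨j - L.length, by omega⟩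
      rw [fs_ge, add_assoc, fs_ge]
      rfl
    · have h0 := fs_ge L ((u, y) :: (u, cur () L) :: R) 0
      rw [add_zero] at h0
      rw [h0, fs_ge]
      rfl
  | pos i =>
    obtain ⟨L, R, s₁, y, s₂, t₁, y', t₂, z, rfl, rfl⟩ := TG.plain_cr _ i false hp
    obtain ⟨rfl, rfl, rfl⟩ := hs
    have e1 : Slice.src () (⟨L, .cr false s₁ y s₁ s₁ y' s₁ z, R⟩ : Slice Bool Unit) =
        Slice.tgt () (⟨L, .cr false s₁ y s₁ s₁ y' s₁ z, R⟩ : Slice Bool Unit) := by
      simp [Slice.tgt, Slice.src, Loc.src, Loc.tgt]
    have e2 : Slice.tgt () (⟨L, .cr false s₁ y s₁ s₁ y' s₁ z, R⟩ : Slice Bool Unit) =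
        L ++ ((s₁, y') :: (s₁, z) :: R) := by
      simp [Slice.tgt, Loc.tgt]
    rw [e1, e2]
    refine ⟨fun j => rfl, ?_⟩
    have h0 := fs_ge L ((s₁, y') :: (s₁, z) :: R) 0
    rw [add_zero] at h0
    rw [h0, fs_ge]
    rfl
  | neg i =>
    obtain ⟨L, R, s₁, y, s₂, t₁, y', t₂, z, rfl, rfl⟩ := TG.plain_cr _ i true hp
    obtain ⟨rfl, rfl, rfl⟩ := hs
    have e1 : Slice.src () (⟨L, .cr true s₁ y s₁ s₁ y' s₁ z, R⟩ : Slice Bool Unit) =
        Slice.tgt () (⟨L, .cr true s₁ y s₁ s₁ y' s₁ z, R⟩ : Slice Bool Unit) := by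
      simp [Slice.tgt, Slice.src, Loc.src, Loc.tgt]
    have e2 : Slice.tgt () (⟨L, .cr true s₁ y s₁ s₁ y' s₁ z, R⟩ : Slice Bool Unit) =
        L ++ ((s₁, y') :: (s₁, z) :: R) := by
      simp [Slice.tgt, Loc.tgt]
    rw [e1, e2]
    refine ⟨fun j => rfl, ?_⟩
    have h0 := fs_ge L ((s₁, y') :: (s₁, z) :: R) 0
    rw [add_zero] at h0
    rw [h0, fs_ge]
    rfl

theorem conn {D : Word} (hD : Closed D) (h : Connected D) : TG.Connected (tg D) := by
  intro E hE hs
  have hlen : E.length = D.length := by
    have := congrArg List.length hE.2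
    simpa [tg] using this
  obtain ⟨v, hv⟩ := h (fun t => fs ((sts () [] E).getD t [])) (by
    intro t ht
    obtain ⟨h1, h2⟩ := path_get () [] [] E hE.1 t (by omega)
    rw [← h1, ← h2]
    apply sstep
    · have h3 : (E.map Slice.plain)[t]? = (tg D)[t]? := by rw [hE.2]
      simp only [tg, List.getElem?_map] at h3
      rw [List.getElem?_eq_getElem (by omega), List.getElem?_eq_getElem ht] at h3
      simpa using h3
    · exact hs _ (List.getElem_mem _))
  refine ⟨v, ?_⟩
  have key : ∀ t, t ≤ D.length → ∀ e ∈ (sts () [] E).getD t [], e.1 = v := by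
    intro t ht e he
    have h1 := width_get () [] [] E D hE.1 hE.2 0 hD t ht
    obtain ⟨j, hj, rfl⟩ := List.getElem_of_mem he
    have h2 := hv t _ h1 j hj
    rw [← h2]
    exact (fs_get _ j hj).symm
  intro s hs' e he
  obtain ⟨t, ht, rfl⟩ := List.getElem_of_mem hs'
  obtain ⟨h1, h2⟩ := path_get () [] [] E hE.1 t ht
  rw [h1, h2, List.mem_append] at he
  rcases he with he | he
  · exact key t (by omega) e he
  · exact key (t + 1) (by omega) e he

/-! ### alternation -/

theorem alt {D : Word} (hD : Closed D) {ε : ℕ} (hε : ε < 2) (hp : ParType ε D) :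
    TG.Alternating (tg D) := by
  obtain ⟨P, hP, -⟩ := TG.exists_std (wf_of_width D 0 0 hD)
  refine ⟨trE (fun _ _ _ => decide (ε = 0)) (fun _ => ()) 0 P,
    TG.labelling_tr (fun _ _ _ => rfl) (fun _ => ()) hP, ?_⟩
  intro s hs b s₁ y s₂ t₁ y' t₂ z hsp
  obtain ⟨⟨L, q, R⟩, hr, rfl⟩ := List.mem_map.1 hs
  cases q with
  | cr b' u₁ x u₂ v₁ x' v₂ w =>
    simp only [Slice.tr, Loc.tr, Loc.cr.injEq] at hsp
    obtain ⟨rfl, rfl, -, rfl, rfl, -, rfl, -⟩ := hsp
    have hmem : TG.Piece.cr L.length b' ∈ tg D := by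
      rw [← hP.2]
      exact List.mem_map.2 ⟨_, hr, rfl⟩
    obtain ⟨p, hpD, hpe⟩ := List.mem_map.1 hmem
    have hpar := hp p hpD
    have hl : (Slice.tr (fun (_ : Unit) (_ _ : ℕ) => decide (ε = 0)) (fun _ => ()) 0
        (⟨L, .cr b' u₁ x u₂ v₁ x' v₂ w, R⟩ : Slice Unit ℕ)).L.length = L.length :=
      TG.trF_length _ _ _ _
    rw [hl]
    cases p with
    | birth i => simp [tgP] at hpe
    | death i => simp [tgP] at hpe
    | pos i =>
      simp only [tgP, TG.Piece.cr.injEq] at hpe
      obtain ⟨rfl, rfl⟩ := hpe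
      simp only at hpar
      have h2 : ε = 0 ∨ ε = 1 := by omega
      rcases h2 with rfl | rfl
      · have h3 : (L.length + 1) % 2 = 1 := by omega
        simp [TG.dir, hpar, h3]
      · have h3 : (L.length + 1) % 2 = 0 := by omega
        simp [TG.dir, hpar, h3]
    | neg i =>
      simp only [tgP, TG.Piece.cr.injEq] at hpe
      obtain ⟨rfl, rfl⟩ := hpe
      simp only at hpar
      have h2 : ε = 0 ∨ ε = 1 := by omega
      rcases h2 with rfl | rfl
      · have h3 : (L.length + 1) % 2 = 0 := by omega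
        have h4 : L.length % 2 = 1 := by omega
        simp [TG.dir, h4, h3]
      · have h3 : (L.length + 1) % 2 = 1 := by omega
        have h4 : L.length % 2 = 0 := by omega
        simp [TG.dir, h4, h3]
  | _ => simp [Slice.tr, Loc.tr] at hsp

end Pool.Agent.Helper82_Alt.PK3
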