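import Pool.Agent.Helper82_Alt.K3b

/-! The diagram `tg D` is simple if `D` is reduced. -/

set_option autoImplicit false
set_option linter.unusedSimpArgs false

namespace Pool.Agent.Helper82_Alt.PK3

open Pool.Agent.Helper454.Kauf (Word Closed)
open Pool.Agent.H560R3
open Pool.Agent.H560R3.TG (WF Slice Loc Path Labelling cur crossings holes holeLabels sts trE kp
  Adj AllAdj trF)

variable {S G S' G' : Type}

/-! ### labellings -/

theorem rlab_map {D : Word} {r : ℕ → ℕ → G} (hr : RLab D r) (f : G → G') :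
    RLab D (fun t j => f (r t j)) := by
  obtain ⟨h1, h2, h3⟩ := hr
  refine ⟨fun j => congrArg f (h1 j), fun t ht => ?_, fun t ht => ?_⟩
  · funext j
    show f (r t j) = f (r 0 j)
    rw [h2 t ht]
  · have h4 := h3 t ht
    revert h4
    cases D[t] with
    | birth i =>
      rintro ⟨a, b⟩
      exact ⟨fun j hj => congrArg f (a j hj), fun j hj => congrArg f (b j hj)⟩
    | death i =>
      rintro ⟨a, b⟩
      exact ⟨fun j hj => congrArg f (a j hj), fun j hj => congrArg f (b j hj)⟩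
    | pos i => intro a j hj; exact congrArg f (a j hj)
    | neg i => intro a j hj; exact congrArg f (a j hj)

theorem rlab_zero {D : Word} {r : ℕ → ℕ → G} (hr : RLab D r) (t : ℕ) (ht : t ≤ D.length) :
    r t 0 = r 0 0 := by
  induction t with
  | zero => rfl
  | succ t ih =>
    rw [← ih (by omega)]
    have h4 := hr.2.2 t (by omega)
    revert h4
    cases D[t] with
    | birth i => rintro ⟨a, b⟩; exact a 0 (Nat.zero_le _)
    | death i => rintro ⟨a, b⟩; exact (a 0 (Nat.zero_le _)).symm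
    | pos i => intro a; exact a 0 (by omega)
    | neg i => intro a; exact a 0 (by omega)

/-! ### no disks -/

/-- the sum of the jumps of the labels at the strands with the label `true` -/
def pot : ℤ → List (Bool × ℤ) → ℤ
  | _, [] => 0
  | a, (s, g) :: F => (if s then g - a else 0) + pot g F

theorem pot_append (a : ℤ) (F K : List (Bool × ℤ)) :
    pot a (F ++ K) = pot a F + pot (cur a F) K := by
  induction F generalizing a with
  | nil => simp [pot, cur]
  | cons p F ih => simp only [List.cons_append, pot, cur, ih]; ring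

theorem pot_slice (a : ℤ) (s : Slice Bool ℤ) (h : s.p.Same) :
    pot a (s.src a) = pot a (s.tgt a) := by
  obtain ⟨L, p, R⟩ := s
  simp only [Slice.src, Slice.tgt, pot_append, TG.cur_append, TG.cur_src, TG.cur_tgt]
  congr 2
  cases p with
  | birth u y => cases u <;> simp [Loc.src, Loc.tgt, pot]
  | death u y => cases u <;> simp [Loc.src, Loc.tgt, pot]
  | hole => rfl
  | cr b s₁ y s₂ t₁ y' t₂ z =>
    obtain ⟨rfl, rfl, rfl⟩ := h
    cases s₁ <;> simp [Loc.src, Loc.tgt, pot]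

theorem pot_path (a : ℤ) (F F' : List (Bool × ℤ)) (E : List (Slice Bool ℤ)) (h : Path a F E F')
    (hs : ∀ s ∈ E, s.p.Same) : pot a F = pot a F' := by
  induction E generalizing F with
  | nil => rw [show F = F' from h]
  | cons s E ih =>
    obtain ⟨h1, h2⟩ := h
    rw [← h1, pot_slice a s (hs s (by simp))]
    exact ih _ h2 (fun r hr => hs r (by simp [hr]))

theorem same_unit (s : Slice Unit G) : s.p.Same := by
  obtain ⟨L, p, R⟩ := s
  cases p <;> trivial

theorem same_tr (f : S → S') (ψ : G → G') (a : G) (s : Slice S G) (h : s.p.Same) :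
    (s.tr (fun x _ _ => f x) ψ a).p.Same := by
  obtain ⟨L, p, R⟩ := s
  cases p with
  | cr b s₁ y s₂ t₁ y' t₂ z =>
    obtain ⟨h1, h2, h3⟩ := h
    exact ⟨congrArg f h1, congrArg f h2, congrArg f h3⟩
  | _ => trivial

theorem tg_split {D : Word} {u v : List TG.Piece} {i : ℕ} {b : Bool}
    (h : tg D = u ++ .cr i b :: v) : ∃ U p V, D = U ++ p :: V ∧ tg U = u ∧ tgP p = .cr i b ∧
      tg V = v := by
  obtain ⟨U, V', rfl, h1, h2⟩ := List.map_eq_append_iff.1 h
  obtain ⟨p, V, rfl, h3, h4⟩ := List.map_eq_cons_iff.1 h2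
  exact ⟨U, p, V, rfl, h1, h3, h4⟩

theorem tgP_cr {p : KP} {i : ℕ} {b : Bool} (h : tgP p = .cr i b) :
    (p = .pos i ∧ b = false) ∨ (p = .neg i ∧ b = true) := by
  cases p with
  | birth j => simp [tgP] at h
  | death j => simp [tgP] at h
  | pos j =>
    simp only [tgP, TG.Piece.cr.injEq] at h
    obtain ⟨rfl, rfl⟩ := h
    exact Or.inl ⟨rfl, rfl⟩
  | neg j =>
    simp only [tgP, TG.Piece.cr.injEq] at h
    obtain ⟨rfl, rfl⟩ := h
    exact Or.inr ⟨rfl, rfl⟩

theorem mkS_cr {p : KP} {i : ℕ} {b : Bool} (h : tgP p = .cr i b) (g g' : ℕ → G) (n : ℕ) :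
    mkS p g g' n = ⟨row g 0 i, .cr b () (g (i + 1)) () () (g' (i + 1)) () (g (i + 2)),
      row g (i + 2) (n - i - 2)⟩ := by
  rcases tgP_cr h with ⟨rfl, rfl⟩ | ⟨rfl, rfl⟩ <;> rfl

/-- splitting the labelled word made of a function -/
theorem mkE_split {U V : Word} {p : KP} (hD : Closed (U ++ p :: V)) {i : ℕ} {b : Bool}
    (hp : tgP p = .cr i b) (r : ℕ → ℕ → G) :
    ∃ (R : List (Unit × G)) (EV : List (Slice Unit G)), mkE (U ++ p :: V) r 0 =
      mkE U r 0 ++ ⟨row (r U.length) 0 i, .cr b () (r U.length (i + 1)) () ()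
        (r (U.length + 1) (i + 1)) () (r U.length (i + 2)), R⟩ :: EV := by
  obtain ⟨n, h1, h2⟩ := width_append hD
  refine ⟨row (r U.length) (i + 2) (n - i - 2), mkE V (fun t => r (t + 1 + U.length))
    ((p.width n).getD 0), ?_⟩
  rw [mkE_append U (p :: V) r 0 n h1]
  simp only [mkE, zero_add]
  rw [mkS_cr hp, Nat.add_comm 1 U.length]

theorem pot_cr (a : ℤ) (L R : List (Bool × ℤ)) (b s₁ : Bool) (y : ℤ) (s₂ t₁ : Bool) (y' : ℤ)
    (t₂ : Bool) (z : ℤ) (h : pot a (Slice.src a ⟨L, .cr b s₁ y s₂ t₁ y' t₂ z, R⟩) =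
      pot a (Slice.tgt a ⟨L, .cr b s₁ y s₂ t₁ y' t₂ z, R⟩)) :
    (if s₁ then y - cur a L else 0) + (if s₂ then z - y else 0) =
    (if t₁ then y' - cur a L else 0) + (if t₂ then z - y' else 0) := by
  simp only [Slice.src, Slice.tgt, pot_append, TG.cur_append, TG.cur_src, TG.cur_tgt, Loc.src,
    Loc.tgt, pot, add_zero] at h
  have e1 : cur (cur a L) [(s₁, y), (s₂, z)] = z := rfl
  have e2 : cur (cur a L) [(t₁, y'), (t₂, z)] = z := rfl
  rw [e1, e2] at h
  linarith

theorem disk_pot {U V : Word} {p : KP} (hD : Closed (U ++ p :: V)) {ρ : ℕ → ℕ → ℤ}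
    (hρ : RLab (U ++ p :: V) ρ) {i : ℕ} {b : Bool} (hp : tgP p = .cr i b)
    {Eu Ev : List (Slice Bool Bool)} {L R : List (Bool × Bool)} {s₁ y s₂ t₁ y' t₂ z : Bool}
    (hE : Labelling true (Eu ++ ⟨L, .cr b s₁ y s₂ t₁ y' t₂ z, R⟩ :: Ev) (tg (U ++ p :: V)))
    (hEu : Eu.map Slice.plain = tg U) (hS : ∀ s ∈ Eu ++ Ev, s.p.Same) :
    (if s₁ then ρ U.length (i + 1) - ρ U.length i else 0) +
      (if s₂ then ρ U.length (i + 2) - ρ U.length (i + 1) else 0) =
    (if t₁ then ρ (U.length + 1) (i + 1) - ρ U.length i else 0) +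
      (if t₂ then ρ U.length (i + 2) - ρ (U.length + 1) (i + 1) else 0) := by
  have hEr := mkE_lab hD hρ
  obtain ⟨R', EV, he⟩ := mkE_split hD hp ρ
  rw [he] at hEr
  have hlenL : L.length = i := by
    have h1 := hE.2
    rw [List.map_append, List.map_cons, hEu] at h1
    have h2 : tg (U ++ p :: V) = tg U ++ tgP p :: tg V := by simp [tg]
    rw [h2, hp] at h1
    have h3 := (List.append_cancel_left h1)
    simp only [List.cons.injEq, Slice.plain, TG.Piece.cr.injEq] at h3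
    exact h3.1.1
  have hlen : Eu.length = (mkE U ρ 0).length := by
    rw [mkE_len]
    have := congrArg List.length hEu
    simpa [tg] using this
  set φ : Bool × Unit → Bool × ℤ → Bool × ℤ → Bool := fun s _ _ => s.1 with hφ
  set ψ : Bool × ℤ → ℤ := Prod.snd with hψ
  have hZ := TG.labelling_tr (φ := φ) (fun _ _ _ => rfl) ψ (TG.labelling_zip hE hEr)
  rw [TG.zipE_append _ _ _ _ hlen] at hZ
  simp only [TG.zipE, List.zipWith_cons_cons, trE, List.map_append, List.map_cons] at hZ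
  obtain ⟨K, k1, k2, k3⟩ := (TG.path_append _ _ _ _ _).1 hZ.1
  have sm1 : ∀ (A : List (Slice Bool Bool)) (B : List (Slice Unit ℤ)), (∀ s ∈ A, s.p.Same) →
      ∀ s ∈ (List.zipWith Slice.zip A B).map (Slice.tr φ ψ (true, ρ 0 0)), s.p.Same := by
    intro A B hA s hs
    obtain ⟨q, hq, rfl⟩ := List.mem_map.1 hs
    obtain ⟨x, hx, x', -, rfl⟩ := TG.mem_zipE hq
    exact same_tr Prod.fst ψ _ _ (TG.zip_same (hA x hx) (same_unit x'))
  have p1 := pot_path _ _ _ _ k1 (sm1 _ _ (fun s hs => hS s (by simp [hs])))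
  have p2 := pot_path _ _ _ _ k3 (sm1 _ _ (fun s hs => hS s (by simp [hs])))
  rw [← k2] at p1
  have p3 := p1.symm.trans p2.symm
  have hcur : cur (ρ 0 0) (trF φ ψ (true, ρ 0 0) (TG.zipF L (row (ρ U.length) 0 i))) =
      ρ U.length i := by
    have e1 : cur (ρ 0 0) (trF φ ψ (true, ρ 0 0) (TG.zipF L (row (ρ U.length) 0 i))) = _ :=
      TG.cur_trF φ ψ (true, ρ 0 0) (TG.zipF L (row (ρ U.length) 0 i))
    rw [e1, TG.cur_zipF _ _ _ _ (by rw [row_len, hlenL])]
    show cur (ρ 0 0) (row (ρ U.length) 0 i) = _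
    rw [← rlab_zero hρ U.length (by simp), row_cur, zero_add]
  have p4 := pot_cr _ _ _ _ _ _ _ _ _ _ _ p3
  simp only [Slice.tr, Slice.zip, Loc.zip, Loc.tr, hφ, hψ] at p4 hcur
  rw [hcur] at p4
  exact p4

theorem getElem_split (U V : Word) (p : KP) (h : U.length < (U ++ p :: V).length) :
    (U ++ p :: V)[U.length] = p := by
  simp

theorem no_disk {D : Word} (hD : Closed D) (hR : Reduced D) (u : List TG.Piece) (i : ℕ) (b : Bool)
    (v : List TG.Piece) (h : tg D = u ++ .cr i b :: v) : ¬ TG.DiskAt u i b v := by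
  obtain ⟨U, p, V, rfl, rfl, hp, rfl⟩ := tg_split h
  rintro ⟨Eu, Ev, L, R, s₁, y, s₂, t₁, y', t₂, z, hE, hEu, -, -, hS, hcase⟩
  rw [← h] at hE
  have ht : U.length < (U ++ p :: V).length := by simp
  have hpc : (U ++ p :: V)[U.length] = Helper454.Kauf.Piece.pos i ∨
      (U ++ p :: V)[U.length] = Helper454.Kauf.Piece.neg i := by
    rw [getElem_split U V p ht]
    rcases tgP_cr hp with ⟨h1, -⟩ | ⟨h1, -⟩
    · exact Or.inl h1
    · exact Or.inr h1
  obtain ⟨⟨r1, hr1, hn1⟩, r2, hr2, hn2⟩ := hR U.length ht i hpc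
  have key : ∀ x y : Bool, (if x then (1 : ℤ) else 0) = (if y then (1 : ℤ) else 0) → x = y := by
    intro x y; cases x <;> cases y <;> simp
  rcases hcase with ⟨rfl, rfl, hne⟩ | ⟨rfl, rfl, hne⟩
  · have h1 := disk_pot hD (rlab_map hr1 (fun x => if x then (1 : ℤ) else 0)) hp hE hEu hS
    apply hn1
    apply key
    cases s₁ <;> cases t₁
    · exact absurd rfl hne
    · simp only [Bool.false_eq_true, if_false, if_true] at h1
      linarith
    · simp only [Bool.false_eq_true, if_false, if_true] at h1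
      linarith
    · exact absurd rfl hne
  · have h1 := disk_pot hD (rlab_map hr2 (fun x => if x then (1 : ℤ) else 0)) hp hE hEu hS
    apply hn2
    apply key
    cases s₁ <;> cases s₂
    · exact absurd rfl hne
    · simp only [Bool.false_eq_true, if_false, if_true] at h1
      linarith
    · simp only [Bool.false_eq_true, if_false, if_true] at h1
      linarith
    · exact absurd rfl hne

/-! ### external corners -/

theorem ext_lab {U V : Word} {p : KP} (hD : Closed (U ++ p :: V)) {r : ℕ → ℕ → Bool}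
    (hr : RLab (U ++ p :: V) r) (h0 : r 0 0 = true) {i : ℕ} {b : Bool} (hp : tgP p = .cr i b)
    (k : Fin 4) (hk : TG.External (tg U) i b (tg V) k) :
    TG.corner (r U.length i) (r U.length (i + 1)) (r U.length (i + 2))
      (r (U.length + 1) (i + 1)) k = true := by
  have hEr := mkE_lab hD hr
  obtain ⟨R', EV, he⟩ := mkE_split hD hp r
  obtain ⟨n, hn1, hn2⟩ := width_append hD
  have hplU : (mkE U r 0).map Slice.plain = tg U := (mkE_spec U r 0 n hn1 (fun t ht => by
    have h1 := hr.2.2 t (by simp; omega)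
    rw [List.getElem_append_left ht] at h1
    exact h1)).2
  have e0 : tg (U ++ p :: V) = tg U ++ .cr i b :: tg V := by
    simp [tg, hp]
  have hhl := holeLabels_nil (a := true) hEr.2
  rw [he, h0] at hEr
  rw [he] at hhl
  rw [e0] at hEr
  have := hk (mkE U r 0) EV (row (r U.length) 0 i) R' (r U.length (i + 1))
    (r (U.length + 1) (i + 1)) (r U.length (i + 2)) hEr hplU (by
      rw [hhl]; simp)
  have hc : cur true (row (r U.length) 0 i) = r U.length i := by
    rw [← h0, ← rlab_zero hr U.length (by simp), row_cur, zero_add]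
  rw [hc] at this
  exact this

theorem ext_par {U V : Word} {p : KP} (hD : Closed (U ++ p :: V)) {i : ℕ} {b : Bool}
    (hp : tgP p = .cr i b) : ∃ x y z y' : Bool, x ≠ y ∧ y ≠ z ∧ x ≠ y' ∧
      ∀ k : Fin 4, TG.External (tg U) i b (tg V) k → TG.corner x y z y' k = true := by
  obtain ⟨P, hP, hA⟩ := TG.exists_std (wf_of_width _ 0 0 hD)
  have e0 : tg (U ++ p :: V) = tg U ++ .cr i b :: tg V := by
    simp [tg, hp]
  rw [e0] at hP
  obtain ⟨Pu, Pv, rfl, h1, h2⟩ := TG.split_plain P _ _ hP.2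
  obtain ⟨s, Pv, rfl, h3, h4⟩ := List.map_eq_cons_iff.1 h2
  obtain ⟨L, R, s₁, y, s₂, t₁, y', t₂, z, rfl, hL⟩ := TG.plain_cr s i b h3
  obtain ⟨m1, m2⟩ := TG.src_mem_sts _ _ _ _ hP.1
    (⟨L, .cr b s₁ y s₂ t₁ y' t₂ z, R⟩ : Slice Unit ℕ) (by simp)
  have m1' : L ++ ((), y) :: ((), z) :: R ∈
      sts 0 [] (Pu ++ ⟨L, .cr b s₁ y s₂ t₁ y' t₂ z, R⟩ :: Pv) := by
    simpa [Slice.src, Loc.src] using m1
  have m2' : L ++ ((), y') :: ((), z) :: R ∈
      sts 0 [] (Pu ++ ⟨L, .cr b s₁ y s₂ t₁ y' t₂ z, R⟩ :: Pv) := by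
    simpa [Slice.tgt, Loc.tgt] using m2
  obtain ⟨-, a2, a3, -⟩ := TG.state_adj hA m1'
  obtain ⟨-, a4, a5, -⟩ := TG.state_adj hA m2'
  set ψ : ℕ → Bool := fun g => decide (g = 0) with hψ
  have hne : ∀ x y : ℕ, TG.R01 x y → ψ x ≠ ψ y := by
    rintro x y (⟨rfl, rfl⟩ | ⟨rfl, rfl⟩) <;> simp [hψ]
  refine ⟨ψ (cur 0 L), ψ y, ψ z, ψ y', hne _ _ a2, hne _ _ a3, hne _ _ a4, ?_⟩
  intro k hk
  have hlab := TG.labelling_tr (φ := (kp : Unit → ℕ → ℕ → Unit)) TG.sym_kp ψ hP
  have hhl := holeLabels_nil (a := true) (hlab.2.trans e0.symm)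
  simp only [trE, List.map_append, List.map_cons, Slice.tr, Loc.tr] at hlab hhl
  have h5 : (Pu.map (Slice.tr (kp : Unit → ℕ → ℕ → Unit) ψ 0)).map Slice.plain = tg U := by
    rw [← h1]
    exact TG.plain_trE _ _ _ _
  have := hk _ _ _ _ _ _ _ hlab h5 (by rw [hhl]; simp)
  have hc : cur true (trF (kp : Unit → ℕ → ℕ → Unit) ψ 0 L) = ψ (cur 0 L) :=
    TG.cur_trF (kp : Unit → ℕ → ℕ → Unit) ψ 0 L
  rw [hc] at this
  exact this

theorem simple {D : Word} (hD : Closed D) (hR : Reduced D) : TG.Simple (tg D) := by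
  refine ⟨fun u i b v h => no_disk hD hR u i b v h, ?_⟩
  intro u i b v h k k' hk hk'
  obtain ⟨U, p, V, rfl, rfl, hp, rfl⟩ := tg_split h
  have ht : U.length < (U ++ p :: V).length := by simp
  have hpc : (U ++ p :: V)[U.length] = Helper454.Kauf.Piece.pos i ∨
      (U ++ p :: V)[U.length] = Helper454.Kauf.Piece.neg i := by
    rw [getElem_split U V p ht]
    rcases tgP_cr hp with ⟨h1, -⟩ | ⟨h1, -⟩
    · exact Or.inl h1
    · exact Or.inr h1
  obtain ⟨⟨r1, hr1, hn1⟩, r2, hr2, hn2⟩ := hR U.length ht i hpc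
  -- labellings with the label `true` outside
  have norm : ∀ r : ℕ → ℕ → Bool, RLab (U ++ p :: V) r → ∃ r' : ℕ → ℕ → Bool,
      RLab (U ++ p :: V) r' ∧ r' 0 0 = true ∧ ∀ t j t' j', r t j ≠ r t' j' → r' t j ≠ r' t' j' := by
    intro r hr
    by_cases h0 : r 0 0 = true
    · exact ⟨r, hr, h0, fun _ _ _ _ h => h⟩
    · refine ⟨fun t j => !r t j, rlab_map hr (fun x => !x), by simpa using h0, ?_⟩
      intro t j t' j' h h'
      apply h
      simpa using h'
  obtain ⟨q1, hq1, z1, n1⟩ := norm r1 hr1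
  obtain ⟨q2, hq2, z2, n2⟩ := norm r2 hr2
  have c1 := n1 _ _ _ _ hn1
  have c2 := n2 _ _ _ _ hn2
  have a1 := ext_lab hD hq1 z1 hp k hk
  have a1' := ext_lab hD hq1 z1 hp k' hk'
  have a2 := ext_lab hD hq2 z2 hp k hk
  have a2' := ext_lab hD hq2 z2 hp k' hk'
  obtain ⟨x, y, z, y', e1, e2, e3, hpar⟩ := ext_par hD hp
  have b1 := hpar k hk
  have b2 := hpar k' hk'
  clear hpar hk hk'
  fin_cases k <;> fin_cases k' <;> simp only [TG.corner, Fin.isValue, Fin.zero_eta, Fin.mk_one,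
    Fin.reduceFinMk, Matrix.cons_val_zero, Matrix.cons_val_one, Matrix.cons_val] at * <;>
    simp_all

end Pool.Agent.Helper82_Alt.PK3
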