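import Pool.Agent.Helper82_Alt.Run

/-!
# Layered braid words are determined by their permutation
-/

set_option autoImplicit false
set_option linter.unusedSimpArgs false

namespace Pool.Agent.Helper82_Alt

open Pool.Agent.Helper454.Kauf
open Pool.Agent.Helper454.Kauf.Piece (birth death pos neg)

namespace PLay

/-- `w` is a word of crossings; the strands have the heights `h` above and `h'` below, at every
crossing the strand with the larger height is the upper one. -/
inductive Lay : List ℕ → Word → List ℕ → Prop
  | nil (h : List ℕ) : Lay h [] h
  | cons (a c : List ℕ) (x y : ℕ) (w : Word) (h' : List ℕ) (hxy : x ≠ y) :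
      Lay (a ++ y :: x :: c) w h' → Lay (a ++ x :: y :: c) (cx (decide (y < x)) a.length :: w) h'

theorem Lay.append {h h1 h2 : List ℕ} {u v : Word} (H : Lay h u h1) (H' : Lay h1 v h2) :
    Lay h (u ++ v) h2 := by
  induction H with
  | nil h => exact H'
  | cons a c x y w h' hxy _ ih => exact Lay.cons a c x y _ _ hxy (ih H')

theorem Lay.perm {h h' : List ℕ} {w : Word} (H : Lay h w h') : h'.Perm h := by
  induction H with
  | nil h => exact List.Perm.refl _
  | cons a c x y w h' hxy _ ih =>
    exact ih.trans ((List.Perm.swap x y c).append_left a)

theorem Lay.cw {h h' : List ℕ} {w : Word} (H : Lay h w h') {n : ℕ} (hn : h.length ≤ n) :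
    CW n w := by
  induction H with
  | nil h => exact CW.nil n
  | cons a c x y w h' hxy _ ih =>
    simp only [List.length_append, List.length_cons] at hn ih
    exact CW.cons _ (by omega) (ih (by omega))

theorem ov_inv {n : ℕ} : ∀ (e i : ℕ), (e = 0 ∨ i + e + 1 ≤ n) →
    ∃ v, CW n v ∧ E n (ov i e ++ v) [] := by
  intro e
  induction e with
  | zero => intro i _; exact ⟨[], CW.nil n, E.refl (m := n) rfl⟩
  | succ e ih =>
    intro i h
    obtain ⟨v, hv, he⟩ := ih (i + 1) (by omega)
    refine ⟨v ++ [pos i], hv.append (CW.pos (by omega)), ?_⟩
    have h1 := he.congC (u := [neg i]) (v := [pos i]) (CW.neg (by omega))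
      ((CW_ov _ _ (by omega)).append hv) (CW.pos (by omega))
    have h2 : E n ([neg i] ++ [] ++ [pos i]) [] := e_r2 (n := n) (i := i) true (by omega)
    have h3 := h1.trans h2
    simpa [ov] using h3

/-- The strand with the largest height moves to the far right. -/
theorem top {h h' : List ℕ} {w : Word} (H : Lay h w h') : ∀ (a c : List ℕ) (t : ℕ),
    h = a ++ t :: c → (∀ x ∈ a ++ c, x < t) → ∃ (a' c' : List ℕ) (w0 : Word),
      h' = a' ++ t :: c' ∧ Lay (a ++ c) w0 (a' ++ c') ∧
      ∀ n, h.length ≤ n → E n (w ++ ov a'.length c'.length) (ov a.length c.length ++ w0) := by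
  induction H with
  | nil h =>
    intro a c t hh _
    refine ⟨a, c, [], hh, Lay.nil _, fun n hn => ?_⟩
    rw [List.nil_append, List.append_nil]
    subst hh
    simp only [List.length_append, List.length_cons] at hn
    exact E.refl (w_ov _ _ (by omega))
  | cons a1 c1 x y w h' hxy hw ih =>
    intro a c t hh ht
    rcases split4 hh.symm with ⟨r, h1, h2⟩ | ⟨h1, h2, h3⟩ | ⟨h1, h2, h3⟩ | ⟨r, h1, h2⟩
    · subst h1 h2
      obtain ⟨a', c', w0, e1, e2, e3⟩ := ih (a1 ++ y :: x :: r) c t (by simp) (by
        intro z hz; apply ht; simp only [List.mem_append, List.mem_cons] at hz ⊢; tauto)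
      refine ⟨a', c', cx (decide (y < x)) a1.length :: w0, e1, ?_, fun n hn => ?_⟩
      · have := Lay.cons a1 (r ++ c) x y w0 (a' ++ c') hxy (by simpa using e2)
        simpa using this
      · have hn' : (a1 ++ y :: x :: (r ++ t :: c)).length ≤ n := by
          simp only [List.length_append, List.length_cons] at hn ⊢; omega
        have f1 := (e3 n hn').left [cx (decide (y < x)) a1.length] (CW.one _ (by
          simp only [List.length_append, List.length_cons] at hn; omega)).width
        have f2 := (ov_left (n := n) (i := (a1 ++ y :: x :: r).length) (e := c.length)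
          (j := a1.length) (decide (y < x)) (by simp) (by
            simp only [List.length_append, List.length_cons] at hn ⊢; omega)).symm.right w0 (by
            obtain ⟨⟨m, g1, g2⟩, -⟩ := f1
            exact ⟨m, by simpa only [List.append_assoc] using g2⟩)
        have f3 := f1.trans (by simpa only [List.append_assoc] using f2)
        simpa using f3
    · subst h1 h2 h3
      have hx : x < t := ht x (by simp)
      have hd : decide (t < x) = false := by simp only [decide_eq_false_iff_not]; omega
      obtain ⟨a', c', w0, e1, e2, e3⟩ := ih a1 (x :: c) t (by simp) (by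
        intro z hz; apply ht; simp only [List.mem_append, List.mem_cons] at hz ⊢; tauto)
      refine ⟨a', c', w0, e1, by simpa using e2, fun n hn => ?_⟩
      have hn' : (a1 ++ t :: x :: c).length ≤ n := by
        simp only [List.length_append, List.length_cons] at hn ⊢; omega
      rw [hd, cx_false]
      have f1 := (e3 n hn').left [pos a1.length] (CW.pos (by
          simp only [List.length_append, List.length_cons] at hn; omega)).width
      have f2 := (e_r2 (n := n) (i := a1.length) false (by
          simp only [List.length_append, List.length_cons] at hn; omega)).right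
          (ov (a1.length + 1) c.length ++ w0) (by
            obtain ⟨⟨m, g1, g2⟩, -⟩ := f1
            exact ⟨m, by simpa [ov, cx] using g2⟩)
      have f3 := f1.trans (s := ov (a1.length + 1) c.length ++ w0) (by
        simpa [ov, cx] using f2)
      simpa using f3
    · subst h1 h2 h3
      have hx : y < t := ht y (by simp)
      have hd : decide (y < t) = true := by simpa using hx
      obtain ⟨a', c', w0, e1, e2, e3⟩ := ih (a ++ [y]) c1 t (by simp) (by
        intro z hz; apply ht; simp only [List.mem_append, List.mem_cons] at hz ⊢; tauto)
      refine ⟨a', c', w0, e1, by simpa using e2, fun n hn => ?_⟩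
      have hn' : (a ++ y :: t :: c1).length ≤ n := by
        simp only [List.length_append, List.length_cons] at hn ⊢; omega
      rw [hd, cx_true]
      have f1 := (e3 n hn').left [neg a.length] (CW.neg (by
          simp only [List.length_append, List.length_cons] at hn; omega)).width
      simpa [ov] using f1
    · subst h1 h2
      obtain ⟨a', c', w0, e1, e2, e3⟩ := ih a (r ++ y :: x :: c1) t (by simp) (by
        intro z hz; apply ht; simp only [List.mem_append, List.mem_cons] at hz ⊢; tauto)
      refine ⟨a', c', cx (decide (y < x)) (a.length + r.length) :: w0, e1, ?_, fun n hn => ?_⟩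
      · have := Lay.cons (a ++ r) c1 x y w0 (a' ++ c') hxy (by simpa using e2)
        simpa using this
      · have hn' : (a ++ t :: r ++ y :: x :: c1).length ≤ n := by
          simp only [List.length_append, List.length_cons] at hn ⊢; omega
        have f1 := (e3 n hn').left [cx (decide (y < x)) (a ++ t :: r).length] (CW.one _ (by
          simp only [List.length_append, List.length_cons] at hn ⊢; omega)).width
        have f2 := (ov_mid (n := n) (i := a.length) (e := (r ++ y :: x :: c1).length)
          (j := a.length + r.length) (decide (y < x)) (by omega) (by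
            simp only [List.length_append, List.length_cons]; omega) (by
            simp only [List.length_append, List.length_cons] at hn ⊢; omega)).symm.right w0 (by
            obtain ⟨⟨m, g1, g2⟩, -⟩ := f1
            refine ⟨m, ?_⟩
            rw [← g2]
            congr 1
            simp [Nat.add_assoc])
        have hl : (a ++ t :: r).length = a.length + r.length + 1 := by simp; omega
        rw [hl] at f1 ⊢
        have f3 := f1.trans (by simpa only [List.append_assoc] using f2)
        simpa using f3

/-- layered words with the same permutation -/
theorem uniq : ∀ (k : ℕ) (h h' : List ℕ) (w w' : Word), h.length = k → h.Nodup → Lay h w h' →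
    Lay h w' h' → ∀ n, k ≤ n → E n w w' := by
  intro k
  induction k with
  | zero =>
    intro h h' w w' hk _ H H' n _
    obtain rfl := List.eq_nil_of_length_eq_zero hk
    have key : ∀ {g g' : List ℕ} {v : Word}, Lay g v g' → g = [] → v = [] := by
      intro g g' v G hg
      cases G with
      | nil _ => rfl
      | cons a c x y w h' hxy _ => simp at hg
    rw [key H rfl, key H' rfl]
    exact E.refl (m := n) rfl
  | succ k ih =>
    intro h h' w w' hk hnd H H' n hn
    have hne : h ≠ [] := by rintro rfl; simp at hk
    obtain ⟨t, ht, hmax⟩ : ∃ t ∈ h, ∀ x ∈ h, x ≤ t := by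
      obtain ⟨t, h1, h2⟩ := h.toFinset.exists_max_image id
        (by rw [List.toFinset_nonempty_iff]; exact hne)
      exact ⟨t, by simpa using h1, fun x hx => h2 x (by simpa using hx)⟩
    obtain ⟨a, c, rfl⟩ := List.append_of_mem ht
    have hlt : ∀ x ∈ a ++ c, x < t := by
      intro x hx
      have h1 : x ≤ t := hmax x (by
        simp only [List.mem_append, List.mem_cons] at hx ⊢; tauto)
      have h2 : x ≠ t := by
        rintro rfl
        have := (List.nodup_middle.1 hnd)
        rw [List.nodup_cons] at this
        exact this.1 hx
      omega
    obtain ⟨a1, c1, w0, e1, e2, e3⟩ := top H a c t rfl hlt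
    obtain ⟨a2, c2, w0', f1, f2, f3⟩ := top H' a c t rfl hlt
    have hnd' : h'.Nodup := H.perm.nodup_iff.2 hnd
    have heq : a1 = a2 ∧ c1 = c2 := by
      rw [e1] at f1 hnd'
      rcases List.append_eq_append_iff.1 f1 with ⟨r, g1, g2⟩ | ⟨r, g1, g2⟩
      · rcases r with _ | ⟨r0, r⟩
        · simp only [List.nil_append, List.cons.injEq] at g2
          exact ⟨by simpa using g1.symm, g2.2⟩
        · exfalso
          simp only [List.cons_append, List.cons.injEq] at g2
          obtain ⟨rfl, g2⟩ := g2
          rw [g2] at hnd'
          have := (List.nodup_append.1 hnd').2.1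
          simp at this
      · rcases r with _ | ⟨r0, r⟩
        · simp only [List.nil_append, List.cons.injEq] at g2
          exact ⟨by simpa using g1, g2.2.symm⟩
        · exfalso
          simp only [List.cons_append, List.cons.injEq] at g2
          obtain ⟨rfl, g2⟩ := g2
          rw [g1] at hnd'
          have := (List.nodup_append.1 hnd').1
          simp only [List.append_assoc, List.cons_append] at hnd'
          have h3 := List.nodup_middle.1 hnd'
          rw [List.nodup_cons] at h3
          exact h3.1 (by simp)
    obtain ⟨rfl, rfl⟩ := heq
    have hnd0 : (a ++ c).Nodup := (List.nodup_cons.1 (List.nodup_middle.1 hnd)).2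
    simp only [List.length_append, List.length_cons] at hk
    have hw0 := ih (a ++ c) (a1 ++ c1) w0 w0' (by rw [List.length_append]; omega) hnd0 e2 f2 n
      (by omega)
    have hlen : (a ++ t :: c).length ≤ n := by
      simp only [List.length_append, List.length_cons]; omega
    have hlen1 : a1.length + c1.length = a.length + c.length := by
      have := e2.perm.length_eq
      simpa only [List.length_append] using this
    obtain ⟨v, hv, hv'⟩ := ov_inv (n := n) c1.length a1.length (by omega)
    have c_w := H.cw hlen
    have c_w' := H'.cw hlen
    have c_w0 := e2.cw (n := n) (by rw [List.length_append]; omega)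
    have c_w0' := f2.cw (n := n) (by rw [List.length_append]; omega)
    have c_ov : CW n (ov a.length c.length) := CW_ov _ _ (by omega)
    have c_ov1 : CW n (ov a1.length c1.length) := CW_ov _ _ (by omega)
    -- w ~ w ov v ~ ov w0 v ~ ov w0' v ~ w' ov v ~ w'
    have s1 := hv'.symm.left w c_w.width
    have s2 := (e3 n hlen).right v ⟨n, ((c_w.append c_ov1).append hv).width⟩
    have s3 := (hw0.left (ov a.length c.length) c_ov.width).right v
      ⟨n, ((c_ov.append c_w0).append hv).width⟩
    have s4 := (f3 n hlen).symm.right v ⟨n, ((c_ov.append c_w0').append hv).width⟩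
    have s5 := hv'.left w' c_w'.width
    rw [List.append_nil, ← List.append_assoc] at s1
    rw [List.append_nil, ← List.append_assoc] at s5
    exact s1.trans (s2.trans (s3.trans (s4.trans s5)))

end PLay

end Pool.Agent.Helper82_Alt
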