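import Pool.Agent.Helper82_Alt.A10

/-! The lemmas of the files A1-A6 for isotopies of parts of diagrams which fix the rest. -/

set_option autoImplicit false
set_option linter.unusedSimpArgs false

namespace Pool.Agent.Helper82_Alt.Loc

open Pool.Agent.Helper454.Kauf
open Pool.Agent.Helper454.Kauf.Piece (birth death pos neg)

/-- one local move inside a diagram part with `n` strands at the top -/
inductive LStep (n : ℕ) : Word → Word → Prop
  | mk (x l r y : Word) (k m j : ℕ) : LocalMove l r → width x n = some k → width l k = some m →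
      width r k = some m → width y m = some j → LStep n (x ++ l ++ y) (x ++ r ++ y)

/-- `l` and `r` fit to `n` strands, have the same number of strands below, and differ by local moves
inside them. -/
def E (n : ℕ) (l r : Word) : Prop :=
  (∃ m, width l n = some m ∧ width r n = some m) ∧ Relation.EqvGen (LStep n) l r

theorem E.refl {n m : ℕ} {l : Word} (h : width l n = some m) : E n l l :=
  ⟨⟨m, h, h⟩, Relation.EqvGen.refl _⟩

theorem E.symm {n : ℕ} {l r : Word} (h : E n l r) : E n r l := by
  obtain ⟨⟨m, h1, h2⟩, h3⟩ := h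
  exact ⟨⟨m, h2, h1⟩, h3.symm⟩

theorem E.trans {n : ℕ} {l r s : Word} (h : E n l r) (h' : E n r s) : E n l s := by
  obtain ⟨⟨m, h1, h2⟩, h3⟩ := h
  obtain ⟨⟨m', h1', h2'⟩, h3'⟩ := h'
  have : m' = m := by rw [h2] at h1'; exact (Option.some.inj h1').symm
  subst this
  exact ⟨⟨m', h1, h2'⟩, h3.trans _ _ _ h3'⟩

theorem LStep.widths {n : ℕ} {l r : Word} (h : LStep n l r) : width l n = width r n := by
  obtain ⟨x, l, r, y, k, m, j, _, hx, hl, hr, hy⟩ := h
  rw [width_append, width_append, width_append, width_append, hx, Option.bind_some,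
    Option.bind_some, hl, hr]

theorem EqvGen.widths {n : ℕ} {l r : Word} (h : Relation.EqvGen (LStep n) l r) :
    width l n = width r n := by
  induction h with
  | rel a b h => exact h.widths
  | refl a => rfl
  | symm a b _ ih => exact ih.symm
  | trans a b c _ _ ih1 ih2 => exact ih1.trans ih2

theorem EqvGen.cong {n m j : ℕ} {l r : Word} (u v : Word) (h : Relation.EqvGen (LStep n) l r)
    (hu : width u m = some n) : width (u ++ l ++ v) m = some j →
    Relation.EqvGen (LStep m) (u ++ l ++ v) (u ++ r ++ v) := by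
  induction h with
  | rel a b h =>
    intro hv
    obtain ⟨x, l, r, y, k, p, j', hm, hx, hl, hr, hy⟩ := h
    rw [width_append, width_append, hu, Option.bind_some, width_append, width_append, hx,
      Option.bind_some, hl, Option.bind_some, hy, Option.bind_some] at hv
    have h1 : width (u ++ x) m = some k := by rw [width_append, hu, Option.bind_some, hx]
    have h2 : width (y ++ v) p = some j := by rw [width_append, hy, Option.bind_some, hv]
    have := LStep.mk (u ++ x) l r (y ++ v) k p j hm h1 hl hr h2
    have e1 : u ++ x ++ l ++ (y ++ v) = u ++ (x ++ l ++ y) ++ v := by simp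
    have e2 : u ++ x ++ r ++ (y ++ v) = u ++ (x ++ r ++ y) ++ v := by simp
    rw [e1, e2] at this
    exact Relation.EqvGen.rel _ _ this
  | refl a => intro _; exact Relation.EqvGen.refl _
  | symm a b hab ih =>
    intro hv
    refine (ih ?_).symm
    rw [width_append, width_append, hu, Option.bind_some] at hv ⊢
    rw [EqvGen.widths hab]; exact hv
  | trans a b c hab hbc ih1 ih2 =>
    intro hv
    refine (ih1 hv).trans _ _ _ (ih2 ?_)
    rw [width_append, width_append, hu, Option.bind_some] at hv ⊢
    rw [← EqvGen.widths hab]; exact hv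

theorem E.cong {n m : ℕ} {l r : Word} (u v : Word) (h : E n l r) (hu : width u m = some n)
    (hv : ∃ k, width (u ++ l ++ v) m = some k) : E m (u ++ l ++ v) (u ++ r ++ v) := by
  obtain ⟨⟨m', h1, h2⟩, h3⟩ := h
  obtain ⟨k, hk⟩ := hv
  refine ⟨⟨k, hk, ?_⟩, EqvGen.cong u v h3 hu hk⟩
  rw [width_append, width_append, hu, Option.bind_some, h1] at hk
  rw [width_append, width_append, hu, Option.bind_some, h2]
  exact hk

theorem E.left {n m : ℕ} {l r : Word} (u : Word) (h : E n l r) (hu : width u m = some n) :
    E m (u ++ l) (u ++ r) := by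
  obtain ⟨⟨m', h1, h2⟩, h3⟩ := h
  have := E.cong u [] ⟨⟨m', h1, h2⟩, h3⟩ hu ⟨m', by
    rw [List.append_nil, width_append, hu, Option.bind_some, h1]⟩
  simpa only [List.append_nil] using this

theorem E.right {n : ℕ} {l r : Word} (v : Word) (h : E n l r)
    (hv : ∃ k, width (l ++ v) n = some k) : E n (l ++ v) (r ++ v) := by
  have := E.cong [] v h (m := n) rfl (by simpa using hv)
  simpa using this

theorem E_of_local {n m : ℕ} {l r : Word} (h : LocalMove l r) (h1 : width l n = some m)
    (h2 : width r n = some m) : E n l r := by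
  refine ⟨⟨m, h1, h2⟩, Relation.EqvGen.rel _ _ ?_⟩
  have := LStep.mk [] l r [] n m m h rfl h1 h2 rfl
  simpa using this


/-! ### file A1 -/

theorem e_zig1 {n i : ℕ} (h : i < n) : E n [birth i, death (i + 1)] [] := by
  refine E_of_local (LocalMove.zigzag₁ i) (m := n) ?_ rfl
  rw [w_birth _ (by omega), w_death _ (by omega), w_nil]
  congr 1

theorem e_zig2 {n i : ℕ} (h : i < n) : E n [birth (i + 1), death i] [] := by
  refine E_of_local (LocalMove.zigzag₂ i) (m := n) ?_ rfl
  rw [w_birth _ (by omega), w_death _ (by omega), w_nil]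
  congr 1

theorem e_sb {n i : ℕ} (b : Bool) (h : i < n) :
    E n [birth i, cx b (i + 1)] [birth (i + 1), cx (!b) i] := by
  have hl : ∀ c : Bool, width [birth i, cx c (i + 1)] n = some (n + 2) := by
    intro c
    rw [w_birth _ (by omega), w_cx _ _ (by omega), w_nil]
  have hr : ∀ c : Bool, width [birth (i + 1), cx c i] n = some (n + 2) := by
    intro c
    rw [w_birth _ (by omega), w_cx _ _ (by omega), w_nil]
  cases b
  · exact E_of_local (LocalMove.slideBirth₁ i) (hl false) (hr true)
  · exact E_of_local (LocalMove.slideBirth₂ i) (hl true) (hr false)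

theorem e_sd {n i : ℕ} (b : Bool) (h : i + 3 ≤ n) :
    E n [cx b (i + 1), death i] [cx (!b) i, death (i + 1)] := by
  have hl : ∀ c : Bool, width [cx c (i + 1), death i] n = some (n - 2) := by
    intro c
    rw [w_cx _ _ (by omega), w_death _ (by omega), w_nil]
  have hr : ∀ c : Bool, width [cx c i, death (i + 1)] n = some (n - 2) := by
    intro c
    rw [w_cx _ _ (by omega), w_death _ (by omega), w_nil]
  cases b
  · exact E_of_local (LocalMove.slideDeath₁ i) (hl false) (hr true)
  · exact E_of_local (LocalMove.slideDeath₂ i) (hl true) (hr false)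

theorem e_r2 {n i : ℕ} (b : Bool) (h : i + 2 ≤ n) : E n [cx b i, cx (!b) i] [] := by
  cases b
  · exact E_of_local (LocalMove.second₁ i) (width_cx2 false true h h) rfl
  · exact E_of_local (LocalMove.second₂ i) (width_cx2 true false h h) rfl

theorem e_third {n i : ℕ} (h : i + 3 ≤ n) :
    E n [pos i, pos (i + 1), pos i] [pos (i + 1), pos i, pos (i + 1)] :=
  E_of_local (LocalMove.third i)
    (width_cx3 false false false (by omega) (by omega) (by omega))
    (width_cx3 false false false (by omega) (by omega) (by omega))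

/-- exchange of two far pieces -/
theorem e_far {n : ℕ} (p q : Piece) (h : p.index + p.ins ≤ q.index) (h' : q.index + q.ins ≤ n) :
    E n [p, q.moved (q.index + p.outs - p.ins)] [q, p] := by
  refine E_of_local (LocalMove.exchange p q h) (m := n + p.outs + q.outs - p.ins - q.ins) ?_ ?_
  · cases p <;> cases q <;>
      simp only [width, Piece.width, Piece.index, Piece.ins, Piece.outs, Piece.moved] at * <;>
      (repeat (first | rw [if_pos (by omega)] | rw [Option.bind_some])) <;>
      congr 1 <;> omega
  · cases p <;> cases q <;>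
      simp only [width, Piece.width, Piece.index, Piece.ins, Piece.outs, Piece.moved] at * <;>
      (repeat (first | rw [if_pos (by omega)] | rw [Option.bind_some])) <;>
      congr 1 <;> omega


/-! ### file A2 -/

theorem e_cc {n i j : ℕ} (b c : Bool) (h : i + 2 ≤ j) (h' : j + 2 ≤ n) :
    E n [cx b i, cx c j] [cx c j, cx b i] := by
  cases b <;> cases c
  · simpa [Piece.moved, Piece.index, Piece.outs, Piece.ins, cx] using e_far (n := n) (pos i) (pos j) h h'
  · simpa [Piece.moved, Piece.index, Piece.outs, Piece.ins, cx] using e_far (n := n) (pos i) (neg j) h h'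
  · simpa [Piece.moved, Piece.index, Piece.outs, Piece.ins, cx] using e_far (n := n) (neg i) (pos j) h h'
  · simpa [Piece.moved, Piece.index, Piece.outs, Piece.ins, cx] using e_far (n := n) (neg i) (neg j) h h'

theorem e_bc {n i j : ℕ} (c : Bool) (h : i ≤ j) (h' : j + 2 ≤ n) :
    E n [birth i, cx c (j + 2)] [cx c j, birth i] := by
  cases c
  · simpa [Piece.moved, Piece.index, Piece.outs, Piece.ins, cx] using e_far (n := n) (birth i) (pos j) h h'
  · simpa [Piece.moved, Piece.index, Piece.outs, Piece.ins, cx] using e_far (n := n) (birth i) (neg j) h h'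

theorem e_cb {n i j : ℕ} (c : Bool) (h : i + 2 ≤ j) (h' : j ≤ n) :
    E n [cx c i, birth j] [birth j, cx c i] := by
  cases c
  · simpa [Piece.moved, Piece.index, Piece.outs, Piece.ins, cx] using e_far (n := n) (pos i) (birth j) h h'
  · simpa [Piece.moved, Piece.index, Piece.outs, Piece.ins, cx] using e_far (n := n) (neg i) (birth j) h h'

theorem e_bb {n i j : ℕ} (h : i ≤ j) (h' : j ≤ n) :
    E n [birth i, birth (j + 2)] [birth j, birth i] := by
  simpa [Piece.moved, Piece.index, Piece.outs, Piece.ins] using e_far (n := n) (birth i) (birth j) h h'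

theorem e_cd {n i j : ℕ} (c : Bool) (h : i + 2 ≤ j) (h' : j + 2 ≤ n) :
    E n [cx c i, death j] [death j, cx c i] := by
  cases c
  · simpa [Piece.moved, Piece.index, Piece.outs, Piece.ins, cx] using e_far (n := n) (pos i) (death j) h h'
  · simpa [Piece.moved, Piece.index, Piece.outs, Piece.ins, cx] using e_far (n := n) (neg i) (death j) h h'

theorem e_dc {n i j : ℕ} (c : Bool) (h : i + 2 ≤ j) (h' : j + 2 ≤ n) :
    E n [death i, cx c (j - 2)] [cx c j, death i] := by
  cases c
  · simpa [Piece.moved, Piece.index, Piece.outs, Piece.ins, cx] using e_far (n := n) (death i) (pos j) h h'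
  · simpa [Piece.moved, Piece.index, Piece.outs, Piece.ins, cx] using e_far (n := n) (death i) (neg j) h h'

theorem E.congC {n : ℕ} {l r u v : Word} (h : E n l r) (hu : CW n u) (hl : CW n l) (hv : CW n v) :
    E n (u ++ l ++ v) (u ++ r ++ v) :=
  E.cong u v h hu.width ⟨n, ((hu.append hl).append hv).width⟩

theorem E.congC' {n : ℕ} {l r : Word} (u v : Word) (h : E n l r) (hu : CW n u) (hl : CW n l)
    (hv : CW n v) : E n (u ++ (l ++ v)) (u ++ (r ++ v)) := by
  have := h.congC hu hl hv
  simpa only [List.append_assoc] using this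

theorem e_inv {n : ℕ} (u : List (Bool × ℕ)) (h : ∀ p ∈ u, p.2 + 2 ≤ n) :
    E n (cw u ++ cw (ic u)) [] := by
  induction u with
  | nil => exact E.refl (m := n) rfl
  | cons p u ih =>
    have hp : p.2 + 2 ≤ n := h p (by simp)
    have hu : ∀ q ∈ u, q.2 + 2 ≤ n := fun q hq => h q (by simp [hq])
    have h1 : cw (p :: u) ++ cw (ic (p :: u)) = [cx p.1 p.2] ++ (cw u ++ cw (ic u)) ++ [cx (!p.1) p.2] := by
      simp [cw, ic]
    rw [h1]
    refine ((ih hu).congC (CW.one _ hp) ((CW_cw hu).append (CW_cw (mem_ic hu))) (CW.one _ hp)).trans ?_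
    simpa using e_r2 (n := n) p.1 hp

theorem e_inv' {n : ℕ} (u : List (Bool × ℕ)) (h : ∀ p ∈ u, p.2 + 2 ≤ n) :
    E n (cw (ic u) ++ cw u) [] := by
  have := e_inv (ic u) (mem_ic h)
  rwa [ic_ic] at this

theorem e_invcong {n : ℕ} {u v : List (Bool × ℕ)} (hu : ∀ p ∈ u, p.2 + 2 ≤ n)
    (hv : ∀ p ∈ v, p.2 + 2 ≤ n) (h : E n (cw u) (cw v)) : E n (cw (ic u)) (cw (ic v)) := by
  -- ic u ~ ic u v ic v ~ ic u u ic v ~ ic v
  have a1 : E n (cw (ic u) ++ (cw v ++ cw (ic v))) (cw (ic u) ++ []) :=
    (e_inv v hv).left _ (CW_cw (mem_ic hu)).width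
  have a2 : E n (cw (ic u) ++ cw u ++ cw (ic v)) (cw (ic u) ++ cw v ++ cw (ic v)) :=
    h.congC (CW_cw (mem_ic hu)) (CW_cw hu) (CW_cw (mem_ic hv))
  have a3 : E n (cw (ic u) ++ cw u ++ cw (ic v)) ([] ++ cw (ic v)) :=
    (e_inv' u hu).right _ ⟨n, ((CW_cw (mem_ic hu)).append (CW_cw hu)).append (CW_cw (mem_ic hv)) |>.width⟩
  rw [List.append_nil] at a1
  rw [List.nil_append] at a3
  have a1' := a1.symm
  rw [← List.append_assoc] at a1'
  exact (a1'.trans a2.symm).trans a3

theorem e_third' {n i : ℕ} (h : i + 3 ≤ n) :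
    E n [neg i, neg (i + 1), neg i] [neg (i + 1), neg i, neg (i + 1)] := by
  have := e_invcong (n := n) (u := [(false, i), (false, i + 1), (false, i)])
    (v := [(false, i + 1), (false, i), (false, i + 1)])
    (by simp; omega) (by simp; omega) (e_third h)
  simpa [ic, cw, cx] using this

/-- a strand passing over a crossing -/
theorem e_over {n i : ℕ} (b : Bool) (h : i + 3 ≤ n) :
    E n [neg i, neg (i + 1), cx b i] [cx b (i + 1), neg i, neg (i + 1)] := by
  cases b
  · -- pos
    have c1 : i + 2 ≤ n := by omega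
    have c2 : i + 1 + 2 ≤ n := by omega
    have b1 : E n ([pos (i + 1), neg (i + 1)] ++ [neg i, neg (i + 1), pos i])
        ([] ++ [neg i, neg (i + 1), pos i]) :=
      (e_r2 (n := n) false c2).right _ ⟨n, (CW.cons false c2 (CW.cons true c2 (CW.cons true c1
        (CW.cons true c2 (CW.cons false c1 (CW.nil n)))))).width⟩
    have b2 : E n ([pos (i + 1)] ++ ([neg i, neg (i + 1), neg i] ++ [pos i]))
        ([pos (i + 1)] ++ ([neg (i + 1), neg i, neg (i + 1)] ++ [pos i])) :=
      E.congC' [pos (i + 1)] [pos i] (e_third' h) (CW.pos c2) (CW.cons true c1 (CW.cons true c2 (CW.cons true c1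
        (CW.nil n)))) (CW.pos c1)
    have b3 : E n ([pos (i + 1), neg i, neg (i + 1)] ++ [neg i, pos i])
        ([pos (i + 1), neg i, neg (i + 1)] ++ []) :=
      (e_r2 (n := n) true c1).left _ (CW.cons false c2 (CW.cons true c1
        (CW.cons true c2 (CW.nil n)))).width
    exact (b1.symm.trans (b2.symm.trans b3))
  · exact e_third' h

/-- far crossings commute with `ov` -/
theorem ov_left {n i e j : ℕ} (b : Bool) (h : j + 2 ≤ i) (h' : i + e + 1 ≤ n) :
    E n (ov i e ++ [cx b j]) ([cx b j] ++ ov i e) := by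
  induction e generalizing i with
  | zero => exact E.refl (m := n) (CW.one b (by omega)).width
  | succ e ih =>
    have h1 := (ih (i := i + 1) (by omega) (by omega)).left [neg i] (CW.neg (by omega)).width
    have h2 := (e_cc (n := n) (i := j) (j := i) b true h (by omega)).symm.right (ov (i + 1) e)
      ⟨n, (CW.cons true (by omega) (CW.cons b (by omega) (CW_ov (i + 1) e (by omega)))).width⟩
    exact h1.trans h2

theorem ov_right {n i e j : ℕ} (b : Bool) (h : i + e + 1 ≤ j) (h' : j + 2 ≤ n) :
    E n (ov i e ++ [cx b j]) ([cx b j] ++ ov i e) := by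
  induction e generalizing i with
  | zero => exact E.refl (m := n) (CW.one b (by omega)).width
  | succ e ih =>
    have h1 := (ih (i := i + 1) (by omega)).left [neg i] (CW.neg (by omega)).width
    have h2 := (e_cc (n := n) (i := i) (j := j) true b (by omega) h').right (ov (i + 1) e)
      ⟨n, (CW.cons true (by omega) (CW.cons b (by omega) (CW_ov (i + 1) e (by omega)))).width⟩
    exact h1.trans h2

theorem ov_mid {n i e j : ℕ} (b : Bool) (h : i ≤ j) (h1 : j + 2 ≤ i + e) (h' : i + e + 1 ≤ n) :
    E n (ov i e ++ [cx b j]) ([cx b (j + 1)] ++ ov i e) := by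
  obtain ⟨a, rfl⟩ := Nat.exists_eq_add_of_le h
  obtain ⟨c, hc⟩ := Nat.exists_eq_add_of_le h1
  have he : e = a + (2 + c) := by omega
  subst he
  have e0 : ov (i + a) (2 + c) = [neg (i + a), neg (i + a + 1)] ++ ov (i + a + 2) c := by
    rw [show 2 + c = c + 1 + 1 by omega, ov, ov]; rfl
  rw [ov_add i a (2 + c), e0]
  have W1 : CW n (ov i a) := CW_ov i a (by omega)
  have W2 : CW n (ov (i + a + 2) c) := CW_ov _ _ (by omega)
  have W3 : CW n [neg (i + a), neg (i + a + 1)] :=
    CW.cons true (by omega) (CW.cons true (by omega) (CW.nil n))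
  have s1 := (ov_left (n := n) (i := i + a + 2) (e := c) (j := i + a) b (by omega) (by omega)).left
    (ov i a ++ [neg (i + a), neg (i + a + 1)]) (W1.append W3).width
  have s2 := (e_over (n := n) (i := i + a) b (by omega)).congC (u := ov i a) (v := ov (i + a + 2) c)
    W1 (CW.cons true (by omega) (CW.cons true (by omega) (CW.one b (by omega)))) W2
  have s3 := (ov_right (n := n) (i := i) (e := a) (j := i + a + 1) b (by omega) (by omega)).right
    ([neg (i + a), neg (i + a + 1)] ++ ov (i + a + 2) c)
    ⟨n, ((W1.append (CW.one b (by omega))).append (W3.append W2)).width⟩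
  simp only [List.append_assoc, List.cons_append, List.nil_append] at s1 s2 s3 ⊢
  exact s1.trans (s2.trans s3)

theorem ov_b_left {n i e p : ℕ} (h : p ≤ i) (h' : i + e + 1 ≤ n) :
    E n (ov i e ++ [birth p]) ([birth p] ++ ov (i + 2) e) := by
  induction e generalizing i with
  | zero =>
    refine E.refl (m := n + 2) ?_
    simp only [ov, List.nil_append]
    rw [w_birth _ (by omega), w_nil]
  | succ e ih =>
    have h1 := (ih (i := i + 1) (by omega) (by omega)).left [neg i] (CW.neg (by omega)).width
    have h2 := (e_bc (n := n) (i := p) (j := i) true h (by omega)).symm.right (ov (i + 3) e)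
      ⟨n + 2, by
        rw [List.cons_append, w_cx _ _ (by omega), List.cons_append, List.nil_append,
          w_birth _ (by omega), w_ov _ _ (by omega)]⟩
    exact h1.trans h2

theorem ov_b_right {n i e p : ℕ} (h : i + e + 1 ≤ p) (h' : p ≤ n) :
    E n (ov i e ++ [birth p]) ([birth p] ++ ov i e) := by
  induction e generalizing i with
  | zero =>
    refine E.refl (m := n + 2) ?_
    simp only [ov, List.nil_append]
    rw [w_birth _ (by omega), w_nil]
  | succ e ih =>
    have h1 := (ih (i := i + 1) (by omega)).left [neg i] (CW.neg (by omega)).width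
    have h2 := (e_cb (n := n) (i := i) (j := p) true (by omega) h').right (ov (i + 1) e)
      ⟨n + 2, by
        rw [List.cons_append, w_cx _ _ (by omega), List.cons_append, List.nil_append,
          w_birth _ (by omega), w_ov _ _ (by omega)]⟩
    exact h1.trans h2

theorem e_over_birth {n j : ℕ} (h : j < n) : E n [birth (j + 1), neg j, neg (j + 1)] [birth j] := by
  have h1 := (e_sb (n := n) (i := j) false h).symm.right [neg (j + 1)] ⟨n + 2, by
    simp only [List.cons_append, List.nil_append]
    rw [w_birth _ (by omega), w_cx _ _ (by omega), ← cx_true, w_cx _ _ (by omega), w_nil]⟩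
  have h2 := (e_r2 (n := n + 2) (i := j + 1) false (by omega)).left (m := n) [birth j] (by
    rw [w_birth _ (by omega), w_nil])
  exact h1.trans h2

theorem ov_b_mid {n i e p : ℕ} (h : i ≤ p) (h1 : p ≤ i + e) (h' : i + e + 1 ≤ n) :
    E n (ov i e ++ [birth p]) ([birth (p + 1)] ++ ov i (e + 2)) := by
  obtain ⟨a, rfl⟩ := Nat.exists_eq_add_of_le h
  obtain ⟨c, hc⟩ := Nat.exists_eq_add_of_le h1
  have he : e = a + c := by omega
  subst he
  have e0 : ov i (a + c + 2) = ov i a ++ ([neg (i + a), neg (i + a + 1)] ++ ov (i + a + 2) c) := by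
    rw [show a + c + 2 = a + (c + 1 + 1) by omega, ov_add, ov, ov]; rfl
  rw [ov_add i a c, e0]
  have W1 : width (ov i a) n = some n := w_ov i a (by omega)
  have s1 := (ov_b_left (n := n) (i := i + a) (e := c) (p := i + a) (by omega) (by omega)).left
    (ov i a) W1
  have s2 := ((e_over_birth (n := n) (j := i + a) (by omega)).symm.cong (ov i a) (ov (i + a + 2) c) W1
    ⟨n + 2, by
      rw [width_append, width_append, W1, Option.bind_some, w_birth _ (by omega), w_nil,
        Option.bind_some, w_ov _ _ (by omega)]⟩)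
  have s3 := (ov_b_right (n := n) (i := i) (e := a) (p := i + a + 1) (by omega) (by omega)).right
    ([neg (i + a), neg (i + a + 1)] ++ ov (i + a + 2) c)
    ⟨n + 2, by
      rw [width_append, width_append, W1, Option.bind_some, w_birth _ (by omega), w_nil,
        Option.bind_some, List.cons_append, ← cx_true, w_cx _ _ (by omega), List.cons_append,
        ← cx_true, w_cx _ _ (by omega), List.nil_append, w_ov _ _ (by omega)]⟩
  simp only [List.append_assoc, List.cons_append, List.nil_append] at s1 s2 s3 ⊢
  exact s1.trans (s2.trans s3)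

theorem U_c_left {n k e j : ℕ} (b : Bool) (h : j + 2 ≤ k) (h' : k + e ≤ n) :
    E n (U k e ++ [cx b j]) ([cx b j] ++ U k e) := by
  have h1 := (ov_left (n := n + 2) (i := k + 1) (e := e) (j := j) b (by omega) (by omega)).left (m := n)
    [birth k] (by rw [w_birth _ (by omega), w_nil])
  have h2 := (e_cb (n := n) (i := j) (j := k) b h (by omega)).symm.right (ov (k + 1) e) ⟨n + 2, by
    simp only [List.cons_append, List.nil_append]
    rw [w_birth _ (by omega), w_cx _ _ (by omega), w_ov _ _ (by omega)]⟩
  exact h1.trans h2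

theorem U_c_mid {n k e j : ℕ} (b : Bool) (h : k ≤ j) (h1 : j + 2 ≤ k + e) (h' : k + e ≤ n) :
    E n (U k e ++ [cx b (j + 1)]) ([cx b j] ++ U k e) := by
  have h1 := (ov_mid (n := n + 2) (i := k + 1) (e := e) (j := j + 1) b (by omega) (by omega)
    (by omega)).left (m := n) [birth k] (by rw [w_birth _ (by omega), w_nil])
  have h2 := (e_bc (n := n) (i := k) (j := j) b h (by omega)).right (ov (k + 1) e) ⟨n + 2, by
    simp only [List.cons_append, List.nil_append]
    rw [w_birth _ (by omega), w_cx _ _ (by omega), w_ov _ _ (by omega)]⟩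
  exact h1.trans h2

theorem U_c_right {n k e j : ℕ} (b : Bool) (h : k + e ≤ j) (h' : j + 2 ≤ n) :
    E n (U k e ++ [cx b (j + 2)]) ([cx b j] ++ U k e) := by
  have h1 := (ov_right (n := n + 2) (i := k + 1) (e := e) (j := j + 2) b (by omega) (by omega)).left
    (m := n) [birth k] (by rw [w_birth _ (by omega), w_nil])
  have h2 := (e_bc (n := n) (i := k) (j := j) b (by omega) (by omega)).right (ov (k + 1) e)
    ⟨n + 2, by
      simp only [List.cons_append, List.nil_append]
      rw [w_birth _ (by omega), w_cx _ _ (by omega), w_ov _ _ (by omega)]⟩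
  exact h1.trans h2

theorem U_b_left {n k e p : ℕ} (h : p ≤ k) (h' : k + e ≤ n) :
    E n (U k e ++ [birth p]) ([birth p] ++ U (k + 2) e) := by
  have h1 := (ov_b_left (n := n + 2) (i := k + 1) (e := e) (p := p) (by omega) (by omega)).left
    (m := n) [birth k] (by rw [w_birth _ (by omega), w_nil])
  have h2 := (e_bb (n := n) (i := p) (j := k) h (by omega)).symm.right (ov (k + 3) e) ⟨n + 4, by
      simp only [List.cons_append, List.nil_append]
      rw [w_birth _ (by omega), w_birth _ (by omega), w_ov _ _ (by omega)]⟩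
  exact h1.trans h2

theorem U_b_mid {n k e p : ℕ} (h : k ≤ p) (h1 : p ≤ k + e) (h' : k + e ≤ n) :
    E n (U k e ++ [birth (p + 1)]) ([birth p] ++ U k (e + 2)) := by
  have h1 := (ov_b_mid (n := n + 2) (i := k + 1) (e := e) (p := p + 1) (by omega) (by omega)
    (by omega)).left (m := n) [birth k] (by rw [w_birth _ (by omega), w_nil])
  have h2 := (e_bb (n := n) (i := k) (j := p) h (by omega)).right (ov (k + 1) (e + 2)) ⟨n + 4, by
      simp only [List.cons_append, List.nil_append]
      rw [w_birth _ (by omega), w_birth _ (by omega), w_ov _ _ (by omega)]⟩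
  exact h1.trans h2

theorem U_b_right {n k e p : ℕ} (h : k + e ≤ p) (h' : p ≤ n) :
    E n (U k e ++ [birth (p + 2)]) ([birth p] ++ U k e) := by
  have h1 := (ov_b_right (n := n + 2) (i := k + 1) (e := e) (p := p + 2) (by omega)
    (by omega)).left (m := n) [birth k] (by rw [w_birth _ (by omega), w_nil])
  have h2 := (e_bb (n := n) (i := k) (j := p) (by omega) (by omega)).right (ov (k + 1) e)
    ⟨n + 4, by
      simp only [List.cons_append, List.nil_append]
      rw [w_birth _ (by omega), w_birth _ (by omega), w_ov _ _ (by omega)]⟩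
  exact h1.trans h2

/-- the left end moves to the left -/
theorem U_ll {n k e : ℕ} (h' : k + 1 + e ≤ n) :
    E n (U (k + 1) e ++ [pos k]) (U k (e + 1)) := by
  have h1 := (ov_left (n := n + 2) (i := k + 1 + 1) (e := e) (j := k) false (by omega)
    (by omega)).left (m := n) [birth (k + 1)] (by rw [w_birth _ (by omega), w_nil])
  have h2 := (e_sb (n := n) (i := k) true (by omega)).symm.right (ov (k + 1 + 1) e) ⟨n + 2, by
      simp only [List.cons_append, List.nil_append]
      rw [w_birth _ (by omega), w_cx _ _ (by omega), w_ov _ _ (by omega)]⟩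
  exact h1.trans h2

/-- the left end moves to the right -/
theorem U_lr {n k e : ℕ} (h' : k + 1 + e ≤ n) :
    E n (U k (e + 1) ++ [neg k]) (U (k + 1) e) := by
  have h1 := (U_ll (n := n) (k := k) (e := e) h').symm.right [neg k] ⟨n + 2, by
    rw [w_U_app _ (by omega), ← cx_true, w_cx _ _ (by omega), w_nil]⟩
  have h2 := (e_r2 (n := n + 2) (i := k) false (by omega)).left (m := n) (U (k + 1) e)
    (w_U (by omega))
  rw [List.append_assoc] at h1
  have h3 := h1.trans h2
  rwa [List.append_nil] at h3

/-- the right end moves to the left -/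
theorem U_rl {n k e : ℕ} (h' : k + e + 1 ≤ n) :
    E n (U k (e + 1) ++ [pos (k + 1 + e)]) (U k e) := by
  rw [← U_rr, List.append_assoc]
  have h2 := (e_r2 (n := n + 2) (i := k + 1 + e) true (by omega)).left (m := n) (U k e)
    (w_U (by omega))
  rwa [List.append_nil] at h2


/-! ### file A3 -/

theorem slide_aux {w w₁ : Word} {n k e k' e' : ℕ} {p q : Word} (hw : width w 0 = some n)
    (hU : E n (U k e ++ p) (q ++ U k' e')) (hwq : E 0 (w ++ q) w₁) :
    E 0 ((w ++ U k e) ++ p) (w₁ ++ U k' e') := by
  have h1 := hU.left w hw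
  rw [← List.append_assoc] at h1
  refine h1.trans ?_
  have hex : ∃ m, width ((w ++ q) ++ U k' e') 0 = some m := by
    obtain ⟨⟨m, _, h3⟩, _⟩ := h1
    exact ⟨m, by simpa only [List.append_assoc] using h3⟩
  have h2 := hwq.right (U k' e') hex
  simpa only [List.append_assoc] using h2

/-- crossings of different arcs, in agreement with the order of the layers -/
theorem slide {s : List ℕ} {w : Word} (h : Rep s w) : ∀ (a c : List ℕ) (x y : ℕ),
    s = a ++ x :: y :: c → x ≠ y →
    ∃ w', Rep (a ++ y :: x :: c) w' ∧ E 0 (w ++ [cx (decide (y < x)) a.length]) w' := by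
  induction h with
  | nil => intro a c x y h; simp at h
  | snoc a' b' c' t w hw ht ih =>
    intro a c x y hs hxy
    have hwid := hw.w
    simp only [List.length_append] at hwid
    rcases split4 hs with ⟨r, h1, h2⟩ | ⟨h1, h2, h3⟩ | ⟨h1, h2, h3⟩ | ⟨r, h1, h2⟩
    · subst h1 h2
      obtain ⟨w₁, hw₁, hE⟩ := ih a (r ++ (b' ++ c')) x y (by simp) hxy
      refine ⟨w₁ ++ U (a ++ y :: x :: r).length b'.length, ?_, ?_⟩
      · have := Rep.snoc (a ++ y :: x :: r) b' c' t w₁ (by simpa using hw₁) (by
          intro z hz; apply ht; simp only [List.mem_append, List.mem_cons] at hz ⊢; tauto)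
        simpa using this
      · refine slide_aux hwid ?_ hE
        have := U_c_left (n := (a ++ x :: y :: r).length + (b'.length + c'.length))
          (k := (a ++ x :: y :: r).length) (e := b'.length) (j := a.length) (decide (y < x))
          (by simp) (by omega)
        simpa using this
    · subst h1 h2 h3
      have hx : x < t := ht x (by simp)
      have hd : decide (t < x) = false := by simp only [decide_eq_false_iff_not]; omega
      refine ⟨w ++ U a.length (x :: b').length, ?_, ?_⟩
      · have := Rep.snoc a (x :: b') c' t w (by simpa using hw) (by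
          intro z hz; apply ht; simp only [List.mem_append, List.mem_cons] at hz ⊢; tauto)
        simpa using this
      · rw [hd, cx_false, List.append_assoc]
        refine E.left w ?_ hwid
        have := U_ll (n := (a ++ [x]).length + (b'.length + c'.length)) (k := a.length)
          (e := b'.length) (by simp only [List.length_append, List.length_singleton]; omega)
        simpa using this
    · subst h1 h2
      rcases b' with _ | ⟨b0, b'⟩
      · simp only [List.nil_append, List.cons.injEq] at h3
        exact absurd h3.1 hxy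
      · simp only [List.cons_append, List.cons.injEq] at h3
        obtain ⟨rfl, rfl⟩ := h3
        have hx : b0 < t := ht b0 (by simp)
        have hd : decide (b0 < t) = true := by simpa using hx
        refine ⟨w ++ U (a' ++ [b0]).length b'.length, ?_, ?_⟩
        · have := Rep.snoc (a' ++ [b0]) b' c' t w (by simpa using hw) (by
            intro z hz; apply ht; simp only [List.mem_append, List.mem_cons] at hz ⊢; tauto)
          simpa using this
        · rw [hd, cx_true, List.append_assoc]
          refine E.left w ?_ hwid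
          have := U_lr (n := a'.length + ((b0 :: b').length + c'.length)) (k := a'.length)
            (e := b'.length) (by simp; omega)
          simpa using this
    · subst h1
      rcases split4 h2 with ⟨r', g1, g2⟩ | ⟨g1, g2, g3⟩ | ⟨g1, g2, g3⟩ | ⟨r', g1, g2⟩
      · subst g1 g2
        obtain ⟨w₁, hw₁, hE⟩ := ih (a' ++ r) (r' ++ c') x y (by simp) hxy
        refine ⟨w₁ ++ U a'.length (r ++ y :: x :: r').length, ?_, ?_⟩
        · have := Rep.snoc a' (r ++ y :: x :: r') c' t w₁ (by simpa using hw₁) (by
            intro z hz; apply ht; simp only [List.mem_append, List.mem_cons] at hz ⊢; tauto)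
          simpa using this
        · refine slide_aux hwid ?_ hE
          have := U_c_mid (n := a'.length + ((r ++ x :: y :: r').length + c'.length))
            (k := a'.length) (e := (r ++ x :: y :: r').length) (j := a'.length + r.length)
            (decide (y < x)) (by omega) (by simp; omega) (by omega)
          simpa [Nat.add_assoc] using this
      · subst g1 g2 g3
        have hx : x < t := ht x (by simp)
        have hd : decide (t < x) = false := by simp; omega
        refine ⟨w ++ U a'.length r.length, ?_, ?_⟩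
        · have := Rep.snoc a' r (x :: c') t w (by simpa using hw) (by
            intro z hz; apply ht; simp only [List.mem_append, List.mem_cons] at hz ⊢; tauto)
          simpa using this
        · rw [hd, cx_false, List.append_assoc]
          refine E.left w ?_ hwid
          have := U_rl (n := a'.length + ((r ++ [x]).length + c'.length)) (k := a'.length)
            (e := r.length) (by simp only [List.length_append, List.length_singleton]; omega)
          have h9 : (a' ++ t :: r).length = a'.length + 1 + r.length := by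
            simp only [List.length_append, List.length_cons]; omega
          rw [h9]
          simpa using this
      · subst g1 g2 g3
        have hx : y < t := ht y (by simp)
        have hd : decide (y < t) = true := by simpa using hx
        refine ⟨w ++ U a'.length (b' ++ [y]).length, ?_, ?_⟩
        · have := Rep.snoc a' (b' ++ [y]) c t w (by simpa using hw) (by
            intro z hz; apply ht; simp only [List.mem_append, List.mem_cons] at hz ⊢; tauto)
          simpa using this
        · rw [hd, cx_true, List.append_assoc]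
          refine E.left w ?_ hwid
          have h1 : U a'.length b'.length ++ [neg (a' ++ t :: b').length] =
              U a'.length (b' ++ [y]).length := by
            have h9 : (a' ++ t :: b').length = a'.length + 1 + b'.length := by
              simp only [List.length_append, List.length_cons]; omega
            rw [List.length_append (as := b'), List.length_singleton, ← U_rr, h9]
          rw [h1]
          refine E.refl (w_U ?_)
          simp only [List.length_append, List.length_cons, List.length_nil]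
          omega
      · subst g1 g2
        obtain ⟨w₁, hw₁, hE⟩ := ih (a' ++ b' ++ r') c x y (by simp) hxy
        refine ⟨w₁ ++ U a'.length b'.length, ?_, ?_⟩
        · have := Rep.snoc a' b' (r' ++ y :: x :: c) t w₁ (by simpa using hw₁) (by
            intro z hz; apply ht; simp only [List.mem_append, List.mem_cons] at hz ⊢; tauto)
          simpa using this
        · refine slide_aux hwid ?_ hE
          have := U_c_right (n := a'.length + (b'.length + (r' ++ x :: y :: c).length))
            (k := a'.length) (e := b'.length) (j := a'.length + b'.length + r'.length)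
            (decide (y < x)) (by omega) (by simp; omega)
          have h9 : (a' ++ t :: (b' ++ t :: r')).length = a'.length + b'.length + r'.length + 2 := by
            simp; omega
          rw [h9]
          simpa [Nat.add_assoc] using this

/-- a new arc, in an arbitrary layer -/
theorem bslide {s : List ℕ} {w : Word} (h : Rep s w) : ∀ (a c : List ℕ) (j : ℕ),
    s = a ++ c → j ∉ s →
    ∃ w', Rep (a ++ j :: j :: c) w' ∧ E 0 (w ++ [birth a.length]) w' := by
  induction h with
  | nil =>
    intro a c j h _
    have h' := List.append_eq_nil_iff.1 h.symm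
    obtain ⟨rfl, rfl⟩ := h'
    refine ⟨[] ++ U 0 0, Rep.snoc [] [] [] j [] Rep.nil (by simp), ?_⟩
    exact E.refl (m := 2) rfl
  | snoc a' b' c' t w hw ht ih =>
    intro a c j hs hj
    have hwid := hw.w
    simp only [List.length_append] at hwid
    have hwhole := (Rep.snoc a' b' c' t w hw ht).w
    have hjt : j ≠ t := by rintro rfl; simp at hj
    by_cases hlt : t < j
    · refine ⟨(w ++ U a'.length b'.length) ++ U a.length 0, ?_, ?_⟩
      · have hr : Rep (a ++ ([] ++ c)) (w ++ U a'.length b'.length) := by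
          rw [List.nil_append, ← hs]; exact Rep.snoc a' b' c' t w hw ht
        have := Rep.snoc a [] c j _ hr (by
          intro z hz
          rw [List.nil_append, ← hs] at hz
          have : z = t ∨ z ∈ a' ++ (b' ++ c') := by
            simp only [List.mem_append, List.mem_cons] at hz ⊢; tauto
          rcases this with rfl | hz
          · exact hlt
          · exact (ht z hz).trans hlt)
        simpa using this
      · refine E.refl (m := (a' ++ t :: (b' ++ t :: c')).length + 2) ?_
        have ha : a.length ≤ (a' ++ t :: (b' ++ t :: c')).length := by rw [hs]; simp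
        rw [width_append, hwhole, Option.bind_some, w_birth _ ha, w_nil]
    · have hjt' : j < t := by omega
      have ht' : ∀ (u v : List ℕ), u ++ v = a' ++ (b' ++ c') → ∀ x ∈ u ++ j :: j :: v, x < t := by
        intro u v huv x hx
        have : x = j ∨ x ∈ u ++ v := by
          simp only [List.mem_append, List.mem_cons] at hx ⊢; tauto
        rcases this with rfl | h
        · exact hjt'
        · rw [huv] at h; exact ht x h
      have hj' : j ∉ a' ++ (b' ++ c') := by
        intro hm; apply hj
        simp only [List.mem_append, List.mem_cons] at hm ⊢; tauto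
      rcases split2 hs with ⟨r, h1, h2⟩ | ⟨r, h1, h2⟩
      · subst h1 h2
        obtain ⟨w₁, hw₁, hE⟩ := ih a (r ++ (b' ++ c')) j (by simp) hj'
        refine ⟨w₁ ++ U (a ++ j :: j :: r).length b'.length, ?_, ?_⟩
        · have := Rep.snoc (a ++ j :: j :: r) b' c' t w₁ (by simpa using hw₁) (by
            have := ht' a (r ++ (b' ++ c')) (by simp); simpa using this)
          simpa using this
        · refine slide_aux hwid ?_ hE
          have := U_b_left (n := (a ++ r).length + (b'.length + c'.length))
            (k := (a ++ r).length) (e := b'.length) (p := a.length) (by simp) (by omega)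
          simpa [Nat.add_assoc] using this
      · subst h1
        rcases split2 h2 with ⟨r', g1, g2⟩ | ⟨r', g1, g2⟩
        · subst g1 g2
          obtain ⟨w₁, hw₁, hE⟩ := ih (a' ++ r) (r' ++ c') j (by simp) hj'
          refine ⟨w₁ ++ U a'.length (r ++ j :: j :: r').length, ?_, ?_⟩
          · have := Rep.snoc a' (r ++ j :: j :: r') c' t w₁ (by simpa using hw₁) (by
              have := ht' (a' ++ r) (r' ++ c') (by simp); simpa using this)
            simpa using this
          · refine slide_aux hwid ?_ hE
            have := U_b_mid (n := a'.length + ((r ++ r').length + c'.length))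
              (k := a'.length) (e := (r ++ r').length) (p := a'.length + r.length)
              (by omega) (by simp only [List.length_append]; omega) (by omega)
            simpa [Nat.add_assoc] using this
        · subst g1 g2
          obtain ⟨w₁, hw₁, hE⟩ := ih (a' ++ b' ++ r') c j (by simp) hj'
          refine ⟨w₁ ++ U a'.length b'.length, ?_, ?_⟩
          · have := Rep.snoc a' b' (r' ++ j :: j :: c) t w₁ (by simpa using hw₁) (by
              have := ht' (a' ++ b' ++ r') c (by simp); simpa using this)
            simpa using this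
          · refine slide_aux hwid ?_ hE
            have := U_b_right (n := a'.length + (b'.length + (r' ++ c).length))
              (k := a'.length) (e := b'.length) (p := a'.length + b'.length + r'.length)
              (by omega) (by simp; omega)
            have h9 : (a' ++ t :: (b' ++ t :: r')).length =
                a'.length + b'.length + r'.length + 2 := by simp; omega
            rw [h9]
            simpa [Nat.add_assoc] using this


/-! ### file A4 -/

theorem E0_append {w w' v : Word} (h : E 0 w w') (hv : ∃ k, width (w' ++ v) 0 = some k) :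
    E 0 (w ++ v) (w' ++ v) := by
  refine h.right v ?_
  obtain ⟨⟨m, h1, h2⟩, _⟩ := h
  obtain ⟨k, hk⟩ := hv
  refine ⟨k, ?_⟩
  rw [width_append, h1] ; rw [width_append, h2] at hk; exact hk

theorem move_right (x : ℕ) : ∀ (B A C : List ℕ) (w : Word), x ∉ B → Rep (A ++ x :: (B ++ C)) w →
    ∃ w', Rep (A ++ (B ++ x :: C)) w' ∧ E 0 (w ++ rr x A.length B) w'
  | [], A, C, w, _, h => ⟨w, h, by simpa [rr] using E.refl h.w⟩
  | b :: B, A, C, w, hx, h => by
    have hbx : x ≠ b := fun h => hx (by simp [h])
    obtain ⟨w₁, h1, h2⟩ := slide h A (B ++ C) x b rfl hbx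
    obtain ⟨w₂, h3, h4⟩ := move_right x B (A ++ [b]) C w₁ (fun h => hx (by simp [h]))
      (by simpa using h1)
    refine ⟨w₂, by simpa using h3, ?_⟩
    have hl : (A ++ [b]).length = A.length + 1 := by simp
    rw [hl] at h4
    have h5 := E0_append (v := rr x (A.length + 1) B) h2 (by
      obtain ⟨⟨m, h6, _⟩, _⟩ := h4; exact ⟨m, h6⟩)
    simp only [rr]
    have h6 := h5.trans h4
    simpa only [List.append_assoc, List.cons_append, List.nil_append] using h6

theorem move_left (x : ℕ) : ∀ (B A C : List ℕ) (w : Word), x ∉ B → Rep (A ++ (B ++ x :: C)) w →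
    ∃ w', Rep (A ++ x :: (B ++ C)) w' ∧ E 0 (w ++ ll x A.length B) w'
  | [], A, C, w, _, h => ⟨w, h, by simpa [ll] using E.refl h.w⟩
  | b :: B, A, C, w, hx, h => by
    have hbx : b ≠ x := fun h => hx (by simp [h])
    obtain ⟨w₁, h1, h2⟩ := move_left x B (A ++ [b]) C w (fun h => hx (by simp [h]))
      (by simpa using h)
    have hl : (A ++ [b]).length = A.length + 1 := by simp
    rw [hl] at h2
    obtain ⟨w₂, h3, h4⟩ := slide h1 A (B ++ C) b x (by simp) hbx
    refine ⟨w₂, by simpa using h3, ?_⟩
    have h5 := E0_append (v := [cx (decide (x < b)) A.length]) h2 (by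
      obtain ⟨⟨m, h6, _⟩, _⟩ := h4; exact ⟨m, h6⟩)
    simp only [ll]
    have h6 := h5.trans h4
    simpa only [List.append_assoc, List.cons_append, List.nil_append] using h6

theorem gather {w : Word} (A B C D R : List ℕ) (x n1 n2 n3 n4 : ℕ) (h2 : n2 ∉ B)
    (h3 : n3 ∉ B ++ C) (h4 : n4 ∉ B ++ (C ++ D))
    (o2 : ∀ b ∈ B, (b < x ↔ b < n2)) (o3 : ∀ b ∈ B ++ C, (b < x ↔ b < n3))
    (o4 : ∀ b ∈ B ++ (C ++ D), (b < x ↔ b < n4))
    (h : Rep (A ++ n1 :: n2 :: n3 :: n4 :: (B ++ (C ++ (D ++ R)))) w) :
    ∃ w', Rep (A ++ n1 :: (B ++ n2 :: (C ++ n3 :: (D ++ n4 :: R)))) w' ∧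
      E 0 (w ++ spread x A.length B C D) w' := by
  obtain ⟨w₁, r1, e1⟩ := move_right n4 (B ++ (C ++ D)) (A ++ [n1, n2, n3]) R w h4 (by simpa using h)
  obtain ⟨w₂, r2, e2⟩ := move_right n3 (B ++ C) (A ++ [n1, n2]) (D ++ n4 :: R) w₁ h3
    (by simpa using r1)
  obtain ⟨w₃, r3, e3⟩ := move_right n2 B (A ++ [n1]) (C ++ n3 :: (D ++ n4 :: R)) w₂ h2
    (by simpa using r2)
  refine ⟨w₃, by simpa using r3, ?_⟩
  have l1 : (A ++ [n1, n2, n3]).length = A.length + 3 := by simp
  have l2 : (A ++ [n1, n2]).length = A.length + 2 := by simp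
  have l3 : (A ++ [n1]).length = A.length + 1 := by simp
  rw [l1] at e1
  rw [l2] at e2
  rw [l3] at e3
  unfold spread
  rw [rr_congr _ o4, rr_congr _ o3, rr_congr _ o2]
  have f2 := E0_append (v := rr n2 (A.length + 1) B) e2 (by
      obtain ⟨⟨m, h6, _⟩, _⟩ := e3; exact ⟨m, h6⟩)
  have f2' := f2.trans e3
  have f1 := E0_append (v := rr n3 (A.length + 2) (B ++ C) ++ rr n2 (A.length + 1) B) e1 (by
      obtain ⟨⟨m, h6, _⟩, _⟩ := f2'; exact ⟨m, by simpa only [List.append_assoc] using h6⟩)
  have f3 : E 0 (w₁ ++ (rr n3 (A.length + 2) (B ++ C) ++ rr n2 (A.length + 1) B)) w₃ := by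
    simpa only [List.append_assoc] using f2'
  have f4 := f1.trans f3
  simpa only [List.append_assoc] using f4

theorem core1 {w₀ : Word} (A R : List ℕ) (u v : ℕ) (h : Rep (A ++ R) w₀) (hu : u ∉ A ++ R)
    (hv : v ∉ A ++ R) (huv : u ≠ v) : ∃ w, Rep (A ++ u :: u :: v :: v :: R) w ∧
      E 0 (w₀ ++ [birth A.length, birth (A.length + 2)]) w := by
  obtain ⟨w₁, r1, e1⟩ := bslide h A R u rfl hu
  obtain ⟨w₂, r2, e2⟩ := bslide r1 (A ++ [u, u]) R v (by simp) (by
    simp only [List.mem_append, List.mem_cons] at hv ⊢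
    rintro (h | h | h | h)
    · exact hv (Or.inl h)
    · exact huv h.symm
    · exact huv h.symm
    · exact hv (Or.inr h))
  refine ⟨w₂, by simpa using r2, ?_⟩
  have l1 : (A ++ [u, u]).length = A.length + 2 := by simp
  rw [l1] at e2
  have f := E0_append (v := [birth (A.length + 2)]) e1 (by
      obtain ⟨⟨m, h6, _⟩, _⟩ := e2; exact ⟨m, h6⟩)
  have f' := f.trans e2
  simpa only [List.append_assoc, List.cons_append, List.nil_append] using f'

theorem core2 {w₀ : Word} (A R : List ℕ) (u v : ℕ) (h : Rep (A ++ R) w₀) (hu : u ∉ A ++ R)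
    (hv : v ∉ A ++ R) (huv : u ≠ v) : ∃ w, Rep (A ++ u :: v :: v :: u :: R) w ∧
      E 0 (w₀ ++ [birth A.length, birth (A.length + 1)]) w := by
  obtain ⟨w₁, r1, e1⟩ := bslide h A R u rfl hu
  obtain ⟨w₂, r2, e2⟩ := bslide r1 (A ++ [u]) (u :: R) v (by simp) (by
    simp only [List.mem_append, List.mem_cons] at hv ⊢
    rintro (h | h | h | h)
    · exact hv (Or.inl h)
    · exact huv h.symm
    · exact huv h.symm
    · exact hv (Or.inr h))
  refine ⟨w₂, by simpa using r2, ?_⟩
  have l1 : (A ++ [u]).length = A.length + 1 := by simp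
  rw [l1] at e2
  have f := E0_append (v := [birth (A.length + 1)]) e1 (by
      obtain ⟨⟨m, h6, _⟩, _⟩ := e2; exact ⟨m, h6⟩)
  have f' := f.trans e2
  simpa only [List.append_assoc, List.cons_append, List.nil_append] using f'

theorem core3 {w₀ : Word} (A R : List ℕ) (u v : ℕ) (h : Rep (A ++ R) w₀) (hu : u ∉ A ++ R)
    (hv : v ∉ A ++ R) (huv : u ≠ v) : ∃ w, Rep (A ++ u :: v :: u :: v :: R) w ∧
      E 0 (w₀ ++ [birth A.length, birth (A.length + 2), cx (decide (v < u)) (A.length + 1)]) w := by
  obtain ⟨w₁, r1, e1⟩ := core1 A R u v h hu hv huv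
  obtain ⟨w₂, r2, e2⟩ := slide r1 (A ++ [u]) (v :: R) u v (by simp) huv
  refine ⟨w₂, by simpa using r2, ?_⟩
  have l1 : (A ++ [u]).length = A.length + 1 := by simp
  rw [l1] at e2
  have f := E0_append (v := [cx (decide (v < u)) (A.length + 1)]) e1 (by
      obtain ⟨⟨m, h6, _⟩, _⟩ := e2; exact ⟨m, h6⟩)
  have f' := f.trans e2
  simpa only [List.append_assoc, List.cons_append, List.nil_append] using f'


/-! ### file A5 -/

theorem pat1 {A B C D R : List ℕ} {u v : ℕ} {w : Word} (huv : u ≠ v)
    (hu : u ∉ A ++ (B ++ (C ++ (D ++ R)))) (hv : v ∉ A ++ (B ++ (C ++ (D ++ R))))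
    (ho : ∀ b ∈ B ++ (C ++ D), (b < u ↔ b < v))
    (h : Rep (A ++ u :: (B ++ u :: (C ++ v :: (D ++ v :: R)))) w) :
    ∃ w', Rep (A ++ v :: (B ++ v :: (C ++ u :: (D ++ u :: R)))) w' ∧ E 0 w w' := by
  obtain ⟨w₀, h0⟩ := core_of h hu hv (Or.inl rfl) (Or.inl rfl) (Or.inr rfl) (Or.inr rfl)
  obtain ⟨w₁, r1, e1⟩ := core1 A (B ++ (C ++ (D ++ R))) u v h0 hu hv huv
  obtain ⟨w₂, r2, e2⟩ := core1 A (B ++ (C ++ (D ++ R))) v u h0 hv hu huv.symm
  simp only [List.mem_append, not_or] at hu hv
  have ho' : ∀ b, (b ∈ B ∨ b ∈ C ∨ b ∈ D) → (b < u ↔ b < v) := by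
    intro b hb; exact ho b (by simpa using hb)
  obtain ⟨w₃, r3, e3⟩ := gather A B C D R u u u v v (by tauto) (by simp; tauto) (by simp; tauto)
    (fun _ _ => Iff.rfl) (fun b hb => ho' b (by simp at hb; tauto))
    (fun b hb => ho' b (by simpa using hb)) r1
  obtain ⟨w₄, r4, e4⟩ := gather A B C D R u v v u u (by tauto) (by simp; tauto) (by simp; tauto)
    (fun b hb => ho' b (by tauto)) (fun _ _ => Iff.rfl) (fun _ _ => Iff.rfl) r2
  rw [h.unique r3]
  refine ⟨w₄, r4, ?_⟩
  have f1 := E0_append (v := spread u A.length B C D) e1 (by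
    obtain ⟨⟨m, h6, _⟩, _⟩ := e3; exact ⟨m, h6⟩)
  have f2 := E0_append (v := spread u A.length B C D) e2 (by
    obtain ⟨⟨m, h6, _⟩, _⟩ := e4; exact ⟨m, h6⟩)
  exact (f1.trans e3).symm.trans (f2.trans e4)

theorem pat2 {A B C D R : List ℕ} {u v : ℕ} {w : Word} (huv : u ≠ v)
    (hu : u ∉ A ++ (B ++ (C ++ (D ++ R)))) (hv : v ∉ A ++ (B ++ (C ++ (D ++ R))))
    (ho : ∀ b ∈ B ++ (C ++ D), (b < u ↔ b < v))
    (h : Rep (A ++ u :: (B ++ v :: (C ++ v :: (D ++ u :: R)))) w) :
    ∃ w', Rep (A ++ v :: (B ++ u :: (C ++ u :: (D ++ v :: R)))) w' ∧ E 0 w w' := by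
  obtain ⟨w₀, h0⟩ := core_of h hu hv (Or.inl rfl) (Or.inr rfl) (Or.inr rfl) (Or.inl rfl)
  obtain ⟨w₁, r1, e1⟩ := core2 A (B ++ (C ++ (D ++ R))) u v h0 hu hv huv
  obtain ⟨w₂, r2, e2⟩ := core2 A (B ++ (C ++ (D ++ R))) v u h0 hv hu huv.symm
  simp only [List.mem_append, not_or] at hu hv
  have ho' : ∀ b, (b ∈ B ∨ b ∈ C ∨ b ∈ D) → (b < u ↔ b < v) := by
    intro b hb; exact ho b (by simpa using hb)
  obtain ⟨w₃, r3, e3⟩ := gather A B C D R u u v v u (by tauto) (by simp; tauto) (by simp; tauto)
    (fun b hb => ho' b (by tauto)) (fun b hb => ho' b (by simp at hb; tauto))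
    (fun _ _ => Iff.rfl) r1
  obtain ⟨w₄, r4, e4⟩ := gather A B C D R u v u u v (by tauto) (by simp; tauto) (by simp; tauto)
    (fun _ _ => Iff.rfl) (fun _ _ => Iff.rfl) (fun b hb => ho' b (by simpa using hb)) r2
  rw [h.unique r3]
  refine ⟨w₄, r4, ?_⟩
  have f1 := E0_append (v := spread u A.length B C D) e1 (by
    obtain ⟨⟨m, h6, _⟩, _⟩ := e3; exact ⟨m, h6⟩)
  have f2 := E0_append (v := spread u A.length B C D) e2 (by
    obtain ⟨⟨m, h6, _⟩, _⟩ := e4; exact ⟨m, h6⟩)
  exact (f1.trans e3).symm.trans (f2.trans e4)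

theorem pat3 {A B C D R : List ℕ} {u v : ℕ} {w : Word} (huv : u ≠ v)
    (hu : u ∉ A ++ (B ++ (C ++ (D ++ R)))) (hv : v ∉ A ++ (B ++ (C ++ (D ++ R))))
    (ho : ∀ b ∈ B ++ (C ++ D), (b < u ↔ b < v))
    (h : Rep (A ++ u :: (B ++ v :: (C ++ u :: (D ++ v :: R)))) w) :
    ∃ w₀ w' w₁ w₂, Rep (A ++ v :: (B ++ u :: (C ++ v :: (D ++ u :: R)))) w' ∧
      Rep (A ++ u :: (B ++ u :: (C ++ v :: (D ++ v :: R)))) w₁ ∧
      Rep (A ++ u :: (B ++ v :: (C ++ v :: (D ++ u :: R)))) w₂ ∧
      width w₀ 0 = some (A ++ (B ++ (C ++ (D ++ R)))).length ∧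
      E 0 ((w₀ ++ [birth A.length, birth (A.length + 2), cx (decide (v < u)) (A.length + 1)]) ++
        spread u A.length B C D) w ∧
      E 0 ((w₀ ++ [birth A.length, birth (A.length + 2), cx (decide (u < v)) (A.length + 1)]) ++
        spread u A.length B C D) w' ∧
      E 0 ((w₀ ++ [birth A.length, birth (A.length + 2)]) ++ spread u A.length B C D) w₁ ∧
      E 0 ((w₀ ++ [birth A.length, birth (A.length + 1)]) ++ spread u A.length B C D) w₂ := by
  obtain ⟨w₀, h0⟩ := core_of h hu hv (Or.inl rfl) (Or.inr rfl) (Or.inl rfl) (Or.inr rfl)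
  obtain ⟨a1, r1, e1⟩ := core3 A (B ++ (C ++ (D ++ R))) u v h0 hu hv huv
  obtain ⟨a2, r2, e2⟩ := core3 A (B ++ (C ++ (D ++ R))) v u h0 hv hu huv.symm
  obtain ⟨a3, r3, e3⟩ := core1 A (B ++ (C ++ (D ++ R))) u v h0 hu hv huv
  obtain ⟨a4, r4, e4⟩ := core2 A (B ++ (C ++ (D ++ R))) u v h0 hu hv huv
  simp only [List.mem_append, not_or] at hu hv
  have ho' : ∀ b, (b ∈ B ∨ b ∈ C ∨ b ∈ D) → (b < u ↔ b < v) := by
    intro b hb; exact ho b (by simpa using hb)
  obtain ⟨b1, s1, f1⟩ := gather A B C D R u u v u v (by tauto) (by simp; tauto) (by simp; tauto)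
    (fun b hb => ho' b (by tauto)) (fun _ _ => Iff.rfl) (fun b hb => ho' b (by simpa using hb)) r1
  obtain ⟨b2, s2, f2⟩ := gather A B C D R u v u v u (by tauto) (by simp; tauto) (by simp; tauto)
    (fun _ _ => Iff.rfl) (fun b hb => ho' b (by simp at hb; tauto)) (fun _ _ => Iff.rfl) r2
  obtain ⟨b3, s3, f3⟩ := gather A B C D R u u u v v (by tauto) (by simp; tauto) (by simp; tauto)
    (fun _ _ => Iff.rfl) (fun b hb => ho' b (by simp at hb; tauto))
    (fun b hb => ho' b (by simpa using hb)) r3
  obtain ⟨b4, s4, f4⟩ := gather A B C D R u u v v u (by tauto) (by simp; tauto) (by simp; tauto)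
    (fun b hb => ho' b (by tauto)) (fun b hb => ho' b (by simp at hb; tauto))
    (fun _ _ => Iff.rfl) r4
  have g1 := E0_append (v := spread u A.length B C D) e1 (by
    obtain ⟨⟨m, h6, _⟩, _⟩ := f1; exact ⟨m, h6⟩)
  have g2 := E0_append (v := spread u A.length B C D) e2 (by
    obtain ⟨⟨m, h6, _⟩, _⟩ := f2; exact ⟨m, h6⟩)
  have g3 := E0_append (v := spread u A.length B C D) e3 (by
    obtain ⟨⟨m, h6, _⟩, _⟩ := f3; exact ⟨m, h6⟩)
  have g4 := E0_append (v := spread u A.length B C D) e4 (by
    obtain ⟨⟨m, h6, _⟩, _⟩ := f4; exact ⟨m, h6⟩)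
  rw [h.unique s1]
  exact ⟨w₀, b2, b3, b4, s2, s3, s4, h0.w, g1.trans f1, g2.trans f2, g3.trans f3, g4.trans f4⟩


/-! ### file A6 -/

theorem CW_death {n p : ℕ} {m : Word} (h : CW p m) (hp : p + 2 ≤ n) :
    E n (m ++ [death p]) ([death p] ++ m) := by
  induction m with
  | nil => exact E.refl (m := n - 2) (by simp [w_death _ hp, w_nil])
  | cons q m ih =>
    obtain ⟨b, i, rfl, hi⟩ := h q (by simp)
    have hm : CW p m := fun q hq => h q (by simp [hq])
    have h1 := (ih hm).left (m := n) [cx b i] (by rw [w_cx _ _ (by omega), w_nil])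
    have hm' : CW (n - 2) m := by
      intro q hq
      obtain ⟨b', i', h1, h2⟩ := hm q hq
      exact ⟨b', i', h1, by omega⟩
    have h2 := (e_cd (n := n) (i := i) (j := p) b hi hp).right m ⟨n - 2, by
      rw [List.cons_append, w_cx _ _ (by omega), List.cons_append, List.nil_append,
        w_death _ hp, hm'.width]⟩
    exact h1.trans h2

theorem rr_death {n p : ℕ} (x : ℕ) : ∀ (B : List ℕ) (k : ℕ), p ≤ k → k + 2 + B.length + 1 ≤ n →
    E n (rr x (k + 2) B ++ [death p]) ([death p] ++ rr x k B)
  | [], k, _, h => E.refl (m := n - 2) (by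
      simp only [rr, List.nil_append]
      rw [w_death _ (by simp at h; omega), w_nil])
  | b :: B, k, hp, h => by
    simp only [List.length_cons] at h
    have h1 := (rr_death (n := n) (p := p) x B (k + 1) (by omega) (by omega)).left (m := n)
      [cx (decide (b < x)) (k + 2)]
      ((w_cx (n := n) (i := k + 2) (decide (b < x)) [] (by omega)).trans rfl)
    have h2 := (e_dc (n := n) (i := p) (j := k + 2) (decide (b < x)) (by omega)
      (by omega)).symm.right (rr x (k + 1) B) ⟨n - 2, by
      rw [List.cons_append, w_cx _ _ (by omega), List.cons_append, List.nil_append,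
        w_death _ (by omega), (CW_rr x B (k + 1) (Or.inr (by omega))).width]⟩
    exact h1.trans h2

/-- The other end of the left one of the two arcs is on the left. -/
theorem merge1 {A₁ A₂ B : List ℕ} {j k : ℕ} {w : Word} (hjk : j ≠ k)
    (h : Rep (A₁ ++ j :: (A₂ ++ j :: k :: B)) w) :
    ∃ w₁, Rep (A₁ ++ (A₂ ++ k :: B)) w₁ ∧
      E 0 (w ++ [death (A₁.length + 1 + A₂.length)]) (w₁ ++ ll j A₁.length A₂) := by
  have hcount := h.two j (by simp)
  have hj : j ∉ A₁ ∧ j ∉ A₂ ∧ j ∉ B := by
    simp only [List.count_append, List.count_cons_self, List.count_cons_of_ne hjk.symm] at hcount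
    simp only [← List.count_eq_zero]
    omega
  obtain ⟨w₁, h1⟩ := h.erase j
  have hf : (A₁ ++ j :: (A₂ ++ j :: k :: B)).filter (fun x => x ≠ j) = A₁ ++ (A₂ ++ k :: B) := by
    simp only [List.filter_append, List.filter_cons]
    rw [filt1 hj.1, filt1 hj.2.1, filt1 hj.2.2]
    simp [hjk.symm]
  rw [hf] at h1
  have hn : j ∉ (A₁ ++ A₂) ++ k :: B := by
    simp only [List.mem_append, List.mem_cons]
    rintro ((h | h) | h | h)
    · exact hj.1 h
    · exact hj.2.1 h
    · exact hjk h
    · exact hj.2.2 h
  obtain ⟨w₂, h2, e2⟩ := bslide h1 (A₁ ++ A₂) (k :: B) j (by simp) (by simpa using hn)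
  obtain ⟨w₃, h3, e3⟩ := move_left j A₂ A₁ (j :: k :: B) w₂ hj.2.1 (by simpa using h2)
  refine ⟨w₁, h1, ?_⟩
  rw [h.unique h3]
  have hn1 : (A₁ ++ (A₂ ++ k :: B)).length = A₁.length + A₂.length + B.length + 1 := by
    simp; omega
  have hw1 := h1.w
  rw [hn1] at hw1
  have hlen : (A₁ ++ A₂).length = A₁.length + A₂.length := by simp
  rw [hlen] at e2
  set n := A₁.length + A₂.length + B.length + 1 with hn
  set p := A₁.length + 1 + A₂.length with hp
  have hll : CW p (ll j A₁.length A₂) := CW_ll j A₂ A₁.length (Or.inr (by omega))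
  have f1 := E0_append (v := ll j A₁.length A₂) e2 (by
    obtain ⟨⟨m, h6, _⟩, _⟩ := e3; exact ⟨m, h6⟩)
  have f2 := f1.trans e3
  have hw3 := h3.w
  have hln : (A₁ ++ j :: (A₂ ++ j :: k :: B)).length = n + 2 := by simp; omega
  rw [hln] at hw3
  have f3 := E0_append (v := [death p]) f2.symm (by
    obtain ⟨⟨m, h6, h7⟩, _⟩ := f2
    rw [h7] at hw3
    refine ⟨n, ?_⟩
    rw [width_append, h6, hw3, Option.bind_some, w_death _ (by omega), w_nil]
    congr 1)
  refine f3.trans ?_
  have f4 := (CW_death (n := n + 2) hll (by omega)).left (m := 0) (w₁ ++ [birth (A₁.length + A₂.length)])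
    (by rw [width_append, hw1, Option.bind_some, w_birth _ (by omega), w_nil])
  have f5 := (e_zig1 (n := n) (i := A₁.length + A₂.length) (by omega)).cong (m := 0) w₁
    (ll j A₁.length A₂) hw1 ⟨n, by
      rw [width_append, width_append, hw1, Option.bind_some, w_birth _ (by omega),
        w_death _ (by omega), w_nil, Option.bind_some]
      refine (CW.width ?_)
      intro q hq
      obtain ⟨b', i', h1, h2⟩ := hll q hq
      exact ⟨b', i', h1, by omega⟩⟩
  have hpp : A₁.length + A₂.length + 1 = p := by omega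
  rw [hpp] at f5
  simp only [List.append_assoc, List.cons_append, List.nil_append] at f4 f5 ⊢
  exact f4.trans f5

/-- The other end of the right one of the two arcs is on the right. -/
theorem merge3 {A B₁ B₂ : List ℕ} {j k : ℕ} {w : Word} (hjk : j ≠ k)
    (h : Rep (A ++ j :: k :: (B₁ ++ k :: B₂)) w) :
    ∃ w₁, Rep (A ++ j :: (B₁ ++ B₂)) w₁ ∧
      E 0 (w ++ [death A.length]) (w₁ ++ rr k A.length B₁) := by
  have hcount := h.two k (by simp)
  have hk : k ∉ A ∧ k ∉ B₁ ∧ k ∉ B₂ := by
    simp only [List.count_append, List.count_cons_self, List.count_cons_of_ne hjk] at hcount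
    simp only [← List.count_eq_zero]
    omega
  obtain ⟨w₁, h1⟩ := h.erase k
  have hf : (A ++ j :: k :: (B₁ ++ k :: B₂)).filter (fun x => x ≠ k) = A ++ j :: (B₁ ++ B₂) := by
    simp only [List.filter_append, List.filter_cons]
    rw [filt1 hk.1, filt1 hk.2.1, filt1 hk.2.2]
    simp [hjk]
  rw [hf] at h1
  have hn : k ∉ (A ++ [j]) ++ (B₁ ++ B₂) := by
    simp only [List.mem_append, List.mem_cons, List.not_mem_nil, or_false]
    rintro ((h | h) | h | h)
    · exact hk.1 h
    · exact hjk h.symm
    · exact hk.2.1 h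
    · exact hk.2.2 h
  obtain ⟨w₂, h2, e2⟩ := bslide h1 (A ++ [j]) (B₁ ++ B₂) k (by simp) (by simpa using hn)
  obtain ⟨w₃, h3, e3⟩ := move_right k B₁ (A ++ [j, k]) B₂ w₂ hk.2.1 (by simpa using h2)
  have h3' : Rep (A ++ j :: k :: (B₁ ++ k :: B₂)) w₃ := by simpa using h3
  refine ⟨w₁, h1, ?_⟩
  rw [h.unique h3']
  have hn1 : (A ++ j :: (B₁ ++ B₂)).length = A.length + B₁.length + B₂.length + 1 := by
    simp; omega
  have hw1 := h1.w
  rw [hn1] at hw1
  have hlen : (A ++ [j]).length = A.length + 1 := by simp
  have hlen2 : (A ++ [j, k]).length = A.length + 2 := by simp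
  rw [hlen] at e2
  rw [hlen2] at e3
  set n := A.length + B₁.length + B₂.length + 1 with hn
  set p := A.length with hp
  have f1 := E0_append (v := rr k (p + 2) B₁) e2 (by
    obtain ⟨⟨m, h6, _⟩, _⟩ := e3; exact ⟨m, h6⟩)
  have f2 := f1.trans e3
  have hw3 := h3'.w
  have hln : (A ++ j :: k :: (B₁ ++ k :: B₂)).length = n + 2 := by simp; omega
  rw [hln] at hw3
  have f3 := E0_append (v := [death p]) f2.symm (by
    obtain ⟨⟨m, h6, h7⟩, _⟩ := f2
    rw [h7] at hw3
    refine ⟨n, ?_⟩
    rw [width_append, h6, hw3, Option.bind_some, w_death _ (by omega), w_nil]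
    congr 1)
  refine f3.trans ?_
  have f4 := (rr_death (n := n + 2) (p := p) k B₁ p (by omega) (by omega)).left (m := 0)
    (w₁ ++ [birth (p + 1)])
    (by rw [width_append, hw1, Option.bind_some, w_birth _ (by omega), w_nil])
  have f5 := (e_zig2 (n := n) (i := p) (by omega)).cong (m := 0) w₁
    (rr k p B₁) hw1 ⟨n, by
      rw [width_append, width_append, hw1, Option.bind_some, w_birth _ (by omega),
        w_death _ (by omega), w_nil, Option.bind_some]
      exact (CW_rr k B₁ p (Or.inr (by omega))).width⟩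
  simp only [List.append_assoc, List.cons_append, List.nil_append] at f4 f5 ⊢
  exact f4.trans f5

end Pool.Agent.Helper82_Alt.Loc
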