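import Pool.Agent.Helper82_Alt.LocE

/-! Skein predicates for open diagrams with two ends (the same proofs as for link diagrams). -/

set_option autoImplicit false
set_option linter.unusedSimpArgs false

namespace Pool.Agent.Helper82_Alt.Loc.O

open Pool.Agent.Helper454.Kauf
open Pool.Agent.Helper454.Kauf.Piece (birth death pos neg)

/-- open diagrams with two ends at the bottom -/
def Ok (w : Word) : Prop := width w 0 = some 2

/-- `G c w` is a statement for the diagrams `w` with two ends at the bottom which obeys the skein
rules with a bound `c`. -/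
structure Sk (G : ℤ → Word → Prop) : Prop where
  mono : ∀ c c' w, c ≤ c' → G c w → G c' w
  reg : ∀ c w w' y, Ok (w ++ y) → E 0 w w' → G c (w' ++ y) → G c (w ++ y)
  birthX : ∀ c b x i y, Ok (x ++ [birth i] ++ y) → G (c - sg b) (x ++ [birth i] ++ y) →
    G c (x ++ [birth i, cx b i] ++ y)
  deathX : ∀ c b x i y, Ok (x ++ [death i] ++ y) → G (c - sg b) (x ++ [death i] ++ y) →
    G c (x ++ [cx b i, death i] ++ y)
  cross : ∀ c b x i y, Ok (x ++ [cx b i] ++ y) → G c (x ++ [cx (!b) i] ++ y) →
    G (c - 1) (x ++ y) → G (c - 1) (x ++ [death i, birth i] ++ y) → G c (x ++ [cx b i] ++ y)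
  circ : ∀ c x i y, Ok (x ++ y) → (∃ n, width x 0 = some n ∧ i ≤ n) →
    G c (x ++ y) → G c (x ++ [birth i, death i] ++ y)
  base : G 0 [birth 0]

/-- the diagram part `w` can be replaced by `w'`, with a shift -/
def Red (ε : ℤ) (w w' : Word) : Prop :=
  width w 0 = width w' 0 ∧ ∀ G, Sk G → ∀ c y, Ok (w ++ y) → G (c - ε) (w' ++ y) → G c (w ++ y)

theorem closed_congr {w w' : Word} (h : width w 0 = width w' 0) (y : Word) :
    Ok (w ++ y) ↔ Ok (w' ++ y) := by
  unfold Ok
  rw [width_append, width_append, h]

theorem Red.of_E {w w' : Word} (h : E 0 w w') : Red 0 w w' := by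
  obtain ⟨⟨m, h1, h2⟩, h3⟩ := h
  refine ⟨h1.trans h2.symm, fun G hG c y hc hg => ?_⟩
  rw [sub_zero] at hg
  exact hG.reg c _ _ y hc ⟨⟨m, h1, h2⟩, h3⟩ hg

theorem Red.trans {ε ε' : ℤ} {w w' w'' : Word} (h : Red ε w w') (h' : Red ε' w' w'') :
    Red (ε + ε') w w'' := by
  refine ⟨h.1.trans h'.1, fun G hG c y hc hg => ?_⟩
  refine h.2 G hG c y hc (h'.2 G hG _ y ((closed_congr h.1 y).1 hc) ?_)
  rwa [sub_sub]

theorem Red.append {ε : ℤ} {w w' : Word} (v : Word) (h : Red ε w w') : Red ε (w ++ v) (w' ++ v) := by
  refine ⟨by rw [width_append, width_append, h.1], fun G hG c y hc hg => ?_⟩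
  rw [List.append_assoc] at hc hg ⊢
  exact h.2 G hG c (v ++ y) hc hg

theorem Red.trans0 {ε : ℤ} {w w' w'' : Word} (h : E 0 w w') (h' : Red ε w' w'') :
    Red ε w w'' := by
  have := (Red.of_E h).trans h'
  rwa [zero_add] at this

theorem Red.trans1 {ε : ℤ} {w w' w'' : Word} (h : Red ε w w') (h' : E 0 w' w'') :
    Red ε w w'' := by
  have := h.trans (Red.of_E h')
  rwa [add_zero] at this

theorem Red.curlB {x : Word} {i n : ℕ} (b : Bool) (hx : width x 0 = some n) (hi : i ≤ n) :
    Red (sg b) (x ++ [birth i, cx b i]) (x ++ [birth i]) := by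
  refine ⟨?_, fun G hG c y hc hg => ?_⟩
  · rw [width_append, width_append, hx, Option.bind_some, Option.bind_some, w_birth _ hi,
      w_birth _ hi, w_cx _ _ (by omega)]
  · refine hG.birthX c b x i y ?_ hg
    refine (closed_congr ?_ y).1 hc
    rw [width_append, width_append, hx, Option.bind_some, Option.bind_some, w_birth _ hi,
      w_birth _ hi, w_cx _ _ (by omega)]

theorem Red.curlD {x : Word} {i n : ℕ} (b : Bool) (hx : width x 0 = some n) (hi : i + 2 ≤ n) :
    Red (sg b) (x ++ [cx b i, death i]) (x ++ [death i]) := by
  have hw : width (x ++ [cx b i, death i]) 0 = width (x ++ [death i]) 0 := by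
    rw [width_append, width_append, hx, Option.bind_some, Option.bind_some, w_cx _ _ hi]
  refine ⟨hw, fun G hG c y hc hg => ?_⟩
  exact hG.deathX c b x i y ((closed_congr hw y).1 hc) hg

/-- a curl on an arc with neighbouring ends -/
theorem curl_at {A B : List ℕ} {k : ℕ} {w : Word} (b : Bool) (h : Rep (A ++ k :: k :: B) w) :
    Red (sg b) (w ++ [cx b A.length]) w := by
  have hcount := h.two k (by simp)
  have hk : k ∉ A ++ B := by
    rw [← List.count_eq_zero]
    simp only [List.count_append, List.count_cons_self] at hcount ⊢
    omega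
  obtain ⟨w₀, h0⟩ := h.erase k
  have hf : (A ++ k :: k :: B).filter (fun x => x ≠ k) = A ++ B := by
    have : ∀ l : List ℕ, k ∉ l → l.filter (fun x => decide (x ≠ k)) = l := by
      intro l hl
      rw [List.filter_eq_self]
      intro x hx
      have h1 : x ≠ k := fun h => hl (h ▸ hx)
      simp [h1]
    simp only [List.mem_append, not_or] at hk
    simp only [List.filter_append, List.filter_cons]
    rw [this A hk.1, this B hk.2]
    simp
  rw [hf] at h0
  obtain ⟨w₁, h1, e1⟩ := bslide h0 A B k rfl hk
  rw [h.unique h1]
  have hl : A.length ≤ (A ++ B).length := by simp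
  have f1 := (Red.of_E e1.symm).append [cx b A.length]
  have f2 := Red.curlB (x := w₀) (i := A.length) b h0.w hl
  rw [List.append_assoc] at f1
  have f3 := f1.trans f2
  rw [zero_add] at f3
  exact f3.trans1 e1

theorem mergeL {A₁ A₂ B : List ℕ} {j k : ℕ} {w : Word} (hjk : j ≠ k)
    (ho : ∀ b ∈ A₂, b ≠ k → (j < b ↔ k < b))
    (h : Rep (A₁ ++ j :: (A₂ ++ j :: k :: B)) w) :
    ∃ (ε : ℤ) (w' : Word), Rep (A₁ ++ k :: (A₂ ++ B)) w' ∧
      Red ε (w ++ [death (A₁.length + 1 + A₂.length)]) w' ∧
      (ε = 0 ∨ (k ∈ A₂ ∧ ε = sg (decide (j < k)))) := by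
  obtain ⟨w₁, r1, e1⟩ := merge1 hjk h
  have hk2 := r1.two k (by simp)
  by_cases hk : k ∈ A₂
  · obtain ⟨P, Q, rfl⟩ := List.append_of_mem hk
    simp only [List.count_append, List.count_cons_self] at hk2
    have hkP : k ∉ P := by rw [← List.count_eq_zero]; omega
    have hkQ : k ∉ Q := by rw [← List.count_eq_zero]; omega
    have hkB : k ∉ B := by rw [← List.count_eq_zero]; omega
    have hkA : k ∉ A₁ := by rw [← List.count_eq_zero]; omega
    obtain ⟨w₂, r2, e2⟩ := move_left k Q (A₁ ++ P ++ [k]) B w₁ hkQ (by simpa using r1)
    have r2' : Rep ((A₁ ++ P) ++ k :: k :: (Q ++ B)) w₂ := by simpa using r2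
    have e3 := curl_at (decide (j < k)) r2'
    obtain ⟨w₃, r3, e4⟩ := move_left k P A₁ (k :: (Q ++ B)) w₂ hkP (by simpa using r2')
    refine ⟨sg (decide (j < k)), w₃, by simpa using r3, ?_, Or.inr ⟨hk, rfl⟩⟩
    have hlen : (A₁ ++ P ++ [k]).length = A₁.length + P.length + 1 := by simp; omega
    have hlen2 : (A₁ ++ P).length = A₁.length + P.length := by simp
    rw [hlen] at e2
    rw [hlen2] at e3
    have hll : ll j A₁.length (P ++ k :: Q) =
        ll k (A₁.length + P.length + 1) Q ++ ([cx (decide (j < k)) (A₁.length + P.length)] ++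
          ll k A₁.length P) := by
      rw [ll_append]
      simp only [ll, List.append_assoc]
      rw [ll_congr (x := j) (y := k) (A₁.length + P.length + 1) (B := Q) (fun b hb =>
        ho b (by simp [hb]) (fun e => hkQ (e ▸ hb))),
        ll_congr (x := j) (y := k) A₁.length (B := P) (fun b hb =>
        ho b (by simp [hb]) (fun e => hkP (e ▸ hb)))]
    have f1 := Red.of_E e1
    rw [hll] at f1
    have f2 := (Red.of_E e2).append
      ([cx (decide (j < k)) (A₁.length + P.length)] ++ ll k A₁.length P)
    have f3 := e3.append (ll k A₁.length P)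
    have f4 := Red.of_E e4
    simp only [List.append_assoc] at f1 f2 f3 f4 ⊢
    have := ((f1.trans f2).trans f3).trans f4
    simpa using this
  · obtain ⟨w₂, r2, e2⟩ := move_left k A₂ A₁ B w₁ hk r1
    refine ⟨0, w₂, r2, ?_, Or.inl rfl⟩
    rw [ll_congr (x := j) (y := k) A₁.length (B := A₂) (fun b hb =>
      ho b hb (fun e => hk (e ▸ hb)))] at e1
    exact Red.of_E (e1.trans e2)

theorem mergeR {A B₁ B₂ : List ℕ} {j k : ℕ} {w : Word} (hjk : j ≠ k)
    (ho : ∀ b ∈ B₁, b ≠ j → (b < k ↔ b < j))
    (h : Rep (A ++ j :: k :: (B₁ ++ k :: B₂)) w) :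
    ∃ (ε : ℤ) (w' : Word), Rep (A ++ (B₁ ++ j :: B₂)) w' ∧
      Red ε (w ++ [death A.length]) w' ∧
      (ε = 0 ∨ (j ∈ B₁ ∧ ε = sg (decide (j < k)))) := by
  obtain ⟨w₁, r1, e1⟩ := merge3 hjk h
  have hj2 := r1.two j (by simp)
  by_cases hj : j ∈ B₁
  · obtain ⟨P, Q, rfl⟩ := List.append_of_mem hj
    simp only [List.count_append, List.count_cons_self] at hj2
    have hjP : j ∉ P := by rw [← List.count_eq_zero]; omega
    have hjQ : j ∉ Q := by rw [← List.count_eq_zero]; omega
    obtain ⟨w₂, r2, e2⟩ := move_right j P A (j :: (Q ++ B₂)) w₁ hjP (by simpa using r1)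
    have r2' : Rep ((A ++ P) ++ j :: j :: (Q ++ B₂)) w₂ := by simpa using r2
    have e3 := curl_at (decide (j < k)) r2'
    obtain ⟨w₃, r3, e4⟩ := move_right j Q (A ++ P ++ [j]) B₂ w₂ hjQ (by simpa using r2')
    refine ⟨sg (decide (j < k)), w₃, by simpa using r3, ?_, Or.inr ⟨hj, rfl⟩⟩
    have hlen : (A ++ P ++ [j]).length = A.length + P.length + 1 := by simp; omega
    have hlen2 : (A ++ P).length = A.length + P.length := by simp
    rw [hlen] at e4
    rw [hlen2] at e3
    have hrr : rr k A.length (P ++ j :: Q) =
        rr j A.length P ++ ([cx (decide (j < k)) (A.length + P.length)] ++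
          rr j (A.length + P.length + 1) Q) := by
      rw [rr_append]
      simp only [rr]
      rw [rr_congr (x := k) (y := j) (A.length + P.length + 1) (B := Q) (fun b hb =>
        ho b (by simp [hb]) (fun e => hjQ (e ▸ hb))),
        rr_congr (x := k) (y := j) A.length (B := P) (fun b hb =>
        ho b (by simp [hb]) (fun e => hjP (e ▸ hb)))]
      rfl
    have f1 := Red.of_E e1
    rw [hrr] at f1
    have f2 := (Red.of_E e2).append
      ([cx (decide (j < k)) (A.length + P.length)] ++ rr j (A.length + P.length + 1) Q)
    have f3 := e3.append (rr j (A.length + P.length + 1) Q)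
    have f4 := Red.of_E e4
    simp only [List.append_assoc] at f1 f2 f3 f4 ⊢
    have := ((f1.trans f2).trans f3).trans f4
    simpa using this
  · obtain ⟨w₂, r2, e2⟩ := move_right j B₁ A B₂ w₁ hj r1
    refine ⟨0, w₂, r2, ?_, Or.inl rfl⟩
    rw [rr_congr (x := k) (y := j) A.length (B := B₁) (fun b hb =>
      ho b hb (fun e => hj (e ▸ hb)))] at e1
    exact Red.of_E (e1.trans e2)

/-- slide through a minimum -/
theorem death_swap {A B : List ℕ} {j k : ℕ} {w : Word} (hjk : j ≠ k)
    (h : Rep (A ++ j :: k :: B) w) :
    ∃ w', Rep (A ++ k :: j :: B) w' ∧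
      Red (sg (decide (j < k))) (w ++ [death A.length]) (w' ++ [death A.length]) := by
  obtain ⟨w', r, e⟩ := slide h A B j k rfl hjk
  refine ⟨w', r, ?_⟩
  have hw := h.w
  have hlen : (A ++ j :: k :: B).length = A.length + B.length + 2 := by simp; omega
  rw [hlen] at hw
  have hw' := r.w
  have hlen' : (A ++ k :: j :: B).length = A.length + B.length + 2 := by simp; omega
  rw [hlen'] at hw'
  have hb : decide (j < k) = !decide (k < j) := by
    rcases lt_or_gt_of_ne hjk with h | h
    · have : ¬ k < j := by omega
      simp [h, this]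
    · have : ¬ j < k := by omega
      simp [h, this]
  -- R2
  have f1 := ((e_r2 (n := A.length + B.length + 2) (i := A.length) (decide (k < j))
    (by omega)).symm.right [death A.length] ⟨A.length + B.length, by
      rw [List.nil_append, w_death _ (by omega), w_nil]; rfl⟩).left (m := 0) w hw
  have f2 := (Red.of_E e).append [cx (!decide (k < j)) A.length, death A.length]
  have f3 := Red.curlD (x := w') (i := A.length) (n := A.length + B.length + 2)
    (!decide (k < j)) hw' (by omega)
  have f1' := Red.of_E f1
  simp only [List.append_assoc, List.cons_append, List.nil_append] at f1' f2 f3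
  have := (f1'.trans f2).trans f3
  rw [hb]
  simpa using this

/-- joining two arcs in neighbouring layers -/
theorem merge {P Q : List ℕ} {j k : ℕ} {w : Word} (hjk : j ≠ k)
    (ho : ∀ b ∈ P ++ Q, b ≠ j → b ≠ k → (b < j ↔ b < k))
    (h : Rep (P ++ j :: k :: Q) w) :
    ∃ (ε : ℤ) (s' : List ℕ) (w' : Word), Rep s' w' ∧ Red ε (w ++ [death P.length]) w' ∧
      (C2 s' : ℤ) + 2 * ε ≤ C2 (P ++ j :: k :: Q) ∧ s'.length + 2 = (P ++ j :: k :: Q).length := by
  have hj2 := h.two j (by simp)
  have hk2 := h.two k (by simp)
  have hsg : ∀ b, sg b ≤ 1 := by intro b; cases b <;> simp [sg]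
  have hid : ∀ (x y : ℕ) (l : List ℕ), x ∉ l → l.map (mrg x y) = l := by
    intro x y l hl
    conv_rhs => rw [← List.map_id l]
    apply List.map_congr_left
    intro z hz
    have : z ≠ x := fun e => hl (e ▸ hz)
    simp [mrg, this]
  by_cases hjP : j ∈ P
  · obtain ⟨A₁, A₂, rfl⟩ := List.append_of_mem hjP
    have hcj := hj2
    simp only [List.count_append, List.count_cons_self, List.count_cons_of_ne hjk.symm] at hcj
    have j1 : j ∉ A₁ := by rw [← List.count_eq_zero]; omega
    have j2 : j ∉ A₂ := by rw [← List.count_eq_zero]; omega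
    have j3 : j ∉ Q := by rw [← List.count_eq_zero]; omega
    obtain ⟨ε, w', r, e, hε⟩ := mergeL (A₁ := A₁) (A₂ := A₂) (B := Q) (w := w) hjk (fun b hb hbk => by
      have hbj : b ≠ j := fun e => j2 (e ▸ hb)
      have := ho b (by simp [hb]) hbj hbk
      omega) (by simpa using h)
    refine ⟨ε, _, w', r, ?_, ?_, by simp; omega⟩
    · have hl : (A₁ ++ j :: A₂).length = A₁.length + 1 + A₂.length := by simp; omega
      rw [hl]; exact e
    · have hm := C2_mrg' (A₁ ++ j :: A₂) Q hjk hj2 hk2
      have e1 : ((A₁ ++ j :: A₂) ++ Q).map (mrg j k) = A₁ ++ k :: (A₂ ++ Q) := by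
        simp only [List.map_append, List.map_cons, hid j k _ j1, hid j k _ j2, hid j k _ j3]
        simp [mrg]
      rw [e1] at hm
      rcases hε with rfl | ⟨hkA, rfl⟩
      · push_cast; omega
      · have hck := hk2
        have := List.count_pos_iff.2 hkA
        simp only [List.count_append, List.count_cons_self, List.count_cons_of_ne hjk] at hck
        have c1 : A₁.count k = 0 := by omega
        have c2 : A₂.count k = 1 := by omega
        have c3 : Q.count k = 0 := by omega
        have hN : N j k ((A₁ ++ j :: A₂) ++ j :: k :: Q) = 3 := by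
          simp only [N_append, N_cons, List.count_append, List.count_cons_self,
            List.count_cons_of_ne hjk, List.count_cons_of_ne hjk.symm, c1, c2, c3, cnt j1, cnt j2,
            cnt j3, N_left _ j1, N_left _ j2, N_left _ j3, if_true, hjk.symm, if_false]
        rw [hN] at hm
        have := hsg (decide (j < k))
        push_cast
        omega
  · by_cases hkQ : k ∈ Q
    · obtain ⟨B₁, B₂, rfl⟩ := List.append_of_mem hkQ
      have hck := hk2
      simp only [List.count_append, List.count_cons_self, List.count_cons_of_ne hjk] at hck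
      have k1 : k ∉ P := by rw [← List.count_eq_zero]; omega
      have k2 : k ∉ B₁ := by rw [← List.count_eq_zero]; omega
      have k3 : k ∉ B₂ := by rw [← List.count_eq_zero]; omega
      obtain ⟨ε, w', r, e, hε⟩ := mergeR (A := P) (B₁ := B₁) (B₂ := B₂) (w := w) hjk (fun b hb hbj => by
        have hbk : b ≠ k := fun e => k2 (e ▸ hb)
        exact (ho b (by simp [hb]) hbj hbk).symm) (by simpa using h)
      refine ⟨ε, _, w', r, e, ?_, by simp; omega⟩
      have hm := C2_mrg_inv P (B₁ ++ k :: B₂) hjk hj2 hk2
      have e1 : (P ++ (B₁ ++ k :: B₂)).map (mrg k j) = P ++ (B₁ ++ j :: B₂) := by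
        simp only [List.map_append, List.map_cons, hid k j _ k1, hid k j _ k2, hid k j _ k3]
        simp [mrg]
      rw [e1] at hm
      rcases hε with rfl | ⟨hjB, rfl⟩
      · push_cast; omega
      · have hcj := hj2
        have := List.count_pos_iff.2 hjB
        simp only [List.count_append, List.count_cons_self, List.count_cons_of_ne hjk.symm] at hcj
        have c1 : P.count j = 0 := by omega
        have c2 : B₁.count j = 1 := by omega
        have c3 : B₂.count j = 0 := by omega
        have i3 : j ∉ B₂ := by rw [← List.count_eq_zero]; omega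
        have i1 : j ∉ P := by rw [← List.count_eq_zero]; omega
        have hN : N j k (P ++ j :: k :: (B₁ ++ k :: B₂)) = 3 := by
          simp only [N_append, N_cons, List.count_append, List.count_cons_self,
            List.count_cons_of_ne hjk, List.count_cons_of_ne hjk.symm, c1, c2, c3, cnt k1, cnt k2,
            cnt k3, N_right _ k1, N_right _ k2, N_right _ k3, if_true, hjk.symm, if_false]
        rw [hN] at hm
        have := hsg (decide (j < k))
        push_cast
        omega
    · -- k left, j right
      have hcj := hj2
      have hck := hk2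
      have c1 := cnt hjP
      have c2 := cnt hkQ
      simp only [List.count_append, List.count_cons_self, List.count_cons_of_ne hjk.symm] at hcj
      simp only [List.count_append, List.count_cons_self, List.count_cons_of_ne hjk] at hck
      have hjQ : j ∈ Q := List.count_pos_iff.1 (by omega)
      have hkP : k ∈ P := List.count_pos_iff.1 (by omega)
      obtain ⟨A₁, A₂, rfl⟩ := List.append_of_mem hkP
      obtain ⟨w₁, r1, e1⟩ := death_swap hjk h
      simp only [List.count_append, List.count_cons_self] at hck
      have k1 : k ∉ A₁ := by rw [← List.count_eq_zero]; omega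
      have k2 : k ∉ A₂ := by rw [← List.count_eq_zero]; omega
      obtain ⟨ε, w', r, e, hε⟩ := mergeL (A₁ := A₁) (A₂ := A₂) (B := Q) (w := w₁) hjk.symm
        (fun b hb hbj => by
          have hbk : b ≠ k := fun e => k2 (e ▸ hb)
          have := ho b (by simp [hb]) hbj hbk
          omega) (by simpa using r1)
      have hjA : j ∉ A₂ := by
        intro hm; exact hjP (by simp [hm])
      have hε0 : ε = 0 := by
        rcases hε with h | ⟨h, _⟩
        · exact h
        · exact absurd h hjA
      subst hε0
      have hl : (A₁ ++ k :: A₂).length = A₁.length + 1 + A₂.length := by simp; omega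
      refine ⟨sg (decide (j < k)), _, w', r, ?_, ?_, by simp; omega⟩
      · rw [hl] at e1 ⊢
        have := e1.trans e
        rwa [add_zero] at this
      · have hm := C2_mrg_inv (A₁ ++ k :: A₂) Q hjk hj2 hk2
        have e2 : ((A₁ ++ k :: A₂) ++ Q).map (mrg k j) = A₁ ++ j :: (A₂ ++ Q) := by
          simp only [List.map_append, List.map_cons, hid k j _ k1, hid k j _ k2, hid k j _ hkQ]
          simp [mrg]
        rw [e2] at hm
        have j1 : j ∉ A₁ := by intro hm; exact hjP (by simp [hm])
        have d1 : Q.count j = 1 := by
          have := cnt j1; have := cnt hjA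
          simp only [List.count_append, List.count_cons_of_ne hjk.symm] at hcj
          omega
        have hN : N j k ((A₁ ++ k :: A₂) ++ j :: k :: Q) = 1 := by
          simp only [N_append, N_cons, List.count_append, List.count_cons_self,
            List.count_cons_of_ne hjk, List.count_cons_of_ne hjk.symm, d1, cnt k1, cnt k2,
            cnt hkQ, cnt j1, cnt hjA, N_left _ j1, N_left _ hjA, N_right _ k1, N_right _ k2,
            N_right _ hkQ, if_true, hjk.symm, if_false]
        rw [hN] at hm
        have := hsg (decide (j < k))
        push_cast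
        omega

theorem red_E {G : ℤ → Word → Prop} (hG : Sk G) {w w' : Word} (h : E 0 w w') {c : ℤ} {y : Word}
    (hc : Ok (w ++ y)) (hg : G c (w' ++ y)) : G c (w ++ y) :=
  (Red.of_E h).2 G hG c y hc (by simpa using hg)

/-- Exchange of two neighbouring layers. -/
theorem exch {s : List ℕ} {w : Word} {u v : ℕ} (h : Rep s w) (huv : u ≠ v) (hu : u ∈ s)
    (hv : v ∈ s) (ho : ∀ b ∈ s, b ≠ u → b ≠ v → (b < u ↔ b < v)) :
    ∃ w', Rep (s.map (sw u v)) w' ∧ C2 (s.map (sw u v)) ≤ C2 s ∧
      ∀ G, Sk G → ∀ c y, Ok (w ++ y) → G c (w' ++ y) →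
        (∀ s₁ w₁, Rep s₁ w₁ → s₁.length = s.length → C2 s₁ + 2 ≤ C2 s → Ok (w₁ ++ y) →
          G (c - 1) (w₁ ++ y)) → G c (w ++ y) := by
  have hc := fun z => h.count_le z
  obtain ⟨a, b, hab, A, B, C, D, R, h1, h2, hs⟩ := pos4 huv (h.two u hu) (h.two v hv)
  have hab' : a ≠ b := by rcases hab with ⟨rfl, rfl⟩ | ⟨rfl, rfl⟩; exact huv; exact huv.symm
  have ha : a ∉ A ++ (B ++ (C ++ (D ++ R))) := by
    rcases hab with ⟨rfl, rfl⟩ | ⟨rfl, rfl⟩; exact h1; exact h2
  have hb : b ∉ A ++ (B ++ (C ++ (D ++ R))) := by
    rcases hab with ⟨rfl, rfl⟩ | ⟨rfl, rfl⟩; exact h2; exact h1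
  have hsw : ∀ x, sw u v x = sw a b x := by
    intro x
    rcases hab with ⟨rfl, rfl⟩ | ⟨rfl, rfl⟩
    · rfl
    · unfold sw
      by_cases h1 : x = a
      · subst h1; simp [hab', huv.symm]
      · by_cases h2 : x = b
        · simp only [h2, if_true, if_neg hab'.symm]
        · simp [h1, h2]
  have hsw' : s.map (sw u v) = s.map (sw a b) := List.map_congr_left (fun x _ => hsw x)
  rw [hsw']
  have ho' : ∀ x ∈ s, x ≠ a → x ≠ b → (x < a ↔ x < b) := by
    intro x hx hxa hxb
    rcases hab with ⟨rfl, rfl⟩ | ⟨rfl, rfl⟩
    · exact ho x hx hxa hxb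
    · exact (ho x hx hxb hxa).symm
  have ho2 : ∀ x ∈ B ++ (C ++ D), (x < a ↔ x < b) := by
    intro x hx
    have hx1 : x ∈ A ++ (B ++ (C ++ (D ++ R))) := by
      simp only [List.mem_append] at hx ⊢; tauto
    refine ho' x ?_ (fun e => ha (e ▸ hx1)) (fun e => hb (e ▸ hx1))
    rcases hs with rfl | rfl | rfl <;> simp only [List.mem_append, List.mem_cons] at hx ⊢ <;> tauto
  have hmap : ∀ n1 n2 n3 n4 : ℕ,
      (A ++ n1 :: (B ++ n2 :: (C ++ n3 :: (D ++ n4 :: R)))).map (sw a b) =
        A ++ sw a b n1 :: (B ++ sw a b n2 :: (C ++ sw a b n3 :: (D ++ sw a b n4 :: R))) := by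
    intro n1 n2 n3 n4
    have ha' := ha
    have hb' := hb
    simp only [List.mem_append, not_or] at ha' hb'
    simp only [List.map_append, List.map_cons, sw_id ha'.1 hb'.1, sw_id ha'.2.1 hb'.2.1,
      sw_id ha'.2.2.1 hb'.2.2.1, sw_id ha'.2.2.2.1 hb'.2.2.2.1, sw_id ha'.2.2.2.2 hb'.2.2.2.2]
  have s1 : sw a b a = b := by simp [sw]
  have s2 : sw a b b = a := by simp [sw, hab'.symm]
  have hcount : ∀ z, (A ++ (B ++ (C ++ (D ++ R)))).count z ≤ 2 := by
    intro z
    have h0 := hc z
    rcases hs with rfl | rfl | rfl <;>
      simp only [List.count_append, List.count_cons] at h0 ⊢ <;> omega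
  rcases hs with rfl | rfl | rfl
  · obtain ⟨w', r, e⟩ := pat1 hab' ha hb ho2 h
    rw [hmap, s1, s2]
    refine ⟨w', r, by simpa using C2_pat1 hab' ha hb, fun G hG c y hcl hg _ => red_E hG e hcl hg⟩
  · obtain ⟨w', r, e⟩ := pat2 hab' ha hb ho2 h
    rw [hmap, s1, s2]
    refine ⟨w', r, by simpa using C2_pat2 hab' ha hb, fun G hG c y hcl hg _ => red_E hG e hcl hg⟩
  · obtain ⟨w₀, w', w₁, w₂, r', r1, r2, hw0, e, e', e1, e2⟩ := pat3 hab' ha hb ho2 h
    rw [hmap, s1, s2]
    refine ⟨w', r', by simpa using C2_pat3 hab' ha hb, fun G hG c y hcl hg hsm => ?_⟩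
    have g1 := hsm _ w₁ r1 (by simp) (C2_sm1 hab' ha hb hcount) (by
      refine (closed_congr ?_ y).1 hcl
      rw [h.w, r1.w]; simp)
    have g2 := hsm _ w₂ r2 (by simp) (C2_sm2 hab' ha hb hcount) (by
      refine (closed_congr ?_ y).1 hcl
      rw [h.w, r2.w]; simp)
    obtain ⟨n, hn⟩ : ∃ n, n = (A ++ (B ++ (C ++ (D ++ R)))).length := ⟨_, rfl⟩
    rw [← hn] at hw0
    have hAn : A.length ≤ n := by rw [hn]; simp
    obtain ⟨X, hX⟩ : ∃ X : Word, X = w₀ ++ [birth A.length, birth (A.length + 2)] := ⟨_, rfl⟩
    have hXw : width X 0 = some (n + 4) := by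
      rw [hX, width_append, hw0, Option.bind_some, w_birth _ hAn, w_birth _ (by omega), w_nil]
    obtain ⟨Y, hY⟩ : ∃ Y : Word, Y = spread a A.length B C D ++ y := ⟨_, rfl⟩
    -- the crossing
    have hcl0 : Ok (X ++ [cx (decide (b < a)) (A.length + 1)] ++ Y) := by
      have := (closed_congr (w := w) (w' := (w₀ ++ [birth A.length, birth (A.length + 2),
        cx (decide (b < a)) (A.length + 1)]) ++ spread a A.length B C D) (by
          obtain ⟨⟨m, k1, k2⟩, _⟩ := e; exact k2.trans k1.symm) y).1 hcl
      simpa [hX, hY] using this
    have hcl0' : Ok (X ++ [cx (decide (a < b)) (A.length + 1)] ++ Y) := by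
      refine (closed_congr (w := X ++ [cx (decide (b < a)) (A.length + 1)])
        (w' := X ++ [cx (decide (a < b)) (A.length + 1)]) ?_ Y).1 hcl0
      rw [width_append, width_append, hXw, Option.bind_some, Option.bind_some,
        w_cx _ _ (by omega), w_cx _ _ (by omega)]
    have hcl1 : Ok (X ++ Y) := by
      refine (closed_congr (w := X ++ [cx (decide (b < a)) (A.length + 1)])
        (w' := X) ?_ Y).1 hcl0
      rw [width_append, hXw, Option.bind_some, w_cx _ _ (by omega), w_nil]
    have hcl2 : Ok (X ++ [death (A.length + 1), birth (A.length + 1)] ++ Y) := by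
      refine (closed_congr (w := X ++ [cx (decide (b < a)) (A.length + 1)])
        (w' := X ++ [death (A.length + 1), birth (A.length + 1)]) ?_ Y).1 hcl0
      rw [width_append, width_append, hXw, Option.bind_some, Option.bind_some,
        w_cx _ _ (by omega), w_death _ (by omega), w_birth _ (by omega), w_nil]
      rfl
    have hnb : (!decide (b < a)) = decide (a < b) := by
      rcases lt_or_gt_of_ne hab' with h | h
      · have : ¬ b < a := by omega
        simp [h, this]
      · have : ¬ a < b := by omega
        simp [h, this]
    have k0 : G c (X ++ [cx (!decide (b < a)) (A.length + 1)] ++ Y) := by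
      rw [hnb]
      have := red_E hG (y := y) (c := c) e' (by simpa [hX, hY] using hcl0') hg
      simpa [hX, hY] using this
    have k1 : G (c - 1) (X ++ Y) := by
      have := red_E hG (y := y) (c := c - 1) e1 (by simpa [hX, hY] using hcl1) g1
      simpa [hX, hY] using this
    have k2 : G (c - 1) (X ++ [death (A.length + 1), birth (A.length + 1)] ++ Y) := by
      have z1 := (e_zig2 (n := n + 2) (i := A.length + 1) (by omega)).cong (m := 0)
        (w₀ ++ [birth A.length]) ([birth (A.length + 1)] ++ spread a A.length B C D) (by
          rw [width_append, hw0, Option.bind_some, w_birth _ hAn, w_nil]) (by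
          obtain ⟨⟨m, k3, k4⟩, _⟩ := e2
          refine ⟨m, ?_⟩
          rw [width_append, width_append, hw0, Option.bind_some, w_birth _ hAn,
            w_birth _ (by omega), w_nil, Option.bind_some] at k3
          rw [width_append, width_append, width_append, hw0, Option.bind_some, w_birth _ hAn,
            w_nil, Option.bind_some, w_birth _ (by omega), w_death _ (by omega), w_nil,
            Option.bind_some, width_append, w_birth _ (by omega), w_nil, Option.bind_some]
          exact k3)
      have z2 : E 0 (w₀ ++ [birth A.length] ++ [birth (A.length + 1 + 1), death (A.length + 1)] ++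
          ([birth (A.length + 1)] ++ spread a A.length B C D)) w₂ := by
        refine z1.trans ?_
        simpa using e2
      have := red_E hG (y := y) (c := c - 1) z2 (by simpa [hX, hY] using hcl2) g2
      simpa [hX, hY] using this
    have key := hG.cross c (decide (b < a)) X (A.length + 1) Y hcl0 k0 k1 k2
    have := red_E hG (y := y) (c := c) e.symm (by simpa [hX, hY] using hcl) (by
      simpa [hX, hY] using key)
    exact this

/-- the predicate holds for all layered diagrams followed by `y` -/
def Good (G : ℤ → Word → Prop) (y : Word) : Prop :=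
  ∀ s w c, Rep s w → (C2 s : ℤ) ≤ 2 * c → Ok (w ++ y) → w ++ y ≠ [] → G (c + crs y) (w ++ y)

theorem good_nil {G : ℤ → Word → Prop} (hG : Sk G) : Good G [] := by
  intro s w c h hc hcl _
  rw [List.append_nil] at hcl
  have hw := h.w
  rw [show width w 0 = some 2 from hcl] at hw
  have hl : s.length = 2 := (Option.some.inj hw).symm
  obtain ⟨j, k, rfl⟩ := List.length_eq_two.1 hl
  have hj := h.two j (by simp)
  have hjk : k = j := by
    by_contra hne
    simp [List.count_cons, hne] at hj
  subst hjk
  obtain ⟨w', r, e⟩ := bslide Rep.nil [] [] k rfl (by simp)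
  have hww := h.unique r
  subst hww
  have h0 : (0 : ℤ) ≤ c + crs [] := by
    have : (0 : ℤ) ≤ C2 [k, k] := by positivity
    simp only [crs]
    push_cast
    omega
  refine hG.mono 0 _ _ h0 ?_
  exact hG.reg 0 w _ [] (by simpa using hcl) e.symm (by simpa using hG.base)

theorem good_birth {G : ℤ → Word → Prop} (hG : Sk G) {y : Word} (hy : Good G y) (i : ℕ) :
    Good G (birth i :: y) := by
  intro s w c h hc hcl _
  have hw := h.w
  have hi : i ≤ s.length := by
    by_contra hcon
    unfold Ok at hcl
    rw [width_append, hw, Option.bind_some] at hcl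
    simp [width, Piece.width, hcon] at hcl
  obtain ⟨j, hj⟩ : ∃ j, j ∉ s := by
    refine ⟨s.sum + 1, fun hm => ?_⟩
    have := List.le_sum_of_mem hm
    omega
  have hsp : s = s.take i ++ s.drop i := (List.take_append_drop i s).symm
  obtain ⟨w', r, e⟩ := bslide h (s.take i) (s.drop i) j hsp hj
  have hl : (s.take i).length = i := by simp [hi]
  rw [hl] at e
  have hC : C2 (s.take i ++ j :: j :: s.drop i) ≤ C2 s := by
    have := C2_ins (A := s.take i) (B := s.drop i) (j := j) (by rwa [← hsp])
    rwa [← hsp] at this
  have hcl' : Ok (w' ++ y) := by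
    refine (closed_congr ?_ y).1 (by simpa using hcl : Ok ((w ++ [birth i]) ++ y))
    obtain ⟨⟨m, h1, h2⟩, _⟩ := e
    exact h1.trans h2.symm
  have h1 := hy _ w' c r (by omega) hcl' (by
    intro hnil
    exact r.ne_nil (by simp) (List.append_eq_nil_iff.1 hnil).1)
  have := red_E hG (y := y) e (by simpa using hcl) h1
  simpa [crs] using this

theorem good_death_aux {G : ℤ → Word → Prop} (hG : Sk G) {y : Word} (hy : Good G y) :
    ∀ (m b : ℕ) (P Q : List ℕ) (j k : ℕ) (w : Word) (c : ℤ), Rep (P ++ j :: k :: Q) w →
      C2 (P ++ j :: k :: Q) ≤ m → (btw (P ++ j :: k :: Q) j k).card ≤ b →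
      (C2 (P ++ j :: k :: Q) : ℤ) ≤ 2 * c → Ok (w ++ death P.length :: y) →
      G (c + crs y) (w ++ death P.length :: y) := by
  intro m
  induction m using Nat.strong_induction_on with
  | _ m ihm =>
    intro b
    induction b with
    | zero =>
      intro P Q j k w c h hm hb hc hcl
      have hcl2 : Ok ((w ++ [death P.length]) ++ y) := by simpa using hcl
      by_cases hjk : j = k
      · subst hjk
        have hcount := h.two j (by simp)
        have hj : j ∉ P ++ Q := by
          rw [← List.count_eq_zero]
          simp only [List.count_append, List.count_cons_self] at hcount ⊢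
          omega
        obtain ⟨w₀, h0⟩ := h.erase j
        have hf : (P ++ j :: j :: Q).filter (fun x => x ≠ j) = P ++ Q := by
          simp only [List.mem_append, not_or] at hj
          simp only [List.filter_append, List.filter_cons]
          rw [filt1 hj.1, filt1 hj.2]
          simp
        rw [hf] at h0
        obtain ⟨w₁, h1, e1⟩ := bslide h0 P Q j rfl hj
        have hww := h.unique h1
        subst hww
        have hw0 := h0.w
        have hPn : P.length ≤ (P ++ Q).length := by simp
        have e2 : E 0 (w ++ [death P.length]) (w₀ ++ [birth P.length, death P.length]) := by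
          have := E0_append (v := [death P.length]) e1.symm ⟨(P ++ Q).length, by
            rw [width_append, width_append, hw0, Option.bind_some, w_birth _ hPn, w_nil,
              Option.bind_some, w_death _ (by omega), w_nil]; rfl⟩
          simpa using this
        have hcl3 : Ok (w₀ ++ y) := by
          refine (closed_congr ?_ y).1 hcl2
          obtain ⟨⟨a, k1, k2⟩, _⟩ := e2
          rw [k1, ← k2, width_append, hw0, Option.bind_some, w_birth _ hPn, w_death _ (by omega),
            w_nil]
          rfl
        have hN : C2 (P ++ Q) ≤ C2 (P ++ j :: j :: Q) := by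
          -- the pair jj does not interleave
          obtain ⟨v, hv⟩ : ∃ v, v ∉ P ++ j :: j :: Q := by
            refine ⟨(P ++ j :: j :: Q).sum + 1, fun hmm => ?_⟩
            have := List.le_sum_of_mem hmm
            omega
          have hvj : v ≠ j := by rintro rfl; exact hv (by simp)
          simp only [List.mem_append, List.mem_cons, not_or] at hv hj
          have := C2_le (s := P ++ j :: j :: Q) (s' := P ++ Q) hvj.symm 0 0 (by
            intro z z' h1 h2 h3 h4 _
            simp only [N_append, N_cons, List.count_cons, if_neg (Ne.symm h1), if_neg (Ne.symm h2),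
              beq_iff_eq, Ne.symm h1, Ne.symm h3, if_false, add_zero, zero_add, le_refl]) (by
            intro z h1 h2
            simp only [N_append, N_left z hj.1, N_left z hj.2, N_right z hj.1, N_right z hj.2,
              N_left z hv.1, N_right z hv.1, N_left z hv.2.2.2, N_right z hv.2.2.2, cnt hj.1,
              cnt hj.2, cnt hv.1, cnt hv.2.2.2]
            omega) (by
            simp only [N_append, N_left _ hj.1, N_left _ hj.2, N_right _ hj.1, N_right _ hj.2,
              N_left _ hv.1, N_right _ hv.1, N_left _ hv.2.2.2, N_right _ hv.2.2.2, cnt hj.1,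
              cnt hj.2, cnt hv.1, cnt hv.2.2.2]
            omega)
          omega
        have key : G (c + crs y) (w₀ ++ [birth P.length, death P.length] ++ y) := by
          have hne : w₀ ++ y ≠ [] := by
            intro hnil
            rw [hnil] at hcl3
            simp [Ok, w_nil] at hcl3
          refine hG.circ _ w₀ P.length y hcl3 ⟨_, hw0, hPn⟩ ?_
          exact hy _ w₀ c h0 (by omega) hcl3 hne
        have := red_E hG (y := y) (c := c + crs y) e2 hcl2 key
        simpa using this
      · have ho : ∀ x ∈ P ++ Q, x ≠ j → x ≠ k → (x < j ↔ x < k) := by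
          intro x hx hxj hxk
          have hx' : x ∉ btw (P ++ j :: k :: Q) j k := by
            rw [Finset.card_eq_zero.1 (Nat.le_zero.1 hb)]; simp
          have hxm : x ∈ P ++ j :: k :: Q := by
            simp only [List.mem_append, List.mem_cons] at hx ⊢; tauto
          simp only [btw, Finset.mem_filter, List.mem_toFinset, hxm, true_and, not_and] at hx'
          omega
        obtain ⟨ε, s', w', r, e, hC, hlen⟩ := merge hjk ho h
        have hcl3 : Ok (w' ++ y) := (closed_congr e.1 y).1 hcl2
        have hs' : s' ≠ [] := by
          rintro rfl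
          have h1 := h.two j (by simp)
          have h2 := h.two k (by simp)
          have h3 : (P ++ j :: k :: Q).length = 2 := by simpa using hlen.symm
          have h4 : P.length = 0 ∧ Q.length = 0 := by
            simp only [List.length_append, List.length_cons] at h3; omega
          have h5 := List.eq_nil_of_length_eq_zero h4.1
          have h6 := List.eq_nil_of_length_eq_zero h4.2
          subst h5 h6
          simp [List.count_cons, hjk, Ne.symm hjk] at h1
        have h1 := hy s' w' (c - ε) r (by omega) hcl3 (by
          intro hnil; exact r.ne_nil hs' (List.append_eq_nil_iff.1 hnil).1)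
        have h2 := e.2 G hG (c + crs y) y hcl2 (by
          have : c + (crs y : ℤ) - ε = c - ε + crs y := by ring
          rw [this]; exact h1)
        simpa using h2
    | succ b ihb =>
      intro P Q j k w c h hm hb hc hcl
      have hcl2 : Ok ((w ++ [death P.length]) ++ y) := by simpa using hcl
      by_cases hb' : (btw (P ++ j :: k :: Q) j k).card ≤ b
      · exact ihb P Q j k w c h hm hb' hc hcl
      · have hne : (btw (P ++ j :: k :: Q) j k).Nonempty := by
          rw [← Finset.card_pos]; omega
        obtain ⟨v, hv, hvmin⟩ := Finset.exists_min_image _ id hne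
        simp only [id] at hvmin
        set s := P ++ j :: k :: Q with hs
        set u := min j k with hu
        have hvs : v ∈ s ∧ u < v ∧ v < max j k := by
          have hv' := hv
          simp only [btw, Finset.mem_filter, List.mem_toFinset] at hv'
          exact hv'
        have hjk : j ≠ k := by
          rintro rfl
          have := hvs.2
          simp only [hu, min_self, max_self] at this
          omega
        have hus : u ∈ s := by
          rcases min_choice j k with h | h
          · rw [hu, h, hs]; simp
          · rw [hu, h, hs]; simp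
        have huv : u ≠ v := by omega
        have ho : ∀ x ∈ s, x ≠ u → x ≠ v → (x < u ↔ x < v) := by
          intro x hx hxu hxv
          constructor
          · intro hxu'; omega
          · intro hxv'
            by_contra hcon
            have : x ∈ btw s j k := by
              simp only [btw, Finset.mem_filter, List.mem_toFinset]
              refine ⟨hx, by omega, by omega⟩
            have := hvmin x this
            omega
        obtain ⟨w', r, hC, hex⟩ := exch h huv hus hvs.1 ho
        have hsm : s.map (sw u v) = P.map (sw u v) ++ sw u v j :: sw u v k :: Q.map (sw u v) := by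
          rw [hs]; simp
        -- the new pair
        have hpair : (sw u v j = v ∧ sw u v k = k ∧ j = u) ∨ (sw u v k = v ∧ sw u v j = j ∧ k = u) := by
          rcases lt_or_gt_of_ne hjk with hlt | hlt
          · left
            have h1 : u = j := by rw [hu]; exact min_eq_left hlt.le
            have h2 : max j k = k := max_eq_right hlt.le
            rw [h2] at hvs
            refine ⟨by simp [sw, h1], ?_, h1.symm⟩
            have h3 : k ≠ u := by omega
            have h4 : k ≠ v := by omega
            simp [sw, h3, h4]
          · right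
            have h1 : u = k := by rw [hu]; exact min_eq_right hlt.le
            have h2 : max j k = j := max_eq_left hlt.le
            rw [h2] at hvs
            refine ⟨by simp [sw, h1], ?_, h1.symm⟩
            have h3 : j ≠ u := by omega
            have h4 : j ≠ v := by omega
            simp [sw, h3, h4]
        have hset : (s.map (sw u v)).toFinset = s.toFinset := by
          ext x
          simp only [List.mem_toFinset, List.mem_map]
          constructor
          · rintro ⟨z, hz, rfl⟩
            unfold sw
            split_ifs with h1 h2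
            · exact hvs.1
            · exact hus
            · exact hz
          · intro hx
            by_cases h1 : x = u
            · exact ⟨v, hvs.1, by simp [sw, huv.symm, h1]⟩
            · by_cases h2 : x = v
              · exact ⟨u, hus, by simp [sw, h2]⟩
              · exact ⟨x, hx, by simp [sw, h1, h2]⟩
        have hcard : (btw (s.map (sw u v)) (sw u v j) (sw u v k)).card ≤ b := by
          have hsub : btw (s.map (sw u v)) (sw u v j) (sw u v k) ⊆ (btw s j k).erase v := by
            intro x hx
            simp only [btw, hset, Finset.mem_filter, List.mem_toFinset, Finset.mem_erase] at hx ⊢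
            rcases hpair with ⟨h1, h2, h3⟩ | ⟨h1, h2, h3⟩
            · rw [h1, h2] at hx
              rw [← h3] at hvs
              have : j < k := by
                have := hvs.2
                omega
              refine ⟨by omega, hx.1, by omega, by omega⟩
            · rw [h1, h2] at hx
              rw [← h3] at hvs
              have : k < j := by
                have := hvs.2
                omega
              refine ⟨by omega, hx.1, by omega, by omega⟩
          have h1 := Finset.card_le_card hsub
          have h2 := Finset.card_erase_lt_of_mem hv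
          omega
        have hPl : (P.map (sw u v)).length = P.length := by simp
        have hcl3 : Ok (w' ++ death P.length :: y) := by
          refine (closed_congr (w := w) ?_ _).1 hcl
          rw [h.w, r.w]; simp
        have g0 : G (c + crs y) (w' ++ death P.length :: y) := by
          rw [hsm] at r hcard hC
          have := ihb (P.map (sw u v)) (Q.map (sw u v)) (sw u v j) (sw u v k) w' c r (by omega)
            hcard (by omega) (by rw [hPl]; exact hcl3)
          rwa [hPl] at this
        refine hex G hG _ _ hcl g0 ?_
        intro s₁ w₁ r₁ hl₁ hC₁ hcl₁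
        -- s₁ = P₁ ++ j₁ :: k₁ :: Q₁
        have hlen : P.length + 2 ≤ s₁.length := by
          rw [hl₁, hs, List.length_append, List.length_cons, List.length_cons]; omega
        have hd : s₁ = s₁.take P.length ++ s₁[P.length] :: s₁[P.length + 1] ::
            s₁.drop (P.length + 2) := by
          rw [← List.drop_eq_getElem_cons, ← List.drop_eq_getElem_cons, List.take_append_drop]
        have htl : (s₁.take P.length).length = P.length := by
          rw [List.length_take]; omega
        rw [hd] at r₁ hC₁
        have := ihm (m - 1) (by omega) (btw (s₁.take P.length ++ s₁[P.length] ::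
            s₁[P.length + 1] :: s₁.drop (P.length + 2)) s₁[P.length] s₁[P.length + 1]).card
          (s₁.take P.length) (s₁.drop (P.length + 2)) s₁[P.length] s₁[P.length + 1] w₁ (c - 1) r₁
          (by omega) (le_refl _) (by omega) (by rw [htl]; exact hcl₁)
        rw [htl] at this
        have e : c + (crs y : ℤ) - 1 = c - 1 + crs y := by ring
        rw [e]; exact this

theorem good_death {G : ℤ → Word → Prop} (hG : Sk G) {y : Word} (hy : Good G y) (i : ℕ) :
    Good G (death i :: y) := by
  intro s w c h hc hcl _
  have hw := h.w
  have hi : i + 2 ≤ s.length := by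
    by_contra hcon
    unfold Ok at hcl
    rw [width_append, hw, Option.bind_some] at hcl
    simp [width, Piece.width, hcon] at hcl
  have hd : s = s.take i ++ s[i] :: s[i + 1] :: s.drop (i + 2) := by
    rw [← List.drop_eq_getElem_cons, ← List.drop_eq_getElem_cons, List.take_append_drop]
  have htl : (s.take i).length = i := by rw [List.length_take]; omega
  have h' := h
  have hc' := hc
  rw [hd] at h' hc'
  have := good_death_aux hG hy _ _ _ _ _ _ w c h' (le_refl _) (le_refl _) hc' (by
    rw [htl]; exact hcl)
  rw [htl] at this
  simpa [crs] using this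

theorem good_cx {G : ℤ → Word → Prop} (hG : Sk G) {y : Word} (hy : Good G y) (b : Bool) (i : ℕ) :
    Good G (cx b i :: y) := by
  intro s w c h hc hcl _
  have hw := h.w
  have hi : i + 2 ≤ s.length := by
    by_contra hcon
    unfold Ok at hcl
    rw [width_append, hw, Option.bind_some] at hcl
    cases b <;> simp [width, Piece.width, cx, hcon] at hcl
  have hd : s = s.take i ++ s[i] :: s[i + 1] :: s.drop (i + 2) := by
    rw [← List.drop_eq_getElem_cons, ← List.drop_eq_getElem_cons, List.take_append_drop]
  have htl : (s.take i).length = i := by rw [List.length_take]; omega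
  have hcrs : (crs (cx b i :: y) : ℤ) = crs y + 1 := by cases b <;> simp [cx, crs]
  rw [hcrs]
  have hsne : s ≠ [] := by rintro rfl; simp at hi
  have hwne : ∀ v : Word, w ++ v ≠ [] := by
    intro v hnil; exact h.ne_nil hsne (List.append_eq_nil_iff.1 hnil).1
  have hcl2 : Ok ((w ++ [cx b i]) ++ y) := by simpa using hcl
  have hcly : Ok (w ++ y) := by
    refine (closed_congr ?_ y).1 hcl2
    rw [width_append, hw, Option.bind_some, w_cx _ _ hi, w_nil]
  by_cases hxy : s[i] = s[i + 1]
  · have h' := h
    rw [hd, ← hxy] at h'
    have e := curl_at b h'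
    rw [htl] at e
    have h1 := hy s w (c + 1 - sg b) h (by
      have : sg b ≤ 1 := by cases b <;> simp [sg]
      omega) hcly (hwne y)
    have h2 := e.2 G hG (c + (crs y + 1)) y hcl2 (by
      have : c + ((crs y : ℤ) + 1) - sg b = c + 1 - sg b + crs y := by ring
      rw [this]; exact h1)
    simpa using h2
  · obtain ⟨w', r, e⟩ := slide h (s.take i) (s.drop (i + 2)) s[i] s[i + 1] hd hxy
    rw [htl] at e
    have hC := C2_swap (s.take i) (s.drop (i + 2)) s[i] s[i + 1]
    rw [← hd] at hC
    have hrne : w' ≠ [] := r.ne_nil (by intro hnil; have := congrArg List.length hnil; simp only [List.length_append, List.length_cons, List.length_nil] at this; omega)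
    have hcl3 : ∀ b' : Bool, Ok ((w ++ [cx b' i]) ++ y) := by
      intro b'
      refine (closed_congr ?_ y).1 hcly
      rw [width_append, hw, Option.bind_some, w_cx _ _ hi, w_nil]
    have hclw' : Ok (w' ++ y) := by
      refine (closed_congr ?_ y).1 (hcl3 (decide (s[i + 1] < s[i])))
      obtain ⟨⟨m, h1, h2⟩, _⟩ := e
      exact h1.trans h2.symm
    have hgood : G (c + (crs y + 1)) ((w ++ [cx (decide (s[i + 1] < s[i])) i]) ++ y) := by
      refine red_E hG e (hcl3 _) ?_
      have := hy _ w' (c + 1) r (by omega) hclw' (by
        intro hnil; exact hrne (List.append_eq_nil_iff.1 hnil).1)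
      have e2 : c + ((crs y : ℤ) + 1) = c + 1 + crs y := by ring
      rw [e2]; exact this
    by_cases hb : b = decide (s[i + 1] < s[i])
    · rw [hb]
      simpa using hgood
    · have hb' : (!b) = decide (s[i + 1] < s[i]) := by
        revert hb
        generalize decide (s[i + 1] < s[i]) = b'
        cases b <;> cases b' <;> simp
      have hdb : Good G (death i :: birth i :: y) := good_death hG (good_birth hG hy i) i
      have hcldb : Ok (w ++ death i :: birth i :: y) := by
        have : Ok ((w ++ [death i, birth i]) ++ y) := by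
          refine (closed_congr ?_ y).1 hcly
          rw [width_append, hw, Option.bind_some, w_death _ hi, w_birth _ (by omega), w_nil]
          congr 1
          omega
        simpa using this
      have k2 := hdb s w c h hc hcldb (hwne _)
      have k1 := hy s w c h hc hcly (hwne y)
      have := hG.cross (c + (crs y + 1)) b w i y hcl2 (by rw [hb']; exact hgood) (by
        have e2 : c + ((crs y : ℤ) + 1) - 1 = c + crs y := by ring
        rw [e2]; exact k1) (by
        have e2 : c + ((crs y : ℤ) + 1) - 1 = c + crs y := by ring
        rw [e2]; simpa [crs] using k2)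
      simpa using this

theorem good {G : ℤ → Word → Prop} (hG : Sk G) (y : Word) : Good G y := by
  induction y with
  | nil => exact good_nil hG
  | cons p y ih =>
    cases p with
    | birth i => exact good_birth hG ih i
    | death i => exact good_death hG ih i
    | pos i => exact good_cx hG ih false i
    | neg i => exact good_cx hG ih true i

/-- Every skein predicate holds for every open diagram, with the number of crossings as bound. -/
theorem span2 {G : ℤ → Word → Prop} (hG : Sk G) (w : Word) (hw : Ok w) : G (crs w) w := by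
  have := good hG w [] [] 0 Rep.nil (by simp [C2]) (by simpa using hw) (by
    intro h
    simp only [List.nil_append] at h
    rw [h] at hw
    simp [Ok, w_nil] at hw)
  simpa using this

end Pool.Agent.Helper82_Alt.Loc.O
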