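import Pool.Agent.Helper82_Alt.Spec2
import Pool.Agent.Helper82_Alt.B1

/-!
# Nugatory crossings, Kauffman polynomial
-/

set_option autoImplicit false

namespace Pool.Agent.Helper82_Alt.PNugK

open Pool.Agent.Helper454.Kauf
open Pool.Agent.Helper454.Kauf.Piece (birth death pos neg)

theorem t_nugK (hE : S_nugE) (hT : S_tanK) : S_nugK := by
  intro K hK hK1 x y i Dt Df b hN
  obtain ⟨_, _, hcx, V, Y, wV, wY, hI, hIt, hIf⟩ := hE x y i Dt Df hN
  obtain ⟨q, hq⟩ := hT Raz K hK V wV
  have cV : Closed (V ++ [.death 0]) := by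
    unfold Closed
    rw [width_append, wV, Option.bind_some, w_death _ (by omega), w_nil]
  have pV : K (V ++ [.death 0]) = q := by
    rw [hq _ cV]
    show q • K circle = q
    rw [hK1, smul_eq_mul, mul_one]
  have cD : Closed (V ++ cx b 0 :: Y) := by
    unfold Closed
    rw [width_append, wV, Option.bind_some, w_cx _ _ (by omega), wY]
  have cY : Closed ([] ++ [.birth 0] ++ Y) := by
    unfold Closed
    simp only [List.nil_append, List.cons_append]
    rw [w_birth _ (by omega), wY]
  have h1 := cxBirth hK b [] 0 Y cY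
  simp only [List.nil_append, List.cons_append, smul_eq_mul] at h1
  rw [hK.regular _ _ (hI b), hq _ cD, h1, smul_eq_mul, ← hK.regular _ _ hIt, ← hK.regular _ _ hIf,
    pV]
  ring

end Pool.Agent.Helper82_Alt.PNugK
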