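import Pool.Agent.Helper82_Alt.Spec2

/-!
# Labelled words: widths, separation of the two sides
-/

set_option autoImplicit false
set_option linter.unusedSimpArgs false

namespace Pool.Agent.Helper82_Alt

open Pool.Agent.Helper454.Kauf
open Pool.Agent.Helper454.Kauf.Piece (birth death pos neg)

namespace PRun

theorem split_at {s : List Bool} {i : ℕ} {b c : Bool} (h1 : s[i]? = some b)
    (h2 : s[i + 1]? = some c) :
    ∃ l r : List Bool, l.length = i ∧ s = l ++ b :: c :: r ∧ s.take i = l ∧ s.drop (i + 2) = r := by
  obtain ⟨hi, rfl⟩ := List.getElem?_eq_some_iff.1 h1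
  obtain ⟨hj, rfl⟩ := List.getElem?_eq_some_iff.1 h2
  refine ⟨s.take i, s.drop (i + 2), by rw [List.length_take]; omega, ?_, rfl, rfl⟩
  conv_lhs => rw [← List.take_append_drop i s]
  rw [List.drop_eq_getElem_cons hi, List.drop_eq_getElem_cons hj]

/-- the three kinds of steps -/
theorem rstep_cases {p : Piece} {b : Bool} {s s' : List Bool} (h : rstep p b s = some s') :
    ∃ l r : List Bool,
      (p = birth l.length ∧ s = l ++ r ∧ s' = l ++ b :: b :: r) ∨
      (p = death l.length ∧ s = l ++ b :: b :: r ∧ s' = l ++ r) ∨
      ((∃ c, p = cx c l.length) ∧ s = l ++ b :: b :: r ∧ s' = l ++ b :: b :: r) := by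
  cases p with
  | birth i =>
    simp only [rstep] at h
    split_ifs at h with hi
    obtain rfl := Option.some.inj h
    refine ⟨s.take i, s.drop i, Or.inl ⟨?_, ?_, rfl⟩⟩
    · rw [List.length_take, min_eq_left hi]
    · exact (List.take_append_drop i s).symm
  | death i =>
    simp only [rstep] at h
    split_ifs at h with hi
    obtain rfl := Option.some.inj h
    obtain ⟨l, r, h1, h2, h3, h4⟩ := split_at hi.1 hi.2
    refine ⟨l, r, Or.inr (Or.inl ⟨by rw [h1], h2, by rw [h3, h4]⟩)⟩
  | pos i =>
    simp only [rstep] at h
    split_ifs at h with hi
    obtain rfl := Option.some.inj h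
    obtain ⟨l, r, h1, h2, h3, h4⟩ := split_at hi.1 hi.2
    exact ⟨l, r, Or.inr (Or.inr ⟨⟨false, by rw [h1]; rfl⟩, h2, h2⟩)⟩
  | neg i =>
    simp only [rstep] at h
    split_ifs at h with hi
    obtain rfl := Option.some.inj h
    obtain ⟨l, r, h1, h2, h3, h4⟩ := split_at hi.1 hi.2
    exact ⟨l, r, Or.inr (Or.inr ⟨⟨true, by rw [h1]; rfl⟩, h2, h2⟩)⟩

theorem cx_index (c : Bool) (i : ℕ) : (cx c i).index = i := by cases c <;> rfl
theorem cx_moved (c : Bool) (i j : ℕ) : (cx c i).moved j = cx c j := by cases c <;> rfl
theorem cx_width (c : Bool) (i n : ℕ) : (cx c i).width n = if i + 2 ≤ n then some n else none := by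
  cases c <;> rfl

theorem up_zero (p : Piece) : up 0 p = p := by cases p <;> rfl

theorem up_map_zero (w : Word) : w.map (up 0) = w := by
  have : up 0 = id := funext up_zero
  rw [this, List.map_id]

theorem up_up (a b : ℕ) (p : Piece) : up a (up b p) = up (a + b) p := by
  cases p <;> simp only [up, Piece.moved, Piece.index] <;> congr 1 <;> omega

theorem up_map_map (a b : ℕ) (w : Word) : (w.map (up b)).map (up a) = w.map (up (a + b)) := by
  rw [List.map_map]
  congr 1
  funext p
  exact up_up a b p

theorem up_cx (m : ℕ) (c : Bool) (i : ℕ) : up m (cx c i) = cx c (i + m) := by cases c <;> rfl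
theorem up_birth (m i : ℕ) : up m (birth i) = birth (i + m) := rfl
theorem up_death (m i : ℕ) : up m (death i) = death (i + m) := rfl

theorem rstep_width {p : Piece} {b : Bool} {s s' : List Bool} (h : rstep p b s = some s') :
    p.width s.length = some s'.length := by
  obtain ⟨l, r, h1⟩ := rstep_cases h
  rcases h1 with ⟨rfl, rfl, rfl⟩ | ⟨rfl, rfl, rfl⟩ | ⟨⟨c, rfl⟩, rfl, rfl⟩
  · simp only [Piece.width, List.length_append, List.length_cons]
    rw [if_pos (by omega)]; rfl
  · simp only [Piece.width, List.length_append, List.length_cons]
    rw [if_pos (by omega)]; congr 1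
  · simp only [cx_width, List.length_append, List.length_cons]
    rw [if_pos (by omega)]

theorem rstep_count_ne {p : Piece} {b c : Bool} {s s' : List Bool} (h : rstep p b s = some s')
    (hc : b ≠ c) : s'.count c = s.count c := by
  obtain ⟨l, r, h1⟩ := rstep_cases h
  rcases h1 with ⟨rfl, rfl, rfl⟩ | ⟨rfl, rfl, rfl⟩ | ⟨⟨c, rfl⟩, rfl, rfl⟩
  · simp [List.count_cons, hc]
  · simp [List.count_cons, hc]
  · rfl

theorem rstep_count_eq {p : Piece} {b : Bool} {s s' : List Bool} (h : rstep p b s = some s') :
    (p.moved (ct b s p.index)).width (s.count b) = some (s'.count b) := by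
  obtain ⟨l, r, h1⟩ := rstep_cases h
  rcases h1 with ⟨rfl, rfl, rfl⟩ | ⟨rfl, rfl, rfl⟩ | ⟨⟨c, rfl⟩, rfl, rfl⟩
  · simp only [Piece.index, ct, List.take_left', Piece.moved, Piece.width, List.count_append,
      List.count_cons_self]
    rw [if_pos (by omega)]; rfl
  · simp only [Piece.index, ct, List.take_left', Piece.moved, Piece.width, List.count_append,
      List.count_cons_self]
    rw [if_pos (by omega)]; congr 1
  · simp only [cx_index, ct, List.take_left', cx_moved, cx_width, List.count_append,
      List.count_cons_self]
    rw [if_pos (by omega)]

theorem run_width {L : LW} : ∀ {s s' : List Bool}, run L s = some s' →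
    width (wd L) s.length = some s'.length := by
  induction L with
  | nil => intro s s' h; obtain rfl := Option.some.inj h; rfl
  | cons p L ih =>
    intro s s' h
    simp only [run] at h
    obtain ⟨s1, h1, h2⟩ := Option.bind_eq_some_iff.1 h
    show (p.1.width s.length).bind (width (wd L)) = _
    rw [rstep_width h1, Option.bind_some]
    exact ih h2

theorem subw_cons_eq {b : Bool} {p : Piece × Bool} {L : LW} {s s1 : List Bool}
    (h1 : rstep p.1 p.2 s = some s1) (hb : p.2 = b) :
    subw b (p :: L) s = p.1.moved (ct b s p.1.index) :: subw b L s1 := by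
  simp only [subw, h1, if_pos hb, Option.getD_some]

theorem subw_cons_ne {b : Bool} {p : Piece × Bool} {L : LW} {s s1 : List Bool}
    (h1 : rstep p.1 p.2 s = some s1) (hb : p.2 ≠ b) :
    subw b (p :: L) s = subw b L s1 := by
  simp only [subw, h1, if_neg hb, Option.getD_some]

theorem run_subw {b : Bool} {L : LW} : ∀ {s s' : List Bool}, run L s = some s' →
    width (subw b L s) (s.count b) = some (s'.count b) := by
  induction L with
  | nil => intro s s' h; obtain rfl := Option.some.inj h; rfl
  | cons p L ih =>
    intro s s' h
    simp only [run] at h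
    obtain ⟨s1, h1, h2⟩ := Option.bind_eq_some_iff.1 h
    by_cases hb : p.2 = b
    · rw [subw_cons_eq h1 hb]
      subst hb
      show ((p.1.moved (ct p.2 s p.1.index)).width (s.count p.2)).bind (width (subw p.2 L s1)) = _
      rw [rstep_count_eq h1, Option.bind_some]
      exact ih h2
    · rw [subw_cons_ne h1 hb, ← rstep_count_ne h1 hb]
      exact ih h2

/-- the widths of moved words -/
theorem width_up (a : ℕ) : ∀ (w : Word) (n m : ℕ), width w n = some m →
    width (w.map (up a)) (a + n) = some (a + m) := by
  intro w
  induction w with
  | nil => intro n m h; obtain rfl := Option.some.inj h; rfl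
  | cons p w ih =>
    intro n m h
    change (p.width n).bind (width w) = some m at h
    obtain ⟨k, h1, h2⟩ := Option.bind_eq_some_iff.1 h
    have h3 : (up a p).width (a + n) = some (a + k) := by
      cases p <;> simp only [Piece.width] at h1 <;> split_ifs at h1 with hi <;>
        obtain rfl := Option.some.inj h1 <;>
        simp only [up, Piece.moved, Piece.index, Piece.width] <;>
        rw [if_pos (by omega)] <;> congr 1 <;> omega
    show ((up a p).width (a + n)).bind (width (w.map (up a))) = _
    rw [h3, Option.bind_some]
    exact ih k m h2

/-- words which act on the first strands -/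
theorem width_add (a : ℕ) : ∀ (w : Word) (n m : ℕ), width w n = some m →
    width w (n + a) = some (m + a) := by
  intro w
  induction w with
  | nil => intro n m h; obtain rfl := Option.some.inj h; rfl
  | cons p w ih =>
    intro n m h
    change (p.width n).bind (width w) = some m at h
    obtain ⟨k, h1, h2⟩ := Option.bind_eq_some_iff.1 h
    have h3 : p.width (n + a) = some (k + a) := by
      cases p <;> simp only [Piece.width] at h1 <;> split_ifs at h1 with hi <;>
        obtain rfl := Option.some.inj h1 <;>
        simp only [Piece.width] <;>
        rw [if_pos (by omega)] <;> congr 1 <;> omega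
    show (p.width (n + a)).bind (width w) = _
    rw [h3, Option.bind_some]
    exact ih k m h2

theorem CW_mvL {n : ℕ} (k m : ℕ) (h : m = 0 ∨ k + m + 1 ≤ n) : CW n (mvL k m) := by
  induction m with
  | zero => exact CW.nil n
  | succ m ih => exact CW.cons true (by omega) (ih (by omega))

theorem CW_sh {n : ℕ} : ∀ (s : List Bool) (k : ℕ), k + s.length ≤ n → CW n (sh k s) := by
  intro s
  induction s with
  | nil => intro k _; exact CW.nil n
  | cons b s ih =>
    intro k h
    simp only [List.length_cons] at h
    cases b
    · have h1 : s.count true ≤ s.length := List.count_le_length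
      exact (CW_mvL k _ (by omega)).append (ih (k + 1) (by omega))
    · exact ih (k + 1) (by omega)

theorem count_add (s : List Bool) : s.count true + s.count false = s.length := by
  induction s with
  | nil => rfl
  | cons b s ih => cases b <;> simp [List.count_cons] <;> omega

end PRun

open PRun in
/-- separation of the two sides of a labelled word -/
theorem t_run (hA : S_shA) (hB : S_shB) : ∀ (L : LW) (s s' : List Bool), run L s = some s' →
    E s.length (sh 0 s ++ wd L)
      (subw true L s ++ (subw false L s).map (up (s'.count true)) ++ sh 0 s') := by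
  intro L
  induction L with
  | nil =>
    intro s s' h
    obtain rfl := Option.some.inj h
    have h0 : E s.length (sh 0 s) (sh 0 s) := E.refl (CW_sh s 0 (by omega)).width
    simpa [wd, subw] using h0
  | cons p L ih =>
    intro s s' h
    have hrun := h
    simp only [run] at h
    obtain ⟨s1, h1, h2⟩ := Option.bind_eq_some_iff.1 h
    have e1 := hA s.length 0 s s1 p.1 p.2 (by omega) h1
    rw [up_zero, up_zero] at e1
    have e2 := ih s1 s' h2
    have w1 : width (sh 0 s) s.length = some s.length := (CW_sh s 0 (by omega)).width
    have w2 : width (sh 0 s ++ [p.1]) s.length = some s1.length := by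
      rw [width_append, w1, Option.bind_some]
      show (p.1.width s.length).bind (width []) = _
      rw [rstep_width h1]; rfl
    have c0 := count_add s
    have c1 := count_add s1
    have c2 := rstep_count_eq h1
    have wp : width [p.1.moved (ct p.2 s p.1.index)] (s.count p.2) = some (s1.count p.2) := by
      show ((p.1.moved (ct p.2 s p.1.index)).width (s.count p.2)).bind (width []) = _
      rw [c2]; rfl
    obtain ⟨p, b⟩ := p
    simp only at *
    cases b with
    | true =>
      have c3 : s1.count false = s.count false := rstep_count_ne h1 (by simp)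
      have w3 : width [p.moved (ct true s p.index)] s.length = some s1.length := by
        rw [← c0, ← c1, c3]
        exact width_add _ _ _ _ wp
      have e3 := (e1.right (wd L) ⟨s'.length, by
        rw [width_append, w2, Option.bind_some, run_width h2]⟩).trans (e2.left _ w3)
      rw [subw_cons_eq (p := (p, true)) h1 rfl, subw_cons_ne (p := (p, true)) h1 (by simp)]
      simpa only [wd, List.map_cons, List.append_assoc, List.cons_append, List.nil_append,
        blk, if_true] using e3
    | false =>
      have c3 : s1.count true = s.count true := rstep_count_ne h1 (by simp)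
      have hq : blk false s p = up (s.count true) (p.moved (ct false s p.index)) := by
        cases p <;> simp only [blk, up, Piece.moved, Piece.index, Bool.false_eq_true, if_false] <;>
          congr 1 <;> omega
      have w3 : width [blk false s p] s.length = some s1.length := by
        rw [← c0, ← c1, c3, hq]
        exact width_up _ _ _ _ wp
      have e3 := (e1.right (wd L) ⟨s'.length, by
        rw [width_append, w2, Option.bind_some, run_width h2]⟩).trans (e2.left _ w3)
      rw [subw_cons_ne (p := (p, false)) h1 (by simp), subw_cons_eq (p := (p, false)) h1 rfl]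
      have e4 := hB s.length (s.count true) (s'.count true) (subw true L s1)
        [p.moved (ct false s p.index)] (s.count false) (s1.count false)
        (by rw [← c3]; exact run_subw h2) wp c0.symm
      have e5 := e4.right ((subw false L s1).map (up (s'.count true)) ++ sh 0 s') (by
        obtain ⟨⟨m, h5, h6⟩, -⟩ := e3
        refine ⟨m, ?_⟩
        rw [← h6, hq]
        simp only [List.map_cons, List.map_nil, List.append_assoc, List.cons_append,
          List.nil_append])
      have e6 : E s.length ([blk false s p] ++
          (subw true L s1 ++ (subw false L s1).map (up (s'.count true)) ++ sh 0 s'))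
          (subw true L s1 ++ ((p.moved (ct false s p.index) :: subw false L s1).map
            (up (s'.count true))) ++ sh 0 s') := by
        rw [hq]
        simpa only [List.map_cons, List.map_nil, List.append_assoc, List.cons_append,
          List.nil_append] using e5
      have e7 := e3.trans e6
      simpa only [wd, List.map_cons, List.append_assoc, List.cons_append, List.nil_append] using e7

end Pool.Agent.Helper82_Alt
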