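import Pool.Agent.Helper82_Alt.Wid

/-!
# Telescoping of row sums
-/

set_option autoImplicit false

namespace Pool.Agent.Helper82_Alt.PTel

open Pool.Agent.Helper454.Kauf (Piece Word Closed width)
open PWid

section

variable {G A : Type} [AddCommGroup A]

/-- sum over the strands of a function of the labels of the two sides -/
def rs (F : G → G → A) (n : ℕ) (x : ℕ → G) : A := ∑ j ∈ Finset.range n, F (x j) (x (j + 1))

/-- the change of the row sum at a piece -/
def dP (F : G → G → A) : Piece → (x x' : ℕ → G) → A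
  | .birth i, x, x' => F (x i) (x' (i + 1)) + F (x' (i + 1)) (x i)
  | .death i, x, _ => -(F (x i) (x (i + 1)) + F (x (i + 1)) (x i))
  | .pos i, x, x' => F (x i) (x' (i + 1)) + F (x' (i + 1)) (x (i + 2)) -
      (F (x i) (x (i + 1)) + F (x (i + 1)) (x (i + 2)))
  | .neg i, x, x' => F (x i) (x' (i + 1)) + F (x' (i + 1)) (x (i + 2)) -
      (F (x i) (x (i + 1)) + F (x (i + 1)) (x (i + 2)))

theorem rs_split (F : G → G → A) (i k : ℕ) (x : ℕ → G) :
    rs F (i + 2 + k) x = rs F i x + (F (x i) (x (i + 1)) + F (x (i + 1)) (x (i + 2))) +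
      ∑ j ∈ Finset.range k, F (x (i + 2 + j)) (x (i + 2 + j + 1)) := by
  unfold rs
  rw [Finset.sum_range_add, Finset.sum_range_succ, Finset.sum_range_succ]
  simp only [add_assoc]

theorem rs_split0 (F : G → G → A) (i k : ℕ) (x : ℕ → G) :
    rs F (i + k) x = rs F i x + ∑ j ∈ Finset.range k, F (x (i + j)) (x (i + j + 1)) := by
  unfold rs
  rw [Finset.sum_range_add]

theorem rs_birth (F : G → G → A) (i n : ℕ) (x x' : ℕ → G) (hi : i ≤ n)
    (h : RStep (.birth i) x x') : rs F (n + 2) x' - rs F n x = dP F (.birth i) x x' := by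
  obtain ⟨h1, h2⟩ := h
  obtain ⟨k, rfl⟩ := Nat.exists_eq_add_of_le hi
  rw [show i + k + 2 = i + 2 + k by omega, rs_split, rs_split0]
  have e1 : rs F i x' = rs F i x := by
    refine Finset.sum_congr rfl fun j hj => ?_
    have := Finset.mem_range.1 hj
    rw [h1 j (by omega), h1 (j + 1) (by omega)]
  have e2 : ∑ j ∈ Finset.range k, F (x' (i + 2 + j)) (x' (i + 2 + j + 1)) =
      ∑ j ∈ Finset.range k, F (x (i + j)) (x (i + j + 1)) := by
    refine Finset.sum_congr rfl fun j _ => ?_
    have a := h2 (i + j) (by omega)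
    have b := h2 (i + j + 1) (by omega)
    rw [show i + j + 2 = i + 2 + j by omega] at a
    rw [show i + j + 1 + 2 = i + 2 + j + 1 by omega] at b
    rw [a, b]
  rw [e1, e2, h1 i le_rfl, h2 i le_rfl]
  simp only [dP]
  abel

theorem rs_death (F : G → G → A) (i n : ℕ) (x x' : ℕ → G) (hi : i ≤ n)
    (h : RStep (.death i) x x') : rs F n x' - rs F (n + 2) x = dP F (.death i) x x' := by
  have h' : RStep (.birth i) x' x := h
  have := rs_birth F i n x' x hi h'
  rw [← neg_sub, this]
  simp only [dP]
  rw [h.1 i le_rfl]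

theorem rs_cross (F : G → G → A) (i n : ℕ) (x x' : ℕ → G) (hi : i + 2 ≤ n)
    (h : ∀ j, j ≠ i + 1 → x' j = x j) : rs F n x' - rs F n x = dP F (.pos i) x x' := by
  obtain ⟨k, rfl⟩ := Nat.exists_eq_add_of_le hi
  rw [rs_split, rs_split]
  have e1 : rs F i x' = rs F i x := by
    refine Finset.sum_congr rfl fun j hj => ?_
    have := Finset.mem_range.1 hj
    rw [h j (by omega), h (j + 1) (by omega)]
  have e2 : ∑ j ∈ Finset.range k, F (x' (i + 2 + j)) (x' (i + 2 + j + 1)) =
      ∑ j ∈ Finset.range k, F (x (i + 2 + j)) (x (i + 2 + j + 1)) := by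
    refine Finset.sum_congr rfl fun j _ => ?_
    rw [h (i + 2 + j) (by omega), h (i + 2 + j + 1) (by omega)]
  rw [e1, e2, h i (by omega), h (i + 2) (by omega)]
  simp only [dP]
  abel

theorem rs_step (F : G → G → A) {D : Word} (hD : Closed D) {t : ℕ} (ht : t < D.length)
    (x x' : ℕ → G) (h : RStep D[t] x x') :
    dP F D[t] x x' = rs F (wid D (t + 1)) x' - rs F (wid D t) x := by
  cases hp : D[t] with
  | birth i =>
    rw [hp] at h
    obtain ⟨a, b⟩ := step_birth hD ht hp
    rw [b, rs_birth F i _ x x' a h]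
  | death i =>
    rw [hp] at h
    obtain ⟨a, b⟩ := step_death hD ht hp
    rw [← b, rs_death F i _ x x' (by omega) h]
  | pos i =>
    rw [hp] at h
    obtain ⟨a, b⟩ := step_pos hD ht hp
    rw [b, rs_cross F i _ x x' a h]
  | neg i =>
    rw [hp] at h
    obtain ⟨a, b⟩ := step_neg hD ht hp
    rw [b, rs_cross F i _ x x' a h]
    rfl

/-- the sum of the changes is zero -/
theorem dP_sum (F : G → G → A) {D : Word} (hD : Closed D) (r : ℕ → ℕ → G) (hr : RLab D r) :
    ∑ t : Fin D.length, dP F D[t] (r t) (r (t + 1)) = 0 := by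
  refine (telescope D.length _ (fun t => rs F (wid D t) (r t))
    (fun t => rs_step F hD t.2 _ _ (hr.2.2 t t.2))).trans ?_
  rw [wid_length hD, wid_zero]
  simp [rs]

end

theorem t_L1 : S_L1 := by
  intro D r s hD hr hs
  have h := dP_sum (G := ℝ × ℝ) (fun a b => a.1 * b.2 - b.1 * a.2) hD (fun t j => (r t j, s t j)) ?_
  · rw [← neg_zero, ← h, ← Finset.sum_neg_distrib]
    refine Finset.sum_congr rfl fun t _ => ?_
    have a := hr.2.2 t t.2
    have b := hs.2.2 t t.2
    simp only [Fin.getElem_fin] at *
    revert a b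
    cases D[(t : ℕ)] with
    | birth i => intro a b; simp only [shoe, dP]; ring
    | death i => intro a b; simp only [shoe, dP]; ring
    | pos i =>
      intro a b
      simp only [shoe, dP]
      ring
    | neg i =>
      intro a b
      simp only [shoe, dP]
      ring
  · refine ⟨fun j => ?_, fun t ht => ?_, fun t ht => ?_⟩
    · simp only [hr.1 j, hs.1 j]
    · funext j; simp only [hr.2.1 t ht, hs.2.1 t ht]
    · have a := hr.2.2 t ht
      have b := hs.2.2 t ht
      revert a b
      cases D[t] with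
      | birth i =>
        intro a b
        exact ⟨fun j hj => by simp only [a.1 j hj, b.1 j hj],
          fun j hj => by simp only [a.2 j hj, b.2 j hj]⟩
      | death i =>
        intro a b
        exact ⟨fun j hj => by simp only [a.1 j hj, b.1 j hj],
          fun j hj => by simp only [a.2 j hj, b.2 j hj]⟩
      | pos i => intro a b; exact fun j hj => by simp only [a j hj, b j hj]
      | neg i => intro a b; exact fun j hj => by simp only [a j hj, b j hj]

theorem t_L4 : S_L4 := by
  intro D C hD hC
  have h := dP_sum (A := ℤ) (fun a b => bi a + bi b) hD C hC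
  unfold PP Rs
  have e : ∑ t : Fin D.length, 2 * (2 * PPp D[t] (C t) (C (t + 1)) -
      RsP D[t] (fun j => bi (C t j)) (fun j => bi (C (t + 1) j)) -
      BCp D[t] (C t) (C (t + 1))) = 0 := by
    rw [← h]
    refine Finset.sum_congr rfl fun t _ => ?_
    have a := hC.2.2 t t.2
    simp only [Fin.getElem_fin] at *
    revert a
    cases D[(t : ℕ)] with
    | birth i => intro a; simp only [PPp, RsP, BCp, dP]; ring
    | death i => intro a; simp only [PPp, RsP, BCp, dP]; ring
    | pos i =>
      intro a
      simp only [PPp, RsP, BCp, dP]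
      ring
    | neg i =>
      intro a
      simp only [PPp, RsP, BCp, dP]
      ring
  rw [← Finset.mul_sum, Finset.sum_sub_distrib, Finset.sum_sub_distrib, ← Finset.mul_sum] at e
  linarith

end Pool.Agent.Helper82_Alt.PTel
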