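import Pool.Agent.Helper82_Alt.Spec

/-!
# Vertex model: general tools

Locality (`atPos_app`), splitting of a state, linearity, telescoping sums of powers of `q`.
-/

set_option autoImplicit false

namespace Pool.Agent.Helper82_Alt.PV

open Pool.Agent.Helper454.Kauf (Piece Word LocalMove FirstMove)
open Pool.Agent.Helper454.Wh (OPiece OWord below forget insD delD swpD)

variable {N : ℕ}

/-! ### locality -/

lemma atPos_zero (g : VF N → VF N) (f : VF N) (s : VS N) : atPos g 0 f s = g f s := rfl

lemma atPos_cons (g : VF N → VF N) (i : ℕ) (f : VF N) (x : Bool × Fin N) (s : VS N) :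
    atPos g (i + 1) f (x :: s) = atPos g i (fun r => f (x :: r)) s := rfl

lemma atPos_app (g : VF N → VF N) (k : ℕ) (u : VS N) : ∀ (f : VF N) (s : VS N),
    atPos g (u.length + k) f (u ++ s) = atPos g k (fun r => f (u ++ r)) s := by
  induction u with
  | nil => intro f s; simp
  | cons x u ih =>
    intro f s
    rw [List.length_cons, show u.length + 1 + k = (u.length + k) + 1 by omega, List.cons_append,
      atPos_cons, ih]
    rfl

lemma atPos_app' (g : VF N → VF N) (k i : ℕ) (u : VS N) (hu : u.length = i) (f : VF N) (s : VS N) :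
    atPos g (i + k) f (u ++ s) = atPos g k (fun r => f (u ++ r)) s := by
  subst hu; exact atPos_app g k u f s

lemma atPos_app0 (g : VF N → VF N) (i : ℕ) (u : VS N) (hu : u.length = i) (f : VF N) (s : VS N) :
    atPos g i f (u ++ s) = g (fun r => f (u ++ r)) s := by
  subst hu; exact atPos_app g 0 u f s

/-! ### splitting of states -/

lemma dlist_length (n : ℕ) (d : ℕ → Bool) : (dlist n d).length = n := by simp [dlist]

lemma state_length {n : ℕ} {d : ℕ → Bool} {s : VS N} (h : s.map Prod.fst = dlist n d) :
    s.length = n := by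
  rw [← dlist_length n d, ← h, List.length_map]

lemma state_get {n : ℕ} {d : ℕ → Bool} {s : VS N} (h : s.map Prod.fst = dlist n d) (i : ℕ)
    (hi : i < s.length) : (s[i]).1 = d i := by
  have h1 : (s.map Prod.fst)[i]'(by simpa using hi) = (s[i]).1 := List.getElem_map _
  rw [← h1]
  have hi' : i < (dlist n d).length := by rw [← h]; simpa using hi
  rw [List.getElem_of_eq h]
  simp [dlist]

/-- a state with at least `i` strands -/
lemma split0 {n : ℕ} {d : ℕ → Bool} {s : VS N} (h : s.map Prod.fst = dlist n d) {i : ℕ}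
    (hi : i ≤ n) : ∃ u s' : VS N, s = u ++ s' ∧ u.length = i := by
  refine ⟨s.take i, s.drop i, (List.take_append_drop i s).symm, ?_⟩
  rw [List.length_take, state_length h]; omega

lemma split1 {n : ℕ} {d : ℕ → Bool} {s : VS N} (h : s.map Prod.fst = dlist n d) {i : ℕ}
    (hi : i + 1 ≤ n) : ∃ (u : VS N) (c : Fin N) (s' : VS N), s = u ++ (d i, c) :: s' ∧
      u.length = i := by
  have hl := state_length h
  refine ⟨s.take i, (s[i]'(by omega)).2, s.drop (i + 1), ?_, ?_⟩
  · have h1 : (d i, (s[i]'(by omega)).2) = s[i]'(by omega) :=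
      Prod.ext (state_get h i (by omega)).symm rfl
    rw [h1, List.getElem_cons_drop, List.take_append_drop]
  · rw [List.length_take]; omega

lemma split2 {n : ℕ} {d : ℕ → Bool} {s : VS N} (h : s.map Prod.fst = dlist n d) {i : ℕ}
    (hi : i + 2 ≤ n) : ∃ (u : VS N) (c c' : Fin N) (s' : VS N),
      s = u ++ (d i, c) :: (d (i + 1), c') :: s' ∧ u.length = i := by
  have hl := state_length h
  refine ⟨s.take i, (s[i]'(by omega)).2, (s[i + 1]'(by omega)).2, s.drop (i + 2), ?_, ?_⟩
  · have h1 : (d i, (s[i]'(by omega)).2) = s[i]'(by omega) :=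
      Prod.ext (state_get h i (by omega)).symm rfl
    have h2 : (d (i + 1), (s[i + 1]'(by omega)).2) = s[i + 1]'(by omega) :=
      Prod.ext (state_get h (i + 1) (by omega)).symm rfl
    rw [h1, h2, show i + 2 = i + 1 + 1 by omega, List.getElem_cons_drop, List.getElem_cons_drop,
      List.take_append_drop]
  · rw [List.length_take]; omega

lemma split3 {n : ℕ} {d : ℕ → Bool} {s : VS N} (h : s.map Prod.fst = dlist n d) {i : ℕ}
    (hi : i + 3 ≤ n) : ∃ (u : VS N) (c c' c'' : Fin N) (s' : VS N),
      s = u ++ (d i, c) :: (d (i + 1), c') :: (d (i + 2), c'') :: s' ∧ u.length = i := by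
  have hl := state_length h
  refine ⟨s.take i, (s[i]'(by omega)).2, (s[i + 1]'(by omega)).2, (s[i + 2]'(by omega)).2,
    s.drop (i + 3), ?_, ?_⟩
  · have h1 : (d i, (s[i]'(by omega)).2) = s[i]'(by omega) :=
      Prod.ext (state_get h i (by omega)).symm rfl
    have h2 : (d (i + 1), (s[i + 1]'(by omega)).2) = s[i + 1]'(by omega) :=
      Prod.ext (state_get h (i + 1) (by omega)).symm rfl
    have h3 : (d (i + 2), (s[i + 2]'(by omega)).2) = s[i + 2]'(by omega) :=
      Prod.ext (state_get h (i + 2) (by omega)).symm rfl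
    rw [h1, h2, h3, show i + 3 = i + 2 + 1 by omega, List.getElem_cons_drop,
      show i + 2 = i + 1 + 1 by omega, List.getElem_cons_drop, List.getElem_cons_drop,
      List.take_append_drop]
  · rw [List.length_take]; omega

/-! ### linearity -/

/-- `g` is linear. -/
structure Lin (g : VF N → VF N) : Prop where
  add : ∀ (f f' : VF N) (s : VS N), g (fun r => f r + f' r) s = g f s + g f' s
  smul : ∀ (a : ℝ) (f : VF N) (s : VS N), g (fun r => a * f r) s = a * g f s

lemma Lin.zero {g : VF N → VF N} (h : Lin g) (s : VS N) : g (fun _ => 0) s = 0 := by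
  have := h.smul 0 (fun _ => 0) s
  simpa using this

lemma Lin.sum {g : VF N → VF N} (h : Lin g) {ι : Type*} (t : Finset ι) (a : ι → ℝ)
    (F : ι → VF N) (s : VS N) : g (fun r => ∑ k ∈ t, a k * F k r) s = ∑ k ∈ t, a k * g (F k) s := by
  classical
  induction t using Finset.induction with
  | empty => simpa using h.zero s
  | insert k t hk ih =>
    simp only [Finset.sum_insert hk]
    rw [h.add, h.smul, ih]

lemma Lin.atPos {g : VF N → VF N} (h : Lin g) (i : ℕ) : Lin (atPos g i) := by
  constructor
  · induction i with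
    | zero => exact h.add
    | succ i ih =>
      intro f f' s
      cases s with
      | nil => simp [Helper82_Alt.atPos]
      | cons x s => exact ih _ _ s
  · induction i with
    | zero => exact h.smul
    | succ i ih =>
      intro a f s
      cases s with
      | nil => simp [Helper82_Alt.atPos]
      | cons x s => exact ih a _ s

lemma lin_birth (q : ℝ) (b : Bool) : Lin (birthL q b : VF N → VF N) := by
  constructor
  · intro f f' s
    simp only [birthL, ← Finset.sum_add_distrib]
    exact Finset.sum_congr rfl fun c _ => by ring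
  · intro a f s
    simp only [birthL, Finset.mul_sum]
    exact Finset.sum_congr rfl fun c _ => by ring

lemma lin_death (q : ℝ) : Lin (deathL q : VF N → VF N) := by
  constructor
  · intro f f' s
    rcases s with _ | ⟨⟨b, c⟩, _ | ⟨⟨b', c'⟩, s⟩⟩
    · simp [deathL]
    · simp [deathL]
    · simp only [deathL]
      split_ifs <;> ring
  · intro a f s
    rcases s with _ | ⟨⟨b, c⟩, _ | ⟨⟨b', c'⟩, s⟩⟩
    · simp [deathL]
    · simp [deathL]
    · simp only [deathL]
      split_ifs <;> ring

/-- the sum in the definition of `crossL` -/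
noncomputable def turn (q : ℝ) (s b : Bool) (c : Fin N) (f : VF N) (st : VS N) : ℝ :=
  ∑ e : Fin N, (if ordP s b c e then wB q (!b) e * wD q b c * f ((!b, e) :: (b, e) :: st) else 0)

lemma turn_add (q : ℝ) (s b : Bool) (c : Fin N) (f f' : VF N) (st : VS N) :
    turn q s b c (fun r => f r + f' r) st = turn q s b c f st + turn q s b c f' st := by
  simp only [turn, ← Finset.sum_add_distrib]
  refine Finset.sum_congr rfl fun e _ => ?_
  split_ifs <;> ring

lemma turn_smul (q : ℝ) (s b : Bool) (c : Fin N) (a : ℝ) (f : VF N) (st : VS N) :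
    turn q s b c (fun r => a * f r) st = a * turn q s b c f st := by
  simp only [turn, Finset.mul_sum]
  refine Finset.sum_congr rfl fun e _ => ?_
  split_ifs <;> ring

/-- the sign of the `q - q⁻¹` terms -/
noncomputable def hq (q : ℝ) (s : Bool) : ℝ := if s then -(q - q⁻¹) else q - q⁻¹

/-- the factor of equal colours of parallel strands -/
noncomputable def eq' (q : ℝ) (s : Bool) : ℝ := if s then q⁻¹ else q

lemma crossL_par_eq (q : ℝ) (s b : Bool) (c : Fin N) (f : VF N) (st : VS N) :
    crossL q s f ((b, c) :: (b, c) :: st) = eq' q s * f ((b, c) :: (b, c) :: st) := by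
  simp [crossL, eq']

lemma crossL_par_ne (q : ℝ) (s b : Bool) {c d : Fin N} (h : c ≠ d) (f : VF N) (st : VS N) :
    crossL q s f ((b, c) :: (b, d) :: st) = f ((b, d) :: (b, c) :: st) +
      (if ordP s b c d then hq q s * f ((b, c) :: (b, d) :: st) else 0) := by
  simp [crossL, h, hq]

lemma crossL_anti_eq (q : ℝ) (s : Bool) {b b' : Bool} (hb : b ≠ b') (c : Fin N) (f : VF N)
    (st : VS N) : crossL q s f ((b, c) :: (b', c) :: st) =
      eq' q (!s) * f ((b', c) :: (b, c) :: st) - hq q s * turn q s b c f st := by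
  cases s <;> simp [crossL, hb, hq, eq', turn] <;> ring

lemma crossL_anti_ne (q : ℝ) (s : Bool) {b b' : Bool} (hb : b ≠ b') {c d : Fin N} (h : c ≠ d)
    (f : VF N) (st : VS N) : crossL q s f ((b, c) :: (b', d) :: st) =
      f ((b', d) :: (b, c) :: st) := by
  simp [crossL, hb, h]

lemma lin_cross (q : ℝ) (s : Bool) : Lin (crossL q s : VF N → VF N) := by
  constructor
  · intro f f' st
    rcases st with _ | ⟨⟨b, c⟩, _ | ⟨⟨b', c'⟩, st⟩⟩
    · simp [crossL]
    · simp [crossL]
    · by_cases hb : b = b'
      · subst hb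
        by_cases hc : c = c'
        · subst hc
          simp only [crossL_par_eq]; ring
        · simp only [crossL_par_ne _ _ _ hc]
          split_ifs <;> ring
      · by_cases hc : c = c'
        · subst hc
          simp only [crossL_anti_eq _ _ hb, turn_add]; ring
        · simp only [crossL_anti_ne _ _ hb hc]
  · intro a f st
    rcases st with _ | ⟨⟨b, c⟩, _ | ⟨⟨b', c'⟩, st⟩⟩
    · simp [crossL]
    · simp [crossL]
    · by_cases hb : b = b'
      · subst hb
        by_cases hc : c = c'
        · subst hc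
          simp only [crossL_par_eq]; ring
        · simp only [crossL_par_ne _ _ _ hc]
          split_ifs <;> ring
      · by_cases hc : c = c'
        · subst hc
          simp only [crossL_anti_eq _ _ hb, turn_smul]; ring
        · simp only [crossL_anti_ne _ _ hb hc]

/-! ### pieces -/

/-- the local operator of a piece -/
noncomputable def loc (q : ℝ) (N : ℕ) : OPiece → VF N → VF N
  | .birth _ b => birthL q b
  | .death _ => deathL q
  | .pos _ => crossL q false
  | .neg _ => crossL q true

/-- the index of a piece -/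
def idx : OPiece → ℕ
  | .birth i _ => i
  | .death i => i
  | .pos i => i
  | .neg i => i

lemma opV_eq (q : ℝ) (N : ℕ) (p : OPiece) : opV q N p = atPos (loc q N p) (idx p) := by
  cases p <;> rfl

lemma lin_loc (q : ℝ) (p : OPiece) : Lin (loc q N p) := by
  cases p
  · exact lin_birth q _
  · exact lin_death q
  · exact lin_cross q _
  · exact lin_cross q _

lemma lin_opV (q : ℝ) (p : OPiece) : Lin (opV q N p) := by
  rw [opV_eq]; exact (lin_loc q p).atPos _

lemma lin_opWV (q : ℝ) (w : OWord) : Lin (opWV q N w) := by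
  induction w with
  | nil => exact ⟨fun _ _ _ => rfl, fun _ _ _ => rfl⟩
  | cons p w ih =>
    constructor
    · intro f f' s
      have h : opWV q N w (fun r => f r + f' r) = fun r => opWV q N w f r + opWV q N w f' r :=
        funext fun r => ih.add f f' r
      simp only [opWV, h, (lin_opV q p).add]
    · intro a f s
      have h : opWV q N w (fun r => a * f r) = fun r => a * opWV q N w f r :=
        funext fun r => ih.smul a f r
      simp only [opWV, h, (lin_opV q p).smul]

lemma opWV_append (q : ℝ) (w w' : OWord) (f : VF N) :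
    opWV q N (w ++ w') f = opWV q N w (opWV q N w' f) := by
  induction w with
  | nil => rfl
  | cons p w ih => simp only [List.cons_append, opWV, ih]

/-! ### telescoping sums -/

lemma lam_pos (q : ℝ) (hq : 1 < q) (c : Fin N) :
    (q - q⁻¹) * q ^ lamZ c = q ^ (2 * ((c : ℕ) + 1 : ℤ) - N) - q ^ (2 * ((c : ℕ) : ℤ) - N) := by
  have h0 : q ≠ 0 := by linarith
  have h1 : (2 * ((c : ℕ) + 1 : ℤ) - N) = lamZ c + 1 := by unfold lamZ; ring
  have h2 : (2 * ((c : ℕ) : ℤ) - N) = lamZ c - 1 := by unfold lamZ; ring
  rw [h1, h2, zpow_add_one₀ h0, zpow_sub_one₀ h0]; ring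

lemma lam_neg (q : ℝ) (hq : 1 < q) (c : Fin N) :
    (q - q⁻¹) * q ^ (-lamZ c) =
      q ^ ((N : ℤ) - 2 * ((c : ℕ) : ℤ)) - q ^ ((N : ℤ) - 2 * ((c : ℕ) + 1 : ℤ)) := by
  have h0 : q ≠ 0 := by linarith
  have h1 : ((N : ℤ) - 2 * ((c : ℕ) : ℤ)) = -lamZ c + 1 := by unfold lamZ; ring
  have h2 : ((N : ℤ) - 2 * ((c : ℕ) + 1 : ℤ)) = -lamZ c - 1 := by unfold lamZ; ring
  rw [h1, h2, zpow_add_one₀ h0, zpow_sub_one₀ h0]; ring

lemma tele (N : ℕ) (P : ℕ → ℝ) (a b : ℕ) (hab : a ≤ b) (hb : b ≤ N) :
    ∑ c : Fin N, (if a ≤ (c : ℕ) ∧ (c : ℕ) < b then P ((c : ℕ) + 1) - P (c : ℕ) else 0) =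
      P b - P a := by
  rw [Fin.sum_univ_eq_sum_range (fun c : ℕ => if a ≤ c ∧ c < b then P (c + 1) - P c else 0) N,
    ← Finset.sum_filter]
  have : (Finset.range N).filter (fun c => a ≤ c ∧ c < b) = Finset.Ico a b := by
    ext c; simp only [Finset.mem_filter, Finset.mem_range, Finset.mem_Ico]; omega
  rw [this, Finset.sum_Ico_eq_sub _ hab, Finset.sum_range_sub, Finset.sum_range_sub]
  ring

end Pool.Agent.Helper82_Alt.PV
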