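import Pool.Agent.Helper82_Alt.V0

/-!
# Vertex model: local relations (V1, V3, V4)
-/

set_option autoImplicit false

namespace Pool.Agent.Helper82_Alt.PV

open Pool.Agent.Helper454.Kauf (Piece Word LocalMove FirstMove)
open Pool.Agent.Helper454.Wh (OPiece OWord below forget insD delD swpD)

variable {N : ℕ}

/-! ### weights and orders -/

lemma wBD (q : ℝ) (hq : 1 < q) (b : Bool) (c : Fin N) : wB q b c * wD q (!b) c = 1 := by
  have h0 : q ≠ 0 := by linarith
  have h1 : q ^ lamZ c * (q ^ lamZ c)⁻¹ = 1 := mul_inv_cancel₀ (zpow_ne_zero _ h0)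
  cases b <;> simp [wB, wD, h1]

lemma wDB (q : ℝ) (hq : 1 < q) (b : Bool) (c : Fin N) : wB q (!b) c * wD q b c = 1 := by
  have h0 : q ≠ 0 := by linarith
  have h1 : q ^ lamZ c * (q ^ lamZ c)⁻¹ = 1 := mul_inv_cancel₀ (zpow_ne_zero _ h0)
  cases b <;> simp [wB, wD, h1]

lemma ordP_swap (s b : Bool) (c d : Fin N) : ordP (!s) b d c ↔ ordP s b c d := by
  cases s <;> cases b <;> simp [ordP]

lemma ordP_not (s b : Bool) (c d : Fin N) : ordP (!s) (!b) c d ↔ ordP s b c d := by
  cases s <;> cases b <;> simp [ordP]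

lemma ordP_ne {s b : Bool} {c d : Fin N} (h : ordP s b c d) : c ≠ d := by
  unfold ordP at h
  split_ifs at h
  · exact ne_of_gt h
  · exact ne_of_lt h

lemma ordP_irr (s b : Bool) (c : Fin N) : ¬ ordP s b c c := fun h => ordP_ne h rfl

lemma hq_not (q : ℝ) (s : Bool) : hq q (!s) = - hq q s := by
  cases s <;> simp [hq]

lemma eq'_mul (q : ℝ) (h : 1 < q) (s : Bool) : eq' q s * eq' q (!s) = 1 := by
  have h0 : q ≠ 0 := by linarith
  cases s <;> simp [eq', h0]

/-! ### zigzags -/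

lemma zig1 (q : ℝ) (hq : 1 < q) (b : Bool) (c : Fin N) (f : VF N) (st : VS N) :
    birthL q b (atPos (deathL q) 1 f) ((b, c) :: st) = f ((b, c) :: st) := by
  have h : ∀ c' : Fin N, wB q b c' * atPos (deathL q) 1 f ((b, c') :: (!b, c') :: (b, c) :: st) =
      if c = c' then f ((b, c') :: st) else 0 := by
    intro c'
    simp only [atPos_cons, atPos_zero, deathL, Bool.not_not, true_and]
    split_ifs
    · rw [← mul_assoc, wBD q hq, one_mul]
    · simp
  simp only [birthL, h, Finset.sum_ite_eq, Finset.mem_univ, if_true]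

lemma zig2 (q : ℝ) (hq : 1 < q) (b : Bool) (c : Fin N) (f : VF N) (st : VS N) :
    atPos (birthL q b) 1 (deathL q f) ((!b, c) :: st) = f ((!b, c) :: st) := by
  have h : ∀ c' : Fin N, wB q b c' * deathL q f ((!b, c) :: (b, c') :: (!b, c') :: st) =
      if c' = c then f ((!b, c') :: st) else 0 := by
    intro c'
    simp only [deathL, Bool.not_not, true_and]
    split_ifs with hc
    · rw [hc, ← mul_assoc, wBD q hq, one_mul]
    · simp
  simp only [atPos_cons, atPos_zero, birthL, h, Finset.sum_ite_eq', Finset.mem_univ, if_true]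

/-! ### slides -/

lemma slideB_par (q : ℝ) (hq1 : 1 < q) (s b : Bool) (e : Fin N) (f : VF N) (st : VS N) :
    birthL q b (atPos (crossL q s) 1 f) ((!b, e) :: st) =
      atPos (birthL q b) 1 (crossL q (!s) f) ((!b, e) :: st) := by
  have hb : (!b) ≠ b := by cases b <;> simp
  simp only [atPos_cons, atPos_zero, birthL]
  have hL : ∀ c : Fin N, wB q b c * crossL q s (fun r => f ((b, c) :: r))
      ((!b, c) :: (!b, e) :: st) =
      (if c = e then wB q b c * (eq' q s * f ((b, c) :: (!b, c) :: (!b, c) :: st)) else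
        wB q b c * f ((b, c) :: (!b, e) :: (!b, c) :: st)) +
      (if ordP s (!b) c e then wB q b c * (hq q s * f ((b, c) :: (!b, c) :: (!b, e) :: st)) else 0)
      := by
    intro c
    by_cases hc : c = e
    · subst hc
      simp [crossL_par_eq, ordP_irr]
    · rw [crossL_par_ne _ _ _ hc, if_neg hc]
      split_ifs <;> ring
  have hR : ∀ c : Fin N, wB q b c * crossL q (!s) f ((!b, e) :: (b, c) :: (!b, c) :: st) =
      (if c = e then wB q b c * (eq' q s * f ((b, c) :: (!b, c) :: (!b, c) :: st)) else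
        wB q b c * f ((b, c) :: (!b, e) :: (!b, c) :: st)) +
      (if c = e then wB q b c * (hq q s * turn q (!s) (!b) e f ((!b, e) :: st)) else 0) := by
    intro c
    by_cases hc : c = e
    · subst hc
      rw [crossL_anti_eq _ _ hb, if_pos rfl, if_pos rfl, hq_not, Bool.not_not]
      ring
    · rw [crossL_anti_ne _ _ hb (Ne.symm hc), if_neg hc, if_neg hc, add_zero]
  rw [Finset.sum_congr rfl fun c _ => hL c, Finset.sum_congr rfl fun c _ => hR c,
    Finset.sum_add_distrib, Finset.sum_add_distrib, Finset.sum_ite_eq' Finset.univ e]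
  congr 1
  simp only [Finset.mem_univ, if_true, turn, Finset.mul_sum, Bool.not_not]
  refine Finset.sum_congr rfl fun c _ => ?_
  have h1 : ordP s (!b) c e ↔ ordP (!s) (!b) e c := (ordP_swap s (!b) c e).symm
  by_cases h : ordP s (!b) c e
  · rw [if_pos h, if_pos (h1.1 h)]
    have := wBD q hq1 b e
    linear_combination (-(wB q b c * hq q s * f ((b, c) :: (!b, c) :: (!b, e) :: st))) * this
  · rw [if_neg h, if_neg (fun h' => h (h1.2 h'))]; ring

lemma slideB_anti (q : ℝ) (hq1 : 1 < q) (s b : Bool) (e : Fin N) (f : VF N) (st : VS N) :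
    birthL q b (atPos (crossL q s) 1 f) ((b, e) :: st) =
      atPos (birthL q b) 1 (crossL q (!s) f) ((b, e) :: st) := by
  have hb : (!b) ≠ b := by cases b <;> simp
  simp only [atPos_cons, atPos_zero, birthL]
  have hL : ∀ c : Fin N, wB q b c * crossL q s (fun r => f ((b, c) :: r))
      ((!b, c) :: (b, e) :: st) =
      (if c = e then wB q b c * (eq' q (!s) * f ((b, c) :: (b, c) :: (!b, c) :: st)) else
        wB q b c * f ((b, c) :: (b, e) :: (!b, c) :: st)) +
      (if c = e then wB q b c * (-(hq q s) * turn q s (!b) e (fun r => f ((b, e) :: r)) st) else 0)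
      := by
    intro c
    by_cases hc : c = e
    · subst hc
      rw [crossL_anti_eq _ _ hb, if_pos rfl, if_pos rfl]
      ring
    · rw [crossL_anti_ne _ _ hb hc, if_neg hc, if_neg hc, add_zero]
  have hR : ∀ c : Fin N, wB q b c * crossL q (!s) f ((b, e) :: (b, c) :: (!b, c) :: st) =
      (if c = e then wB q b c * (eq' q (!s) * f ((b, c) :: (b, c) :: (!b, c) :: st)) else
        wB q b c * f ((b, c) :: (b, e) :: (!b, c) :: st)) +
      (if ordP (!s) b e c then wB q b c * (-(hq q s) * f ((b, e) :: (b, c) :: (!b, c) :: st))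
        else 0) := by
    intro c
    by_cases hc : c = e
    · subst hc
      simp [crossL_par_eq, ordP_irr]
    · rw [crossL_par_ne _ _ _ (Ne.symm hc), if_neg hc, hq_not]
      split_ifs <;> ring
  rw [Finset.sum_congr rfl fun c _ => hL c, Finset.sum_congr rfl fun c _ => hR c,
    Finset.sum_add_distrib, Finset.sum_add_distrib, Finset.sum_ite_eq' Finset.univ e]
  congr 1
  simp only [Finset.mem_univ, if_true, turn, Finset.mul_sum, Bool.not_not]
  refine Finset.sum_congr rfl fun c _ => ?_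
  have h1 : ordP s (!b) e c ↔ ordP (!s) b e c := by
    have := ordP_not s (!b) e c
    rw [Bool.not_not] at this
    exact this.symm
  by_cases h : ordP s (!b) e c
  · rw [if_pos h, if_pos (h1.1 h)]
    have := wBD q hq1 b e
    linear_combination (-(wB q b c * hq q s * f ((b, e) :: (b, c) :: (!b, c) :: st))) * this
  · rw [if_neg h, if_neg (fun h' => h (h1.2 h'))]; ring

lemma slideB (q : ℝ) (hq1 : 1 < q) (s b x : Bool) (e : Fin N) (f : VF N) (st : VS N) :
    birthL q b (atPos (crossL q s) 1 f) ((x, e) :: st) =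
      atPos (birthL q b) 1 (crossL q (!s) f) ((x, e) :: st) := by
  by_cases h : x = b
  · subst h; exact slideB_anti q hq1 s x e f st
  · have : x = !b := by revert h; cases x <;> cases b <;> simp
    subst this; exact slideB_par q hq1 s b e f st

lemma death_pos (q : ℝ) (b : Bool) (c d : Fin N) (f : VF N) (st : VS N) :
    deathL q f ((b, c) :: (!b, d) :: st) = if d = c then wD q b c * f st else 0 := by
  simp [deathL]

lemma death_pos' (q : ℝ) (b : Bool) (c d : Fin N) (f : VF N) (st : VS N) :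
    deathL q f ((!b, c) :: (b, d) :: st) = if d = c then wD q (!b) c * f st else 0 := by
  simp [deathL]

lemma turn_death1 (q : ℝ) (hq1 : 1 < q) (s b : Bool) (c c2 : Fin N) (f : VF N) (st : VS N) :
    turn q s b c (atPos (deathL q) 1 f) ((!b, c2) :: st) =
      if ordP s b c c2 then wD q b c * f ((!b, c2) :: st) else 0 := by
  have h : ∀ e : Fin N, (if ordP s b c e then wB q (!b) e * wD q b c *
      atPos (deathL q) 1 f ((!b, e) :: (b, e) :: (!b, c2) :: st) else 0) =
      if c2 = e then (if ordP s b c e then wD q b c * f ((!b, e) :: st) else 0) else 0 := by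
    intro e
    rw [atPos_cons, atPos_zero, death_pos]
    split_ifs with h1 h2
    · have := wDB q hq1 b e
      linear_combination (wD q b c * f ((!b, e) :: st)) * this
    · simp
    · rfl
    · rfl
  simp only [turn, h, Finset.sum_ite_eq, Finset.mem_univ, if_true]

lemma turn_death0 (q : ℝ) (hq1 : 1 < q) (s b : Bool) (c c0 : Fin N) (f : VF N) (st : VS N) :
    turn q s b c (fun r => deathL q f ((b, c0) :: r)) st =
      if ordP s b c c0 then wD q b c * f ((b, c0) :: st) else 0 := by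
  have h : ∀ e : Fin N, (if ordP s b c e then wB q (!b) e * wD q b c *
      deathL q f ((b, c0) :: (!b, e) :: (b, e) :: st) else 0) =
      if c0 = e then (if ordP s b c e then wD q b c * f ((b, e) :: st) else 0) else 0 := by
    intro e
    rw [death_pos]
    by_cases h1 : ordP s b c e
    · by_cases h2 : c0 = e
      · subst h2
        rw [if_pos h1, if_pos rfl, if_pos rfl, if_pos h1]
        have := wDB q hq1 b c0
        linear_combination (wD q b c * f ((b, c0) :: st)) * this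
      · rw [if_pos h1, if_neg (Ne.symm h2), if_neg h2, mul_zero]
    · simp [h1]
  simp only [turn, h, Finset.sum_ite_eq, Finset.mem_univ, if_true]

lemma slideD_par (q : ℝ) (hq1 : 1 < q) (s b : Bool) (c0 c1 c2 : Fin N) (f : VF N) (st : VS N) :
    atPos (crossL q s) 1 (deathL q f) ((b, c0) :: (!b, c1) :: (!b, c2) :: st) =
      crossL q (!s) (atPos (deathL q) 1 f) ((b, c0) :: (!b, c1) :: (!b, c2) :: st) := by
  have hb : b ≠ !b := by cases b <;> simp
  rw [atPos_cons, atPos_zero]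
  have ho : ordP (!s) b c0 c2 ↔ ordP s (!b) c0 c2 := by
    have := ordP_not s (!b) c0 c2
    rwa [Bool.not_not] at this
  by_cases h1 : c0 = c1
  · subst h1
    rw [crossL_anti_eq _ _ hb, turn_death1 q hq1, hq_not, Bool.not_not, atPos_cons, atPos_zero,
      death_pos]
    by_cases h2 : c0 = c2
    · subst h2
      rw [crossL_par_eq, death_pos]
      simp [ordP_irr]
    · rw [crossL_par_ne _ _ _ h2, death_pos, death_pos, if_neg (Ne.symm h2), if_pos rfl]
      by_cases h3 : ordP s (!b) c0 c2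
      · rw [if_pos h3, if_pos (ho.2 h3)]; ring
      · rw [if_neg h3, if_neg (fun h => h3 (ho.1 h))]; ring
  · rw [crossL_anti_ne _ _ hb h1, atPos_cons, atPos_zero, death_pos]
    by_cases h2 : c1 = c2
    · subst h2
      rw [crossL_par_eq, death_pos, if_neg (Ne.symm h1), mul_zero]
    · rw [crossL_par_ne _ _ _ h2, death_pos, death_pos, if_neg (Ne.symm h1)]
      simp

lemma slideD_anti (q : ℝ) (hq1 : 1 < q) (s b : Bool) (c0 c1 c2 : Fin N) (f : VF N) (st : VS N) :
    atPos (crossL q s) 1 (deathL q f) ((b, c0) :: (b, c1) :: (!b, c2) :: st) =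
      crossL q (!s) (atPos (deathL q) 1 f) ((b, c0) :: (b, c1) :: (!b, c2) :: st) := by
  have hb : b ≠ !b := by cases b <;> simp
  rw [atPos_cons, atPos_zero]
  have ho : ordP (!s) b c0 c1 ↔ ordP s b c1 c0 := ordP_swap s b c1 c0
  by_cases h1 : c1 = c2
  · subst h1
    rw [crossL_anti_eq _ _ hb, turn_death0 q hq1, death_pos]
    by_cases h2 : c0 = c1
    · subst h2
      rw [crossL_par_eq, atPos_cons, atPos_zero, death_pos]
      simp [ordP_irr]
    · rw [crossL_par_ne _ _ _ h2, atPos_cons, atPos_zero, atPos_cons, atPos_zero, death_pos,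
        death_pos, if_neg (Ne.symm h2), if_pos rfl, hq_not]
      by_cases h3 : ordP s b c1 c0
      · rw [if_pos h3, if_pos (ho.2 h3)]; ring
      · rw [if_neg h3, if_neg (fun h => h3 (ho.1 h))]; ring
  · rw [crossL_anti_ne _ _ hb h1, death_pos]
    by_cases h2 : c0 = c1
    · subst h2
      rw [crossL_par_eq, atPos_cons, atPos_zero, death_pos, if_neg (Ne.symm h1)]
      simp
    · rw [crossL_par_ne _ _ _ h2, atPos_cons, atPos_zero, atPos_cons, atPos_zero, death_pos,
        death_pos, if_neg (Ne.symm h1)]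
      simp

lemma slideD (q : ℝ) (hq1 : 1 < q) (s b x : Bool) (c0 c1 c2 : Fin N) (f : VF N) (st : VS N) :
    atPos (crossL q s) 1 (deathL q f) ((b, c0) :: (x, c1) :: (!b, c2) :: st) =
      crossL q (!s) (atPos (deathL q) 1 f) ((b, c0) :: (x, c1) :: (!b, c2) :: st) := by
  by_cases h : x = b
  · subst h; exact slideD_anti q hq1 s x c0 c1 c2 f st
  · have : x = !b := by revert h; cases x <;> cases b <;> simp
    subst this; exact slideD_par q hq1 s b c0 c1 c2 f st

/-! ### sums of powers of `q` -/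

lemma qz (q : ℝ) (hq1 : 1 < q) (a b : ℤ) : q ^ a * q ^ b = q ^ (a + b) :=
  (zpow_add₀ (by linarith) a b).symm

lemma sum_mid_pos (q : ℝ) (hq1 : 1 < q) {a b : Fin N} (h : a < b) :
    (q - q⁻¹) * ∑ e : Fin N, (if a < e ∧ e < b then q ^ lamZ e else 0) =
      q ^ (lamZ b - 1) - q ^ (lamZ a + 1) := by
  have h1 := tele N (fun x => q ^ (2 * (x : ℤ) - N)) ((a : ℕ) + 1) (b : ℕ) h b.2.le
  have h2 : q ^ (2 * (((b : ℕ)) : ℤ) - N) = q ^ (lamZ b - 1) := by
    congr 1; unfold lamZ; ring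
  have h3 : q ^ (2 * ((((a : ℕ) + 1 : ℕ)) : ℤ) - N) = q ^ (lamZ a + 1) := by
    congr 1; unfold lamZ; push_cast; ring
  simp only [h2, h3] at h1
  rw [← h1, Finset.mul_sum]
  refine Finset.sum_congr rfl fun c _ => ?_
  by_cases hc : a < c ∧ c < b
  · have hc' : (a : ℕ) + 1 ≤ (c : ℕ) ∧ (c : ℕ) < b := ⟨hc.1, hc.2⟩
    rw [if_pos hc, if_pos hc', lam_pos q hq1]
    push_cast; ring
  · have hc' : ¬ ((a : ℕ) + 1 ≤ (c : ℕ) ∧ (c : ℕ) < b) := fun h => hc ⟨h.1, h.2⟩
    rw [if_neg hc, if_neg hc', mul_zero]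

lemma sum_mid_neg (q : ℝ) (hq1 : 1 < q) {a b : Fin N} (h : a < b) :
    (q - q⁻¹) * ∑ e : Fin N, (if a < e ∧ e < b then q ^ (-lamZ e) else 0) =
      q ^ (-lamZ a - 1) - q ^ (-lamZ b + 1) := by
  have h1 := tele N (fun x => - q ^ ((N : ℤ) - 2 * (x : ℤ))) ((a : ℕ) + 1) (b : ℕ) h b.2.le
  have h2 : q ^ ((N : ℤ) - 2 * (((b : ℕ)) : ℤ)) = q ^ (-lamZ b + 1) := by
    congr 1; unfold lamZ; ring
  have h3 : q ^ ((N : ℤ) - 2 * ((((a : ℕ) + 1 : ℕ)) : ℤ)) = q ^ (-lamZ a - 1) := by
    congr 1; unfold lamZ; push_cast; ring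
  simp only [h2, h3] at h1
  rw [show q ^ (-lamZ a - 1) - q ^ (-lamZ b + 1) = -q ^ (-lamZ b + 1) - -q ^ (-lamZ a - 1) by ring,
    ← h1, Finset.mul_sum]
  refine Finset.sum_congr rfl fun c _ => ?_
  by_cases hc : a < c ∧ c < b
  · have hc' : (a : ℕ) + 1 ≤ (c : ℕ) ∧ (c : ℕ) < b := ⟨hc.1, hc.2⟩
    rw [if_pos hc, if_pos hc', lam_neg q hq1]
    push_cast; ring
  · have hc' : ¬ ((a : ℕ) + 1 ≤ (c : ℕ) ∧ (c : ℕ) < b) := fun h => hc ⟨h.1, h.2⟩
    rw [if_neg hc, if_neg hc', mul_zero]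

lemma sum_lt_pos (q : ℝ) (hq1 : 1 < q) (b : Fin N) :
    (q - q⁻¹) * ∑ e : Fin N, (if e < b then q ^ lamZ e else 0) =
      q ^ (lamZ b - 1) - q ^ (-(N : ℤ)) := by
  have h1 := tele N (fun x => q ^ (2 * (x : ℤ) - N)) 0 (b : ℕ) (Nat.zero_le _) b.2.le
  have h2 : q ^ (2 * (((b : ℕ)) : ℤ) - N) = q ^ (lamZ b - 1) := by
    congr 1; unfold lamZ; ring
  have h3 : q ^ (2 * (((0 : ℕ)) : ℤ) - N) = q ^ (-(N : ℤ)) := by
    congr 1; push_cast; ring
  simp only [h2, h3] at h1
  rw [← h1, Finset.mul_sum]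
  refine Finset.sum_congr rfl fun c _ => ?_
  by_cases hc : c < b
  · have hc' : 0 ≤ (c : ℕ) ∧ (c : ℕ) < b := ⟨Nat.zero_le _, hc⟩
    rw [if_pos hc, if_pos hc', lam_pos q hq1]
    push_cast; ring
  · have hc' : ¬ (0 ≤ (c : ℕ) ∧ (c : ℕ) < b) := fun h => hc h.2
    rw [if_neg hc, if_neg hc', mul_zero]

lemma sum_gt_pos (q : ℝ) (hq1 : 1 < q) (a : Fin N) :
    (q - q⁻¹) * ∑ e : Fin N, (if a < e then q ^ lamZ e else 0) =
      q ^ (N : ℤ) - q ^ (lamZ a + 1) := by
  have h1 := tele N (fun x => q ^ (2 * (x : ℤ) - N)) ((a : ℕ) + 1) N a.2 le_rfl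
  have h2 : q ^ (2 * (((N : ℕ)) : ℤ) - N) = q ^ (N : ℤ) := by
    congr 1; ring
  have h3 : q ^ (2 * ((((a : ℕ) + 1 : ℕ)) : ℤ) - N) = q ^ (lamZ a + 1) := by
    congr 1; unfold lamZ; push_cast; ring
  simp only [h2, h3] at h1
  rw [← h1, Finset.mul_sum]
  refine Finset.sum_congr rfl fun c _ => ?_
  by_cases hc : a < c
  · have hc' : (a : ℕ) + 1 ≤ (c : ℕ) ∧ (c : ℕ) < N := ⟨hc, c.2⟩
    rw [if_pos hc, if_pos hc', lam_pos q hq1]
    push_cast; ring
  · have hc' : ¬ ((a : ℕ) + 1 ≤ (c : ℕ) ∧ (c : ℕ) < N) := fun h => hc h.1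
    rw [if_neg hc, if_neg hc', mul_zero]

lemma sum_lt_neg (q : ℝ) (hq1 : 1 < q) (b : Fin N) :
    (q - q⁻¹) * ∑ e : Fin N, (if e < b then q ^ (-lamZ e) else 0) =
      q ^ (N : ℤ) - q ^ (-lamZ b + 1) := by
  have h1 := tele N (fun x => - q ^ ((N : ℤ) - 2 * (x : ℤ))) 0 (b : ℕ) (Nat.zero_le _) b.2.le
  have h2 : q ^ ((N : ℤ) - 2 * (((b : ℕ)) : ℤ)) = q ^ (-lamZ b + 1) := by
    congr 1; unfold lamZ; ring
  have h3 : q ^ ((N : ℤ) - 2 * (((0 : ℕ)) : ℤ)) = q ^ (N : ℤ) := by simp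
  simp only [h2, h3] at h1
  rw [show q ^ (N : ℤ) - q ^ (-lamZ b + 1) = -q ^ (-lamZ b + 1) - -q ^ (N : ℤ) by ring,
    ← h1, Finset.mul_sum]
  refine Finset.sum_congr rfl fun c _ => ?_
  by_cases hc : c < b
  · have hc' : 0 ≤ (c : ℕ) ∧ (c : ℕ) < b := ⟨Nat.zero_le _, hc⟩
    rw [if_pos hc, if_pos hc', lam_neg q hq1]
    push_cast; ring
  · have hc' : ¬ (0 ≤ (c : ℕ) ∧ (c : ℕ) < b) := fun h => hc h.2
    rw [if_neg hc, if_neg hc', mul_zero]

lemma sum_gt_neg (q : ℝ) (hq1 : 1 < q) (a : Fin N) :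
    (q - q⁻¹) * ∑ e : Fin N, (if a < e then q ^ (-lamZ e) else 0) =
      q ^ (-lamZ a - 1) - q ^ (-(N : ℤ)) := by
  have h1 := tele N (fun x => - q ^ ((N : ℤ) - 2 * (x : ℤ))) ((a : ℕ) + 1) N a.2 le_rfl
  have h2 : q ^ ((N : ℤ) - 2 * (((N : ℕ)) : ℤ)) = q ^ (-(N : ℤ)) := by
    congr 1; ring
  have h3 : q ^ ((N : ℤ) - 2 * ((((a : ℕ) + 1 : ℕ)) : ℤ)) = q ^ (-lamZ a - 1) := by
    congr 1; unfold lamZ; push_cast; ring
  simp only [h2, h3] at h1
  rw [show q ^ (-lamZ a - 1) - q ^ (-(N : ℤ)) = -q ^ (-(N : ℤ)) - -q ^ (-lamZ a - 1) by ring,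
    ← h1, Finset.mul_sum]
  refine Finset.sum_congr rfl fun c _ => ?_
  by_cases hc : a < c
  · have hc' : (a : ℕ) + 1 ≤ (c : ℕ) ∧ (c : ℕ) < N := ⟨hc, c.2⟩
    rw [if_pos hc, if_pos hc', lam_neg q hq1]
    push_cast; ring
  · have hc' : ¬ ((a : ℕ) + 1 ≤ (c : ℕ) ∧ (c : ℕ) < N) := fun h => hc h.1
    rw [if_neg hc, if_neg hc', mul_zero]

end Pool.Agent.Helper82_Alt.PV
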