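import Pool.Agent.Helper82_Alt.V1a

/-!
# Vertex model: second and first Reidemeister moves
-/

set_option autoImplicit false

namespace Pool.Agent.Helper82_Alt.PV

open Pool.Agent.Helper454.Kauf (Piece Word LocalMove FirstMove)
open Pool.Agent.Helper454.Wh (OPiece OWord below forget insD delD swpD)

variable {N : ℕ}

/-! ### the second Reidemeister move -/

lemma ordP_both {s b : Bool} {c d : Fin N} (h : ordP s b c d) : ¬ ordP (!s) b c d := by
  intro h'
  revert h h'
  cases s <;> cases b <;> simp only [ordP] <;> simp <;> intro h <;> exact h.le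

lemma ordP_or {s b : Bool} {c d : Fin N} (hne : c ≠ d) (h : ¬ ordP s b c d) : ordP (!s) b c d := by
  revert h
  have : c < d ∨ d < c := lt_or_gt_of_ne hne
  cases s <;> cases b <;> simp only [ordP] <;> simp <;> intro h <;>
    rcases this with h' | h' <;> first | exact h' | exact absurd h' (not_lt.2 h)

lemma r2_par (q : ℝ) (hq1 : 1 < q) (s b : Bool) (c d : Fin N) (f : VF N) (st : VS N) :
    crossL q s (crossL q (!s) f) ((b, c) :: (b, d) :: st) = f ((b, c) :: (b, d) :: st) := by
  by_cases h : c = d
  · subst h
    rw [crossL_par_eq, crossL_par_eq]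
    linear_combination (f ((b, c) :: (b, c) :: st)) * eq'_mul q hq1 s
  · rw [crossL_par_ne _ _ _ h, crossL_par_ne _ _ _ (Ne.symm h), crossL_par_ne _ _ _ h, hq_not]
    by_cases h1 : ordP s b c d
    · rw [if_pos h1, if_pos ((ordP_swap s b c d).2 h1), if_neg (ordP_both h1)]; ring
    · have h2 : ¬ ordP (!s) b d c := fun h => h1 ((ordP_swap s b c d).1 h)
      rw [if_neg h1, if_neg h2]; ring

/-- the identity behind the second Reidemeister move of antiparallel strands -/
lemma r2_id (q : ℝ) (hq1 : 1 < q) (s b : Bool) {c g : Fin N} (h : ordP s b c g) :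
    eq' q (!s) * (wB q b g * wD q (!b) c) - eq' q s * (wB q (!b) g * wD q b c) +
      hq q (!s) * ∑ e : Fin N, (if ordP s b c e ∧ ordP s b e g then
        wB q (!b) e * wD q b c * (wB q b g * wD q (!b) e) else 0) = 0 := by
  have h0 : q ≠ 0 := by linarith
  have hz : ∀ m : ℤ, q ^ m ≠ 0 := fun m => zpow_ne_zero m h0
  cases s <;> cases b
  · -- `g < c`
    have hgc : g < c := by simpa [ordP] using h
    have hs : ∀ e : Fin N, (if ordP false false c e ∧ ordP false false e g then
        wB q (!false) e * wD q false c * (wB q false g * wD q (!false) e) else 0) =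
        q ^ (-lamZ c) * (if g < e ∧ e < c then q ^ lamZ e else 0) := by
      intro e
      simp only [ordP, if_true, wB, wD, Bool.not_false, Bool.false_eq_true, if_false, mul_ite,
        mul_zero, mul_one]
      exact if_congr (and_comm) (mul_comm _ _) rfl
    have key := sum_mid_pos q hq1 hgc
    rw [Finset.sum_congr rfl fun e _ => hs e, ← Finset.mul_sum]
    simp only [eq', hq, wB, wD, Bool.not_false, if_true, Bool.false_eq_true, if_false]
    rw [zpow_sub_one₀ h0, zpow_add_one₀ h0] at key
    have h1 : q ^ (-lamZ c) * q ^ lamZ c = 1 := by rw [← zpow_add₀ h0]; simp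
    linear_combination (-q ^ (-lamZ c)) * key - q⁻¹ * h1
  · -- `c < g`
    have hgc : c < g := by simpa [ordP] using h
    have hs : ∀ e : Fin N, (if ordP false true c e ∧ ordP false true e g then
        wB q (!true) e * wD q true c * (wB q true g * wD q (!true) e) else 0) =
        q ^ (lamZ g) * (if c < e ∧ e < g then q ^ (-lamZ e) else 0) := by
      intro e
      simp [ordP, wB, wD]
    have key := sum_mid_neg q hq1 hgc
    rw [Finset.sum_congr rfl fun e _ => hs e, ← Finset.mul_sum]
    simp only [eq', hq, wB, wD, Bool.not_false, Bool.not_true, if_true, Bool.false_eq_true,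
      if_false]
    rw [zpow_sub_one₀ h0, zpow_add_one₀ h0] at key
    have h1 : q ^ (lamZ g) * q ^ (-lamZ g) = 1 := by rw [← zpow_add₀ h0]; simp
    linear_combination (-q ^ (lamZ g)) * key + q * h1
  · -- `c < g`
    have hgc : c < g := by simpa [ordP] using h
    have hs : ∀ e : Fin N, (if ordP true false c e ∧ ordP true false e g then
        wB q (!false) e * wD q false c * (wB q false g * wD q (!false) e) else 0) =
        q ^ (-lamZ c) * (if c < e ∧ e < g then q ^ lamZ e else 0) := by
      intro e
      simp only [ordP, if_true, wB, wD, Bool.not_false, Bool.true_eq_false, Bool.false_eq_true,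
        if_false, mul_ite, mul_zero, mul_one]
      exact if_congr Iff.rfl (mul_comm _ _) rfl
    have key := sum_mid_pos q hq1 hgc
    rw [Finset.sum_congr rfl fun e _ => hs e, ← Finset.mul_sum]
    simp only [eq', hq, wB, wD, Bool.not_false, Bool.not_true, if_true, Bool.false_eq_true,
      if_false]
    rw [zpow_sub_one₀ h0, zpow_add_one₀ h0] at key
    have h1 : q ^ (-lamZ c) * q ^ lamZ c = 1 := by rw [← zpow_add₀ h0]; simp
    linear_combination (q ^ (-lamZ c)) * key - q * h1
  · -- `g < c`
    have hgc : g < c := by simpa [ordP] using h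
    have hs : ∀ e : Fin N, (if ordP true true c e ∧ ordP true true e g then
        wB q (!true) e * wD q true c * (wB q true g * wD q (!true) e) else 0) =
        q ^ (lamZ g) * (if g < e ∧ e < c then q ^ (-lamZ e) else 0) := by
      intro e
      simp only [ordP, if_true, wB, wD, Bool.not_true, Bool.false_eq_true,
        if_false, mul_ite, mul_zero, mul_one, one_mul]
      exact if_congr and_comm rfl rfl
    have key := sum_mid_neg q hq1 hgc
    rw [Finset.sum_congr rfl fun e _ => hs e, ← Finset.mul_sum]
    simp only [eq', hq, wB, wD, Bool.not_false, Bool.not_true, if_true, Bool.false_eq_true,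
      if_false]
    rw [zpow_sub_one₀ h0, zpow_add_one₀ h0] at key
    have h1 : q ^ (lamZ g) * q ^ (-lamZ g) = 1 := by rw [← zpow_add₀ h0]; simp
    linear_combination (q ^ (lamZ g)) * key + q⁻¹ * h1

lemma ordP_trans {s b : Bool} {c d e : Fin N} (h : ordP s b c d) (h' : ordP s b d e) :
    ordP s b c e := by
  revert h h'
  unfold ordP
  split_ifs
  · exact fun h h' => h'.trans h
  · exact fun h h' => h.trans h'

lemma r2_anti_eq (q : ℝ) (hq1 : 1 < q) (s b : Bool) (c : Fin N) (f : VF N) (st : VS N) :
    crossL q s (crossL q (!s) f) ((b, c) :: (!b, c) :: st) = f ((b, c) :: (!b, c) :: st) := by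
  have hb : b ≠ !b := by cases b <;> simp
  have hb' : (!b) ≠ b := fun h => hb h.symm
  have ho : ∀ e g : Fin N, ordP (!s) (!b) e g ↔ ordP s b e g := fun e g => ordP_not s b e g
  set G : Fin N → ℝ := fun g => f ((b, g) :: (!b, g) :: st) with hG
  -- the inner crossing
  have hin : ∀ e : Fin N, crossL q (!s) f ((!b, e) :: (b, e) :: st) =
      eq' q s * G e - hq q (!s) * ∑ g : Fin N, (if ordP s b e g then
        wB q b g * wD q (!b) e * G g else 0) := by
    intro e
    rw [crossL_anti_eq _ _ hb', Bool.not_not, turn]
    simp only [ho, Bool.not_not, hG]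
  rw [crossL_anti_eq _ _ hb, hin c, turn]
  simp only [hin]
  -- exchange the sums
  have e1 : ∑ e : Fin N, (if ordP s b c e then wB q (!b) e * wD q b c * (eq' q s * G e -
      hq q (!s) * ∑ g : Fin N, (if ordP s b e g then wB q b g * wD q (!b) e * G g else 0))
      else 0) = ∑ g : Fin N, (if ordP s b c g then eq' q s * (wB q (!b) g * wD q b c) * G g else 0) -
      ∑ g : Fin N, (hq q (!s) * ∑ e : Fin N, (if ordP s b c e ∧ ordP s b e g then
        wB q (!b) e * wD q b c * (wB q b g * wD q (!b) e) else 0)) * G g := by
    have e2 : ∑ g : Fin N, (hq q (!s) * ∑ e : Fin N, (if ordP s b c e ∧ ordP s b e g then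
        wB q (!b) e * wD q b c * (wB q b g * wD q (!b) e) else 0)) * G g =
        ∑ e : Fin N, ∑ g : Fin N, (if ordP s b c e ∧ ordP s b e g then
        hq q (!s) * (wB q (!b) e * wD q b c * (wB q b g * wD q (!b) e)) * G g else 0) := by
      rw [Finset.sum_comm]
      refine Finset.sum_congr rfl fun g _ => ?_
      rw [Finset.mul_sum, Finset.sum_mul]
      refine Finset.sum_congr rfl fun e _ => ?_
      split_ifs <;> ring
    rw [e2, ← Finset.sum_sub_distrib]
    refine Finset.sum_congr rfl fun e _ => ?_
    by_cases h : ordP s b c e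
    · rw [if_pos h, if_pos h]
      have e3 : ∑ g : Fin N, (if ordP s b c e ∧ ordP s b e g then
          hq q (!s) * (wB q (!b) e * wD q b c * (wB q b g * wD q (!b) e)) * G g else 0) =
          wB q (!b) e * wD q b c * (hq q (!s) * ∑ g : Fin N,
            (if ordP s b e g then wB q b g * wD q (!b) e * G g else 0)) := by
        rw [Finset.mul_sum, Finset.mul_sum]
        refine Finset.sum_congr rfl fun g _ => ?_
        by_cases h' : ordP s b e g
        · rw [if_pos ⟨h, h'⟩, if_pos h']; ring
        · rw [if_neg (fun h'' => h' h''.2), if_neg h']; ring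
      rw [e3]; ring
    · rw [if_neg h, if_neg h, Finset.sum_eq_zero, sub_zero]
      intro g _
      rw [if_neg (fun h' => h h'.1)]
  rw [e1]
  have key : ∑ g : Fin N, ((if ordP s b c g then eq' q (!s) * (wB q b g * wD q (!b) c) * G g else 0)
      - (if ordP s b c g then eq' q s * (wB q (!b) g * wD q b c) * G g else 0) +
      (hq q (!s) * ∑ e : Fin N, (if ordP s b c e ∧ ordP s b e g then
        wB q (!b) e * wD q b c * (wB q b g * wD q (!b) e) else 0)) * G g) = 0 := by
    refine Finset.sum_eq_zero fun g _ => ?_
    by_cases h : ordP s b c g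
    · rw [if_pos h, if_pos h]
      linear_combination (G g) * r2_id q hq1 s b h
    · rw [if_neg h, if_neg h, Finset.sum_eq_zero]
      · ring
      · intro e _
        rw [if_neg (fun h' => h (ordP_trans h'.1 h'.2))]
  rw [Finset.sum_add_distrib, Finset.sum_sub_distrib] at key
  have e4 : ∑ g : Fin N, (if ordP s b c g then eq' q (!s) * (wB q b g * wD q (!b) c) * G g else 0) =
      eq' q (!s) * ∑ g : Fin N, (if ordP s b c g then wB q b g * wD q (!b) c * G g else 0) := by
    rw [Finset.mul_sum]
    refine Finset.sum_congr rfl fun g _ => ?_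
    split_ifs <;> ring
  rw [e4] at key
  have h5 := eq'_mul q hq1 s
  have h6 := hq_not q s
  rw [h6] at key ⊢
  linear_combination (hq q s) * key + (G c) * h5

lemma r2_anti (q : ℝ) (hq1 : 1 < q) (s b : Bool) (c d : Fin N) (f : VF N) (st : VS N) :
    crossL q s (crossL q (!s) f) ((b, c) :: (!b, d) :: st) = f ((b, c) :: (!b, d) :: st) := by
  have hb : b ≠ !b := by cases b <;> simp
  have hb' : (!b) ≠ b := fun h => hb h.symm
  by_cases h : c = d
  · subst h; exact r2_anti_eq q hq1 s b c f st
  · rw [crossL_anti_ne _ _ hb h, crossL_anti_ne _ _ hb' (Ne.symm h)]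

lemma r2 (q : ℝ) (hq1 : 1 < q) (s b b' : Bool) (c d : Fin N) (f : VF N) (st : VS N) :
    crossL q s (crossL q (!s) f) ((b, c) :: (b', d) :: st) = f ((b, c) :: (b', d) :: st) := by
  by_cases h : b' = b
  · subst h; exact r2_par q hq1 s _ c d f st
  · have : b' = !b := by revert h; cases b <;> cases b' <;> simp
    subst this; exact r2_anti q hq1 s b c d f st

/-! ### curls -/

/-- the factor of a curl -/
noncomputable def kap (q : ℝ) (N : ℕ) (s : Bool) : ℝ := if s then q ^ (N : ℤ) else q ^ (-(N : ℤ))

lemma curl_id (q : ℝ) (hq1 : 1 < q) (s b : Bool) (e : Fin N) :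
    wB q b e * eq' q (!s) - hq q s * wB q (!b) e *
      ∑ c : Fin N, (if ordP s b c e then wB q b c * wD q b c else 0) = kap q N s * wB q (!b) e := by
  have h0 : q ≠ 0 := by linarith
  have h1 : q ^ (lamZ e) * q ^ (-lamZ e) = 1 := by rw [← zpow_add₀ h0]; simp
  cases s <;> cases b
  · have hs : ∀ c : Fin N, (if ordP false false c e then wB q false c * wD q false c else 0) =
        (if e < c then q ^ (-lamZ c) else 0) := by
      intro c; simp [ordP, wB, wD]
    have key := sum_gt_neg q hq1 e
    rw [Finset.sum_congr rfl fun c _ => hs c]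
    rw [zpow_sub_one₀ h0] at key
    simp only [eq', hq, wB, kap, Bool.not_false, if_true, Bool.false_eq_true, if_false]
    linear_combination (-q ^ (lamZ e)) * key - q⁻¹ * h1
  · have hs : ∀ c : Fin N, (if ordP false true c e then wB q true c * wD q true c else 0) =
        (if c < e then q ^ (lamZ c) else 0) := by
      intro c; simp [ordP, wB, wD]
    have key := sum_lt_pos q hq1 e
    rw [Finset.sum_congr rfl fun c _ => hs c]
    rw [zpow_sub_one₀ h0] at key
    simp only [eq', hq, wB, kap, Bool.not_false, Bool.not_true, if_true, Bool.false_eq_true,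
      if_false]
    linear_combination (-1 : ℝ) * key
  · have hs : ∀ c : Fin N, (if ordP true false c e then wB q false c * wD q false c else 0) =
        (if c < e then q ^ (-lamZ c) else 0) := by
      intro c; simp [ordP, wB, wD]
    have key := sum_lt_neg q hq1 e
    rw [Finset.sum_congr rfl fun c _ => hs c]
    rw [zpow_add_one₀ h0] at key
    simp only [eq', hq, wB, kap, Bool.not_false, Bool.not_true, if_true, Bool.false_eq_true,
      if_false]
    linear_combination (q ^ (lamZ e)) * key - q * h1
  · have hs : ∀ c : Fin N, (if ordP true true c e then wB q true c * wD q true c else 0) =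
        (if e < c then q ^ (lamZ c) else 0) := by
      intro c; simp [ordP, wB, wD]
    have key := sum_gt_pos q hq1 e
    rw [Finset.sum_congr rfl fun c _ => hs c]
    rw [zpow_add_one₀ h0] at key
    simp only [eq', hq, wB, kap, Bool.not_false, Bool.not_true, if_true, Bool.false_eq_true,
      if_false]
    linear_combination (1 : ℝ) * key

lemma curl_birth (q : ℝ) (hq1 : 1 < q) (s b : Bool) (f : VF N) (st : VS N) :
    birthL q b (crossL q s f) st = kap q N s * birthL q (!b) f st := by
  have hb : b ≠ !b := by cases b <;> simp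
  simp only [birthL, Bool.not_not]
  have h1 : ∀ c : Fin N, wB q b c * crossL q s f ((b, c) :: (!b, c) :: st) =
      wB q b c * eq' q (!s) * f ((!b, c) :: (b, c) :: st) -
      ∑ e : Fin N, (if ordP s b c e then hq q s * (wB q b c * wD q b c) * wB q (!b) e *
        f ((!b, e) :: (b, e) :: st) else 0) := by
    intro c
    rw [crossL_anti_eq _ _ hb, turn, Finset.mul_sum, mul_sub, Finset.mul_sum]
    congr 1
    · ring
    · refine Finset.sum_congr rfl fun e _ => ?_
      split_ifs <;> ring
  rw [Finset.sum_congr rfl fun c _ => h1 c, Finset.sum_sub_distrib, Finset.sum_comm,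
    ← Finset.sum_sub_distrib, Finset.mul_sum]
  refine Finset.sum_congr rfl fun e _ => ?_
  have h2 : ∑ c : Fin N, (if ordP s b c e then hq q s * (wB q b c * wD q b c) * wB q (!b) e *
        f ((!b, e) :: (b, e) :: st) else 0) = (hq q s * wB q (!b) e *
      ∑ c : Fin N, (if ordP s b c e then wB q b c * wD q b c else 0)) *
        f ((!b, e) :: (b, e) :: st) := by
    rw [Finset.mul_sum, Finset.sum_mul]
    refine Finset.sum_congr rfl fun c _ => ?_
    split_ifs <;> ring
  rw [h2]
  linear_combination (f ((!b, e) :: (b, e) :: st)) * curl_id q hq1 s b e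

lemma curl_id' (q : ℝ) (hq1 : 1 < q) (s b : Bool) (c : Fin N) :
    eq' q (!s) * wD q (!b) c - hq q s * wD q b c *
      ∑ e : Fin N, (if ordP s b c e then wB q (!b) e * wD q (!b) e else 0) =
        kap q N s * wD q b c := by
  have h := curl_id q hq1 s (!b) c
  have e1 : ∀ e : Fin N, ordP s b c e ↔ ordP s (!b) e c := fun e => by
    rw [← ordP_not s (!b) e c, Bool.not_not]; exact (ordP_swap s b c e).symm
  simp only [Bool.not_not] at h
  simp only [e1]
  have h2 := wBD q hq1 b c
  have h3 := wDB q hq1 b c
  linear_combination (wD q (!b) c * wD q b c) * h - (eq' q (!s) * wD q (!b) c) * h3 +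
    (hq q s * wD q b c * (∑ e : Fin N, (if ordP s (!b) e c then wB q (!b) e * wD q (!b) e else 0)) +
      kap q N s * wD q b c) * h2

lemma curl_death (q : ℝ) (hq1 : 1 < q) (s b : Bool) (c d : Fin N) (f : VF N) (st : VS N) :
    crossL q s (deathL q f) ((b, c) :: (!b, d) :: st) =
      kap q N s * deathL q f ((b, c) :: (!b, d) :: st) := by
  have hb : b ≠ !b := by cases b <;> simp
  by_cases h : c = d
  · subst h
    rw [crossL_anti_eq _ _ hb, death_pos', death_pos, if_pos rfl, if_pos rfl]
    have h1 : turn q s b c (deathL q f) st = wD q b c *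
        (∑ e : Fin N, (if ordP s b c e then wB q (!b) e * wD q (!b) e else 0)) * f st := by
      rw [turn, Finset.mul_sum, Finset.sum_mul]
      refine Finset.sum_congr rfl fun e _ => ?_
      rw [death_pos', if_pos rfl]
      split_ifs <;> ring
    rw [h1]
    linear_combination (f st) * curl_id' q hq1 s b c
  · rw [crossL_anti_ne _ _ hb h, death_pos', death_pos, if_neg h, if_neg (Ne.symm h)]
    simp

end Pool.Agent.Helper82_Alt.PV
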