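import Pool.Agent.Helper82_Alt.V1b

/-!
# Vertex model: exchange of distant pieces, the local moves of words
-/

set_option autoImplicit false

namespace Pool.Agent.Helper82_Alt.PV

open Pool.Agent.Helper454.Kauf (Piece Word LocalMove FirstMove)
open Pool.Agent.Helper454.Wh (OPiece OWord below forget insD delD swpD)

variable {N : ℕ}

/-! ### local operators change a prefix -/

/-- `g` replaces prefixes of length `m` by linear combinations of prefixes of length `m'`. -/
def Pre (g : VF N → VF N) (m m' : ℕ) : Prop :=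
  ∀ u : VS N, u.length = m → ∃ (ι : Type) (_ : Fintype ι) (a : ι → ℝ) (v : ι → VS N),
    (∀ k, (v k).length = m') ∧ ∀ (f : VF N) (s : VS N), g f (u ++ s) = ∑ k, a k * f (v k ++ s)

lemma pre_birth (q : ℝ) (b : Bool) : Pre (birthL q b : VF N → VF N) 0 2 := by
  intro u hu
  obtain rfl := List.length_eq_zero_iff.1 hu
  exact ⟨Fin N, inferInstance, fun c => wB q b c, fun c => [(b, c), (!b, c)], fun _ => rfl,
    fun f s => rfl⟩

lemma len2 {α : Type*} {u : List α} (h : u.length = 2) : ∃ x y, u = [x, y] := by
  rcases u with _ | ⟨x, _ | ⟨y, _ | ⟨z, u⟩⟩⟩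
  · simp at h
  · simp at h
  · exact ⟨x, y, rfl⟩
  · simp at h

lemma pre_death (q : ℝ) : Pre (deathL q : VF N → VF N) 2 0 := by
  intro u hu
  obtain ⟨⟨b, c⟩, ⟨b', d⟩, rfl⟩ := len2 hu
  refine ⟨Unit, inferInstance, fun _ => if b' = !b ∧ d = c then wD q b c else 0, fun _ => [],
    fun _ => rfl, fun f s => ?_⟩
  simp only [List.cons_append, List.nil_append, deathL, Finset.univ_unique,
    Finset.sum_const, Finset.card_singleton, one_smul]
  split_ifs <;> ring

lemma pre_cross (q : ℝ) (s : Bool) : Pre (crossL q s : VF N → VF N) 2 2 := by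
  intro u hu
  obtain ⟨⟨b, c⟩, ⟨b', d⟩, rfl⟩ := len2 hu
  by_cases hb : b = b'
  · subst hb
    by_cases hc : c = d
    · subst hc
      refine ⟨Unit, inferInstance, fun _ => eq' q s, fun _ => [(b, c), (b, c)],
        fun _ => rfl, fun f st => ?_⟩
      simp only [List.cons_append, List.nil_append, crossL_par_eq, Finset.univ_unique,
        Finset.sum_const, Finset.card_singleton, one_smul]
    · refine ⟨Bool, inferInstance, fun k => if k then 1 else (if ordP s b c d then hq q s else 0),
        fun k => if k then [(b, d), (b, c)] else [(b, c), (b, d)],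
        fun k => by cases k <;> rfl, fun f st => ?_⟩
      simp only [List.cons_append, List.nil_append, crossL_par_ne _ _ _ hc, Fintype.sum_bool,
        if_true, Bool.false_eq_true, if_false]
      split_ifs <;> ring
  · by_cases hc : c = d
    · subst hc
      refine ⟨Option (Fin N), inferInstance, fun k => match k with
          | none => eq' q (!s)
          | some e => -hq q s * (if ordP s b c e then wB q (!b) e * wD q b c else 0),
        fun k => match k with
          | none => [(b', c), (b, c)]
          | some e => [(!b, e), (b, e)],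
        fun k => by cases k <;> rfl, fun f st => ?_⟩
      simp only [List.cons_append, List.nil_append, crossL_anti_eq _ _ hb, Fintype.sum_option,
        turn]
      rw [sub_eq_add_neg, ← neg_mul, Finset.mul_sum]
      congr 1
      refine Finset.sum_congr rfl fun e _ => ?_
      split_ifs <;> ring
    · refine ⟨Unit, inferInstance, fun _ => 1, fun _ => [(b', d), (b, c)],
        fun _ => rfl, fun f st => ?_⟩
      simp only [List.cons_append, List.nil_append, crossL_anti_ne _ _ hb hc, Finset.univ_unique,
        Finset.sum_const, Finset.card_singleton, one_smul, one_mul]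

lemma pre_loc (q : ℝ) (p : OPiece) : Pre (loc q N p) p.forget.ins p.forget.outs := by
  cases p
  · exact pre_birth q _
  · exact pre_death q
  · exact pre_cross q _
  · exact pre_cross q _

lemma exch {g h : VF N → VF N} {m m' : ℕ} (hg : Pre g m m') (hh : Lin h) (a k : ℕ) (f : VF N)
    (s : VS N) (hs : a + m ≤ s.length) :
    atPos g a (atPos h (a + m' + k) f) s = atPos h (a + m + k) (atPos g a f) s := by
  obtain ⟨u, w, s', rfl, hu, hw⟩ : ∃ u w s' : VS N, s = u ++ (w ++ s') ∧ u.length = a ∧
      w.length = m := by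
    refine ⟨s.take a, (s.drop a).take m, (s.drop a).drop m, ?_, ?_, ?_⟩
    · rw [List.take_append_drop, List.take_append_drop]
    · rw [List.length_take]; omega
    · rw [List.length_take, List.length_drop]; omega
  obtain ⟨ι, _, A, v, hv, H⟩ := hg w hw
  rw [atPos_app0 g a u hu, add_assoc a m k, atPos_app' h (m + k) a u hu]
  have e1 : (fun r => atPos h (a + m' + k) f (u ++ r)) =
      atPos h (m' + k) (fun r => f (u ++ r)) := by
    funext r
    rw [add_assoc a m' k, atPos_app' h (m' + k) a u hu]
  have e2 : (fun r => atPos g a f (u ++ r)) = g (fun r => f (u ++ r)) := by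
    funext r
    rw [atPos_app0 g a u hu]
  rw [e1, e2, H, atPos_app' h k m w hw]
  have e3 : (fun r => g (fun r => f (u ++ r)) (w ++ r)) =
      fun r => ∑ i, A i * f (u ++ (v i ++ r)) := by
    funext r
    rw [H]
  rw [e3, (hh.atPos k).sum Finset.univ A (fun i r => f (u ++ (v i ++ r)))]
  refine Finset.sum_congr rfl fun i _ => ?_
  rw [atPos_app' h k m' (v i) (hv i)]

/-! ### `below` -/

lemma idx_eq (p : OPiece) : idx p = p.forget.index := by cases p <;> rfl

lemma below_len {o : OPiece} {n m : ℕ} {d e : ℕ → Bool} (h : o.below n d = some (m, e)) :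
    idx o + o.forget.ins ≤ n := by
  cases o <;> simp only [OPiece.below] at h <;> split_ifs at h with h1 <;>
    simp only [idx, OPiece.forget, Piece.ins] <;> omega

lemma below_out {o : OPiece} {n m : ℕ} {d e : ℕ → Bool} (h : o.below n d = some (m, e)) :
    m + o.forget.ins = n + o.forget.outs := by
  cases o <;> simp only [OPiece.below] at h <;> split_ifs at h with h1 <;>
    simp only [Option.some.injEq, Prod.mk.injEq] at h <;>
    simp only [OPiece.forget, Piece.ins, Piece.outs] <;> omega

lemma below_birth {i : ℕ} {b : Bool} {n m : ℕ} {d e : ℕ → Bool}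
    (h : (OPiece.birth i b).below n d = some (m, e)) : i ≤ n ∧ m = n + 2 ∧ e = insD i b d := by
  simp only [OPiece.below] at h
  split_ifs at h with h1
  simp only [Option.some.injEq, Prod.mk.injEq] at h
  exact ⟨h1, h.1.symm, h.2.symm⟩

lemma below_death {i : ℕ} {n m : ℕ} {d e : ℕ → Bool}
    (h : (OPiece.death i).below n d = some (m, e)) :
    i + 2 ≤ n ∧ d (i + 1) = (!d i) ∧ m = n - 2 ∧ e = delD i d := by
  simp only [OPiece.below] at h
  split_ifs at h with h1
  simp only [Option.some.injEq, Prod.mk.injEq] at h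
  exact ⟨h1.1, h1.2, h.1.symm, h.2.symm⟩

lemma below_pos {i : ℕ} {n m : ℕ} {d e : ℕ → Bool}
    (h : (OPiece.pos i).below n d = some (m, e)) : i + 2 ≤ n ∧ m = n ∧ e = swpD i d := by
  simp only [OPiece.below] at h
  split_ifs at h with h1
  simp only [Option.some.injEq, Prod.mk.injEq] at h
  exact ⟨h1, h.1.symm, h.2.symm⟩

lemma below_neg {i : ℕ} {n m : ℕ} {d e : ℕ → Bool}
    (h : (OPiece.neg i).below n d = some (m, e)) : i + 2 ≤ n ∧ m = n ∧ e = swpD i d := by
  simp only [OPiece.below] at h
  split_ifs at h with h1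
  simp only [Option.some.injEq, Prod.mk.injEq] at h
  exact ⟨h1, h.1.symm, h.2.symm⟩

lemma below_left {o : OPiece} {n m : ℕ} {d e : ℕ → Bool} (h : o.below n d = some (m, e)) (j : ℕ)
    (hj : j < idx o) : e j = d j := by
  cases o with
  | birth i b =>
    obtain ⟨_, _, rfl⟩ := below_birth h
    simp only [idx] at hj
    simp only [insD, if_pos hj]
  | death i =>
    obtain ⟨_, _, _, rfl⟩ := below_death h
    simp only [idx] at hj
    simp only [delD, if_pos hj]
  | pos i =>
    obtain ⟨_, _, rfl⟩ := below_pos h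
    simp only [idx] at hj
    simp only [swpD, if_neg (show ¬ j = i by omega), if_neg (show ¬ j = i + 1 by omega)]
  | neg i =>
    obtain ⟨_, _, rfl⟩ := below_neg h
    simp only [idx] at hj
    simp only [swpD, if_neg (show ¬ j = i by omega), if_neg (show ¬ j = i + 1 by omega)]

lemma insD_at (i : ℕ) (b : Bool) (d : ℕ → Bool) : insD i b d i = b := by simp [insD]

lemma insD_at1 (i : ℕ) (b : Bool) (d : ℕ → Bool) : insD i b d (i + 1) = !b := by simp [insD]

lemma insD_at2 (i : ℕ) (b : Bool) (d : ℕ → Bool) (k : ℕ) : insD i b d (i + 2 + k) = d (i + k) := by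
  unfold insD
  rw [if_neg (show ¬ i + 2 + k < i by omega), if_neg (show ¬ i + 2 + k = i by omega),
      if_neg (show ¬ i + 2 + k = i + 1 by omega)]
  congr 1
  omega

lemma swpD_at (i : ℕ) (d : ℕ → Bool) : swpD i d i = d (i + 1) := by simp [swpD]

lemma swpD_at1 (i : ℕ) (d : ℕ → Bool) : swpD i d (i + 1) = d i := by simp [swpD]

lemma swpD_at2 (i : ℕ) (d : ℕ → Bool) (k : ℕ) : swpD i d (i + 2 + k) = d (i + 2 + k) := by
  unfold swpD
  rw [if_neg (show ¬ i + 2 + k = i by omega), if_neg (show ¬ i + 2 + k = i + 1 by omega)]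

lemma delD_at (i : ℕ) (d : ℕ → Bool) (k : ℕ) : delD i d (i + k) = d (i + 2 + k) := by
  unfold delD
  rw [if_neg (show ¬ i + k < i by omega)]
  congr 1
  omega

lemma below_right {o : OPiece} {n m : ℕ} {d e : ℕ → Bool} (h : o.below n d = some (m, e)) (k : ℕ) :
    e (idx o + o.forget.outs + k) = d (idx o + o.forget.ins + k) := by
  cases o with
  | birth i b =>
    obtain ⟨_, _, rfl⟩ := below_birth h
    exact insD_at2 i b d k
  | death i =>
    obtain ⟨_, _, _, rfl⟩ := below_death h
    exact delD_at i d k
  | pos i =>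
    obtain ⟨_, _, rfl⟩ := below_pos h
    exact swpD_at2 i d k
  | neg i =>
    obtain ⟨_, _, rfl⟩ := below_neg h
    exact swpD_at2 i d k

lemma below_cons {p : OPiece} {w : OWord} {n : ℕ} {d : ℕ → Bool}
    (h : (below (p :: w) n d).isSome) : ∃ m e, p.below n d = some (m, e) ∧
      (below w m e).isSome ∧ below (p :: w) n d = below w m e := by
  cases hp : p.below n d with
  | none => simp [below, hp] at h
  | some x =>
    obtain ⟨m, e⟩ := x
    refine ⟨m, e, rfl, ?_, ?_⟩
    · simpa [below, hp] using h
    · simp [below, hp]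

lemma below_two {p p' : OPiece} {n : ℕ} {d : ℕ → Bool} (h : (below [p, p'] n d).isSome) :
    ∃ m e m' e', p.below n d = some (m, e) ∧ p'.below m e = some (m', e') ∧
      below [p, p'] n d = some (m', e') := by
  obtain ⟨m, e, h1, h2, h3⟩ := below_cons h
  obtain ⟨m', e', h4, h5, h6⟩ := below_cons h2
  exact ⟨m, e, m', e', h1, h4, by rw [h3, h6]; rfl⟩

lemma below_one {p : OPiece} {n : ℕ} {d : ℕ → Bool} (h : (below [p] n d).isSome) :
    ∃ m e, p.below n d = some (m, e) ∧ below [p] n d = some (m, e) := by
  obtain ⟨m, e, h1, h2, h3⟩ := below_cons h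
  exact ⟨m, e, h1, by rw [h3]; rfl⟩

/-! ### words with a given underlying diagram -/

lemma forget_nil {l : OWord} (h : forget l = []) : l = [] := List.map_eq_nil_iff.1 h

lemma forget_cons {l : OWord} {p : Piece} {w : Word} (h : forget l = p :: w) :
    ∃ p' w', l = p' :: w' ∧ p'.forget = p ∧ forget w' = w := by
  obtain ⟨p', w', h1, h2, h3⟩ := List.map_eq_cons_iff.1 h
  exact ⟨p', w', h1, h2, h3⟩

lemma forget_one {l : OWord} {p : Piece} (h : forget l = [p]) :
    ∃ p', l = [p'] ∧ p'.forget = p := by
  obtain ⟨p', w', rfl, h2, h3⟩ := forget_cons h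
  obtain rfl := forget_nil h3
  exact ⟨p', rfl, h2⟩

lemma forget_two {l : OWord} {p p1 : Piece} (h : forget l = [p, p1]) :
    ∃ p' p1', l = [p', p1'] ∧ p'.forget = p ∧ p1'.forget = p1 := by
  obtain ⟨p', w', rfl, h2, h3⟩ := forget_cons h
  obtain ⟨p1', rfl, h4⟩ := forget_one h3
  exact ⟨p', p1', rfl, h2, h4⟩

lemma of_birth {p : OPiece} {i : ℕ} (h : p.forget = .birth i) : ∃ b, p = .birth i b := by
  cases p <;> simp [OPiece.forget] at h
  exact ⟨_, by rw [h]⟩

lemma of_death {p : OPiece} {i : ℕ} (h : p.forget = .death i) : p = .death i := by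
  cases p <;> simp [OPiece.forget] at h
  rw [h]

lemma of_pos {p : OPiece} {i : ℕ} (h : p.forget = .pos i) : p = .pos i := by
  cases p <;> simp [OPiece.forget] at h
  rw [h]

lemma of_neg {p : OPiece} {i : ℕ} (h : p.forget = .neg i) : p = .neg i := by
  cases p <;> simp [OPiece.forget] at h
  rw [h]

/-! ### the exchange move -/

/-- two pieces of the same kind with the same directions have the same local operator -/
lemma loc_eq (q : ℝ) {o o' : OPiece} {j : ℕ} (h : o.forget = o'.forget.moved j)
    (hd : ∀ i b i' b', o = .birth i b → o' = .birth i' b' → b = b') : loc q N o = loc q N o' := by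
  cases o <;> cases o' <;> simp only [OPiece.forget, Piece.moved, reduceCtorEq] at h
  · rename_i i b i' b'
    obtain rfl := hd i b i' b' rfl rfl
    rfl
  · rfl
  · rfl
  · rfl

lemma moved_index (p : Piece) (j : ℕ) : (p.moved j).index = j := by cases p <;> rfl

lemma moved_self (p : Piece) : p.moved p.index = p := by cases p <;> rfl

lemma moved_ins (p : Piece) (j : ℕ) : (p.moved j).ins = p.ins := by cases p <;> rfl

lemma moved_outs (p : Piece) (j : ℕ) : (p.moved j).outs = p.outs := by cases p <;> rfl

lemma rel_exchange (q : ℝ) {n : ℕ} {d : ℕ → Bool} {p₁ q₁ q₂ p₂ : OPiece}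
    (h1 : p₁.forget = p₂.forget)
    (h2 : q₁.forget = q₂.forget.moved (q₂.forget.index + p₁.forget.outs - p₁.forget.ins))
    (hle : p₁.forget.index + p₁.forget.ins ≤ q₂.forget.index)
    (hbel : below [p₁, q₁] n d = below [q₂, p₂] n d) (hs : (below [p₁, q₁] n d).isSome) :
    RelV q N n d 1 [p₁, q₁] [q₂, p₂] := by
  obtain ⟨m, e, m', e', a1, a2, a3⟩ := below_two hs
  obtain ⟨k, hk⟩ := Nat.exists_eq_add_of_le hle
  rw [hbel] at hs
  obtain ⟨m2, e2, m2', e2', b1, b2, b3⟩ := below_two hs
  have hfin : e' = e2' := by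
    have := a3.symm.trans (hbel.trans b3)
    simp only [Option.some.injEq, Prod.mk.injEq] at this
    exact this.2
  subst hfin
  have iq1 : idx q₁ = idx p₁ + p₁.forget.outs + k := by
    rw [idx_eq, h2, moved_index, hk, idx_eq]; omega
  have iq2 : idx q₂ = idx p₁ + p₁.forget.ins + k := by
    rw [idx_eq, hk, idx_eq]
  have ip : idx p₂ = idx p₁ := by rw [idx_eq, idx_eq, h1]
  -- the directions of the births agree
  have lp : loc q N p₁ = loc q N p₂ := by
    refine loc_eq q (j := p₂.forget.index) (by rw [moved_self, h1]) ?_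
    rintro i b i' b' rfl rfl
    obtain ⟨_, _, he⟩ := below_birth a1
    obtain ⟨_, _, he'⟩ := below_birth b2
    have hii : i' = i := ip
    have c1 : e' i = e i := below_left a2 i (by rw [iq1]; simp [idx, OPiece.forget, Piece.outs]; omega)
    rw [he, insD_at, he', hii, insD_at] at c1
    exact c1.symm
  have lq : loc q N q₁ = loc q N q₂ := by
    refine loc_eq q h2 ?_
    rintro i b i' b' rfl rfl
    obtain ⟨_, _, he⟩ := below_birth a2
    obtain ⟨_, _, he'⟩ := below_birth b1
    have c1 := below_right b2 k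
    rw [ip, ← h1, ← iq1, ← iq2, he', he] at c1
    simp only [idx, insD_at] at c1
    exact c1
  intro f s hst
  rw [one_mul]
  simp only [opWV, opV_eq]
  rw [ip, ← lp, ← lq, iq1, iq2]
  refine exch (pre_loc q p₁) (lin_loc q q₁) (idx p₁) k f s ?_
  rw [state_length hst]
  exact below_len a1

end Pool.Agent.Helper82_Alt.PV
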