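import Pool.Agent.Helper82_Alt.Spec

/-!
# Vertex model: locality and linearity of the operators
-/

set_option autoImplicit false

namespace Pool.Agent.Helper82_Alt.PVL

open Pool.Agent.Helper454.Kauf (Piece Word LocalMove FirstMove)
open Pool.Agent.Helper454.Wh (OPiece OWord below noD forget OClosed insD delD swpD)

variable {N : ℕ}

/-- `f` and `g` agree on the states with the directions `L` -/
def EqOn (L : List Bool) (f g : VF N) : Prop := ∀ s : VS N, s.map Prod.fst = L → f s = g s

/-- a partial operation on direction lists, after the first `i` strands -/
def atL (g : List Bool → Option (List Bool)) : ℕ → List Bool → Option (List Bool)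
  | 0, L => g L
  | _ + 1, [] => none
  | i + 1, a :: L => (atL g i L).map (a :: ·)

def deathD : List Bool → Option (List Bool)
  | a :: b :: L => if b = !a then some L else none
  | _ => none

def swapD : List Bool → Option (List Bool)
  | a :: b :: L => some (b :: a :: L)
  | _ => none

/-- directions below a piece -/
def belL : OPiece → List Bool → Option (List Bool)
  | .birth i b => atL (fun L => some (b :: (!b) :: L)) i
  | .death i => atL deathD i
  | .pos i => atL swapD i
  | .neg i => atL swapD i

def belLW : OWord → List Bool → Option (List Bool)
  | [], L => some L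
  | p :: w, L => (belL p L).bind (belLW w)

theorem dlist_zero (d : ℕ → Bool) : dlist 0 d = [] := rfl

theorem dlist_succ (n : ℕ) (d : ℕ → Bool) : dlist (n + 1) d = d 0 :: dlist n (fun k => d (k + 1)) := by
  unfold dlist
  rw [List.range_succ_eq_map, List.map_cons, List.map_map]
  rfl

theorem dlist_length (n : ℕ) (d : ℕ → Bool) : (dlist n d).length = n := by simp [dlist]

theorem dlist_congr (n : ℕ) (d e : ℕ → Bool) (h : ∀ k < n, d k = e k) : dlist n d = dlist n e := by
  unfold dlist
  apply List.map_congr_left
  intro a ha
  exact h a (List.mem_range.1 ha)

/-- a list as a `dlist` -/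
theorem eq_dlist (L : List Bool) : L = dlist L.length (fun k => L.getD k false) := by
  induction L with
  | nil => rfl
  | cons a L ih =>
    rw [List.length_cons, dlist_succ]
    simp only [List.getD_cons_zero, List.getD_cons_succ]
    rw [← ih]

theorem belL_birth (i : ℕ) (b : Bool) : ∀ (n : ℕ) (d : ℕ → Bool),
    atL (fun L => some (b :: (!b) :: L)) i (dlist n d) =
      if i ≤ n then some (dlist (n + 2) (insD i b d)) else none := by
  induction i with
  | zero =>
    intro n d
    simp only [atL, Nat.zero_le, if_true]
    rw [dlist_succ, dlist_succ]
    rfl
  | succ i ih =>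
    intro n d
    cases n with
    | zero => simp [dlist_zero, atL]
    | succ n =>
      rw [dlist_succ]
      simp only [atL]
      rw [ih]
      by_cases h : i ≤ n
      · rw [if_pos h, if_pos (by omega), Option.map_some]
        rw [show n + 1 + 2 = n + 2 + 1 by ring, dlist_succ (n + 2)]
        congr 2
        apply dlist_congr
        intro k _
        unfold insD
        by_cases h1 : k < i
        · rw [if_pos h1, if_pos (by omega)]
        by_cases h2 : k = i
        · subst h2; simp
        by_cases h3 : k = i + 1
        · subst h3; simp
        rw [if_neg h1, if_neg h2, if_neg h3, if_neg (by omega), if_neg (by omega), if_neg (by omega)]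
        rw [show k + 1 - 2 = k - 2 + 1 by omega]
      · rw [if_neg h, if_neg (by omega)]
        rfl

theorem belL_death (i : ℕ) : ∀ (n : ℕ) (d : ℕ → Bool),
    atL deathD i (dlist n d) =
      if i + 2 ≤ n ∧ d (i + 1) = !d i then some (dlist (n - 2) (delD i d)) else none := by
  induction i with
  | zero =>
    intro n d
    match n with
    | 0 => simp [atL, dlist_zero, deathD]
    | 1 => simp [atL, dlist_succ, dlist_zero, deathD]
    | n + 2 =>
      rw [dlist_succ, dlist_succ]
      simp only [atL, deathD]
      by_cases h : d (0 + 1) = !d 0
      · rw [if_pos h, if_pos ⟨by omega, h⟩]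
        have h1 : delD 0 d = fun k => d (k + 1 + 1) := by
          funext k
          simp [delD]
        rw [h1]
        rfl
      · rw [if_neg h, if_neg (fun hh => h hh.2)]
  | succ i ih =>
    intro n d
    cases n with
    | zero => simp [dlist_zero, atL]
    | succ n =>
      rw [dlist_succ]
      simp only [atL]
      rw [ih]
      by_cases h : i + 2 ≤ n ∧ d (i + 1 + 1) = !d (i + 1)
      · rw [if_pos h, if_pos ⟨by omega, h.2⟩, Option.map_some]
        obtain ⟨m, rfl⟩ : ∃ m, n = m + 2 := ⟨n - 2, by omega⟩
        rw [show m + 2 + 1 - 2 = m + 1 by omega, show m + 2 - 2 = m by omega, dlist_succ]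
        congr 2
        apply dlist_congr
        intro k _
        unfold delD
        by_cases h1 : k < i
        · rw [if_pos h1, if_pos (by omega)]
        · rw [if_neg h1, if_neg (by omega)]
      · rw [if_neg h, if_neg (fun hh => h ⟨by omega, hh.2⟩)]
        rfl

theorem belL_swap (i : ℕ) : ∀ (n : ℕ) (d : ℕ → Bool),
    atL swapD i (dlist n d) =
      if i + 2 ≤ n then some (dlist n (swpD i d)) else none := by
  induction i with
  | zero =>
    intro n d
    match n with
    | 0 => simp [atL, dlist_zero, swapD]
    | 1 => simp [atL, dlist_succ, dlist_zero, swapD]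
    | n + 2 =>
      rw [dlist_succ, dlist_succ, if_pos (by omega), dlist_succ, dlist_succ]
      simp only [atL, swapD]
      rfl
  | succ i ih =>
    intro n d
    cases n with
    | zero => simp [dlist_zero, atL]
    | succ n =>
      rw [dlist_succ]
      simp only [atL]
      rw [ih]
      by_cases h : i + 2 ≤ n
      · rw [if_pos h, if_pos (by omega), Option.map_some, dlist_succ]
        congr 2
        apply dlist_congr
        intro k _
        unfold swpD
        simp only [Nat.add_right_cancel_iff]
      · rw [if_neg h, if_neg (by omega)]
        rfl

theorem belL_dlist (p : OPiece) (n : ℕ) (d : ℕ → Bool) :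
    belL p (dlist n d) = (p.below n d).map (fun s => dlist s.1 s.2) := by
  cases p with
  | birth i b =>
    simp only [belL, OPiece.below]
    rw [belL_birth]
    split_ifs <;> rfl
  | death i =>
    simp only [belL, OPiece.below]
    rw [belL_death]
    split_ifs <;> rfl
  | pos i =>
    simp only [belL, OPiece.below]
    rw [belL_swap]
    split_ifs <;> rfl
  | neg i =>
    simp only [belL, OPiece.below]
    rw [belL_swap]
    split_ifs <;> rfl

theorem belLW_dlist (w : OWord) : ∀ (n : ℕ) (d : ℕ → Bool),
    belLW w (dlist n d) = (below w n d).map (fun s => dlist s.1 s.2) := by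
  induction w with
  | nil => intro n d; rfl
  | cons p w ih =>
    intro n d
    simp only [belLW, below]
    rw [belL_dlist]
    cases p.below n d with
    | none => rfl
    | some s => simp [ih]

/-! ### locality -/

theorem atPos_congr (op : VF N → VF N) (g : List Bool → Option (List Bool))
    (h : ∀ (L L' : List Bool) (f f' : VF N), g L = some L' → EqOn L' f f' → EqOn L (op f) (op f')) :
    ∀ (i : ℕ) (L L' : List Bool) (f f' : VF N), atL g i L = some L' → EqOn L' f f' →
      EqOn L (atPos op i f) (atPos op i f') := by
  intro i
  induction i with
  | zero => intro L L' f f' h1 h2 s hs; exact h L L' f f' h1 h2 s hs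
  | succ i ih =>
    intro L L' f f' h1 h2 s hs
    cases L with
    | nil => simp [atL] at h1
    | cons a L =>
      cases s with
      | nil => simp at hs
      | cons x s =>
        simp only [List.map_cons, List.cons.injEq] at hs
        simp only [atL, Option.map_eq_some_iff] at h1
        obtain ⟨L1, h3, h4⟩ := h1
        simp only [atPos]
        refine ih L L1 _ _ h3 ?_ s hs.2
        intro r hr
        apply h2
        rw [List.map_cons, hs.1, hr, h4]

theorem opV_congr (q : ℝ) (p : OPiece) (L L' : List Bool) (f f' : VF N) (h : belL p L = some L')
    (hf : EqOn L' f f') : EqOn L (opV q N p f) (opV q N p f') := by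
  have hcross : ∀ (s : Bool) (L L' : List Bool) (f f' : VF N), swapD L = some L' → EqOn L' f f' →
      EqOn L (crossL q s f) (crossL q s f') := by
    intro s L L' f f' h hf st hst
    match L, st, h, hst with
    | a :: b :: L, (a', c) :: (b', c') :: st, h, hst =>
      simp only [swapD, Option.some.injEq] at h
      simp only [List.map_cons, List.cons.injEq] at hst
      obtain ⟨h1, h2, h3⟩ := hst
      subst h
      simp only [crossL]
      subst h1 h2 h3
      split_ifs with h4 h5 h6 h7 h8 h9 <;>
      first
        | rfl
        | (subst h4; rw [hf ((a', c) :: (a', c) :: st) (by simp)])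
        | (subst h4; rw [hf ((a', c') :: (a', c) :: st) (by simp), hf ((a', c) :: (a', c') :: st) (by simp)])
        | (subst h4; rw [hf ((a', c') :: (a', c) :: st) (by simp)])
        | (rw [hf ((b', c) :: (a', c) :: st) (by simp)]
           congr 2
           apply Finset.sum_congr rfl
           intro e _
           rw [hf (((!a'), e) :: (a', e) :: st) (by
             have : b' = !a' := by cases a' <;> cases b' <;> simp_all
             simp [this])])
        | rw [hf ((b', c') :: (a', c) :: st) (by simp)]
  cases p with
  | birth i b =>
    refine atPos_congr _ _ ?_ i L L' f f' h hf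
    intro L L' f f' h hf s hs
    simp only [Option.some.injEq] at h
    simp only [birthL]
    apply Finset.sum_congr rfl
    intro c _
    rw [hf]
    simp [hs, h]
  | death i =>
    refine atPos_congr _ _ ?_ i L L' f f' h hf
    intro L L' f f' h hf st hst
    match L, st, h, hst with
    | a :: b :: L, (a', c) :: (b', c') :: st, h, hst =>
      simp only [List.map_cons, List.cons.injEq] at hst
      obtain ⟨h1, h2, h3⟩ := hst
      subst h1 h2 h3
      simp only [deathD] at h
      simp only [deathL]
      split_ifs at h with h4
      simp only [Option.some.injEq] at h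
      subst h
      rw [hf st rfl]
  | pos i => exact atPos_congr _ _ (hcross false) i L L' f f' h hf
  | neg i => exact atPos_congr _ _ (hcross true) i L L' f f' h hf

theorem opWV_congrL (q : ℝ) (w : OWord) : ∀ (L L' : List Bool) (f f' : VF N),
    belLW w L = some L' → EqOn L' f f' → EqOn L (opWV q N w f) (opWV q N w f') := by
  induction w with
  | nil =>
    intro L L' f f' h hf
    simp only [belLW, Option.some.injEq] at h
    subst h
    exact hf
  | cons p w ih =>
    intro L L' f f' h hf
    simp only [belLW, Option.bind_eq_some_iff] at h
    obtain ⟨L1, h1, h2⟩ := h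
    simp only [opWV]
    exact opV_congr q p L L1 _ _ h1 (ih L1 L' f f' h2 hf)

/-- `opWV x f` depends only on `f` at the states with the directions below `x` -/
theorem opWV_congr (q : ℝ) (w : OWord) (n : ℕ) (d : ℕ → Bool) (m : ℕ) (e : ℕ → Bool) (f f' : VF N)
    (h : below w n d = some (m, e)) (hf : EqOn (dlist m e) f f') :
    EqOn (dlist n d) (opWV q N w f) (opWV q N w f') := by
  refine opWV_congrL q w (dlist n d) (dlist m e) f f' ?_ hf
  rw [belLW_dlist, h]
  rfl

theorem opWV_append (q : ℝ) (x y : OWord) (f : VF N) :
    opWV q N (x ++ y) f = opWV q N x (opWV q N y f) := by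
  induction x with
  | nil => rfl
  | cons p x ih => simp only [List.cons_append, opWV, ih]

/-! ### linearity -/

theorem atPos_smul (op : VF N → VF N) (c : ℝ)
    (h : ∀ f : VF N, op (fun s => c * f s) = fun s => c * op f s) :
    ∀ (i : ℕ) (f : VF N), atPos op i (fun s => c * f s) = fun s => c * atPos op i f s := by
  intro i
  induction i with
  | zero => intro f; funext s; exact congrFun (h f) s
  | succ i ih =>
    intro f
    funext s
    cases s with
    | nil => simp [atPos]
    | cons x s =>
      simp only [atPos]
      rw [ih (fun r => f (x :: r))]

theorem opV_smul (q : ℝ) (p : OPiece) (c : ℝ) (f : VF N) :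
    opV q N p (fun s => c * f s) = fun s => c * opV q N p f s := by
  have hcross : ∀ (s : Bool) (f : VF N), crossL q s (fun s => c * f s) = fun st => c * crossL q s f st := by
    intro s f
    funext st
    match st with
    | [] => simp [crossL]
    | [_] => simp [crossL]
    | (a, e) :: (b, e') :: st =>
      simp only [crossL]
      have hs : (∑ x : Fin N, if ordP s a e x then
          wB q (!a) x * wD q a e * (c * f ((!a, x) :: (a, x) :: st)) else 0) =
          c * ∑ x : Fin N, if ordP s a e x then
            wB q (!a) x * wD q a e * f ((!a, x) :: (a, x) :: st) else 0 := by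
        rw [Finset.mul_sum]
        apply Finset.sum_congr rfl
        intro x _
        split_ifs <;> ring
      rw [hs]
      split_ifs <;> ring1
  cases p with
  | birth i b =>
    refine atPos_smul _ c ?_ i f
    intro f
    funext s
    simp only [birthL]
    rw [Finset.mul_sum]
    apply Finset.sum_congr rfl
    intro x _
    ring
  | death i =>
    refine atPos_smul _ c ?_ i f
    intro f
    funext st
    match st with
    | [] => simp [deathL]
    | [_] => simp [deathL]
    | (a, e) :: (b, e') :: st =>
      simp only [deathL]
      split_ifs <;> ring
  | pos i => exact atPos_smul _ c (hcross false) i f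
  | neg i => exact atPos_smul _ c (hcross true) i f

theorem opWV_smul (q : ℝ) (w : OWord) (c : ℝ) (f : VF N) :
    opWV q N w (fun s => c * f s) = fun s => c * opWV q N w f s := by
  induction w with
  | nil => rfl
  | cons p w ih => simp only [opWV, ih, opV_smul]

theorem atPos_add (op : VF N → VF N)
    (h : ∀ f g : VF N, op (fun s => f s + g s) = fun s => op f s + op g s) :
    ∀ (i : ℕ) (f g : VF N), atPos op i (fun s => f s + g s) =
      fun s => atPos op i f s + atPos op i g s := by
  intro i
  induction i with
  | zero => intro f g; funext s; exact congrFun (h f g) s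
  | succ i ih =>
    intro f g
    funext s
    cases s with
    | nil => simp [atPos]
    | cons x s =>
      simp only [atPos]
      rw [ih (fun r => f (x :: r)) (fun r => g (x :: r))]

theorem opV_add (q : ℝ) (p : OPiece) (f g : VF N) :
    opV q N p (fun s => f s + g s) = fun s => opV q N p f s + opV q N p g s := by
  have hcross : ∀ (s : Bool) (f g : VF N), crossL q s (fun s => f s + g s) =
      fun st => crossL q s f st + crossL q s g st := by
    intro s f g
    funext st
    match st with
    | [] => simp [crossL]
    | [_] => simp [crossL]
    | (a, e) :: (b, e') :: st =>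
      simp only [crossL]
      have hs : (∑ x : Fin N, if ordP s a e x then
          wB q (!a) x * wD q a e * (f ((!a, x) :: (a, x) :: st) + g ((!a, x) :: (a, x) :: st)) else 0) =
          (∑ x : Fin N, if ordP s a e x then
            wB q (!a) x * wD q a e * f ((!a, x) :: (a, x) :: st) else 0) +
          ∑ x : Fin N, if ordP s a e x then
            wB q (!a) x * wD q a e * g ((!a, x) :: (a, x) :: st) else 0 := by
        rw [← Finset.sum_add_distrib]
        apply Finset.sum_congr rfl
        intro x _
        split_ifs <;> ring
      rw [hs]
      split_ifs <;> ring1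
  cases p with
  | birth i b =>
    refine atPos_add _ ?_ i f g
    intro f g
    funext s
    simp only [birthL]
    rw [← Finset.sum_add_distrib]
    apply Finset.sum_congr rfl
    intro x _
    ring
  | death i =>
    refine atPos_add _ ?_ i f g
    intro f g
    funext st
    match st with
    | [] => simp [deathL]
    | [_] => simp [deathL]
    | (a, e) :: (b, e') :: st =>
      simp only [deathL]
      split_ifs <;> ring
  | pos i => exact atPos_add _ (hcross false) i f g
  | neg i => exact atPos_add _ (hcross true) i f g

theorem opWV_add (q : ℝ) (w : OWord) (f g : VF N) :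
    opWV q N w (fun s => f s + g s) = fun s => opWV q N w f s + opWV q N w g s := by
  induction w with
  | nil => rfl
  | cons p w ih => simp only [opWV, ih, opV_add]

/-- local relations may be used inside a diagram -/
theorem relV_mid (q : ℝ) (x l r y : OWord) (n m : ℕ) (d e : ℕ → Bool) (c : ℝ)
    (hx : below x n d = some (m, e)) (h : RelV q N m e c l r) (f : VF N) (s : VS N)
    (hs : s.map Prod.fst = dlist n d) :
    opWV q N (x ++ l ++ y) f s = c * opWV q N (x ++ r ++ y) f s := by
  rw [opWV_append, opWV_append, opWV_append, opWV_append]
  have h1 := opWV_congr q x n d m e (opWV q N l (opWV q N y f))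
    (fun s => c * opWV q N r (opWV q N y f) s) hx (fun s hs => h _ s hs) s hs
  rw [h1, opWV_smul]

end Pool.Agent.Helper82_Alt.PVL
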