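import Pool.Agent.Helper82_Alt.Spec

/-!
# Widths of closed diagrams, telescoping sums
-/

set_option autoImplicit false

namespace Pool.Agent.Helper82_Alt.PWid

open Pool.Agent.Helper454.Kauf (Piece Word Closed width)

theorem width_append (x y : Word) (n : ℕ) : width (x ++ y) n = (width x n).bind (width y) := by
  induction x generalizing n with
  | nil => rfl
  | cons p x ih =>
    show (p.width n).bind (width (x ++ y)) = ((p.width n).bind (width x)).bind (width y)
    cases h : p.width n with
    | none => rfl
    | some m => exact ih m

theorem width_take {D : Word} (h : Closed D) (t : ℕ) : width (D.take t) 0 = some (wid D t) := by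
  have h1 : width (D.take t ++ D.drop t) 0 = some 0 := by rw [List.take_append_drop]; exact h
  rw [width_append] at h1
  unfold wid
  cases h2 : width (D.take t) 0 with
  | none => rw [h2] at h1; simp at h1
  | some m => rfl

theorem width_step {D : Word} (h : Closed D) {t : ℕ} (ht : t < D.length) :
    (D[t]).width (wid D t) = some (wid D (t + 1)) := by
  have h1 := width_take h (t + 1)
  rw [List.take_succ_eq_append_getElem ht, width_append, width_take h t] at h1
  change ((D[t]).width (wid D t)).bind (fun n => some n) = _ at h1
  simpa using h1

theorem wid_zero (D : Word) : wid D 0 = 0 := rfl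

theorem wid_length {D : Word} (h : Closed D) : wid D D.length = 0 := by
  unfold wid
  rw [List.take_length, h]
  rfl

theorem wid_ge {D : Word} (h : Closed D) {t : ℕ} (ht : D.length ≤ t) : wid D t = 0 := by
  unfold wid
  rw [List.take_of_length_le ht, h]
  rfl

/-- inversion of one step -/
theorem step_birth {D : Word} (h : Closed D) {t : ℕ} (ht : t < D.length) {i : ℕ}
    (hp : D[t] = .birth i) : i ≤ wid D t ∧ wid D (t + 1) = wid D t + 2 := by
  have h1 := width_step h ht
  rw [hp] at h1
  simp only [Helper454.Kauf.Piece.width] at h1
  split at h1
  · rename_i h2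
    exact ⟨h2, by simpa using h1.symm⟩
  · simp at h1

theorem step_death {D : Word} (h : Closed D) {t : ℕ} (ht : t < D.length) {i : ℕ}
    (hp : D[t] = .death i) : i + 2 ≤ wid D t ∧ wid D (t + 1) + 2 = wid D t := by
  have h1 := width_step h ht
  rw [hp] at h1
  simp only [Helper454.Kauf.Piece.width] at h1
  split at h1
  · rename_i h2
    have h3 : wid D t - 2 = wid D (t + 1) := by simpa using h1
    exact ⟨h2, by omega⟩
  · simp at h1

theorem step_pos {D : Word} (h : Closed D) {t : ℕ} (ht : t < D.length) {i : ℕ}
    (hp : D[t] = .pos i) : i + 2 ≤ wid D t ∧ wid D (t + 1) = wid D t := by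
  have h1 := width_step h ht
  rw [hp] at h1
  simp only [Helper454.Kauf.Piece.width] at h1
  split at h1
  · rename_i h2
    exact ⟨h2, by simpa using h1.symm⟩
  · simp at h1

theorem step_neg {D : Word} (h : Closed D) {t : ℕ} (ht : t < D.length) {i : ℕ}
    (hp : D[t] = .neg i) : i + 2 ≤ wid D t ∧ wid D (t + 1) = wid D t := by
  have h1 := width_step h ht
  rw [hp] at h1
  simp only [Helper454.Kauf.Piece.width] at h1
  split at h1
  · rename_i h2
    exact ⟨h2, by simpa using h1.symm⟩
  · simp at h1

/-- the width is even -/
theorem wid_even {D : Word} (h : Closed D) (t : ℕ) : wid D t % 2 = 0 := by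
  induction t with
  | zero => rfl
  | succ t ih =>
    by_cases ht : t < D.length
    · cases hp : D[t] with
      | birth i => have := step_birth h ht hp; omega
      | death i => have := step_death h ht hp; omega
      | pos i => have := step_pos h ht hp; omega
      | neg i => have := step_neg h ht hp; omega
    · rw [wid_ge h (by omega)]

/-- telescoping -/
theorem telescope {A : Type} [AddCommGroup A] (n : ℕ) (f : Fin n → A) (g : ℕ → A)
    (h : ∀ t : Fin n, f t = g (t + 1) - g t) : ∑ t : Fin n, f t = g n - g 0 := by
  have h1 : ∑ t : Fin n, f t = ∑ t ∈ Finset.range n, (g (t + 1) - g t) := by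
    rw [Finset.sum_range]
    exact Finset.sum_congr rfl fun t _ => h t
  rw [h1, Finset.sum_range_sub]

/-! ### rows -/

section rows

variable {G : Type}

/-- the row below from the row above and the new value -/
def row : Piece → (ℕ → G) → G → ℕ → G
  | .birth i, x, c => fun j => if j ≤ i then x j else if j = i + 1 then c else x (j - 2)
  | .death i, x, _ => fun j => if j ≤ i then x j else x (j + 2)
  | .pos i, x, c => fun j => if j = i + 1 then c else x j
  | .neg i, x, c => fun j => if j = i + 1 then c else x j

/-- the new value -/
def newv : Piece → (ℕ → G) → G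
  | .birth i, x' => x' (i + 1)
  | .death _, x' => x' 0
  | .pos i, x' => x' (i + 1)
  | .neg i, x' => x' (i + 1)

theorem row_of_step {p : Piece} {x x' : ℕ → G} (h : RStep p x x') : x' = row p x (newv p x') := by
  cases p with
  | birth i =>
    obtain ⟨h1, h2⟩ := h
    funext j
    simp only [row, newv]
    split_ifs with a b
    · exact h1 j a
    · rw [b]
    · have := h2 (j - 2) (by omega)
      rw [show j - 2 + 2 = j by omega] at this
      exact this
  | death i =>
    obtain ⟨h1, h2⟩ := h
    funext j
    simp only [row]
    split_ifs with a
    · exact (h1 j a).symm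
    · exact (h2 j (by omega)).symm
  | pos i =>
    funext j
    simp only [row, newv]
    split_ifs with a
    · rw [a]
    · exact h j a
  | neg i =>
    funext j
    simp only [row, newv]
    split_ifs with a
    · rw [a]
    · exact h j a

/-- the label of the leftmost gap is that of the unbounded region -/
theorem rlab_left {D : Word} {r : ℕ → ℕ → G} (hr : RLab D r) (t : ℕ) : r t 0 = r 0 0 := by
  by_cases ht : t ≤ D.length
  · induction t with
    | zero => rfl
    | succ t ih =>
      have h1 := hr.2.2 t (by omega)
      rw [← ih (by omega)]
      revert h1
      cases D[t] with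
      | birth i => exact fun h1 => h1.1 0 (by omega)
      | death i => exact fun h1 => (h1.1 0 (by omega)).symm
      | pos i => exact fun h1 => h1 0 (by omega)
      | neg i => exact fun h1 => h1 0 (by omega)
  · rw [hr.2.1 t (by omega)]

/-- the label of the rightmost gap and of the fake gaps -/
theorem rlab_right {D : Word} (hD : Closed D) {r : ℕ → ℕ → G} (hr : RLab D r) (t j : ℕ)
    (hj : wid D t ≤ j) : r t j = r 0 0 := by
  by_cases ht : t ≤ D.length
  · induction t generalizing j with
    | zero => exact hr.1 j
    | succ t ih =>
      have h1 := hr.2.2 t (by omega)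
      cases hp : D[t] with
      | birth i =>
        rw [hp] at h1
        have h3 := step_birth hD (by omega) hp
        have h2 := h1.2 (j - 2) (by omega)
        rw [show j - 2 + 2 = j by omega] at h2
        rw [h2]
        exact ih (j - 2) (by omega) (by omega)
      | death i =>
        rw [hp] at h1
        have h3 := step_death hD (by omega) hp
        rw [← h1.2 j (by omega)]
        exact ih (j + 2) (by omega) (by omega)
      | pos i =>
        rw [hp] at h1
        have h3 := step_pos hD (by omega) hp
        rw [h1 j (by omega)]
        exact ih j (by omega) (by omega)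
      | neg i =>
        rw [hp] at h1
        have h3 := step_neg hD (by omega) hp
        rw [h1 j (by omega)]
        exact ih j (by omega) (by omega)
  · rw [hr.2.1 t (by omega)]
    exact hr.1 j

end rows

end Pool.Agent.Helper82_Alt.PWid
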